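import Mathlib

set_option autoImplicit false

/-!
# H20G module A: definitions (the block theorem and its interface)

`BlockThm C0` is what the rest of the proof (sections 1 to 10) has to supply; modules `A1 … A8` deduce the frozen
statement S17941 from `∀ C0 ≥ 1, BlockThm C0`.
-/

namespace Pool.Agent.H20G

open Finset MeasureTheory

/-- the mass `m_q = 2 ^ (- lev q)` -/
noncomputable def ms (lev : ℕ → ℕ) (q : ℕ) : ℝ := (1 / 2 : ℝ) ^ (lev q)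

/-- `D(q, r) = lcm(q, r) (m_q / q + m_r / r) = (r m_q + q m_r) / gcd(q, r)` -/
noncomputable def Dqr (lev : ℕ → ℕ) (q r : ℕ) : ℝ :=
  ((r : ℝ) * ms lev q + (q : ℝ) * ms lev r) / (Nat.gcd q r : ℝ)

/-- there is a kept coincidence between `q` and `r` (`P q`, `P r` are the kept numerators) -/
def Meet (γ : ℝ) (lev : ℕ → ℕ) (P : ℕ → Set ℤ) (q r : ℕ) : Prop :=
  ∃ p ∈ P q, ∃ p' ∈ P r,
    |((((r / Nat.gcd q r : ℕ) : ℤ) * p - ((q / Nat.gcd q r : ℕ) : ℤ) * p' : ℤ) : ℝ) +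
      (((r / Nat.gcd q r : ℕ) : ℝ) - ((q / Nat.gcd q r : ℕ) : ℝ)) * γ| < Dqr lev q r

open Classical in
/-- the block theorem (UP and LOW of (0.2)); `P q` need not be periodic -/
def BlockThm (C0 : ℝ) : Prop :=
  ∃ K0 C c : ℝ, 1 ≤ K0 ∧ 0 < C ∧ 0 < c ∧ ∀ γ δ : ℝ, 0 < δ → ∃ Q : ℕ,
    ∀ (S : Finset ℕ) (lev : ℕ → ℕ),
      (∀ q ∈ S, Q ≤ q ∧ 0 < q ∧ 4 ≤ lev q ∧ (q : ℝ) ≤ C0 * (Nat.totient q : ℝ)) →
      1 ≤ ∑ q ∈ S, ms lev q → ∑ q ∈ S, ms lev q ≤ 2 →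
      ∃ (S' : Finset ℕ) (P : ℕ → Set ℤ), S' ⊆ S ∧ 1 ≤ 2 * ∑ q ∈ S', ms lev q ∧
        (∀ q ∈ S', ∀ p ∈ P q, Int.gcd p (q : ℤ) = 1) ∧
        (∀ q ∈ S', ∀ (u : ℤ) (n : ℕ), δ * q ≤ n →
          ∃ A : Finset ℤ, (∀ p ∈ A, p ∈ P q ∧ u ≤ p ∧ p < u + n) ∧ c * n ≤ A.card) ∧
        ∑ q ∈ S', ∑ r ∈ S', (if q ≠ r ∧ K0 * Dqr lev q r < 1 ∧ Meet γ lev P q r then
          (Nat.gcd q r : ℝ) * min (ms lev q / q) (ms lev r / r) else 0) ≤ C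

/-- points approximated by a numerator in `P` -/
def Kset (γ : ℝ) (P : Set ℤ) (δ : ℝ) (q : ℕ) : Set ℝ :=
  {x : ℝ | ∃ p ∈ P, |(q : ℝ) * x - p - γ| < δ}

end Pool.Agent.H20G
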