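import Mathlib
import Pool.Agent.Lib.H20G.A0
import Pool.Agent.Lib.H2D.OVb

set_option autoImplicit false

/-!
# H20G chunk A1: the sets `Kset`: openness, intersections, far pairs, near pairs, the diagonal
-/

namespace Pool.Agent.H20G

open Finset MeasureTheory
open Pool.Agent.DSRat Pool.Agent.H2D

theorem a1_eq (γ : ℝ) (P : Set ℤ) (δ : ℝ) (q : ℕ) :
    Kset γ P δ q = ⋃ p ∈ P, Iset γ δ q p := by
  ext x
  simp [Kset, Iset]

theorem a1_open (γ : ℝ) (P : Set ℤ) (δ : ℝ) (q : ℕ) : IsOpen (Kset γ P δ q) := by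
  rw [a1_eq]
  apply isOpen_biUnion
  intro p _
  exact Iset_open _ _ _ _

/-- the intersection of two sets `Kset` is covered by the pairs of numerators at distance `< D` -/
theorem a1_inter (γ : ℝ) (P P' : Set ℤ) {δ δ' : ℝ} (h0 : 0 < δ) (hδ : δ ≤ 1 / 2)
    (h0' : 0 < δ') (hδ' : δ' ≤ 1 / 2) {q r : ℕ} (hq : 0 < q) (hr : 0 < r) :
    ∃ Q : Finset (ℤ × ℤ), (∀ x ∈ Q, x.1 ∈ window γ q ∧
      |((((r / Nat.gcd q r : ℕ) : ℤ) * x.1 - ((q / Nat.gcd q r : ℕ) : ℤ) * x.2 : ℤ) : ℝ) +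
        (((r / Nat.gcd q r : ℕ) : ℝ) - ((q / Nat.gcd q r : ℕ) : ℝ)) * γ| <
        ((r : ℝ) * δ + (q : ℝ) * δ') / (Nat.gcd q r : ℝ)) ∧
      (∀ x ∈ Q, x.1 ∈ P ∧ x.2 ∈ P') ∧
      volume (Set.Icc (0 : ℝ) 1 ∩ (Kset γ P δ q ∩ Kset γ P' δ' r)) ≤
        ENNReal.ofReal ((Q.card : ℝ) * min (2 * δ / q) (2 * δ' / r)) := by
  classical
  obtain ⟨Q, hQdef⟩ : ∃ Q : Finset (ℤ × ℤ), Q = ((window γ q) ×ˢ (window γ r)).filter (fun x =>
      (|((((r / Nat.gcd q r : ℕ) : ℤ) * x.1 - ((q / Nat.gcd q r : ℕ) : ℤ) * x.2 : ℤ) : ℝ) +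
          (((r / Nat.gcd q r : ℕ) : ℝ) - ((q / Nat.gcd q r : ℕ) : ℝ)) * γ| <
          ((r : ℝ) * δ + (q : ℝ) * δ') / (Nat.gcd q r : ℝ)) ∧ x.1 ∈ P ∧ x.2 ∈ P') := ⟨_, rfl⟩
  have hmem : ∀ x, x ∈ Q ↔ (x.1 ∈ window γ q ∧ x.2 ∈ window γ r) ∧
      (|((((r / Nat.gcd q r : ℕ) : ℤ) * x.1 - ((q / Nat.gcd q r : ℕ) : ℤ) * x.2 : ℤ) : ℝ) +
          (((r / Nat.gcd q r : ℕ) : ℝ) - ((q / Nat.gcd q r : ℕ) : ℝ)) * γ| <
          ((r : ℝ) * δ + (q : ℝ) * δ') / (Nat.gcd q r : ℝ)) ∧ x.1 ∈ P ∧ x.2 ∈ P' := by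
    intro x
    rw [hQdef, Finset.mem_filter, Finset.mem_product]
  refine ⟨Q, fun x hx => ⟨((hmem x).1 hx).1.1, ((hmem x).1 hx).2.1⟩,
    fun x hx => ((hmem x).1 hx).2.2, ?_⟩
  have hsub : Set.Icc (0 : ℝ) 1 ∩ (Kset γ P δ q ∩ Kset γ P' δ' r) ⊆
      ⋃ x ∈ Q, (Iset γ δ q x.1 ∩ Iset γ δ' r x.2) := by
    rintro x ⟨hx, ⟨p, hp1, hp2⟩, ⟨p', hp'1, hp'2⟩⟩
    simp only [Set.mem_iUnion, exists_prop]
    refine ⟨(p, p'), ?_, hp2, hp'2⟩
    rw [hmem]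
    exact ⟨⟨mem_window_of_mem hδ hx hp2, mem_window_of_mem hδ' hx hp'2⟩,
      ova_lt hq hr hp2 hp'2, hp1, hp'1⟩
  have hmin : ∀ x ∈ Q, volume (Iset γ δ q x.1 ∩ Iset γ δ' r x.2) ≤
      ENNReal.ofReal (min (2 * δ / q) (2 * δ' / r)) := by
    intro x _
    rcases le_total (2 * δ / q) (2 * δ' / r) with h | h
    · rw [min_eq_left h, ← Iset_volume γ δ q hq x.1]
      exact measure_mono Set.inter_subset_left
    · rw [min_eq_right h, ← Iset_volume γ δ' r hr x.2]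
      exact measure_mono Set.inter_subset_right
  calc volume (Set.Icc (0 : ℝ) 1 ∩ (Kset γ P δ q ∩ Kset γ P' δ' r))
      ≤ volume (⋃ x ∈ Q, (Iset γ δ q x.1 ∩ Iset γ δ' r x.2)) := measure_mono hsub
    _ ≤ ∑ x ∈ Q, volume (Iset γ δ q x.1 ∩ Iset γ δ' r x.2) := measure_biUnion_finset_le _ _
    _ ≤ ∑ x ∈ Q, ENNReal.ofReal (min (2 * δ / q) (2 * δ' / r)) := Finset.sum_le_sum hmin
    _ = ENNReal.ofReal ((Q.card : ℝ) * min (2 * δ / q) (2 * δ' / r)) := by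
        rw [Finset.sum_const, nsmul_eq_mul, ENNReal.ofReal_mul (by positivity),
          ENNReal.ofReal_natCast]

/-- far pairs: `K0 D ≥ 1` -/
theorem a1_far (γ : ℝ) (P P' : Set ℤ) {δ δ' : ℝ} (h0 : 0 < δ) (hδ : δ ≤ 1 / 2)
    (h0' : 0 < δ') (hδ' : δ' ≤ 1 / 2) {q r : ℕ} (hq : 0 < q) (hr : 0 < r) (K0 : ℝ) (hK0 : 1 ≤ K0)
    (hρ : 1 ≤ K0 * (((r : ℝ) * δ + (q : ℝ) * δ') / (Nat.gcd q r : ℝ))) :
    volume (Set.Icc (0 : ℝ) 1 ∩ (Kset γ P δ q ∩ Kset γ P' δ' r)) ≤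
      ENNReal.ofReal (48 * K0 * (δ * δ')) := by
  obtain ⟨Q, hQ, -, hvol⟩ := a1_inter γ P P' h0 hδ h0' hδ' hq hr
  refine hvol.trans (ENNReal.ofReal_le_ofReal ?_)
  have hqR : (0 : ℝ) < q := by exact_mod_cast hq
  have hrR : (0 : ℝ) < r := by exact_mod_cast hr
  have hD : (0 : ℝ) < (Nat.gcd q r : ℝ) := by exact_mod_cast Nat.gcd_pos_of_pos_left _ hq
  have hΔ : 0 < (r : ℝ) * δ + (q : ℝ) * δ' := by positivity
  have h1 := (near_count γ hq hr _ (div_pos hΔ hD) Q hQ).1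
  have hm0 : 0 ≤ min (2 * δ / q) (2 * δ' / r) := by positivity
  have hρ0 : 0 < ((r : ℝ) * δ + (q : ℝ) * δ') / (Nat.gcd q r : ℝ) := div_pos hΔ hD
  have h2 : (Q.card : ℝ) ≤ 12 * K0 * ((r : ℝ) * δ + (q : ℝ) * δ') := by
    refine h1.trans ?_
    have h3 : 2 * (((r : ℝ) * δ + (q : ℝ) * δ') / (Nat.gcd q r : ℝ)) + 1
        ≤ 3 * K0 * (((r : ℝ) * δ + (q : ℝ) * δ') / (Nat.gcd q r : ℝ)) := by nlinarith
    calc 4 * (Nat.gcd q r : ℝ) * (2 * (((r : ℝ) * δ + (q : ℝ) * δ') / (Nat.gcd q r : ℝ)) + 1)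
        ≤ 4 * (Nat.gcd q r : ℝ) * (3 * K0 * (((r : ℝ) * δ + (q : ℝ) * δ') / (Nat.gcd q r : ℝ))) :=
          mul_le_mul_of_nonneg_left h3 (by positivity)
      _ = 12 * K0 * ((r : ℝ) * δ + (q : ℝ) * δ') := by
          field_simp
          ring
  have h4 := ovb_key h0 h0' hq hr
  calc (Q.card : ℝ) * min (2 * δ / q) (2 * δ' / r)
      ≤ 12 * K0 * ((r : ℝ) * δ + (q : ℝ) * δ') * min (2 * δ / q) (2 * δ' / r) :=
        mul_le_mul_of_nonneg_right h2 hm0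
    _ = 12 * K0 * (((r : ℝ) * δ + (q : ℝ) * δ') * min (2 * δ / q) (2 * δ' / r)) := by ring
    _ ≤ 12 * K0 * (4 * (δ * δ')) := mul_le_mul_of_nonneg_left h4 (by positivity)
    _ = 48 * K0 * (δ * δ') := by ring

/-- near pairs: `K0 D < 1`, the overlap is at most `4 gcd min (2 δ / q) (2 δ' / r)`, and zero without coincidence -/
theorem a1_near (γ : ℝ) (lev : ℕ → ℕ) (P : ℕ → Set ℤ) {q r : ℕ} (hq : 0 < q) (hr : 0 < r)
    (hlq : 1 ≤ lev q) (hlr : 1 ≤ lev r) (K0 : ℝ) (hK0 : 1 ≤ K0) :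
    (K0 * Dqr lev q r < 1 → ¬ Meet γ lev P q r →
      volume (Set.Icc (0 : ℝ) 1 ∩ (Kset γ (P q) (ms lev q) q ∩ Kset γ (P r) (ms lev r) r)) = 0) ∧
    (Dqr lev q r ≤ 1 / 2 →
      volume (Set.Icc (0 : ℝ) 1 ∩ (Kset γ (P q) (ms lev q) q ∩ Kset γ (P r) (ms lev r) r)) ≤
        ENNReal.ofReal (8 * ((Nat.gcd q r : ℝ) * min (ms lev q / q) (ms lev r / r)))) := by
  have hpos : ∀ n, 0 < ms lev n := fun n => by unfold ms; positivity
  have hle : ∀ n, 1 ≤ lev n → ms lev n ≤ 1 / 2 := by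
    intro n hn
    unfold ms
    calc ((1 : ℝ) / 2) ^ (lev n) ≤ (1 / 2) ^ 1 :=
          pow_le_pow_of_le_one (by norm_num) (by norm_num) hn
      _ = 1 / 2 := pow_one _
  obtain ⟨Q, hQ, hQP, hvol⟩ := a1_inter γ (P q) (P r) (hpos q) (hle q hlq) (hpos r) (hle r hlr) hq hr
  have hqR : (0 : ℝ) < q := by exact_mod_cast hq
  have hrR : (0 : ℝ) < r := by exact_mod_cast hr
  have hD : (0 : ℝ) < (Nat.gcd q r : ℝ) := by exact_mod_cast Nat.gcd_pos_of_pos_left _ hq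
  constructor
  · intro _ hno
    have hQ0 : Q = ∅ := by
      rw [Finset.eq_empty_iff_forall_notMem]
      intro x hx
      apply hno
      exact ⟨x.1, (hQP x hx).1, x.2, (hQP x hx).2, (hQ x hx).2⟩
    rw [hQ0, Finset.card_empty] at hvol
    have h1 : ENNReal.ofReal (((0 : ℕ) : ℝ) * min (2 * ms lev q / q) (2 * ms lev r / r)) = 0 := by
      simp
    rw [h1] at hvol
    exact le_antisymm hvol zero_le
  · intro hhalf
    refine hvol.trans (ENNReal.ofReal_le_ofReal ?_)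
    have hΔ : 0 < (r : ℝ) * ms lev q + (q : ℝ) * ms lev r := by
      have := hpos q
      have := hpos r
      positivity
    have h1 := (near_count γ hq hr _ (div_pos hΔ hD) Q hQ).2 hhalf
    have hm0 : 0 ≤ min (2 * ms lev q / q) (2 * ms lev r / r) := by
      have := hpos q
      have := hpos r
      positivity
    have h3 : min (2 * ms lev q / q) (2 * ms lev r / r) = 2 * min (ms lev q / q) (ms lev r / r) := by
      rw [mul_min_of_nonneg _ _ (by norm_num : (0 : ℝ) ≤ 2)]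
      congr 1 <;> ring
    calc (Q.card : ℝ) * min (2 * ms lev q / q) (2 * ms lev r / r)
        ≤ 4 * (Nat.gcd q r : ℝ) * min (2 * ms lev q / q) (2 * ms lev r / r) :=
          mul_le_mul_of_nonneg_right h1 hm0
      _ = 8 * ((Nat.gcd q r : ℝ) * min (ms lev q / q) (ms lev r / r)) := by
          rw [h3]
          ring

/-- the diagonal -/
theorem a1_diag (γ : ℝ) (P : Set ℤ) {δ : ℝ} (h0 : 0 < δ) (hδ : δ ≤ 1 / 2) {q : ℕ} (hq : 0 < q) :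
    volume (Set.Icc (0 : ℝ) 1 ∩ (Kset γ P δ q ∩ Kset γ P δ q)) ≤ ENNReal.ofReal (6 * δ) := by
  have hsub : Set.Icc (0 : ℝ) 1 ∩ (Kset γ P δ q ∩ Kset γ P δ q) ⊆
      ⋃ p ∈ window γ q, Iset γ δ q p := by
    rintro x ⟨hx, ⟨p, _, hp⟩, -⟩
    simp only [Set.mem_iUnion, exists_prop]
    exact ⟨p, mem_window_of_mem hδ hx hp, hp⟩
  calc volume (Set.Icc (0 : ℝ) 1 ∩ (Kset γ P δ q ∩ Kset γ P δ q))
      ≤ volume (⋃ p ∈ window γ q, Iset γ δ q p) := measure_mono hsub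
    _ ≤ ∑ p ∈ window γ q, volume (Iset γ δ q p) :=
        measure_biUnion_finset_le _ _
    _ = ∑ p ∈ window γ q, ENNReal.ofReal (2 * δ / q) := by
        apply Finset.sum_congr rfl
        intro p _
        exact Iset_volume _ _ _ hq _
    _ = ENNReal.ofReal ((q + 2) * (2 * δ / q)) := by
        rw [Finset.sum_const, window_card, nsmul_eq_mul, ENNReal.ofReal_mul (by positivity)]
        congr 1
        rw [ENNReal.ofReal_add (by positivity) (by norm_num)]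
        simp
    _ ≤ ENNReal.ofReal (6 * δ) := by
        apply ENNReal.ofReal_le_ofReal
        have hqR : (1 : ℝ) ≤ q := by exact_mod_cast hq
        rw [← mul_div_assoc, div_le_iff₀ (by linarith)]
        nlinarith

end Pool.Agent.H20G
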