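import Mathlib
import Pool.Agent.Lib.H20G.A1

set_option autoImplicit false

/-!
# H20G chunk A2: the second moment of a block
-/

namespace Pool.Agent.H20G

open Finset MeasureTheory
open Pool.Agent.DSRat Pool.Agent.H2D

theorem a2_ms_pos (lev : ℕ → ℕ) (q : ℕ) : 0 < ms lev q := by
  unfold ms
  positivity

theorem a2_ms_le (lev : ℕ → ℕ) (q : ℕ) (h : 1 ≤ lev q) : ms lev q ≤ 1 / 2 := by
  unfold ms
  calc ((1 : ℝ) / 2) ^ (lev q) ≤ (1 / 2) ^ 1 :=
        pow_le_pow_of_le_one (by norm_num) (by norm_num) h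
    _ = 1 / 2 := pow_one _

theorem a2_toReal (γ : ℝ) (P P' : Set ℤ) (δ δ' : ℝ) (q r : ℕ) (x : ℝ) (hx : 0 ≤ x)
    (h : volume (Set.Icc (0 : ℝ) 1 ∩ (Kset γ P δ q ∩ Kset γ P' δ' r)) ≤ ENNReal.ofReal x) :
    (volume.restrict (Set.Icc (0 : ℝ) 1)).real (Kset γ P δ q ∩ Kset γ P' δ' r) ≤ x := by
  have h1 : (volume.restrict (Set.Icc (0 : ℝ) 1)) (Kset γ P δ q ∩ Kset γ P' δ' r) ≤
      ENNReal.ofReal x := by
    rw [Measure.restrict_apply' measurableSet_Icc, Set.inter_comm]
    exact h
  rw [Measure.real]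
  calc ((volume.restrict (Set.Icc (0 : ℝ) 1)) (Kset γ P δ q ∩ Kset γ P' δ' r)).toReal
      ≤ (ENNReal.ofReal x).toReal := ENNReal.toReal_mono ENNReal.ofReal_ne_top h1
    _ = x := ENNReal.toReal_ofReal hx

open Classical in
/-- second moment of a block -/
theorem a2_block (γ : ℝ) (lev : ℕ → ℕ) (P : ℕ → Set ℤ) (S : Finset ℕ)
    (hS : ∀ q ∈ S, 0 < q ∧ 1 ≤ lev q) (K0 C : ℝ) (hK0 : 1 ≤ K0)
    (hC : ∑ q ∈ S, ∑ r ∈ S, (if q ≠ r ∧ K0 * Dqr lev q r < 1 ∧ Meet γ lev P q r then
          (Nat.gcd q r : ℝ) * min (ms lev q / q) (ms lev r / r) else 0) ≤ C) :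
    ∑ q ∈ S, ∑ r ∈ S, (volume.restrict (Set.Icc (0 : ℝ) 1)).real
        (Kset γ (P q) (ms lev q) q ∩ Kset γ (P r) (ms lev r) r) ≤
      48 * K0 * (∑ q ∈ S, ms lev q) ^ 2 + 6 * ∑ q ∈ S, ms lev q + 8 * C + 
        64 * (∑ q ∈ S, ms lev q) ^ 2 := by
  have hterm : ∀ q ∈ S, ∀ r ∈ S, (volume.restrict (Set.Icc (0 : ℝ) 1)).real
        (Kset γ (P q) (ms lev q) q ∩ Kset γ (P r) (ms lev r) r) ≤
      48 * K0 * (ms lev q * ms lev r) + (if q = r then 6 * ms lev q else 0) +
      8 * (if q ≠ r ∧ K0 * Dqr lev q r < 1 ∧ Meet γ lev P q r then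
          (Nat.gcd q r : ℝ) * min (ms lev q / q) (ms lev r / r) else 0) +
      64 * (ms lev q * ms lev r) := by
    intro q hq r hr
    have hqp := hS q hq
    have hrp := hS r hr
    have hmq := a2_ms_pos lev q
    have hmr := a2_ms_pos lev r
    have hmq' := a2_ms_le lev q hqp.2
    have hmr' := a2_ms_le lev r hrp.2
    have hqR : (0 : ℝ) < q := by exact_mod_cast hqp.1
    have hrR : (0 : ℝ) < r := by exact_mod_cast hrp.1
    have h48 : 0 ≤ 48 * K0 * (ms lev q * ms lev r) := by positivity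
    have h64 : 0 ≤ 64 * (ms lev q * ms lev r) := by positivity
    have hif : 0 ≤ 8 * (if q ≠ r ∧ K0 * Dqr lev q r < 1 ∧ Meet γ lev P q r then
          (Nat.gcd q r : ℝ) * min (ms lev q / q) (ms lev r / r) else 0) := by
      split_ifs
      · positivity
      · simp
    by_cases hqr : q = r
    · subst hqr
      have h1 := a2_toReal γ (P q) (P q) (ms lev q) (ms lev q) q q (6 * ms lev q) (by positivity)
        (a1_diag γ (P q) hmq hmq' hqp.1)
      rw [if_pos rfl]
      linarith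
    · rw [if_neg hqr]
      by_cases hfar : 1 ≤ K0 * Dqr lev q r
      · have h1 := a2_toReal γ (P q) (P r) (ms lev q) (ms lev r) q r _ h48
          (a1_far γ (P q) (P r) hmq hmq' hmr hmr' hqp.1 hrp.1 K0 hK0 hfar)
        linarith
      · push Not at hfar
        obtain ⟨hn1, hn2⟩ := a1_near γ lev P hqp.1 hrp.1 hqp.2 hrp.2 K0 hK0
        by_cases hmeet : Meet γ lev P q r
        · rw [if_pos ⟨hqr, hfar, hmeet⟩]
          by_cases hhalf : Dqr lev q r ≤ 1 / 2
          · have h1 := a2_toReal γ (P q) (P r) (ms lev q) (ms lev r) q r _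
              (by positivity) (hn2 hhalf)
            linarith
          · push Not at hhalf
            -- `D > 1/2`: far with the constant 2
            have h1 := a2_toReal γ (P q) (P r) (ms lev q) (ms lev r) q r _ (by positivity)
              (a1_far γ (P q) (P r) hmq hmq' hmr hmr' hqp.1 hrp.1 2 (by norm_num)
                (by
                  have : Dqr lev q r = ((r : ℝ) * ms lev q + (q : ℝ) * ms lev r) / (Nat.gcd q r : ℝ) := rfl
                  rw [← this]
                  linarith))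
            have h2 : 48 * 2 * (ms lev q * ms lev r) ≤
                48 * K0 * (ms lev q * ms lev r) + 64 * (ms lev q * ms lev r) := by
              have h3 : 48 * (ms lev q * ms lev r) ≤ 48 * K0 * (ms lev q * ms lev r) := by
                have : 0 < ms lev q * ms lev r := by positivity
                nlinarith
              have : 0 < ms lev q * ms lev r := by positivity
              linarith
            have h5 : 0 ≤ 8 * ((Nat.gcd q r : ℝ) * min (ms lev q / q) (ms lev r / r)) := by positivity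
            linarith
        · rw [if_neg (by tauto)]
          have h1 := a2_toReal γ (P q) (P r) (ms lev q) (ms lev r) q r 0 le_rfl
            (by rw [hn1 hfar hmeet]; exact zero_le)
          linarith
  have hsum : ∑ q ∈ S, ∑ r ∈ S, (volume.restrict (Set.Icc (0 : ℝ) 1)).real
        (Kset γ (P q) (ms lev q) q ∩ Kset γ (P r) (ms lev r) r) ≤
      ∑ q ∈ S, ∑ r ∈ S, (48 * K0 * (ms lev q * ms lev r) + (if q = r then 6 * ms lev q else 0) +
      8 * (if q ≠ r ∧ K0 * Dqr lev q r < 1 ∧ Meet γ lev P q r then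
          (Nat.gcd q r : ℝ) * min (ms lev q / q) (ms lev r / r) else 0) +
      64 * (ms lev q * ms lev r)) :=
    Finset.sum_le_sum fun q hq => Finset.sum_le_sum fun r hr => hterm q hq r hr
  refine hsum.trans ?_
  have e1 : (∑ q ∈ S, ms lev q) ^ 2 = ∑ q ∈ S, ∑ r ∈ S, ms lev q * ms lev r := by
    rw [sq, Finset.sum_mul_sum]
  have e2 : ∑ q ∈ S, ∑ r ∈ S, (if q = r then 6 * ms lev q else 0) = 6 * ∑ q ∈ S, ms lev q := by
    rw [Finset.mul_sum]
    apply Finset.sum_congr rfl
    intro q hq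
    rw [Finset.sum_ite_eq, if_pos hq]
  simp only [Finset.sum_add_distrib, ← Finset.mul_sum]
  rw [e2]
  have e3 : ∑ q ∈ S, ms lev q * ∑ r ∈ S, ms lev r = (∑ q ∈ S, ms lev q) ^ 2 := by
    rw [sq, Finset.sum_mul]
  rw [e3]
  linarith

end Pool.Agent.H20G
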