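import Mathlib
import Pool.Agent.Lib.H20G.A2
import Pool.Agent.DSRat.Main

set_option autoImplicit false

/-!
# H20G chunk A3: local lower bound, blocks of mass between 1 and 2
-/

namespace Pool.Agent.H20G

open Finset MeasureTheory
open Pool.Agent.DSRat Pool.Agent.H2D

/-- local lower bound on the intervals of length `1/m` -/
theorem a3_local (γ : ℝ) {m : ℕ} (hm : 0 < m) (P : Set ℤ) (c : ℝ) (hc : 0 < c) {δ : ℝ} (h0 : 0 < δ)
    (hδ : δ ≤ 1 / 2) {q : ℕ} (hq : 0 < q) (hqm : 8 * m ≤ q)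
    (hlow : ∀ (u : ℤ) (n : ℕ), (1 / (2 * (m : ℝ))) * q ≤ n →
      ∃ A : Finset ℤ, (∀ p ∈ A, p ∈ P ∧ u ≤ p ∧ p < u + n) ∧ c * n ≤ A.card) (s : ℝ) :
    ENNReal.ofReal (c * (1 / m) * δ) ≤
      volume (Set.Ico s (s + 1 / m) ∩ Kset γ P δ q) := by
  classical
  have hqR : (0 : ℝ) < q := by exact_mod_cast hq
  have hmR : (0 : ℝ) < m := by exact_mod_cast hm
  have hqm' : (8 : ℝ) * m ≤ q := by exact_mod_cast hqm
  have h8 : (8 : ℝ) ≤ q / m := by rw [le_div_iff₀ hmR]; exact hqm'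
  obtain ⟨n, hn⟩ : ∃ n : ℕ, n = ⌊(q : ℝ) / m - 1⌋₊ := ⟨_, rfl⟩
  have hn1 : (n : ℝ) ≤ q / m - 1 := by rw [hn]; exact Nat.floor_le (by linarith)
  have hn2 : (q : ℝ) / m - 2 < n := by
    have h2 := Nat.lt_floor_add_one ((q : ℝ) / m - 1)
    rw [← hn] at h2
    linarith
  have e2 : (1 / (2 * (m : ℝ))) * q = (q / m) / 2 := by
    field_simp
  have hn3 : (1 / (2 * (m : ℝ))) * q ≤ n := by
    rw [e2]
    linarith
  obtain ⟨u, hu⟩ : ∃ u : ℤ, u = ⌈s * q - γ + 1 / 2⌉ := ⟨_, rfl⟩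
  have hu1 : s * q - γ + 1 / 2 ≤ u := by rw [hu]; exact Int.le_ceil _
  have hu2 : (u : ℝ) < s * q - γ + 1 / 2 + 1 := by rw [hu]; exact Int.ceil_lt_add_one _
  obtain ⟨A, hA, hcard⟩ := hlow u n hn3
  have hsub : (⋃ p ∈ A, Iset γ δ q p) ⊆ Set.Ico s (s + 1 / m) ∩ Kset γ P δ q := by
    intro x hx
    simp only [Set.mem_iUnion, exists_prop] at hx
    obtain ⟨p, hp, hx⟩ := hx
    obtain ⟨hg, ha, hb⟩ := hA p hp
    refine ⟨?_, p, hg, hx⟩
    simp only [Iset, Set.mem_ofPred_eq, abs_lt] at hx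
    have ha' : (u : ℝ) ≤ p := by exact_mod_cast ha
    have hb' : (p : ℝ) + 1 ≤ u + n := by exact_mod_cast hb
    have e3 : (s + 1 / (m : ℝ)) * q = s * q + q / m := by
      field_simp
    constructor
    · have : s * q ≤ x * q := by linarith [hx.1, hx.2]
      exact le_of_mul_le_mul_right this hqR
    · have : x * q < (s + 1 / m) * q := by
        rw [e3]
        linarith [hx.1, hx.2]
      exact lt_of_mul_lt_mul_right this hqR.le
  have hdisj : (A : Set ℤ).PairwiseDisjoint (fun p => Iset γ δ q p) := by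
    intro p _ p' _ hne
    rw [Function.onFun, Set.disjoint_left]
    intro x hx hx'
    simp only [Iset, Set.mem_ofPred_eq, abs_lt] at hx hx'
    have h1 : |((p - p' : ℤ) : ℝ)| < 1 := by
      rw [abs_lt]
      push_cast
      constructor <;> linarith [hx.1, hx.2, hx'.1, hx'.2]
    have h2 : |p - p'| < 1 := by exact_mod_cast h1
    have h3 : p - p' = 0 := Int.abs_lt_one_iff.1 h2
    exact hne (by linarith)
  have hvol : volume (⋃ p ∈ A, Iset γ δ q p) = ENNReal.ofReal ((A.card : ℝ) * (2 * δ / q)) := by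
    rw [measure_biUnion_finset hdisj (fun p _ => (Iset_open _ _ _ _).measurableSet)]
    have : ∀ p ∈ A, volume (Iset γ δ q p) = ENNReal.ofReal (2 * δ / q) :=
      fun p _ => Iset_volume _ _ _ hq _
    rw [Finset.sum_congr rfl this, Finset.sum_const, nsmul_eq_mul,
      ENNReal.ofReal_mul (by positivity), ENNReal.ofReal_natCast]
  calc ENNReal.ofReal (c * (1 / m) * δ) ≤ ENNReal.ofReal ((A.card : ℝ) * (2 * δ / q)) := by
        apply ENNReal.ofReal_le_ofReal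
        have h4 : c * ((1 / (2 * (m : ℝ))) * q) ≤ A.card :=
          le_trans (mul_le_mul_of_nonneg_left hn3 hc.le) hcard
        calc c * (1 / m) * δ = (c * ((1 / (2 * (m : ℝ))) * q)) * (2 * δ / q) := by
              field_simp
          _ ≤ (A.card : ℝ) * (2 * δ / q) := mul_le_mul_of_nonneg_right h4 (by positivity)
    _ = volume (⋃ p ∈ A, Iset γ δ q p) := hvol.symm
    _ ≤ _ := measure_mono hsub

theorem a3_sub (f : ℕ → ℝ) (n : ℕ) : ∀ B : Finset ℕ, B.card = n → (∀ q ∈ B, f q ≤ 1) →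
    1 ≤ ∑ q ∈ B, f q → ∃ B' : Finset ℕ, B' ⊆ B ∧ 1 ≤ ∑ q ∈ B', f q ∧ ∑ q ∈ B', f q ≤ 2 := by
  induction n with
  | zero =>
    intro B hB _ h
    rw [Finset.card_eq_zero] at hB
    rw [hB, Finset.sum_empty] at h
    exact absurd h (by norm_num)
  | succ n ih =>
    intro B hB h1 h
    by_cases h2 : ∑ q ∈ B, f q ≤ 2
    · exact ⟨B, subset_rfl, h, h2⟩
    · push Not at h2
      have hne : B.Nonempty := by
        rw [← Finset.card_pos]
        omega
      obtain ⟨q, hq⟩ := hne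
      have e := Finset.add_sum_erase B f hq
      have h3 := h1 q hq
      obtain ⟨B', hB', h4, h5⟩ := ih (B.erase q) (by rw [Finset.card_erase_of_mem hq]; omega)
        (fun x hx => h1 x (Finset.mem_of_mem_erase hx)) (by linarith)
      exact ⟨B', hB'.trans (Finset.erase_subset _ _), h4, h5⟩

/-- blocks of mass between 1 and 2 -/
theorem a3_block (f : ℕ → ℝ) (h0 : ∀ q, 0 ≤ f q) (h1 : ∀ q, f q ≤ 1) (hns : ¬ Summable f) (k : ℕ) :
    ∃ B : Finset ℕ, (∀ q ∈ B, k ≤ q ∧ 0 < f q) ∧ 1 ≤ ∑ q ∈ B, f q ∧ ∑ q ∈ B, f q ≤ 2 := by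
  obtain ⟨B, hB, hs⟩ := exists_block f h0 hns k
  obtain ⟨B', hB', h2, h3⟩ := a3_sub f B.card B rfl (fun q _ => h1 q) hs
  exact ⟨B', fun q hq => hB q (hB' hq), h2, h3⟩

end Pool.Agent.H20G
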