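import Mathlib
import Pool.Agent.Lib.H20G.A3
import Pool.Agent.DSRat.Main

set_option autoImplicit false

/-!
# H20G chunk A4: the missed set has measure zero
-/

namespace Pool.Agent.H20G

open Finset MeasureTheory Filter Topology
open Pool.Agent.DSRat Pool.Agent.H2D

theorem a4_missed {C0 : ℝ} (hblk : BlockThm C0) (γ : ℝ) (lev : ℕ → ℕ) (f : ℕ → ℝ)
    (hf : ∀ q, f q = 0 ∨ (f q = ms lev q ∧ 0 < q ∧ 4 ≤ lev q))
    (hphi : ∀ q, 0 < f q → (q : ℝ) ≤ C0 * (Nat.totient q : ℝ)) (hns : ¬ Summable f) (k : ℕ) :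
    volume (Set.Icc (0 : ℝ) 1 ∩ ⋂ q ∈ {q : ℕ | k ≤ q},
      (Kset γ {p : ℤ | Int.gcd p (q : ℤ) = 1} (f q) q)ᶜ) = 0 := by
  classical
  have h0 : ∀ q, 0 ≤ f q := by
    intro q
    rcases hf q with h | h
    · rw [h]
    · rw [h.1]
      exact (a2_ms_pos lev q).le
  have hf1 : ∀ q, f q ≤ 1 := by
    intro q
    rcases hf q with h | h
    · rw [h]; norm_num
    · rw [h.1]
      exact (a2_ms_le lev q (by omega)).trans (by norm_num)
  have hpos : ∀ q, 0 < f q → f q = ms lev q ∧ 0 < q ∧ 4 ≤ lev q := by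
    intro q hq
    rcases hf q with h | h
    · rw [h] at hq
      exact absurd hq (lt_irrefl _)
    · exact h
  obtain ⟨K0, C, c, hK0, hC, hc, hBT⟩ := hblk
  obtain ⟨K1, hK1def⟩ : ∃ K1 : ℝ, K1 = 48 * K0 * 4 + 12 + 8 * C + 256 := ⟨_, rfl⟩
  have hK1 : 0 < K1 := by rw [hK1def]; positivity
  set W := Set.Icc (0 : ℝ) 1 ∩ ⋂ q ∈ {q : ℕ | k ≤ q},
      (Kset γ {p : ℤ | Int.gcd p (q : ℤ) = 1} (f q) q)ᶜ with hW
  have hWc : IsCompact W := by
    apply IsCompact.inter_right isCompact_Icc
    apply isClosed_biInter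
    intro q _
    exact (a1_open _ _ _ _).isClosed_compl
  have hWm : MeasurableSet W := hWc.measurableSet
  have hWfin : volume W ≠ ⊤ := hWc.measure_lt_top.ne
  by_contra hne
  have hw : 0 < volume.real W := by
    rw [Measure.real]
    exact ENNReal.toReal_pos hne hWfin
  set w := volume.real W with hwdef
  obtain ⟨t, ht⟩ : ∃ t : ℝ, t = 4 * K1 / (c * w) := ⟨_, rfl⟩
  have htpos : 0 < t := by rw [ht]; positivity
  obtain ⟨ε, hε⟩ : ∃ ε : ℝ, ε = c * w / (4 * t) := ⟨_, rfl⟩
  have hεpos : 0 < ε := by rw [hε]; positivity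
  -- thickening
  have htend := tendsto_measure_cthickening_of_isCompact (μ := volume) hWc
  have hlt : volume W < volume W + ENNReal.ofReal ε :=
    ENNReal.lt_add_right hWfin (by simpa using hεpos)
  have hev := htend.eventually_lt_const hlt
  have hseq : Tendsto (fun n : ℕ => (1 : ℝ) / ((n : ℝ) + 1)) atTop (𝓝 0) :=
    tendsto_one_div_add_atTop_nhds_zero_nat
  obtain ⟨n, hn⟩ := (hseq.eventually hev).exists
  set m : ℕ := n + 1 with hm
  have hm0 : 0 < m := Nat.succ_pos n
  have hmR : (0 : ℝ) < m := by exact_mod_cast hm0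
  have hmn : (1 : ℝ) / ((n : ℝ) + 1) = 1 / m := by rw [hm]; push_cast; rfl
  rw [hmn] at hn
  -- grid
  set J : ℕ → Set ℝ := fun i => Set.Ico ((i : ℝ) / m) ((i : ℝ) / m + 1 / m) with hJ
  set I : Finset ℕ := (range m).filter (fun i => (J i ∩ W).Nonempty) with hI
  set UU : Set ℝ := ⋃ i ∈ I, J i with hU
  have hUm : MeasurableSet UU := by
    apply Finset.measurableSet_biUnion
    intro i _
    exact measurableSet_Ico
  have hJdisj : ∀ i j : ℕ, i ≠ j → Disjoint (J i) (J j) := by
    intro i j hij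
    rw [Set.disjoint_left]
    intro x hx hx'
    simp only [hJ, Set.mem_Ico] at hx hx'
    have e1 : (i : ℝ) / m + 1 / m = (i + 1) / m := by ring
    have e2 : (j : ℝ) / m + 1 / m = (j + 1) / m := by ring
    rw [e1] at hx
    rw [e2] at hx'
    have a1 := (div_le_iff₀ hmR).1 hx.1
    have a2 := (lt_div_iff₀ hmR).1 hx.2
    have b1 := (div_le_iff₀ hmR).1 hx'.1
    have b2 := (lt_div_iff₀ hmR).1 hx'.2
    have c1 : (i : ℝ) < j + 1 := by linarith
    have c2 : (j : ℝ) < i + 1 := by linarith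
    have c1' : i < j + 1 := by exact_mod_cast c1
    have c2' : j < i + 1 := by exact_mod_cast c2
    omega
  have hJvol : ∀ i, volume (J i) = ENNReal.ofReal (1 / m) := by
    intro i
    simp only [hJ, Real.volume_Ico]
    congr 1
    ring
  have hUsub : UU ⊆ Metric.cthickening (1 / (m : ℝ)) W := by
    intro x hx
    simp only [hU, Set.mem_iUnion, exists_prop] at hx
    obtain ⟨i, hi, hxi⟩ := hx
    simp only [hI, Finset.mem_filter] at hi
    obtain ⟨y, hyJ, hyW⟩ := hi.2
    apply Metric.mem_cthickening_of_dist_le x y _ _ hyW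
    simp only [hJ, Set.mem_Ico] at hxi hyJ
    rw [Real.dist_eq, abs_le]
    constructor <;> linarith [hxi.1, hxi.2, hyJ.1, hyJ.2]
  have hWsub : W ⊆ UU ∪ {1} := by
    intro x hx
    by_cases hx1 : x = 1
    · right; exact hx1
    left
    have hx01 : x ∈ Set.Icc (0 : ℝ) 1 := hx.1
    have hxlt : x < 1 := lt_of_le_of_ne hx01.2 hx1
    have hxm0 : 0 ≤ x * m := mul_nonneg hx01.1 hmR.le
    set i : ℕ := ⌊x * m⌋₊ with hi
    have hi1 : (i : ℝ) ≤ x * m := Nat.floor_le hxm0
    have hi2 : x * m < i + 1 := Nat.lt_floor_add_one _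
    have hxJ : x ∈ J i := by
      simp only [hJ, Set.mem_Ico]
      constructor
      · rw [div_le_iff₀ hmR]; exact hi1
      · have : (i : ℝ) / m + 1 / m = (i + 1) / m := by ring
        rw [this, lt_div_iff₀ hmR]; exact hi2
    have him : i < m := by
      have : (i : ℝ) < m := by
        calc (i : ℝ) ≤ x * m := hi1
          _ < 1 * m := by gcongr
          _ = m := one_mul _
      exact_mod_cast this
    simp only [hU, Set.mem_iUnion, exists_prop]
    refine ⟨i, ?_, hxJ⟩
    simp only [hI, Finset.mem_filter, Finset.mem_range]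
    exact ⟨him, x, hxJ, hx⟩
  have hcardI : w ≤ (I.card : ℝ) * (1 / m) := by
    have h2 : volume W ≤ ENNReal.ofReal ((I.card : ℝ) * (1 / m)) := by
      calc volume W ≤ volume (UU ∪ {1}) := measure_mono hWsub
        _ ≤ volume UU + volume ({1} : Set ℝ) := measure_union_le _ _
        _ = volume UU := by rw [Real.volume_singleton, add_zero]
        _ ≤ ∑ i ∈ I, volume (J i) := measure_biUnion_finset_le _ _
        _ = ENNReal.ofReal ((I.card : ℝ) * (1 / m)) := by
            rw [Finset.sum_congr rfl (fun i _ => hJvol i), Finset.sum_const, nsmul_eq_mul,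
              ENNReal.ofReal_mul (by positivity), ENNReal.ofReal_natCast]
    rw [hwdef, Measure.real]
    calc (volume W).toReal ≤ (ENNReal.ofReal ((I.card : ℝ) * (1 / m))).toReal :=
          ENNReal.toReal_mono ENNReal.ofReal_ne_top h2
      _ = _ := ENNReal.toReal_ofReal (by positivity)
  -- the measure
  set ν : Measure ℝ := volume.restrict (Set.Icc (0 : ℝ) 1) with hν
  have hUW : ν.real (UU \ W) ≤ ε := by
    have h2 : volume (UU \ W) ≤ ENNReal.ofReal ε := by
      have h3 : volume (Metric.cthickening (1 / (m : ℝ)) W \ W) < ENNReal.ofReal ε := by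
        rw [measure_sdiff (Metric.self_subset_cthickening W) hWm.nullMeasurableSet hWfin]
        apply ENNReal.sub_lt_of_lt_add
        · exact measure_mono (Metric.self_subset_cthickening W)
        · rw [add_comm]; exact hn
      exact le_trans (measure_mono (Set.sdiff_subset_sdiff_left hUsub)) h3.le
    have h4 : ν (UU \ W) ≤ ENNReal.ofReal ε := le_trans (Measure.restrict_apply_le _ _) h2
    rw [Measure.real]
    calc (ν (UU \ W)).toReal ≤ (ENNReal.ofReal ε).toReal :=
          ENNReal.toReal_mono ENNReal.ofReal_ne_top h4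
      _ = ε := ENNReal.toReal_ofReal hεpos.le
  -- the block
  obtain ⟨Q, hQ⟩ := hBT γ (1 / (2 * (m : ℝ))) (by positivity)
  obtain ⟨S, hS, hS1, hS2⟩ := a3_block f h0 hf1 hns (max k (max Q (8 * m)))
  have hSms : ∑ q ∈ S, f q = ∑ q ∈ S, ms lev q :=
    Finset.sum_congr rfl (fun q hq => (hpos q (hS q hq).2).1)
  rw [hSms] at hS1 hS2
  obtain ⟨B, P, hBS, hBm, hPc, hlow', hup⟩ := hQ S lev (fun q hq =>
    ⟨le_trans (le_trans (le_max_left _ _) (le_max_right _ _)) (hS q hq).1,
      (hpos q (hS q hq).2).2.1, (hpos q (hS q hq).2).2.2, hphi q (hS q hq).2⟩) hS1 hS2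
  have hBpos : ∀ q ∈ B, 0 < q ∧ 1 ≤ lev q := fun q hq =>
    ⟨(hpos q (hS q (hBS hq)).2).2.1, by have := (hpos q (hS q (hBS hq)).2).2.2; omega⟩
  set Ψ : ℝ := ∑ q ∈ B, ms lev q with hΨ
  have hΨ2 : Ψ ≤ 2 := by
    refine le_trans ?_ hS2
    exact Finset.sum_le_sum_of_subset_of_nonneg hBS (fun q _ _ => (a2_ms_pos lev q).le)
  have hΨ1 : 1 / 2 ≤ Ψ := by linarith
  set F : ℕ → Set ℝ := fun q => Kset γ (P q) (ms lev q) q with hF
  have hFm : ∀ q ∈ B, MeasurableSet (F q) := fun q _ => (a1_open _ _ _ _).measurableSet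
  have hdis : ∀ q ∈ B, Disjoint W (F q) := by
    intro q hq
    rw [Set.disjoint_left]
    intro x hx hxF
    have h2 := hx.2
    simp only [Set.mem_iInter, Set.mem_ofPred_eq] at h2
    apply h2 q (le_trans (le_max_left _ _) (hS q (hBS hq)).1)
    obtain ⟨p, hp, hpx⟩ := hxF
    refine ⟨p, hPc q hq p hp, ?_⟩
    rw [(hpos q (hS q (hBS hq)).2).1]
    exact hpx
  have key := second_moment_bound ν B F hFm UU W hUm hWm hdis t htpos
  -- lower bound of the first moment
  have hlow : c * w * Ψ ≤ ∑ q ∈ B, ν.real (UU ∩ F q) := by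
    rw [hΨ, Finset.mul_sum]
    apply Finset.sum_le_sum
    intro q hq
    have hqpos := (hBpos q hq).1
    have hJle : ∀ i ∈ I, ENNReal.ofReal (c * (1 / m) * ms lev q) ≤ volume (J i ∩ F q) := by
      intro i _
      exact a3_local γ hm0 (P q) c hc (a2_ms_pos lev q) (a2_ms_le lev q (hBpos q hq).2) hqpos
        (le_trans (le_trans (le_max_right _ _) (le_max_right _ _)) (hS q (hBS hq)).1)
        (hlow' q hq) _
    have hsubIcc : ∀ i ∈ I, J i ⊆ Set.Icc (0 : ℝ) 1 := by
      intro i hi x hx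
      simp only [hI, Finset.mem_filter, Finset.mem_range] at hi
      simp only [hJ, Set.mem_Ico] at hx
      constructor
      · exact le_trans (by positivity) hx.1
      · have h5 : (i : ℝ) + 1 ≤ m := by exact_mod_cast hi.1
        have e1 : (i : ℝ) / m + 1 / m = (i + 1) / m := by ring
        have h6 : ((i : ℝ) + 1) / m ≤ 1 := by
          rw [div_le_one hmR]; exact h5
        linarith [hx.2]
    have hUF : UU ∩ F q = ⋃ i ∈ I, (J i ∩ F q) := by
      rw [hU, Set.iUnion₂_inter]
    have hvol : ν (UU ∩ F q) = ∑ i ∈ I, volume (J i ∩ F q) := by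
      rw [hUF, measure_biUnion_finset]
      · apply Finset.sum_congr rfl
        intro i hi
        rw [hν, Measure.restrict_apply' measurableSet_Icc]
        congr 1
        apply Set.inter_eq_left.2
        exact Set.inter_subset_left.trans (hsubIcc i hi)
      · intro i _ j _ hij
        exact (hJdisj i j hij).mono Set.inter_subset_left Set.inter_subset_left
      · intro i _
        exact measurableSet_Ico.inter (hFm q hq)
    have hmsq := a2_ms_pos lev q
    have hge : ENNReal.ofReal (c * w * ms lev q) ≤ ν (UU ∩ F q) := by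
      calc ENNReal.ofReal (c * w * ms lev q)
          ≤ ENNReal.ofReal ((I.card : ℝ) * (c * (1 / m) * ms lev q)) := by
            apply ENNReal.ofReal_le_ofReal
            calc c * w * ms lev q ≤ c * ((I.card : ℝ) * (1 / m)) * ms lev q := by gcongr
              _ = _ := by ring
        _ = ∑ i ∈ I, ENNReal.ofReal (c * (1 / m) * ms lev q) := by
            rw [Finset.sum_const, nsmul_eq_mul, ENNReal.ofReal_mul (by positivity),
              ENNReal.ofReal_natCast]
        _ ≤ ∑ i ∈ I, volume (J i ∩ F q) := Finset.sum_le_sum hJle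
        _ = ν (UU ∩ F q) := hvol.symm
    rw [Measure.real]
    exact (ENNReal.ofReal_le_iff_le_toReal (measure_ne_top _ _)).1 hge
  have hup2 : ∑ q ∈ B, ∑ r ∈ B, ν.real (F q ∩ F r) ≤ K1 := by
    refine (a2_block γ lev P B hBpos K0 C hK0 hup).trans ?_
    rw [hK1def]
    have h9 : Ψ ^ 2 ≤ 4 := by nlinarith
    have h10 : 48 * K0 * Ψ ^ 2 ≤ 48 * K0 * 4 := by gcongr
    linarith
  -- contradiction
  have h8 : c * w * Ψ ≤ 1 / (2 * t) * K1 + t / 2 * ε := by
    calc c * w * Ψ ≤ ∑ q ∈ B, ν.real (UU ∩ F q) := hlow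
      _ ≤ _ := key
      _ ≤ _ := by gcongr
  have h9 : 1 / (2 * t) * K1 = c * w / 8 := by
    rw [ht]
    field_simp
    ring
  have h10 : t / 2 * ε = c * w / 8 := by
    rw [hε]
    field_simp
    ring
  rw [h9, h10] at h8
  have h11 : 0 < c * w := by positivity
  have h12 : c * w * (1 / 2) ≤ c * w * Ψ := mul_le_mul_of_nonneg_left hΨ1 h11.le
  linarith

end Pool.Agent.H20G
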