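import Mathlib
import Pool.Agent.Lib.H20G.A4
import Pool.Agent.Lib.H20G.A5
import Pool.Agent.DSRat.Rational

set_option autoImplicit false

/-!
# H20G chunk A6: the frozen statement S17941 from the block theorem
-/

namespace Pool.Agent.H20G

open Finset MeasureTheory Filter
open Pool.Agent.DSRat

theorem a6_final (hblk : ∀ C0 : ℝ, 1 ≤ C0 → BlockThm C0) :
    ∀ γ : ℝ, γ ≠ 0 → ∀ ψ : ℕ → ℝ, (∀ q : ℕ, 0 ≤ ψ q) →
      ¬ Summable (fun q : ℕ => (Nat.totient q : ℝ) * ψ q / (q : ℝ)) →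
      (∃ c : ℝ, 0 < c ∧ ∃ᶠ Q : ℕ in atTop,
          c * (∑ q ∈ Finset.Icc 1 Q, ψ q) ≤
            ∑ q ∈ Finset.Icc 1 Q, (Nat.totient q : ℝ) * ψ q / (q : ℝ)) →
      volume {x : ℝ | x ∈ Set.Icc (0 : ℝ) 1 ∧
          ∃ᶠ q : ℕ in atTop, ∃ p : ℤ, Int.gcd p (q : ℤ) = 1 ∧
            |(q : ℝ) * x - (p : ℝ) - γ| < ψ q} = 1 := by
  classical
  intro γ _ ψ h0 hns hcomp
  obtain ⟨c, hc, hfr⟩ := hcomp
  have hns1 := not_summable_restrict ψ h0 hns c hc hfr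
  obtain ⟨lev, f, hf, hfψ, hphi, hnf⟩ := a5_reduction ψ h0 (c / 2) hns1
  have hmax : 1 ≤ max 1 (2 / c) := le_max_left _ _
  have hpos : ∀ q, 0 < f q → f q = ms lev q ∧ 0 < q ∧ 4 ≤ lev q := by
    intro q hq
    rcases hf q with h | h
    · rw [h] at hq; exact absurd hq (lt_irrefl _)
    · exact h
  have hphi' : ∀ q, 0 < f q → (q : ℝ) ≤ (max 1 (2 / c)) * (Nat.totient q : ℝ) := by
    intro q hq
    have h1 := hphi q hq
    have hq0 : (0 : ℝ) < q := by exact_mod_cast (hpos q hq).2.1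
    rw [le_div_iff₀ hq0] at h1
    have h2 : (q : ℝ) ≤ 2 / c * (Nat.totient q : ℝ) := by
      rw [div_mul_eq_mul_div, le_div_iff₀ hc]
      linarith
    calc (q : ℝ) ≤ 2 / c * (Nat.totient q : ℝ) := h2
      _ ≤ (max 1 (2 / c)) * (Nat.totient q : ℝ) :=
          mul_le_mul_of_nonneg_right (le_max_right _ _) (Nat.cast_nonneg _)
  set A : Set ℝ := {x : ℝ | x ∈ Set.Icc (0 : ℝ) 1 ∧
      ∃ᶠ q : ℕ in atTop, ∃ p : ℤ, Int.gcd p (q : ℤ) = 1 ∧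
        |(q : ℝ) * x - (p : ℝ) - γ| < ψ q} with hA
  set Mk : ℕ → Set ℝ := fun k => Set.Icc (0 : ℝ) 1 ∩ ⋂ q ∈ {q : ℕ | k ≤ q},
      (Kset γ {p : ℤ | Int.gcd p (q : ℤ) = 1} (f q) q)ᶜ with hMk
  have hnull : volume (⋃ k : ℕ, Mk k) = 0 := by
    apply measure_iUnion_null
    intro k
    exact a4_missed (hblk _ hmax) γ lev f hf hphi' hnf k
  have hcover : Set.Icc (0 : ℝ) 1 ⊆ A ∪ ⋃ k : ℕ, Mk k := by
    intro x hx
    by_cases hxA : x ∈ A
    · left; exact hxA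
    right
    have h1 : ¬ ∃ᶠ q : ℕ in atTop, ∃ p : ℤ, Int.gcd p (q : ℤ) = 1 ∧
        |(q : ℝ) * x - (p : ℝ) - γ| < ψ q := fun h => hxA ⟨hx, h⟩
    rw [not_frequently] at h1
    obtain ⟨k, hk⟩ := eventually_atTop.1 h1
    simp only [Set.mem_iUnion]
    refine ⟨k + 1, hx, ?_⟩
    simp only [Set.mem_iInter, Set.mem_ofPred_eq, Set.mem_compl_iff]
    intro q hq hmem
    obtain ⟨p, hp1, hp2⟩ := hmem
    apply hk q (by omega)
    exact ⟨p, hp1, lt_of_lt_of_le hp2 (hfψ q)⟩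
  apply le_antisymm
  · calc volume A ≤ volume (Set.Icc (0 : ℝ) 1) := measure_mono (fun x hx => hx.1)
      _ = 1 := by rw [Real.volume_Icc]; norm_num
  · calc (1 : ENNReal) = volume (Set.Icc (0 : ℝ) 1) := by rw [Real.volume_Icc]; norm_num
      _ ≤ volume (A ∪ ⋃ k : ℕ, Mk k) := measure_mono hcover
      _ ≤ volume A + volume (⋃ k : ℕ, Mk k) := measure_union_le _ _
      _ = volume A := by rw [hnull, add_zero]

end Pool.Agent.H20G
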