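import Mathlib

set_option autoImplicit false

/-!
# H20G: definitions (inhomogeneous Duffin–Schaeffer under comparability, S17941)

See `Pool/Agent/Lib/H20G/PROOF.md`.
-/

namespace Pool.Agent.H20G

open Finset

/-! ## Divisors -/

/-- `∑_{p ∣ n} 1/p` -/
noncomputable def rp (n : ℕ) : ℝ := ∑ p ∈ n.primeFactors, 1 / (p : ℝ)

/-- the `T`-smooth part `∏_{p ≤ T} p ^ v_p(n)` -/
noncomputable def smo (T : ℕ) (n : ℕ) : ℕ :=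
  ∏ p ∈ n.primeFactors.filter (fun p => p ≤ T), p ^ (n.factorization p)

/-- the `T`-rough part `∏_{p > T} p ^ v_p(n)` -/
noncomputable def rou (T : ℕ) (n : ℕ) : ℕ :=
  ∏ p ∈ n.primeFactors.filter (fun p => T < p), p ^ (n.factorization p)

/-! ## Sets of integers, edges (module G) -/

/-- `Z_V = ∑_{v ∈ V} v` -/
noncomputable def Z (V : Finset ℕ) : ℝ := ∑ v ∈ V, (v : ℝ)

/-- `∑_{(v,w) ∈ E} v w` -/
noncomputable def Wt (E : Finset (ℕ × ℕ)) : ℝ := ∑ x ∈ E, (x.1 : ℝ) * x.2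

/-- the primes dividing some element of `V ∪ W` -/
def ps (V W : Finset ℕ) : Finset ℕ := (V ∪ W).biUnion Nat.primeFactors

/-- `{v / p ^ i : v ∈ V, v_p(v) = i}` -/
def sl (p i : ℕ) (V : Finset ℕ) : Finset ℕ :=
  (V.filter (fun v => v.factorization p = i)).image (fun v => v / p ^ i)

/-- `{(v / p ^ i, w / p ^ j) : (v, w) ∈ E, v_p(v) = i, v_p(w) = j}` -/
def slE (p i j : ℕ) (E : Finset (ℕ × ℕ)) : Finset (ℕ × ℕ) :=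
  (E.filter (fun x => x.1.factorization p = i ∧ x.2.factorization p = j)).image
    (fun x => (x.1 / p ^ i, x.2 / p ^ j))

open Classical in
/-- the block `{(x, x') ∈ [X, 2X) × [X', 2X') : gcd(x h', x' h) = 1, (N x / h, N x' / h') ∈ E0}` (`h, h' ∣ N`) -/
noncomputable def Bl (E0 : Set (ℕ × ℕ)) (N h h' X X' : ℕ) : Finset (ℕ × ℕ) :=
  ((Finset.Ico X (2 * X)) ×ˢ (Finset.Ico X' (2 * X'))).filter
    (fun x => Nat.Coprime (x.1 * h') (x.2 * h) ∧ (N / h * x.1, N / h' * x.2) ∈ E0)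

/-- `α β / gcd(α, β)²` -/
def Lam (α β : ℕ) : ℕ := (α / Nat.gcd α β) * (β / Nat.gcd α β)

/-- growth condition on the gain function -/
def GrowthG (G : ℕ → ℝ) : Prop :=
  (∀ n : ℕ, 0 < n → 0 < G n ∧ G n ≤ 1) ∧
  ∀ Λ p k : ℕ, 0 < Λ → p.Prime → G (Λ * p ^ k) ≤ ((p : ℝ) ^ ((k : ℝ) / 80)) * G Λ

/-- hypothesis (H) of Theorem 1 -/
def HypG (c0 C2 : ℝ) (G : ℕ → ℝ) (E0 : Set (ℕ × ℕ)) : Prop :=
  ∀ N α' β' : ℕ, 0 < N → rp N ≤ 4 * c0 → Nat.Coprime α' β' → α' ∣ N → β' ∣ N → ∀ k k' : ℕ,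
    ∑ h ∈ N.divisors.filter (fun h => β' ∣ h), ∑ h' ∈ N.divisors.filter (fun h' => α' ∣ h'),
      ((α' : ℝ) * β' / (h * h')) * ((Bl E0 N h h' (2 ^ k) (2 ^ k')).card : ℝ)
      ≤ C2 * (G (α' * β')) ^ (40 / 19 : ℝ) * ((2 : ℝ) ^ k * 2 ^ k')

/-- configurations of the induction: `(α v, β w) ∈ E0`, `lcm(v, w) ≤ L` on `E ⊆ V × W` -/
structure Cfg (c0 : ℝ) (E0 : Set (ℕ × ℕ)) (α β : ℕ) (V W : Finset ℕ) (E : Finset (ℕ × ℕ)) (L : ℝ) : Prop where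
  hα : 0 < α
  hβ : 0 < β
  hL : 0 < L
  hV : ∀ v ∈ V, 0 < v ∧ Nat.Coprime v α ∧ Nat.Coprime v β ∧ rp (α * v) ≤ c0
  hW : ∀ w ∈ W, 0 < w ∧ Nat.Coprime w α ∧ Nat.Coprime w β ∧ rp (β * w) ≤ c0
  hE : ∀ x ∈ E, x.1 ∈ V ∧ x.2 ∈ W ∧ (α * x.1, β * x.2) ∈ E0 ∧ ((Nat.lcm x.1 x.2 : ℕ) : ℝ) ≤ L

/-- good pair: for every prime one of the exponents is that of `N` -/
def GoodP (N v w : ℕ) : Prop :=
  ∀ p : ℕ, p.Prime → v.factorization p = N.factorization p ∨ w.factorization p = N.factorization p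

/-- the function `F_p` of module G -/
noncomputable def FF (t : ℝ) (n : ℕ) (a b : ℕ → ℝ) : ℝ :=
  ∑ i ∈ range n, ∑ j ∈ range n, t ^ (max i j - min i j) * (a i * b j) ^ (21 / 40 : ℝ)

/-! ## Counting function (module T) -/

/-- `#{(v, w) ∈ V × W : v b = w a}` -/
def cn (V W : Finset ℕ) (a b : ℕ) : ℕ :=
  ((V ×ˢ W).filter (fun x : ℕ × ℕ => x.1 * b = x.2 * a)).card

/-- coprime pairs `(a, b)`, `1 ≤ a ≤ A`, `1 ≤ b ≤ B` -/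
noncomputable def cp (A B : ℝ) : Finset (ℕ × ℕ) :=
  ((Icc 1 ⌊A⌋₊) ×ˢ (Icc 1 ⌊B⌋₊)).filter (fun x : ℕ × ℕ => Nat.Coprime x.1 x.2)

/-- `∑_{(a,b)} cn(a,b)^{4/3}` -/
noncomputable def KS (V W : Finset ℕ) (A B : ℝ) : ℝ :=
  ∑ x ∈ cp A B, (cn V W x.1 x.2 : ℝ) ^ (4 / 3 : ℝ)

/-- the function `F_p` of module T -/
noncomputable def FT (t : ℝ) (n : ℕ) (a b : ℕ → ℝ) : ℝ :=
  ∑ k ∈ range n, t ^ k * (∑ i ∈ range n, (a (i + k) * b i) ^ (21 / 40 : ℝ)) ^ (4 / 3 : ℝ) +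
  ∑ k ∈ Ico 1 n, t ^ k * (∑ i ∈ range n, (a i * b (i + k)) ^ (21 / 40 : ℝ)) ^ (4 / 3 : ℝ)

end Pool.Agent.H20G
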