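import Mathlib
import Pool.Agent.Lib.H20G.Defs

set_option autoImplicit false

/-!
# H20G module B (section 10, the distortion lemma): definitions
-/

namespace Pool.Agent.H20G

open Finset

/-- the reduced residues mod `Q`, as naturals below `Q` -/
def BU (Q : ℕ) : Finset ℕ := (range Q).filter (fun x => Nat.Coprime x Q)

/-- average over the reduced residues mod `Q` -/
noncomputable def BAv (Q : ℕ) (g : ℕ → ℝ) : ℝ := (∑ x ∈ BU Q, g x) / (Q.totient : ℝ)

open Classical in
/-- indicator function of a predicate -/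
noncomputable def Bind (A : ℕ → Prop) (x : ℕ) : ℝ := if A x then 1 else 0

open Classical in
/-- the proportion of `B` in the fibre over `x mod Q` of the reduced residues mod `Q R` -/
noncomputable def Bal (Q R : ℕ) (B : ℕ → Prop) (x : ℕ) : ℝ :=
  (((BU (Q * R)).filter (fun y => y % Q = x % Q ∧ B y)).card : ℝ) / (R.totient : ℝ)

/-- the union of the classes with modulus dividing `Q` -/
def BCov (cl : ℕ → Finset ℕ) (Q : ℕ) (y : ℕ) : Prop :=
  ∃ m, m ∣ Q ∧ ∃ c ∈ cl m, y ≡ c [MOD m]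

/-- the union of the classes with modulus dividing `Q` and divisible by `p` -/
def BNew (cl : ℕ → Finset ℕ) (Q p : ℕ) (y : ℕ) : Prop :=
  ∃ m, m ∣ Q ∧ p ∣ m ∧ ∃ c ∈ cl m, y ≡ c [MOD m]

/-- bound for the mass of a class mod `m` -/
noncomputable def BG (D : ℕ → ℝ) (m : ℕ) : ℝ := (∏ p ∈ m.primeFactors, D p) / (m.totient : ℝ)

/-- probability densities on the reduced residues mod `Q`, at most `∏ D p`, with the class bounds `BG D` -/
structure BDens (D : ℕ → ℝ) (Q : ℕ) (f : ℕ → ℝ) : Prop where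
  per : ∀ x, f (x % Q) = f x
  nn : ∀ x, 0 ≤ f x
  le : ∀ x, f x ≤ ∏ p ∈ Q.primeFactors, D p
  mean : BAv Q f = 1
  cls : ∀ m c : ℕ, m ∣ Q → BAv Q (fun x => f x * Bind (fun y => y ≡ c [MOD m]) x) ≤ BG D m

/-- the distorted density: `f (1 + δ (α - 1_B) / (α + δ))` -/
noncomputable def Bf (Q R : ℕ) (B : ℕ → Prop) (d : ℝ) (f : ℕ → ℝ) (y : ℕ) : ℝ :=
  f y * (1 + d * (Bal Q R B y - Bind B y) / (Bal Q R B y + d))

/-- the distortion factors: `1` up to `y1`, `1 + W / p` beyond -/
noncomputable def BD (W : ℝ) (y1 : ℕ) (p : ℕ) : ℝ := if p ≤ y1 then 1 else 1 + W / p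

end Pool.Agent.H20G
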