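import Mathlib
import Pool.Agent.Lib.H20G.B0

set_option autoImplicit false

/-!
# H20G chunk B1: Chinese remainder theorem for sums over reduced residues
-/

namespace Pool.Agent.H20G

open Finset

/-- `BU Q` has `φ(Q)` elements. PROOF. `Nat.totient` is by definition the cardinality of `(range Q).filter (Q.Coprime ·)`;
`Nat.coprime_comm`. -/
theorem b1_card (Q : ℕ) : (BU Q).card = Q.totient := by
  rw [Nat.totient_eq_card_coprime, BU]
  congr 1
  ext x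
  simp only [Finset.mem_filter, Nat.coprime_comm]

/-- PROOF. `Finset.sum_product'` turns the right side into a sum over `BU Q ×ˢ BU R`, then `Finset.sum_bij'` (or `sum_nbij'`) with
`x ↦ (x % Q, x % R)` and inverse `(a, b) ↦ Nat.chineseRemainder h a b` (`Nat.chineseRemainder_lt_mul`).
`Nat.Coprime (x % Q) Q ↔ Nat.Coprime x Q`, `Nat.Coprime x (Q R) ↔ Nat.Coprime x Q ∧ Nat.Coprime x R`. -/
theorem b1_sum (Q R : ℕ) (hQ : 0 < Q) (hR : 0 < R) (h : Nat.Coprime Q R) (F : ℕ → ℕ → ℝ) :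
    ∑ x ∈ BU (Q * R), F (x % Q) (x % R) = ∑ a ∈ BU Q, ∑ b ∈ BU R, F a b := by
  rw [← Finset.sum_product']
  have hmem : ∀ (T x : ℕ), x ∈ BU T ↔ x < T ∧ Nat.Coprime x T := by
    intro T x
    simp [BU]
  refine Finset.sum_nbij' (fun x => (x % Q, x % R)) (fun p => (Nat.chineseRemainder h p.1 p.2 : ℕ)) ?_ ?_ ?_ ?_ ?_
  · intro x hx
    obtain ⟨h1, h2⟩ := (hmem _ _).mp hx
    rw [Finset.mem_product]
    refine ⟨(hmem _ _).mpr ⟨Nat.mod_lt _ hQ, ?_⟩, (hmem _ _).mpr ⟨Nat.mod_lt _ hR, ?_⟩⟩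
    · exact (Nat.ModEq.gcd_eq (Nat.mod_modEq x Q)).trans (Nat.Coprime.coprime_mul_right_right h2)
    · exact (Nat.ModEq.gcd_eq (Nat.mod_modEq x R)).trans (Nat.Coprime.coprime_mul_left_right h2)
  · rintro ⟨a, b⟩ hab
    rw [Finset.mem_product] at hab
    obtain ⟨ha, hb⟩ := hab
    obtain ⟨ha1, ha2⟩ := (hmem _ _).mp ha
    obtain ⟨hb1, hb2⟩ := (hmem _ _).mp hb
    have hc := (Nat.chineseRemainder h a b).2
    refine (hmem _ _).mpr ⟨Nat.chineseRemainder_lt_mul h a b hQ.ne' hR.ne', ?_⟩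
    refine Nat.Coprime.mul_right ?_ ?_
    · exact (Nat.ModEq.gcd_eq hc.1).trans ha2
    · exact (Nat.ModEq.gcd_eq hc.2).trans hb2
  · intro x hx
    obtain ⟨h1, h2⟩ := (hmem _ _).mp hx
    have h3 : x ≡ Nat.chineseRemainder h (x % Q) (x % R) [MOD Q * R] :=
      Nat.chineseRemainder_modEq_unique h (Nat.mod_modEq x Q).symm (Nat.mod_modEq x R).symm
    exact (Nat.ModEq.eq_of_lt_of_lt h3 h1 (Nat.chineseRemainder_lt_mul h _ _ hQ.ne' hR.ne')).symm
  · rintro ⟨a, b⟩ hab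
    rw [Finset.mem_product] at hab
    obtain ⟨ha, hb⟩ := hab
    obtain ⟨ha1, ha2⟩ := (hmem _ _).mp ha
    obtain ⟨hb1, hb2⟩ := (hmem _ _).mp hb
    have hc := (Nat.chineseRemainder h a b).2
    refine Prod.ext ?_ ?_
    · exact Eq.trans (show _ % Q = a % Q from hc.1) (Nat.mod_eq_of_lt ha1)
    · exact Eq.trans (show _ % R = b % R from hc.2) (Nat.mod_eq_of_lt hb1)
  · intro x hx
    rfl

/-- PROOF. `b1_sum` and `Nat.totient_mul`. -/
theorem b1_av (Q R : ℕ) (hQ : 0 < Q) (hR : 0 < R) (h : Nat.Coprime Q R) (F : ℕ → ℕ → ℝ) :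
    BAv (Q * R) (fun x => F (x % Q) (x % R)) = BAv Q (fun a => BAv R (fun b => F a b)) := by
  unfold BAv
  rw [b1_sum Q R hQ hR h F, Nat.totient_mul h, Nat.cast_mul, ← Finset.sum_div, div_div, mul_comm]

end Pool.Agent.H20G
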