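import Mathlib
import Pool.Agent.Lib.H20G.B0
import Pool.Agent.Lib.H20G.B1

set_option autoImplicit false

/-!
# H20G chunk B2: fibre averages
-/

namespace Pool.Agent.H20G

open Finset

/-- Fibre formula: for `g` of period `Q`, the average of `g 1_B` mod `Q R` is the average mod `Q` of `g α`, `α = Bal Q R B`.
PROOF. `y ↦ y % Q` maps `BU (Q R)` to `BU Q` (coprime to `Q R` implies coprime to `Q`). `Finset.sum_fiberwise_of_maps_to`:
`∑_{y ∈ BU (Q R)} g y Bind B y = ∑_{a ∈ BU Q} ∑_{y ∈ BU (Q R), y % Q = a} g a Bind B y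
= ∑_a g a #{y ∈ BU (Q R) : y % Q = a % Q, B y} = φ(R) ∑_a g a α(a)` (`a % Q = a` for `a ∈ BU Q`; `g y = g (y % Q) = g a`).
Divide by `φ(Q R) = φ(Q) φ(R)` (`φ(R) > 0`). -/
theorem b2_fib (Q R : ℕ) (hQ : 0 < Q) (hR : 0 < R) (h : Nat.Coprime Q R) (B : ℕ → Prop) (g : ℕ → ℝ)
    (hg : ∀ x, g (x % Q) = g x) :
    BAv (Q * R) (fun y => g y * Bind B y) = BAv Q (fun a => g a * Bal Q R B a) := by
  have hmem : ∀ (T x : ℕ), x ∈ BU T ↔ x < T ∧ Nat.Coprime x T := by
    intro T x
    simp [BU]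
  have hφR : (0 : ℝ) < (R.totient : ℝ) := by exact_mod_cast Nat.totient_pos.mpr hR
  have hmaps : ∀ y ∈ BU (Q * R), y % Q ∈ BU Q := by
    intro y hy
    obtain ⟨h1, h2⟩ := (hmem _ _).mp hy
    refine (hmem _ _).mpr ⟨Nat.mod_lt _ hQ, ?_⟩
    exact (Nat.ModEq.gcd_eq (Nat.mod_modEq y Q)).trans (Nat.Coprime.coprime_mul_right_right h2)
  have key : ∑ y ∈ BU (Q * R), g y * Bind B y = (R.totient : ℝ) * ∑ a ∈ BU Q, g a * Bal Q R B a := by
    rw [← Finset.sum_fiberwise_of_maps_to hmaps, Finset.mul_sum]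
    refine Finset.sum_congr rfl fun a ha => ?_
    have haQ : a % Q = a := Nat.mod_eq_of_lt ((hmem _ _).mp ha).1
    have e1 : ∀ y ∈ (BU (Q * R)).filter (fun y => y % Q = a), g y * Bind B y = g a * Bind B y := by
      intro y hy
      have h1 := (Finset.mem_filter.mp hy).2
      rw [← hg y, h1]
    rw [Finset.sum_congr rfl e1, ← Finset.mul_sum]
    have e2 : ∑ y ∈ (BU (Q * R)).filter (fun y => y % Q = a), Bind B y = (R.totient : ℝ) * Bal Q R B a := by
      unfold Bal Bind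
      rw [mul_div_cancel₀ _ hφR.ne', ← Finset.sum_filter, Finset.filter_filter, Finset.sum_const, nsmul_eq_mul,
        mul_one, haQ]
    rw [e2]
    ring
  unfold BAv
  rw [key, Nat.totient_mul h, Nat.cast_mul]
  field_simp

/-- PROOF. `b1_av` with `F a b = g a` (`g x = g (x % Q)`), and `BAv R (fun _ => g a) = g a` (`b1_card`, `φ(R) > 0`). -/
theorem b2_per (Q R : ℕ) (hQ : 0 < Q) (hR : 0 < R) (h : Nat.Coprime Q R) (g : ℕ → ℝ)
    (hg : ∀ x, g (x % Q) = g x) :
    BAv (Q * R) g = BAv Q g := by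
  have h1 := b1_av Q R hQ hR h (fun a _ => g a)
  have h2 : (fun x => (fun a (_ : ℕ) => g a) (x % Q) (x % R)) = g := by
    funext x
    exact hg x
  rw [h2] at h1
  rw [h1]
  congr 1
  funext a
  unfold BAv
  have hφR : (0 : ℝ) < (R.totient : ℝ) := by exact_mod_cast Nat.totient_pos.mpr hR
  rw [Finset.sum_const, b1_card, nsmul_eq_mul]
  field_simp

/-- `0 ≤ α`. Trivial. -/
theorem b2_nn (Q R : ℕ) (B : ℕ → Prop) (x : ℕ) : 0 ≤ Bal Q R B x := by
  exact div_nonneg (Nat.cast_nonneg _) (Nat.cast_nonneg _)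

/-- `α ≤ 1`. PROOF. The set `{y ∈ BU (Q R) : y % Q = x % Q}` has at most `φ(R)` elements: `y ↦ y % R` maps it into `BU R` and is
injective on it (`y < Q R` is determined by `y % Q` and `y % R`: `Nat.ModEq` and `Nat.modEq_and_modEq_iff_modEq_mul`),
`b1_card`. -/
theorem b2_le (Q R : ℕ) (hQ : 0 < Q) (hR : 0 < R) (h : Nat.Coprime Q R) (B : ℕ → Prop) (x : ℕ) :
    Bal Q R B x ≤ 1 := by
  classical
  have hφR : (0 : ℝ) < (R.totient : ℝ) := by exact_mod_cast Nat.totient_pos.mpr hR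
  unfold Bal
  rw [div_le_one hφR]
  have h1 : ((BU (Q * R)).filter (fun y => y % Q = x % Q ∧ B y)).card ≤ R.totient := by
    rw [← b1_card R]
    refine Finset.card_le_card_of_injOn (fun y => y % R) ?_ ?_
    · intro y hy
      have hy1 := (Finset.mem_filter.mp hy).1
      simp only [BU, Finset.mem_filter, Finset.mem_range] at hy1
      simp only [BU, Finset.coe_filter, Finset.mem_range, Set.mem_ofPred_eq]
      exact ⟨Nat.mod_lt _ hR, (Nat.ModEq.gcd_eq (Nat.mod_modEq y R)).trans (Nat.Coprime.coprime_mul_left_right hy1.2)⟩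
    · intro y hy z hz hyz
      have hy1 := Finset.mem_filter.mp (Finset.mem_coe.mp hy)
      have hz1 := Finset.mem_filter.mp (Finset.mem_coe.mp hz)
      have hyl : y < Q * R := by
        have := hy1.1
        simp only [BU, Finset.mem_filter, Finset.mem_range] at this
        exact this.1
      have hzl : z < Q * R := by
        have := hz1.1
        simp only [BU, Finset.mem_filter, Finset.mem_range] at this
        exact this.1
      have hQe : y ≡ z [MOD Q] := hy1.2.1.trans hz1.2.1.symm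
      have hRe : y ≡ z [MOD R] := hyz
      have hm := (Nat.modEq_and_modEq_iff_modEq_mul h).mp ⟨hQe, hRe⟩
      exact Nat.ModEq.eq_of_lt_of_lt hm hyl hzl
  exact_mod_cast h1

/-- `α` has period `Q`. PROOF. `(x % Q) % Q = x % Q`. -/
theorem b2_mod (Q R : ℕ) (B : ℕ → Prop) (x : ℕ) : Bal Q R B (x % Q) = Bal Q R B x := by
  unfold Bal
  rw [Nat.mod_mod]

end Pool.Agent.H20G
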