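import Mathlib
import Pool.Agent.Lib.H20G.B0
import Pool.Agent.Lib.H20G.B2

set_option autoImplicit false

/-!
# H20G chunk B3: the distorted density, averages
-/

namespace Pool.Agent.H20G

open Finset

theorem b3_ind (B : ℕ → Prop) (y : ℕ) : 0 ≤ Bind B y ∧ Bind B y ≤ 1 ∧ Bind B y * Bind B y = Bind B y := by
  classical
  unfold Bind
  split_ifs <;> norm_num

theorem b3_sub (T : ℕ) (u v : ℕ → ℝ) : BAv T (fun x => u x - v x) = BAv T u - BAv T v := by
  unfold BAv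
  rw [Finset.sum_sub_distrib, sub_div]

theorem b3_mono (T : ℕ) (u v : ℕ → ℝ) (h : ∀ x, u x ≤ v x) : BAv T u ≤ BAv T v := by
  unfold BAv
  exact div_le_div_of_nonneg_right (Finset.sum_le_sum fun x _ => h x) (Nat.cast_nonneg _)

/-- The distorted density is nonnegative. PROOF. With `α = Bal Q R B y ∈ [0, 1]`, `b = Bind B y ∈ {0, 1}`, `α + d > 0`:
`1 + d (α - b)/(α + d) ≥ 1 - d (1 - α)/(α + d) = α (1 + d)/(α + d) ≥ 0`. -/
theorem b3_nn (Q R : ℕ) (hQ : 0 < Q) (hR : 0 < R) (h : Nat.Coprime Q R) (B : ℕ → Prop) (d : ℝ) (hd : 0 < d)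
    (f : ℕ → ℝ) (hf : ∀ x, 0 ≤ f x) (y : ℕ) : 0 ≤ Bf Q R B d f y := by
  obtain ⟨h0, h1, _⟩ := b3_ind B y
  have hα := b2_nn Q R B y
  unfold Bf
  refine mul_nonneg (hf y) ?_
  have hpos : 0 < Bal Q R B y + d := by linarith
  have e : 1 + d * (Bal Q R B y - Bind B y) / (Bal Q R B y + d)
      = (Bal Q R B y * (1 + d) + d * (1 - Bind B y)) / (Bal Q R B y + d) := by
    field_simp
    ring
  rw [e]
  refine div_nonneg ?_ hpos.le
  have h2 : 0 ≤ Bal Q R B y * (1 + d) := mul_nonneg hα (by linarith)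
  have h3 : 0 ≤ d * (1 - Bind B y) := mul_nonneg hd.le (by linarith)
  linarith

/-- The distorted density is at most `(1 + d) f`. PROOF. `d (α - b)/(α + d) ≤ d α/(α + d) ≤ d`. -/
theorem b3_le (Q R : ℕ) (B : ℕ → Prop) (d : ℝ) (hd : 0 < d)
    (f : ℕ → ℝ) (hf : ∀ x, 0 ≤ f x) (y : ℕ) : Bf Q R B d f y ≤ (1 + d) * f y := by
  obtain ⟨h0, h1, _⟩ := b3_ind B y
  have hα := b2_nn Q R B y
  unfold Bf
  rw [mul_comm (1 + d)]
  refine mul_le_mul_of_nonneg_left ?_ (hf y)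
  have hpos : 0 < Bal Q R B y + d := by linarith
  have e : d * (Bal Q R B y - Bind B y) / (Bal Q R B y + d) ≤ d := by
    rw [div_le_iff₀ hpos]
    nlinarith [mul_nonneg hd.le h0, mul_pos hd hd]
  linarith

/-- Events mod `Q` keep their mass. PROOF. Write `α = Bal Q R B`. `f' g = f g (1 + d α/(α + d)) - (f g d/(α + d)) 1_B`.
The first function has period `Q` (`b2_mod`): `b2_per`. The second: `b2_fib`. Together:
`BAv Q (f g (1 + d α/(α+d)) - f g d α/(α + d)) = BAv Q (f g)`. -/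
theorem b3_ev (Q R : ℕ) (hQ : 0 < Q) (hR : 0 < R) (h : Nat.Coprime Q R) (B : ℕ → Prop) (d : ℝ) (hd : 0 < d)
    (f g : ℕ → ℝ) (hf : ∀ x, f (x % Q) = f x) (hg : ∀ x, g (x % Q) = g x) :
    BAv (Q * R) (fun y => Bf Q R B d f y * g y) = BAv Q (fun y => f y * g y) := by
  have hα : ∀ y, 0 < Bal Q R B y + d := fun y => by linarith [b2_nn Q R B y]
  have e1 : (fun y => Bf Q R B d f y * g y) = fun y =>
      (fun x => f x * g x * (1 + d * Bal Q R B x / (Bal Q R B x + d))) y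
        - (fun x => (fun z => f z * g z * (d / (Bal Q R B z + d))) x * Bind B x) y := by
    funext y
    have h1 := (hα y).ne'
    simp only [Bf]
    field_simp
    ring
  rw [e1, b3_sub, b2_per Q R hQ hR h, b2_fib Q R hQ hR h, ← b3_sub]
  · congr 1
    funext y
    have h1 := (hα y).ne'
    field_simp
    ring
  · intro x
    simp only [hf, hg, b2_mod]
  · intro x
    simp only [hf, hg, b2_mod]

/-- The mass of `B`. PROOF. On `B` (`Bind B y = 1`): `f' = f (1 + d (α - 1)/(α + d)) = f α (1 + d)/(α + d)`, so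
`f' 1_B = (f α (1 + d)/(α + d)) 1_B` everywhere, and `b2_fib` gives the average `BAv Q (f α² (1 + d)/(α + d))`;
`(1 + d)/(α + d) ≤ (1 + d)/d = 1 + 1/d`. -/
theorem b3_mass (Q R : ℕ) (hQ : 0 < Q) (hR : 0 < R) (h : Nat.Coprime Q R) (B : ℕ → Prop) (d : ℝ) (hd : 0 < d)
    (f : ℕ → ℝ) (hf : ∀ x, f (x % Q) = f x) (hf0 : ∀ x, 0 ≤ f x) :
    BAv (Q * R) (fun y => Bf Q R B d f y * Bind B y) ≤ (1 + 1 / d) * BAv Q (fun x => f x * (Bal Q R B x) ^ 2) := by
  have hα : ∀ y, 0 < Bal Q R B y + d := fun y => by linarith [b2_nn Q R B y]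
  have e1 : (fun y => Bf Q R B d f y * Bind B y) = fun y =>
      (fun x => f x * (Bal Q R B x * (1 + d) / (Bal Q R B x + d))) y * Bind B y := by
    funext y
    have h1 := (hα y).ne'
    obtain ⟨_, _, h2⟩ := b3_ind B y
    simp only [Bf]
    field_simp
    linear_combination (-(f y * d)) * h2
  rw [e1, b2_fib Q R hQ hR h _ _ (fun x => by simp only [hf, b2_mod])]
  have e2 : (1 + 1 / d) * BAv Q (fun x => f x * (Bal Q R B x) ^ 2)
      = BAv Q (fun x => (1 + 1 / d) * (f x * (Bal Q R B x) ^ 2)) := by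
    unfold BAv
    rw [← Finset.mul_sum, mul_div_assoc]
  rw [e2]
  refine b3_mono _ _ _ fun x => ?_
  have h1 := b2_nn Q R B x
  have h2 := hα x
  have h3 : Bal Q R B x * (1 + d) / (Bal Q R B x + d) ≤ (1 + 1 / d) * Bal Q R B x := by
    rw [div_le_iff₀ h2]
    have h4 : (1 + 1 / d) * d = 1 + d := by
      field_simp
      ring
    have h5 : 0 ≤ (1 + 1 / d) * Bal Q R B x * Bal Q R B x := by positivity
    nlinarith [h4, h5]
  calc f x * (Bal Q R B x * (1 + d) / (Bal Q R B x + d)) * Bal Q R B x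
      ≤ f x * ((1 + 1 / d) * Bal Q R B x) * Bal Q R B x := by
        refine mul_le_mul_of_nonneg_right (mul_le_mul_of_nonneg_left h3 (hf0 x)) h1
    _ = (1 + 1 / d) * (f x * (Bal Q R B x) ^ 2) := by ring

end Pool.Agent.H20G
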