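import Mathlib
import Pool.Agent.Lib.H20G.B0
import Pool.Agent.Lib.H20G.B1

set_option autoImplicit false

/-!
# H20G chunk B4: classes mod prime powers, class bounds for the undistorted density mod `Q p^e`
-/

namespace Pool.Agent.H20G

open Finset

/-- A class mod `p^k` contains at most the proportion `1/φ(p^k)` of the reduced residues mod `p^e`, `k ≤ e`.
PROOF. `k = 0`: the average of a function `≤ 1` is at most `1 = 1/φ(1)`. `k ≥ 1`: the number of `b < p^e` with `b ≡ c mod p^k` is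
`p^(e-k)` (`b = (c % p^k) + p^k t`, `t < p^(e-k)`; `Nat.count_modEq_card` or a direct bijection / injection to `range (p^(e-k))` by
`b ↦ b / p^k`), and `φ(p^e) = p^(e-1) (p-1) = p^(e-k) φ(p^k)` (`Nat.totient_prime_pow`). -/
theorem b4_pow (p e k c : ℕ) (hp : p.Prime) (hk : k ≤ e) :
    BAv (p ^ e) (Bind (fun y => y ≡ c [MOD p ^ k])) ≤ 1 / ((p ^ k).totient : ℝ) := by
  classical
  have hpe : 0 < p ^ e := pow_pos hp.pos e
  have hφ : (0 : ℝ) < ((p ^ e).totient : ℝ) := by exact_mod_cast Nat.totient_pos.mpr hpe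
  have hcard : ∑ x ∈ BU (p ^ e), Bind (fun y => y ≡ c [MOD p ^ k]) x
      = (((BU (p ^ e)).filter (fun y => y ≡ c [MOD p ^ k])).card : ℝ) := by
    rw [Finset.card_filter]
    push_cast
    refine Finset.sum_congr rfl fun x _ => ?_
    unfold Bind
    by_cases hx : x ≡ c [MOD p ^ k] <;> simp [hx]
  unfold BAv
  rw [hcard]
  rcases Nat.eq_zero_or_pos k with rfl | hk0
  · rw [pow_zero, Nat.totient_one, Nat.cast_one, div_one, div_le_one hφ]
    have h1 := Finset.card_filter_le (BU (p ^ e)) (fun y => y ≡ c [MOD 1])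
    rw [b1_card] at h1
    exact_mod_cast h1
  · have he : 0 < e := lt_of_lt_of_le hk0 hk
    have h1 : ((BU (p ^ e)).filter (fun y => y ≡ c [MOD p ^ k])).card ≤ p ^ (e - k) := by
      have h2 : ((BU (p ^ e)).filter (fun y => y ≡ c [MOD p ^ k])).card ≤ (range (p ^ (e - k))).card := by
        refine Finset.card_le_card_of_injOn (fun y => y / p ^ k) ?_ ?_
        · intro y hy
          have hy1 := (Finset.mem_filter.mp (Finset.mem_coe.mp hy)).1
          simp only [BU, Finset.mem_filter, Finset.mem_range] at hy1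
          simp only [Finset.coe_range, Set.mem_Iio]
          rw [Nat.div_lt_iff_lt_mul (pow_pos hp.pos k), ← pow_add, Nat.sub_add_cancel hk]
          exact hy1.1
        · intro y hy z hz hyz
          have hy1 : y % p ^ k = c % p ^ k := (Finset.mem_filter.mp (Finset.mem_coe.mp hy)).2
          have hz1 : z % p ^ k = c % p ^ k := (Finset.mem_filter.mp (Finset.mem_coe.mp hz)).2
          have hyz' : y / p ^ k = z / p ^ k := hyz
          rw [← Nat.div_add_mod y (p ^ k), ← Nat.div_add_mod z (p ^ k), hyz', hy1, hz1]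
      rwa [Finset.card_range] at h2
    have h3 : (p ^ e).totient = p ^ (e - k) * (p ^ k).totient := by
      rw [Nat.totient_prime_pow hp he, Nat.totient_prime_pow hp hk0, ← mul_assoc, ← pow_add]
      congr 2
      omega
    have hφk : (0 : ℝ) < ((p ^ k).totient : ℝ) := by exact_mod_cast Nat.totient_pos.mpr (pow_pos hp.pos k)
    rw [div_le_div_iff₀ hφ hφk, h3, one_mul]
    have h4 : (((BU (p ^ e)).filter (fun y => y ≡ c [MOD p ^ k])).card : ℝ) ≤ ((p ^ (e - k) : ℕ) : ℝ) := by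
      exact_mod_cast h1
    rw [Nat.cast_mul]
    exact mul_le_mul_of_nonneg_right h4 hφk.le

/-- Class bound mod `Q p^e` for the undistorted density.
PROOF. `m ∣ Q p^e` and `Nat.Coprime Q (p^e)`: `m = m1 p^k` with `m1 ∣ Q`, `k ≤ e`, `Nat.Coprime m1 (p^k)`
(`Nat.dvd_mul`, `(Nat.dvd_prime_pow hp)`), and `k ≥ 1 ↔ p ∣ m`.
`y ≡ c [MOD m1 p^k] ↔ y ≡ c [MOD m1] ∧ y ≡ c [MOD p^k]` (`Nat.modEq_and_modEq_iff_modEq_mul`), and since `m1 ∣ Q`, `p^k ∣ p^e` the two
conditions depend only on `y % Q` and on `y % p^e`. So `b1_av` with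
`F a b = f a Bind (· ≡ c [MOD m1]) a · Bind (· ≡ c [MOD p^k]) b` gives
`BAv (Q p^e) (f 1_{c mod m}) = BAv Q (f 1_{c mod m1}) · BAv (p^e) (1_{c mod p^k}) ≤ BAv Q (f 1_{c mod m1}) / φ(p^k)` (`b4_pow`),
and `BAv Q (f 1_{c mod m1}) ≤ X(m1)` where `X(m1) ≤ (∏_{p' ∣ m1} D p') / φ(m1)`; `φ(m) = φ(m1) φ(p^k)`, and
`m.primeFactors = m1.primeFactors ∪ {p}` if `k ≥ 1`, `= m1.primeFactors` if `k = 0`, so in both cases
`∏_{p' ∣ m1} D p' = ∏_{p' ∣ m, p' ≠ p} D p'`. -/
theorem b4_cls (D : ℕ → ℝ) (Q p e m c : ℕ) (hp : p.Prime) (hQ : 0 < Q) (hpQ : ¬ p ∣ Q) (f : ℕ → ℝ)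
    (hper : ∀ x, f (x % Q) = f x) (hnn : ∀ x, 0 ≤ f x)
    (hcls : ∀ m' c' : ℕ, m' ∣ Q → BAv Q (fun x => f x * Bind (fun y => y ≡ c' [MOD m']) x) ≤ BG D m')
    (hm : m ∣ Q * p ^ e) :
    BAv (Q * p ^ e) (fun x => f x * Bind (fun y => y ≡ c [MOD m]) x) ≤
      (∏ p' ∈ m.primeFactors.erase p, D p') / (m.totient : ℝ) := by
  have hcop : Nat.Coprime Q (p ^ e) := Nat.Coprime.pow_right e (((Nat.Prime.coprime_iff_not_dvd hp).mpr hpQ).symm)
  obtain ⟨m1, m2, hm1, hm2, rfl⟩ := (Nat.dvd_mul).mp hm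
  obtain ⟨k, hk, rfl⟩ := (Nat.dvd_prime_pow hp).mp hm2
  have hcop1 : Nat.Coprime m1 (p ^ k) := (hcop.coprime_dvd_left hm1).coprime_dvd_right hm2
  have hm1p : ¬ p ∣ m1 := fun h => hpQ (h.trans hm1)
  have hm10 : m1 ≠ 0 := fun h => hm1p (h ▸ dvd_zero p)
  have hpe : 0 < p ^ e := pow_pos hp.pos e
  set G : ℕ → ℝ := fun a => f a * Bind (fun y => y ≡ c [MOD m1]) a with hG
  set H : ℕ → ℝ := Bind (fun y => y ≡ c [MOD p ^ k]) with hH
  have e1 : (fun x => f x * Bind (fun y => y ≡ c [MOD m1 * p ^ k]) x)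
      = fun x => (fun a b => G a * H b) (x % Q) (x % p ^ e) := by
    funext x
    have h1 : x % Q ≡ c [MOD m1] ↔ x ≡ c [MOD m1] := by
      show x % Q % m1 = c % m1 ↔ x % m1 = c % m1
      rw [Nat.mod_mod_of_dvd _ hm1]
    have h2 : x % p ^ e ≡ c [MOD p ^ k] ↔ x ≡ c [MOD p ^ k] := by
      show x % p ^ e % p ^ k = c % p ^ k ↔ x % p ^ k = c % p ^ k
      rw [Nat.mod_mod_of_dvd _ hm2]
    have h3 : x ≡ c [MOD m1 * p ^ k] ↔ x ≡ c [MOD m1] ∧ x ≡ c [MOD p ^ k] :=
      (Nat.modEq_and_modEq_iff_modEq_mul hcop1).symm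
    simp only [hG, hH, hper, Bind]
    by_cases hx1 : x ≡ c [MOD m1]
    · by_cases hx2 : x ≡ c [MOD p ^ k]
      · rw [if_pos (h3.mpr ⟨hx1, hx2⟩), if_pos (h1.mpr hx1), if_pos (h2.mpr hx2)]
        ring
      · rw [if_neg (fun h => hx2 (h3.mp h).2), if_neg (fun h => hx2 (h2.mp h))]
        ring
    · rw [if_neg (fun h => hx1 (h3.mp h).1), if_neg (fun h => hx1 (h1.mp h))]
      ring
  have e2 : BAv Q (fun a => BAv (p ^ e) (fun b => G a * H b)) = BAv Q G * BAv (p ^ e) H := by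
    unfold BAv
    have e3 : ∀ a, (∑ x ∈ BU (p ^ e), G a * H x) / ((p ^ e).totient : ℝ)
        = G a * ((∑ x ∈ BU (p ^ e), H x) / ((p ^ e).totient : ℝ)) := by
      intro a
      rw [← Finset.mul_sum, mul_div_assoc]
    simp only [e3]
    rw [← Finset.sum_mul]
    ring
  have e4 := b1_av Q (p ^ e) hQ hpe hcop (fun a b => G a * H b)
  rw [e1, e4, e2]
  have hind : ∀ (B : ℕ → Prop) y, 0 ≤ Bind B y := by
    classical
    intro B y
    unfold Bind
    split_ifs <;> norm_num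
  have hG0 : 0 ≤ BAv Q G :=
    div_nonneg (Finset.sum_nonneg fun a _ => mul_nonneg (hnn a) (hind _ _)) (Nat.cast_nonneg _)
  have hH0 : 0 ≤ BAv (p ^ e) H :=
    div_nonneg (Finset.sum_nonneg fun a _ => hind _ _) (Nat.cast_nonneg _)
  have h1 : BAv Q G ≤ BG D m1 := hcls m1 c hm1
  have h2 : BAv (p ^ e) H ≤ 1 / ((p ^ k).totient : ℝ) := b4_pow p e k c hp hk
  have hprod : (m1 * p ^ k).primeFactors.erase p = m1.primeFactors := by
    have hpn : p ∉ m1.primeFactors := fun h => hm1p (Nat.dvd_of_mem_primeFactors h)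
    rcases Nat.eq_zero_or_pos k with rfl | hk0
    · rw [pow_zero, mul_one, Finset.erase_eq_of_notMem hpn]
    · rw [Nat.primeFactors_mul hm10 (pow_pos hp.pos k).ne', Nat.primeFactors_prime_pow hk0.ne' hp]
      ext q
      simp only [Finset.mem_erase, Finset.mem_union, Finset.mem_singleton]
      constructor
      · rintro ⟨hq1, hq2 | hq2⟩
        · exact hq2
        · exact absurd hq2 hq1
      · intro hq
        exact ⟨fun h => hpn (h ▸ hq), Or.inl hq⟩
  rw [hprod, Nat.totient_mul hcop1, Nat.cast_mul]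
  calc BAv Q G * BAv (p ^ e) H ≤ BG D m1 * (1 / ((p ^ k).totient : ℝ)) :=
        mul_le_mul h1 h2 hH0 (hG0.trans h1)
    _ = (∏ p' ∈ m1.primeFactors, D p') / ((m1.totient : ℝ) * ((p ^ k).totient : ℝ)) := by
        unfold BG
        rw [div_mul_div_comm, mul_one]

end Pool.Agent.H20G
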