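import Mathlib
import Pool.Agent.Lib.H20G.B0
import Pool.Agent.Lib.H20G.B3
import Pool.Agent.Lib.H20G.B4

set_option autoImplicit false

/-!
# H20G chunk B5: the undistorted and the distorted step preserve `BDens`
-/

namespace Pool.Agent.H20G

open Finset

theorem b5_prod (D : ℕ → ℝ) (hD : ∀ p, 1 ≤ D p) (s t : Finset ℕ) (h : s ⊆ t) :
    ∏ p ∈ s, D p ≤ ∏ p ∈ t, D p := by
  classical
  rw [← Finset.prod_sdiff h]
  have h1 : 1 ≤ ∏ p ∈ t \ s, D p := by
    generalize t \ s = u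
    induction u using Finset.induction_on with
    | empty => simp
    | insert a u ha ih =>
      rw [Finset.prod_insert ha]
      nlinarith [hD a]
  have h2 : 0 ≤ ∏ p ∈ s, D p := Finset.prod_nonneg fun p _ => zero_le_one.trans (hD p)
  nlinarith

theorem b5_mono (T : ℕ) (u v : ℕ → ℝ) (h : ∀ x, u x ≤ v x) : BAv T u ≤ BAv T v := by
  unfold BAv
  exact div_le_div_of_nonneg_right (Finset.sum_le_sum fun x _ => h x) (Nat.cast_nonneg _)

theorem b5_const (T : ℕ) (c : ℝ) (u : ℕ → ℝ) : BAv T (fun x => c * u x) = c * BAv T u := by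
  unfold BAv
  rw [← Finset.mul_sum, mul_div_assoc]

theorem b5_one1 (Q : ℕ) (hQ : 0 < Q) : BAv Q (fun _ => 1) = 1 := by
  unfold BAv
  have hφ : (0 : ℝ) < (Q.totient : ℝ) := by exact_mod_cast Nat.totient_pos.mpr hQ
  rw [Finset.sum_const, b1_card, nsmul_eq_mul, mul_one, div_self hφ.ne']

theorem b5_cls1 (D : ℕ → ℝ) (hD : ∀ p, 1 ≤ D p) (Q : ℕ) : 0 < Q → ∀ m c : ℕ, m ∣ Q →
    BAv Q (fun x => (fun _ => (1 : ℝ)) x * Bind (fun y => y ≡ c [MOD m]) x) ≤ BG D m := by
  classical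
  induction Q using Nat.strong_induction_on with
  | _ Q ih =>
    intro hQ m c hm
    by_cases h1 : Q = 1
    · subst h1
      have hm1 : m = 1 := Nat.dvd_one.mp hm
      subst hm1
      have h2 : BAv 1 (fun x => (fun _ => (1 : ℝ)) x * Bind (fun y => y ≡ c [MOD 1]) x) ≤ BAv 1 (fun _ => 1) := by
        refine b5_mono _ _ _ fun x => ?_
        have h3 := (b3_ind (fun y => y ≡ c [MOD 1]) x).2.1
        simpa using h3
      rw [b5_one1 1 one_pos] at h2
      refine h2.trans ?_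
      simp [BG]
    · obtain ⟨p, hp, hpQ⟩ := Nat.exists_prime_and_dvd h1
      obtain ⟨e, Q', hpQ', hQe⟩ := Nat.exists_eq_pow_mul_and_not_dvd hQ.ne' p hp.ne_one
      have he : e ≠ 0 := by
        rintro rfl
        rw [pow_zero, one_mul] at hQe
        exact hpQ' (hQe ▸ hpQ)
      have hQ' : 0 < Q' := by
        rcases Nat.eq_zero_or_pos Q' with h | h
        · exact absurd (h ▸ dvd_zero p) hpQ'
        · exact h
      have hlt : Q' < Q := by
        rw [hQe]
        have h2 : 1 < p ^ e := Nat.one_lt_pow he hp.one_lt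
        nlinarith
      have hQe' : Q = Q' * p ^ e := by rw [hQe, mul_comm]
      have hm' : m ∣ Q' * p ^ e := by rw [← hQe']; exact hm
      have h3 := b4_cls D Q' p e m c hp hQ' hpQ' (fun _ => 1) (fun _ => rfl) (fun _ => zero_le_one)
        (fun m' c' hm' => ih Q' hlt hQ' m' c' hm') hm'
      rw [hQe']
      refine h3.trans ?_
      unfold BG
      exact div_le_div_of_nonneg_right (b5_prod D hD _ _ (Finset.erase_subset _ _)) (Nat.cast_nonneg _)

/-- The constant density `1` is a `BDens D Q` for all `D ≥ 1`.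
PROOF. Strong induction on `Q`. `Q = 1`: `BU 1 = {0}`, `φ(1) = 1`, `BG D 1 = 1`, everything is `1`. `Q > 1`: take a prime `p ∣ Q`
(`Nat.exists_prime_and_dvd`), `Q = p^e Q'`, `p ∤ Q'` (`Nat.exists_eq_pow_mul_and_not_dvd`), `Q' < Q`, and the class bound for `Q'`.
Class bound for `Q = Q' p^e`: `b4_cls` with `f = 1`, and
`∏_{p' ∈ m.primeFactors.erase p} D p' ≤ ∏_{p' ∈ m.primeFactors} D p'` (`D ≥ 1`, `Finset.prod_le_prod_of_subset_of_one_le'`-like
for reals, `Finset.erase_subset`). The other fields are immediate (`mean`: `b1_card`, `φ(Q) > 0`; `le`: the product is `≥ 1`). -/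
theorem b5_one (D : ℕ → ℝ) (hD : ∀ p, 1 ≤ D p) (Q : ℕ) (hQ : 0 < Q) : BDens D Q (fun _ => 1) := by
  refine ⟨fun _ => rfl, fun _ => zero_le_one, fun _ => ?_, b5_one1 Q hQ, b5_cls1 D hD Q hQ⟩
  have h1 := b5_prod D hD ∅ Q.primeFactors (Finset.empty_subset _)
  rwa [Finset.prod_empty] at h1

/-- The distorted density with `d = D p - 1 > 0` is a `BDens D (Q p^e)`.
PROOF. Write `R = p^e`, `f' = Bf Q R (BNew cl (Q R) p) d f`.
`per`: `f` and `Bal Q R B` have period `Q` (`b2_mod`), hence period `Q R`, and `B = BNew cl (Q R) p` has period `Q R`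
(`y ≡ c [MOD m]` with `m ∣ Q R` depends only on `y % (Q R)`: `Nat.mod_mod_of_dvd`, `Nat.ModEq`).
`nn`: `b3_nn`. `le`: `b3_le`, `f' ≤ D p f ≤ D p ∏_{p' ∣ Q} D p'`, `(Q p^e).primeFactors = insert p Q.primeFactors` (`e ≥ 1`).
`mean`: `b3_ev` with `g = 1`.
`cls`: `m ∣ Q p^e`. If `p ∤ m` then `m ∣ Q` (`Nat.Coprime.dvd_of_dvd_mul_right`), the event `y ≡ c [MOD m]` has period `Q`, and `b3_ev`
with `g = Bind (..)` gives `BAv Q (f g) ≤ BG D m`. If `p ∣ m`: `f' ≤ D p f` (`b3_le`), so the average is at most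
`D p · BAv (Q R) (f 1_{c mod m}) ≤ D p (∏_{p' ∈ m.primeFactors.erase p} D p')/φ(m) = BG D m` (`b4_cls`, `Finset.mul_prod_erase`). -/
theorem b5_step (D : ℕ → ℝ) (cl : ℕ → Finset ℕ) (Q p e : ℕ) (hp : p.Prime) (he : 1 ≤ e) (hQ : 0 < Q) (hpQ : ¬ p ∣ Q)
    (hD0 : ∀ p', 1 ≤ D p') (hD : 1 < D p) (f : ℕ → ℝ) (hf : BDens D Q f) :
    BDens D (Q * p ^ e) (Bf Q (p ^ e) (BNew cl (Q * p ^ e) p) (D p - 1) f) := by
  classical
  set R := p ^ e with hR
  have hR0 : 0 < R := pow_pos hp.pos e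
  have hcop : Nat.Coprime Q R := Nat.Coprime.pow_right e (((Nat.Prime.coprime_iff_not_dvd hp).mpr hpQ).symm)
  set B := BNew cl (Q * R) p with hB
  have hd : 0 < D p - 1 := by linarith
  have hperR : ∀ x, f (x % (Q * R)) = f x := by
    intro x
    rw [← hf.per (x % (Q * R)), Nat.mod_mod_of_dvd _ (dvd_mul_right Q R), hf.per]
  have hBalR : ∀ x, Bal Q R B (x % (Q * R)) = Bal Q R B x := by
    intro x
    rw [← b2_mod Q R B (x % (Q * R)), Nat.mod_mod_of_dvd _ (dvd_mul_right Q R), b2_mod]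
  have hBR : ∀ x, B (x % (Q * R)) ↔ B x := by
    intro x
    have h1 : ∀ m c : ℕ, m ∣ Q * R → (x % (Q * R) ≡ c [MOD m] ↔ x ≡ c [MOD m]) := by
      intro m c hm
      show x % (Q * R) % m = c % m ↔ x % m = c % m
      rw [Nat.mod_mod_of_dvd _ hm]
    constructor
    · rintro ⟨m, hm, hpm, c, hc, hx⟩
      exact ⟨m, hm, hpm, c, hc, (h1 m c hm).mp hx⟩
    · rintro ⟨m, hm, hpm, c, hc, hx⟩
      exact ⟨m, hm, hpm, c, hc, (h1 m c hm).mpr hx⟩
  have hBindR : ∀ x, Bind B (x % (Q * R)) = Bind B x := by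
    intro x
    unfold Bind
    by_cases h : B x
    · rw [if_pos h, if_pos ((hBR x).mpr h)]
    · rw [if_neg h, if_neg (fun h' => h ((hBR x).mp h'))]
  have hpf : (Q * R).primeFactors = insert p Q.primeFactors := by
    rw [Nat.primeFactors_mul hQ.ne' hR0.ne', hR, Nat.primeFactors_prime_pow (by omega) hp, Finset.union_comm,
      Finset.insert_eq]
  have hpn : p ∉ Q.primeFactors := fun h => hpQ (Nat.dvd_of_mem_primeFactors h)
  have hDp0 : 0 ≤ D p := by linarith
  have hle : ∀ y, Bf Q R B (D p - 1) f y ≤ D p * f y := by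
    intro y
    have h1 := b3_le Q R B (D p - 1) hd f hf.nn y
    have h2 : 1 + (D p - 1) = D p := by ring
    rwa [h2] at h1
  refine ⟨?_, ?_, ?_, ?_, ?_⟩
  · intro x
    simp only [Bf, hperR, hBalR, hBindR]
  · intro x
    exact b3_nn Q R hQ hR0 hcop B (D p - 1) hd f hf.nn x
  · intro x
    rw [hpf, Finset.prod_insert hpn]
    exact (hle x).trans (mul_le_mul_of_nonneg_left (hf.le x) hDp0)
  · have h1 := b3_ev Q R hQ hR0 hcop B (D p - 1) hd f (fun _ => 1) hf.per (fun _ => rfl)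
    simp only [mul_one] at h1
    rw [show (fun y => Bf Q R B (D p - 1) f y) = Bf Q R B (D p - 1) f from rfl] at h1
    rw [h1]
    exact hf.mean
  · intro m c hm
    by_cases hpm : p ∣ m
    · have h1 := b4_cls D Q p e m c hp hQ hpQ f hf.per hf.nn hf.cls hm
      have h2 : BAv (Q * R) (fun x => Bf Q R B (D p - 1) f x * Bind (fun y => y ≡ c [MOD m]) x)
          ≤ BAv (Q * R) (fun x => D p * (f x * Bind (fun y => y ≡ c [MOD m]) x)) := by
        refine b5_mono _ _ _ fun x => ?_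
        rw [← mul_assoc]
        exact mul_le_mul_of_nonneg_right (hle x) (b3_ind _ x).1
      rw [b5_const] at h2
      refine h2.trans ((mul_le_mul_of_nonneg_left h1 hDp0).trans (le_of_eq ?_))
      have hm0 : m ≠ 0 := by
        rintro rfl
        have := Nat.eq_zero_of_zero_dvd hm
        exact (Nat.mul_pos hQ hR0).ne' this
      have hpmem : p ∈ m.primeFactors := Nat.mem_primeFactors.mpr ⟨hp, hpm, hm0⟩
      unfold BG
      rw [← mul_div_assoc, Finset.mul_prod_erase _ _ hpmem]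
    · have hmQ : m ∣ Q := by
        have hcm : Nat.Coprime m R := Nat.Coprime.pow_right e (((Nat.Prime.coprime_iff_not_dvd hp).mpr hpm).symm)
        exact hcm.dvd_of_dvd_mul_right hm
      have h1 := b3_ev Q R hQ hR0 hcop B (D p - 1) hd f (Bind (fun y => y ≡ c [MOD m])) hf.per (fun x => by
        have h2 : x % Q ≡ c [MOD m] ↔ x ≡ c [MOD m] := by
          show x % Q % m = c % m ↔ x % m = c % m
          rw [Nat.mod_mod_of_dvd _ hmQ]
        unfold Bind
        by_cases h : x ≡ c [MOD m]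
        · rw [if_pos h, if_pos (h2.mpr h)]
        · rw [if_neg h, if_neg (fun h' => h (h2.mp h'))])
      rw [h1]
      exact hf.cls m c hmQ

end Pool.Agent.H20G
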