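import Mathlib
import Pool.Agent.Lib.H20G.B0
import Pool.Agent.Lib.H20G.B1
import Pool.Agent.Lib.H20G.B4

set_option autoImplicit false

/-!
# H20G chunk B6: bound for the proportion `α`, mass of the intersection of two classes
-/

namespace Pool.Agent.H20G

open Finset

theorem b6_bav (Q : ℕ) (A : ℕ → Prop) [DecidablePred A] :
    BAv Q (Bind A) = (((BU Q).filter A).card : ℝ) / (Q.totient : ℝ) := by
  unfold BAv
  rw [Finset.card_filter, Nat.cast_sum]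
  congr 1
  apply Finset.sum_congr rfl
  intro x _
  unfold Bind
  by_cases h : A x
  · rw [if_pos h, if_pos h, Nat.cast_one]
  · rw [if_neg h, if_neg h, Nat.cast_zero]

theorem b6_bind_one {A : ℕ → Prop} {x : ℕ} (h : A x) : Bind A x = 1 := if_pos h

theorem b6_bind_zero {A : ℕ → Prop} {x : ℕ} (h : ¬ A x) : Bind A x = 0 := if_neg h

theorem b6_c1 {m c x : ℕ} (h : x ≡ c [MOD m]) : Bind (fun y => y ≡ c [MOD m]) x = 1 := if_pos h

theorem b6_c0 {m c x : ℕ} (h : ¬ x ≡ c [MOD m]) : Bind (fun y => y ≡ c [MOD m]) x = 0 := if_neg h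

theorem b6_bind_nn (A : ℕ → Prop) (x : ℕ) : 0 ≤ Bind A x := by
  unfold Bind
  split_ifs <;> norm_num

theorem b6_mem {Q x : ℕ} : x ∈ BU Q ↔ x < Q ∧ Nat.Coprime x Q := by
  unfold BU
  rw [mem_filter, mem_range]

open Classical in
/-- the residues in the class `c mod m p^k` over `x mod Q` -/
theorem b6_one (Q p e m k c : ℕ) (hp : p.Prime) (hQ : 0 < Q) (hpQ : ¬ p ∣ Q) (x : ℕ)
    (hm : m ∣ Q) (hk : k ≤ e) :
    (((BU (Q * p ^ e)).filter (fun y => y % Q = x % Q ∧ y ≡ c [MOD m * p ^ k])).card : ℝ) /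
      ((p ^ e).totient : ℝ) ≤ Bind (fun y => y ≡ c [MOD m]) x / ((p ^ k).totient : ℝ) := by
  have hpe : 0 < p ^ e := pow_pos hp.pos e
  have hpk : p ^ k ∣ p ^ e := pow_dvd_pow p hk
  have hcop : Nat.Coprime Q (p ^ e) := ((hp.coprime_iff_not_dvd.mpr hpQ).symm).pow_right e
  have hφ : (0 : ℝ) < ((p ^ e).totient : ℝ) := by
    exact_mod_cast Nat.totient_pos.mpr hpe
  by_cases hx : x ≡ c [MOD m]
  · have h1 : ((BU (Q * p ^ e)).filter
        (fun y => y % Q = x % Q ∧ y ≡ c [MOD m * p ^ k])).card ≤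
        ((BU (p ^ e)).filter (fun y => y ≡ c [MOD p ^ k])).card := by
      apply Finset.card_le_card_of_injOn (fun y => y % p ^ e)
      · intro y hy
        obtain ⟨hy1, _, hy3⟩ := Finset.mem_filter.mp hy
        obtain ⟨_, hy5⟩ := b6_mem.mp hy1
        refine Finset.mem_coe.mpr (Finset.mem_filter.mpr ⟨b6_mem.mpr ⟨Nat.mod_lt _ hpe, ?_⟩, ?_⟩)
        · have h2 : Nat.Coprime y (p ^ e) := hy5.coprime_mul_left_right
          unfold Nat.Coprime at h2 ⊢
          rw [← h2, Nat.gcd_comm y, Nat.gcd_rec (p ^ e) y]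
        · have h3 : y % p ^ e ≡ y [MOD p ^ k] := (Nat.mod_modEq y (p ^ e)).of_dvd hpk
          exact h3.trans (hy3.of_dvd (Dvd.intro_left m rfl))
      · intro y1 hy1 y2 hy2 h12
        obtain ⟨ha1, ha2, _⟩ := Finset.mem_filter.mp (Finset.mem_coe.mp hy1)
        obtain ⟨hb1, hb2, _⟩ := Finset.mem_filter.mp (Finset.mem_coe.mp hy2)
        have h4 : y1 ≡ y2 [MOD Q] := by
          unfold Nat.ModEq
          rw [ha2, hb2]
        have h5 : y1 ≡ y2 [MOD p ^ e] := h12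
        have h6 : y1 ≡ y2 [MOD Q * p ^ e] := (Nat.modEq_and_modEq_iff_modEq_mul hcop).mp ⟨h4, h5⟩
        exact Nat.ModEq.eq_of_lt_of_lt h6 (b6_mem.mp ha1).1 (b6_mem.mp hb1).1
    rw [b6_c1 hx]
    have h2 := b4_pow p e k c hp hk
    rw [b6_bav] at h2
    refine le_trans ?_ h2
    apply div_le_div_of_nonneg_right _ hφ.le
    exact_mod_cast h1
  · have h1 : (BU (Q * p ^ e)).filter
        (fun y => y % Q = x % Q ∧ y ≡ c [MOD m * p ^ k]) = ∅ := by
      apply Finset.filter_eq_empty_iff.mpr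
      rintro y _ ⟨h2, h3⟩
      apply hx
      have h4 : y ≡ x [MOD m] := (show y ≡ x [MOD Q] from h2).of_dvd hm
      exact h4.symm.trans (h3.of_dvd (Dvd.intro _ rfl))
    rw [h1, b6_c0 hx]
    simp

/-- For `B` = the union of the classes with modulus `m' ∣ Q p^e`, `p ∣ m'`:
`α(x) ≤ ∑_{m ∣ Q} ∑_{k=1}^{e} ∑_{c ∈ cl (m p^k)} 1_{x ≡ c mod m} / φ(p^k)`.
PROOF. Let `y ∈ BU (Q p^e)`, `y % Q = x % Q`, `BNew cl (Q p^e) p y`: there are `m' ∣ Q p^e`, `p ∣ m'`, `c ∈ cl m'`, `y ≡ c [MOD m']`.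
`m' = m p^k`, `m ∣ Q`, `1 ≤ k ≤ e`. Then `y ≡ c [MOD m]`, so `x ≡ c [MOD m]` (`m ∣ Q`, `y % Q = x % Q`), and `y ≡ c [MOD p^k]`.
So the set is contained in the union over `m, k, c` of the sets `{y ∈ BU (Q p^e) : y % Q = x % Q, y ≡ c [MOD p^k]}`, only those with
`x ≡ c [MOD m]` (`Finset.card_biUnion_le`). `y ↦ y % p^e` is injective on such a set and maps it to
`{b ∈ BU (p^e) : b ≡ c [MOD p^k]}`, whose cardinality is at most `φ(p^e)/φ(p^k)` (`b4_pow`: the average of the indicator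
is the cardinality divided by `φ(p^e)`). Divide by `φ(p^e)`. -/
theorem b6_al (cl : ℕ → Finset ℕ) (Q p e : ℕ) (hp : p.Prime) (hQ : 0 < Q) (hpQ : ¬ p ∣ Q) (x : ℕ) :
    Bal Q (p ^ e) (BNew cl (Q * p ^ e) p) x ≤
      ∑ m ∈ Q.divisors, ∑ k ∈ Icc 1 e, ∑ c ∈ cl (m * p ^ k),
        Bind (fun y => y ≡ c [MOD m]) x / ((p ^ k).totient : ℝ) := by
  classical
  have hpe : 0 < p ^ e := pow_pos hp.pos e
  have hφ : (0 : ℝ) < ((p ^ e).totient : ℝ) := by
    exact_mod_cast Nat.totient_pos.mpr hpe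
  obtain ⟨T, hT⟩ : ∃ T : ℕ → ℕ → ℕ → Finset ℕ, ∀ m k c, T m k c =
      (BU (Q * p ^ e)).filter (fun y => y % Q = x % Q ∧ y ≡ c [MOD m * p ^ k]) :=
    ⟨fun m k c => _, fun m k c => rfl⟩
  have hsub : (BU (Q * p ^ e)).filter (fun y => y % Q = x % Q ∧ BNew cl (Q * p ^ e) p y) ⊆
      Q.divisors.biUnion fun m => (Icc 1 e).biUnion fun k => (cl (m * p ^ k)).biUnion
        fun c => T m k c := by
    intro y hy
    obtain ⟨hy1, hy2, m', hm', hpm', c, hc, hyc⟩ := Finset.mem_filter.mp hy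
    obtain ⟨m, z, hm, hz, hmz⟩ := Nat.dvd_mul.mp hm'
    obtain ⟨k, hk, rfl⟩ := (Nat.dvd_prime_pow hp).mp hz
    have hk1 : 1 ≤ k := by
      rcases Nat.eq_zero_or_pos k with h0 | h0
      · exfalso
        rw [h0, pow_zero, mul_one] at hmz
        rw [← hmz] at hpm'
        exact hpQ (hpm'.trans hm)
      · exact h0
    rw [mem_biUnion]
    refine ⟨m, Nat.mem_divisors.mpr ⟨hm, hQ.ne'⟩, ?_⟩
    rw [mem_biUnion]
    refine ⟨k, Finset.mem_Icc.mpr ⟨hk1, hk⟩, ?_⟩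
    rw [mem_biUnion]
    refine ⟨c, by rw [hmz]; exact hc, ?_⟩
    rw [hT, mem_filter]
    exact ⟨hy1, hy2, by rw [hmz]; exact hyc⟩
  have hcard : ((BU (Q * p ^ e)).filter
      (fun y => y % Q = x % Q ∧ BNew cl (Q * p ^ e) p y)).card ≤
      ∑ m ∈ Q.divisors, ∑ k ∈ Icc 1 e, ∑ c ∈ cl (m * p ^ k), (T m k c).card := by
    refine (card_le_card hsub).trans (card_biUnion_le.trans ?_)
    apply sum_le_sum
    intro m _
    refine card_biUnion_le.trans ?_
    apply sum_le_sum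
    intro k _
    exact card_biUnion_le
  unfold Bal
  calc _ ≤ (∑ m ∈ Q.divisors, ∑ k ∈ Icc 1 e, ∑ c ∈ cl (m * p ^ k), ((T m k c).card : ℝ)) /
        ((p ^ e).totient : ℝ) := by
        apply div_le_div_of_nonneg_right _ hφ.le
        have h1 : ((((BU (Q * p ^ e)).filter
          (fun y => y % Q = x % Q ∧ BNew cl (Q * p ^ e) p y)).card : ℕ) : ℝ) ≤
          ((∑ m ∈ Q.divisors, ∑ k ∈ Icc 1 e, ∑ c ∈ cl (m * p ^ k), (T m k c).card : ℕ) : ℝ) := by
          exact_mod_cast hcard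
        push_cast at h1
        convert h1 using 3
    _ = ∑ m ∈ Q.divisors, ∑ k ∈ Icc 1 e, ∑ c ∈ cl (m * p ^ k),
        ((T m k c).card : ℝ) / ((p ^ e).totient : ℝ) := by
        rw [sum_div]
        apply sum_congr rfl
        intro m _
        rw [sum_div]
        apply sum_congr rfl
        intro k _
        rw [sum_div]
    _ ≤ _ := by
        apply sum_le_sum
        intro m hm
        apply sum_le_sum
        intro k hk
        apply sum_le_sum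
        intro c _
        rw [hT]
        exact b6_one Q p e m k c hp hQ hpQ x (Nat.dvd_of_mem_divisors hm) (Finset.mem_Icc.mp hk).2

theorem b6_lcm {x x0 m1 m2 : ℕ} : (x ≡ x0 [MOD m1] ∧ x ≡ x0 [MOD m2]) ↔
    x ≡ x0 [MOD Nat.lcm m1 m2] := by
  constructor
  · rintro ⟨h1, h2⟩
    rw [Nat.modEq_iff_dvd] at h1 h2 ⊢
    have h3 : ((Nat.lcm m1 m2 : ℕ) : ℤ) = lcm (m1 : ℤ) (m2 : ℤ) := by
      rw [← Int.coe_lcm]
      rfl
    rw [h3]
    exact lcm_dvd h1 h2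
  · intro h
    exact ⟨h.of_dvd (Nat.dvd_lcm_left _ _), h.of_dvd (Nat.dvd_lcm_right _ _)⟩

/-- PROOF. If no `x` satisfies both congruences, the left side is `0`, and `BG D _ ≥ 0`. Otherwise take such an `x0`: `x` satisfies both
congruences iff `x ≡ x0 [MOD m1]` and `x ≡ x0 [MOD m2]` iff `x ≡ x0 [MOD lcm m1 m2]` (`Nat.modEq_and_modEq_iff_modEq_lcm` or via
`Nat.lcm_dvd_iff` on the difference), so the function is `f x · Bind (· ≡ x0 [MOD lcm m1 m2]) x`: `hf.cls` (`lcm m1 m2 ∣ Q`). -/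
theorem b6_two (D : ℕ → ℝ) (hD : ∀ p, 1 ≤ D p) (Q m1 m2 c1 c2 : ℕ) (f : ℕ → ℝ) (hf : BDens D Q f)
    (h1 : m1 ∣ Q) (h2 : m2 ∣ Q) :
    BAv Q (fun x => f x * (Bind (fun y => y ≡ c1 [MOD m1]) x * Bind (fun y => y ≡ c2 [MOD m2]) x)) ≤
      BG D (Nat.lcm m1 m2) := by
  by_cases hex : ∃ x0, x0 ≡ c1 [MOD m1] ∧ x0 ≡ c2 [MOD m2]
  · obtain ⟨x0, hx1, hx2⟩ := hex
    have hfun : (fun x => f x * (Bind (fun y => y ≡ c1 [MOD m1]) x *
        Bind (fun y => y ≡ c2 [MOD m2]) x)) =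
        fun x => f x * Bind (fun y => y ≡ x0 [MOD Nat.lcm m1 m2]) x := by
      funext x
      congr 1
      by_cases h : x ≡ x0 [MOD Nat.lcm m1 m2]
      · obtain ⟨ha, hb⟩ := b6_lcm.mpr h
        rw [b6_c1 h, b6_c1 (ha.trans hx1), b6_c1 (hb.trans hx2), one_mul]
      · rw [b6_c0 h]
        by_cases ha : x ≡ c1 [MOD m1]
        · have hb : ¬ x ≡ c2 [MOD m2] := fun hb =>
            h (b6_lcm.mp ⟨ha.trans hx1.symm, hb.trans hx2.symm⟩)
          rw [b6_c0 hb, mul_zero]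
        · rw [b6_c0 ha, zero_mul]
    rw [hfun]
    exact hf.cls _ _ (Nat.lcm_dvd h1 h2)
  · have h0 : BAv Q (fun x => f x * (Bind (fun y => y ≡ c1 [MOD m1]) x *
        Bind (fun y => y ≡ c2 [MOD m2]) x)) = 0 := by
      unfold BAv
      rw [Finset.sum_eq_zero, zero_div]
      intro x _
      by_cases ha : x ≡ c1 [MOD m1]
      · have hb : ¬ x ≡ c2 [MOD m2] := fun hb => hex ⟨x, ha, hb⟩
        rw [b6_c0 hb, mul_zero, mul_zero]
      · rw [b6_c0 ha, zero_mul, mul_zero]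
    rw [h0]
    unfold BG
    apply div_nonneg _ (Nat.cast_nonneg _)
    apply Finset.prod_nonneg
    intro p _
    linarith [hD p]

end Pool.Agent.H20G
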