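import Mathlib
import Pool.Agent.Lib.H20G.B0
import Pool.Agent.Lib.H20G.B2
import Pool.Agent.Lib.H20G.B6

set_option autoImplicit false

/-!
# H20G chunk B7: second moment of `α`
-/

namespace Pool.Agent.H20G

open Finset

theorem b7_nn (D : ℕ → ℝ) (hD : ∀ p, 1 ≤ D p) (m : ℕ) : 0 ≤ BG D m := by
  unfold BG
  exact div_nonneg (Finset.prod_nonneg fun p _ => by linarith [hD p]) (Nat.cast_nonneg _)

theorem b7_mono (Q : ℕ) {g h : ℕ → ℝ} (hgh : ∀ x, g x ≤ h x) : BAv Q g ≤ BAv Q h := by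
  unfold BAv
  exact div_le_div_of_nonneg_right (Finset.sum_le_sum fun x _ => hgh x) (Nat.cast_nonneg _)

theorem b7_sum (Q : ℕ) {ι : Type} (I : Finset ι) (g : ι → ℕ → ℝ) :
    BAv Q (fun x => ∑ t ∈ I, g t x) = ∑ t ∈ I, BAv Q (g t) := by
  unfold BAv
  rw [Finset.sum_comm, Finset.sum_div]

theorem b7_smul (Q : ℕ) (c : ℝ) (g : ℕ → ℝ) : BAv Q (fun x => c * g x) = c * BAv Q g := by
  unfold BAv
  rw [← Finset.mul_sum, mul_div_assoc]

theorem b7_card (cl : ℕ → Finset ℕ) (Q p e : ℕ) (hp : p.Prime) (hpQ : ¬ p ∣ Q)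
    (hcl : ∀ m, m ∣ Q * p ^ e → (cl m).card ≤ 17 * m.divisors.card) (m k : ℕ) (hm : m ∣ Q) (hk : k ≤ e) :
    ((cl (m * p ^ k)).card : ℝ) ≤ 17 * ((m.divisors.card : ℝ) * ((k : ℝ) + 1)) := by
  have h1 := hcl (m * p ^ k) (mul_dvd_mul hm (pow_dvd_pow p hk))
  have h2 : Nat.Coprime m (p ^ k) := by
    refine Nat.Coprime.pow_right k ?_
    rw [Nat.coprime_comm]
    exact (Nat.Prime.coprime_iff_not_dvd hp).2 fun h => hpQ (h.trans hm)
  rw [Nat.Coprime.card_divisors_mul h2, Nat.divisors_prime_pow hp, Finset.card_map, Finset.card_range] at h1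
  exact_mod_cast h1

/-- `E[f α²] ≤ 17² (∑_{k=1}^e (k+1)/φ(p^k))² ∑_{m1, m2 ∣ Q} τ(m1) τ(m2) BG(lcm(m1, m2))`.
PROOF. Let `s(x)` be the right side of `b6_al`; `0 ≤ α ≤ s` (`b2_nn`), so `E[f α²] ≤ E[f s²]`. Expand the square
(`Finset.sum_mul_sum`; it is convenient to write `s` as one sum over the sigma-type of `(m, k, c)` or to expand step by step), exchange
the sums with the average (`Finset.sum_comm`), and use `b6_two`: the term of `(m1, k1, c1), (m2, k2, c2)` is at most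
`BG D (lcm m1 m2) / (φ(p^k1) φ(p^k2))`, which does not depend on `c1, c2`; the number of `c_i` is `(cl (m_i p^k_i)).card ≤ 17 τ(m_i p^k_i)
= 17 τ(m_i) (k_i + 1)` (`m_i p^k_i ∣ Q p^e`, `Nat.Coprime.card_divisors_mul`, `p ∤ m_i`, `Nat.divisors_prime_pow`). `BG D _ ≥ 0`. Factor. -/
theorem b7_sq (D : ℕ → ℝ) (hD : ∀ p, 1 ≤ D p) (cl : ℕ → Finset ℕ) (Q p e : ℕ) (hp : p.Prime) (hQ : 0 < Q)
    (hpQ : ¬ p ∣ Q) (hcl : ∀ m, m ∣ Q * p ^ e → (cl m).card ≤ 17 * m.divisors.card) (f : ℕ → ℝ) (hf : BDens D Q f) :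
    BAv Q (fun x => f x * (Bal Q (p ^ e) (BNew cl (Q * p ^ e) p) x) ^ 2) ≤
      17 ^ 2 * (∑ k ∈ Icc 1 e, ((k : ℝ) + 1) / ((p ^ k).totient : ℝ)) ^ 2 *
        ∑ m1 ∈ Q.divisors, ∑ m2 ∈ Q.divisors,
          (m1.divisors.card : ℝ) * (m2.divisors.card : ℝ) * BG D (Nat.lcm m1 m2) := by
  set al : ℕ → ℝ := Bal Q (p ^ e) (BNew cl (Q * p ^ e) p) with hal
  set I : Finset (Σ _ : ℕ × ℕ, ℕ) := (Q.divisors ×ˢ Icc 1 e).sigma (fun mk => cl (mk.1 * p ^ mk.2)) with hI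
  have hBG : ∀ m, 0 ≤ BG D m := b7_nn D hD
  have hS : ∀ x, al x ≤ ∑ t ∈ I, Bind (fun y => y ≡ t.2 [MOD t.1.1]) x / ((p ^ t.1.2).totient : ℝ) := by
    intro x
    refine (b6_al cl Q p e hp hQ hpQ x).trans (le_of_eq ?_)
    rw [hI, Finset.sum_sigma, Finset.sum_product]
  have h0 : ∀ x, 0 ≤ al x := fun x => b2_nn Q (p ^ e) _ x
  have h1 : ∀ x, f x * al x ^ 2 ≤ ∑ t ∈ I, ∑ u ∈ I, (1 / (((p ^ t.1.2).totient : ℝ) * ((p ^ u.1.2).totient : ℝ))) *
      (f x * (Bind (fun y => y ≡ t.2 [MOD t.1.1]) x * Bind (fun y => y ≡ u.2 [MOD u.1.1]) x)) := by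
    intro x
    calc f x * al x ^ 2 ≤ f x * (∑ t ∈ I, Bind (fun y => y ≡ t.2 [MOD t.1.1]) x / ((p ^ t.1.2).totient : ℝ)) ^ 2 :=
          mul_le_mul_of_nonneg_left (pow_le_pow_left₀ (h0 x) (hS x) 2) (hf.nn x)
      _ = _ := by
          rw [sq, Finset.sum_mul_sum, Finset.mul_sum]
          refine Finset.sum_congr rfl fun t _ => ?_
          rw [Finset.mul_sum]
          refine Finset.sum_congr rfl fun u _ => ?_
          rw [div_mul_div_comm]
          ring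
  calc BAv Q (fun x => f x * al x ^ 2)
      ≤ BAv Q (fun x => ∑ t ∈ I, ∑ u ∈ I, (1 / (((p ^ t.1.2).totient : ℝ) * ((p ^ u.1.2).totient : ℝ))) *
          (f x * (Bind (fun y => y ≡ t.2 [MOD t.1.1]) x * Bind (fun y => y ≡ u.2 [MOD u.1.1]) x))) :=
        b7_mono Q h1
    _ = ∑ t ∈ I, ∑ u ∈ I, (1 / (((p ^ t.1.2).totient : ℝ) * ((p ^ u.1.2).totient : ℝ))) *
          BAv Q (fun x => f x * (Bind (fun y => y ≡ t.2 [MOD t.1.1]) x * Bind (fun y => y ≡ u.2 [MOD u.1.1]) x)) := by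
        rw [b7_sum]
        refine Finset.sum_congr rfl fun t _ => ?_
        rw [b7_sum]
        refine Finset.sum_congr rfl fun u _ => ?_
        rw [b7_smul]
    _ ≤ ∑ t ∈ I, ∑ u ∈ I, (1 / (((p ^ t.1.2).totient : ℝ) * ((p ^ u.1.2).totient : ℝ))) *
          BG D (Nat.lcm t.1.1 u.1.1) := by
        refine Finset.sum_le_sum fun t ht => Finset.sum_le_sum fun u hu => ?_
        rw [hI, Finset.mem_sigma, Finset.mem_product, Nat.mem_divisors] at ht hu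
        exact mul_le_mul_of_nonneg_left (b6_two D hD Q _ _ _ _ f hf ht.1.1.1 hu.1.1.1) (by positivity)
    _ = ∑ a ∈ Q.divisors ×ˢ Icc 1 e, ∑ b ∈ Q.divisors ×ˢ Icc 1 e,
          (((cl (a.1 * p ^ a.2)).card : ℝ) * ((cl (b.1 * p ^ b.2)).card : ℝ)) *
          ((1 / (((p ^ a.2).totient : ℝ) * ((p ^ b.2).totient : ℝ))) * BG D (Nat.lcm a.1 b.1)) := by
        rw [hI, Finset.sum_sigma]
        refine Finset.sum_congr rfl fun a _ => ?_
        simp only [Finset.sum_sigma, Finset.sum_const, nsmul_eq_mul, Finset.mul_sum]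
        refine Finset.sum_congr rfl fun b _ => ?_
        ring
    _ ≤ ∑ a ∈ Q.divisors ×ˢ Icc 1 e, ∑ b ∈ Q.divisors ×ˢ Icc 1 e,
          ((17 * ((a.1.divisors.card : ℝ) * ((a.2 : ℝ) + 1))) * (17 * ((b.1.divisors.card : ℝ) * ((b.2 : ℝ) + 1)))) *
          ((1 / (((p ^ a.2).totient : ℝ) * ((p ^ b.2).totient : ℝ))) * BG D (Nat.lcm a.1 b.1)) := by
        refine Finset.sum_le_sum fun a ha => Finset.sum_le_sum fun b hb => ?_
        rw [Finset.mem_product, Nat.mem_divisors, Finset.mem_Icc] at ha hb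
        refine mul_le_mul_of_nonneg_right ?_ (mul_nonneg (by positivity) (hBG _))
        exact mul_le_mul (b7_card cl Q p e hp hpQ hcl a.1 a.2 ha.1.1 ha.2.2)
          (b7_card cl Q p e hp hpQ hcl b.1 b.2 hb.1.1 hb.2.2) (Nat.cast_nonneg _) (by positivity)
    _ = 17 ^ 2 * (∑ k ∈ Icc 1 e, ((k : ℝ) + 1) / ((p ^ k).totient : ℝ)) ^ 2 *
        ∑ m1 ∈ Q.divisors, ∑ m2 ∈ Q.divisors,
          (m1.divisors.card : ℝ) * (m2.divisors.card : ℝ) * BG D (Nat.lcm m1 m2) := by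
        rw [sq (∑ k ∈ Icc 1 e, ((k : ℝ) + 1) / ((p ^ k).totient : ℝ)), Finset.sum_mul_sum]
        rw [Finset.sum_product]
        simp only [Finset.sum_product]
        rw [Finset.mul_sum]
        refine Finset.sum_congr rfl fun m1 _ => ?_
        rw [Finset.mul_sum]
        rw [Finset.sum_comm]
        refine Finset.sum_congr rfl fun m2 _ => ?_
        rw [mul_assoc (17 ^ 2 : ℝ), Finset.sum_mul, Finset.mul_sum]
        refine Finset.sum_congr rfl fun k1 _ => ?_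
        rw [Finset.sum_mul, Finset.mul_sum]
        refine Finset.sum_congr rfl fun k2 _ => ?_
        rw [div_mul_div_comm, one_div, div_eq_mul_inv]
        ring

end Pool.Agent.H20G
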