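import Mathlib
import Pool.Agent.Lib.H20G.Defs

set_option autoImplicit false

/-!
# H20G chunk D1: multiplicative sums over divisors
-/

namespace Pool.Agent.H20G

open Finset

theorem d1_csum {a b : ℕ} (hab : Nat.Coprime a b) (F : ℕ → ℝ) :
    ∑ m ∈ (a * b).divisors, F m = ∑ x ∈ a.divisors, ∑ y ∈ b.divisors, F (x * y) := by
  have e : (a * b).divisors = (a.divisors ×ˢ b.divisors).image (fun p : ℕ × ℕ => p.1 * p.2) := by
    rw [Nat.divisors_mul]
    rfl
  rw [e, Finset.sum_image hab.mul_injOn_divisors, Finset.sum_product]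

theorem d1_fac_left {a b p : ℕ} (hab : Nat.Coprime a b) (hp : p ∈ a.primeFactors) :
    (a * b).factorization p = a.factorization p := by
  have hp1 := Nat.prime_of_mem_primeFactors hp
  have hpa := Nat.dvd_of_mem_primeFactors hp
  have ha : a ≠ 0 := by
    rintro rfl
    simp at hp
  have hb : b ≠ 0 := by
    rintro rfl
    rw [Nat.coprime_zero_right] at hab
    subst hab
    simp at hp
  have hpb : ¬ p ∣ b := fun h => hp1.one_lt.ne' (Nat.eq_one_of_dvd_coprimes hab hpa h)
  rw [Nat.factorization_mul ha hb, Finsupp.add_apply, Nat.factorization_eq_zero_of_not_dvd hpb, add_zero]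

/-- `∑_{m ∣ N} f(m) = ∏_{p ∣ N} ∑_{k ≤ v_p(N)} f(p^k)` for `f` multiplicative on coprime arguments.
PROOF. Induction `Nat.recOnPosPrimePosCoprime` (or `induction_on_primes`): for `N = p^e`: `Nat.divisors_prime_pow`; for coprime `M, N`:
the divisors of `M N` are the products (`Nat.Coprime.sum_divisors_mul`-style: `Nat.divisors_mul`, or the bijection
`Nat.Coprime.card_divisors_mul`, `Finset.sum_product`), and `f (m n) = f m f n` since divisors of coprime numbers are coprime. -/
theorem d1_sum (f : ℕ → ℝ) (h1 : f 1 = 1) (hm : ∀ m n : ℕ, Nat.Coprime m n → f (m * n) = f m * f n) (N : ℕ)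
    (hN : 0 < N) :
    ∑ m ∈ N.divisors, f m = ∏ p ∈ N.primeFactors, ∑ k ∈ range (N.factorization p + 1), f (p ^ k) := by
  induction N using Nat.recOnPosPrimePosCoprime with
  | prime_pow p n hp hn =>
    rw [Nat.sum_divisors_prime_pow hp, Nat.primeFactors_prime_pow hn.ne' hp, Finset.prod_singleton,
      hp.factorization_pow, Finsupp.single_eq_same]
  | zero => omega
  | one => simp [h1]
  | coprime a b ha hb hab iha ihb =>
    have iha' := iha (by omega)
    have ihb' := ihb (by omega)
    rw [d1_csum hab]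
    have h2 : ∑ x ∈ a.divisors, ∑ y ∈ b.divisors, f (x * y) = ∑ x ∈ a.divisors, ∑ y ∈ b.divisors, f x * f y := by
      refine Finset.sum_congr rfl fun x hx => Finset.sum_congr rfl fun y hy => ?_
      exact hm x y (Nat.Coprime.coprime_dvd_left (Nat.dvd_of_mem_divisors hx)
        (Nat.Coprime.coprime_dvd_right (Nat.dvd_of_mem_divisors hy) hab))
    rw [h2, ← Finset.sum_mul_sum, iha', ihb', Nat.Coprime.primeFactors_mul hab,
      Finset.prod_union hab.disjoint_primeFactors]
    congr 1
    · refine Finset.prod_congr rfl fun p hp => ?_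
      rw [d1_fac_left hab hp]
    · refine Finset.prod_congr rfl fun p hp => ?_
      rw [mul_comm, d1_fac_left hab.symm hp]

end Pool.Agent.H20G
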