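import Mathlib
import Pool.Agent.Lib.H20G.Defs
import Pool.Agent.Lib.H20G.D1

set_option autoImplicit false

/-!
# H20G chunk D2: exponential bound
-/

namespace Pool.Agent.H20G

open Finset

theorem d2_geo (x : ℝ) (h0 : 0 ≤ x) (h1 : x ≤ 1 / 2) (e : ℕ) :
    ∑ k ∈ Ico 1 (e + 1), x ^ k ≤ 2 * x * (1 - x ^ e) := by
  induction e with
  | zero => simp
  | succ e ih =>
    rw [Finset.sum_Ico_succ_top (by omega)]
    have h2 : 0 ≤ x ^ (e + 1) := by positivity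
    have h3 : x ^ (e + 1) = x * x ^ e := by ring
    have h4 : x * x ^ (e + 1) ≤ 1 / 2 * x ^ (e + 1) := mul_le_mul_of_nonneg_right h1 h2
    nlinarith

theorem d2_cub (x : ℝ) (h0 : 0 ≤ x) (h1 : x ≤ 1 / 2) (e : ℕ) :
    ∑ k ∈ Ico 1 (e + 1), ((k : ℝ) + 1) ^ 3 * x ^ k ≤
      x * (102 - (2 * (e : ℝ) ^ 3 + 18 * (e : ℝ) ^ 2 + 66 * e + 102) * (1 / 2) ^ e) := by
  induction e with
  | zero => simp
  | succ e ih =>
    rw [Finset.sum_Ico_succ_top (by omega)]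
    have h2 : x ^ e ≤ (1 / 2) ^ e := pow_le_pow_left₀ h0 h1 e
    have h3 : ((((e + 1 : ℕ) : ℝ)) + 1) ^ 3 * x ^ (e + 1) ≤ ((e : ℝ) + 2) ^ 3 * (x * (1 / 2) ^ e) := by
      have e1 : ((((e + 1 : ℕ) : ℝ)) + 1) = (e : ℝ) + 2 := by push_cast; ring
      rw [e1, pow_succ' x e]
      exact mul_le_mul_of_nonneg_left (mul_le_mul_of_nonneg_left h2 h0) (by positivity)
    have h4 : x * (102 - (2 * (((e + 1 : ℕ) : ℝ)) ^ 3 + 18 * (((e + 1 : ℕ) : ℝ)) ^ 2 + 66 * ((e + 1 : ℕ) : ℝ) + 102) * (1 / 2) ^ (e + 1)) =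
        x * (102 - (2 * (e : ℝ) ^ 3 + 18 * (e : ℝ) ^ 2 + 66 * e + 102) * (1 / 2) ^ e) + ((e : ℝ) + 2) ^ 3 * (x * (1 / 2) ^ e) := by
      rw [pow_succ (1 / 2 : ℝ) e]
      push_cast
      ring
    rw [h4]
    linarith

/-- If `f ≥ 0` is multiplicative on coprime arguments and `∑_{k=1}^e f(p^k) ≤ c / p` for all primes `p` and all `e`, then
`∑_{m ∣ N} f(m) ≤ exp(c rp(N))`.
PROOF. `d1_sum`, each factor is `f 1 + ∑_{k=1}^e f(p^k) ≤ 1 + c/p ≤ exp(c/p)`; `Real.exp_sum`. -/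
theorem d2_exp (f : ℕ → ℝ) (h1 : f 1 = 1) (hm : ∀ m n : ℕ, Nat.Coprime m n → f (m * n) = f m * f n)
    (h0 : ∀ m, 0 ≤ f m) (c : ℝ)
    (hp : ∀ p : ℕ, p.Prime → ∀ e : ℕ, ∑ k ∈ Ico 1 (e + 1), f (p ^ k) ≤ c / p) (N : ℕ) (hN : 0 < N) :
    ∑ m ∈ N.divisors, f m ≤ Real.exp (c * rp N) := by
  rw [d1_sum f h1 hm N hN]
  have h2 : ∀ p ∈ N.primeFactors, ∑ k ∈ range (N.factorization p + 1), f (p ^ k) ≤ Real.exp (c * (1 / (p : ℝ))) := by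
    intro p hpp
    have hp1 := Nat.prime_of_mem_primeFactors hpp
    have h3 := hp p hp1 (N.factorization p)
    have h4 : ∑ k ∈ range (N.factorization p + 1), f (p ^ k) = f (p ^ 0) + ∑ k ∈ Ico 1 (N.factorization p + 1), f (p ^ k) := by
      rw [Finset.range_eq_Ico, Finset.sum_eq_sum_Ico_succ_bot (by omega)]
    rw [h4, pow_zero, h1]
    have h5 := Real.add_one_le_exp (c * (1 / (p : ℝ)))
    have h6 : c * (1 / (p : ℝ)) = c / p := by ring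
    rw [h6] at h5 ⊢
    linarith
  calc ∏ p ∈ N.primeFactors, ∑ k ∈ range (N.factorization p + 1), f (p ^ k)
      ≤ ∏ p ∈ N.primeFactors, Real.exp (c * (1 / (p : ℝ))) :=
        Finset.prod_le_prod (fun p _ => Finset.sum_nonneg fun k _ => h0 _) h2
    _ = Real.exp (c * rp N) := by
        rw [← Real.exp_sum]
        unfold rp
        rw [Finset.mul_sum]

/-- `∑_{h ∣ N} 1/h ≤ exp(2 rp(N))`: `d2_exp` with `f m = 1/m`: `∑_{k ≥ 1} p^{-k} = 1/(p-1) ≤ 2/p`. -/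
theorem d2_inv (N : ℕ) (hN : 0 < N) : ∑ h ∈ N.divisors, 1 / (h : ℝ) ≤ Real.exp (2 * rp N) := by
  refine d2_exp (fun m => 1 / (m : ℝ)) (by simp) (fun m n _ => ?_) (fun m => by positivity) 2 (fun p hp e => ?_) N hN
  · push_cast
    rw [one_div_mul_one_div]
  · have hp2 : (2 : ℝ) ≤ p := by exact_mod_cast hp.two_le
    have hx : (1 / (p : ℝ)) ≤ 1 / 2 := one_div_le_one_div_of_le (by norm_num) hp2
    have hx0 : 0 ≤ 1 / (p : ℝ) := by positivity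
    have h := d2_geo (1 / (p : ℝ)) hx0 hx e
    have h2 : ∑ k ∈ Ico 1 (e + 1), 1 / (((p ^ k : ℕ)) : ℝ) = ∑ k ∈ Ico 1 (e + 1), (1 / (p : ℝ)) ^ k := by
      refine Finset.sum_congr rfl fun k _ => ?_
      push_cast
      rw [one_div_pow]
    show ∑ k ∈ Ico 1 (e + 1), 1 / (((p ^ k : ℕ)) : ℝ) ≤ 2 / p
    rw [h2]
    have h3 : 0 ≤ (1 / (p : ℝ)) ^ e := by positivity
    have h4 : (2 : ℝ) / p = 2 * (1 / p) := by ring
    rw [h4]
    nlinarith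

/-- `∑_{m ∣ N} τ(m)^3/m ≤ exp(200 rp(N))`: `d2_exp` with `f m = τ(m)^3/m`, `τ(p^k) = k+1`,
`∑_{k ≥ 1} (k+1)^3 p^{-k} ≤ (1/p) ∑_{k ≥ 1} (k+1)^3 2^{1-k} ≤ 102/p` (by induction on `e`
`∑_{k=1}^e (k+1)^3 2^{1-k} = 102 - (2 e^3 + 18 e^2 + 66 e + 102) 2^{-e}`; any larger constant up to 200 is allowed). -/
theorem d2_tau (N : ℕ) (hN : 0 < N) :
    ∑ m ∈ N.divisors, ((m.divisors.card : ℝ) ^ 3 / m) ≤ Real.exp (200 * rp N) := by
  refine d2_exp (fun m => ((m.divisors.card : ℝ) ^ 3 / m)) (by simp) (fun m n hmn => ?_) (fun m => by positivity) 200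
    (fun p hp e => ?_) N hN
  · show (((m * n).divisors.card : ℝ) ^ 3 / ((m * n : ℕ) : ℝ)) = ((m.divisors.card : ℝ) ^ 3 / m) * ((n.divisors.card : ℝ) ^ 3 / n)
    rw [hmn.card_divisors_mul]
    push_cast
    rw [div_mul_div_comm]
    ring
  · have hp2 : (2 : ℝ) ≤ p := by exact_mod_cast hp.two_le
    have hx : (1 / (p : ℝ)) ≤ 1 / 2 := one_div_le_one_div_of_le (by norm_num) hp2
    have hx0 : 0 ≤ 1 / (p : ℝ) := by positivity
    have h := d2_cub (1 / (p : ℝ)) hx0 hx e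
    have h2 : ∑ k ∈ Ico 1 (e + 1), ((((p ^ k).divisors.card : ℕ) : ℝ) ^ 3 / ((p ^ k : ℕ) : ℝ)) =
        ∑ k ∈ Ico 1 (e + 1), ((k : ℝ) + 1) ^ 3 * (1 / (p : ℝ)) ^ k := by
      refine Finset.sum_congr rfl fun k _ => ?_
      rw [Nat.divisors_prime_pow hp, Finset.card_map, Finset.card_range]
      push_cast
      rw [one_div_pow, mul_one_div]
    show ∑ k ∈ Ico 1 (e + 1), ((((p ^ k).divisors.card : ℕ) : ℝ) ^ 3 / ((p ^ k : ℕ) : ℝ)) ≤ 200 / p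
    rw [h2]
    have h3 : 0 ≤ (2 * (e : ℝ) ^ 3 + 18 * (e : ℝ) ^ 2 + 66 * e + 102) * (1 / 2) ^ e := by positivity
    have h4 : (200 : ℝ) / p = 200 * (1 / p) := by ring
    rw [h4]
    nlinarith

end Pool.Agent.H20G
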