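import Mathlib
import Pool.Agent.Lib.H20G.B0
import Pool.Agent.Lib.H20G.D2

set_option autoImplicit false

/-!
# H20G chunk B8: sums over divisors
-/

namespace Pool.Agent.H20G

open Finset

theorem b8_tot (p k : ℕ) (hp : p.Prime) (hk : 1 ≤ k) :
    1 / ((p ^ k).totient : ℝ) ≤ 4 / ((p : ℝ) * 2 ^ k) := by
  have hp2 : (2 : ℝ) ≤ p := by exact_mod_cast hp.two_le
  have hp0 : (0 : ℝ) < p := by linarith
  obtain ⟨j, rfl⟩ : ∃ j, k = j + 1 := ⟨k - 1, by omega⟩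
  have h1 : ((p ^ (j + 1)).totient : ℝ) = (p : ℝ) ^ j * ((p : ℝ) - 1) := by
    rw [Nat.totient_prime_pow_succ hp]
    push_cast [Nat.cast_sub hp.one_lt.le]
    ring
  have h2 : (2 : ℝ) ^ j ≤ (p : ℝ) ^ j := pow_le_pow_left₀ (by norm_num) hp2 j
  have h3 : (p : ℝ) * 2 ^ (j + 1) / 4 ≤ (p : ℝ) ^ j * ((p : ℝ) - 1) := by
    have h4 : (2 : ℝ) ^ j * ((p : ℝ) / 2) ≤ (p : ℝ) ^ j * ((p : ℝ) - 1) :=
      mul_le_mul h2 (by linarith) (by positivity) (by positivity)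
    calc (p : ℝ) * 2 ^ (j + 1) / 4 = (2 : ℝ) ^ j * ((p : ℝ) / 2) := by ring
      _ ≤ _ := h4
  rw [h1]
  have h5 : (0 : ℝ) < (p : ℝ) * 2 ^ (j + 1) / 4 := by positivity
  calc 1 / ((p : ℝ) ^ j * ((p : ℝ) - 1)) ≤ 1 / ((p : ℝ) * 2 ^ (j + 1) / 4) :=
        one_div_le_one_div_of_le h5 h3
    _ = 4 / ((p : ℝ) * 2 ^ (j + 1)) := by field_simp

theorem b8_sum1 (e : ℕ) : ∑ k ∈ Icc 1 e, ((k : ℝ) + 1) / 2 ^ k = 3 - ((e : ℝ) + 3) / 2 ^ e := by
  induction e with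
  | zero => simp
  | succ e ih =>
    rw [Finset.sum_Icc_succ_top (by omega), ih]
    push_cast
    rw [pow_succ]
    have : (2 : ℝ) ^ e ≠ 0 := by positivity
    field_simp
    ring

theorem b8_sum4 (e : ℕ) : ∑ k ∈ Ico 1 (e + 1), ((k : ℝ) + 1) ^ 4 / 2 ^ k =
    299 - (((e : ℝ) + 1) ^ 4 + 8 * ((e : ℝ) + 1) ^ 3 + 36 * ((e : ℝ) + 1) ^ 2 + 104 * ((e : ℝ) + 1) + 150) / 2 ^ e := by
  induction e with
  | zero => norm_num
  | succ e ih =>
    rw [Finset.sum_Ico_succ_top (by omega), ih]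
    push_cast
    rw [pow_succ]
    have : (2 : ℝ) ^ e ≠ 0 := by positivity
    field_simp
    ring

theorem b8_one (D : ℕ → ℝ) : BG D 1 = 1 := by
  unfold BG
  simp

theorem b8_nn (D : ℕ → ℝ) (hD : ∀ p, 1 ≤ D p) (m : ℕ) : 0 ≤ BG D m := by
  unfold BG
  exact div_nonneg (Finset.prod_nonneg fun p _ => by linarith [hD p]) (Nat.cast_nonneg _)

theorem b8_mul (D : ℕ → ℝ) (m n : ℕ) (h : Nat.Coprime m n) : BG D (m * n) = BG D m * BG D n := by
  unfold BG
  by_cases hm : m = 0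
  · subst hm
    have hn : n = 1 := by simpa using h
    subst hn
    simp
  by_cases hn : n = 0
  · subst hn
    have hm1 : m = 1 := by simpa using h
    subst hm1
    simp
  rw [Nat.totient_mul h, Nat.Coprime.primeFactors_mul h, Finset.prod_union h.disjoint_primeFactors]
  push_cast
  rw [mul_div_mul_comm]

/-- PROOF. Group the pairs by `m = lcm m1 m2 ∣ Q` (`Finset.sum_fiberwise_of_maps_to` on `Q.divisors ×ˢ Q.divisors`). In the fibre of `m` both
`m1, m2` divide `m`, so the fibre is contained in `m.divisors ×ˢ m.divisors` (`τ(m)²` elements) and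
`τ(m1) τ(m2) ≤ τ(m)²` (`Nat.divisors_subset_of_dvd`). -/
theorem b8_pairs (G : ℕ → ℝ) (hG : ∀ m, 0 ≤ G m) (Q : ℕ) (hQ : 0 < Q) :
    ∑ m1 ∈ Q.divisors, ∑ m2 ∈ Q.divisors, (m1.divisors.card : ℝ) * (m2.divisors.card : ℝ) * G (Nat.lcm m1 m2) ≤
      ∑ m ∈ Q.divisors, (m.divisors.card : ℝ) ^ 4 * G m := by
  rw [← Finset.sum_product']
  have hmap : ∀ x ∈ Q.divisors ×ˢ Q.divisors, Nat.lcm x.1 x.2 ∈ Q.divisors := by
    intro x hx
    rw [Finset.mem_product, Nat.mem_divisors, Nat.mem_divisors] at hx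
    rw [Nat.mem_divisors]
    exact ⟨Nat.lcm_dvd hx.1.1 hx.2.1, hQ.ne'⟩
  rw [← Finset.sum_fiberwise_of_maps_to hmap]
  refine Finset.sum_le_sum fun m hm => ?_
  have hm0 : m ≠ 0 := (Nat.pos_of_mem_divisors hm).ne'
  have hsub : (Q.divisors ×ˢ Q.divisors).filter (fun x => Nat.lcm x.1 x.2 = m) ⊆ m.divisors ×ˢ m.divisors := by
    intro x hx
    rw [Finset.mem_filter] at hx
    rw [Finset.mem_product, Nat.mem_divisors, Nat.mem_divisors, ← hx.2]
    have hne : Nat.lcm x.1 x.2 ≠ 0 := by rw [hx.2]; exact hm0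
    exact ⟨⟨Nat.dvd_lcm_left _ _, hne⟩, ⟨Nat.dvd_lcm_right _ _, hne⟩⟩
  calc ∑ x ∈ (Q.divisors ×ˢ Q.divisors).filter (fun x => Nat.lcm x.1 x.2 = m),
        (x.1.divisors.card : ℝ) * (x.2.divisors.card : ℝ) * G (Nat.lcm x.1 x.2)
      ≤ ∑ x ∈ (Q.divisors ×ˢ Q.divisors).filter (fun x => Nat.lcm x.1 x.2 = m),
        (m.divisors.card : ℝ) ^ 2 * G m := by
        refine Finset.sum_le_sum fun x hx => ?_
        have hx1 := hsub hx
        rw [Finset.mem_filter] at hx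
        rw [Finset.mem_product, Nat.mem_divisors, Nat.mem_divisors] at hx1
        rw [hx.2]
        have h1 : (x.1.divisors.card : ℝ) ≤ m.divisors.card := by
          exact_mod_cast Finset.card_le_card (Nat.divisors_subset_of_dvd hm0 hx1.1.1)
        have h2 : (x.2.divisors.card : ℝ) ≤ m.divisors.card := by
          exact_mod_cast Finset.card_le_card (Nat.divisors_subset_of_dvd hm0 hx1.2.1)
        refine mul_le_mul_of_nonneg_right ?_ (hG m)
        rw [sq]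
        exact mul_le_mul h1 h2 (Nat.cast_nonneg _) (Nat.cast_nonneg _)
    _ = (((Q.divisors ×ˢ Q.divisors).filter (fun x => Nat.lcm x.1 x.2 = m)).card : ℝ) *
          ((m.divisors.card : ℝ) ^ 2 * G m) := by
        rw [Finset.sum_const, nsmul_eq_mul]
    _ ≤ ((m.divisors ×ˢ m.divisors).card : ℝ) * ((m.divisors.card : ℝ) ^ 2 * G m) := by
        refine mul_le_mul_of_nonneg_right ?_ (mul_nonneg (by positivity) (hG m))
        exact_mod_cast Finset.card_le_card hsub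
    _ = (m.divisors.card : ℝ) ^ 4 * G m := by
        rw [Finset.card_product]
        push_cast
        ring

/-- PROOF. `φ(p^k) = p^(k-1) (p-1) ≥ p^k/2 ≥ p 2^(k-1)/2`, and `∑_{k=1}^e (k+1)/2^(k-1) = 6 - (e+3)/2^(e-1) ≤ 6` for `e ≥ 1`
(by induction on `e`). -/
theorem b8_geo (p e : ℕ) (hp : p.Prime) :
    ∑ k ∈ Icc 1 e, ((k : ℝ) + 1) / ((p ^ k).totient : ℝ) ≤ 12 / p := by
  have hp0 : (0 : ℝ) < p := by exact_mod_cast hp.pos
  calc ∑ k ∈ Icc 1 e, ((k : ℝ) + 1) / ((p ^ k).totient : ℝ)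
      ≤ ∑ k ∈ Icc 1 e, (4 / (p : ℝ)) * (((k : ℝ) + 1) / 2 ^ k) := by
        refine Finset.sum_le_sum fun k hk => ?_
        rw [Finset.mem_Icc] at hk
        have h1 := b8_tot p k hp hk.1
        calc ((k : ℝ) + 1) / ((p ^ k).totient : ℝ) = ((k : ℝ) + 1) * (1 / ((p ^ k).totient : ℝ)) := by
              rw [mul_one_div]
          _ ≤ ((k : ℝ) + 1) * (4 / ((p : ℝ) * 2 ^ k)) := mul_le_mul_of_nonneg_left h1 (by positivity)
          _ = (4 / (p : ℝ)) * (((k : ℝ) + 1) / 2 ^ k) := by field_simp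
    _ = (4 / (p : ℝ)) * (3 - ((e : ℝ) + 3) / 2 ^ e) := by rw [← Finset.mul_sum, b8_sum1]
    _ ≤ (4 / (p : ℝ)) * 3 := by
        refine mul_le_mul_of_nonneg_left ?_ (by positivity)
        have : 0 ≤ ((e : ℝ) + 3) / 2 ^ e := by positivity
        linarith
    _ = 12 / p := by ring

/-- PROOF. `d2_exp` with `f m = τ(m)^4 BG D m`, `c = 2400`. `f 1 = 1`. Multiplicative on coprime `m, n`: if one is `0` the other is `1`;
otherwise `Nat.Coprime.card_divisors_mul`, `Nat.Coprime.primeFactors_mul` (disjoint), `Nat.totient_mul`. At prime powers, `k ≥ 1`: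
`f (p^k) = (k+1)^4 D p/φ(p^k) ≤ (k+1)^4 · 2 · 2/p^k ≤ (4/p) (k+1)^4/2^(k-1)`, and `∑_{k=1}^e (k+1)^4/2^(k-1) ≤ 598` (by induction on
`e`: the sum is `598 - (n^4 + 8 n^3 + 36 n^2 + 104 n + 150)/2^(e-1)` with `n = e + 1`; any bound up to `600` is enough). -/
theorem b8_fourth (D : ℕ → ℝ) (hD : ∀ p, 1 ≤ D p) (hD2 : ∀ p, D p ≤ 2) (Q : ℕ) (hQ : 0 < Q) :
    ∑ m ∈ Q.divisors, (m.divisors.card : ℝ) ^ 4 * BG D m ≤ Real.exp (2400 * rp Q) := by
  refine d2_exp (fun m => (m.divisors.card : ℝ) ^ 4 * BG D m) ?_ ?_ ?_ 2400 ?_ Q hQ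
  · simp [b8_one]
  · intro m n h
    rw [b8_mul D m n h, Nat.Coprime.card_divisors_mul h]
    push_cast
    ring
  · intro m
    exact mul_nonneg (by positivity) (b8_nn D hD m)
  · intro p hp e
    have hp0 : (0 : ℝ) < p := by exact_mod_cast hp.pos
    calc ∑ k ∈ Ico 1 (e + 1), (((p ^ k).divisors.card : ℝ)) ^ 4 * BG D (p ^ k)
        ≤ ∑ k ∈ Ico 1 (e + 1), (8 / (p : ℝ)) * (((k : ℝ) + 1) ^ 4 / 2 ^ k) := by
          refine Finset.sum_le_sum fun k hk => ?_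
          rw [Finset.mem_Ico] at hk
          have h1 := b8_tot p k hp hk.1
          have hk0 : k ≠ 0 := by omega
          have hc : ((p ^ k).divisors.card : ℝ) = (k : ℝ) + 1 := by
            rw [Nat.divisors_prime_pow hp]
            simp
          have hg : BG D (p ^ k) = D p * (1 / ((p ^ k).totient : ℝ)) := by
            unfold BG
            rw [Nat.primeFactors_prime_pow hk0 hp, Finset.prod_singleton, mul_one_div]
          rw [hc, hg]
          have h2 : D p * (1 / ((p ^ k).totient : ℝ)) ≤ 2 * (4 / ((p : ℝ) * 2 ^ k)) :=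
            mul_le_mul (hD2 p) h1 (by positivity) (by norm_num)
          calc ((k : ℝ) + 1) ^ 4 * (D p * (1 / ((p ^ k).totient : ℝ)))
              ≤ ((k : ℝ) + 1) ^ 4 * (2 * (4 / ((p : ℝ) * 2 ^ k))) := mul_le_mul_of_nonneg_left h2 (by positivity)
            _ = (8 / (p : ℝ)) * (((k : ℝ) + 1) ^ 4 / 2 ^ k) := by field_simp; ring
      _ = (8 / (p : ℝ)) * (299 - (((e : ℝ) + 1) ^ 4 + 8 * ((e : ℝ) + 1) ^ 3 + 36 * ((e : ℝ) + 1) ^ 2
            + 104 * ((e : ℝ) + 1) + 150) / 2 ^ e) := by rw [← Finset.mul_sum, b8_sum4]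
      _ ≤ (8 / (p : ℝ)) * 299 := by
          refine mul_le_mul_of_nonneg_left ?_ (by positivity)
          have : 0 ≤ (((e : ℝ) + 1) ^ 4 + 8 * ((e : ℝ) + 1) ^ 3 + 36 * ((e : ℝ) + 1) ^ 2
            + 104 * ((e : ℝ) + 1) + 150) / 2 ^ e := by positivity
          linarith
      _ ≤ 2400 / p := by
          rw [div_mul_eq_mul_div]
          exact div_le_div_of_nonneg_right (by norm_num) hp0.le

end Pool.Agent.H20G
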