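import Mathlib
import Pool.Agent.Lib.H20G.Defs

set_option autoImplicit false

/-!
# H20G chunk D5: elementary facts on rp, smooth and rough parts
-/

namespace Pool.Agent.H20G

open Finset

theorem d5_fact (P : ℕ → Prop) [DecidablePred P] (n p : ℕ) :
    (∏ q ∈ n.primeFactors.filter P, q ^ (n.factorization q)).factorization p = if P p then n.factorization p else 0 := by
  have e : ∏ q ∈ n.primeFactors.filter P, q ^ (n.factorization q) =
      (Finsupp.filter P n.factorization).prod (fun q k => q ^ k) := by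
    rw [Finsupp.prod]
    rw [Finsupp.support_filter, Nat.support_factorization]
    refine Finset.prod_congr rfl fun q hq => ?_
    rw [Finsupp.filter_apply_pos P _ (mem_filter.1 hq).2]
  rw [e, Nat.prod_pow_factorization_eq_self, Finsupp.filter_apply]
  intro q hq
  rw [Finsupp.support_filter, Nat.support_factorization, mem_filter] at hq
  exact Nat.prime_of_mem_primeFactors hq.1

/-- `rp` is monotone under divisibility (`Nat.primeFactors_mono`). -/
theorem d5_rp_mono {m n : ℕ} (h : m ∣ n) (hn : n ≠ 0) : rp m ≤ rp n := by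
  unfold rp
  exact Finset.sum_le_sum_of_subset_of_nonneg (Nat.primeFactors_mono h hn) fun p _ _ => by positivity

/-- subadditive: the primes of `lcm(m,n)` (or of `m n`) divide `m` or `n` -/
theorem d5_rp_mul (m n : ℕ) : rp (m * n) ≤ rp m + rp n := by
  unfold rp
  have h : (m * n).primeFactors ⊆ m.primeFactors ∪ n.primeFactors := by
    intro p hp
    have hp1 := Nat.prime_of_mem_primeFactors hp
    have hp2 := Nat.dvd_of_mem_primeFactors hp
    have h0 : m * n ≠ 0 := fun h => by rw [h] at hp; simp at hp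
    have hm : m ≠ 0 := left_ne_zero_of_mul h0
    have hn : n ≠ 0 := right_ne_zero_of_mul h0
    rw [mem_union, Nat.mem_primeFactors, Nat.mem_primeFactors]
    rcases (Nat.Prime.dvd_mul hp1).1 hp2 with h | h
    · exact Or.inl ⟨hp1, h, hm⟩
    · exact Or.inr ⟨hp1, h, hn⟩
  refine (Finset.sum_le_sum_of_subset_of_nonneg h fun p _ _ => by positivity).trans ?_
  have h2 := Finset.sum_union_inter (s₁ := m.primeFactors) (s₂ := n.primeFactors) (f := fun p => 1 / (p : ℝ))
  have h3 : 0 ≤ ∑ p ∈ m.primeFactors ∩ n.primeFactors, 1 / (p : ℝ) := Finset.sum_nonneg fun p _ => by positivity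
  linarith

theorem d5_rp_lcm (m n : ℕ) : rp (Nat.lcm m n) ≤ rp m + rp n := by
  by_cases h : Nat.lcm m n = 0
  · rw [h]
    have : rp 0 = 0 := by simp [rp]
    rw [this]
    exact add_nonneg (Finset.sum_nonneg fun p _ => by positivity) (Finset.sum_nonneg fun p _ => by positivity)
  · have hmn : m * n ≠ 0 := by
      intro h0
      rcases Nat.mul_eq_zero.1 h0 with h1 | h1
      · rw [h1] at h; simp at h
      · rw [h1] at h; simp at h
    refine le_trans ?_ (d5_rp_mul m n)
    unfold rp
    exact Finset.sum_le_sum_of_subset_of_nonneg (Nat.primeFactors_mono (Nat.lcm_dvd_mul m n) hmn)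
      fun p _ _ => by positivity

theorem d5_rp_nonneg (n : ℕ) : 0 ≤ rp n := by
  exact Finset.sum_nonneg fun p _ => by positivity

/-- `n = smo T n * rou T n` (`Nat.factorization_prod_pow_eq_self`, `Finset.prod_filter_mul_prod_filter_not`) -/
theorem d5_split (T n : ℕ) (hn : 0 < n) : smo T n * rou T n = n := by
  unfold smo rou
  have h1 : n.primeFactors.filter (fun p => T < p) = n.primeFactors.filter (fun p => ¬ p ≤ T) := by
    refine Finset.filter_congr fun p _ => ?_
    rw [not_le]
  rw [h1, Finset.prod_filter_mul_prod_filter_not]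
  exact Nat.prod_factorization_pow_eq_self hn.ne'

theorem d5_pos (T n : ℕ) : 0 < smo T n ∧ 0 < rou T n := by
  constructor
  · exact Finset.prod_pos fun p hp => pow_pos (Nat.prime_of_mem_primeFactors (mem_filter.1 hp).1).pos _
  · exact Finset.prod_pos fun p hp => pow_pos (Nat.prime_of_mem_primeFactors (mem_filter.1 hp).1).pos _

/-- factorizations of the two parts -/
theorem d5_fact_smo (T n p : ℕ) : (smo T n).factorization p = if p ≤ T then n.factorization p else 0 := by
  exact d5_fact (fun q => q ≤ T) n p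

theorem d5_fact_rou (T n p : ℕ) : (rou T n).factorization p = if T < p then n.factorization p else 0 := by
  exact d5_fact (fun q => T < q) n p

/-- `smo` and `rou` of a quotient -/
theorem d5_smo_div (T m n : ℕ) (h : m ∣ n) (hn : 0 < n) : smo T (n / m) * smo T m = smo T n := by
  have hm : 0 < m := Nat.pos_of_dvd_of_pos h hn
  obtain ⟨c, rfl⟩ := h
  have hc : 0 < c := Nat.pos_of_mul_pos_left hn
  rw [Nat.mul_div_cancel_left c hm]
  refine Nat.eq_of_factorization_eq (Nat.mul_ne_zero (d5_pos T c).1.ne' (d5_pos T m).1.ne') (d5_pos T _).1.ne' fun p => ?_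
  rw [Nat.factorization_mul (d5_pos T c).1.ne' (d5_pos T m).1.ne', Finsupp.add_apply, d5_fact_smo, d5_fact_smo,
    d5_fact_smo, Nat.factorization_mul hm.ne' hc.ne', Finsupp.add_apply]
  split_ifs <;> omega

theorem d5_rou_div (T m n : ℕ) (h : m ∣ n) (hn : 0 < n) : rou T (n / m) * rou T m = rou T n := by
  have hm : 0 < m := Nat.pos_of_dvd_of_pos h hn
  obtain ⟨c, rfl⟩ := h
  have hc : 0 < c := Nat.pos_of_mul_pos_left hn
  rw [Nat.mul_div_cancel_left c hm]
  refine Nat.eq_of_factorization_eq (Nat.mul_ne_zero (d5_pos T c).2.ne' (d5_pos T m).2.ne') (d5_pos T _).2.ne' fun p => ?_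
  rw [Nat.factorization_mul (d5_pos T c).2.ne' (d5_pos T m).2.ne', Finsupp.add_apply, d5_fact_rou, d5_fact_rou,
    d5_fact_rou, Nat.factorization_mul hm.ne' hc.ne', Finsupp.add_apply]
  split_ifs <;> omega

/-- `rou T' (rou T n) = rou T' n` for `T ≤ T'` -/
theorem d5_rou_rou (T T' n : ℕ) (h : T ≤ T') : rou T' (rou T n) = rou T' n := by
  refine Nat.eq_of_factorization_eq (d5_pos T' _).2.ne' (d5_pos T' _).2.ne' fun p => ?_
  rw [d5_fact_rou, d5_fact_rou, d5_fact_rou]
  split_ifs <;> omega

/-- divisibility of the rough parts -/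
theorem d5_rou_dvd (T m n : ℕ) (h : m ∣ n) (hn : 0 < n) : rou T m ∣ rou T n ∧ smo T m ∣ smo T n := by
  have h1 := d5_rou_div T m n h hn
  have h2 := d5_smo_div T m n h hn
  exact ⟨⟨_, by rw [mul_comm]; exact h1.symm⟩, ⟨_, by rw [mul_comm]; exact h2.symm⟩⟩

/-- a prime `p ≤ T` does not divide `rou T n`, a prime `p > T` does not divide `smo T n` -/
theorem d5_coprime (T m n : ℕ) : Nat.Coprime (smo T m) (rou T n) := by
  rw [Nat.coprime_iff_gcd_eq_one]
  by_contra hne
  obtain ⟨p, hp, hpd⟩ := Nat.exists_prime_and_dvd hne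
  have h1 : p ∣ smo T m := hpd.trans (Nat.gcd_dvd_left _ _)
  have h2 : p ∣ rou T n := hpd.trans (Nat.gcd_dvd_right _ _)
  have h3 := (hp.dvd_iff_one_le_factorization (d5_pos T m).1.ne').1 h1
  have h4 := (hp.dvd_iff_one_le_factorization (d5_pos T n).2.ne').1 h2
  rw [d5_fact_smo] at h3
  rw [d5_fact_rou] at h4
  split_ifs at h3 h4 <;> omega

end Pool.Agent.H20G
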