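import Mathlib
import Pool.Agent.Lib.H20G.B3
import Pool.Agent.Lib.H20G.B5
import Pool.Agent.Lib.H20G.B7
import Pool.Agent.Lib.H20G.B8
import Pool.Agent.Lib.H20G.D5

set_option autoImplicit false

/-!
# H20G chunk B10: one step of the distortion, with the loss
-/

namespace Pool.Agent.H20G

open Finset

/-- The factors `BD W y1` are between `1` and `2` if `0 < W ≤ y1`. PROOF. `p > y1 ≥ W > 0` gives `0 < W/p ≤ 1`. -/
theorem b10_D (W : ℝ) (y1 : ℕ) (hW : 0 < W) (hy : W ≤ y1) (p : ℕ) : 1 ≤ BD W y1 p ∧ BD W y1 p ≤ 2 := by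
  unfold BD
  split_ifs with h
  · norm_num
  · have h1 : (y1 : ℝ) < p := by
      exact_mod_cast not_le.mp h
    have h2 : (0 : ℝ) < p := by linarith
    have h3 : 0 < W / p := div_pos hW h2
    have h4 : W / p ≤ 1 := by
      rw [div_le_one h2]
      linarith
    constructor <;> linarith

theorem b10_mono (Q : ℕ) (g h : ℕ → ℝ) (hgh : ∀ x, g x ≤ h x) : BAv Q g ≤ BAv Q h := by
  unfold BAv
  exact div_le_div_of_nonneg_right (sum_le_sum fun x _ => hgh x) (Nat.cast_nonneg _)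

theorem b10_add (Q : ℕ) (g h : ℕ → ℝ) : BAv Q (fun x => g x + h x) = BAv Q g + BAv Q h := by
  unfold BAv
  rw [sum_add_distrib, add_div]

theorem b10_cov (cl : ℕ → Finset ℕ) (Q p e : ℕ) (hp : p.Prime) (y : ℕ) :
    Bind (BCov cl (Q * p ^ e)) y ≤ Bind (BCov cl Q) y + Bind (BNew cl (Q * p ^ e) p) y := by
  have nn : ∀ (A : ℕ → Prop) (x : ℕ), 0 ≤ Bind A x := by
    intro A x
    unfold Bind
    split_ifs <;> norm_num
  by_cases h : BCov cl (Q * p ^ e) y
  · have h1 : Bind (BCov cl (Q * p ^ e)) y = 1 := if_pos h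
    rw [h1]
    obtain ⟨m, hm, c, hc, hyc⟩ := h
    by_cases hpm : p ∣ m
    · have h2 : Bind (BNew cl (Q * p ^ e) p) y = 1 := if_pos ⟨m, hm, hpm, c, hc, hyc⟩
      rw [h2]
      linarith [nn (BCov cl Q) y]
    · have hmQ : m ∣ Q := by
        have h3 : Nat.Coprime m (p ^ e) := ((hp.coprime_iff_not_dvd.mpr hpm).symm).pow_right e
        exact h3.dvd_of_dvd_mul_right hm
      have h2 : Bind (BCov cl Q) y = 1 := if_pos ⟨m, hmQ, c, hc, hyc⟩
      rw [h2]
      linarith [nn (BNew cl (Q * p ^ e) p) y]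
  · have h1 : Bind (BCov cl (Q * p ^ e)) y = 0 := if_neg h
    rw [h1]
    linarith [nn (BCov cl Q) y, nn (BNew cl (Q * p ^ e) p) y]

theorem b10_per (cl : ℕ → Finset ℕ) (Q : ℕ) (x : ℕ) : Bind (BCov cl Q) (x % Q) = Bind (BCov cl Q) x := by
  have h : BCov cl Q (x % Q) ↔ BCov cl Q x := by
    constructor
    · rintro ⟨m, hm, c, hc, hy⟩
      exact ⟨m, hm, c, hc, ((Nat.mod_modEq x Q).of_dvd hm).symm.trans hy⟩
    · rintro ⟨m, hm, c, hc, hy⟩
      exact ⟨m, hm, c, hc, ((Nat.mod_modEq x Q).of_dvd hm).trans hy⟩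
  unfold Bind
  by_cases h1 : BCov cl Q x
  · rw [if_pos h1, if_pos (h.mpr h1)]
  · rw [if_neg h1, if_neg (fun h2 => h1 (h.mp h2))]

/-- One step at a prime `p > y1`: the new density `f' = Bf ..` is a `BDens`, the mass covered grows by at most `K/p`.
PROOF. `D = BD W y1`, `d = D p - 1 = W/p > 0`, `B = BNew cl (Q p^e) p`, `f' = Bf Q (p^e) B d f`: `BDens` by `b5_step` (`b10_D`).
`Bind (BCov cl (Q p^e)) ≤ Bind (BCov cl Q) + Bind B`: a modulus `m ∣ Q p^e` with `p ∤ m` divides `Q`. So the covered mass is at most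
`BAv (f' 1_{BCov cl Q}) + BAv (f' 1_B)`. The first is `BAv Q (f 1_{BCov cl Q})` by `b3_ev` (`BCov cl Q` has period `Q`). The second is
at most `(1 + p/W) E[f α²]` (`b3_mass`), `1 + p/W ≤ 2 p/W` (`W ≤ y1 < p`), and
`E[f α²] ≤ 17² (12/p)² exp(2400 rp Q)` (`b7_sq`, `b8_geo`, `b8_pairs`, `b8_fourth`; `rp Q ≤ c0`), and
`(2 p/W) 17² (12/p)² = (83232/W)/p`. -/
theorem b10_step (W c0 : ℝ) (y1 : ℕ) (hW : 0 < W) (hy : W ≤ y1) (cl : ℕ → Finset ℕ)
    (hcl : ∀ m, (cl m).card ≤ 17 * m.divisors.card) (Q p e : ℕ) (hp : p.Prime) (he : 1 ≤ e) (hQ : 0 < Q)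
    (hpQ : ¬ p ∣ Q) (hpy : y1 < p) (hc0 : rp Q ≤ c0) (f : ℕ → ℝ) (hf : BDens (BD W y1) Q f) :
    ∃ f' : ℕ → ℝ, BDens (BD W y1) (Q * p ^ e) f' ∧
      BAv (Q * p ^ e) (fun y => f' y * Bind (BCov cl (Q * p ^ e)) y) ≤
        BAv Q (fun y => f y * Bind (BCov cl Q) y) + (83232 * Real.exp (2400 * c0) / W) * (1 / p) := by
  have hp0 : (0 : ℝ) < p := by exact_mod_cast hp.pos
  have hpy' : (y1 : ℝ) < p := by exact_mod_cast hpy
  have hDp : BD W y1 p = 1 + W / p := if_neg (not_le.mpr hpy)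
  have hWp : 0 < W / p := div_pos hW hp0
  have hD1 : ∀ p', 1 ≤ BD W y1 p' := fun p' => (b10_D W y1 hW hy p').1
  have hD2 : ∀ p', BD W y1 p' ≤ 2 := fun p' => (b10_D W y1 hW hy p').2
  have hDp1 : 1 < BD W y1 p := by
    rw [hDp]
    linarith
  have hd : 0 < BD W y1 p - 1 := by linarith
  have hd' : BD W y1 p - 1 = W / p := by
    rw [hDp]
    ring
  have hcop : Nat.Coprime Q (p ^ e) := ((hp.coprime_iff_not_dvd.mpr hpQ).symm).pow_right e
  have hpe : 0 < p ^ e := pow_pos hp.pos e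
  have hB := b5_step (BD W y1) cl Q p e hp he hQ hpQ hD1 hDp1 f hf
  refine ⟨_, hB, ?_⟩
  obtain ⟨f', hf'⟩ : ∃ f', f' = Bf Q (p ^ e) (BNew cl (Q * p ^ e) p) (BD W y1 p - 1) f := ⟨_, rfl⟩
  have e1 := b3_ev Q (p ^ e) hQ hpe hcop (BNew cl (Q * p ^ e) p) (BD W y1 p - 1) hd f
    (Bind (BCov cl Q)) hf.per (b10_per cl Q)
  have e2 := b3_mass Q (p ^ e) hQ hpe hcop (BNew cl (Q * p ^ e) p) (BD W y1 p - 1) hd f hf.per hf.nn
  have e3 := b7_sq (BD W y1) hD1 cl Q p e hp hQ hpQ (fun m _ => hcl m) f hf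
  rw [← hf'] at e1 e2 hB ⊢
  have hBG : ∀ m, 0 ≤ BG (BD W y1) m := by
    intro m
    unfold BG
    apply div_nonneg _ (Nat.cast_nonneg _)
    apply Finset.prod_nonneg
    intro q _
    linarith [hD1 q]
  have e4 := b8_pairs (BG (BD W y1)) hBG Q hQ
  have e5 := b8_fourth (BD W y1) hD1 hD2 Q hQ
  have e6 := b8_geo p e hp
  have e7 : Real.exp (2400 * rp Q) ≤ Real.exp (2400 * c0) := Real.exp_le_exp.mpr (by linarith)
  have e8 : 0 ≤ ∑ k ∈ Icc 1 e, ((k : ℝ) + 1) / ((p ^ k).totient : ℝ) :=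
    sum_nonneg fun k _ => by positivity
  have e9 : BAv Q (fun x => f x * (Bal Q (p ^ e) (BNew cl (Q * p ^ e) p) x) ^ 2) ≤
      17 ^ 2 * (12 / p) ^ 2 * Real.exp (2400 * c0) := by
    refine e3.trans ?_
    apply mul_le_mul _ ((e4.trans e5).trans e7) _ (by positivity)
    · apply mul_le_mul_of_nonneg_left _ (by norm_num)
      exact pow_le_pow_left₀ e8 e6 2
    · exact sum_nonneg fun m1 _ => sum_nonneg fun m2 _ =>
        mul_nonneg (by positivity) (hBG _)
  calc BAv (Q * p ^ e) (fun y => f' y * Bind (BCov cl (Q * p ^ e)) y)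
      ≤ BAv (Q * p ^ e) (fun y => f' y * Bind (BCov cl Q) y +
          f' y * Bind (BNew cl (Q * p ^ e) p) y) := by
        apply b10_mono
        intro y
        rw [← mul_add]
        exact mul_le_mul_of_nonneg_left (b10_cov cl Q p e hp y) (hB.nn y)
    _ = BAv Q (fun y => f y * Bind (BCov cl Q) y) +
          BAv (Q * p ^ e) (fun y => f' y * Bind (BNew cl (Q * p ^ e) p) y) := by
        rw [b10_add, e1]
    _ ≤ BAv Q (fun y => f y * Bind (BCov cl Q) y) +
          (83232 * Real.exp (2400 * c0) / W) * (1 / p) := by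
        apply add_le_add (le_refl _)
        refine e2.trans ?_
        have h1 : 1 + 1 / (BD W y1 p - 1) ≤ 2 * p / W := by
          rw [hd', one_div_div]
          have h11 : 1 ≤ (p : ℝ) / W := by
            rw [le_div_iff₀ hW]
            linarith
          have h12 : 2 * (p : ℝ) / W = p / W + p / W := by ring
          rw [h12]
          linarith
        have h2 : 0 ≤ BAv Q (fun x => f x * (Bal Q (p ^ e) (BNew cl (Q * p ^ e) p) x) ^ 2) := by
          unfold BAv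
          exact div_nonneg (sum_nonneg fun x _ => mul_nonneg (hf.nn x) (sq_nonneg _))
            (Nat.cast_nonneg _)
        calc _ ≤ 2 * p / W * (17 ^ 2 * (12 / p) ^ 2 * Real.exp (2400 * c0)) :=
              mul_le_mul h1 e9 h2 (by positivity)
          _ = (83232 * Real.exp (2400 * c0) / W) * (1 / p) := by
              field_simp
              ring

end Pool.Agent.H20G
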