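import Mathlib
import Pool.Agent.Lib.H20G.B0
import Pool.Agent.Lib.H20G.B5
import Pool.Agent.Lib.H20G.D1

set_option autoImplicit false

/-!
# H20G chunk B9: the moduli with all primes at most `y1`
-/

namespace Pool.Agent.H20G

open Finset

theorem b9_geo (t : ℝ) (n : ℕ) :
    (∑ k ∈ range n, ((k : ℝ) + 1) * t ^ k) * (1 - t) ^ 2 = 1 - ((n : ℝ) + 1) * t ^ n + (n : ℝ) * t ^ (n + 1) := by
  induction n with
  | zero => simp
  | succ n ih =>
    rw [Finset.sum_range_succ, add_mul, ih]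
    push_cast
    ring

theorem b9_geo12 (n : ℕ) : ∑ k ∈ range n, ((k : ℝ) + 1) * (Real.sqrt (1 / 2)) ^ k ≤ 12 := by
  set t := Real.sqrt (1 / 2) with ht
  have t0 : 0 ≤ t := Real.sqrt_nonneg _
  have t1 : t ≤ 711 / 1000 := by
    rw [ht]
    exact Real.sqrt_le_iff.2 ⟨by norm_num, by norm_num⟩
  have h := b9_geo t n
  have h2 : (n : ℝ) * t ^ (n + 1) ≤ ((n : ℝ) + 1) * t ^ n := by
    have h3 : t ^ (n + 1) ≤ t ^ n := pow_le_pow_of_le_one t0 (by linarith) (Nat.le_succ n)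
    have h4 : 0 ≤ t ^ n := by positivity
    have h5 : (0 : ℝ) ≤ n := Nat.cast_nonneg n
    nlinarith [mul_le_mul_of_nonneg_left h3 h5]
  have h6 : (1 / 12 : ℝ) ≤ (1 - t) ^ 2 := by nlinarith
  have h7 : 0 ≤ ∑ k ∈ range n, ((k : ℝ) + 1) * t ^ k := Finset.sum_nonneg fun k _ => by positivity
  nlinarith [mul_le_mul_of_nonneg_left h6 h7]

/-- `τ(m) √m / φ(m)` -/
noncomputable def b9f (m : ℕ) : ℝ := (m.divisors.card : ℝ) * Real.sqrt m / (m.totient : ℝ)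

theorem b9f_mul (m n : ℕ) (h : Nat.Coprime m n) : b9f (m * n) = b9f m * b9f n := by
  unfold b9f
  rw [h.card_divisors_mul, Nat.totient_mul h]
  push_cast
  rw [Real.sqrt_mul (Nat.cast_nonneg m), div_mul_div_comm]
  ring

theorem b9f_one : b9f 1 = 1 := by
  unfold b9f
  simp

theorem b9f_nonneg (m : ℕ) : 0 ≤ b9f m := by
  unfold b9f
  positivity

theorem b9f_prime {p : ℕ} (hp : p.Prime) (k : ℕ) (hk : 1 ≤ k) : b9f (p ^ k) ≤ 2 * (((k : ℝ) + 1) * (Real.sqrt (1 / 2)) ^ k) := by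
  have hp2 : (2 : ℝ) ≤ p := by exact_mod_cast hp.two_le
  have hp0 : (0 : ℝ) < p := by linarith
  have hphi : ((p : ℝ) ^ k) / 2 ≤ ((p ^ k).totient : ℝ) := by
    obtain ⟨j, rfl⟩ := Nat.exists_eq_add_of_le' hk
    rw [Nat.totient_prime_pow_succ hp, Nat.cast_mul, Nat.cast_pow, Nat.cast_sub hp.one_lt.le, Nat.cast_one, pow_succ]
    have h1 : 0 < (p : ℝ) ^ j := by positivity
    nlinarith
  have hcard : ((p ^ k).divisors.card : ℝ) = (k : ℝ) + 1 := by
    rw [Nat.divisors_prime_pow hp, Finset.card_map, Finset.card_range]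
    push_cast
    ring
  have hs0 : 0 < Real.sqrt p := Real.sqrt_pos.2 hp0
  have hpk : (p : ℝ) ^ k = (Real.sqrt p) ^ k * (Real.sqrt p) ^ k := by
    rw [← mul_pow, Real.mul_self_sqrt hp0.le]
  have hsq : Real.sqrt ((p ^ k : ℕ) : ℝ) = (Real.sqrt p) ^ k := by
    rw [Nat.cast_pow, hpk, Real.sqrt_mul_self (by positivity)]
  unfold b9f
  rw [hcard, hsq]
  have hphi0 : (0 : ℝ) < ((p ^ k).totient : ℝ) := lt_of_lt_of_le (by positivity) hphi
  rw [div_le_iff₀ hphi0]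
  have hinv : (1 : ℝ) ≤ (Real.sqrt (1 / 2)) ^ k * (Real.sqrt p) ^ k := by
    rw [← mul_pow, ← Real.sqrt_mul (by norm_num)]
    refine one_le_pow₀ ?_
    rw [Real.one_le_sqrt]
    linarith
  have h2 : ((k : ℝ) + 1) * (Real.sqrt p) ^ k ≤ 2 * (((k : ℝ) + 1) * (Real.sqrt (1 / 2)) ^ k) * (((p : ℝ) ^ k) / 2) := by
    rw [hpk]
    have h3 : 0 ≤ ((k : ℝ) + 1) * (Real.sqrt p) ^ k := by positivity
    nlinarith [mul_le_mul_of_nonneg_left hinv h3]
  refine h2.trans (mul_le_mul_of_nonneg_left hphi (by positivity))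

theorem b9f_local {p : ℕ} (hp : p.Prime) (e : ℕ) : ∑ k ∈ range (e + 1), b9f (p ^ k) ≤ 23 := by
  have h1 : ∑ k ∈ range (e + 1), b9f (p ^ k) + 1 ≤ ∑ k ∈ range (e + 1), 2 * (((k : ℝ) + 1) * (Real.sqrt (1 / 2)) ^ k) := by
    rw [Finset.sum_range_succ', Finset.sum_range_succ']
    have h2 : ∑ k ∈ range e, b9f (p ^ (k + 1)) ≤
        ∑ k ∈ range e, 2 * ((((k + 1 : ℕ) : ℝ) + 1) * (Real.sqrt (1 / 2)) ^ (k + 1)) :=
      Finset.sum_le_sum fun k _ => b9f_prime hp (k + 1) (by omega)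
    have h3 : b9f (p ^ 0) = 1 := by rw [pow_zero, b9f_one]
    rw [h3]
    have h4 : (2 : ℝ) * ((((0 : ℕ) : ℝ) + 1) * (Real.sqrt (1 / 2)) ^ 0) = 2 := by norm_num
    rw [h4]
    linarith
  rw [← Finset.mul_sum] at h1
  have h5 := b9_geo12 (e + 1)
  linarith

/-- PROOF. For `m > y0`: `1 ≤ √m/√y0`. So the sum is at most `(17/√y0) ∑_{m ∣ Q} τ(m) √m/φ(m)` (terms nonnegative), and `d1_sum` with
`f m = τ(m) √m/φ(m)` (multiplicative on coprime arguments; `f 1 = 1`; `f 0 = 0`) gives the product over `p ∣ Q` of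
`∑_{k ≤ e} (k+1) p^{k/2}/φ(p^k) ≤ 1 + 2 ∑_{k=1}^{e} (k+1) p^{-k/2} ≤ 1 + 2 ∑_{k=1}^{e} (k+1) 2^{-k/2} ≤ 23`
(`φ(p^k) ≥ p^k/2`; with `t = 2^{-1/2} ≤ 0.7072`, `∑_{k=0}^{e} (k+1) t^k ≤ 1/(1-t)² ≤ 11.7`, by induction on `e` or from
`∑_{k=0}^{e} (k+1) t^k (1-t)² = 1 - (e+2) t^(e+1) + (e+1) t^(e+2) ≤ 1`), and there are at most `y1` primes `p ≤ y1`. -/
theorem b9_small (y0 y1 : ℕ) (hy0 : 0 < y0) (Q : ℕ) (hQ : 0 < Q) (hp : ∀ p ∈ Q.primeFactors, p ≤ y1) :
    ∑ m ∈ Q.divisors.filter (fun m => y0 < m), 17 * (m.divisors.card : ℝ) / (m.totient : ℝ) ≤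
      17 * 23 ^ y1 / Real.sqrt y0 := by
  have hs : 0 < Real.sqrt y0 := Real.sqrt_pos.2 (by exact_mod_cast hy0)
  have h1 : ∑ m ∈ Q.divisors.filter (fun m => y0 < m), 17 * (m.divisors.card : ℝ) / (m.totient : ℝ) ≤
      ∑ m ∈ Q.divisors, 17 / Real.sqrt y0 * b9f m := by
    refine (Finset.sum_le_sum (g := fun m => 17 / Real.sqrt y0 * b9f m) fun m hm => ?_).trans
      (Finset.sum_le_sum_of_subset_of_nonneg (Finset.filter_subset _ _) fun m _ _ =>
        mul_nonneg (by positivity) (b9f_nonneg m))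
    rw [Finset.mem_filter] at hm
    have hle : Real.sqrt y0 ≤ Real.sqrt m := Real.sqrt_le_sqrt (by exact_mod_cast hm.2.le)
    have hm0 : 0 < m := Nat.pos_of_mem_divisors hm.1
    have hphi : (0 : ℝ) < m.totient := by exact_mod_cast Nat.totient_pos.2 hm0
    unfold b9f
    rw [div_mul_div_comm, div_le_div_iff₀ hphi (by positivity)]
    have h2 : 0 ≤ 17 * (m.divisors.card : ℝ) * (m.totient : ℝ) := by positivity
    nlinarith [mul_le_mul_of_nonneg_left hle h2]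
  refine h1.trans ?_
  rw [← Finset.mul_sum, d1_sum b9f b9f_one b9f_mul Q hQ]
  have h3 : ∏ p ∈ Q.primeFactors, ∑ k ∈ range (Q.factorization p + 1), b9f (p ^ k) ≤ 23 ^ y1 := by
    calc ∏ p ∈ Q.primeFactors, ∑ k ∈ range (Q.factorization p + 1), b9f (p ^ k) ≤ ∏ _p ∈ Q.primeFactors, (23 : ℝ) := by
          refine Finset.prod_le_prod (fun p _ => Finset.sum_nonneg fun k _ => b9f_nonneg _) fun p hp' => ?_
          exact b9f_local (Nat.prime_of_mem_primeFactors hp') _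
      _ = 23 ^ Q.primeFactors.card := Finset.prod_const _
      _ ≤ 23 ^ y1 := by
        refine pow_le_pow_right₀ (by norm_num) ?_
        have h4 : Q.primeFactors ⊆ Finset.Icc 1 y1 := by
          intro p hp'
          rw [Finset.mem_Icc]
          exact ⟨(Nat.prime_of_mem_primeFactors hp').one_lt.le, hp p hp'⟩
        have h5 := Finset.card_le_card h4
        rwa [Nat.card_Icc, Nat.add_sub_cancel] at h5
  calc 17 / Real.sqrt y0 * ∏ p ∈ Q.primeFactors, ∑ k ∈ range (Q.factorization p + 1), b9f (p ^ k) ≤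
      17 / Real.sqrt y0 * 23 ^ y1 := mul_le_mul_of_nonneg_left h3 (by positivity)
    _ = 17 * 23 ^ y1 / Real.sqrt y0 := by ring

/-- PROOF. `Bind (BCov cl Q) x ≤ ∑_{m ∣ Q} ∑_{c ∈ cl m} Bind (· ≡ c [MOD m]) x`; take the average and use the class bound of
`b5_one` with `D = 1` (`BG 1 m = 1/φ(m)`). -/
theorem b9_cov (cl : ℕ → Finset ℕ) (Q : ℕ) (hQ : 0 < Q) :
    BAv Q (Bind (BCov cl Q)) ≤ ∑ m ∈ Q.divisors, ((cl m).card : ℝ) / (m.totient : ℝ) := by
  have h1 : ∀ x, Bind (BCov cl Q) x ≤ ∑ m ∈ Q.divisors, ∑ c ∈ cl m, Bind (fun y => y ≡ c [MOD m]) x := by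
    intro x
    have h0 : ∀ m ∈ Q.divisors, 0 ≤ ∑ c ∈ cl m, Bind (fun y => y ≡ c [MOD m]) x := fun m _ =>
      Finset.sum_nonneg fun c _ => by
        unfold Bind
        split_ifs <;> norm_num
    unfold Bind
    by_cases hx : BCov cl Q x
    · rw [if_pos hx]
      obtain ⟨m, hm, c, hc, hxc⟩ := hx
      have hm' : m ∈ Q.divisors := Nat.mem_divisors.2 ⟨hm, hQ.ne'⟩
      refine le_trans ?_ (Finset.single_le_sum h0 hm')
      refine le_trans (le_of_eq ?_) (Finset.single_le_sum (f := fun c => Bind (fun y => y ≡ c [MOD m]) x) (fun c _ => ?_) hc)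
      · show (1 : ℝ) = Bind (fun y => y ≡ c [MOD m]) x
        unfold Bind
        rw [if_pos hxc]
      · show 0 ≤ Bind (fun y => y ≡ c [MOD m]) x
        unfold Bind
        split_ifs <;> norm_num
    · rw [if_neg hx]
      exact Finset.sum_nonneg h0
  have hphiQ : (0 : ℝ) < Q.totient := by exact_mod_cast Nat.totient_pos.2 hQ
  have h2 : BAv Q (Bind (BCov cl Q)) ≤ ∑ m ∈ Q.divisors, ∑ c ∈ cl m, BAv Q (Bind (fun y => y ≡ c [MOD m])) := by
    unfold BAv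
    have h3 : ∑ m ∈ Q.divisors, ∑ c ∈ cl m, (∑ x ∈ BU Q, Bind (fun y => y ≡ c [MOD m]) x) / (Q.totient : ℝ) =
        (∑ x ∈ BU Q, ∑ m ∈ Q.divisors, ∑ c ∈ cl m, Bind (fun y => y ≡ c [MOD m]) x) / (Q.totient : ℝ) := by
      rw [Finset.sum_comm, Finset.sum_div]
      refine Finset.sum_congr rfl fun m _ => ?_
      rw [Finset.sum_comm, Finset.sum_div]
    rw [h3]
    exact div_le_div_of_nonneg_right (Finset.sum_le_sum fun x _ => h1 x) hphiQ.le
  refine h2.trans (Finset.sum_le_sum fun m hm => ?_)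
  have hmQ : m ∣ Q := Nat.dvd_of_mem_divisors hm
  have h4 : ∀ c ∈ cl m, BAv Q (Bind (fun y => y ≡ c [MOD m])) ≤ 1 / (m.totient : ℝ) := by
    intro c _
    have h5 := (b5_one (fun _ => 1) (fun _ => le_refl _) Q hQ).cls m c hmQ
    simp only [one_mul, BG, Finset.prod_const_one] at h5
    exact h5
  calc ∑ c ∈ cl m, BAv Q (Bind (fun y => y ≡ c [MOD m])) ≤ ∑ _c ∈ cl m, 1 / (m.totient : ℝ) := Finset.sum_le_sum h4
    _ = ((cl m).card : ℝ) / (m.totient : ℝ) := by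
      rw [Finset.sum_const, nsmul_eq_mul, mul_one_div]

end Pool.Agent.H20G
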