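import Mathlib
import Pool.Agent.Lib.H20G.B5
import Pool.Agent.Lib.H20G.B9
import Pool.Agent.Lib.H20G.B10
import Pool.Agent.Lib.H20G.D5

set_option autoImplicit false

/-!
# H20G chunk B11: the induction over the primes, the uncovered residues
-/

namespace Pool.Agent.H20G

open Finset

theorem b11_rp_one : rp 1 = 0 := by
  unfold rp
  simp

theorem b11_rp_pow (p e R : ℕ) (hp : p.Prime) (he : 1 ≤ e) (hR : 0 < R) (hpR : ¬ p ∣ R) :
    rp (p ^ e * R) = 1 / (p : ℝ) + rp R := by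
  unfold rp
  have hcop : Nat.Coprime (p ^ e) R := (hp.coprime_iff_not_dvd.mpr hpR).pow_left e
  rw [Nat.primeFactors_mul (pow_pos hp.pos e).ne' hR.ne',
    Nat.primeFactors_prime_pow (by omega) hp, ← Finset.insert_eq, Finset.sum_insert]
  intro h
  exact hpR (Nat.dvd_of_mem_primeFactors h)

/-- PROOF. Strong induction on `R`. `R = 1`: `f = 1` (`b5_one`, `b10_D`), `rp 1 = 0`. `R > 1`: a prime `p ∣ R`, `R = p^e R'`, `p ∤ R'`
(`Nat.exists_eq_pow_mul_and_not_dvd`), `e ≥ 1`, `p > y1`, so `p ∤ Q0` and `p ∤ Q0 R'`; induction hypothesis for `R'` (`rp (Q0 R') ≤ rp (Q0 R)`,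
`d5_rp_mono`), `b10_step` with `Q = Q0 R'`; `Q0 R' p^e = Q0 R`; `rp R = 1/p + rp R'`. -/
theorem b11_ind (W c0 : ℝ) (y1 : ℕ) (hW : 0 < W) (hy : W ≤ y1) (cl : ℕ → Finset ℕ)
    (hcl : ∀ m, (cl m).card ≤ 17 * m.divisors.card) (Q0 : ℕ) (hQ0 : 0 < Q0) (hp0 : ∀ p ∈ Q0.primeFactors, p ≤ y1) :
    ∀ R : ℕ, 0 < R → (∀ p ∈ R.primeFactors, y1 < p) → rp (Q0 * R) ≤ c0 →
      ∃ f : ℕ → ℝ, BDens (BD W y1) (Q0 * R) f ∧
        BAv (Q0 * R) (fun y => f y * Bind (BCov cl (Q0 * R)) y) ≤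
          BAv Q0 (Bind (BCov cl Q0)) + (83232 * Real.exp (2400 * c0) / W) * rp R := by
  intro R
  induction R using Nat.strong_induction_on with
  | _ R ih =>
    intro hR hRp hrp
    by_cases hR1 : R = 1
    · refine ⟨fun _ => 1, ?_, ?_⟩
      · rw [hR1, mul_one]
        exact b5_one (BD W y1) (fun p => (b10_D W y1 hW hy p).1) Q0 hQ0
      · rw [hR1, mul_one, b11_rp_one, mul_zero, add_zero]
        apply b10_mono
        intro x
        rw [one_mul]
    · obtain ⟨p, hp, hpR⟩ := Nat.exists_prime_and_dvd hR1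
      obtain ⟨e, R', hpR', hRe⟩ := Nat.exists_eq_pow_mul_and_not_dvd hR.ne' p hp.ne_one
      have he : 1 ≤ e := by
        rcases Nat.eq_zero_or_pos e with h0 | h0
        · exfalso
          rw [h0, pow_zero, one_mul] at hRe
          rw [hRe] at hpR
          exact hpR' hpR
        · exact h0
      have hR'0 : 0 < R' := by
        rcases Nat.eq_zero_or_pos R' with h0 | h0
        · exact absurd (h0 ▸ dvd_zero p) hpR'
        · exact h0
      have hpy : y1 < p := hRp p (Nat.mem_primeFactors.mpr ⟨hp, hpR, hR.ne'⟩)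
      have hpe2 : 2 ≤ p ^ e := by
        calc 2 ≤ p := hp.two_le
          _ = p ^ 1 := (pow_one p).symm
          _ ≤ p ^ e := Nat.pow_le_pow_right hp.pos he
      have hlt : R' < R := by
        rw [hRe]
        nlinarith
      have hdvd : R' ∣ R := by
        rw [hRe]
        exact Dvd.intro_left _ rfl
      have hrp' : rp (Q0 * R') ≤ c0 :=
        (d5_rp_mono (Nat.mul_dvd_mul_left Q0 hdvd) (Nat.mul_pos hQ0 hR).ne').trans hrp
      obtain ⟨f, hf, hfb⟩ := ih R' hlt hR'0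
        (fun q hq => hRp q (Nat.primeFactors_mono hdvd hR.ne' hq)) hrp'
      have hpQ : ¬ p ∣ Q0 * R' := by
        intro h
        rcases (Nat.Prime.dvd_mul hp).mp h with h1 | h1
        · have := hp0 p (Nat.mem_primeFactors.mpr ⟨hp, h1, hQ0.ne'⟩)
          omega
        · exact hpR' h1
      obtain ⟨f', hf', hfb'⟩ := b10_step W c0 y1 hW hy cl hcl (Q0 * R') p e hp he
        (Nat.mul_pos hQ0 hR'0) hpQ hpy hrp' f hf
      have hQR : Q0 * R' * p ^ e = Q0 * R := by
        rw [hRe]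
        ring
      rw [hQR] at hf' hfb'
      refine ⟨f', hf', hfb'.trans ?_⟩
      have hrpR : rp R = 1 / (p : ℝ) + rp R' := by
        rw [hRe]
        exact b11_rp_pow p e R' hp he hR'0 hpR'
      rw [hrpR]
      linarith

/-- Statement (10.1). PROOF. Choose `W = max 1 (4 · 83232 · exp(2400 c0) · c0)`, `y1 = ⌈W⌉₊`, `y0 = (68 · 23^y1)^2`, `c = exp(-(W c0))/2`.
Let `Q` with `rp Q ≤ c0`, `cl' m = if m ∣ Q ∧ y0 < m then cl m else ∅` (so `(cl' m).card ≤ 17 τ(m)` for all `m`),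
`Q0 = smo y1 Q`, `R = rou y1 Q` (`d5_split`, `d5_pos`, `d5_fact_smo`, `d5_fact_rou`: the primes of `Q0` are `≤ y1`, those of `R` are `> y1`).
`b11_ind`: `BAv Q (f 1_cov) ≤ BAv Q0 (Bind (BCov cl' Q0)) + (83232 exp(2400 c0)/W) rp R ≤ 1/4 + 1/4`: the first by `b9_cov`, `cl' m = ∅` for
`m ≤ y0` and `b9_small` (`17 · 23^y1/√y0 = 1/4`), the second by `rp R ≤ c0` and the choice of `W`.
So (mean `1`) `BAv Q (f (1 - 1_cov)) ≥ 1/2`, and `f ≤ ∏_{p ∣ Q} D p ≤ exp(W rp Q) ≤ exp(W c0)` (`1 + W/p ≤ exp(W/p)`, `1 ≤ exp(W/p)`), so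
`1/2 ≤ exp(W c0) #{x ∈ BU Q : not covered}/φ(Q)`; the uncovered `x` are exactly the elements of the set in the statement. -/
theorem b11_glob (c0 : ℝ) (hc0 : 0 ≤ c0) : ∃ (y0 : ℕ) (c : ℝ), 0 < c ∧ ∀ Q : ℕ, 0 < Q → rp Q ≤ c0 →
    ∀ cl : ℕ → Finset ℕ, (∀ m ∈ Q.divisors, y0 < m → (cl m).card ≤ 17 * m.divisors.card) →
    c * (Q.totient : ℝ) ≤
      (((BU Q).filter (fun x => ∀ m ∈ Q.divisors, y0 < m → ∀ c' ∈ cl m, ¬ x ≡ c' [MOD m])).card : ℝ) := by
  obtain ⟨W, hWd⟩ : ∃ W, W = max 1 (4 * (83232 * Real.exp (2400 * c0)) * c0) := ⟨_, rfl⟩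
  have hW1 : 1 ≤ W := by
    rw [hWd]
    exact le_max_left _ _
  have hW0 : 0 < W := by linarith
  have hW2 : 4 * (83232 * Real.exp (2400 * c0)) * c0 ≤ W := by
    rw [hWd]
    exact le_max_right _ _
  obtain ⟨y1, hy1⟩ : ∃ y1, y1 = ⌈W⌉₊ := ⟨_, rfl⟩
  have hy : W ≤ y1 := by
    rw [hy1]
    exact Nat.le_ceil W
  refine ⟨(68 * 23 ^ y1) ^ 2, Real.exp (-(W * c0)) / 2, by positivity, ?_⟩
  intro Q hQ hrp cl hcl
  classical
  obtain ⟨y0, hy0⟩ : ∃ y0, y0 = (68 * 23 ^ y1) ^ 2 := ⟨_, rfl⟩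
  rw [← hy0] at hcl ⊢
  have hy0p : 0 < y0 := by
    rw [hy0]
    positivity
  obtain ⟨cl', hcl'⟩ : ∃ cl' : ℕ → Finset ℕ, ∀ m, cl' m = if m ∣ Q ∧ y0 < m then cl m else ∅ :=
    ⟨fun m => _, fun m => rfl⟩
  have hc1 : ∀ m, (cl' m).card ≤ 17 * m.divisors.card := by
    intro m
    rw [hcl']
    split_ifs with h
    · exact hcl m (Nat.mem_divisors.mpr ⟨h.1, hQ.ne'⟩) h.2
    · simp
  obtain ⟨Q0, hQ0⟩ : ∃ Q0, Q0 = smo y1 Q := ⟨_, rfl⟩
  obtain ⟨R, hR⟩ : ∃ R, R = rou y1 Q := ⟨_, rfl⟩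
  have hQR : Q0 * R = Q := by
    rw [hQ0, hR]
    exact d5_split y1 Q hQ
  have hQ0p : 0 < Q0 := by
    rw [hQ0]
    exact (d5_pos y1 Q).1
  have hRp : 0 < R := by
    rw [hR]
    exact (d5_pos y1 Q).2
  have hpQ0 : ∀ p ∈ Q0.primeFactors, p ≤ y1 := by
    intro p hp
    by_contra h
    have h1 := d5_fact_smo y1 Q p
    rw [if_neg h, ← hQ0] at h1
    have h2 := (Nat.prime_of_mem_primeFactors hp).factorization_pos_of_dvd hQ0p.ne'
      (Nat.dvd_of_mem_primeFactors hp)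
    omega
  have hpR : ∀ p ∈ R.primeFactors, y1 < p := by
    intro p hp
    by_contra h
    have h1 := d5_fact_rou y1 Q p
    rw [if_neg h, ← hR] at h1
    have h2 := (Nat.prime_of_mem_primeFactors hp).factorization_pos_of_dvd hRp.ne'
      (Nat.dvd_of_mem_primeFactors hp)
    omega
  obtain ⟨f, hf, hfb⟩ := b11_ind W c0 y1 hW0 hy cl' hc1 Q0 hQ0p hpQ0 R hRp hpR
    (by rw [hQR]; exact hrp)
  rw [hQR] at hf hfb
  have hQ0Q : Q0 ∣ Q := by
    rw [← hQR]
    exact Dvd.intro _ rfl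
  have hRQ : R ∣ Q := by
    rw [← hQR]
    exact Dvd.intro_left _ rfl
  have ha1 : BAv Q0 (Bind (BCov cl' Q0)) ≤ 1 / 4 := by
    refine (b9_cov cl' Q0 hQ0p).trans ?_
    have h1 := b9_small y0 y1 hy0p Q0 hQ0p hpQ0
    have h2 : 17 * 23 ^ y1 / Real.sqrt y0 = 1 / 4 := by
      have h3 : Real.sqrt (y0 : ℝ) = 68 * 23 ^ y1 := by
        rw [hy0]
        push_cast
        exact Real.sqrt_sq (by positivity)
      rw [h3]
      have h4 : (0 : ℝ) < 23 ^ y1 := by positivity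
      field_simp
      norm_num
    rw [h2] at h1
    refine le_trans ?_ h1
    rw [← Finset.sum_filter_add_sum_filter_not Q0.divisors (fun m => y0 < m)]
    have h5 : ∑ m ∈ Q0.divisors.filter (fun m => ¬ y0 < m),
        ((cl' m).card : ℝ) / (m.totient : ℝ) = 0 := by
      apply sum_eq_zero
      intro m hm
      have h6 := (mem_filter.mp hm).2
      rw [hcl', if_neg (fun h => h6 h.2), card_empty, Nat.cast_zero, zero_div]
    rw [h5, add_zero]
    apply sum_le_sum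
    intro m _
    apply div_le_div_of_nonneg_right _ (Nat.cast_nonneg _)
    exact_mod_cast hc1 m
  have ha2 : (83232 * Real.exp (2400 * c0) / W) * rp R ≤ 1 / 4 := by
    have h1 : rp R ≤ c0 := (d5_rp_mono hRQ hQ.ne').trans hrp
    have h2 : 0 < 83232 * Real.exp (2400 * c0) := by positivity
    rw [div_mul_eq_mul_div, div_le_iff₀ hW0]
    have h3 : 83232 * Real.exp (2400 * c0) * rp R ≤ 83232 * Real.exp (2400 * c0) * c0 :=
      mul_le_mul_of_nonneg_left h1 h2.le
    linarith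
  have hcov : BAv Q (fun y => f y * Bind (BCov cl' Q) y) ≤ 1 / 2 := by linarith
  have hφ : (0 : ℝ) < (Q.totient : ℝ) := by
    exact_mod_cast Nat.totient_pos.mpr hQ
  have hprod : ∏ p ∈ Q.primeFactors, BD W y1 p ≤ Real.exp (W * c0) := by
    calc ∏ p ∈ Q.primeFactors, BD W y1 p ≤ ∏ p ∈ Q.primeFactors, Real.exp (W * (1 / p)) := by
          apply Finset.prod_le_prod
          · intro p _
            linarith [(b10_D W y1 hW0 hy p).1]
          · intro p _
            unfold BD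
            have h1 : (0 : ℝ) ≤ W * (1 / p) := by positivity
            split_ifs
            · exact Real.one_le_exp h1
            · have h2 := Real.add_one_le_exp (W * (1 / p))
              have h3 : W * (1 / p) = W / p := by ring
              linarith
      _ = Real.exp (W * rp Q) := by
          rw [← Real.exp_sum]
          unfold rp
          rw [mul_sum]
      _ ≤ Real.exp (W * c0) := Real.exp_le_exp.mpr (mul_le_mul_of_nonneg_left hrp hW0.le)
  obtain ⟨U, hU⟩ : ∃ U, U = (BU Q).filter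
      (fun x => ∀ m ∈ Q.divisors, y0 < m → ∀ c' ∈ cl m, ¬ x ≡ c' [MOD m]) := ⟨_, rfl⟩
  have hkey : (1 : ℝ) - BAv Q (fun y => f y * Bind (BCov cl' Q) y) ≤
      Real.exp (W * c0) * U.card / Q.totient := by
    rw [← hf.mean]
    unfold BAv
    rw [← sub_div, ← sum_sub_distrib]
    apply div_le_div_of_nonneg_right _ hφ.le
    have h1 : (Real.exp (W * c0) * U.card : ℝ) = ∑ x ∈ BU Q, if x ∈ U then Real.exp (W * c0) else 0 := by
      rw [← sum_filter]
      have h2 : (BU Q).filter (fun x => x ∈ U) = U := by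
        ext x
        rw [mem_filter]
        constructor
        · exact fun h => h.2
        · intro h
          refine ⟨?_, h⟩
          rw [hU] at h
          exact (mem_filter.mp h).1
      rw [h2, sum_const, nsmul_eq_mul, mul_comm]
    rw [h1]
    apply sum_le_sum
    intro x hx
    by_cases hxc : BCov cl' Q x
    · have h3 : Bind (BCov cl' Q) x = 1 := if_pos hxc
      rw [h3, mul_one, sub_self]
      split_ifs
      · positivity
      · exact le_refl _
    · have h3 : Bind (BCov cl' Q) x = 0 := if_neg hxc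
      have h4 : x ∈ U := by
        rw [hU, mem_filter]
        refine ⟨hx, ?_⟩
        intro m hm hym c' hc' hxc'
        apply hxc
        refine ⟨m, Nat.dvd_of_mem_divisors hm, c', ?_, hxc'⟩
        rw [hcl', if_pos ⟨Nat.dvd_of_mem_divisors hm, hym⟩]
        exact hc'
      rw [h3, mul_zero, sub_zero, if_pos h4]
      exact (hf.le x).trans hprod
  rw [← hU]
  have h7 : (1 : ℝ) / 2 ≤ Real.exp (W * c0) * U.card / Q.totient := by linarith
  rw [le_div_iff₀ hφ] at h7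
  have h8 : Real.exp (-(W * c0)) * Real.exp (W * c0) = 1 := by
    rw [← Real.exp_add]
    simp
  calc Real.exp (-(W * c0)) / 2 * (Q.totient : ℝ)
      = Real.exp (-(W * c0)) * (1 / 2 * (Q.totient : ℝ)) := by ring
    _ ≤ Real.exp (-(W * c0)) * (Real.exp (W * c0) * U.card) :=
        mul_le_mul_of_nonneg_left h7 (Real.exp_nonneg _)
    _ = U.card := by rw [← mul_assoc, h8, one_mul]

end Pool.Agent.H20G
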