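import Mathlib
import Pool.Agent.Lib.H20G.B0

set_option autoImplicit false

/-!
# H20G chunk B12: the truncation `primorial z * (S!)^2`, large primes of `q`
-/

namespace Pool.Agent.H20G

open Finset

/-- `z(q) = ⌊(log q)/10⌋` -/
noncomputable def zq (q : ℕ) : ℕ := ⌊Real.log q / 10⌋₊

/-- PROOF. Let `z = zq q`, `t` the number of primes `p ∣ q`, `p > z`. Their product divides `q`, so `z^t ≤ q`, `t log z ≤ log q ≤ 10 (z + 1)
≤ 20 z` (`z ≥ 1`), and each `1/p ≤ 1/z`, so the sum is at most `t/z ≤ 20/log z ≤ ε` once `z ≥ exp(20/ε)`, `z ≥ 2`, which holds for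
`q ≥ exp(10 (exp(20/ε) + 3))`. -/
theorem b12_primes (ε : ℝ) (hε : 0 < ε) : ∃ q0 : ℕ, ∀ q : ℕ, q0 ≤ q →
    ∑ p ∈ q.primeFactors.filter (fun p => zq q < p), 1 / (p : ℝ) ≤ ε := by
  obtain ⟨z0, hz0⟩ : ∃ z0 : ℕ, z0 = max 2 ⌈Real.exp (20 / ε)⌉₊ := ⟨_, rfl⟩
  refine ⟨⌈Real.exp (10 * (z0 + 1))⌉₊, fun q hq => ?_⟩
  have hq1 : Real.exp (10 * (z0 + 1)) ≤ q := (Nat.le_ceil _).trans (by exact_mod_cast hq)
  have hq0 : (0 : ℝ) < q := (Real.exp_pos _).trans_le hq1
  have hq0' : 0 < q := by exact_mod_cast hq0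
  have hlog : 10 * ((z0 : ℝ) + 1) ≤ Real.log q := by
    have := Real.log_le_log (Real.exp_pos _) hq1
    rwa [Real.log_exp] at this
  obtain ⟨z, hz⟩ : ∃ z : ℕ, z = zq q := ⟨_, rfl⟩
  rw [← hz]
  have hzz : z0 ≤ z := by
    rw [hz]
    unfold zq
    apply Nat.le_floor
    linarith
  have hz2 : 2 ≤ z := (le_max_left 2 _).trans (hz0 ▸ hzz)
  have hz2' : (2 : ℝ) ≤ z := by exact_mod_cast hz2
  have hzε : Real.exp (20 / ε) ≤ z := by
    refine (Nat.le_ceil _).trans ?_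
    exact_mod_cast (le_max_right 2 ⌈Real.exp (20 / ε)⌉₊).trans (hz0 ▸ hzz)
  have hlogz : 20 / ε ≤ Real.log z := by
    have := Real.log_le_log (Real.exp_pos _) hzε
    rwa [Real.log_exp] at this
  have hlq : Real.log q ≤ 20 * z := by
    have h1 : Real.log q / 10 < z + 1 := by
      rw [hz]
      exact Nat.lt_floor_add_one _
    linarith
  obtain ⟨F, hF⟩ : ∃ F : Finset ℕ, F = q.primeFactors.filter (fun p => z < p) := ⟨_, rfl⟩
  rw [← hF]
  have hFp : ∀ p ∈ F, z ≤ p := by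
    intro p hp
    rw [hF, mem_filter] at hp
    exact hp.2.le
  have hprod : ∏ p ∈ F, p ≤ q := by
    refine Nat.le_of_dvd hq0' ?_
    refine dvd_trans ?_ (Nat.prod_primeFactors_dvd q)
    rw [hF]
    exact Finset.prod_dvd_prod_of_subset _ _ _ (filter_subset _ _)
  have hpow : z ^ F.card ≤ q := by
    refine le_trans ?_ hprod
    rw [← Finset.prod_const]
    exact Finset.prod_le_prod' hFp
  have hlogz0 : 0 < Real.log z := lt_of_lt_of_le (by positivity) hlogz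
  have ht : (F.card : ℝ) * Real.log z ≤ 20 * z := by
    have h1 : ((z : ℝ)) ^ F.card ≤ q := by exact_mod_cast hpow
    have h2 := Real.log_le_log (by positivity) h1
    rw [Real.log_pow] at h2
    linarith
  have hsum : ∑ p ∈ F, 1 / (p : ℝ) ≤ F.card * (1 / (z : ℝ)) := by
    refine (Finset.sum_le_card_nsmul F _ (1 / (z : ℝ)) ?_).trans (le_of_eq (nsmul_eq_mul _ _))
    intro p hp
    exact one_div_le_one_div_of_le (by linarith) (by exact_mod_cast hFp p hp)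
  refine hsum.trans ?_
  rw [mul_one_div, div_le_iff₀ (by linarith)]
  have h3 : (F.card : ℝ) * (20 / ε) ≤ 20 * z :=
    (mul_le_mul_of_nonneg_left hlogz (Nat.cast_nonneg _)).trans ht
  rw [mul_div_assoc', div_le_iff₀ hε] at h3
  linarith

/-- PROOF. `primorial z ≤ 4^z` (`primorial_le_four_pow`) `= exp(z log 4) ≤ exp(2 z) ≤ exp((log q)/5) = q^(1/5)` for `q ≥ 1` (`Nat.floor_le`), and
`(S!)² ≤ q^(3/10)` for `q ≥ (S!)^8`. -/
theorem b12_N (S : ℕ) : ∃ q0 : ℕ, ∀ q : ℕ, q0 ≤ q →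
    ((primorial (zq q) * (S.factorial) ^ 2 : ℕ) : ℝ) ≤ (q : ℝ) ^ (1 / 2 : ℝ) := by
  refine ⟨S.factorial ^ 8, fun q hq => ?_⟩
  have hS : 1 ≤ S.factorial := Nat.succ_le_of_lt S.factorial_pos
  have hS' : (1 : ℝ) ≤ S.factorial := by exact_mod_cast hS
  have hq1 : 1 ≤ q := (Nat.one_le_pow _ _ S.factorial_pos).trans hq
  have hq1' : (1 : ℝ) ≤ q := by exact_mod_cast hq1
  have hq0 : (0 : ℝ) < q := by linarith
  have hqS : (S.factorial : ℝ) ^ 8 ≤ q := by exact_mod_cast hq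
  have hlog : 0 ≤ Real.log q := Real.log_nonneg hq1'
  have h1 : ((primorial (zq q) : ℕ) : ℝ) ≤ (q : ℝ) ^ (1 / 5 : ℝ) := by
    have h2 : ((primorial (zq q) : ℕ) : ℝ) ≤ (4 : ℝ) ^ (zq q) := by
      exact_mod_cast primorial_le_four_pow (zq q)
    refine h2.trans ?_
    have h3 : ((zq q : ℕ) : ℝ) ≤ Real.log q / 10 := Nat.floor_le (by positivity)
    have h4 : Real.log 4 ≤ 2 := by
      have h5 : Real.log 4 = 2 * Real.log 2 := by
        rw [show (4 : ℝ) = 2 ^ 2 by norm_num, Real.log_pow]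
        norm_num
      have h6 := Real.log_two_lt_d9
      linarith
    have h4' : 0 ≤ Real.log 4 := Real.log_nonneg (by norm_num)
    rw [← Real.rpow_natCast, Real.rpow_def_of_pos (by norm_num), Real.rpow_def_of_pos hq0]
    apply Real.exp_le_exp.2
    calc Real.log 4 * ((zq q : ℕ) : ℝ) ≤ 2 * (Real.log q / 10) :=
          mul_le_mul h4 h3 (Nat.cast_nonneg _) (by norm_num)
      _ = Real.log q * (1 / 5) := by ring
  have h7 : ((S.factorial : ℝ)) ^ 2 ≤ (q : ℝ) ^ (3 / 10 : ℝ) := by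
    have h8 : ((S.factorial : ℝ) ^ 8) ^ (3 / 10 : ℝ) ≤ (q : ℝ) ^ (3 / 10 : ℝ) :=
      Real.rpow_le_rpow (by positivity) hqS (by norm_num)
    refine le_trans ?_ h8
    rw [← Real.rpow_natCast, ← Real.rpow_natCast, ← Real.rpow_mul (by positivity)]
    apply Real.rpow_le_rpow_of_exponent_le hS'
    norm_num
  calc ((primorial (zq q) * (S.factorial) ^ 2 : ℕ) : ℝ)
      = ((primorial (zq q) : ℕ) : ℝ) * ((S.factorial : ℝ)) ^ 2 := by push_cast; ring
    _ ≤ (q : ℝ) ^ (1 / 5 : ℝ) * (q : ℝ) ^ (3 / 10 : ℝ) :=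
        mul_le_mul h1 h7 (by positivity) (by positivity)
    _ = (q : ℝ) ^ (1 / 2 : ℝ) := by
        rw [← Real.rpow_add hq0]
        norm_num

/-- PROOF. Suppose all primes dividing `m` are `≤ z` and there is no such `s`. `m = b² a`, `a` squarefree (`Nat.sq_mul_squarefree`),
`b ≥ 1`. `b ≤ S`, so `b ∣ S!` (`Nat.dvd_factorial`), `b² ∣ (S!)²`. `a` is squarefree with all primes `≤ z`, so it divides the product of
all primes `≤ z` (`a = ∏_{p ∣ a} p`, `Nat.prod_primeFactors_of_squarefree`, `Finset.prod_dvd_prod_of_subset`). So `m` divides the product. -/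
theorem b12_dvd (z S m : ℕ) (hm : 0 < m) (h : ¬ m ∣ primorial z * (S.factorial) ^ 2) :
    (∃ p : ℕ, p.Prime ∧ z < p ∧ p ∣ m) ∨ ∃ s : ℕ, S < s ∧ s ^ 2 ∣ m := by
  by_contra hcon
  push Not at hcon
  obtain ⟨h1, h2⟩ := hcon
  apply h
  obtain ⟨a, b, ha, hb, hab, hsq⟩ := Nat.sq_mul_squarefree_of_pos hm
  have hbm : b ^ 2 ∣ m := ⟨a, hab.symm⟩
  have ham : a ∣ m := ⟨b ^ 2, by rw [← hab, mul_comm]⟩
  have hbS : b ≤ S := by
    by_contra hlt
    exact h2 b (not_le.1 hlt) hbm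
  have hb2 : b ^ 2 ∣ S.factorial ^ 2 := pow_dvd_pow_of_dvd (Nat.dvd_factorial hb hbS) 2
  have ha2 : a ∣ primorial z := by
    rw [← Nat.prod_primeFactors_of_squarefree hsq]
    unfold primorial
    apply Finset.prod_dvd_prod_of_subset
    intro p hp
    have hpp := Nat.prime_of_mem_primeFactors hp
    have hpa := Nat.dvd_of_mem_primeFactors hp
    rw [mem_filter, mem_range]
    refine ⟨?_, hpp⟩
    by_contra hlt
    exact h1 p hpp (by omega) (hpa.trans ham)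
  rw [← hab, mul_comm]
  exact mul_dvd_mul ha2 hb2

end Pool.Agent.H20G
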