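import Mathlib
import Pool.Agent.Lib.H20G.B0
import Pool.Agent.Lib.H20G.B12
import Pool.Agent.Lib.H20G.D2
import Pool.Agent.Lib.H21AP.DivisorBound

set_option autoImplicit false

/-!
# H20G chunk B13: sums over the divisors of `q` not dividing the truncation
-/

namespace Pool.Agent.H20G

open Finset

/-- PROOF. The divisors `m` of `q` divisible by `d` are `d m'`, `m' ∣ q` (`m' = m/d`, injective map into `q.divisors`), and
`τ(d m') ≤ τ(d) τ(m')` (`Nat.divisors_mul` is the pointwise product: `Finset.card_mul_le`). -/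
theorem b13_mul (d q : ℕ) (hq : 0 < q) (hd : d ∣ q) :
    ∑ m ∈ q.divisors.filter (fun m => d ∣ m), (m.divisors.card : ℝ) / m ≤
      ((d.divisors.card : ℝ) / d) * ∑ m ∈ q.divisors, (m.divisors.card : ℝ) / m := by
  have hd0 : 0 < d := Nat.pos_of_dvd_of_pos hd hq
  have h1 : q.divisors.filter (fun m => d ∣ m) ⊆ q.divisors.image (fun m => d * m) := by
    intro m hm
    rw [mem_filter] at hm
    obtain ⟨hm, ⟨k, rfl⟩⟩ := hm
    rw [mem_image]
    refine ⟨k, ?_, rfl⟩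
    rw [Nat.mem_divisors] at hm ⊢
    exact ⟨(Dvd.intro_left d rfl).trans hm.1, hm.2⟩
  refine (Finset.sum_le_sum_of_subset_of_nonneg h1 (fun m _ _ => by positivity)).trans ?_
  rw [Finset.sum_image (fun x _ y _ hxy => Nat.eq_of_mul_eq_mul_left hd0 hxy), Finset.mul_sum]
  refine Finset.sum_le_sum fun m hm => ?_
  have hm0 : 0 < m := Nat.pos_of_mem_divisors hm
  have h2 : ((d * m).divisors.card : ℝ) ≤ d.divisors.card * m.divisors.card := by
    have h3 : (d * m).divisors.card ≤ d.divisors.card * m.divisors.card := by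
      rw [Nat.divisors_mul]
      exact Finset.card_mul_le
    exact_mod_cast h3
  have hd' : (0 : ℝ) < d := by exact_mod_cast hd0
  have hm' : (0 : ℝ) < m := by exact_mod_cast hm0
  rw [div_mul_div_comm]
  push_cast
  exact div_le_div_of_nonneg_right h2 (by positivity)

/-- PROOF. Divisor bound with exponent `1/4` (`divisor_bound` of `Pool.Agent.Lib.H21AP.DivisorBound`):
`τ(s²)/s² ≤ C s^(1/2)/s² = C s^(-3/2)`, and `∑ s^(-3/2)` converges (`Real.summable_nat_rpow_inv` or `Real.summable_one_div_nat_rpow`), so its tails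
tend to `0` (e.g. `tendsto_sum_nat_add`, `Summable.sum_add_tsum_nat_add`, or explicitly `s^(-3/2) ≤ 4 (1/√(s-1) - 1/√s)`...). -/
theorem b13_sq (ε : ℝ) (hε : 0 < ε) : ∃ S : ℕ, ∀ T : ℕ,
    ∑ s ∈ Ioc S T, (((s ^ 2).divisors.card : ℝ) / ((s : ℝ) ^ 2)) ≤ ε := by
  obtain ⟨C, hC, hdiv⟩ := Pool.Agent.Lib.H21AP.divisor_bound (ε := 1 / 4) (by norm_num)
  obtain ⟨f, hf⟩ : ∃ f : ℕ → ℝ, f = fun s : ℕ => C * (1 / (s : ℝ) ^ (3 / 2 : ℝ)) := ⟨_, rfl⟩
  have hf0 : ∀ s, 0 ≤ f s := by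
    intro s
    rw [hf]
    positivity
  have hsum : Summable f := by
    rw [hf]
    exact (Real.summable_one_div_nat_rpow.2 (by norm_num)).mul_left C
  have htend := hsum.hasSum.tendsto_sum_nat
  have hev := htend.eventually (lt_mem_nhds (show ∑' s, f s - ε < ∑' s, f s by linarith))
  obtain ⟨S, hS⟩ := (hev.and (Filter.eventually_ge_atTop 1)).exists
  obtain ⟨hS1, hS2⟩ := hS
  refine ⟨S - 1, fun T => ?_⟩
  have h1 : ∀ s ∈ Ioc (S - 1) T, (((s ^ 2).divisors.card : ℝ) / ((s : ℝ) ^ 2)) ≤ f s := by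
    intro s hs
    have hs1 : 1 ≤ s := by
      have := (mem_Ioc.1 hs).1
      omega
    have hs1' : (0 : ℝ) < s := by exact_mod_cast hs1
    have h2 := hdiv (s ^ 2) (Nat.one_le_pow _ _ hs1)
    have h3 : (((s ^ 2 : ℕ) : ℝ)) ^ (1 / 4 : ℝ) = (s : ℝ) ^ (1 / 2 : ℝ) := by
      push_cast
      rw [← Real.rpow_natCast, ← Real.rpow_mul hs1'.le]
      norm_num
    rw [h3] at h2
    rw [hf]
    have h4 : (s : ℝ) ^ (1 / 2 : ℝ) / (s : ℝ) ^ 2 = 1 / (s : ℝ) ^ (3 / 2 : ℝ) := by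
      rw [← Real.rpow_natCast, ← Real.rpow_sub hs1', one_div ((s : ℝ) ^ (3 / 2 : ℝ)),
        ← Real.rpow_neg hs1'.le]
      norm_num
    calc (((s ^ 2).divisors.card : ℝ) / ((s : ℝ) ^ 2))
        ≤ (C * (s : ℝ) ^ (1 / 2 : ℝ)) / (s : ℝ) ^ 2 := div_le_div_of_nonneg_right h2 (by positivity)
      _ = C * (1 / (s : ℝ) ^ (3 / 2 : ℝ)) := by rw [mul_div_assoc, h4]
  refine (Finset.sum_le_sum h1).trans ?_
  have hdisj : Disjoint (range S) (Ioc (S - 1) T) := by
    rw [Finset.disjoint_left]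
    intro a ha hb
    rw [mem_range] at ha
    rw [mem_Ioc] at hb
    omega
  have h5 := hsum.sum_le_tsum (range S ∪ Ioc (S - 1) T) (fun i _ => hf0 i)
  rw [Finset.sum_union hdisj] at h5
  linarith

/-- PROOF. `M = exp(200 c0)`; `∑_{m ∣ q} τ(m)/m ≤ ∑ τ(m)^3/m ≤ M` (`d2_tau`, `τ(m) ≥ 1`). Let `S` be from `b13_sq` with `ε/(2 M)`, and `q0` from
`b12_primes` with `ε/(4 M)` (and `q0 ≥ 1`). By `b12_dvd` every `m` of the sum is divisible by a prime `p > zq q` (which divides `q`) or by `s²`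
with `s > S` (then `s² ∣ q` and `s ≤ q`). So the sum is at most
`∑_{p ∣ q, p > zq q} ∑_{m ∣ q, p ∣ m} τ(m)/m + ∑_{s ∈ Ioc S q, s² ∣ q} ∑_{m ∣ q, s² ∣ m} τ(m)/m ≤ M ∑ 2/p + M ∑ τ(s²)/s² ≤ ε` (`b13_mul`). -/
theorem b13_bad (c0 ε : ℝ) (hε : 0 < ε) : ∃ S q0 : ℕ, ∀ q : ℕ, q0 ≤ q → rp q ≤ c0 →
    ∑ m ∈ q.divisors.filter (fun m => ¬ m ∣ primorial (zq q) * (S.factorial) ^ 2), (m.divisors.card : ℝ) / m ≤ ε := by
  obtain ⟨M, hM⟩ : ∃ M : ℝ, M = Real.exp (200 * c0) := ⟨_, rfl⟩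
  have hM0 : 0 < M := by
    rw [hM]
    exact Real.exp_pos _
  obtain ⟨S, hS⟩ := b13_sq (ε / (2 * M)) (by positivity)
  obtain ⟨q0, hq0⟩ := b12_primes (ε / (4 * M)) (by positivity)
  refine ⟨S, max 1 q0, fun q hq hrp => ?_⟩
  have hq1 : 0 < q := lt_of_lt_of_le zero_lt_one ((le_max_left _ _).trans hq)
  obtain ⟨f, hf⟩ : ∃ f : ℕ → ℝ, f = fun m : ℕ => (m.divisors.card : ℝ) / m := ⟨_, rfl⟩
  have hf0 : ∀ m, 0 ≤ f m := by
    intro m
    rw [hf]
    positivity
  have hfe : ∀ m, (m.divisors.card : ℝ) / m = f m := fun m => by rw [hf]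
  have htot : ∑ m ∈ q.divisors, f m ≤ M := by
    refine le_trans ?_ ((d2_tau q hq1).trans ?_)
    · refine Finset.sum_le_sum fun m hm => ?_
      rw [← hfe]
      have hm0 : 0 < m := Nat.pos_of_mem_divisors hm
      have h1 : (1 : ℝ) ≤ m.divisors.card := by
        exact_mod_cast Nat.succ_le_of_lt (Finset.card_pos.2 (Nat.nonempty_divisors.2 hm0.ne'))
      refine div_le_div_of_nonneg_right ?_ (Nat.cast_nonneg _)
      nlinarith [mul_nonneg (sub_nonneg.2 h1) (sub_nonneg.2 h1)]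
    · rw [hM]
      apply Real.exp_le_exp.2
      linarith
  obtain ⟨F, hF⟩ : ∃ F : Finset ℕ, F = q.primeFactors.filter (fun p => zq q < p) := ⟨_, rfl⟩
  obtain ⟨G, hG⟩ : ∃ G : Finset ℕ, G = (Ioc S q).filter (fun s => s ^ 2 ∣ q) := ⟨_, rfl⟩
  have hstep : ∑ m ∈ q.divisors.filter (fun m => ¬ m ∣ primorial (zq q) * (S.factorial) ^ 2), f m ≤
      ∑ m ∈ q.divisors, (∑ p ∈ F, (if p ∣ m then f m else 0) +
        ∑ s ∈ G, (if s ^ 2 ∣ m then f m else 0)) := by
    rw [Finset.sum_filter]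
    refine Finset.sum_le_sum fun m hm => ?_
    have hn1 : 0 ≤ ∑ p ∈ F, (if p ∣ m then f m else 0) :=
      Finset.sum_nonneg fun p _ => by split_ifs; exacts [hf0 m, le_rfl]
    have hn2 : 0 ≤ ∑ s ∈ G, (if s ^ 2 ∣ m then f m else 0) :=
      Finset.sum_nonneg fun p _ => by split_ifs; exacts [hf0 m, le_rfl]
    by_cases hbad : m ∣ primorial (zq q) * (S.factorial) ^ 2
    · rw [if_neg (not_not.2 hbad)]
      linarith
    · rw [if_pos hbad]
      have hm0 : 0 < m := Nat.pos_of_mem_divisors hm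
      have hmq : m ∣ q := Nat.dvd_of_mem_divisors hm
      rcases b12_dvd (zq q) S m hm0 hbad with ⟨p, hp, hzp, hpm⟩ | ⟨t, ht, htm⟩
      · have hpF : p ∈ F := by
          rw [hF, mem_filter]
          exact ⟨Nat.mem_primeFactors.2 ⟨hp, hpm.trans hmq, hq1.ne'⟩, hzp⟩
        have h1 := Finset.single_le_sum (f := fun p => if p ∣ m then f m else 0)
          (fun p _ => by split_ifs; exacts [hf0 m, le_rfl]) hpF
        simp only [if_pos hpm] at h1
        linarith
      · have htG : t ∈ G := by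
          rw [hG, mem_filter, mem_Ioc]
          refine ⟨⟨ht, ?_⟩, htm.trans hmq⟩
          have h2 : t ^ 2 ≤ q := Nat.le_of_dvd hq1 (htm.trans hmq)
          nlinarith
        have h1 := Finset.single_le_sum (f := fun s => if s ^ 2 ∣ m then f m else 0)
          (fun p _ => by split_ifs; exacts [hf0 m, le_rfl]) htG
        simp only [if_pos htm] at h1
        linarith
  simp only [hfe]
  refine hstep.trans ?_
  rw [Finset.sum_add_distrib, Finset.sum_comm (s := q.divisors) (t := F),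
    Finset.sum_comm (s := q.divisors) (t := G)]
  simp only [← Finset.sum_filter]
  have h1 : ∑ p ∈ F, ∑ m ∈ q.divisors.filter (fun m => p ∣ m), f m ≤ ε / 2 := by
    have h2 : ∀ p ∈ F, ∑ m ∈ q.divisors.filter (fun m => p ∣ m), f m ≤ (2 * M) * (1 / (p : ℝ)) := by
      intro p hp
      rw [hF, mem_filter] at hp
      have hpp := Nat.prime_of_mem_primeFactors hp.1
      have h3 := b13_mul p q hq1 (Nat.dvd_of_mem_primeFactors hp.1)
      simp only [hfe] at h3
      have h4 : f p = 2 * (1 / (p : ℝ)) := by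
        rw [hf]
        simp only [hpp.divisors]
        rw [Finset.card_pair hpp.one_lt.ne]
        push_cast
        ring
      rw [h4] at h3
      refine h3.trans ?_
      have hp0 : (0 : ℝ) ≤ 2 * (1 / (p : ℝ)) := by positivity
      have h5 := mul_le_mul_of_nonneg_left htot hp0
      linarith
    refine (Finset.sum_le_sum h2).trans ?_
    rw [← Finset.mul_sum]
    have h6 := hq0 q ((le_max_right _ _).trans hq)
    rw [← hF] at h6
    calc (2 * M) * ∑ p ∈ F, 1 / (p : ℝ) ≤ (2 * M) * (ε / (4 * M)) :=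
          mul_le_mul_of_nonneg_left h6 (by positivity)
      _ = ε / 2 := by
          rw [mul_div_assoc', div_eq_div_iff (by positivity) two_ne_zero]
          ring
  have h7 : ∑ s ∈ G, ∑ m ∈ q.divisors.filter (fun m => s ^ 2 ∣ m), f m ≤ ε / 2 := by
    have h2 : ∀ s ∈ G, ∑ m ∈ q.divisors.filter (fun m => s ^ 2 ∣ m), f m ≤
        M * (((s ^ 2).divisors.card : ℝ) / ((s : ℝ) ^ 2)) := by
      intro t ht
      rw [hG, mem_filter] at ht
      have h3 := b13_mul (t ^ 2) q hq1 ht.2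
      have h4 : (((t ^ 2).divisors.card : ℝ) / ((t ^ 2 : ℕ) : ℝ)) =
          (((t ^ 2).divisors.card : ℝ) / ((t : ℝ) ^ 2)) := by push_cast; rfl
      rw [h4] at h3
      simp only [hfe] at h3
      refine h3.trans ?_
      have h5 : (0 : ℝ) ≤ (((t ^ 2).divisors.card : ℝ) / ((t : ℝ) ^ 2)) :=
        div_nonneg (Nat.cast_nonneg _) (sq_nonneg _)
      have h6 := mul_le_mul_of_nonneg_left htot h5
      linarith
    refine (Finset.sum_le_sum h2).trans ?_
    rw [← Finset.mul_sum]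
    have h6 : ∑ s ∈ G, (((s ^ 2).divisors.card : ℝ) / ((s : ℝ) ^ 2)) ≤ ε / (2 * M) := by
      refine le_trans ?_ (hS q)
      rw [hG]
      exact Finset.sum_le_sum_of_subset_of_nonneg (filter_subset _ _)
        (fun _ _ _ => div_nonneg (Nat.cast_nonneg _) (sq_nonneg _))
    calc M * ∑ s ∈ G, (((s ^ 2).divisors.card : ℝ) / ((s : ℝ) ^ 2)) ≤ M * (ε / (2 * M)) :=
          mul_le_mul_of_nonneg_left h6 hM0.le
      _ = ε / 2 := by
          rw [mul_div_assoc', div_eq_div_iff (by positivity) two_ne_zero]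
          ring
  linarith

end Pool.Agent.H20G
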