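import Mathlib
import Pool.Agent.Lib.H20G.B0

set_option autoImplicit false

/-!
# H20G chunk B14: counting in intervals
-/

namespace Pool.Agent.H20G

open Finset
open scoped Classical

theorem b14_card (u c : ℤ) (n m : ℕ) (hm : 0 < m) :
    (((Ico u (u + n)).filter (fun P : ℤ => P ≡ c [ZMOD m])).card : ℝ) ≤ (n : ℝ) / m + 1 ∧
    (n : ℝ) / m - 1 ≤ (((Ico u (u + n)).filter (fun P : ℤ => P ≡ c [ZMOD m])).card : ℝ) := by
  have hm' : (0 : ℤ) < m := by exact_mod_cast hm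
  have h := Int.Ico_filter_modEq_card u (u + n) hm' c
  obtain ⟨x, hx⟩ : ∃ x : ℚ, x = ((u : ℚ) - c) / m := ⟨_, rfl⟩
  obtain ⟨y, hy⟩ : ∃ y : ℚ, y = (((u + n : ℤ) : ℚ) - c) / m := ⟨_, rfl⟩
  have hxy : y = x + n / m := by
    rw [hx, hy]
    push_cast
    ring
  have h1 : ((((Ico u (u + n)).filter (fun P : ℤ => P ≡ c [ZMOD m])).card : ℤ)) =
      max (⌈y⌉ - ⌈x⌉) 0 := by
    rw [hx, hy]
    convert h using 4
    all_goals simp
  have h2 := Int.le_ceil x
  have h3 := Int.ceil_lt_add_one x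
  have h4 := Int.le_ceil y
  have h5 := Int.ceil_lt_add_one y
  have h6 : (0 : ℚ) ≤ n / m := by positivity
  have h7 : ((((Ico u (u + n)).filter (fun P : ℤ => P ≡ c [ZMOD m])).card : ℚ)) ≤ n / m + 1 ∧
      (n : ℚ) / m - 1 ≤ ((((Ico u (u + n)).filter (fun P : ℤ => P ≡ c [ZMOD m])).card : ℚ)) := by
    have h8 : ((((Ico u (u + n)).filter (fun P : ℤ => P ≡ c [ZMOD m])).card : ℚ)) =
        (((((Ico u (u + n)).filter (fun P : ℤ => P ≡ c [ZMOD m])).card : ℤ)) : ℚ) := by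
      push_cast
      rfl
    rw [h8, h1]
    push_cast
    constructor
    · exact max_le (by linarith) (by linarith)
    · exact le_max_of_le_left (by linarith)
  have h9 := (Rat.cast_le (K := ℝ)).2 h7.1
  have h10 := (Rat.cast_le (K := ℝ)).2 h7.2
  push_cast at h9 h10
  exact ⟨h9, h10⟩

/-- PROOF. `Int.Ico_filter_modEq_card`: the cardinality is `max (⌈(b - c)/m⌉ - ⌈(a - c)/m⌉) 0` with `b - a = n`, and `⌈x + n/m⌉ - ⌈x⌉ < n/m + 1`. -/
theorem b14_cls (u c : ℤ) (n m : ℕ) (hm : 0 < m) :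
    (((Ico u (u + n)).filter (fun P : ℤ => P ≡ c [ZMOD m])).card : ℝ) ≤ (n : ℝ) / m + 1 := by
  have h := (b14_card u c n m hm).1
  have e : (Ico u (u + n)).filter (fun P : ℤ => P ≡ c [ZMOD m]) =
      {P ∈ Ico u (u + n) | P ≡ c [ZMOD m]} := by
    ext P
    simp only [mem_filter]
  rw [e]
  convert h

/-- PROOF. The set is the disjoint union over `t ∈ T` of `{P ∈ Ico u (u + n) : P ≡ t [ZMOD Q]}` (for `t < Q`: `(P % Q).toNat = t ↔ P % Q = t ↔
P ≡ t [ZMOD Q]`), each of which has at least `n/Q - 1` elements (`Int.Ico_filter_modEq_card`, `⌈x + n/Q⌉ - ⌈x⌉ > n/Q - 1`). -/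
theorem b14_per (Q : ℕ) (hQ : 0 < Q) (T : Finset ℕ) (hT : T ⊆ range Q) (u : ℤ) (n : ℕ) :
    ((n : ℝ) / Q - 1) * T.card ≤ (((Ico u (u + n)).filter (fun P : ℤ => (P % (Q : ℤ)).toNat ∈ T)).card : ℝ) := by
  have hQ' : (0 : ℤ) < Q := by exact_mod_cast hQ
  have h1 : (Ico u (u + n)).filter (fun P : ℤ => (P % (Q : ℤ)).toNat ∈ T) =
      T.biUnion fun t => (Ico u (u + n)).filter (fun P : ℤ => P ≡ (t : ℤ) [ZMOD Q]) := by
    ext P
    simp only [mem_filter, mem_biUnion]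
    constructor
    · rintro ⟨h2, h3⟩
      refine ⟨_, h3, h2, ?_⟩
      have h4 : 0 ≤ P % (Q : ℤ) := Int.emod_nonneg _ hQ'.ne'
      rw [Int.toNat_of_nonneg h4]
      exact (Int.mod_modEq P Q).symm
    · rintro ⟨t, ht, h2, h3⟩
      refine ⟨h2, ?_⟩
      have h4 : t < Q := mem_range.1 (hT ht)
      have h5 : P % (Q : ℤ) = t := by
        have h6 : P % (Q : ℤ) = (t : ℤ) % Q := h3
        rw [h6]
        exact Int.emod_eq_of_lt (by positivity) (by exact_mod_cast h4)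
      rw [h5]
      simpa using ht
  rw [h1, card_biUnion]
  · push_cast
    have h2 : ∀ t ∈ T, (n : ℝ) / Q - 1 ≤
        (((Ico u (u + n)).filter (fun P : ℤ => P ≡ (t : ℤ) [ZMOD Q])).card : ℝ) := by
      intro t _
      convert (b14_card u t n Q hQ).2
    have h3 := Finset.card_nsmul_le_sum T _ _ h2
    rw [nsmul_eq_mul] at h3
    linarith
  · intro t ht t' ht' htt
    show Disjoint _ _
    rw [Finset.disjoint_left]
    intro P hP hP'
    rw [mem_filter] at hP hP'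
    apply htt
    have h4 : t < Q := mem_range.1 (hT ht)
    have h5 : t' < Q := mem_range.1 (hT ht')
    have h6 : (t : ℤ) % Q = (t' : ℤ) % Q := hP.2.symm.trans hP'.2
    rw [Int.emod_eq_of_lt (by positivity) (by exact_mod_cast h4),
      Int.emod_eq_of_lt (by positivity) (by exact_mod_cast h5)] at h6
    exact_mod_cast h6

end Pool.Agent.H20G
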