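import Mathlib
import Pool.Agent.Lib.H20G.B0
import Pool.Agent.Lib.H21AP.DivisorBound

set_option autoImplicit false

/-!
# H20G chunk B15: numerical facts
-/

namespace Pool.Agent.H20G

open Finset

/-- PROOF. `divisor_bound` (`Pool.Agent.Lib.H21AP.DivisorBound`) with exponent `1/5`: `τ(q) ≤ C q^(1/5)`, and `ω(q) ≤ τ(q) ≤ τ(q)²`. So the left side is at
most `(18 C² + 2) q^(3/5) ≤ η q` for `q ≥ ((18 C² + 2)/η)^(5/2)`, `q ≥ 1`. -/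
theorem b15_small (η : ℝ) (hη : 0 < η) : ∃ q0 : ℕ, ∀ q : ℕ, q0 ≤ q →
    (q.primeFactors.card : ℝ) + 17 * (q.divisors.card : ℝ) ^ 2 + (q : ℝ) ^ (3 / 5 : ℝ) + (q : ℝ) ^ (1 / 2 : ℝ) ≤ η * q := by
  obtain ⟨C, hC, hdiv⟩ := Pool.Agent.Lib.H21AP.divisor_bound (ε := 1 / 5) (by norm_num)
  obtain ⟨K, hK⟩ : ∃ K : ℝ, K = C + 17 * C ^ 2 + 2 := ⟨_, rfl⟩
  have hK0 : 0 < K := by
    rw [hK]
    positivity
  refine ⟨max 1 ⌈(K / η) ^ (5 / 2 : ℝ)⌉₊, fun q hq => ?_⟩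
  have hq1 : 1 ≤ q := (le_max_left _ _).trans hq
  have hq1' : (1 : ℝ) ≤ q := by exact_mod_cast hq1
  have hq0 : (0 : ℝ) < q := by linarith
  have hqK : (K / η) ^ (5 / 2 : ℝ) ≤ q :=
    (Nat.le_ceil _).trans (by exact_mod_cast (le_max_right 1 ⌈(K / η) ^ (5 / 2 : ℝ)⌉₊).trans hq)
  have hτ := hdiv q hq1
  have hω : (q.primeFactors.card : ℝ) ≤ q.divisors.card := by
    have h1 : q.primeFactors ⊆ q.divisors := by
      intro p hp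
      exact Nat.mem_divisors.2 ⟨Nat.dvd_of_mem_primeFactors hp, by omega⟩
    exact_mod_cast card_le_card h1
  have h15 : (q : ℝ) ^ (1 / 5 : ℝ) ≤ (q : ℝ) ^ (3 / 5 : ℝ) :=
    Real.rpow_le_rpow_of_exponent_le hq1' (by norm_num)
  have h25 : ((q : ℝ) ^ (1 / 5 : ℝ)) ^ 2 ≤ (q : ℝ) ^ (3 / 5 : ℝ) := by
    rw [← Real.rpow_natCast, ← Real.rpow_mul hq0.le]
    exact Real.rpow_le_rpow_of_exponent_le hq1' (by norm_num)
  have h12 : (q : ℝ) ^ (1 / 2 : ℝ) ≤ (q : ℝ) ^ (3 / 5 : ℝ) :=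
    Real.rpow_le_rpow_of_exponent_le hq1' (by norm_num)
  have hτ2 : (q.divisors.card : ℝ) ^ 2 ≤ C ^ 2 * (q : ℝ) ^ (3 / 5 : ℝ) := by
    calc (q.divisors.card : ℝ) ^ 2 ≤ (C * (q : ℝ) ^ (1 / 5 : ℝ)) ^ 2 :=
          pow_le_pow_left₀ (Nat.cast_nonneg _) hτ 2
      _ = C ^ 2 * ((q : ℝ) ^ (1 / 5 : ℝ)) ^ 2 := by ring
      _ ≤ C ^ 2 * (q : ℝ) ^ (3 / 5 : ℝ) := mul_le_mul_of_nonneg_left h25 (by positivity)
  have hτ1 : C * (q : ℝ) ^ (1 / 5 : ℝ) ≤ C * (q : ℝ) ^ (3 / 5 : ℝ) :=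
    mul_le_mul_of_nonneg_left h15 hC.le
  have hbig : K / η ≤ (q : ℝ) ^ (2 / 5 : ℝ) := by
    have h1 : ((K / η) ^ (5 / 2 : ℝ)) ^ (2 / 5 : ℝ) ≤ (q : ℝ) ^ (2 / 5 : ℝ) :=
      Real.rpow_le_rpow (by positivity) hqK (by norm_num)
    rw [← Real.rpow_mul (by positivity)] at h1
    norm_num at h1
    exact h1
  have hfin : K * (q : ℝ) ^ (3 / 5 : ℝ) ≤ η * q := by
    have h1 : (q : ℝ) = (q : ℝ) ^ (2 / 5 : ℝ) * (q : ℝ) ^ (3 / 5 : ℝ) := by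
      rw [← Real.rpow_add hq0]
      norm_num
    have h2 : K ≤ η * (q : ℝ) ^ (2 / 5 : ℝ) := by
      rw [div_le_iff₀ hη] at hbig
      linarith
    calc K * (q : ℝ) ^ (3 / 5 : ℝ) ≤ (η * (q : ℝ) ^ (2 / 5 : ℝ)) * (q : ℝ) ^ (3 / 5 : ℝ) :=
          mul_le_mul_of_nonneg_right h2 (by positivity)
      _ = η * q := by rw [mul_assoc, ← h1]
  rw [hK] at hfin
  linarith

theorem b15_phi (q : ℕ) : ((q.totient : ℕ) : ℝ) = q * ∏ p ∈ q.primeFactors, (1 - 1 / (p : ℝ)) := by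
  have h := congrArg (Rat.cast (K := ℝ)) (Nat.totient_eq_mul_prod_factors q)
  push_cast at h
  simpa [one_div] using h

theorem b15_fac {q p : ℕ} (hp : p ∈ q.primeFactors) :
    (0 : ℝ) ≤ 1 - 1 / (p : ℝ) ∧ 1 - 1 / (p : ℝ) ≤ 1 := by
  have h1 : (1 : ℝ) ≤ p := by exact_mod_cast (Nat.prime_of_mem_primeFactors hp).one_lt.le
  have h2 : 1 / (p : ℝ) ≤ 1 := by
    rw [div_le_one (by linarith)]
    exact h1
  have h3 : 0 ≤ 1 / (p : ℝ) := by positivity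
  constructor <;> linarith

/-- PROOF. `1/C0 ≤ φ(q)/q = ∏_{p ∣ q} (1 - 1/p) ≤ exp(-rp q)` (`Nat.totient_eq_mul_prod_factors`, `Real.add_one_le_exp`). -/
theorem b15_rp (C0 : ℝ) (hC0 : 1 ≤ C0) (q : ℕ) (hq : 0 < q) (h : (q : ℝ) ≤ C0 * q.totient) : rp q ≤ Real.log C0 := by
  have hq0 : (0 : ℝ) < q := by exact_mod_cast hq
  have h1 := b15_phi q
  have h2 : ∏ p ∈ q.primeFactors, (1 - 1 / (p : ℝ)) ≤ Real.exp (-rp q) := by
    unfold rp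
    rw [← Finset.sum_neg_distrib, Real.exp_sum]
    refine Finset.prod_le_prod (fun p hp => (b15_fac hp).1) fun p _ => ?_
    have := Real.add_one_le_exp (-(1 / (p : ℝ)))
    linarith
  have h3 : (q : ℝ) ≤ C0 * (q * Real.exp (-rp q)) := by
    refine h.trans ?_
    rw [h1]
    exact mul_le_mul_of_nonneg_left (mul_le_mul_of_nonneg_left h2 hq0.le) (by linarith)
  have h4 : 1 ≤ C0 * Real.exp (-rp q) := by
    have h5 : (q : ℝ) * 1 ≤ q * (C0 * Real.exp (-rp q)) := by linarith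
    exact le_of_mul_le_mul_left h5 hq0
  rw [Real.le_log_iff_exp_le (by linarith)]
  rw [Real.exp_neg] at h4
  have h6 := Real.exp_pos (rp q)
  rw [← div_eq_mul_inv, one_le_div h6] at h4
  exact h4

/-- PROOF. `φ(m)/m = ∏_{p ∣ m} (1 - 1/p) ≥ ∏_{p ∣ q} (1 - 1/p) = φ(q)/q ≥ 1/C0` (`Nat.primeFactors_mono`, factors in `[0, 1]`). -/
theorem b15_tot (C0 : ℝ) (hC0 : 1 ≤ C0) (m q : ℕ) (hq : 0 < q) (hm : m ∣ q) (h : (q : ℝ) ≤ C0 * q.totient) :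
    (m : ℝ) ≤ C0 * m.totient := by
  have hq0 : (0 : ℝ) < q := by exact_mod_cast hq
  have h1 := b15_phi q
  have h2 := b15_phi m
  have h3 : ∏ p ∈ q.primeFactors, (1 - 1 / (p : ℝ)) ≤ ∏ p ∈ m.primeFactors, (1 - 1 / (p : ℝ)) := by
    have hs : m.primeFactors ⊆ q.primeFactors := Nat.primeFactors_mono hm hq.ne'
    rw [← Finset.prod_sdiff hs]
    refine mul_le_of_le_one_left (Finset.prod_nonneg fun p hp => (b15_fac hp).1) ?_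
    exact Finset.prod_le_one (fun p hp => (b15_fac (mem_sdiff.1 hp).1).1)
      (fun p hp => (b15_fac (mem_sdiff.1 hp).1).2)
  have h4 : (1 : ℝ) ≤ C0 * ∏ p ∈ q.primeFactors, (1 - 1 / (p : ℝ)) := by
    rw [h1] at h
    have h5 : (q : ℝ) * 1 ≤ q * (C0 * ∏ p ∈ q.primeFactors, (1 - 1 / (p : ℝ))) := by linarith
    exact le_of_mul_le_mul_left h5 hq0
  have h6 : (1 : ℝ) ≤ C0 * ∏ p ∈ m.primeFactors, (1 - 1 / (p : ℝ)) :=
    h4.trans (mul_le_mul_of_nonneg_left h3 (by linarith))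
  have h7 := mul_le_mul_of_nonneg_left h6 (Nat.cast_nonneg (α := ℝ) m)
  rw [h2]
  linarith

end Pool.Agent.H20G
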