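import Mathlib
import Pool.Agent.Lib.H20G.B0

set_option autoImplicit false

/-!
# H20G chunk B16: the local count, union bound
-/

namespace Pool.Agent.H20G

open Finset
open scoped Classical

/-- the good residues mod `Q` (classes given by integers) -/
noncomputable def BT (y0 : ℕ) (cl : ℕ → Finset ℤ) (Q : ℕ) : Finset ℕ :=
  (BU Q).filter (fun x => ∀ m ∈ Q.divisors, y0 < m →
    ∀ c' ∈ (cl m).image (fun c : ℤ => (c % (m : ℤ)).toNat), ¬ x ≡ c' [MOD m])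

theorem b16_BT {y0 : ℕ} {cl : ℕ → Finset ℤ} {Q : ℕ} (hQ : 0 < Q) {P : ℤ}
    (h : (P % (Q : ℤ)).toNat ∈ BT y0 cl Q) :
    (∀ p : ℕ, p.Prime → p ∣ Q → ¬ (p : ℤ) ∣ P) ∧
    ∀ m : ℕ, m ∣ Q → y0 < m → ∀ c ∈ cl m, ¬ P ≡ c [ZMOD m] := by
  unfold BT BU at h
  rw [mem_filter, mem_filter] at h
  obtain ⟨⟨_, hco⟩, hcl⟩ := h
  have hQ' : (Q : ℤ) ≠ 0 := by exact_mod_cast hQ.ne'
  have hx : (((P % (Q : ℤ)).toNat : ℕ) : ℤ) = P % (Q : ℤ) :=
    Int.toNat_of_nonneg (Int.emod_nonneg _ hQ')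
  constructor
  · intro p hp hpQ hpP
    have h1 : (p : ℤ) ∣ (Q : ℤ) := by exact_mod_cast hpQ
    have h2 : (p : ℤ) ∣ (((P % (Q : ℤ)).toNat : ℕ) : ℤ) := by
      rw [hx, Int.emod_def]
      exact dvd_sub hpP (h1.mul_right _)
    have h3 : p ∣ (P % (Q : ℤ)).toNat := by exact_mod_cast h2
    have h4 := Nat.dvd_gcd h3 hpQ
    rw [hco] at h4
    exact hp.one_lt.ne' (Nat.dvd_one.1 h4)
  · intro m hm hy c hc hPc
    have hm0 : 0 < m := Nat.pos_of_dvd_of_pos hm hQ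
    have hm' : (m : ℤ) ≠ 0 := by exact_mod_cast hm0.ne'
    refine hcl m (Nat.mem_divisors.2 ⟨hm, hQ.ne'⟩) hy _ (mem_image_of_mem _ hc) ?_
    rw [← Int.natCast_modEq_iff, hx, Int.toNat_of_nonneg (Int.emod_nonneg _ hm')]
    have h1 : P % (Q : ℤ) ≡ P [ZMOD m] := by
      have h2 : P % (Q : ℤ) ≡ P [ZMOD Q] := Int.mod_modEq P Q
      exact h2.of_dvd (by exact_mod_cast hm)
    exact h1.trans (hPc.trans (Int.mod_modEq c m).symm)

/-- PROOF. Write `J = Ico u (u + n)`, `Q = gcd(q, N)`. Let `P ∈ J`, `(P % Q).toNat ∈ BT y0 cl Q`, and `P` not in the set of the conclusion.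
* If `Int.gcd P q ≠ 1`: a prime `p` divides `P` and `q`. If `p ∣ N` then `p ∣ Q`, and `p ∣ P % Q`, contradicting the coprimality of `(P % Q).toNat` and `Q`.
  So `p ∈ q.primeFactors`, `¬ p ∣ N`, `P ≡ 0 [ZMOD p]`.
* If `P ≡ c [ZMOD m]`, `m ∣ q`, `y0 < m`, `c ∈ cl m`: if `m ∣ N` then `m ∣ Q` and `(P % Q).toNat ≡ (c % m).toNat [MOD m]`, contradiction. So `¬ m ∣ N`.
* Otherwise `P ≡ x.2 [ZMOD x.1]` for some `x ∈ Lg`.
So the set on the left is contained in the union of the sets on the right; `Finset.card_union_le`, `Finset.card_biUnion_le`. -/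
theorem b16_count (y0 q N : ℕ) (hq : 0 < q) (cl : ℕ → Finset ℤ) (Lg : Finset (ℕ × ℤ)) (u : ℤ) (n : ℕ) :
    (((Ico u (u + n)).filter (fun P : ℤ => (P % ((Nat.gcd q N : ℕ) : ℤ)).toNat ∈ BT y0 cl (Nat.gcd q N))).card : ℝ) ≤
      (((Ico u (u + n)).filter (fun P : ℤ => Int.gcd P q = 1 ∧
        (∀ μ ∈ q.divisors, y0 < μ → ∀ c ∈ cl μ, ¬ P ≡ c [ZMOD μ]) ∧ ∀ x ∈ Lg, ¬ P ≡ x.2 [ZMOD x.1])).card : ℝ)
      + ∑ p ∈ q.primeFactors.filter (fun p => ¬ p ∣ N), (((Ico u (u + n)).filter (fun P : ℤ => P ≡ 0 [ZMOD p])).card : ℝ)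
      + ∑ m ∈ q.divisors.filter (fun m => ¬ m ∣ N ∧ y0 < m), ∑ c ∈ cl m,
          (((Ico u (u + n)).filter (fun P : ℤ => P ≡ c [ZMOD m])).card : ℝ)
      + ∑ x ∈ Lg, (((Ico u (u + n)).filter (fun P : ℤ => P ≡ x.2 [ZMOD x.1])).card : ℝ) := by
  obtain ⟨Q, hQ⟩ : ∃ Q : ℕ, Q = Nat.gcd q N := ⟨_, rfl⟩
  rw [← hQ]
  have hQ0 : 0 < Q := by
    rw [hQ]
    exact Nat.gcd_pos_of_pos_left N hq
  have hsub : (Ico u (u + n)).filter (fun P : ℤ => (P % (Q : ℤ)).toNat ∈ BT y0 cl Q) ⊆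
      (((Ico u (u + n)).filter (fun P : ℤ => Int.gcd P q = 1 ∧
        (∀ μ ∈ q.divisors, y0 < μ → ∀ c ∈ cl μ, ¬ P ≡ c [ZMOD μ]) ∧
          ∀ x ∈ Lg, ¬ P ≡ x.2 [ZMOD x.1])) ∪
      (q.primeFactors.filter (fun p => ¬ p ∣ N)).biUnion
        (fun p => (Ico u (u + n)).filter (fun P : ℤ => P ≡ 0 [ZMOD p]))) ∪
      ((q.divisors.filter (fun m => ¬ m ∣ N ∧ y0 < m)).biUnion
        (fun m => (cl m).biUnion
          (fun c => (Ico u (u + n)).filter (fun P : ℤ => P ≡ c [ZMOD m]))) ∪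
      Lg.biUnion (fun x => (Ico u (u + n)).filter (fun P : ℤ => P ≡ x.2 [ZMOD x.1]))) := by
    intro P hP
    rw [mem_filter] at hP
    obtain ⟨hPJ, hPT⟩ := hP
    obtain ⟨hcop, hcl⟩ := b16_BT hQ0 hPT
    rw [mem_union, mem_union, mem_union]
    by_cases hg : Int.gcd P q = 1
    · by_cases hc : ∃ m ∈ q.divisors, y0 < m ∧ ∃ c ∈ cl m, P ≡ c [ZMOD m]
      · obtain ⟨m, hm, hy, c, hcm, hPc⟩ := hc
        refine Or.inr (Or.inl ?_)
        rw [mem_biUnion]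
        refine ⟨m, ?_, ?_⟩
        · rw [mem_filter]
          refine ⟨hm, ?_, hy⟩
          intro hmN
          have hmQ : m ∣ Q := by
            rw [hQ]
            exact Nat.dvd_gcd (Nat.dvd_of_mem_divisors hm) hmN
          exact hcl m hmQ hy c hcm hPc
        · rw [mem_biUnion]
          exact ⟨c, hcm, mem_filter.2 ⟨hPJ, hPc⟩⟩
      · by_cases hL : ∃ x ∈ Lg, P ≡ x.2 [ZMOD x.1]
        · obtain ⟨x, hx, hPx⟩ := hL
          refine Or.inr (Or.inr ?_)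
          rw [mem_biUnion]
          exact ⟨x, hx, mem_filter.2 ⟨hPJ, hPx⟩⟩
        · refine Or.inl (Or.inl ?_)
          rw [mem_filter]
          refine ⟨hPJ, hg, ?_, ?_⟩
          · intro μ hμ hy c hcm hPc
            exact hc ⟨μ, hμ, hy, c, hcm, hPc⟩
          · intro x hx hPx
            exact hL ⟨x, hx, hPx⟩
    · refine Or.inl (Or.inr ?_)
      obtain ⟨p, hp, hpg⟩ := Nat.exists_prime_and_dvd hg
      have hpP : (p : ℤ) ∣ P := (Int.natCast_dvd_natCast.2 hpg).trans (Int.gcd_dvd_left ..)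
      have hpq : p ∣ q := by
        have h1 : (p : ℤ) ∣ (q : ℤ) := (Int.natCast_dvd_natCast.2 hpg).trans (Int.gcd_dvd_right ..)
        exact_mod_cast h1
      rw [mem_biUnion]
      refine ⟨p, ?_, ?_⟩
      · rw [mem_filter]
        refine ⟨Nat.mem_primeFactors.2 ⟨hp, hpq, hq.ne'⟩, ?_⟩
        intro hpN
        have hpQ : p ∣ Q := by
          rw [hQ]
          exact Nat.dvd_gcd hpq hpN
        exact hcop p hp hpQ hpP
      · rw [mem_filter]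
        exact ⟨hPJ, Int.modEq_zero_iff_dvd.2 hpP⟩
  have h1 := card_le_card hsub
  have h2 := h1.trans ((card_union_le _ _).trans (Nat.add_le_add (card_union_le _ _)
    (card_union_le _ _)))
  have h3 : ((q.primeFactors.filter (fun p => ¬ p ∣ N)).biUnion
        (fun p => (Ico u (u + n)).filter (fun P : ℤ => P ≡ 0 [ZMOD p]))).card ≤
      ∑ p ∈ q.primeFactors.filter (fun p => ¬ p ∣ N),
        ((Ico u (u + n)).filter (fun P : ℤ => P ≡ 0 [ZMOD p])).card := card_biUnion_le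
  have h4 : ((q.divisors.filter (fun m => ¬ m ∣ N ∧ y0 < m)).biUnion
        (fun m => (cl m).biUnion
          (fun c => (Ico u (u + n)).filter (fun P : ℤ => P ≡ c [ZMOD m])))).card ≤
      ∑ m ∈ q.divisors.filter (fun m => ¬ m ∣ N ∧ y0 < m), ∑ c ∈ cl m,
        ((Ico u (u + n)).filter (fun P : ℤ => P ≡ c [ZMOD m])).card :=
    card_biUnion_le.trans (sum_le_sum fun m _ => card_biUnion_le)
  have h5 : (Lg.biUnion (fun x => (Ico u (u + n)).filter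
      (fun P : ℤ => P ≡ x.2 [ZMOD x.1]))).card ≤
      ∑ x ∈ Lg, ((Ico u (u + n)).filter (fun P : ℤ => P ≡ x.2 [ZMOD x.1])).card := card_biUnion_le
  have h6 := h2.trans (Nat.add_le_add (Nat.add_le_add_left h3 _) (Nat.add_le_add h4 h5))
  have h7 := (Nat.cast_le (α := ℝ)).2 h6
  push_cast at h7
  rw [← add_assoc] at h7
  convert h7

end Pool.Agent.H20G
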