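import Mathlib
import Pool.Agent.Lib.H20G.Defs

set_option autoImplicit false

/-!
# H20G: blocks, edges, levels (sections 0, 3–9 of PROOF.md)

`K = 2 ^ k` everywhere. `f q = m_q` is the mass of `q` (the radius is `ρ_q = f q / q`).
-/

namespace Pool.Agent.H20G

open Finset

/-- radius `ρ_q = m_q / q` -/
noncomputable def rho (f : ℕ → ℝ) (q : ℕ) : ℝ := f q / q

/-- `D(q,r) = lcm(q,r) (ρ_q + ρ_r)` -/
noncomputable def DD (f : ℕ → ℝ) (q r : ℕ) : ℝ := ((Nat.lcm q r : ℕ) : ℝ) * (rho f q + rho f r)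

/-- distance to the nearest integer -/
noncomputable def nint (x : ℝ) : ℝ := |x - round x|

/-- `a = q / gcd(q,r) = lcm / r` -/
def aa (q r : ℕ) : ℕ := q / Nat.gcd q r

/-- `b = r / gcd(q,r) = lcm / q` -/
def bb (q r : ℕ) : ℕ := r / Nat.gcd q r

/-- `o(q,r) = 2 gcd(q,r) min(ρ_q, ρ_r)` -/
noncomputable def ov (f : ℕ → ℝ) (q r : ℕ) : ℝ := 2 * (Nat.gcd q r : ℝ) * min (rho f q) (rho f r)

/-- radius class: `2^{-i-1} < ρ_q ≤ 2^{-i}` (for `0 < ρ_q ≤ 1`) -/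
noncomputable def rc (f : ℕ → ℝ) (q : ℕ) : ℕ := ⌊Real.logb 2 (1 / rho f q)⌋₊

/-- a block -/
structure Blk (c0 : ℝ) (f : ℕ → ℝ) (S : Finset ℕ) : Prop where
  pos : ∀ q ∈ S, 0 < q
  fpos : ∀ q ∈ S, 0 < f q
  fle : ∀ q ∈ S, f q ≤ 1 / 16
  rp_le : ∀ q ∈ S, rp q ≤ c0
  sum_le : ∑ q ∈ S, f q ≤ 2

/-- (near, resonant) edge of level `k`: `2^{-k-1} < D ≤ 2^{-k}` -/
def Edge (γ : ℝ) (f : ℕ → ℝ) (S : Finset ℕ) (k q r : ℕ) : Prop :=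
  q ∈ S ∧ r ∈ S ∧ q ≠ r ∧ DD f q r ≤ 1 / 2 ^ k ∧ 1 / 2 ^ (k + 1) < DD f q r ∧
    nint (γ * ((bb q r : ℝ) - aa q r)) ≤ DD f q r

/-- coincidence of the points `(P+γ)/q`, `(P'+γ)/r` -/
def Coin (γ : ℝ) (f : ℕ → ℝ) (q r : ℕ) (P P' : ℤ) : Prop :=
  |(P : ℝ) * bb q r - (P' : ℝ) * aa q r + γ * ((bb q r : ℝ) - aa q r)| < DD f q r

/-! ## Hubs (section 3, 4) -/

open Classical in
/-- related pairs `(x, x')`, `x ∈ [2^e, 2^{e+1})`, `x' ∈ [2^{e'}, 2^{e'+1})`, of the block `(h, h')` -/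
noncomputable def RelB (γ : ℝ) (k h h' e e' : ℕ) : Finset (ℕ × ℕ) :=
  ((Ico (2 ^ e) (2 ^ (e + 1))) ×ˢ (Ico (2 ^ e') (2 ^ (e' + 1)))).filter
    (fun x => Nat.Coprime (x.1 * h') (x.2 * h) ∧ nint (γ * ((x.2 : ℝ) * h - (x.1 : ℝ) * h')) ≤ 1 / 2 ^ k)

/-- rich block: more than `K^{-1/4} X X'` related pairs -/
def Rich (γ : ℝ) (k h h' e e' : ℕ) : Prop :=
  (2 : ℝ) ^ (-((k : ℝ) / 4)) * 2 ^ e * 2 ^ e' < ((RelB γ k h h' e e').card : ℝ)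

/-- the pair `(q, r)` lies in a rich block of the hub `t = (N, e, e')`: `h = N/gcd(q,N)`, `x = q/gcd(q,N)`,
`h' = N/gcd(r,N)`, `x' = r/gcd(r,N)` -/
def HubEdge (γ : ℝ) (k : ℕ) (t : ℕ × ℕ × ℕ) (q r : ℕ) : Prop :=
  q / Nat.gcd q t.1 ∈ Ico (2 ^ t.2.1) (2 ^ (t.2.1 + 1)) ∧ r / Nat.gcd r t.1 ∈ Ico (2 ^ t.2.2) (2 ^ (t.2.2 + 1)) ∧
  Nat.Coprime ((q / Nat.gcd q t.1) * (t.1 / Nat.gcd r t.1)) ((r / Nat.gcd r t.1) * (t.1 / Nat.gcd q t.1)) ∧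
  Rich γ k (t.1 / Nat.gcd q t.1) (t.1 / Nat.gcd r t.1) t.2.1 t.2.2

/-! ## Windows, rough and smooth parts (section 5) -/

/-- the window of level `k`: `k0 2^j ≤ k < k0 2^{j+1}` -/
def win (k0 k : ℕ) : ℕ := Nat.log 2 (k / k0)

/-- `T` at level `k`: `T_j = 2^{300 k0 2^j}`, `j = win k0 k`, between `K^{150}` and `K^{300}` -/
def Tk (k0 k : ℕ) : ℕ := 2 ^ (300 * k0 * 2 ^ (win k0 k))

/-- `a_s` = smooth part of `a` -/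
noncomputable def tA (k0 k q r : ℕ) : ℕ := smo (Tk k0 k) (aa q r)

/-- `b_s` = smooth part of `b` -/
noncomputable def tB (k0 k q r : ℕ) : ℕ := smo (Tk k0 k) (bb q r)

/-- `h'` = rough part of `a` -/
noncomputable def hA (k0 k q r : ℕ) : ℕ := rou (Tk k0 k) (aa q r)

/-- `h` = rough part of `b` -/
noncomputable def hB (k0 k q r : ℕ) : ℕ := rou (Tk k0 k) (bb q r)

/-- canonical structure outside the exceptional set `X`: for `q ∈ S \ X` all `l ∈ 𝓛_k`, `q ∣ l`, `ρ_q l ≤ 1`, of levels up to the window of `k'`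
have the same rough part, and smooth parts of `l/q` are at most `exp((log T)²)` -/
def Canon (k0 : ℕ) (f : ℕ → ℝ) (S X : Finset ℕ) (Ls : ℕ → Finset ℕ) : Prop :=
  ∀ q ∈ S, q ∉ X → ∀ k l : ℕ, k0 ≤ k → l ∈ Ls k → q ∣ l → rho f q * l ≤ 1 →
    ((smo (Tk k0 k) (l / q) : ℕ) : ℝ) ≤ Real.exp ((Real.log (Tk k0 k)) ^ 2) ∧
    ∀ k' l' : ℕ, k0 ≤ k' → win k0 k ≤ win k0 k' → l' ∈ Ls k' → q ∣ l' → rho f q * l' ≤ 1 →
      rou (Tk k0 k') (l / q) = rou (Tk k0 k') (l' / q)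

/-- short hub edge between non-exceptional vertices of comparable radii -/
def SEdge (γ : ℝ) (k0 : ℕ) (f : ℕ → ℝ) (S X : Finset ℕ) (Ls : ℕ → Finset ℕ) (k q r : ℕ) : Prop :=
  k0 ≤ k ∧ Edge γ f S k q r ∧ q ∉ X ∧ r ∉ X ∧ Nat.lcm q r ∈ Ls k ∧
    5 * (rc f r - rc f q) ≤ k ∧ 5 * (rc f q - rc f r) ≤ k

/-! ## Boxes (sections 6, 7) -/

open Classical in
/-- `P(h,h',A,B,K)`: coprime `(a,b) ∈ [A,2A) × [B,2B)` with `‖γ (b h - a h')‖ ≤ 1/K` -/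
noncomputable def Pset (γ : ℝ) (k h h' A B : ℕ) : Finset (ℕ × ℕ) :=
  ((Ico A (2 * A)) ×ˢ (Ico B (2 * B))).filter
    (fun x => Nat.Coprime x.1 x.2 ∧ nint (γ * ((x.2 : ℝ) * h - (x.1 : ℝ) * h')) ≤ 1 / 2 ^ k)

/-- the integer `m(a,b)` -/
noncomputable def mm (γ : ℝ) (h h' : ℕ) (x : ℕ × ℕ) : ℤ := round (γ * ((x.2 : ℝ) * h - (x.1 : ℝ) * h'))

/-- the box of an edge -/
noncomputable def boxP (γ : ℝ) (k0 k q r : ℕ) : Finset (ℕ × ℕ) :=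
  Pset γ k (hB k0 k q r) (hA k0 k q r) (2 ^ Nat.log 2 (tA k0 k q r)) (2 ^ Nat.log 2 (tB k0 k q r))

/-- generic box: at most `K^{-1/4} A B` related pairs -/
def Generic (γ : ℝ) (k0 k q r : ℕ) : Prop :=
  ((boxP γ k0 k q r).card : ℝ) ≤
    (2 : ℝ) ^ (-((k : ℝ) / 4)) * 2 ^ Nat.log 2 (tA k0 k q r) * 2 ^ Nat.log 2 (tB k0 k q r)

/-- `(u, u', n)` is a plane for `P`: `n m(a,b) = u b - u' a` on `P`, primitive -/
def Plane (P : Finset (ℕ × ℕ)) (m : ℕ × ℕ → ℤ) (u u' : ℤ) (n : ℕ) : Prop :=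
  1 ≤ n ∧ Nat.gcd (Int.gcd u u') n = 1 ∧ ∀ x ∈ P, (n : ℤ) * m x = u * x.2 - u' * x.1

open Classical in
/-- the plane of the box of an edge (by choice; unique if the box has two elements) -/
noncomputable def pl (γ : ℝ) (k0 k q r : ℕ) : ℤ × ℤ × ℕ :=
  if H : ∃ t : ℤ × ℤ × ℕ, Plane (boxP γ k0 k q r) (mm γ (hB k0 k q r) (hA k0 k q r)) t.1 t.2.1 t.2.2
  then Classical.choose H else (0, 0, 1)

/-- `α_1 = a_s / gcd(u, n)` -/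
noncomputable def al (γ : ℝ) (k0 k q r : ℕ) : ℕ :=
  tA k0 k q r / Int.gcd (pl γ k0 k q r).1 ((pl γ k0 k q r).2.2 : ℤ)

/-- `β_1 = b_s / gcd(u', n)` -/
noncomputable def be (γ : ℝ) (k0 k q r : ℕ) : ℕ :=
  tB k0 k q r / Int.gcd (pl γ k0 k q r).2.1 ((pl γ k0 k q r).2.2 : ℤ)

/-- planar edge: a non-generic box with at least two elements -/
def Planar (γ : ℝ) (k0 k q r : ℕ) : Prop := ¬ Generic γ k0 k q r ∧ 2 ≤ (boxP γ k0 k q r).card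

/-- killing condition at `q`: type I (`K ≤ α_1^80`) or type II (`y0 < α_1`, `b_s ≤ α_1^16`, `λ ≤ α_1^16`) -/
def KillAt (γ : ℝ) (f : ℕ → ℝ) (y0 k0 k q r : ℕ) : Prop :=
  2 ^ k ≤ (al γ k0 k q r) ^ 80 ∨
  (y0 < al γ k0 k q r ∧ tB k0 k q r ≤ (al γ k0 k q r) ^ 16 ∧
    2 ^ (max (rc f q) (rc f r) - min (rc f q) (rc f r) + 1) ≤ (al γ k0 k q r) ^ 16)

/-! ## Deletions and alive points -/

/-- `P` is alive at `q` -/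
def Alive (y0 : ℕ) (X : Finset ℕ) (cl : ℕ → ℕ → Finset ℤ) (Lg : ℕ → Finset (ℕ × ℤ)) (q : ℕ) (P : ℤ) : Prop :=
  q ∉ X ∧ Int.gcd P q = 1 ∧ (∀ μ : ℕ, μ ∣ q → y0 < μ → ∀ c ∈ cl q μ, ¬ P ≡ c [ZMOD μ]) ∧
    ∀ x ∈ Lg q, ¬ P ≡ x.2 [ZMOD x.1]

/-- the pair `(q,r)` is live: two alive points coincide -/
def Live (γ : ℝ) (f : ℕ → ℝ) (y0 : ℕ) (X : Finset ℕ) (cl : ℕ → ℕ → Finset ℤ) (Lg : ℕ → Finset (ℕ × ℤ))
    (q r : ℕ) : Prop :=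
  ∃ P P' : ℤ, Alive y0 X cl Lg q P ∧ Alive y0 X cl Lg r P' ∧ Coin γ f q r P P'

end Pool.Agent.H20G
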