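import Mathlib
import Pool.Agent.Lib.H20G.Core
import Pool.Agent.Lib.H20G.B11
import Pool.Agent.Lib.H20G.B12
import Pool.Agent.Lib.H20G.B13
import Pool.Agent.Lib.H20G.B14
import Pool.Agent.Lib.H20G.B15
import Pool.Agent.Lib.H20G.B16

set_option autoImplicit false

/-!
# H20G chunk BMain: distortion lemma, local version (INTERFACE of section 10)
-/

namespace Pool.Agent.H20G

open Finset
open scoped Classical

/-- The three error sums. -/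
theorem bMain_err1 {q N n : ℕ} {u : ℤ} {κ : ℝ} (hz : ∀ p ∈ q.primeFactors, ¬ p ∣ N → zq q < p)
    (h : ∑ p ∈ q.primeFactors.filter (fun p => zq q < p), 1 / (p : ℝ) ≤ κ / 8) :
    ∑ p ∈ q.primeFactors.filter (fun p => ¬ p ∣ N), (((Ico u (u + n)).filter (fun P : ℤ => P ≡ 0 [ZMOD p])).card : ℝ) ≤
      κ / 8 * n + q.primeFactors.card := by
  have h1 : ∀ p ∈ q.primeFactors.filter (fun p => ¬ p ∣ N),
      (((Ico u (u + n)).filter (fun P : ℤ => P ≡ 0 [ZMOD p])).card : ℝ) ≤ (n : ℝ) * (1 / p) + 1 := by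
    intro p hp
    have hp' := Nat.pos_of_mem_primeFactors (Finset.mem_filter.1 hp).1
    have h2 := b14_cls u 0 n p hp'
    rwa [mul_one_div]
  refine (Finset.sum_le_sum h1).trans ?_
  rw [Finset.sum_add_distrib, ← Finset.mul_sum, Finset.sum_const, nsmul_eq_mul, mul_one]
  have hn : (0 : ℝ) ≤ n := Nat.cast_nonneg n
  have h3 : ∑ p ∈ q.primeFactors.filter (fun p => ¬ p ∣ N), 1 / (p : ℝ) ≤ κ / 8 := by
    refine le_trans (Finset.sum_le_sum_of_subset_of_nonneg ?_ fun p _ _ => by positivity) h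
    intro p hp
    rw [Finset.mem_filter] at hp ⊢
    exact ⟨hp.1, hz p hp.1 hp.2⟩
  have h4 : ((q.primeFactors.filter (fun p => ¬ p ∣ N)).card : ℝ) ≤ q.primeFactors.card := by
    exact_mod_cast Finset.card_filter_le _ _
  have h5 := mul_le_mul_of_nonneg_left h3 hn
  linarith

theorem bMain_err2 {y0 q N n : ℕ} (hq : 0 < q) {u : ℤ} {κ : ℝ} {cl : ℕ → Finset ℤ}
    (hcl : ∀ μ : ℕ, μ ∣ q → y0 < μ → (cl μ).card ≤ 17 * μ.divisors.card)
    (h : ∑ m ∈ q.divisors.filter (fun m => ¬ m ∣ N), (m.divisors.card : ℝ) / m ≤ κ / (17 * 8)) :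
    ∑ m ∈ q.divisors.filter (fun m => ¬ m ∣ N ∧ y0 < m), ∑ c ∈ cl m,
      (((Ico u (u + n)).filter (fun P : ℤ => P ≡ c [ZMOD m])).card : ℝ) ≤ κ / 8 * n + 17 * (q.divisors.card : ℝ) ^ 2 := by
  have hn : (0 : ℝ) ≤ n := Nat.cast_nonneg n
  have h1 : ∀ m ∈ q.divisors.filter (fun m => ¬ m ∣ N ∧ y0 < m), ∑ c ∈ cl m,
      (((Ico u (u + n)).filter (fun P : ℤ => P ≡ c [ZMOD m])).card : ℝ) ≤
        17 * (n : ℝ) * ((m.divisors.card : ℝ) / m) + 17 * (q.divisors.card : ℝ) := by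
    intro m hm
    rw [Finset.mem_filter, Nat.mem_divisors] at hm
    have hm0 : 0 < m := Nat.pos_of_dvd_of_pos hm.1.1 hq
    have h2 : ∑ c ∈ cl m, (((Ico u (u + n)).filter (fun P : ℤ => P ≡ c [ZMOD m])).card : ℝ) ≤
        ∑ _c ∈ cl m, ((n : ℝ) / m + 1) := Finset.sum_le_sum fun c _ => b14_cls u c n m hm0
    refine h2.trans ?_
    rw [Finset.sum_const, nsmul_eq_mul]
    have h3 : ((cl m).card : ℝ) ≤ 17 * m.divisors.card := by exact_mod_cast hcl m hm.1.1 hm.2.2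
    have h4 : (m.divisors.card : ℝ) ≤ q.divisors.card := by
      exact_mod_cast Finset.card_le_card (Nat.divisors_subset_of_dvd hq.ne' hm.1.1)
    have h5 : (0 : ℝ) ≤ (n : ℝ) / m + 1 := by positivity
    calc ((cl m).card : ℝ) * ((n : ℝ) / m + 1) ≤ 17 * m.divisors.card * ((n : ℝ) / m + 1) :=
          mul_le_mul_of_nonneg_right h3 h5
      _ = 17 * (n : ℝ) * ((m.divisors.card : ℝ) / m) + 17 * m.divisors.card := by ring
      _ ≤ _ := by linarith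
  refine (Finset.sum_le_sum h1).trans ?_
  rw [Finset.sum_add_distrib, ← Finset.mul_sum, Finset.sum_const, nsmul_eq_mul]
  have h6 : ∑ m ∈ q.divisors.filter (fun m => ¬ m ∣ N ∧ y0 < m), (m.divisors.card : ℝ) / m ≤ κ / (17 * 8) := by
    refine le_trans (Finset.sum_le_sum_of_subset_of_nonneg ?_ fun m _ _ => by positivity) h
    intro m hm
    rw [Finset.mem_filter] at hm ⊢
    exact ⟨hm.1, hm.2.1⟩
  have h7 : ((q.divisors.filter (fun m => ¬ m ∣ N ∧ y0 < m)).card : ℝ) ≤ q.divisors.card := by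
    exact_mod_cast Finset.card_filter_le _ _
  have h8 := mul_le_mul_of_nonneg_left h6 (mul_nonneg (by norm_num : (0 : ℝ) ≤ 17) hn)
  have h9 : (0 : ℝ) ≤ 17 * (q.divisors.card : ℝ) := by positivity
  have h10 := mul_le_mul_of_nonneg_right h7 h9
  have e1 : 17 * (n : ℝ) * (κ / (17 * 8)) = κ / 8 * n := by ring
  rw [e1] at h8
  nlinarith

theorem bMain_err3 {q n : ℕ} {u : ℤ} {κ : ℝ} {Lg : Finset (ℕ × ℤ)} (hLg : ∀ x ∈ Lg, x.1 ∣ q ∧ 0 < x.1)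
    (h : ∑ x ∈ Lg, 1 / (x.1 : ℝ) ≤ κ / 8) (hc : (Lg.card : ℝ) ≤ (q : ℝ) ^ (3 / 5 : ℝ)) :
    ∑ x ∈ Lg, (((Ico u (u + n)).filter (fun P : ℤ => P ≡ x.2 [ZMOD x.1])).card : ℝ) ≤ κ / 8 * n + (q : ℝ) ^ (3 / 5 : ℝ) := by
  have hn : (0 : ℝ) ≤ n := Nat.cast_nonneg n
  have h1 : ∀ x ∈ Lg, (((Ico u (u + n)).filter (fun P : ℤ => P ≡ x.2 [ZMOD x.1])).card : ℝ) ≤ (n : ℝ) * (1 / x.1) + 1 := by
    intro x hx
    rw [mul_one_div]
    exact b14_cls u x.2 n x.1 (hLg x hx).2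
  refine (Finset.sum_le_sum h1).trans ?_
  rw [Finset.sum_add_distrib, ← Finset.mul_sum, Finset.sum_const, nsmul_eq_mul, mul_one]
  have h5 := mul_le_mul_of_nonneg_left h hn
  linarith

/-- Section 10.
PROOF. `b11_glob (log C0)` gives `y0, c1` (`log C0 ≥ 0`). Let `κ = c1/C0`, `c = κ/4`, `ε = κ/8`. Given `δ`, take `S, q1` from
`b13_bad (log C0) (κ/(17·8))`, `q2` from `b12_primes (κ/8)`, `q3` from `b12_N S`, `q4` from `b15_small ((κ/8) δ / (1 + κ))`, and `q0` the maximum of these and `1`.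
Let `q ≥ q0`, `z = zq q`, `N = primorial z * (S!)²`, `Q = gcd(q, N)`, `Q ≤ N ≤ q^(1/2)`, `rp q ≤ log C0` (`b15_rp`), `rp Q ≤ log C0` (`Q ∣ q`).
`b11_glob` for `Q` and the classes `cl' m = (cl m).image (fun c => (c % m).toNat)` (`(cl' m).card ≤ (cl m).card ≤ 17 τ(m)` for `m ∣ Q`, `y0 < m`):
`#BT y0 cl Q ≥ c1 φ(Q) ≥ κ Q` (`b15_tot`). `b14_per` (if `n ≥ Q`; if `n < Q` the lower bound is trivial because it is negative):
`#{P ∈ J : (P % Q).toNat ∈ BT} ≥ (n/Q - 1) κ Q = κ n - κ Q ≥ κ n - κ q^(1/2)`.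
`b16_count` and `b14_cls` (a prime `p ∤ N` is `> z`, since the primes `≤ z` divide `primorial z`):
`#target ≥ κ n - κ q^(1/2) - ∑_{p ∣ q, p > z} (n/p + 1) - ∑_{m ∣ q, m ∤ N, y0 < m} 17 τ(m) (n/m + 1) - ∑_{x ∈ Lg} (n/x.1 + 1)`
`≥ κ n - κ q^(1/2) - (κ/8) n - ω(q) - (κ/8) n - 17 τ(q)² - (κ/8) n - q^(3/5)`, as `τ(m) ≤ τ(q)` for `m ∣ q`, and
`κ q^(1/2) + ω(q) + 17 τ(q)² + q^(3/5) ≤ (1 + κ) ((κ/8) δ/(1 + κ)) q ≤ (κ/8) n`. Total `≥ κ n/2 ≥ c n`. -/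
theorem b_local (C0 : ℝ) (hC0 : 1 ≤ C0) : ∃ (y0 : ℕ) (c ε : ℝ), 0 < c ∧ 0 < ε ∧ ∀ δ : ℝ, 0 < δ → ∃ q0 : ℕ, ∀ q : ℕ, q0 ≤ q →
    (q : ℝ) ≤ C0 * Nat.totient q → ∀ cl : ℕ → Finset ℤ,
    (∀ μ : ℕ, μ ∣ q → y0 < μ → (cl μ).card ≤ 17 * μ.divisors.card) →
    ∀ Lg : Finset (ℕ × ℤ), (∀ x ∈ Lg, x.1 ∣ q ∧ 0 < x.1) → ∑ x ∈ Lg, 1 / (x.1 : ℝ) ≤ ε →
    (Lg.card : ℝ) ≤ (q : ℝ) ^ (3 / 5 : ℝ) → ∀ (u : ℤ) (n : ℕ), δ * q ≤ n →
    c * n ≤ (((Ico u (u + n)).filter (fun P : ℤ => Int.gcd P q = 1 ∧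
      (∀ μ ∈ q.divisors, y0 < μ → ∀ c ∈ cl μ, ¬ P ≡ c [ZMOD μ]) ∧ ∀ x ∈ Lg, ¬ P ≡ x.2 [ZMOD x.1])).card : ℝ) := by
  obtain ⟨y0, c1, hc1, H⟩ := b11_glob (Real.log C0) (Real.log_nonneg hC0)
  have hC00 : 0 < C0 := by linarith
  set κ : ℝ := c1 / C0 with hκ
  have hκ0 : 0 < κ := div_pos hc1 hC00
  refine ⟨y0, κ / 4, κ / 8, by positivity, by positivity, fun δ hδ => ?_⟩
  obtain ⟨S, q1, h1⟩ := b13_bad (Real.log C0) (κ / (17 * 8)) (by positivity)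
  obtain ⟨q2, h2⟩ := b12_primes (κ / 8) (by positivity)
  obtain ⟨q3, h3⟩ := b12_N S
  obtain ⟨q4, h4⟩ := b15_small (κ / 8 * δ / (1 + κ)) (by positivity)
  refine ⟨q1 + q2 + q3 + q4 + 1, fun q hq hqC cl hcl Lg hLg hLs hLc u n hn => ?_⟩
  have hq0 : 0 < q := by omega
  have r1 := b15_rp C0 hC0 q hq0 hqC
  have e1 := h1 q (by omega) r1
  have e2 := h2 q (by omega)
  have e3 := h3 q (by omega)
  have e4 := h4 q (by omega)
  set N : ℕ := primorial (zq q) * (S.factorial) ^ 2 with hN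
  have hN0 : 0 < N := Nat.mul_pos (primorial_pos _) (pow_pos (Nat.factorial_pos S) 2)
  have hQ0 : 0 < Nat.gcd q N := Nat.gcd_pos_of_pos_left _ hq0
  have hQq : Nat.gcd q N ∣ q := Nat.gcd_dvd_left q N
  have rQ : rp (Nat.gcd q N) ≤ Real.log C0 := by
    refine le_trans ?_ r1
    unfold rp
    exact Finset.sum_le_sum_of_subset_of_nonneg (Nat.primeFactors_mono hQq hq0.ne') fun p _ _ => by positivity
  -- the number of good residues
  have hT1 : c1 * ((Nat.gcd q N).totient : ℝ) ≤ ((BT y0 cl (Nat.gcd q N)).card : ℝ) := by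
    refine (H (Nat.gcd q N) hQ0 rQ (fun m => (cl m).image (fun c : ℤ => (c % (m : ℤ)).toNat)) ?_).trans ?_
    · intro m hm hy
      exact Finset.card_image_le.trans (hcl m ((Nat.dvd_of_mem_divisors hm).trans hQq) hy)
    · refine Nat.cast_le.2 (Finset.card_le_card fun x hx => ?_)
      rw [Finset.mem_filter] at hx
      unfold BT
      rw [Finset.mem_filter]
      refine ⟨hx.1, fun m hm hy c' hc' => hx.2 m hm hy c' ?_⟩
      rw [Finset.mem_image] at hc' ⊢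
      exact hc'
  have hT2 : κ * (Nat.gcd q N : ℕ) ≤ ((BT y0 cl (Nat.gcd q N)).card : ℝ) := by
    refine le_trans ?_ hT1
    have h5 := b15_tot C0 hC0 (Nat.gcd q N) q hq0 hQq hqC
    rw [hκ, div_mul_eq_mul_div, div_le_iff₀ hC00]
    have h6 := mul_le_mul_of_nonneg_left h5 hc1.le
    linarith
  have hTr : BT y0 cl (Nat.gcd q N) ⊆ range (Nat.gcd q N) := by
    intro x hx
    unfold BT BU at hx
    exact (Finset.mem_filter.1 (Finset.mem_filter.1 hx).1).1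
  have hper := b14_per (Nat.gcd q N) hQ0 (BT y0 cl (Nat.gcd q N)) hTr u n
  have hQr : (0 : ℝ) < (Nat.gcd q N : ℕ) := by exact_mod_cast hQ0
  have hlow : κ * n - κ * (Nat.gcd q N : ℕ) ≤
      (((Ico u (u + n)).filter (fun P : ℤ => (P % ((Nat.gcd q N : ℕ) : ℤ)).toNat ∈ BT y0 cl (Nat.gcd q N))).card : ℝ) := by
    by_cases hnQ : ((Nat.gcd q N : ℕ) : ℝ) ≤ n
    · refine le_trans ?_ hper
      have h7 : 0 ≤ (n : ℝ) / (Nat.gcd q N : ℕ) - 1 := by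
        rw [sub_nonneg, one_le_div hQr]
        exact hnQ
      refine le_trans (le_of_eq ?_) (mul_le_mul_of_nonneg_left hT2 h7)
      field_simp
    · push Not at hnQ
      have h8 := mul_le_mul_of_nonneg_left hnQ.le hκ0.le
      have h9 : (0 : ℝ) ≤ (((Ico u (u + n)).filter
        (fun P : ℤ => (P % ((Nat.gcd q N : ℕ) : ℤ)).toNat ∈ BT y0 cl (Nat.gcd q N))).card : ℝ) := Nat.cast_nonneg _
      linarith
  have hcount := b16_count y0 q N hq0 cl Lg u n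
  have hz : ∀ p ∈ q.primeFactors, ¬ p ∣ N → zq q < p := by
    intro p hp hpN
    by_contra hle
    push Not at hle
    refine hpN (Dvd.dvd.mul_right ?_ _)
    have hpp := Nat.prime_of_mem_primeFactors hp
    exact (hpp.dvd_primorial_iff).2 hle
  have f1 := bMain_err1 (n := n) (u := u) hz e2
  have f2 := bMain_err2 (n := n) (u := u) hq0 hcl e1
  have f3 := bMain_err3 (n := n) (u := u) hLg hLs hLc
  have hQN : ((Nat.gcd q N : ℕ) : ℝ) ≤ (q : ℝ) ^ (1 / 2 : ℝ) := by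
    refine le_trans ?_ e3
    exact_mod_cast Nat.le_of_dvd hN0 (Nat.gcd_dvd_right q N)
  have hη : (1 + κ) * (κ / 8 * δ / (1 + κ) * q) = κ / 8 * (δ * q) := by field_simp
  have g1 : 0 ≤ (q.primeFactors.card : ℝ) := Nat.cast_nonneg _
  have g2 : 0 ≤ (q.divisors.card : ℝ) ^ 2 := by positivity
  have g3 : 0 ≤ (q : ℝ) ^ (3 / 5 : ℝ) := by positivity
  have g4 : 0 ≤ (q : ℝ) ^ (1 / 2 : ℝ) := by positivity
  have g5 := mul_le_mul_of_nonneg_left e4 (by positivity : 0 ≤ 1 + κ)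
  rw [hη] at g5
  have g6 := mul_le_mul_of_nonneg_left hn (by positivity : 0 ≤ κ / 8)
  have g7 := mul_le_mul_of_nonneg_left hQN hκ0.le
  have g8 : 0 ≤ κ * n := by positivity
  have g9 : 0 ≤ κ * ((q.primeFactors.card : ℝ) + 17 * (q.divisors.card : ℝ) ^ 2 + (q : ℝ) ^ (3 / 5 : ℝ)) := by positivity
  have hfin : κ / 4 * n ≤ κ * n - κ * (q : ℝ) ^ (1 / 2 : ℝ) - (κ / 8 * n + q.primeFactors.card)
      - (κ / 8 * n + 17 * (q.divisors.card : ℝ) ^ 2) - (κ / 8 * n + (q : ℝ) ^ (3 / 5 : ℝ)) := by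
    nlinarith
  linarith

end Pool.Agent.H20G
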