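import Mathlib
import Pool.Agent.Lib.H20G.Defs

set_option autoImplicit false

/-!
# H20G chunk T2A: Minkowski and Hoelder for finite sums
-/

namespace Pool.Agent.H20G

open Finset

/-- Minkowski, norm form -/
theorem t2a_mink' {ι κ : Type*} (s : Finset ι) (I : Finset κ) (f : κ → ι → ℝ)
    (hf : ∀ k i, 0 ≤ f k i) :
    (∑ x ∈ s, (∑ k ∈ I, f k x) ^ (4 / 3 : ℝ)) ^ (3 / 4 : ℝ) ≤
      ∑ k ∈ I, (∑ x ∈ s, f k x ^ (4 / 3 : ℝ)) ^ (3 / 4 : ℝ) := by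
  classical
  induction I using Finset.induction_on with
  | empty =>
    simp only [Finset.sum_empty]
    rw [Real.zero_rpow (by norm_num), Finset.sum_const_zero, Real.zero_rpow (by norm_num)]
  | insert a I ha ih =>
    have h1 := Real.Lp_add_le_of_nonneg s (f := fun x => f a x) (g := fun x => ∑ k ∈ I, f k x)
      (p := (4 / 3 : ℝ)) (by norm_num) (fun x _ => hf a x)
      (fun x _ => Finset.sum_nonneg fun k _ => hf k x)
    have h2 : (1 / (4 / 3 : ℝ)) = (3 / 4 : ℝ) := by norm_num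
    rw [h2] at h1
    rw [Finset.sum_insert ha]
    have h3 : ∀ x, ∑ k ∈ insert a I, f k x = f a x + ∑ k ∈ I, f k x := fun x =>
      Finset.sum_insert ha
    simp only [h3]
    exact h1.trans (by linarith)

/-- Minkowski in `ℓ^{4/3}`, powers `4/3`. PROOF. Induction on `I` with `Real.Lp_add_le` (exponent `4/3`, `3/4 = 1/(4/3)`) for
`(∑_x (∑_i f_i(x))^{4/3})^{3/4} ≤ ∑_i (∑_x f_i(x)^{4/3})^{3/4}`, then raise to the power `4/3`. -/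
theorem t2_mink {ι κ : Type*} (s : Finset ι) (I : Finset κ) (f : κ → ι → ℝ) (hf : ∀ k i, 0 ≤ f k i) :
    ∑ x ∈ s, (∑ k ∈ I, f k x) ^ (4 / 3 : ℝ) ≤ (∑ k ∈ I, (∑ x ∈ s, f k x ^ (4 / 3 : ℝ)) ^ (3 / 4 : ℝ)) ^ (4 / 3 : ℝ) := by
  have h1 := t2a_mink' s I f hf
  have h0 : 0 ≤ ∑ x ∈ s, (∑ k ∈ I, f k x) ^ (4 / 3 : ℝ) :=
    Finset.sum_nonneg fun x _ => Real.rpow_nonneg (Finset.sum_nonneg fun k _ => hf k x) _
  have h2 := Real.rpow_le_rpow (Real.rpow_nonneg h0 _) h1 (show (0 : ℝ) ≤ 4 / 3 by norm_num)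
  rw [← Real.rpow_mul h0, show (3 / 4 : ℝ) * (4 / 3) = 1 by norm_num, Real.rpow_one] at h2
  exact h2

/-- Hoelder: `∑ c ≤ |s|^{1/4} (∑ c^{4/3})^{3/4}` (`Real.inner_le_Lp_mul_Lq` with exponents `4`, `4/3`). -/
theorem t2_hold {ι : Type*} (s : Finset ι) (c : ι → ℝ) (hc : ∀ i, 0 ≤ c i) :
    ∑ x ∈ s, c x ≤ (s.card : ℝ) ^ (1 / 4 : ℝ) * (∑ x ∈ s, c x ^ (4 / 3 : ℝ)) ^ (3 / 4 : ℝ) := by
  have hpq : Real.HolderConjugate (4 : ℝ) (4 / 3 : ℝ) := by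
    rw [Real.holderConjugate_iff]
    norm_num
  have h1 := Real.inner_le_Lp_mul_Lq_of_nonneg s (f := fun _ => (1 : ℝ)) (g := c) hpq
    (fun _ _ => zero_le_one) (fun i _ => hc i)
  have h2 : (1 / (4 / 3 : ℝ)) = (3 / 4 : ℝ) := by norm_num
  rw [h2] at h1
  simpa using h1

/-- Hoelder: `c^{4/3} = c^{7/10} c^{19/30}`, exponents `10/7`, `10/3`. -/
theorem t2_hold2 {ι : Type*} (s : Finset ι) (c : ι → ℝ) (hc : ∀ i, 0 ≤ c i) :
    ∑ x ∈ s, c x ^ (4 / 3 : ℝ) ≤ (∑ x ∈ s, c x) ^ (7 / 10 : ℝ) * (∑ x ∈ s, c x ^ (19 / 9 : ℝ)) ^ (3 / 10 : ℝ) := by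
  have hpq : Real.HolderConjugate (10 / 7 : ℝ) (10 / 3 : ℝ) := by
    rw [Real.holderConjugate_iff]
    norm_num
  have h1 := Real.inner_le_Lp_mul_Lq_of_nonneg s (f := fun i => c i ^ (7 / 10 : ℝ))
    (g := fun i => c i ^ (19 / 30 : ℝ)) hpq
    (fun i _ => Real.rpow_nonneg (hc i) _) (fun i _ => Real.rpow_nonneg (hc i) _)
  have h2 : (1 / (10 / 7 : ℝ)) = (7 / 10 : ℝ) := by norm_num
  have h3 : (1 / (10 / 3 : ℝ)) = (3 / 10 : ℝ) := by norm_num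
  rw [h2, h3] at h1
  have h4 : ∀ i, (c i ^ (7 / 10 : ℝ)) ^ (10 / 7 : ℝ) = c i := fun i => by
    rw [← Real.rpow_mul (hc i), show (7 / 10 : ℝ) * (10 / 7) = 1 by norm_num, Real.rpow_one]
  have h5 : ∀ i, (c i ^ (19 / 30 : ℝ)) ^ (10 / 3 : ℝ) = c i ^ (19 / 9 : ℝ) := fun i => by
    rw [← Real.rpow_mul (hc i), show (19 / 30 : ℝ) * (10 / 3) = 19 / 9 by norm_num]
  have h6 : ∀ i, c i ^ (7 / 10 : ℝ) * c i ^ (19 / 30 : ℝ) = c i ^ (4 / 3 : ℝ) := fun i => by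
    rw [← Real.rpow_add_of_nonneg (hc i) (by norm_num) (by norm_num)]
    norm_num
  simp only [h4, h5, h6] at h1
  exact h1

end Pool.Agent.H20G
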