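import Mathlib
import Pool.Agent.Lib.H20G.Defs

set_option autoImplicit false

/-!
# H20G chunk G3: the function F_p, bound and concentration
-/

namespace Pool.Agent.H20G

open Finset

theorem g3_geo (t : ℝ) (h0 : 0 ≤ t) (h1 : t < 1) (S : Finset ℕ) : ∑ k ∈ S, t ^ k ≤ 1 / (1 - t) := by
  have h2 := (summable_geometric_of_lt_one h0 h1).sum_le_tsum S (fun i _ => pow_nonneg h0 i)
  rw [tsum_geometric_of_lt_one h0 h1, ← one_div] at h2
  exact h2

theorem g3_inj (t : ℝ) (h0 : 0 ≤ t) (h1 : t < 1) (S : Finset ℕ) (g : ℕ → ℕ) (hg : ∀ i ∈ S, ∀ j ∈ S, g i = g j → i = j) :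
    ∑ j ∈ S, t ^ (g j) ≤ 1 / (1 - t) := by
  have h2 : ∑ k ∈ S.image g, t ^ k = ∑ j ∈ S, t ^ (g j) := Finset.sum_image fun i hi j hj h => hg i hi j hj h
  rw [← h2]
  exact g3_geo t h0 h1 _

theorem g3_side (t : ℝ) (h0 : 0 ≤ t) (h1 : t < 1) (i : ℕ) (S : Finset ℕ) (hS : ∀ j ∈ S, j ≠ i) :
    ∑ j ∈ S, t ^ (max i j - min i j) ≤ 2 * t / (1 - t) := by
  rw [← Finset.sum_filter_add_sum_filter_not S (fun j => j < i)]
  have h2 : ∑ j ∈ S.filter (fun j => j < i), t ^ (max i j - min i j) ≤ t * (1 / (1 - t)) := by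
    have e : ∑ j ∈ S.filter (fun j => j < i), t ^ (max i j - min i j) =
        t * ∑ j ∈ S.filter (fun j => j < i), t ^ (i - j - 1) := by
      rw [Finset.mul_sum]
      refine Finset.sum_congr rfl fun j hj => ?_
      have hj' := (mem_filter.1 hj).2
      rw [max_eq_left hj'.le, min_eq_right hj'.le, ← pow_succ']
      congr 1
      omega
    rw [e]
    refine mul_le_mul_of_nonneg_left (g3_inj t h0 h1 _ _ fun j hj k hk h => ?_) h0
    have hj' := (mem_filter.1 hj).2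
    have hk' := (mem_filter.1 hk).2
    omega
  have h3 : ∑ j ∈ S.filter (fun j => ¬ j < i), t ^ (max i j - min i j) ≤ t * (1 / (1 - t)) := by
    have e : ∑ j ∈ S.filter (fun j => ¬ j < i), t ^ (max i j - min i j) =
        t * ∑ j ∈ S.filter (fun j => ¬ j < i), t ^ (j - i - 1) := by
      rw [Finset.mul_sum]
      refine Finset.sum_congr rfl fun j hj => ?_
      have hj' := (mem_filter.1 hj).2
      have hj'' := hS j (mem_filter.1 hj).1
      rw [max_eq_right (by omega), min_eq_left (by omega), ← pow_succ']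
      congr 1
      omega
    rw [e]
    refine mul_le_mul_of_nonneg_left (g3_inj t h0 h1 _ _ fun j hj k hk h => ?_) h0
    have hj' := (mem_filter.1 hj).2
    have hk' := (mem_filter.1 hk).2
    have hj'' := hS j (mem_filter.1 hj).1
    have hk'' := hS k (mem_filter.1 hk).1
    omega
  have h4 : 2 * t / (1 - t) = t * (1 / (1 - t)) + t * (1 / (1 - t)) := by ring
  rw [h4]
  exact add_le_add h2 h3

theorem g3_row (t : ℝ) (h0 : 0 ≤ t) (h1 : t < 1) (i : ℕ) (S : Finset ℕ) :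
    ∑ j ∈ S, t ^ (max i j - min i j) ≤ (1 + t) / (1 - t) := by
  have h2 := g3_side t h0 h1 i (S.erase i) fun j hj => Finset.ne_of_mem_erase hj
  have h3 : (1 + t) / (1 - t) = 1 + 2 * t / (1 - t) := by
    have : (1 - t) ≠ 0 := by linarith
    field_simp
    ring
  rw [h3]
  by_cases hi : i ∈ S
  · rw [← Finset.add_sum_erase _ _ hi]
    have : t ^ (max i i - min i i) = 1 := by simp
    rw [this]
    linarith
  · rw [Finset.erase_eq_of_notMem hi] at h2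
    linarith

/-- the bilinear bound -/
theorem g3_bil (t : ℝ) (h0 : 0 ≤ t) (h1 : t < 1) (S S' : Finset ℕ) (x y : ℕ → ℝ) :
    ∑ i ∈ S, ∑ j ∈ S', t ^ (max i j - min i j) * (x i * y j) ≤
      (1 + t) / (1 - t) * ((∑ i ∈ S, x i ^ 2 + ∑ j ∈ S', y j ^ 2) / 2) := by
  have h2 : ∑ i ∈ S, ∑ j ∈ S', t ^ (max i j - min i j) * (x i * y j) ≤
      ∑ i ∈ S, ∑ j ∈ S', (t ^ (max i j - min i j) * (x i ^ 2 / 2) + t ^ (max i j - min i j) * (y j ^ 2 / 2)) := by
    refine Finset.sum_le_sum fun i _ => Finset.sum_le_sum fun j _ => ?_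
    rw [← mul_add]
    refine mul_le_mul_of_nonneg_left ?_ (by positivity)
    nlinarith [sq_nonneg (x i - y j)]
  refine h2.trans ?_
  simp only [Finset.sum_add_distrib]
  have h3 : ∑ i ∈ S, ∑ j ∈ S', t ^ (max i j - min i j) * (x i ^ 2 / 2) ≤
      (1 + t) / (1 - t) * ∑ i ∈ S, x i ^ 2 / 2 := by
    rw [Finset.mul_sum]
    refine Finset.sum_le_sum fun i _ => ?_
    rw [← Finset.sum_mul]
    exact mul_le_mul_of_nonneg_right (g3_row t h0 h1 i S') (by positivity)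
  have h4 : ∑ i ∈ S, ∑ j ∈ S', t ^ (max i j - min i j) * (y j ^ 2 / 2) ≤
      (1 + t) / (1 - t) * ∑ j ∈ S', y j ^ 2 / 2 := by
    rw [Finset.sum_comm, Finset.mul_sum]
    refine Finset.sum_le_sum fun j _ => ?_
    rw [← Finset.sum_mul]
    refine mul_le_mul_of_nonneg_right ?_ (by positivity)
    have := g3_row t h0 h1 j S
    simpa only [max_comm, min_comm] using this
  have h5 : ∑ i ∈ S, x i ^ 2 / 2 = (∑ i ∈ S, x i ^ 2) / 2 := by rw [Finset.sum_div]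
  have h6 : ∑ i ∈ S', y i ^ 2 / 2 = (∑ i ∈ S', y i ^ 2) / 2 := by rw [Finset.sum_div]
  rw [h5] at h3
  rw [h6] at h4
  have h7 : (1 + t) / (1 - t) * ((∑ i ∈ S, x i ^ 2 + ∑ j ∈ S', y j ^ 2) / 2) =
      (1 + t) / (1 - t) * ((∑ i ∈ S, x i ^ 2) / 2) + (1 + t) / (1 - t) * ((∑ j ∈ S', y j ^ 2) / 2) := by ring
  rw [h7]
  exact add_le_add h3 h4

theorem g3_pow (S : Finset ℕ) (a : ℕ → ℝ) (ha : ∀ i ∈ S, 0 ≤ a i) (m : ℝ) (hm : ∀ i ∈ S, a i ≤ m) :
    ∑ i ∈ S, ((a i) ^ (21 / 40 : ℝ)) ^ 2 ≤ m ^ (1 / 20 : ℝ) * ∑ i ∈ S, a i := by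
  rw [Finset.mul_sum]
  refine Finset.sum_le_sum fun i hi => ?_
  have h0 := ha i hi
  have h1 : ((a i) ^ (21 / 40 : ℝ)) ^ 2 = (a i) ^ (1 / 20 : ℝ) * a i := by
    rw [← Real.rpow_add_one' h0 (by norm_num), ← Real.rpow_natCast, ← Real.rpow_mul h0]
    norm_num
  rw [h1]
  exact mul_le_mul_of_nonneg_right (Real.rpow_le_rpow h0 (hm i hi) (by norm_num)) h0

theorem g3_mu (t μ : ℝ) (h0 : 0 < t) (h1 : t ≤ 1 / 4) (hμ : 0 ≤ μ)
    (h : 1 < (1 + t) / (1 - t) * ((μ ^ (1 / 20 : ℝ) + 1) / 2)) : 1 - μ ≤ 80 * t := by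
  set x : ℝ := μ ^ (1 / 20 : ℝ) with hx
  have hx20 : x ^ 20 = μ := by
    rw [hx, ← Real.rpow_natCast, ← Real.rpow_mul hμ]
    norm_num
  have h2 : 1 - 4 * t ≤ x := by
    have h3 : (1 + t) / (1 - t) * ((x + 1) / 2) = ((1 + t) * (x + 1)) / (2 * (1 - t)) := by
      rw [div_mul_div_comm]
      ring
    rw [h3, lt_div_iff₀ (by linarith)] at h
    by_contra hlt
    rw [not_le] at hlt
    nlinarith
  have h3 := one_add_mul_le_pow (a := -(4 * t)) (by linarith) 20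
  have h4 : (1 + -(4 * t)) ^ 20 ≤ x ^ 20 := pow_le_pow_left₀ (by linarith) (by linarith) 20
  rw [hx20] at h4
  push_cast at h3
  linarith

theorem g3_z (t : ℝ) (h0 : 0 < t) (h1 : t ≤ 1 / (80 * 6 ^ 20)) :
    ∃ z : ℝ, 0 ≤ z ∧ z = (80 * t) ^ (1 / 20 : ℝ) ∧ 80 * t ≤ 1 ∧ z ≤ 1 / 6 ∧ (80 * t) ^ (21 / 40 : ℝ) ≤ z ^ 2 := by
  have h80 : 80 * t ≤ (1 / 6) ^ 20 := by
    rw [le_div_iff₀ (by positivity)] at h1
    rw [one_div_pow, le_div_iff₀ (by positivity)]
    linarith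
  have h81 : 80 * t ≤ 1 := h80.trans (by norm_num)
  refine ⟨(80 * t) ^ (1 / 20 : ℝ), by positivity, rfl, h81, ?_, ?_⟩
  · calc (80 * t) ^ (1 / 20 : ℝ) ≤ ((1 / 6 : ℝ) ^ 20) ^ (1 / 20 : ℝ) :=
          Real.rpow_le_rpow (by positivity) h80 (by norm_num)
      _ = 1 / 6 := by
          rw [← Real.rpow_natCast, ← Real.rpow_mul (by norm_num)]
          norm_num
  · rw [← Real.rpow_natCast, ← Real.rpow_mul (by positivity)]
    exact Real.rpow_le_rpow_of_exponent_ge (by positivity) h81 (by norm_num)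

/-- `m ≤ c m^{21/40}` implies `m ≤ c^{40/19}` -/
theorem g3_solve (m c : ℝ) (hm : 0 ≤ m) (hc : 0 ≤ c) (h : m ≤ c * m ^ (21 / 40 : ℝ)) : m ≤ c ^ (40 / 19 : ℝ) := by
  rcases hm.eq_or_lt with h0 | h0
  · rw [← h0]
    exact Real.rpow_nonneg hc _
  · have h1 : m ^ (19 / 40 : ℝ) ≤ c := by
      have h2 : m = m ^ (19 / 40 : ℝ) * m ^ (21 / 40 : ℝ) := by
        rw [← Real.rpow_add h0]
        norm_num
      have h3 : 0 < m ^ (21 / 40 : ℝ) := Real.rpow_pos_of_pos h0 _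
      by_contra hlt
      rw [not_le] at hlt
      have h4 := mul_lt_mul_of_pos_right hlt h3
      rw [← h2] at h4
      linarith
    calc m = (m ^ (19 / 40 : ℝ)) ^ (40 / 19 : ℝ) := by
          rw [← Real.rpow_mul hm]
          norm_num
      _ ≤ c ^ (40 / 19 : ℝ) := Real.rpow_le_rpow (Real.rpow_nonneg hm _) h1 (by norm_num)

/-- Bound. PROOF. `(a_i b_j)^s ≤ (a_i^{2s} + b_j^{2s})/2`, `∑_j t^{|i-j|} ≤ (1+t)/(1-t) ≤ 7`, `∑ a_i^{2s} ≤ ∑ a_i = 1` (`a_i ≤ 1`, `2s ≥ 1`). -/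
theorem g3_le (t : ℝ) (h0 : 0 ≤ t) (h1 : t ≤ 3 / 4) (n : ℕ) (a b : ℕ → ℝ) (ha : ∀ i, 0 ≤ a i) (hb : ∀ i, 0 ≤ b i)
    (hsa : ∑ i ∈ range n, a i = 1) (hsb : ∑ i ∈ range n, b i = 1) : FF t n a b ≤ 7 := by
  have hxy : FF t n a b = ∑ i ∈ range n, ∑ j ∈ range n, t ^ (max i j - min i j) *
      ((a i) ^ (21 / 40 : ℝ) * (b j) ^ (21 / 40 : ℝ)) := by
    unfold FF
    refine Finset.sum_congr rfl fun i _ => Finset.sum_congr rfl fun j _ => ?_
    rw [Real.mul_rpow (ha i) (hb j)]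
  rw [hxy]
  have h2 := g3_bil t h0 (by linarith) (range n) (range n) (fun i => (a i) ^ (21 / 40 : ℝ))
    (fun j => (b j) ^ (21 / 40 : ℝ))
  have ha1 : ∀ i ∈ range n, a i ≤ 1 := fun i hi => by
    rw [← hsa]
    exact Finset.single_le_sum (fun j _ => ha j) hi
  have hb1 : ∀ i ∈ range n, b i ≤ 1 := fun i hi => by
    rw [← hsb]
    exact Finset.single_le_sum (fun j _ => hb j) hi
  have h3 := g3_pow (range n) a (fun i _ => ha i) 1 ha1
  have h4 := g3_pow (range n) b (fun i _ => hb i) 1 hb1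
  rw [hsa, Real.one_rpow, mul_one] at h3
  rw [hsb, Real.one_rpow, mul_one] at h4
  have hK : (1 + t) / (1 - t) ≤ 7 := by
    rw [div_le_iff₀ (by linarith)]
    linarith
  have hK0 : 0 ≤ (1 + t) / (1 - t) := div_nonneg (by linarith) (by linarith)
  have h5 : 0 ≤ ∑ i ∈ range n, ((a i) ^ (21 / 40 : ℝ)) ^ 2 := Finset.sum_nonneg fun i _ => by positivity
  have h6 : 0 ≤ ∑ i ∈ range n, ((b i) ^ (21 / 40 : ℝ)) ^ 2 := Finset.sum_nonneg fun i _ => by positivity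
  refine h2.trans ?_
  nlinarith

/-- Concentration. There are absolute constants `t0, C > 0` such that for `0 < t ≤ t0`, `a, b` probability vectors with `F > 1` there is an
index `N` with `1 - a_N ≤ C t^{40/19}`, `1 - b_N ≤ C t^{40/19}` and `∑_{i,j ≠ N} t^{|i-j|} (a_i b_j)^{21/40} ≤ C t^{42/19}`.
PROOF (s = 21/40). Let `μ = max a_i`, `ν = max b_j`. `F ≤ ((1+t)/(1-t)) (∑ a_i^{2s})^{1/2} (∑ b_j^{2s})^{1/2} ≤ ((1+t)/(1-t)) (μ ν)^{1/40}`
(Schur / `xy ≤ (x²θ + y²/θ)/2`; `∑ a_i^{2s} ≤ μ^{1/20}`). So `F > 1` gives `μ, ν ≥ ((1-t)/(1+t))^{40} ≥ 1 - 80 t`. Let `a_{i0} = μ`, `b_{j0} = ν`.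
If `i0 ≠ j0`: the term `(i0,j0)` is `≤ t`, the others sum to at most `7·3·(80 t)^{s}` (each has a factor `(80t)^s`; sum over the other index as
above), so `F < 1` for small `t`. So `i0 = j0 =: N`; `ε = 1 - a_N`, `δ = 1 - b_N`. Then
`F ≤ (1-ε)^s (1-δ)^s + ∑_{i≠N} t^{|i-N|} a_i^s + ∑_{j≠N} t^{|j-N|} b_j^s + ∑_{i,j≠N} t^{|i-j|}(a_i b_j)^s
   ≤ 1 - s(ε+δ) + s² ε δ + (2t/(1-t)) (ε^s + δ^s) + ((1+t)/(1-t)) (ε δ)^s`
(`(1-ε)^s ≤ 1 - s ε` Bernoulli; `a_i ≤ ε` for `i ≠ N`; `∑_{i≠N} a_i^{2s} ≤ ε^{2s}`). `(εδ)^s ≤ (ε+δ)^{2s} = (ε+δ)(ε+δ)^{1/20} ≤ (ε+δ)(160 t)^{1/20}`,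
so for `t ≤ t0` all quadratic terms are `≤ (s/2)(ε+δ)` and `1 < F` gives `(s/2)(ε+δ) ≤ 8 t (ε+δ)^s`, that is `ε+δ ≤ (32 t)^{40/19}`.
The last claim is `((1+t)/(1-t))(εδ)^s ≤ 3 (ε+δ)^{21/20} ≤ C t^{42/19}`. -/
theorem g3_conc : ∃ t0 C : ℝ, 0 < t0 ∧ t0 ≤ 1 / 2 ∧ 0 < C ∧ ∀ t : ℝ, 0 < t → t ≤ t0 → ∀ (n : ℕ) (a b : ℕ → ℝ),
    (∀ i, 0 ≤ a i) → (∀ i, 0 ≤ b i) → ∑ i ∈ range n, a i = 1 → ∑ i ∈ range n, b i = 1 → 1 < FF t n a b →
    ∃ N < n, 1 - a N ≤ C * t ^ (40 / 19 : ℝ) ∧ 1 - b N ≤ C * t ^ (40 / 19 : ℝ) ∧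
      ∑ i ∈ (range n).erase N, ∑ j ∈ (range n).erase N, t ^ (max i j - min i j) * (a i * b j) ^ (21 / 40 : ℝ) ≤
        C * t ^ (42 / 19 : ℝ) := by
  refine ⟨1 / (80 * 6 ^ 20), 3 * 32 ^ (42 / 19 : ℝ), by positivity, by norm_num, by positivity, ?_⟩
  intro t ht0 ht n a b ha hb hsa hsb hF
  have ht' : t ≤ 1 / 100000 := ht.trans (by norm_num)
  obtain ⟨z, hz0, hz1, hz2, hz3, hz4⟩ := g3_z t ht0 ht
  set s : ℝ := 21 / 40 with hs
  set x : ℕ → ℝ := fun i => (a i) ^ s with hx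
  set y : ℕ → ℝ := fun i => (b i) ^ s with hy
  have hx0 : ∀ i, 0 ≤ x i := fun i => Real.rpow_nonneg (ha i) _
  have hy0 : ∀ i, 0 ≤ y i := fun i => Real.rpow_nonneg (hb i) _
  have hxy : FF t n a b = ∑ i ∈ range n, ∑ j ∈ range n, t ^ (max i j - min i j) * (x i * y j) := by
    unfold FF
    refine Finset.sum_congr rfl fun i _ => Finset.sum_congr rfl fun j _ => ?_
    rw [Real.mul_rpow (ha i) (hb j)]
  rw [hxy] at hF
  have hn : (range n).Nonempty := by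
    rw [Finset.nonempty_iff_ne_empty]
    intro h
    rw [h, Finset.sum_empty] at hsa
    exact zero_ne_one hsa
  have ha1 : ∀ i ∈ range n, a i ≤ 1 := fun i hi => by
    rw [← hsa]
    exact Finset.single_le_sum (fun j _ => ha j) hi
  have hb1 : ∀ i ∈ range n, b i ≤ 1 := fun i hi => by
    rw [← hsb]
    exact Finset.single_le_sum (fun j _ => hb j) hi
  have hSa1 := g3_pow (range n) a (fun i _ => ha i) 1 ha1
  have hSb1 := g3_pow (range n) b (fun i _ => hb i) 1 hb1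
  rw [hsa, Real.one_rpow, mul_one] at hSa1
  rw [hsb, Real.one_rpow, mul_one] at hSb1
  have hK0 : 0 < (1 + t) / (1 - t) := div_pos (by linarith) (by linarith)
  have hK3 : (1 + t) / (1 - t) ≤ 3 := by
    rw [div_le_iff₀ (by linarith)]
    linarith
  set K : ℝ := (1 + t) / (1 - t) with hK
  have hbil := g3_bil t ht0.le (by linarith) (range n) (range n) x y
  -- the maxima
  obtain ⟨i0, hi0, hmax⟩ := Finset.exists_max_image (range n) a hn
  obtain ⟨j0, hj0, hmax'⟩ := Finset.exists_max_image (range n) b hn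
  have hμ : 1 - a i0 ≤ 80 * t := by
    apply g3_mu t (a i0) ht0 (by linarith) (ha i0)
    have h1 := g3_pow (range n) a (fun i _ => ha i) (a i0) hmax
    rw [hsa, mul_one] at h1
    have h2 : K * ((∑ i ∈ range n, x i ^ 2 + ∑ j ∈ range n, y j ^ 2) / 2) ≤
        K * (((a i0) ^ (1 / 20 : ℝ) + 1) / 2) := by
      apply mul_le_mul_of_nonneg_left _ hK0.le
      linarith
    linarith
  have hν : 1 - b j0 ≤ 80 * t := by
    apply g3_mu t (b j0) ht0 (by linarith) (hb j0)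
    have h1 := g3_pow (range n) b (fun i _ => hb i) (b j0) hmax'
    rw [hsb, mul_one] at h1
    have h2 : K * ((∑ i ∈ range n, x i ^ 2 + ∑ j ∈ range n, y j ^ 2) / 2) ≤
        K * (((b j0) ^ (1 / 20 : ℝ) + 1) / 2) := by
      apply mul_le_mul_of_nonneg_left _ hK0.le
      linarith
    linarith
  set ε : ℝ := 1 - a i0 with hε
  set δ : ℝ := 1 - b j0 with hδ
  have hεsum : ∑ i ∈ (range n).erase i0, a i = ε := by
    rw [hε, ← hsa, ← Finset.add_sum_erase _ _ hi0]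
    ring
  have hδsum : ∑ i ∈ (range n).erase j0, b i = δ := by
    rw [hδ, ← hsb, ← Finset.add_sum_erase _ _ hj0]
    ring
  have hε0 : 0 ≤ ε := by
    rw [← hεsum]
    exact Finset.sum_nonneg fun i _ => ha i
  have hδ0 : 0 ≤ δ := by
    rw [← hδsum]
    exact Finset.sum_nonneg fun i _ => hb i
  have haε : ∀ i ∈ (range n).erase i0, a i ≤ ε := fun i hi => by
    rw [← hεsum]
    exact Finset.single_le_sum (fun j _ => ha j) hi
  have hbδ : ∀ i ∈ (range n).erase j0, b i ≤ δ := fun i hi => by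
    rw [← hδsum]
    exact Finset.single_le_sum (fun j _ => hb j) hi
  have hxε : ∀ i ∈ (range n).erase i0, x i ≤ ε ^ s := fun i hi =>
    Real.rpow_le_rpow (ha i) (haε i hi) (by norm_num)
  have hyδ : ∀ i ∈ (range n).erase j0, y i ≤ δ ^ s := fun i hi =>
    Real.rpow_le_rpow (hb i) (hbδ i hi) (by norm_num)
  have hPa := g3_pow ((range n).erase i0) a (fun i _ => ha i) ε haε
  have hPb := g3_pow ((range n).erase j0) b (fun i _ => hb i) δ hbδ
  rw [hεsum] at hPa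
  rw [hδsum] at hPb
  have hbil2 := g3_bil t ht0.le (by linarith) ((range n).erase i0) ((range n).erase j0) x y
  rw [← hK] at hbil2
  have hε20 : ε ^ (1 / 20 : ℝ) ≤ z := by
    rw [hz1]
    exact Real.rpow_le_rpow hε0 hμ (by norm_num)
  have hδ20 : δ ^ (1 / 20 : ℝ) ≤ z := by
    rw [hz1]
    exact Real.rpow_le_rpow hδ0 hν (by norm_num)
  have hεs : ε ^ s ≤ z ^ 2 := (Real.rpow_le_rpow hε0 hμ (by norm_num)).trans hz4
  have hδs : δ ^ s ≤ z ^ 2 := (Real.rpow_le_rpow hδ0 hν (by norm_num)).trans hz4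
  have hεs0 : 0 ≤ ε ^ s := Real.rpow_nonneg hε0 _
  have hδs0 : 0 ≤ δ ^ s := Real.rpow_nonneg hδ0 _
  have hε200 : 0 ≤ ε ^ (1 / 20 : ℝ) := Real.rpow_nonneg hε0 _
  have hδ200 : 0 ≤ δ ^ (1 / 20 : ℝ) := Real.rpow_nonneg hδ0 _
  have hx1 : x i0 ≤ 1 := Real.rpow_le_one (ha i0) (ha1 i0 hi0) (by norm_num)
  have hy1 : y j0 ≤ 1 := Real.rpow_le_one (hb j0) (hb1 j0 hj0) (by norm_num)
  -- decomposition of the double sum
  have hdec : ∑ i ∈ range n, ∑ j ∈ range n, t ^ (max i j - min i j) * (x i * y j) =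
      t ^ (max i0 j0 - min i0 j0) * (x i0 * y j0) +
      y j0 * ∑ i ∈ (range n).erase i0, t ^ (max j0 i - min j0 i) * x i +
      x i0 * ∑ j ∈ (range n).erase j0, t ^ (max i0 j - min i0 j) * y j +
      ∑ i ∈ (range n).erase i0, ∑ j ∈ (range n).erase j0, t ^ (max i j - min i j) * (x i * y j) := by
    have e1 : ∀ i, ∑ j ∈ range n, t ^ (max i j - min i j) * (x i * y j) =
        t ^ (max i j0 - min i j0) * (x i * y j0) +
          ∑ j ∈ (range n).erase j0, t ^ (max i j - min i j) * (x i * y j) := fun i =>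
      (Finset.add_sum_erase _ _ hj0).symm
    rw [← Finset.add_sum_erase _ _ hi0, e1 i0, Finset.sum_congr rfl fun i _ => e1 i, Finset.sum_add_distrib,
      Finset.mul_sum, Finset.mul_sum]
    have e2 : ∑ j ∈ (range n).erase j0, t ^ (max i0 j - min i0 j) * (x i0 * y j) =
        ∑ j ∈ (range n).erase j0, x i0 * (t ^ (max i0 j - min i0 j) * y j) :=
      Finset.sum_congr rfl fun j _ => by ring
    have e3 : ∑ i ∈ (range n).erase i0, t ^ (max i j0 - min i j0) * (x i * y j0) =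
        ∑ i ∈ (range n).erase i0, y j0 * (t ^ (max j0 i - min j0 i) * x i) :=
      Finset.sum_congr rfl fun i _ => by rw [max_comm, min_comm]; ring
    rw [e2, e3]
    ring
  rw [hdec] at hF
  have hfour : ∑ i ∈ (range n).erase i0, ∑ j ∈ (range n).erase j0, t ^ (max i j - min i j) * (x i * y j) ≤
      K * ((ε ^ (1 / 20 : ℝ) * ε + δ ^ (1 / 20 : ℝ) * δ) / 2) := by
    refine hbil2.trans (mul_le_mul_of_nonneg_left ?_ hK0.le)
    linarith
  have hε1 : ε ≤ 1 := by linarith [ha i0]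
  have hδ1 : δ ≤ 1 := by linarith [hb j0]
  by_cases hij : i0 = j0
  · -- the main case
    subst hij
    have hsecond : y i0 * ∑ i ∈ (range n).erase i0, t ^ (max i0 i - min i0 i) * x i ≤ 3 * t * ε ^ s := by
      have h1 : ∑ i ∈ (range n).erase i0, t ^ (max i0 i - min i0 i) * x i ≤ 3 * t * ε ^ s := by
        calc ∑ i ∈ (range n).erase i0, t ^ (max i0 i - min i0 i) * x i
            ≤ ∑ i ∈ (range n).erase i0, t ^ (max i0 i - min i0 i) * ε ^ s :=
              Finset.sum_le_sum fun i hi => mul_le_mul_of_nonneg_left (hxε i hi) (by positivity)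
          _ = (∑ i ∈ (range n).erase i0, t ^ (max i0 i - min i0 i)) * ε ^ s := by rw [Finset.sum_mul]
          _ ≤ (3 * t) * ε ^ s := by
              refine mul_le_mul_of_nonneg_right ?_ hεs0
              refine (g3_side t ht0.le (by linarith) i0 _ fun j hj => Finset.ne_of_mem_erase hj).trans ?_
              rw [div_le_iff₀ (by linarith)]
              nlinarith
      have h2 : 0 ≤ ∑ i ∈ (range n).erase i0, t ^ (max i0 i - min i0 i) * x i :=
        Finset.sum_nonneg fun i _ => mul_nonneg (by positivity) (hx0 i)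
      nlinarith [hy0 i0]
    have hthird : x i0 * ∑ j ∈ (range n).erase i0, t ^ (max i0 j - min i0 j) * y j ≤ 3 * t * δ ^ s := by
      have h1 : ∑ i ∈ (range n).erase i0, t ^ (max i0 i - min i0 i) * y i ≤ 3 * t * δ ^ s := by
        calc ∑ i ∈ (range n).erase i0, t ^ (max i0 i - min i0 i) * y i
            ≤ ∑ i ∈ (range n).erase i0, t ^ (max i0 i - min i0 i) * δ ^ s :=
              Finset.sum_le_sum fun i hi => mul_le_mul_of_nonneg_left (hyδ i hi) (by positivity)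
          _ = (∑ i ∈ (range n).erase i0, t ^ (max i0 i - min i0 i)) * δ ^ s := by rw [Finset.sum_mul]
          _ ≤ (3 * t) * δ ^ s := by
              refine mul_le_mul_of_nonneg_right ?_ hδs0
              refine (g3_side t ht0.le (by linarith) i0 _ fun j hj => Finset.ne_of_mem_erase hj).trans ?_
              rw [div_le_iff₀ (by linarith)]
              nlinarith
      have h2 : 0 ≤ ∑ i ∈ (range n).erase i0, t ^ (max i0 i - min i0 i) * y i :=
        Finset.sum_nonneg fun i _ => mul_nonneg (by positivity) (hy0 i)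
      nlinarith [hx0 i0]
    have hfirst : x i0 * y i0 ≤ 1 - (ε + δ) / 2 := by
      have h1 := g3_pow {i0} a (fun i _ => ha i) 1 (fun i hi => by
        rw [Finset.mem_singleton] at hi
        rw [hi]
        exact ha1 i0 hi0)
      have h2 := g3_pow {i0} b (fun i _ => hb i) 1 (fun i hi => by
        rw [Finset.mem_singleton] at hi
        rw [hi]
        exact hb1 i0 hi0)
      rw [Finset.sum_singleton, Finset.sum_singleton, Real.one_rpow, one_mul] at h1 h2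
      have h3 : (x i0) ^ 2 ≤ a i0 := h1
      have h4 : (y i0) ^ 2 ≤ b i0 := h2
      nlinarith [sq_nonneg (x i0 - y i0)]
    have hmm : max i0 i0 - min i0 i0 = 0 := by simp
    rw [hmm, pow_zero, one_mul] at hF
    obtain ⟨m, hm0, hεm, hδm, hmε, hm80⟩ : ∃ m : ℝ, 0 ≤ m ∧ ε ≤ m ∧ δ ≤ m ∧ m ≤ ε + δ ∧ m ≤ 80 * t := by
      refine ⟨max ε δ, le_max_of_le_left hε0, le_max_left _ _, le_max_right _ _, ?_, max_le hμ hν⟩
      exact max_le (by linarith) (by linarith)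
    have hms : ε ^ s ≤ m ^ s := Real.rpow_le_rpow hε0 hεm (by norm_num)
    have hms' : δ ^ s ≤ m ^ s := Real.rpow_le_rpow hδ0 hδm (by norm_num)
    have hm : m ≤ (32 * t) ^ (40 / 19 : ℝ) := by
      apply g3_solve m (32 * t) hm0 (by positivity)
      -- `1 < 1 - (ε+δ)/2 + 3 t (ε^s+δ^s) + K z (ε+δ)/2`
      have h1 : ε ^ (1 / 20 : ℝ) * ε ≤ 1 / 6 * ε := mul_le_mul_of_nonneg_right (hε20.trans hz3) hε0
      have h2 : δ ^ (1 / 20 : ℝ) * δ ≤ 1 / 6 * δ := mul_le_mul_of_nonneg_right (hδ20.trans hz3) hδ0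
      have h3 : K * ((ε ^ (1 / 20 : ℝ) * ε + δ ^ (1 / 20 : ℝ) * δ) / 2) ≤ 3 * ((1 / 6 * ε + 1 / 6 * δ) / 2) :=
        mul_le_mul hK3 (by linarith) (by positivity) (by norm_num)
      have h4 : t * ε ^ s ≤ t * m ^ s := mul_le_mul_of_nonneg_left hms ht0.le
      have h5 : t * δ ^ s ≤ t * m ^ s := mul_le_mul_of_nonneg_left hms' ht0.le
      have h6 : 0 ≤ t * m ^ s := mul_nonneg ht0.le (Real.rpow_nonneg hm0 _)
      nlinarith
    have ht40 : (32 * t) ^ (40 / 19 : ℝ) = 32 ^ (40 / 19 : ℝ) * t ^ (40 / 19 : ℝ) :=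
      Real.mul_rpow (by norm_num) ht0.le
    have ht42 : (32 * t) ^ (42 / 19 : ℝ) = 32 ^ (42 / 19 : ℝ) * t ^ (42 / 19 : ℝ) :=
      Real.mul_rpow (by norm_num) ht0.le
    have hC : (32 : ℝ) ^ (40 / 19 : ℝ) ≤ 3 * 32 ^ (42 / 19 : ℝ) := by
      have h1 : (32 : ℝ) ^ (40 / 19 : ℝ) ≤ 32 ^ (42 / 19 : ℝ) :=
        Real.rpow_le_rpow_of_exponent_le (by norm_num) (by norm_num)
      have h2 : 0 ≤ (32 : ℝ) ^ (42 / 19 : ℝ) := by positivity
      linarith
    have hmC : m ≤ 3 * 32 ^ (42 / 19 : ℝ) * t ^ (40 / 19 : ℝ) := by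
      rw [ht40] at hm
      refine hm.trans (mul_le_mul_of_nonneg_right hC (by positivity))
    refine ⟨i0, Finset.mem_range.1 hi0, hεm.trans hmC, hδm.trans hmC, ?_⟩
    have hgoal : ∑ i ∈ (range n).erase i0, ∑ j ∈ (range n).erase i0, t ^ (max i j - min i j) * (a i * b j) ^ (21 / 40 : ℝ) =
        ∑ i ∈ (range n).erase i0, ∑ j ∈ (range n).erase i0, t ^ (max i j - min i j) * (x i * y j) := by
      refine Finset.sum_congr rfl fun i _ => Finset.sum_congr rfl fun j _ => ?_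
      rw [Real.mul_rpow (ha i) (hb j)]
    rw [hgoal]
    refine hfour.trans ?_
    have hm1 : m ^ (1 / 20 : ℝ) * m ≤ (32 * t) ^ (42 / 19 : ℝ) := by
      have h1 : m ^ (1 / 20 : ℝ) * m = m ^ (21 / 20 : ℝ) := by
        rw [← Real.rpow_add_one' hm0 (by norm_num)]
        norm_num
      have h2 : (32 * t) ^ (42 / 19 : ℝ) = ((32 * t) ^ (40 / 19 : ℝ)) ^ (21 / 20 : ℝ) := by
        rw [← Real.rpow_mul (by positivity)]
        norm_num
      rw [h1, h2]
      exact Real.rpow_le_rpow hm0 hm (by norm_num)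
    have h1 : ε ^ (1 / 20 : ℝ) * ε ≤ m ^ (1 / 20 : ℝ) * m :=
      mul_le_mul (Real.rpow_le_rpow hε0 hεm (by norm_num)) hεm hε0 (Real.rpow_nonneg hm0 _)
    have h2 : δ ^ (1 / 20 : ℝ) * δ ≤ m ^ (1 / 20 : ℝ) * m :=
      mul_le_mul (Real.rpow_le_rpow hδ0 hδm (by norm_num)) hδm hδ0 (Real.rpow_nonneg hm0 _)
    rw [ht42] at hm1
    calc K * ((ε ^ (1 / 20 : ℝ) * ε + δ ^ (1 / 20 : ℝ) * δ) / 2)
        ≤ 3 * (32 ^ (42 / 19 : ℝ) * t ^ (42 / 19 : ℝ)) :=
          mul_le_mul hK3 (by linarith) (by positivity) (by norm_num)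
      _ = 3 * 32 ^ (42 / 19 : ℝ) * t ^ (42 / 19 : ℝ) := by ring
  · -- different maxima
    exfalso
    have hpow : t ^ (max i0 j0 - min i0 j0) ≤ t := by
      have h1 : max i0 j0 - min i0 j0 ≠ 0 := by
        rcases Nat.lt_or_gt_of_ne hij with h | h
        · rw [max_eq_right h.le, min_eq_left h.le]; omega
        · rw [max_eq_left h.le, min_eq_right h.le]; omega
      exact pow_le_of_le_one ht0.le (by linarith) h1
    have hfirst : t ^ (max i0 j0 - min i0 j0) * (x i0 * y j0) ≤ t := by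
      have h1 : x i0 * y j0 ≤ 1 := mul_le_one₀ hx1 (hy0 j0) hy1
      have h2 : 0 ≤ x i0 * y j0 := mul_nonneg (hx0 _) (hy0 _)
      have h3 : 0 ≤ t ^ (max i0 j0 - min i0 j0) := by positivity
      nlinarith
    have hsecond : y j0 * ∑ i ∈ (range n).erase i0, t ^ (max j0 i - min j0 i) * x i ≤ 3 * z ^ 2 := by
      have h1 : ∑ i ∈ (range n).erase i0, t ^ (max j0 i - min j0 i) * x i ≤ 3 * z ^ 2 := by
        calc ∑ i ∈ (range n).erase i0, t ^ (max j0 i - min j0 i) * x i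
            ≤ ∑ i ∈ (range n).erase i0, t ^ (max j0 i - min j0 i) * z ^ 2 :=
              Finset.sum_le_sum fun i hi => mul_le_mul_of_nonneg_left ((hxε i hi).trans hεs) (by positivity)
          _ = (∑ i ∈ (range n).erase i0, t ^ (max j0 i - min j0 i)) * z ^ 2 := by rw [Finset.sum_mul]
          _ ≤ 3 * z ^ 2 := mul_le_mul_of_nonneg_right
              ((g3_row t ht0.le (by linarith) j0 _).trans hK3) (by positivity)
      have h2 : 0 ≤ ∑ i ∈ (range n).erase i0, t ^ (max j0 i - min j0 i) * x i :=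
        Finset.sum_nonneg fun i _ => mul_nonneg (by positivity) (hx0 i)
      nlinarith [hy0 j0]
    have hthird : x i0 * ∑ j ∈ (range n).erase j0, t ^ (max i0 j - min i0 j) * y j ≤ 3 * z ^ 2 := by
      have h1 : ∑ i ∈ (range n).erase j0, t ^ (max i0 i - min i0 i) * y i ≤ 3 * z ^ 2 := by
        calc ∑ i ∈ (range n).erase j0, t ^ (max i0 i - min i0 i) * y i
            ≤ ∑ i ∈ (range n).erase j0, t ^ (max i0 i - min i0 i) * z ^ 2 :=
              Finset.sum_le_sum fun i hi => mul_le_mul_of_nonneg_left ((hyδ i hi).trans hδs) (by positivity)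
          _ = (∑ i ∈ (range n).erase j0, t ^ (max i0 i - min i0 i)) * z ^ 2 := by rw [Finset.sum_mul]
          _ ≤ 3 * z ^ 2 := mul_le_mul_of_nonneg_right
              ((g3_row t ht0.le (by linarith) i0 _).trans hK3) (by positivity)
      have h2 : 0 ≤ ∑ i ∈ (range n).erase j0, t ^ (max i0 i - min i0 i) * y i :=
        Finset.sum_nonneg fun i _ => mul_nonneg (by positivity) (hy0 i)
      nlinarith [hx0 i0]
    have h1 : ε ^ (1 / 20 : ℝ) * ε ≤ 1 / 6 * (1 / 100) :=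
      mul_le_mul (hε20.trans hz3) (by linarith) hε0 (by norm_num)
    have h2 : δ ^ (1 / 20 : ℝ) * δ ≤ 1 / 6 * (1 / 100) :=
      mul_le_mul (hδ20.trans hz3) (by linarith) hδ0 (by norm_num)
    have h3 : K * ((ε ^ (1 / 20 : ℝ) * ε + δ ^ (1 / 20 : ℝ) * δ) / 2) ≤ 3 * ((1 / 6 * (1 / 100) + 1 / 6 * (1 / 100)) / 2) :=
      mul_le_mul hK3 (by linarith) (by positivity) (by norm_num)
    have h4 : z ^ 2 ≤ 1 / 36 := by nlinarith
    norm_num at h3
    linarith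

end Pool.Agent.H20G
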