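import Mathlib
import Pool.Agent.Lib.H20G.Defs
import Pool.Agent.Lib.H20G.G3

set_option autoImplicit false

/-!
# H20G chunk T3: the function F_p of module T
-/

namespace Pool.Agent.H20G

open Finset

theorem t3_le1 (n : ℕ) (a : ℕ → ℝ) (ha : ∀ i, 0 ≤ a i) (han : ∀ i, n ≤ i → a i = 0)
    (hsa : ∑ i ∈ range n, a i = 1) (i : ℕ) : a i ≤ 1 := by
  by_cases hi : i < n
  · rw [← hsa]
    exact Finset.single_le_sum (fun j _ => ha j) (Finset.mem_range.2 hi)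
  · rw [han i (by omega)]
    exact zero_le_one

theorem t3_shift (n : ℕ) (a : ℕ → ℝ) (ha : ∀ i, 0 ≤ a i) (han : ∀ i, n ≤ i → a i = 0) (k : ℕ) :
    ∑ i ∈ range n, a (i + k) ≤ ∑ i ∈ range n, a i := by
  have h1 : ∑ i ∈ range n, a (i + k) = ∑ i ∈ Ico k (n + k), a i := by
    rw [Finset.sum_Ico_eq_sum_range]
    have : n + k - k = n := by omega
    rw [this]
    exact Finset.sum_congr rfl fun i _ => by rw [add_comm]
  rw [h1]
  have h2 : ∑ i ∈ Ico k (n + k), a i ≤ ∑ i ∈ range (n + k), a i :=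
    Finset.sum_le_sum_of_subset_of_nonneg (fun i hi => by
      rw [Finset.mem_Ico] at hi
      exact Finset.mem_range.2 hi.2) fun i _ _ => ha i
  refine h2.trans (le_of_eq ?_)
  rw [Finset.sum_range_add]
  have h3 : ∑ i ∈ range k, a (n + i) = 0 := Finset.sum_eq_zero fun i _ => han _ (by omega)
  rw [h3, add_zero]

/-- sums of the powers `2s` -/
theorem t3_sq (n : ℕ) (a : ℕ → ℝ) (ha : ∀ i, 0 ≤ a i) (han : ∀ i, n ≤ i → a i = 0)
    (hsa : ∑ i ∈ range n, a i = 1) (m : ℝ) (hm : ∀ i, a i ≤ m) (k : ℕ) :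
    ∑ i ∈ range n, ((a (i + k)) ^ (21 / 40 : ℝ)) ^ 2 ≤ m ^ (1 / 20 : ℝ) := by
  have h1 := g3_pow (range n) (fun i => a (i + k)) (fun i _ => ha _) m (fun i _ => hm _)
  refine h1.trans ?_
  have h2 := t3_shift n a ha han k
  rw [hsa] at h2
  have h3 : 0 ≤ m ^ (1 / 20 : ℝ) := Real.rpow_nonneg ((ha 0).trans (hm 0)) _
  calc m ^ (1 / 20 : ℝ) * ∑ i ∈ range n, a (i + k) ≤ m ^ (1 / 20 : ℝ) * 1 := mul_le_mul_of_nonneg_left h2 h3
    _ = m ^ (1 / 20 : ℝ) := mul_one _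

theorem t3_in (n : ℕ) (a b : ℕ → ℝ) (ha : ∀ i, 0 ≤ a i) (hb : ∀ i, 0 ≤ b i) :
    ∑ i ∈ range n, (a i * b i) ^ (21 / 40 : ℝ) ≤
      (∑ i ∈ range n, ((a i) ^ (21 / 40 : ℝ)) ^ 2 + ∑ i ∈ range n, ((b i) ^ (21 / 40 : ℝ)) ^ 2) / 2 := by
  rw [← Finset.sum_add_distrib, Finset.sum_div]
  refine Finset.sum_le_sum fun i _ => ?_
  rw [Real.mul_rpow (ha i) (hb i)]
  nlinarith [sq_nonneg ((a i) ^ (21 / 40 : ℝ) - (b i) ^ (21 / 40 : ℝ))]

theorem t3_43 (x : ℝ) (h0 : 0 ≤ x) (h1 : x ≤ 1) : x ^ (4 / 3 : ℝ) ≤ x := by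
  calc x ^ (4 / 3 : ℝ) ≤ x ^ (1 : ℝ) := Real.rpow_le_rpow_of_exponent_ge' h0 h1 (by norm_num) (by norm_num)
    _ = x := Real.rpow_one x

/-- total bound from bounds of the inner sums -/
theorem t3_tot (t : ℝ) (h0 : 0 ≤ t) (h1 : t < 1) (n : ℕ) (a b : ℕ → ℝ) (ha : ∀ i, 0 ≤ a i) (hb : ∀ i, 0 ≤ b i)
    (X Y : ℝ) (hX : 0 ≤ X) (hY : 0 ≤ Y) (hI0 : ∑ i ∈ range n, (a (i + 0) * b i) ^ (21 / 40 : ℝ) ≤ X)
    (hI : ∀ k, 1 ≤ k → ∑ i ∈ range n, (a (i + k) * b i) ^ (21 / 40 : ℝ) ≤ Y)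
    (hJ : ∀ k, 1 ≤ k → ∑ i ∈ range n, (a i * b (i + k)) ^ (21 / 40 : ℝ) ≤ Y) :
    FT t n a b ≤ X ^ (4 / 3 : ℝ) + 2 * t / (1 - t) * Y ^ (4 / 3 : ℝ) := by
  have hY0 : 0 ≤ Y ^ (4 / 3 : ℝ) := Real.rpow_nonneg hY _
  have hX0 : 0 ≤ X ^ (4 / 3 : ℝ) := Real.rpow_nonneg hX _
  have hgeo : ∑ k ∈ Ico 1 n, t ^ k ≤ t / (1 - t) := by
    have e : ∑ k ∈ Ico 1 n, t ^ k = t * ∑ k ∈ Ico 1 n, t ^ (k - 1) := by
      rw [Finset.mul_sum]
      refine Finset.sum_congr rfl fun k hk => ?_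
      rw [Finset.mem_Ico] at hk
      rw [← pow_succ']
      congr 1
      omega
    rw [e]
    have h2 := g3_inj t h0 h1 (Ico 1 n) (fun k => k - 1) (fun i hi j hj h => by
      rw [Finset.mem_Ico] at hi hj
      omega)
    calc t * ∑ k ∈ Ico 1 n, t ^ (k - 1) ≤ t * (1 / (1 - t)) := mul_le_mul_of_nonneg_left h2 h0
      _ = t / (1 - t) := by ring
  have hpos : ∀ k, 0 ≤ ∑ i ∈ range n, (a (i + k) * b i) ^ (21 / 40 : ℝ) := fun k =>
    Finset.sum_nonneg fun i _ => Real.rpow_nonneg (mul_nonneg (ha _) (hb _)) _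
  have hpos' : ∀ k, 0 ≤ ∑ i ∈ range n, (a i * b (i + k)) ^ (21 / 40 : ℝ) := fun k =>
    Finset.sum_nonneg fun i _ => Real.rpow_nonneg (mul_nonneg (ha _) (hb _)) _
  have hB : ∑ k ∈ Ico 1 n, t ^ k * (∑ i ∈ range n, (a i * b (i + k)) ^ (21 / 40 : ℝ)) ^ (4 / 3 : ℝ) ≤
      t / (1 - t) * Y ^ (4 / 3 : ℝ) := by
    calc ∑ k ∈ Ico 1 n, t ^ k * (∑ i ∈ range n, (a i * b (i + k)) ^ (21 / 40 : ℝ)) ^ (4 / 3 : ℝ)
        ≤ ∑ k ∈ Ico 1 n, t ^ k * Y ^ (4 / 3 : ℝ) := by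
          refine Finset.sum_le_sum fun k hk => mul_le_mul_of_nonneg_left ?_ (by positivity)
          rw [Finset.mem_Ico] at hk
          exact Real.rpow_le_rpow (hpos' k) (hJ k hk.1) (by norm_num)
      _ = (∑ k ∈ Ico 1 n, t ^ k) * Y ^ (4 / 3 : ℝ) := by rw [Finset.sum_mul]
      _ ≤ t / (1 - t) * Y ^ (4 / 3 : ℝ) := mul_le_mul_of_nonneg_right hgeo hY0
  have hA : ∑ k ∈ range n, t ^ k * (∑ i ∈ range n, (a (i + k) * b i) ^ (21 / 40 : ℝ)) ^ (4 / 3 : ℝ) ≤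
      X ^ (4 / 3 : ℝ) + t / (1 - t) * Y ^ (4 / 3 : ℝ) := by
    rcases Nat.eq_zero_or_pos n with hn | hn
    · subst hn
      rw [Finset.range_zero, Finset.sum_empty]
      have : 0 ≤ t / (1 - t) * Y ^ (4 / 3 : ℝ) := mul_nonneg (div_nonneg h0 (by linarith)) hY0
      linarith
    · rw [Finset.range_eq_Ico, Finset.sum_eq_sum_Ico_succ_bot hn]
      refine add_le_add ?_ ?_
      · rw [pow_zero, one_mul]
        refine Real.rpow_le_rpow ?_ ?_ (by norm_num)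
        · rw [← Finset.range_eq_Ico]
          exact hpos 0
        · rw [← Finset.range_eq_Ico]
          exact hI0
      · calc ∑ k ∈ Ico (0 + 1) n, t ^ k * (∑ i ∈ Ico 0 n, (a (i + k) * b i) ^ (21 / 40 : ℝ)) ^ (4 / 3 : ℝ)
            ≤ ∑ k ∈ Ico 1 n, t ^ k * Y ^ (4 / 3 : ℝ) := by
              refine Finset.sum_le_sum fun k hk => mul_le_mul_of_nonneg_left ?_ (by positivity)
              rw [Finset.mem_Ico] at hk
              rw [← Finset.range_eq_Ico]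
              exact Real.rpow_le_rpow (hpos k) (hI k hk.1) (by norm_num)
          _ = (∑ k ∈ Ico 1 n, t ^ k) * Y ^ (4 / 3 : ℝ) := by rw [Finset.sum_mul]
          _ ≤ t / (1 - t) * Y ^ (4 / 3 : ℝ) := mul_le_mul_of_nonneg_right hgeo hY0
  unfold FT
  have e : 2 * t / (1 - t) * Y ^ (4 / 3 : ℝ) = t / (1 - t) * Y ^ (4 / 3 : ℝ) + t / (1 - t) * Y ^ (4 / 3 : ℝ) := by ring
  rw [e]
  linarith

/-- the other entries are at most `1 - a_N` -/
theorem t3_other (n : ℕ) (a : ℕ → ℝ) (ha : ∀ i, 0 ≤ a i) (han : ∀ i, n ≤ i → a i = 0)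
    (hsa : ∑ i ∈ range n, a i = 1) (N : ℕ) (hN : N ∈ range n) (i : ℕ) (hi : i ≠ N) : a i ≤ 1 - a N := by
  by_cases hin : i < n
  · have h1 := Finset.add_sum_erase (range n) a hN
    have h2 : a i ≤ ∑ j ∈ (range n).erase N, a j :=
      Finset.single_le_sum (fun j _ => ha j) (Finset.mem_erase.2 ⟨hi, Finset.mem_range.2 hin⟩)
    linarith
  · rw [han i (by omega)]
    linarith [t3_le1 n a ha han hsa N]

/-- the truncated sequence -/
theorem t3_trunc (n : ℕ) (a : ℕ → ℝ) (ha : ∀ i, 0 ≤ a i) (han : ∀ i, n ≤ i → a i = 0)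
    (hsa : ∑ i ∈ range n, a i = 1) (N : ℕ) (hN : N ∈ range n) (k : ℕ) :
    ∑ i ∈ range n, (((fun i => if i = N then 0 else a i) (i + k)) ^ (21 / 40 : ℝ)) ^ 2 ≤
      (1 - a N) ^ (1 / 20 : ℝ) * (1 - a N) := by
  set a' : ℕ → ℝ := fun i => if i = N then 0 else a i with ha'
  have ha'0 : ∀ i, 0 ≤ a' i := fun i => by
    simp only [ha']
    split_ifs
    · exact le_rfl
    · exact ha i
  have hN0 : 0 ≤ 1 - a N := by linarith [t3_le1 n a ha han hsa N]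
  have ha'm : ∀ i, a' i ≤ 1 - a N := fun i => by
    simp only [ha']
    split_ifs with h
    · exact hN0
    · exact t3_other n a ha han hsa N hN i h
  have ha'n : ∀ i, n ≤ i → a' i = 0 := fun i hi => by
    simp only [ha']
    split_ifs with h
    · rfl
    · exact han i hi
  have hsum : ∑ i ∈ range n, a' i = 1 - a N := by
    rw [← Finset.add_sum_erase _ _ hN]
    have h1 : a' N = 0 := by simp [ha']
    have h2 : ∑ i ∈ (range n).erase N, a' i = ∑ i ∈ (range n).erase N, a i :=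
      Finset.sum_congr rfl fun i hi => by
        simp only [ha']
        rw [if_neg (Finset.ne_of_mem_erase hi)]
    have h3 := Finset.add_sum_erase (range n) a hN
    rw [h1, h2]
    linarith
  have h1 := g3_pow (range n) (fun i => a' (i + k)) (fun i _ => ha'0 _) (1 - a N) (fun i _ => ha'm _)
  refine h1.trans ?_
  have h2 := t3_shift n a' ha'0 ha'n k
  rw [hsum] at h2
  exact mul_le_mul_of_nonneg_left h2 (Real.rpow_nonneg hN0 _)

/-- the inner sum and the inner sum of the truncated sequences -/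
theorem t3_split (n : ℕ) (a b : ℕ → ℝ) (ha : ∀ i, 0 ≤ a i) (hb : ∀ i, 0 ≤ b i) (ha1 : ∀ i, a i ≤ 1)
    (hb1 : ∀ i, b i ≤ 1) (N N' k : ℕ) :
    ∑ i ∈ range n, (a (i + k) * b i) ^ (21 / 40 : ℝ) ≤
      ∑ i ∈ range n, ((fun i => if i = N then 0 else a i) (i + k) * (fun i => if i = N' then 0 else b i) i) ^ (21 / 40 : ℝ) +
        (if k ≤ N then (b (N - k)) ^ (21 / 40 : ℝ) else 0) + (a (N' + k)) ^ (21 / 40 : ℝ) := by
  have hterm : ∀ i, (a (i + k) * b i) ^ (21 / 40 : ℝ) ≤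
      ((fun i => if i = N then 0 else a i) (i + k) * (fun i => if i = N' then 0 else b i) i) ^ (21 / 40 : ℝ) +
        (if i + k = N then (b i) ^ (21 / 40 : ℝ) else 0) + (if i = N' then (a (i + k)) ^ (21 / 40 : ℝ) else 0) := by
    intro i
    have h1 : (a (i + k) * b i) ^ (21 / 40 : ℝ) ≤ (b i) ^ (21 / 40 : ℝ) := by
      refine Real.rpow_le_rpow (mul_nonneg (ha _) (hb _)) ?_ (by norm_num)
      exact mul_le_of_le_one_left (hb _) (ha1 _)
    have h2 : (a (i + k) * b i) ^ (21 / 40 : ℝ) ≤ (a (i + k)) ^ (21 / 40 : ℝ) := by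
      refine Real.rpow_le_rpow (mul_nonneg (ha _) (hb _)) ?_ (by norm_num)
      exact mul_le_of_le_one_right (ha _) (hb1 _)
    have h3 : 0 ≤ (a (i + k)) ^ (21 / 40 : ℝ) := Real.rpow_nonneg (ha _) _
    have h4 : 0 ≤ (b i) ^ (21 / 40 : ℝ) := Real.rpow_nonneg (hb _) _
    have h5 : (0 : ℝ) ^ (21 / 40 : ℝ) = 0 := Real.zero_rpow (by norm_num)
    by_cases c1 : i + k = N <;> by_cases c2 : i = N' <;> simp only [c1, c2, if_true, if_false, zero_mul, mul_zero, h5]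
    · simp only [c2] at h1 h2 h3 h4
      split_ifs <;> linarith
    · simp only [c1] at h1 h2 h3 h4
      linarith
    · simp only [c2] at h1 h2 h3 h4
      split_ifs <;> linarith
    · linarith
  refine (Finset.sum_le_sum fun i _ => hterm i).trans ?_
  rw [Finset.sum_add_distrib, Finset.sum_add_distrib]
  have h1 : ∑ i ∈ range n, (if i + k = N then (b i) ^ (21 / 40 : ℝ) else 0) ≤
      (if k ≤ N then (b (N - k)) ^ (21 / 40 : ℝ) else 0) := by
    by_cases hk : k ≤ N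
    · rw [if_pos hk]
      have e : ∑ i ∈ range n, (if i + k = N then (b i) ^ (21 / 40 : ℝ) else 0) =
          ∑ i ∈ range n, (if i = N - k then (b (N - k)) ^ (21 / 40 : ℝ) else 0) := by
        refine Finset.sum_congr rfl fun i _ => ?_
        by_cases c : i + k = N
        · have c' : i = N - k := by omega
          rw [if_pos c, if_pos c', c']
        · have c' : ¬ i = N - k := by omega
          rw [if_neg c, if_neg c']
      rw [e, Finset.sum_ite_eq']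
      split_ifs
      · exact le_rfl
      · exact Real.rpow_nonneg (hb _) _
    · rw [if_neg hk]
      refine le_of_eq (Finset.sum_eq_zero fun i _ => if_neg (by omega))
  have h2 : ∑ i ∈ range n, (if i = N' then (a (i + k)) ^ (21 / 40 : ℝ) else 0) ≤ (a (N' + k)) ^ (21 / 40 : ℝ) := by
    have e : ∑ i ∈ range n, (if i = N' then (a (i + k)) ^ (21 / 40 : ℝ) else 0) =
        ∑ i ∈ range n, (if i = N' then (a (N' + k)) ^ (21 / 40 : ℝ) else 0) := by
      refine Finset.sum_congr rfl fun i _ => ?_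
      by_cases c : i = N'
      · rw [if_pos c, if_pos c, c]
      · rw [if_neg c, if_neg c]
    rw [e, Finset.sum_ite_eq']
    split_ifs
    · exact le_rfl
    · exact Real.rpow_nonneg (ha _) _
  linarith

/-- `m ≤ c m^{7/10}` implies `m ≤ c^{10/3}` -/
theorem t3_solve (m c : ℝ) (hm : 0 ≤ m) (hc : 0 ≤ c) (h : m ≤ c * m ^ (7 / 10 : ℝ)) : m ≤ c ^ (10 / 3 : ℝ) := by
  rcases hm.eq_or_lt with h0 | h0
  · rw [← h0]
    exact Real.rpow_nonneg hc _
  · have h1 : m ^ (3 / 10 : ℝ) ≤ c := by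
      have h2 : m = m ^ (3 / 10 : ℝ) * m ^ (7 / 10 : ℝ) := by
        rw [← Real.rpow_add h0]
        norm_num
      have h3 : 0 < m ^ (7 / 10 : ℝ) := Real.rpow_pos_of_pos h0 _
      by_contra hlt
      rw [not_le] at hlt
      have h4 := mul_lt_mul_of_pos_right hlt h3
      rw [← h2] at h4
      linarith
    calc m = (m ^ (3 / 10 : ℝ)) ^ (10 / 3 : ℝ) := by
          rw [← Real.rpow_mul hm]
          norm_num
      _ ≤ c ^ (10 / 3 : ℝ) := Real.rpow_le_rpow (Real.rpow_nonneg hm _) h1 (by norm_num)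

/-- homogeneity: `(21/40)(4/3) = 7/10` -/
theorem t3_hom (t : ℝ) (n : ℕ) (a b : ℕ → ℝ) (ha : ∀ i, 0 ≤ a i) (hb : ∀ i, 0 ≤ b i) (c d : ℝ) (hc : 0 ≤ c) (hd : 0 ≤ d) :
    FT t n (fun i => c * a i) (fun i => d * b i) = (c * d) ^ (7 / 10 : ℝ) * FT t n a b := by
  have hcd : 0 ≤ c * d := mul_nonneg hc hd
  have e1 : ∀ i j, (c * a i * (d * b j)) ^ (21 / 40 : ℝ) = (c * d) ^ (21 / 40 : ℝ) * (a i * b j) ^ (21 / 40 : ℝ) := by
    intro i j
    rw [← Real.mul_rpow hcd (mul_nonneg (ha i) (hb j))]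
    congr 1
    ring
  have e2 : ∀ S : ℝ, 0 ≤ S → ((c * d) ^ (21 / 40 : ℝ) * S) ^ (4 / 3 : ℝ) = (c * d) ^ (7 / 10 : ℝ) * S ^ (4 / 3 : ℝ) := by
    intro S hS
    rw [Real.mul_rpow (Real.rpow_nonneg hcd _) hS, ← Real.rpow_mul hcd]
    norm_num
  unfold FT
  rw [mul_add, Finset.mul_sum, Finset.mul_sum]
  congr 1
  · refine Finset.sum_congr rfl fun k _ => ?_
    simp only [e1]
    rw [← Finset.mul_sum, e2 _ (Finset.sum_nonneg fun i _ => Real.rpow_nonneg (mul_nonneg (ha _) (hb _)) _)]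
    ring
  · refine Finset.sum_congr rfl fun k _ => ?_
    simp only [e1]
    rw [← Finset.mul_sum, e2 _ (Finset.sum_nonneg fun i _ => Real.rpow_nonneg (mul_nonneg (ha _) (hb _)) _)]
    ring

/-- Bound. Inner sums: `∑_i (a_{i+k} b_i)^{21/40} ≤ (∑ a^{21/20})^{1/2} (∑ b^{21/20})^{1/2} ≤ 1`; the sequences vanish beyond `n`. `(1+t)/(1-t) ≤ 10`. -/
theorem t3_le (t : ℝ) (h0 : 0 ≤ t) (h1 : t ≤ 9 / 11) (n : ℕ) (a b : ℕ → ℝ) (ha : ∀ i, 0 ≤ a i) (hb : ∀ i, 0 ≤ b i)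
    (han : ∀ i, n ≤ i → a i = 0) (hbn : ∀ i, n ≤ i → b i = 0)
    (hsa : ∑ i ∈ range n, a i = 1) (hsb : ∑ i ∈ range n, b i = 1) : FT t n a b ≤ 10 := by
  have hSa := t3_sq n a ha han hsa 1 (fun i => t3_le1 n a ha han hsa i)
  have hSb := t3_sq n b hb hbn hsb 1 (fun i => t3_le1 n b hb hbn hsb i)
  have hI : ∀ k, ∑ i ∈ range n, (a (i + k) * b i) ^ (21 / 40 : ℝ) ≤ 1 := by
    intro k
    refine (t3_in n (fun i => a (i + k)) b (fun i => ha _) hb).trans ?_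
    have h1 := hSa k
    have h2 := hSb 0
    rw [Real.one_rpow] at h1 h2
    simp only [add_zero] at h2
    linarith
  have hJ : ∀ k, ∑ i ∈ range n, (a i * b (i + k)) ^ (21 / 40 : ℝ) ≤ 1 := by
    intro k
    refine (t3_in n a (fun i => b (i + k)) ha (fun i => hb _)).trans ?_
    have h1 := hSb k
    have h2 := hSa 0
    rw [Real.one_rpow] at h1 h2
    simp only [add_zero] at h2
    linarith
  have h2 := t3_tot t h0 (by linarith) n a b ha hb 1 1 zero_le_one zero_le_one (hI 0) (fun k _ => hI k) (fun k _ => hJ k)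
  refine h2.trans ?_
  rw [Real.one_rpow]
  have h3 : (1 : ℝ) + 2 * t / (1 - t) * 1 ≤ 10 := by
    rw [mul_one]
    have : 2 * t / (1 - t) ≤ 9 := by
      rw [div_le_iff₀ (by linarith)]
      linarith
    linarith
  exact h3

/-- Concentration. PROOF (s = 21/40). With `μ = max a`, `ν = max b`: every inner sum is `≤ (μν)^{1/40}`, so `FT ≤ (μν)^{1/30} (1+t)/(1-t)` and `FT > 1` gives
`μ, ν ≥ ((1-t)/(1+t))^{30} ≥ 1 - 60 t`. Let `a_{i0} = μ`, `b_{j0} = ν`. If `i0 ≠ j0`: every inner sum is at most `1` and the `k = 0` inner sum is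
at most `2 (60 t)^s` (each of its terms has `i ≠ i0` or `i ≠ j0`; Cauchy–Schwarz), so `FT ≤ (2(60t)^s)^{4/3} + 2t/(1-t) < 1`. So `i0 = j0 = N`,
`ε = 1 - a_N`, `δ = 1 - b_N`, `ε, δ ≤ 60 t`. `k = 0`: inner sum `≤ (1-ε)^s (1-δ)^s + (εδ)^s ≤ 1 - s(ε+δ) + s²εδ + (ε+δ)^{21/20} ≤ 1 - (s/2)(ε+δ)` for `t ≤ t0`,
to the power `4/3 ≥ 1`: still `≤ 1 - (s/2)(ε+δ)`. `k ≥ 1`: inner sum `≤ a_{N+k}^s + b_{N-k}^s + (εδ)^s ≤ 3 (ε+δ)^s`, power `4/3`: `≤ 5 (ε+δ)^{7/10}`.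
Both sums over `k ≥ 1`: `≤ 2 · 5 (ε+δ)^{7/10} t/(1-t) ≤ 20 t (ε+δ)^{7/10}`. `1 < FT` gives `(ε+δ)^{3/10} ≤ 80 t`. Last claim: with the `N`-th entries removed every
inner sum is `≤ (εδ)^s ≤ (ε+δ)^{21/20}`, power `4/3`: `(ε+δ)^{7/5}`, total `≤ 3 (ε+δ)^{7/5} ≤ C t^{14/3}`. -/
theorem t3_conc : ∃ t0 C : ℝ, 0 < t0 ∧ t0 ≤ 1 / 2 ∧ 0 < C ∧ ∀ t : ℝ, 0 < t → t ≤ t0 → ∀ (n : ℕ) (a b : ℕ → ℝ),
    (∀ i, 0 ≤ a i) → (∀ i, 0 ≤ b i) → (∀ i, n ≤ i → a i = 0) → (∀ i, n ≤ i → b i = 0) →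
    ∑ i ∈ range n, a i = 1 → ∑ i ∈ range n, b i = 1 → 1 < FT t n a b →
    ∃ N < n, 1 - a N ≤ C * t ^ (10 / 3 : ℝ) ∧ 1 - b N ≤ C * t ^ (10 / 3 : ℝ) ∧
      FT t n (fun i => if i = N then 0 else a i) (fun i => if i = N then 0 else b i) ≤ C * t ^ (14 / 3 : ℝ) := by
  refine ⟨1 / (80 * 6 ^ 20), 3 * 80 ^ (14 / 3 : ℝ), by positivity, by norm_num, by positivity, ?_⟩
  intro t ht0 ht n a b ha hb han hbn hsa hsb hF
  have ht' : t ≤ 1 / 100000 := ht.trans (by norm_num)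
  obtain ⟨z, hz0, hz1, hz2, hz3, hz4⟩ := g3_z t ht0 ht
  have hn : (range n).Nonempty := by
    rw [Finset.nonempty_iff_ne_empty]
    intro h
    rw [h, Finset.sum_empty] at hsa
    exact zero_ne_one hsa
  have ha1 := t3_le1 n a ha han hsa
  have hb1 := t3_le1 n b hb hbn hsb
  have ht1 : t < 1 := by linarith
  have h2t : 2 * t / (1 - t) ≤ 3 * t := by
    rw [div_le_iff₀ (by linarith)]
    nlinarith
  have h2t0 : 0 ≤ 2 * t / (1 - t) := div_nonneg (by linarith) (by linarith)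
  -- the maxima
  obtain ⟨i0, hi0, hmax⟩ := Finset.exists_max_image (range n) a hn
  obtain ⟨j0, hj0, hmax'⟩ := Finset.exists_max_image (range n) b hn
  have hmaxa : ∀ i, a i ≤ a i0 := by
    intro i
    by_cases hi : i < n
    · exact hmax i (Finset.mem_range.2 hi)
    · rw [han i (by omega)]
      exact ha i0
  have hmaxb : ∀ i, b i ≤ b j0 := by
    intro i
    by_cases hi : i < n
    · exact hmax' i (Finset.mem_range.2 hi)
    · rw [hbn i (by omega)]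
      exact hb j0
  have hSa1 := t3_sq n a ha han hsa 1 ha1
  have hSb1 := t3_sq n b hb hbn hsb 1 hb1
  rw [Real.one_rpow] at hSa1 hSb1
  have hFle : ∀ X : ℝ, 0 ≤ X → X ≤ 1 → (∀ k, ∑ i ∈ range n, (a (i + k) * b i) ^ (21 / 40 : ℝ) ≤ X) →
      (∀ k, ∑ i ∈ range n, (a i * b (i + k)) ^ (21 / 40 : ℝ) ≤ X) → 1 < (1 + t) / (1 - t) * X := by
    intro X hX0 hX1 h1 h2
    have h3 := t3_tot t ht0.le ht1 n a b ha hb X X hX0 hX0 (h1 0) (fun k _ => h1 k) (fun k _ => h2 k)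
    have h4 : X ^ (4 / 3 : ℝ) ≤ X := t3_43 X hX0 hX1
    have h5 : X ^ (4 / 3 : ℝ) + 2 * t / (1 - t) * X ^ (4 / 3 : ℝ) = (1 + t) / (1 - t) * X ^ (4 / 3 : ℝ) := by
      have : (1 - t) ≠ 0 := by linarith
      field_simp
      ring
    rw [h5] at h3
    have h6 : (1 + t) / (1 - t) * X ^ (4 / 3 : ℝ) ≤ (1 + t) / (1 - t) * X :=
      mul_le_mul_of_nonneg_left h4 (div_nonneg (by linarith) (by linarith))
    linarith
  have hμ : 1 - a i0 ≤ 80 * t := by
    have hμ20 : (a i0) ^ (1 / 20 : ℝ) ≤ 1 := Real.rpow_le_one (ha i0) (ha1 i0) (by norm_num)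
    have hμ200 : 0 ≤ (a i0) ^ (1 / 20 : ℝ) := Real.rpow_nonneg (ha i0) _
    apply g3_mu t (a i0) ht0 (by linarith) (ha i0)
    have hSa := t3_sq n a ha han hsa (a i0) hmaxa
    refine hFle (((a i0) ^ (1 / 20 : ℝ) + 1) / 2) (by linarith) (by linarith) (fun k => ?_) (fun k => ?_)
    · refine (t3_in n (fun i => a (i + k)) b (fun i => ha _) hb).trans ?_
      have h1 := hSa k
      have h2 := hSb1 0
      simp only [add_zero] at h2
      linarith
    · refine (t3_in n a (fun i => b (i + k)) ha (fun i => hb _)).trans ?_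
      have h1 := hSb1 k
      have h2 := hSa 0
      simp only [add_zero] at h2
      linarith
  have hν : 1 - b j0 ≤ 80 * t := by
    have hμ20 : (b j0) ^ (1 / 20 : ℝ) ≤ 1 := Real.rpow_le_one (hb j0) (hb1 j0) (by norm_num)
    have hμ200 : 0 ≤ (b j0) ^ (1 / 20 : ℝ) := Real.rpow_nonneg (hb j0) _
    apply g3_mu t (b j0) ht0 (by linarith) (hb j0)
    have hSb := t3_sq n b hb hbn hsb (b j0) hmaxb
    refine hFle (((b j0) ^ (1 / 20 : ℝ) + 1) / 2) (by linarith) (by linarith) (fun k => ?_) (fun k => ?_)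
    · refine (t3_in n (fun i => a (i + k)) b (fun i => ha _) hb).trans ?_
      have h1 := hSa1 k
      have h2 := hSb 0
      simp only [add_zero] at h2
      linarith
    · refine (t3_in n a (fun i => b (i + k)) ha (fun i => hb _)).trans ?_
      have h1 := hSb k
      have h2 := hSa1 0
      simp only [add_zero] at h2
      linarith
  set ε : ℝ := 1 - a i0 with hε
  set δ : ℝ := 1 - b j0 with hδ
  have hε0 : 0 ≤ ε := by linarith [ha1 i0]
  have hδ0 : 0 ≤ δ := by linarith [hb1 j0]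
  have hε1 : ε ≤ 1 := by linarith [ha i0]
  have hδ1 : δ ≤ 1 := by linarith [hb j0]
  -- the truncated sequences
  set a' : ℕ → ℝ := fun i => if i = i0 then 0 else a i with ha'
  set b' : ℕ → ℝ := fun i => if i = j0 then 0 else b i with hb'
  have ha'0 : ∀ i, 0 ≤ a' i := fun i => by
    simp only [ha']
    split_ifs
    · exact le_rfl
    · exact ha i
  have hb'0 : ∀ i, 0 ≤ b' i := fun i => by
    simp only [hb']
    split_ifs
    · exact le_rfl
    · exact hb i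
  have hTa := t3_trunc n a ha han hsa i0 hi0
  have hTb := t3_trunc n b hb hbn hsb j0 hj0
  rw [← hε] at hTa
  rw [← hδ] at hTb
  -- comparison of the inner sums
  set s : ℝ := 21 / 40 with hs
  have hεs : ε ^ s ≤ z ^ 2 := (Real.rpow_le_rpow hε0 hμ (by norm_num)).trans hz4
  have hδs : δ ^ s ≤ z ^ 2 := (Real.rpow_le_rpow hδ0 hν (by norm_num)).trans hz4
  have hεs0 : 0 ≤ ε ^ s := Real.rpow_nonneg hε0 _
  have hδs0 : 0 ≤ δ ^ s := Real.rpow_nonneg hδ0 _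
  have hε20 : ε ^ (1 / 20 : ℝ) ≤ 1 / 6 := by
    refine le_trans ?_ hz3
    rw [hz1]
    exact Real.rpow_le_rpow hε0 hμ (by norm_num)
  have hδ20 : δ ^ (1 / 20 : ℝ) ≤ 1 / 6 := by
    refine le_trans ?_ hz3
    rw [hz1]
    exact Real.rpow_le_rpow hδ0 hν (by norm_num)
  have hε200 : 0 ≤ ε ^ (1 / 20 : ℝ) := Real.rpow_nonneg hε0 _
  have hδ200 : 0 ≤ δ ^ (1 / 20 : ℝ) := Real.rpow_nonneg hδ0 _
  have hI' : ∀ k, ∑ i ∈ range n, (a' (i + k) * b' i) ^ s ≤ (ε ^ (1 / 20 : ℝ) * ε + δ ^ (1 / 20 : ℝ) * δ) / 2 := by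
    intro k
    refine (t3_in n (fun i => a' (i + k)) b' (fun i => ha'0 _) hb'0).trans ?_
    have h1 := hTa k
    have h2 := hTb 0
    simp only [add_zero] at h2
    linarith
  have hJ' : ∀ k, ∑ i ∈ range n, (a' i * b' (i + k)) ^ s ≤ (ε ^ (1 / 20 : ℝ) * ε + δ ^ (1 / 20 : ℝ) * δ) / 2 := by
    intro k
    refine (t3_in n a' (fun i => b' (i + k)) ha'0 (fun i => hb'0 _)).trans ?_
    have h1 := hTb k
    have h2 := hTa 0
    simp only [add_zero] at h2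
    linarith
  by_cases hij : i0 = j0
  · subst hij
    -- zeroth inner sum
    have hI0 : ∑ i ∈ range n, (a (i + 0) * b i) ^ s ≤ 1 - (ε + δ) / 4 := by
      have h1 : ∑ i ∈ range n, (a (i + 0) * b i) ^ s ≤ (a i0 * b i0) ^ s + ∑ i ∈ range n, (a' (i + 0) * b' i) ^ s := by
        rw [← Finset.add_sum_erase _ _ hi0, ← Finset.add_sum_erase (range n) (fun i => (a' (i + 0) * b' i) ^ s) hi0]
        have h2 : ∑ i ∈ (range n).erase i0, (a (i + 0) * b i) ^ s = ∑ i ∈ (range n).erase i0, (a' (i + 0) * b' i) ^ s := by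
          refine Finset.sum_congr rfl fun i hi => ?_
          have hne := Finset.ne_of_mem_erase hi
          simp only [ha', hb', add_zero]
          rw [if_neg hne, if_neg hne]
        have h3 : 0 ≤ (a' (i0 + 0) * b' i0) ^ s := Real.rpow_nonneg (mul_nonneg (ha'0 _) (hb'0 _)) _
        rw [h2]
        simp only [add_zero] at h3 ⊢
        linarith
      have h2 := hI' 0
      have h3 : (a i0 * b i0) ^ s ≤ 1 - (ε + δ) / 2 := by
        rw [Real.mul_rpow (ha _) (hb _)]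
        have h4 := g3_pow {i0} a (fun i _ => ha i) 1 (fun i _ => ha1 i)
        have h5 := g3_pow {i0} b (fun i _ => hb i) 1 (fun i _ => hb1 i)
        rw [Finset.sum_singleton, Finset.sum_singleton, Real.one_rpow, one_mul] at h4 h5
        nlinarith [sq_nonneg ((a i0) ^ s - (b i0) ^ s)]
      have h4 : ε ^ (1 / 20 : ℝ) * ε ≤ 1 / 6 * ε := mul_le_mul_of_nonneg_right hε20 hε0
      have h5 : δ ^ (1 / 20 : ℝ) * δ ≤ 1 / 6 * δ := mul_le_mul_of_nonneg_right hδ20 hδ0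
      linarith
    obtain ⟨m, hm0, hεm, hδm, hmε, hm80⟩ : ∃ m : ℝ, 0 ≤ m ∧ ε ≤ m ∧ δ ≤ m ∧ m ≤ ε + δ ∧ m ≤ 80 * t := by
      refine ⟨max ε δ, le_max_of_le_left hε0, le_max_left _ _, le_max_right _ _, ?_, max_le hμ hν⟩
      exact max_le (by linarith) (by linarith)
    have hm1 : m ≤ 1 := hm80.trans hz2
    have hms : ε ^ s ≤ m ^ s := Real.rpow_le_rpow hε0 hεm (by norm_num)
    have hms' : δ ^ s ≤ m ^ s := Real.rpow_le_rpow hδ0 hδm (by norm_num)
    have hms0 : 0 ≤ m ^ s := Real.rpow_nonneg hm0 _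
    have hmm : ∀ x : ℝ, 0 ≤ x → x ≤ m → x ^ (1 / 20 : ℝ) * x ≤ m ^ s := by
      intro x hx0 hxm
      have h1 : x ^ (1 / 20 : ℝ) * x = x ^ (21 / 20 : ℝ) := by
        rw [← Real.rpow_add_one' hx0 (by norm_num)]
        norm_num
      rw [h1]
      calc x ^ (21 / 20 : ℝ) ≤ m ^ (21 / 20 : ℝ) := Real.rpow_le_rpow hx0 hxm (by norm_num)
        _ ≤ m ^ s := Real.rpow_le_rpow_of_exponent_ge' hm0 hm1 (by norm_num) (by norm_num)
    have hk : ∀ k, 1 ≤ k → ∑ i ∈ range n, (a (i + k) * b i) ^ s ≤ 3 * m ^ s := by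
      intro k hk1
      have h1 := t3_split n a b ha hb ha1 hb1 i0 i0 k
      have h2 := hI' k
      have h3 := hmm ε hε0 hεm
      have h4 := hmm δ hδ0 hδm
      have h5 : (if k ≤ i0 then (b (i0 - k)) ^ s else 0) ≤ δ ^ s := by
        split_ifs with h
        · refine Real.rpow_le_rpow (hb _) ?_ (by norm_num)
          exact t3_other n b hb hbn hsb i0 hj0 _ (by omega)
        · exact hδs0
      have h6 : (a (i0 + k)) ^ s ≤ ε ^ s := by
        refine Real.rpow_le_rpow (ha _) ?_ (by norm_num)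
        exact t3_other n a ha han hsa i0 hi0 _ (by omega)
      linarith
    have hk' : ∀ k, 1 ≤ k → ∑ i ∈ range n, (a i * b (i + k)) ^ s ≤ 3 * m ^ s := by
      intro k hk1
      have e : ∑ i ∈ range n, (a i * b (i + k)) ^ s = ∑ i ∈ range n, (b (i + k) * a i) ^ s :=
        Finset.sum_congr rfl fun i _ => by rw [mul_comm]
      rw [e]
      have h1 := t3_split n b a hb ha hb1 ha1 i0 i0 k
      have h2 := hJ' k
      have e2 : ∑ i ∈ range n, (a' i * b' (i + k)) ^ s = ∑ i ∈ range n, (b' (i + k) * a' i) ^ s :=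
        Finset.sum_congr rfl fun i _ => by rw [mul_comm]
      rw [e2] at h2
      have h3 := hmm ε hε0 hεm
      have h4 := hmm δ hδ0 hδm
      have h5 : (if k ≤ i0 then (a (i0 - k)) ^ s else 0) ≤ ε ^ s := by
        split_ifs with h
        · refine Real.rpow_le_rpow (ha _) ?_ (by norm_num)
          exact t3_other n a ha han hsa i0 hi0 _ (by omega)
        · exact hεs0
      have h6 : (b (i0 + k)) ^ s ≤ δ ^ s := by
        refine Real.rpow_le_rpow (hb _) ?_ (by norm_num)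
        exact t3_other n b hb hbn hsb i0 hj0 _ (by omega)
      linarith
    have hX0 : 0 ≤ 1 - (ε + δ) / 4 := by linarith
    have htot := t3_tot t ht0.le ht1 n a b ha hb (1 - (ε + δ) / 4) (3 * m ^ s) hX0 (by positivity) hI0 hk hk'
    have h43 : (1 - (ε + δ) / 4) ^ (4 / 3 : ℝ) ≤ 1 - (ε + δ) / 4 := t3_43 _ hX0 (by linarith)
    have h3m : (3 * m ^ s) ^ (4 / 3 : ℝ) ≤ 5 * m ^ (7 / 10 : ℝ) := by
      rw [Real.mul_rpow (by norm_num) hms0, ← Real.rpow_mul hm0]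
      have e1 : s * (4 / 3) = (7 / 10 : ℝ) := by rw [hs]; norm_num
      rw [e1]
      refine mul_le_mul_of_nonneg_right ?_ (Real.rpow_nonneg hm0 _)
      have e2 : (3 : ℝ) ^ (4 / 3 : ℝ) = ((3 : ℝ) ^ (4 : ℝ)) ^ (1 / 3 : ℝ) := by
        rw [← Real.rpow_mul (by norm_num)]
        norm_num
      have e3 : (5 : ℝ) = ((5 : ℝ) ^ (3 : ℝ)) ^ (1 / 3 : ℝ) := by
        rw [← Real.rpow_mul (by norm_num)]
        norm_num
      rw [e2, e3]
      refine Real.rpow_le_rpow (by positivity) ?_ (by norm_num)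
      have e4 : (3 : ℝ) ^ (4 : ℝ) = 81 := by
        rw [show (4 : ℝ) = ((4 : ℕ) : ℝ) by norm_num, Real.rpow_natCast]
        norm_num
      have e5 : (5 : ℝ) ^ (3 : ℝ) = 125 := by
        rw [show (3 : ℝ) = ((3 : ℕ) : ℝ) by norm_num, Real.rpow_natCast]
        norm_num
      rw [e4, e5]
      norm_num
    have hmt : m ≤ (80 * t) ^ (10 / 3 : ℝ) := by
      apply t3_solve m (80 * t) hm0 (by positivity)
      have h1 : 2 * t / (1 - t) * (3 * m ^ s) ^ (4 / 3 : ℝ) ≤ 3 * t * (5 * m ^ (7 / 10 : ℝ)) :=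
        mul_le_mul h2t h3m (by positivity) (by positivity)
      have h2 : 0 ≤ t * m ^ (7 / 10 : ℝ) := mul_nonneg ht0.le (Real.rpow_nonneg hm0 _)
      nlinarith
    have ht1' : (80 * t) ^ (10 / 3 : ℝ) = 80 ^ (10 / 3 : ℝ) * t ^ (10 / 3 : ℝ) :=
      Real.mul_rpow (by norm_num) ht0.le
    have ht2' : (80 * t) ^ (14 / 3 : ℝ) = 80 ^ (14 / 3 : ℝ) * t ^ (14 / 3 : ℝ) :=
      Real.mul_rpow (by norm_num) ht0.le
    have hC : (80 : ℝ) ^ (10 / 3 : ℝ) ≤ 3 * 80 ^ (14 / 3 : ℝ) := by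
      have h1 : (80 : ℝ) ^ (10 / 3 : ℝ) ≤ 80 ^ (14 / 3 : ℝ) :=
        Real.rpow_le_rpow_of_exponent_le (by norm_num) (by norm_num)
      have h2 : 0 ≤ (80 : ℝ) ^ (14 / 3 : ℝ) := by positivity
      linarith
    have hmC : m ≤ 3 * 80 ^ (14 / 3 : ℝ) * t ^ (10 / 3 : ℝ) := by
      rw [ht1'] at hmt
      exact hmt.trans (mul_le_mul_of_nonneg_right hC (by positivity))
    refine ⟨i0, Finset.mem_range.1 hi0, hεm.trans hmC, hδm.trans hmC, ?_⟩
    have hm21 : ∀ x : ℝ, 0 ≤ x → x ≤ m → x ^ (1 / 20 : ℝ) * x ≤ m ^ (21 / 20 : ℝ) := by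
      intro x hx0 hxm
      have h1 : x ^ (1 / 20 : ℝ) * x = x ^ (21 / 20 : ℝ) := by
        rw [← Real.rpow_add_one' hx0 (by norm_num)]
        norm_num
      rw [h1]
      exact Real.rpow_le_rpow hx0 hxm (by norm_num)
    have h1 := hm21 ε hε0 hεm
    have h2 := hm21 δ hδ0 hδm
    have hX : (ε ^ (1 / 20 : ℝ) * ε + δ ^ (1 / 20 : ℝ) * δ) / 2 ≤ m ^ (21 / 20 : ℝ) := by linarith
    have hm210 : 0 ≤ m ^ (21 / 20 : ℝ) := Real.rpow_nonneg hm0 _
    have h3 := t3_tot t ht0.le ht1 n a' b' ha'0 hb'0 (m ^ (21 / 20 : ℝ)) (m ^ (21 / 20 : ℝ)) hm210 hm210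
      ((hI' 0).trans hX) (fun k _ => (hI' k).trans hX) (fun k _ => (hJ' k).trans hX)
    refine h3.trans ?_
    have h4 : (m ^ (21 / 20 : ℝ)) ^ (4 / 3 : ℝ) ≤ (80 * t) ^ (14 / 3 : ℝ) := by
      have e1 : (m ^ (21 / 20 : ℝ)) ^ (4 / 3 : ℝ) = m ^ (7 / 5 : ℝ) := by
        rw [← Real.rpow_mul hm0]
        norm_num
      have e2 : (80 * t) ^ (14 / 3 : ℝ) = ((80 * t) ^ (10 / 3 : ℝ)) ^ (7 / 5 : ℝ) := by
        rw [← Real.rpow_mul (by positivity)]
        norm_num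
      rw [e1, e2]
      exact Real.rpow_le_rpow hm0 hmt (by norm_num)
    rw [ht2'] at h4
    have h5 : 0 ≤ (m ^ (21 / 20 : ℝ)) ^ (4 / 3 : ℝ) := by positivity
    have h6 : 2 * t / (1 - t) * (m ^ (21 / 20 : ℝ)) ^ (4 / 3 : ℝ) ≤ 1 * (m ^ (21 / 20 : ℝ)) ^ (4 / 3 : ℝ) :=
      mul_le_mul_of_nonneg_right (by linarith) h5
    have h7 : 0 ≤ 80 ^ (14 / 3 : ℝ) * t ^ (14 / 3 : ℝ) := by positivity
    linarith
  · exfalso
    have hI0 : ∑ i ∈ range n, (a (i + 0) * b i) ^ s ≤ 3 * z ^ 2 := by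
      have h1 := t3_split n a b ha hb ha1 hb1 i0 j0 0
      have h2 := hI' 0
      simp only [add_zero, Nat.zero_le, if_true, Nat.sub_zero] at h1 h2 ⊢
      have h3 : (b i0) ^ s ≤ δ ^ s := by
        refine Real.rpow_le_rpow (hb _) ?_ (by norm_num)
        exact t3_other n b hb hbn hsb j0 hj0 _ hij
      have h4 : (a j0) ^ s ≤ ε ^ s := by
        refine Real.rpow_le_rpow (ha _) ?_ (by norm_num)
        exact t3_other n a ha han hsa i0 hi0 _ (Ne.symm hij)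
      have hmm : ∀ x : ℝ, 0 ≤ x → x ≤ 1 → x ^ (1 / 20 : ℝ) * x ≤ x ^ s := by
        intro x hx0 hx1
        have h1 : x ^ (1 / 20 : ℝ) * x = x ^ (21 / 20 : ℝ) := by
          rw [← Real.rpow_add_one' hx0 (by norm_num)]
          norm_num
        rw [h1]
        exact Real.rpow_le_rpow_of_exponent_ge' hx0 hx1 (by norm_num) (by norm_num)
      have h5 := hmm ε hε0 hε1
      have h6 := hmm δ hδ0 hδ1
      linarith
    have hI1 : ∀ k, 1 ≤ k → ∑ i ∈ range n, (a (i + k) * b i) ^ s ≤ 1 := by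
      intro k _
      refine (t3_in n (fun i => a (i + k)) b (fun i => ha _) hb).trans ?_
      have h1 := hSa1 k
      have h2 := hSb1 0
      simp only [add_zero] at h2
      linarith
    have hJ1 : ∀ k, 1 ≤ k → ∑ i ∈ range n, (a i * b (i + k)) ^ s ≤ 1 := by
      intro k _
      refine (t3_in n a (fun i => b (i + k)) ha (fun i => hb _)).trans ?_
      have h1 := hSb1 k
      have h2 := hSa1 0
      simp only [add_zero] at h2
      linarith
    have hz2' : z ^ 2 ≤ 1 / 36 := by nlinarith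
    have h3 := t3_tot t ht0.le ht1 n a b ha hb (3 * z ^ 2) 1 (by positivity) zero_le_one hI0 hI1 hJ1
    have h4 := t3_43 (3 * z ^ 2) (by positivity) (by linarith)
    rw [Real.one_rpow, mul_one] at h3
    linarith

end Pool.Agent.H20G
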