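import Mathlib
import Pool.Agent.Lib.H20G.Defs

set_option autoImplicit false

/-!
# H20G chunk G4A: structure of good pairs
-/

namespace Pool.Agent.H20G

open Finset

theorem g4a_x {N v : ℕ} (hN : 0 < N) (hv : 0 < v) (p : ℕ) :
    (v / Nat.gcd v N).factorization p = v.factorization p - N.factorization p := by
  rw [Nat.factorization_div (Nat.gcd_dvd_left v N), Nat.factorization_gcd hv.ne' hN.ne', Finsupp.tsub_apply, Finsupp.inf_apply]
  omega

theorem g4a_h {N v : ℕ} (hN : 0 < N) (hv : 0 < v) (p : ℕ) :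
    (N / Nat.gcd v N).factorization p = N.factorization p - v.factorization p := by
  rw [Nat.factorization_div (Nat.gcd_dvd_right v N), Nat.factorization_gcd hv.ne' hN.ne', Finsupp.tsub_apply, Finsupp.inf_apply]
  omega

theorem g4a_pos {m p : ℕ} (hm : 0 < m) (hp : p.Prime) (h : p ∣ m) : m.factorization p ≠ 0 :=
  (hp.factorization_pos_of_dvd hm.ne' h).ne'

/-- A good pair `(v, w)`: `v = (N/h) x`, `w = (N/h') x'` with `h = N/gcd(v,N)`, `x = v/gcd(v,N)` etc.; `gcd(x h', x' h) = 1` and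
`lcm(v,w) = N x x'`. PROOF prime by prime (`Nat.eq_of_factorization_eq`, `Nat.coprime_of_...`): `x_p = (v_p - N_p)^+`, `h_p = (N_p - v_p)^+`,
`x'_p = (w_p - N_p)^+`, `h'_p = (N_p - w_p)^+`, and for each `p` one of the pairs `(x_p, h_p)`, `(x'_p, h'_p)` is `(0,0)`. -/
theorem g4_struct (N v w : ℕ) (hN : 0 < N) (hv : 0 < v) (hw : 0 < w) (hg : GoodP N v w) :
    N / (N / Nat.gcd v N) * (v / Nat.gcd v N) = v ∧ N / (N / Nat.gcd w N) * (w / Nat.gcd w N) = w ∧
    Nat.Coprime ((v / Nat.gcd v N) * (N / Nat.gcd w N)) ((w / Nat.gcd w N) * (N / Nat.gcd v N)) ∧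
    Nat.lcm v w = N * (v / Nat.gcd v N) * (w / Nat.gcd w N) := by
  have key : ∀ u, 0 < u → N / (N / Nat.gcd u N) * (u / Nat.gcd u N) = u := by
    intro u hu
    rw [Nat.div_div_self (Nat.gcd_dvd_right u N) hN.ne', Nat.mul_div_cancel' (Nat.gcd_dvd_left u N)]
  have gv : 0 < Nat.gcd v N := Nat.gcd_pos_of_pos_left _ hv
  have gw : 0 < Nat.gcd w N := Nat.gcd_pos_of_pos_left _ hw
  have x0 : 0 < v / Nat.gcd v N := Nat.div_pos (Nat.le_of_dvd hv (Nat.gcd_dvd_left v N)) gv
  have h0 : 0 < N / Nat.gcd v N := Nat.div_pos (Nat.le_of_dvd hN (Nat.gcd_dvd_right v N)) gv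
  have x1 : 0 < w / Nat.gcd w N := Nat.div_pos (Nat.le_of_dvd hw (Nat.gcd_dvd_left w N)) gw
  have h1 : 0 < N / Nat.gcd w N := Nat.div_pos (Nat.le_of_dvd hN (Nat.gcd_dvd_right w N)) gw
  refine ⟨key v hv, key w hw, ?_, ?_⟩
  · refine Nat.Coprime.symm (Nat.coprime_of_dvd fun p hp h2 h3 => ?_)
    rcases (Nat.Prime.dvd_mul hp).1 h3 with h4 | h4 <;> rcases (Nat.Prime.dvd_mul hp).1 h2 with h5 | h5
    · have e1 := g4a_pos x0 hp h4
      have e2 := g4a_pos x1 hp h5
      rw [g4a_x hN hv] at e1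
      rw [g4a_x hN hw] at e2
      rcases hg p hp with h6 | h6 <;> omega
    · have e1 := g4a_pos x0 hp h4
      have e2 := g4a_pos h0 hp h5
      rw [g4a_x hN hv] at e1
      rw [g4a_h hN hv] at e2
      omega
    · have e1 := g4a_pos h1 hp h4
      have e2 := g4a_pos x1 hp h5
      rw [g4a_h hN hw] at e1
      rw [g4a_x hN hw] at e2
      omega
    · have e1 := g4a_pos h1 hp h4
      have e2 := g4a_pos h0 hp h5
      rw [g4a_h hN hw] at e1
      rw [g4a_h hN hv] at e2
      rcases hg p hp with h6 | h6 <;> omega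
  · refine Nat.eq_of_factorization_eq (Nat.lcm_ne_zero hv.ne' hw.ne') (by positivity) fun p => ?_
    rw [Nat.factorization_lcm hv.ne' hw.ne', Nat.factorization_mul (by positivity) x1.ne', Nat.factorization_mul hN.ne' x0.ne',
      Finsupp.sup_apply, Finsupp.add_apply, Finsupp.add_apply, g4a_x hN hv, g4a_x hN hw]
    by_cases hp : p.Prime
    · rcases hg p hp with h6 | h6 <;> omega
    · rw [Nat.factorization_eq_zero_of_not_prime _ hp, Nat.factorization_eq_zero_of_not_prime _ hp,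
        Nat.factorization_eq_zero_of_not_prime _ hp]
      rfl

end Pool.Agent.H20G
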