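import Mathlib
import Pool.Agent.Lib.H20G.Defs
import Pool.Agent.Lib.H20G.D2
import Pool.Agent.Lib.H20G.G4A

set_option autoImplicit false

/-!
# H20G chunk T4: good pairs
-/

namespace Pool.Agent.H20G

open Finset

open Classical in
/-- `#{(v, w) ∈ V × W : v b = w a, (v, w) good for N}` -/
noncomputable def cnG (N : ℕ) (V W : Finset ℕ) (a b : ℕ) : ℕ :=
  ((V ×ˢ W).filter (fun x : ℕ × ℕ => x.1 * b = x.2 * a ∧ GoodP N x.1 x.2)).card

theorem t4_pair {N v w a b : ℕ} (hN : 0 < N) (hv : 0 < v) (hw : 0 < w) (ha : 0 < a) (hb : 0 < b)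
    (hab : Nat.Coprime a b) (hg : GoodP N v w) (h : v * b = w * a) :
    v / Nat.gcd v N * (N / Nat.gcd w N) = a ∧ w / Nat.gcd w N * (N / Nat.gcd v N) = b := by
  obtain ⟨h1, h2, h3, -⟩ := g4_struct N v w hN hv hw hg
  have e1 : Nat.gcd v N ∣ N := Nat.gcd_dvd_right _ _
  have e2 : Nat.gcd w N ∣ N := Nat.gcd_dvd_right _ _
  obtain ⟨g, hg1⟩ : ∃ g, N / Nat.gcd v N = g := ⟨_, rfl⟩
  obtain ⟨g', hg2⟩ : ∃ g, N / Nat.gcd w N = g := ⟨_, rfl⟩
  obtain ⟨x, hx⟩ : ∃ x, v / Nat.gcd v N = x := ⟨_, rfl⟩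
  obtain ⟨x', hx'⟩ : ∃ x, w / Nat.gcd w N = x := ⟨_, rfl⟩
  rw [hg1, hx] at h1
  rw [hg2, hx'] at h2
  rw [hx, hx', hg1, hg2] at h3
  rw [hx, hx', hg1, hg2]
  have hgN : g ∣ N := by
    rw [← hg1]
    exact Nat.div_dvd_of_dvd e1
  have hgN' : g' ∣ N := by
    rw [← hg2]
    exact Nat.div_dvd_of_dvd e2
  have e3 : N / g * g = N := Nat.div_mul_cancel hgN
  have e4 : N / g' * g' = N := Nat.div_mul_cancel hgN'
  -- `(x g') b = (x' g) a`
  have e5 : x * g' * b = x' * g * a := by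
    have e6 : N * (x * g' * b) = N * (x' * g * a) := by
      calc N * (x * g' * b) = (N / g * g) * (x * g' * b) := by rw [e3]
        _ = (N / g * x) * b * (g * g') := by ring
        _ = v * b * (g * g') := by rw [h1]
        _ = w * a * (g * g') := by rw [h]
        _ = (N / g' * x') * a * (g * g') := by rw [h2]
        _ = (N / g' * g') * (x' * g * a) := by ring
        _ = N * (x' * g * a) := by rw [e4]
    exact Nat.eq_of_mul_eq_mul_left hN e6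
  have e7 : x * g' ∣ a := h3.dvd_of_dvd_mul_left (Dvd.intro _ e5)
  have e8 : a ∣ x * g' := hab.dvd_of_dvd_mul_right (Dvd.intro_left _ e5.symm)
  have e9 : x * g' = a := Nat.dvd_antisymm e7 e8
  refine ⟨e9, ?_⟩
  rw [e9] at e5
  have e10 : a * b = a * (x' * g) := by rw [e5]; ring
  exact (Nat.eq_of_mul_eq_mul_left ha e10).symm

/-- PROOF. For a counted pair let `h = N/gcd(v,N)`, `h' = N/gcd(w,N)`, `x, x'` as in `g4_struct`. `v/w = x h'/(x' h)` in lowest terms, so `a = x h'`,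
`b = x' h` (`a`, `b` coprime), `h' ∣ gcd(a,N)`, `h ∣ gcd(b,N)`, and `(v,w) = (N x/h, N x'/h')` is determined by `(h,h')` (`x = a/h'`, `x' = b/h`). -/
theorem t4_tau (N : ℕ) (hN : 0 < N) (V W : Finset ℕ) (hV : ∀ v ∈ V, 0 < v) (hW : ∀ w ∈ W, 0 < w) (a b : ℕ) (ha : 0 < a)
    (hb : 0 < b) (hab : Nat.Coprime a b) :
    cnG N V W a b ≤ (Nat.gcd a N).divisors.card * (Nat.gcd b N).divisors.card := by
  classical
  rw [← card_product]
  unfold cnG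
  refine card_le_card_of_injOn (fun x => (N / Nat.gcd x.2 N, N / Nat.gcd x.1 N)) ?_ ?_
  · rintro ⟨v, w⟩ hx
    rw [mem_coe, mem_filter, mem_product] at hx
    obtain ⟨⟨hv, hw⟩, h1, h2⟩ := hx
    obtain ⟨e1, e2⟩ := t4_pair hN (hV v hv) (hW w hw) ha hb hab h2 h1
    rw [mem_coe, mem_product, Nat.mem_divisors, Nat.mem_divisors]
    have p1 : Nat.gcd w N ∣ N := Nat.gcd_dvd_right _ _
    have p2 : Nat.gcd v N ∣ N := Nat.gcd_dvd_right _ _
    refine ⟨⟨Nat.dvd_gcd ?_ (Nat.div_dvd_of_dvd p1), (Nat.gcd_pos_of_pos_left _ ha).ne'⟩,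
      ⟨Nat.dvd_gcd ?_ (Nat.div_dvd_of_dvd p2), (Nat.gcd_pos_of_pos_left _ hb).ne'⟩⟩
    · exact Dvd.intro_left _ e1
    · exact Dvd.intro_left _ e2
  · rintro ⟨v, w⟩ hx ⟨v', w'⟩ hx' h
    rw [mem_coe, mem_filter, mem_product] at hx hx'
    obtain ⟨⟨hv, hw⟩, h1, h2⟩ := hx
    obtain ⟨⟨hv', hw'⟩, h1', h2'⟩ := hx'
    simp only at hv hw hv' hw' h1 h1' h2 h2'
    obtain ⟨e1, e2⟩ := t4_pair hN (hV v hv) (hW w hw) ha hb hab h2 h1
    obtain ⟨e1', e2'⟩ := t4_pair hN (hV v' hv') (hW w' hw') ha hb hab h2' h1'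
    obtain ⟨s1, s2, -, -⟩ := g4_struct N v w hN (hV v hv) (hW w hw) h2
    obtain ⟨s1', s2', -, -⟩ := g4_struct N v' w' hN (hV v' hv') (hW w' hw') h2'
    simp only [Prod.mk.injEq] at h
    obtain ⟨k1, k2⟩ := h
    have q1 : 0 < N / Nat.gcd w N := Nat.div_pos (Nat.le_of_dvd hN (Nat.gcd_dvd_right _ _))
      (Nat.gcd_pos_of_pos_right _ hN)
    have q2 : 0 < N / Nat.gcd v N := Nat.div_pos (Nat.le_of_dvd hN (Nat.gcd_dvd_right _ _))
      (Nat.gcd_pos_of_pos_right _ hN)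
    have x1 : v / Nat.gcd v N = v' / Nat.gcd v' N := by
      rw [← k1] at e1'
      exact Nat.eq_of_mul_eq_mul_right q1 (e1.trans e1'.symm)
    have x2 : w / Nat.gcd w N = w' / Nat.gcd w' N := by
      rw [← k2] at e2'
      exact Nat.eq_of_mul_eq_mul_right q2 (e2.trans e2'.symm)
    have z1 : v = v' := by rw [← s1, ← s1', x1, k2]
    have z2 : w = w' := by rw [← s2, ← s2', x2, k1]
    rw [z1, z2]

/-- PROOF. `∑_{a ≤ A} τ(gcd(a,N))^3 ≤ ∑_{m ∣ N} τ(m)^3 #{a ≤ A : m ∣ a} ≤ ∑_{m ∣ N} τ(m)^3 A/m`, `d2_tau`. -/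
theorem t4_moment (N : ℕ) (hN : 0 < N) (A : ℝ) (hA : 0 ≤ A) :
    ∑ a ∈ Icc 1 ⌊A⌋₊, ((Nat.gcd a N).divisors.card : ℝ) ^ 3 ≤ Real.exp (200 * rp N) * A := by
  have h1 : ∀ a ∈ Icc 1 ⌊A⌋₊, ((Nat.gcd a N).divisors.card : ℝ) ^ 3 ≤
      ∑ m ∈ N.divisors, if m ∣ a then ((m.divisors.card : ℝ) ^ 3) else 0 := by
    intro a _
    have h2 : Nat.gcd a N ∈ N.divisors := Nat.mem_divisors.2 ⟨Nat.gcd_dvd_right _ _, hN.ne'⟩
    have h3 := single_le_sum (f := fun m : ℕ => if m ∣ a then ((m.divisors.card : ℝ) ^ 3) else 0)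
      (fun m _ => by beta_reduce; split_ifs <;> positivity) h2
    rw [if_pos (Nat.gcd_dvd_left _ _)] at h3
    exact h3
  refine (sum_le_sum h1).trans ?_
  rw [sum_comm]
  have h2 : ∀ m ∈ N.divisors, ∑ a ∈ Icc 1 ⌊A⌋₊, (if m ∣ a then ((m.divisors.card : ℝ) ^ 3) else 0) ≤
      ((m.divisors.card : ℝ) ^ 3 / m) * A := by
    intro m hm
    have hm0 : 0 < m := Nat.pos_of_mem_divisors hm
    have hm0' : (0 : ℝ) < m := by exact_mod_cast hm0
    rw [← sum_filter, sum_const, nsmul_eq_mul]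
    have h3 : ((Icc 1 ⌊A⌋₊).filter fun a => m ∣ a).card = ⌊A⌋₊ / m := by
      have := Nat.Ioc_filter_dvd_card_eq_div ⌊A⌋₊ m
      rw [← this]
      congr 1
    rw [h3]
    have h4 : ((⌊A⌋₊ / m : ℕ) : ℝ) ≤ A / m := by
      refine Nat.cast_div_le.trans ?_
      exact div_le_div_of_nonneg_right (Nat.floor_le hA) hm0'.le
    calc ((⌊A⌋₊ / m : ℕ) : ℝ) * (m.divisors.card : ℝ) ^ 3 ≤ A / m * (m.divisors.card : ℝ) ^ 3 :=
          mul_le_mul_of_nonneg_right h4 (by positivity)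
      _ = ((m.divisors.card : ℝ) ^ 3 / m) * A := by ring
  refine (sum_le_sum h2).trans ?_
  rw [← sum_mul]
  exact mul_le_mul_of_nonneg_right (d2_tau N hN) hA

end Pool.Agent.H20G
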