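import Mathlib
import Pool.Agent.Lib.H20G.Defs
import Pool.Agent.Lib.H20G.T2A
import Pool.Agent.Lib.H20G.T4

set_option autoImplicit false

/-!
# H20G chunk T5: the sum over good pairs
-/

namespace Pool.Agent.H20G

open Finset

/-- each pair `(v,w)` of positive integers is counted for exactly one coprime `(a,b)` -/
theorem t5_total (N : ℕ) (V W : Finset ℕ) (hV : ∀ v ∈ V, 0 < v) (hW : ∀ w ∈ W, 0 < w) (A B : ℝ) :
    ∑ x ∈ cp A B, (cnG N V W x.1 x.2 : ℝ) ≤ (V.card : ℝ) * W.card := by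
  classical
  have h1 : ∀ x : ℕ × ℕ, (cnG N V W x.1 x.2 : ℝ) =
      ∑ y ∈ V ×ˢ W, if y.1 * x.2 = y.2 * x.1 ∧ GoodP N y.1 y.2 then (1 : ℝ) else 0 := by
    intro x
    unfold cnG
    rw [card_filter]
    push_cast
    rfl
  simp_rw [h1]
  rw [sum_comm]
  have h2 : ∀ y ∈ V ×ˢ W, (∑ x ∈ cp A B, if y.1 * x.2 = y.2 * x.1 ∧ GoodP N y.1 y.2 then (1 : ℝ) else 0) ≤ 1 := by
    rintro ⟨v, w⟩ hy
    rw [mem_product] at hy
    have hv := hV v hy.1
    have hw := hW w hy.2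
    have h3 : (∑ x ∈ cp A B, if v * x.2 = w * x.1 ∧ GoodP N v w then (1 : ℝ) else 0) =
        (((cp A B).filter fun x => v * x.2 = w * x.1 ∧ GoodP N v w).card : ℝ) := by
      rw [card_filter]
      push_cast
      rfl
    show (∑ x ∈ cp A B, if v * x.2 = w * x.1 ∧ GoodP N v w then (1 : ℝ) else 0) ≤ 1
    rw [h3]
    have h4 : ((cp A B).filter fun x => v * x.2 = w * x.1 ∧ GoodP N v w).card ≤ 1 := by
      rw [card_le_one]
      rintro ⟨a, b⟩ ha ⟨a', b'⟩ ha'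
      unfold cp at ha ha'
      simp only [mem_filter, mem_product, mem_Icc] at ha ha'
      obtain ⟨⟨⟨⟨a1, -⟩, b1, -⟩, c1⟩, d1, -⟩ := ha
      obtain ⟨⟨⟨⟨a1', -⟩, b1', -⟩, c1'⟩, d1', -⟩ := ha'
      have e1 : b * a' = b' * a := by
        have e2 : v * (b * a') = v * (b' * a) := by
          calc v * (b * a') = (v * b) * a' := by ring
            _ = (w * a) * a' := by rw [d1]
            _ = (w * a') * a := by ring
            _ = (v * b') * a := by rw [d1']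
            _ = v * (b' * a) := by ring
        exact Nat.eq_of_mul_eq_mul_left hv e2
      have e3 : a ∣ a' := c1.dvd_of_dvd_mul_left (Dvd.intro_left _ e1.symm)
      have e4 : a' ∣ a := c1'.dvd_of_dvd_mul_left (Dvd.intro_left _ e1)
      have e5 : a = a' := Nat.dvd_antisymm e3 e4
      subst e5
      have e6 : b = b' := Nat.eq_of_mul_eq_mul_right (by omega) e1
      rw [e6]
    exact_mod_cast h4
  refine (sum_le_sum h2).trans ?_
  rw [sum_const, nsmul_eq_mul, mul_one, card_product]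
  push_cast
  exact le_rfl

/-- PROOF. `t2_hold2`, `t5_total`, and `∑ cnG^{19/9} ≤ ∑ (τ(gcd(a,N)) τ(gcd(b,N)))^3 ≤ exp(400 rp N) A B` (`t4_tau`, `t4_moment`; `19/9 ≤ 3`, the base is
`≥ 1` or `cnG = 0`). -/
theorem t5_good (N : ℕ) (hN : 0 < N) (V W : Finset ℕ) (hV : ∀ v ∈ V, 0 < v) (hW : ∀ w ∈ W, 0 < w) (A B : ℝ) (hA : 0 < A)
    (hB : 0 < B) :
    ∑ x ∈ cp A B, (cnG N V W x.1 x.2 : ℝ) ^ (4 / 3 : ℝ) ≤
      Real.exp (120 * rp N) * (A * B) ^ (3 / 10 : ℝ) * ((V.card : ℝ) * W.card) ^ (7 / 10 : ℝ) := by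
  have hc0 : ∀ x : ℕ × ℕ, (0 : ℝ) ≤ (cnG N V W x.1 x.2 : ℝ) := fun x => Nat.cast_nonneg _
  have h1 := t2_hold2 (cp A B) (fun x => (cnG N V W x.1 x.2 : ℝ)) hc0
  have h2 := t5_total N V W hV hW A B
  have h3 : ∑ x ∈ cp A B, (cnG N V W x.1 x.2 : ℝ) ^ (19 / 9 : ℝ) ≤ Real.exp (400 * rp N) * (A * B) := by
    have e1 : ∀ x ∈ cp A B, (cnG N V W x.1 x.2 : ℝ) ^ (19 / 9 : ℝ) ≤
        ((Nat.gcd x.1 N).divisors.card : ℝ) ^ 3 * ((Nat.gcd x.2 N).divisors.card : ℝ) ^ 3 := by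
      rintro ⟨a, b⟩ hx
      unfold cp at hx
      simp only [mem_filter, mem_product, mem_Icc] at hx
      obtain ⟨⟨⟨a1, -⟩, b1, -⟩, c1⟩ := hx
      have e2 := t4_tau N hN V W hV hW a b (by omega) (by omega) c1
      rcases Nat.eq_zero_or_pos (cnG N V W a b) with h0 | h0
      · show (cnG N V W a b : ℝ) ^ (19 / 9 : ℝ) ≤ _
        rw [h0, Nat.cast_zero, Real.zero_rpow (by norm_num)]
        positivity
      · have e3 : (1 : ℝ) ≤ (cnG N V W a b : ℝ) := by exact_mod_cast h0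
        have e4 : (cnG N V W a b : ℝ) ≤ ((Nat.gcd a N).divisors.card : ℝ) * ((Nat.gcd b N).divisors.card : ℝ) := by
          exact_mod_cast e2
        show (cnG N V W a b : ℝ) ^ (19 / 9 : ℝ) ≤ ((Nat.gcd a N).divisors.card : ℝ) ^ 3 * ((Nat.gcd b N).divisors.card : ℝ) ^ 3
        rw [← mul_pow]
        calc (cnG N V W a b : ℝ) ^ (19 / 9 : ℝ) ≤ (cnG N V W a b : ℝ) ^ (3 : ℝ) :=
              Real.rpow_le_rpow_of_exponent_le e3 (by norm_num)
          _ = (cnG N V W a b : ℝ) ^ 3 := by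
              rw [← Real.rpow_natCast]
              norm_num
          _ ≤ _ := pow_le_pow_left₀ (by linarith) e4 3
    have e5 : ∑ x ∈ cp A B, ((Nat.gcd x.1 N).divisors.card : ℝ) ^ 3 * ((Nat.gcd x.2 N).divisors.card : ℝ) ^ 3 ≤
        ∑ x ∈ (Icc 1 ⌊A⌋₊) ×ˢ (Icc 1 ⌊B⌋₊),
          ((Nat.gcd x.1 N).divisors.card : ℝ) ^ 3 * ((Nat.gcd x.2 N).divisors.card : ℝ) ^ 3 :=
      sum_le_sum_of_subset_of_nonneg (filter_subset _ _) fun x _ _ => by positivity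
    refine (sum_le_sum e1).trans (e5.trans ?_)
    rw [sum_product]
    have e6 : (∑ x ∈ Icc 1 ⌊A⌋₊, ∑ y ∈ Icc 1 ⌊B⌋₊,
        ((Nat.gcd x N).divisors.card : ℝ) ^ 3 * ((Nat.gcd y N).divisors.card : ℝ) ^ 3) =
        (∑ x ∈ Icc 1 ⌊A⌋₊, ((Nat.gcd x N).divisors.card : ℝ) ^ 3) *
          ∑ y ∈ Icc 1 ⌊B⌋₊, ((Nat.gcd y N).divisors.card : ℝ) ^ 3 := by
      rw [sum_mul_sum]
    rw [e6]
    have e7 := t4_moment N hN A hA.le
    have e8 := t4_moment N hN B hB.le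
    calc _ ≤ (Real.exp (200 * rp N) * A) * (Real.exp (200 * rp N) * B) :=
          mul_le_mul e7 e8 (sum_nonneg fun x _ => by positivity) (by positivity)
      _ = Real.exp (200 * rp N) * Real.exp (200 * rp N) * (A * B) := by ring
      _ = Real.exp (400 * rp N) * (A * B) := by
          rw [← Real.exp_add]
          congr 2
          ring
  refine h1.trans ?_
  have hS0 : 0 ≤ ∑ x ∈ cp A B, (cnG N V W x.1 x.2 : ℝ) := sum_nonneg fun x _ => hc0 x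
  have hS1 : 0 ≤ ∑ x ∈ cp A B, (cnG N V W x.1 x.2 : ℝ) ^ (19 / 9 : ℝ) :=
    sum_nonneg fun x _ => Real.rpow_nonneg (hc0 x) _
  calc (∑ x ∈ cp A B, (cnG N V W x.1 x.2 : ℝ)) ^ (7 / 10 : ℝ) *
        (∑ x ∈ cp A B, (cnG N V W x.1 x.2 : ℝ) ^ (19 / 9 : ℝ)) ^ (3 / 10 : ℝ)
      ≤ ((V.card : ℝ) * W.card) ^ (7 / 10 : ℝ) * (Real.exp (400 * rp N) * (A * B)) ^ (3 / 10 : ℝ) :=
        mul_le_mul (Real.rpow_le_rpow hS0 h2 (by norm_num)) (Real.rpow_le_rpow hS1 h3 (by norm_num))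
          (Real.rpow_nonneg hS1 _) (Real.rpow_nonneg (by positivity) _)
    _ = Real.exp (120 * rp N) * (A * B) ^ (3 / 10 : ℝ) * ((V.card : ℝ) * W.card) ^ (7 / 10 : ℝ) := by
        rw [Real.mul_rpow (Real.exp_pos _).le (by positivity), ← Real.exp_mul]
        have : 400 * rp N * (3 / 10 : ℝ) = 120 * rp N := by ring
        rw [this]
        ring

end Pool.Agent.H20G
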