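import Mathlib
import Pool.Agent.Lib.H20G.Defs

set_option autoImplicit false

/-!
# H20G chunk G1: slices of configurations
-/

namespace Pool.Agent.H20G

open Finset

theorem g1_elt {p i u : ℕ} (hp : p.Prime) (hu : 0 < u) (hi : u.factorization p = i) :
    p ^ i * (u / p ^ i) = u ∧ 0 < u / p ^ i ∧ Nat.Coprime (u / p ^ i) p ∧ u / p ^ i ∣ u := by
  subst hi
  have h1 : p ^ u.factorization p * (u / p ^ u.factorization p) = u := Nat.ordProj_mul_ordCompl_eq_self u p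
  refine ⟨h1, ?_, ?_, ?_⟩
  · exact Nat.ordCompl_pos p hu.ne'
  · exact (Nat.coprime_ordCompl hp hu.ne').symm
  · exact Nat.ordCompl_dvd u p

/-- Slicing a configuration. PROOF. Write `v = p^i v'` with `p ∤ v'` for `v_p(v) = i` (`Nat.ordProj_mul_ordCompl_eq_self`). Then
`α p^i · v' = α v`, `v'` is coprime to `α p^i` and to `β p^j`, and `lcm(p^i v', p^j w') = p^{max(i,j)} lcm(v', w')` for `p ∤ v', w'`
(compare factorizations, or `Nat.Coprime` lemmas), hence the bound `L / p^{max(i,j)}`. -/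
theorem g1_slice {c0 : ℝ} {E0 : Set (ℕ × ℕ)} {α β : ℕ} {V W : Finset ℕ} {E : Finset (ℕ × ℕ)} {L : ℝ}
    (h : Cfg c0 E0 α β V W E L) {p : ℕ} (hp : p.Prime) (hα : ¬ p ∣ α) (hβ : ¬ p ∣ β) (i j : ℕ) :
    Cfg c0 E0 (α * p ^ i) (β * p ^ j) (sl p i V) (sl p j W) (slE p i j E) (L / (p : ℝ) ^ (max i j)) := by
  refine ⟨Nat.mul_pos h.hα (pow_pos hp.pos _), Nat.mul_pos h.hβ (pow_pos hp.pos _),
    div_pos h.hL (pow_pos (by exact_mod_cast hp.pos) _), ?_, ?_, ?_⟩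
  · intro v hv
    simp only [sl, mem_image, mem_filter] at hv
    obtain ⟨u, ⟨huV, hui⟩, rfl⟩ := hv
    obtain ⟨h0, h1, h2, h3⟩ := h.hV u huV
    obtain ⟨e1, e2, e3, e4⟩ := g1_elt hp h0 hui
    refine ⟨e2, ?_, ?_, ?_⟩
    · exact Nat.Coprime.mul_right (Nat.Coprime.coprime_dvd_left e4 h1) (Nat.Coprime.pow_right _ e3)
    · exact Nat.Coprime.mul_right (Nat.Coprime.coprime_dvd_left e4 h2) (Nat.Coprime.pow_right _ e3)
    · rw [mul_assoc, e1]
      exact h3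
  · intro w hw
    simp only [sl, mem_image, mem_filter] at hw
    obtain ⟨u, ⟨huV, hui⟩, rfl⟩ := hw
    obtain ⟨h0, h1, h2, h3⟩ := h.hW u huV
    obtain ⟨e1, e2, e3, e4⟩ := g1_elt hp h0 hui
    refine ⟨e2, ?_, ?_, ?_⟩
    · exact Nat.Coprime.mul_right (Nat.Coprime.coprime_dvd_left e4 h1) (Nat.Coprime.pow_right _ e3)
    · exact Nat.Coprime.mul_right (Nat.Coprime.coprime_dvd_left e4 h2) (Nat.Coprime.pow_right _ e3)
    · rw [mul_assoc, e1]
      exact h3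
  · intro x hx
    simp only [slE, mem_image, mem_filter] at hx
    obtain ⟨u, ⟨huE, hui, huj⟩, rfl⟩ := hx
    obtain ⟨h0, h1, h2, h3⟩ := h.hE u huE
    have p1 := (h.hV _ h0).1
    have p2 := (h.hW _ h1).1
    obtain ⟨e1, e2, e3, e4⟩ := g1_elt hp p1 hui
    obtain ⟨f1, f2, f3, f4⟩ := g1_elt hp p2 huj
    refine ⟨?_, ?_, ?_, ?_⟩
    · simp only [sl, mem_image, mem_filter]
      exact ⟨u.1, ⟨h0, hui⟩, rfl⟩
    · simp only [sl, mem_image, mem_filter]
      exact ⟨u.2, ⟨h1, huj⟩, rfl⟩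
    · show (α * p ^ i * (u.1 / p ^ i), β * p ^ j * (u.2 / p ^ j)) ∈ E0
      rw [mul_assoc, e1, mul_assoc, f1]
      exact h2
    · show ((Nat.lcm (u.1 / p ^ i) (u.2 / p ^ j) : ℕ) : ℝ) ≤ L / (p : ℝ) ^ (max i j)
      have hpp : (0 : ℝ) < (p : ℝ) ^ (max i j) := pow_pos (by exact_mod_cast hp.pos) _
      rw [le_div_iff₀ hpp]
      refine le_trans ?_ h3
      have hdvd : Nat.lcm (u.1 / p ^ i) (u.2 / p ^ j) * p ^ (max i j) ∣ Nat.lcm u.1 u.2 := by
        refine Nat.Coprime.mul_dvd_of_dvd_of_dvd ?_ ?_ ?_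
        · refine Nat.Coprime.pow_right _ ?_
          refine Nat.Coprime.coprime_dvd_left (Nat.lcm_dvd_mul _ _) ?_
          exact Nat.Coprime.mul_left e3 f3
        · exact Nat.lcm_dvd (e4.trans (Nat.dvd_lcm_left _ _)) (f4.trans (Nat.dvd_lcm_right _ _))
        · rcases le_total i j with hij | hij
          · rw [max_eq_right hij]
            exact (Dvd.intro _ f1).trans (Nat.dvd_lcm_right _ _)
          · rw [max_eq_left hij]
            exact (Dvd.intro _ e1).trans (Nat.dvd_lcm_left _ _)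
      have hle := Nat.le_of_dvd (Nat.lcm_pos p1 p2) hdvd
      exact_mod_cast hle

/-- The primes of the slices: `p` has disappeared. -/
theorem g1_ps (p : ℕ) (hp : p.Prime) (i j : ℕ) (V W : Finset ℕ) (hV : ∀ v ∈ V, 0 < v) (hW : ∀ w ∈ W, 0 < w) :
    ps (sl p i V) (sl p j W) ⊆ (ps V W).erase p := by
  intro q hq
  simp only [ps, mem_biUnion, mem_union, sl, mem_image, mem_filter] at hq
  have key : ∀ (u k : ℕ), 0 < u → u.factorization p = k → q ∈ (u / p ^ k).primeFactors → q ≠ p ∧ q ∈ u.primeFactors := by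
    intro u k hu hk hqq
    obtain ⟨e1, e2, e3, e4⟩ := g1_elt hp hu hk
    have hqp := Nat.prime_of_mem_primeFactors hqq
    have hqd := Nat.dvd_of_mem_primeFactors hqq
    refine ⟨?_, ?_⟩
    · rintro rfl
      have h1 : Nat.gcd (u / q ^ k) q = 1 := e3
      have h2 : q ∣ Nat.gcd (u / q ^ k) q := Nat.dvd_gcd hqd dvd_rfl
      rw [h1] at h2
      exact hqp.one_lt.ne' (Nat.dvd_one.1 h2)
    · exact Nat.mem_primeFactors.2 ⟨hqp, hqd.trans e4, hu.ne'⟩
  simp only [mem_erase, ps, mem_biUnion, mem_union]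
  obtain ⟨v, hv | hv, hqv⟩ := hq
  · obtain ⟨u, ⟨huV, hui⟩, rfl⟩ := hv
    obtain ⟨k1, k2⟩ := key u i (hV u huV) hui hqv
    exact ⟨k1, u, Or.inl huV, k2⟩
  · obtain ⟨u, ⟨huV, hui⟩, rfl⟩ := hv
    obtain ⟨k1, k2⟩ := key u j (hW u huV) hui hqv
    exact ⟨k1, u, Or.inr huV, k2⟩

/-- `gcd(α p^i, β p^j) = gcd(α,β) p^i` for `i ≤ j`, `p ∤ α β`. -/
theorem g1_gcd (α β p i j : ℕ) (hp : p.Prime) (h1 : ¬ p ∣ α) (hij : i ≤ j) :
    Nat.gcd (α * p ^ i) (β * p ^ j) = Nat.gcd α β * p ^ i := by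
  obtain ⟨d, rfl⟩ := Nat.exists_eq_add_of_le hij
  have e : β * p ^ (i + d) = (β * p ^ d) * p ^ i := by
    rw [pow_add]
    ring
  rw [e, Nat.gcd_mul_right]
  congr 1
  have hc : Nat.Coprime α (p ^ d) := ((Nat.Prime.coprime_iff_not_dvd hp).2 h1).symm.pow_right d
  exact Nat.Coprime.gcd_mul_right_cancel_right β hc.symm

/-- `α β / gcd²` grows by `p^{|i-j|}`: `gcd(α p^i, β p^j) = gcd(α,β) p^{min(i,j)}` for `p ∤ α β`. -/
theorem g1_Lam (α β p i j : ℕ) (hα : 0 < α) (hβ : 0 < β) (hp : p.Prime) (h1 : ¬ p ∣ α) (h2 : ¬ p ∣ β) :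
    Lam (α * p ^ i) (β * p ^ j) = Lam α β * p ^ (max i j - min i j) := by
  have key : ∀ (α β i j : ℕ), 0 < α → ¬ p ∣ α → i ≤ j →
      Lam (α * p ^ i) (β * p ^ j) = Lam α β * p ^ (j - i) := by
    intro α β i j hα h1 hij
    unfold Lam
    rw [g1_gcd α β p i j hp h1 hij]
    have hpi : 0 < p ^ i := pow_pos hp.pos _
    have e1 : α * p ^ i / (Nat.gcd α β * p ^ i) = α / Nat.gcd α β := Nat.mul_div_mul_right _ _ hpi
    have e2 : β * p ^ j / (Nat.gcd α β * p ^ i) = β / Nat.gcd α β * p ^ (j - i) := by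
      have e3 : β * p ^ j = (β * p ^ (j - i)) * p ^ i := by
        rw [mul_assoc, ← pow_add, Nat.sub_add_cancel hij]
      rw [e3, Nat.mul_div_mul_right _ _ hpi]
      rw [mul_comm, Nat.mul_div_assoc _ (Nat.gcd_dvd_right α β), mul_comm]
    rw [e1, e2]
    ring
  rcases le_total i j with hij | hij
  · rw [max_eq_right hij, min_eq_left hij]
    exact key α β i j hα h1 hij
  · rw [max_eq_left hij, min_eq_right hij]
    have hs : ∀ x y : ℕ, Lam x y = Lam y x := by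
      intro x y
      unfold Lam
      rw [Nat.gcd_comm, mul_comm]
    rw [hs, hs α β]
    exact key β α j i hβ h2 hij

end Pool.Agent.H20G
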