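import Mathlib
import Pool.Agent.Lib.H20G.Defs

set_option autoImplicit false

/-!
# H20G chunk T1: the counting function and slices
-/

namespace Pool.Agent.H20G

open Finset

theorem t1_div {p i v : ℕ} (h : v.factorization p = i) : p ^ i * (v / p ^ i) = v := by
  rw [← h]
  exact Nat.ordProj_mul_ordCompl_eq_self v p

theorem t1_fact {p : ℕ} (hp : p.Prime) {k a b v w : ℕ} (ha : ¬ p ∣ a) (hb : ¬ p ∣ b) (hv : 0 < v) (hw : 0 < w)
    (h : v * b = w * (p ^ k * a)) : v.factorization p = w.factorization p + k := by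
  have ha0 : a ≠ 0 := fun h0 => ha (h0 ▸ dvd_zero p)
  have hb0 : b ≠ 0 := fun h0 => hb (h0 ▸ dvd_zero p)
  have hpk : p ^ k ≠ 0 := pow_ne_zero _ hp.ne_zero
  have h1 := congrArg (fun m : ℕ => m.factorization p) h

  rw [Nat.factorization_mul hv.ne' hb0, Nat.factorization_mul hw.ne' (mul_ne_zero hpk ha0),
    Nat.factorization_mul hpk ha0, Finsupp.add_apply, Finsupp.add_apply, Finsupp.add_apply,
    Nat.factorization_eq_zero_of_not_dvd ha, Nat.factorization_eq_zero_of_not_dvd hb, hp.factorization_pow,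
    Finsupp.single_eq_same] at h1
  omega

theorem t1_swap (V W : Finset ℕ) (a b : ℕ) : cn V W a b = cn W V b a := by
  unfold cn
  refine Finset.card_bij (fun x _ => (x.2, x.1)) ?_ ?_ ?_
  · intro x hx
    rw [mem_filter, mem_product] at hx ⊢
    exact ⟨⟨hx.1.2, hx.1.1⟩, hx.2.symm⟩
  · intro x _ y _ h
    rw [Prod.mk.injEq] at h
    exact Prod.ext h.2 h.1
  · intro y hy
    rw [mem_filter, mem_product] at hy
    refine ⟨(y.2, y.1), ?_, rfl⟩
    rw [mem_filter, mem_product]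
    exact ⟨⟨hy.1.2, hy.1.1⟩, hy.2.symm⟩

/-- PROOF. `v b = w p^k a` with `p ∤ a b` gives `v_p = w_p + k`; write `v = p^{i+k} v'`, `w = p^i w'` (`i = w_p(w)`), then `v' b = w' a`.
For each `i` the map `(v,w) ↦ (v/p^{i+k}, w/p^i)` is a bijection onto the pairs counted by `cn (sl p (i+k) V) (sl p i W) a b`. -/
theorem t1_sliceA (p : ℕ) (hp : p.Prime) (V W : Finset ℕ) (hV : ∀ v ∈ V, 0 < v) (hW : ∀ w ∈ W, 0 < w) (k a b : ℕ)
    (ha : ¬ p ∣ a) (hb : ¬ p ∣ b) (n : ℕ) (hn : ∀ w ∈ W, w.factorization p < n) :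
    cn V W (p ^ k * a) b = ∑ i ∈ range n, cn (sl p (i + k) V) (sl p i W) a b := by
  unfold cn
  rw [Finset.card_eq_sum_card_fiberwise (f := fun x : ℕ × ℕ => x.2.factorization p) (t := range n)]
  · refine Finset.sum_congr rfl fun i _ => ?_
    refine Finset.card_bij (fun x _ => (x.1 / p ^ (i + k), x.2 / p ^ i)) ?_ ?_ ?_
    · intro x hx
      rw [mem_filter, mem_filter, mem_product] at hx
      obtain ⟨⟨⟨h1, h2⟩, h3⟩, h4⟩ := hx
      have h5 := t1_fact hp ha hb (hV _ h1) (hW _ h2) h3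
      rw [h4] at h5
      rw [mem_filter, mem_product]
      refine ⟨⟨mem_image.2 ⟨x.1, mem_filter.2 ⟨h1, h5⟩, rfl⟩, mem_image.2 ⟨x.2, mem_filter.2 ⟨h2, h4⟩, rfl⟩⟩, ?_⟩
      have e1 := t1_div h5
      have e2 := t1_div h4
      have h6 : p ^ (i + k) * (x.1 / p ^ (i + k) * b) = p ^ (i + k) * (x.2 / p ^ i * a) := by
        calc p ^ (i + k) * (x.1 / p ^ (i + k) * b) = (p ^ (i + k) * (x.1 / p ^ (i + k))) * b := by ring
          _ = x.2 * (p ^ k * a) := by rw [e1, h3]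
          _ = (p ^ i * (x.2 / p ^ i)) * (p ^ k * a) := by rw [e2]
          _ = p ^ (i + k) * (x.2 / p ^ i * a) := by rw [pow_add]; ring
      exact Nat.eq_of_mul_eq_mul_left (pow_pos hp.pos _) h6
    · intro x hx y hy h
      rw [mem_filter, mem_filter, mem_product] at hx hy
      obtain ⟨⟨⟨h1, h2⟩, h3⟩, h4⟩ := hx
      obtain ⟨⟨⟨g1, g2⟩, g3⟩, g4⟩ := hy
      have h5 := t1_fact hp ha hb (hV _ h1) (hW _ h2) h3
      have g5 := t1_fact hp ha hb (hV _ g1) (hW _ g2) g3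
      rw [h4] at h5
      rw [g4] at g5
      rw [Prod.mk.injEq] at h
      refine Prod.ext ?_ ?_
      · rw [← t1_div h5, ← t1_div g5, h.1]
      · rw [← t1_div h4, ← t1_div g4, h.2]
    · intro y hy
      rw [mem_filter, mem_product] at hy
      obtain ⟨⟨h1, h2⟩, h3⟩ := hy
      obtain ⟨v, hv, hv'⟩ := mem_image.1 h1
      obtain ⟨w, hw, hw'⟩ := mem_image.1 h2
      rw [mem_filter] at hv hw
      refine ⟨(v, w), ?_, Prod.ext hv' hw'⟩
      rw [mem_filter, mem_filter, mem_product]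
      refine ⟨⟨⟨hv.1, hw.1⟩, ?_⟩, hw.2⟩
      show v * b = w * (p ^ k * a)
      rw [← hv', ← hw'] at h3
      calc v * b = p ^ (i + k) * (v / p ^ (i + k) * b) := by rw [← mul_assoc, t1_div hv.2]
        _ = p ^ (i + k) * (w / p ^ i * a) := by rw [h3]
        _ = (p ^ i * (w / p ^ i)) * (p ^ k * a) := by rw [pow_add]; ring
        _ = w * (p ^ k * a) := by rw [t1_div hw.2]
  · intro x hx
    rw [Finset.mem_coe, mem_filter, mem_product] at hx
    exact mem_range.2 (hn _ hx.1.2)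

/-- The symmetric statement (`cn V W a b = cn W V b a`). -/
theorem t1_sliceB (p : ℕ) (hp : p.Prime) (V W : Finset ℕ) (hV : ∀ v ∈ V, 0 < v) (hW : ∀ w ∈ W, 0 < w) (k a b : ℕ)
    (ha : ¬ p ∣ a) (hb : ¬ p ∣ b) (n : ℕ) (hn : ∀ v ∈ V, v.factorization p < n) :
    cn V W a (p ^ k * b) = ∑ i ∈ range n, cn (sl p i V) (sl p (i + k) W) a b := by
  rw [t1_swap, t1_sliceA p hp W V hW hV k b a hb ha n hn]
  exact Finset.sum_congr rfl fun i _ => t1_swap _ _ _ _

end Pool.Agent.H20G
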