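import Mathlib
import Pool.Agent.Lib.H20G.Defs
import Pool.Agent.Lib.H20G.T1
import Pool.Agent.Lib.H20G.T2A

set_option autoImplicit false

/-!
# H20G chunk T2: decomposition of KS at a prime
-/

namespace Pool.Agent.H20G

open Finset

theorem t2_mem_cp {A B : ℝ} {x : ℕ × ℕ} (hx : x ∈ cp A B) :
    0 < x.1 ∧ 0 < x.2 ∧ x.1 ≤ ⌊A⌋₊ ∧ x.2 ≤ ⌊B⌋₊ ∧ Nat.Coprime x.1 x.2 := by
  simp only [cp, mem_filter, mem_product, mem_Icc] at hx
  exact ⟨hx.1.1.1, hx.1.2.1, hx.1.1.2, hx.1.2.2, hx.2⟩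

/-- dividing the first coordinate by `p^k` -/
theorem t2_div {A : ℝ} (hA : 0 < A) {p k a : ℕ} (hp : p.Prime) (ha : 0 < a) (hk : a.factorization p = k) (hle : a ≤ ⌊A⌋₊) :
    p ^ k * (a / p ^ k) = a ∧ 0 < a / p ^ k ∧ ¬ p ∣ a / p ^ k ∧ a / p ^ k ≤ ⌊A / (p : ℝ) ^ k⌋₊ ∧ a / p ^ k ∣ a := by
  subst hk
  have h1 : p ^ a.factorization p * (a / p ^ a.factorization p) = a := Nat.ordProj_mul_ordCompl_eq_self a p
  refine ⟨h1, Nat.ordCompl_pos p ha.ne', Nat.not_dvd_ordCompl hp ha.ne', ?_, Nat.ordCompl_dvd a p⟩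
  have hp0 : (0 : ℝ) < (p : ℝ) ^ a.factorization p := pow_pos (by exact_mod_cast hp.pos) _
  refine Nat.le_floor ?_
  rw [le_div_iff₀ hp0]
  have h2 : (a : ℝ) ≤ A := (Nat.le_floor_iff hA.le).1 hle
  have h3 : ((a / p ^ a.factorization p : ℕ) : ℝ) * (p : ℝ) ^ a.factorization p = (a : ℝ) := by
    rw [mul_comm, ← Nat.cast_pow, ← Nat.cast_mul, h1]
  rw [h3]
  exact h2

theorem t2_partA (p : ℕ) (hp : p.Prime) (V W : Finset ℕ) (hV : ∀ v ∈ V, 0 < v) (hW : ∀ w ∈ W, 0 < w) (n : ℕ)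
    (hn' : ∀ w ∈ W, w.factorization p < n) (A B : ℝ) (hA : 0 < A) (k : ℕ) :
    ∑ x ∈ (cp A B).filter (fun x => x.1.factorization p = k ∧ ¬ p ∣ x.2), (cn V W x.1 x.2 : ℝ) ^ (4 / 3 : ℝ) ≤
      (∑ i ∈ range n, (KS (sl p (i + k) V) (sl p i W) (A / (p : ℝ) ^ k) B) ^ (3 / 4 : ℝ)) ^ (4 / 3 : ℝ) := by
  have h1 : ∑ x ∈ (cp A B).filter (fun x => x.1.factorization p = k ∧ ¬ p ∣ x.2), (cn V W x.1 x.2 : ℝ) ^ (4 / 3 : ℝ)
      = ∑ x ∈ (cp A B).filter (fun x => x.1.factorization p = k ∧ ¬ p ∣ x.2),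
        (∑ i ∈ range n, (cn (sl p (i + k) V) (sl p i W) (x.1 / p ^ k) x.2 : ℝ)) ^ (4 / 3 : ℝ) := by
    refine sum_congr rfl fun x hx => ?_
    obtain ⟨hx1, hx2, hx3⟩ := mem_filter.1 hx
    obtain ⟨c1, c2, c3, c4, c5⟩ := t2_mem_cp hx1
    obtain ⟨d1, d2, d3, d4, d5⟩ := t2_div hA hp c1 hx2 c3
    have e := t1_sliceA p hp V W hV hW k (x.1 / p ^ k) x.2 d3 hx3 n hn'
    rw [d1] at e
    rw [e]
    push_cast
    rfl
  rw [h1]
  refine (t2_mink _ _ _ fun _ _ => Nat.cast_nonneg _).trans ?_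
  refine Real.rpow_le_rpow (sum_nonneg fun i _ => Real.rpow_nonneg (sum_nonneg fun x _ => Real.rpow_nonneg (Nat.cast_nonneg _) _) _)
    ?_ (by norm_num)
  refine sum_le_sum fun i _ => ?_
  refine Real.rpow_le_rpow (sum_nonneg fun x _ => Real.rpow_nonneg (Nat.cast_nonneg _) _) ?_ (by norm_num)
  unfold KS
  have hinj : Set.InjOn (fun x : ℕ × ℕ => (x.1 / p ^ k, x.2))
      ((cp A B).filter (fun x => x.1.factorization p = k ∧ ¬ p ∣ x.2) : Finset (ℕ × ℕ)) := by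
    intro x hx y hy hxy
    obtain ⟨hx1, hx2, hx3⟩ := mem_filter.1 hx
    obtain ⟨hy1, hy2, hy3⟩ := mem_filter.1 hy
    obtain ⟨c1, c2, c3, c4, c5⟩ := t2_mem_cp hx1
    obtain ⟨c1', c2', c3', c4', c5'⟩ := t2_mem_cp hy1
    obtain ⟨d1, -⟩ := t2_div hA hp c1 hx2 c3
    obtain ⟨d1', -⟩ := t2_div hA hp c1' hy2 c3'
    have hxy' : (x.1 / p ^ k, x.2) = (y.1 / p ^ k, y.2) := hxy
    obtain ⟨e1, e2⟩ := Prod.mk.inj hxy'
    refine Prod.ext ?_ e2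
    rw [← d1, ← d1', e1]
  rw [← sum_image (f := fun y : ℕ × ℕ => (cn (sl p (i + k) V) (sl p i W) y.1 y.2 : ℝ) ^ (4 / 3 : ℝ)) hinj]
  refine sum_le_sum_of_subset_of_nonneg ?_ fun x _ _ => Real.rpow_nonneg (Nat.cast_nonneg _) _
  intro y hy
  obtain ⟨x, hx, rfl⟩ := mem_image.1 hy
  obtain ⟨hx1, hx2, hx3⟩ := mem_filter.1 hx
  obtain ⟨c1, c2, c3, c4, c5⟩ := t2_mem_cp hx1
  obtain ⟨d1, d2, d3, d4, d5⟩ := t2_div hA hp c1 hx2 c3
  simp only [cp, mem_filter, mem_product, mem_Icc]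
  exact ⟨⟨⟨d2, d4⟩, c2, c4⟩, Nat.Coprime.coprime_dvd_left d5 c5⟩

theorem t2_partB (p : ℕ) (hp : p.Prime) (V W : Finset ℕ) (hV : ∀ v ∈ V, 0 < v) (hW : ∀ w ∈ W, 0 < w) (n : ℕ)
    (hn : ∀ v ∈ V, v.factorization p < n) (A B : ℝ) (hB : 0 < B) (k : ℕ) :
    ∑ x ∈ (cp A B).filter (fun x => x.2.factorization p = k ∧ ¬ p ∣ x.1), (cn V W x.1 x.2 : ℝ) ^ (4 / 3 : ℝ) ≤
      (∑ i ∈ range n, (KS (sl p i V) (sl p (i + k) W) A (B / (p : ℝ) ^ k)) ^ (3 / 4 : ℝ)) ^ (4 / 3 : ℝ) := by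
  have h1 : ∑ x ∈ (cp A B).filter (fun x => x.2.factorization p = k ∧ ¬ p ∣ x.1), (cn V W x.1 x.2 : ℝ) ^ (4 / 3 : ℝ)
      = ∑ x ∈ (cp A B).filter (fun x => x.2.factorization p = k ∧ ¬ p ∣ x.1),
        (∑ i ∈ range n, (cn (sl p i V) (sl p (i + k) W) x.1 (x.2 / p ^ k) : ℝ)) ^ (4 / 3 : ℝ) := by
    refine sum_congr rfl fun x hx => ?_
    obtain ⟨hx1, hx2, hx3⟩ := mem_filter.1 hx
    obtain ⟨c1, c2, c3, c4, c5⟩ := t2_mem_cp hx1
    obtain ⟨d1, d2, d3, d4, d5⟩ := t2_div hB hp c2 hx2 c4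
    have e := t1_sliceB p hp V W hV hW k x.1 (x.2 / p ^ k) hx3 d3 n hn
    rw [d1] at e
    rw [e]
    push_cast
    rfl
  rw [h1]
  refine (t2_mink _ _ _ fun _ _ => Nat.cast_nonneg _).trans ?_
  refine Real.rpow_le_rpow (sum_nonneg fun i _ => Real.rpow_nonneg (sum_nonneg fun x _ => Real.rpow_nonneg (Nat.cast_nonneg _) _) _)
    ?_ (by norm_num)
  refine sum_le_sum fun i _ => ?_
  refine Real.rpow_le_rpow (sum_nonneg fun x _ => Real.rpow_nonneg (Nat.cast_nonneg _) _) ?_ (by norm_num)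
  unfold KS
  have hinj : Set.InjOn (fun x : ℕ × ℕ => (x.1, x.2 / p ^ k))
      ((cp A B).filter (fun x => x.2.factorization p = k ∧ ¬ p ∣ x.1) : Finset (ℕ × ℕ)) := by
    intro x hx y hy hxy
    obtain ⟨hx1, hx2, hx3⟩ := mem_filter.1 hx
    obtain ⟨hy1, hy2, hy3⟩ := mem_filter.1 hy
    obtain ⟨c1, c2, c3, c4, c5⟩ := t2_mem_cp hx1
    obtain ⟨c1', c2', c3', c4', c5'⟩ := t2_mem_cp hy1
    obtain ⟨d1, -⟩ := t2_div hB hp c2 hx2 c4
    obtain ⟨d1', -⟩ := t2_div hB hp c2' hy2 c4'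
    have hxy' : (x.1, x.2 / p ^ k) = (y.1, y.2 / p ^ k) := hxy
    obtain ⟨e2, e1⟩ := Prod.mk.inj hxy'
    refine Prod.ext e2 ?_
    rw [← d1, ← d1', e1]
  rw [← sum_image (f := fun y : ℕ × ℕ => (cn (sl p i V) (sl p (i + k) W) y.1 y.2 : ℝ) ^ (4 / 3 : ℝ)) hinj]
  refine sum_le_sum_of_subset_of_nonneg ?_ fun x _ _ => Real.rpow_nonneg (Nat.cast_nonneg _) _
  intro y hy
  obtain ⟨x, hx, rfl⟩ := mem_image.1 hy
  obtain ⟨hx1, hx2, hx3⟩ := mem_filter.1 hx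
  obtain ⟨c1, c2, c3, c4, c5⟩ := t2_mem_cp hx1
  obtain ⟨d1, d2, d3, d4, d5⟩ := t2_div hB hp c2 hx2 c4
  simp only [cp, mem_filter, mem_product, mem_Icc]
  exact ⟨⟨⟨c1, c3⟩, d2, d4⟩, Nat.Coprime.coprime_dvd_right d5 c5⟩

/-- no solutions if the exponent of `a` is too large -/
theorem t2_zeroA (p : ℕ) (V W : Finset ℕ) (hV : ∀ v ∈ V, 0 < v) (hW : ∀ w ∈ W, 0 < w) (n : ℕ)
    (hn : ∀ v ∈ V, v.factorization p < n) {a b : ℕ} (ha : 0 < a) (hb : 0 < b) (hpb : ¬ p ∣ b) (h : n ≤ a.factorization p) :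
    cn V W a b = 0 := by
  unfold cn
  rw [card_eq_zero, filter_eq_empty_iff]
  rintro ⟨v, w⟩ hvw e
  obtain ⟨hv, hw⟩ := mem_product.1 hvw
  have hv0 := hV v hv
  have hw0 := hW w hw
  have e' : v * b = w * a := e
  have h1 := congrArg (fun m : ℕ => m.factorization p) e'
  simp only [Nat.factorization_mul hv0.ne' hb.ne', Nat.factorization_mul hw0.ne' ha.ne', Finsupp.add_apply,
    Nat.factorization_eq_zero_of_not_dvd hpb] at h1
  have h2 := hn v hv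
  omega

theorem t2_zeroB (p : ℕ) (V W : Finset ℕ) (hV : ∀ v ∈ V, 0 < v) (hW : ∀ w ∈ W, 0 < w) (n : ℕ)
    (hn : ∀ w ∈ W, w.factorization p < n) {a b : ℕ} (ha : 0 < a) (hb : 0 < b) (hpa : ¬ p ∣ a) (h : n ≤ b.factorization p) :
    cn V W a b = 0 := by
  unfold cn
  rw [card_eq_zero, filter_eq_empty_iff]
  rintro ⟨v, w⟩ hvw e
  obtain ⟨hv, hw⟩ := mem_product.1 hvw
  have hv0 := hV v hv
  have hw0 := hW w hw
  have e' : v * b = w * a := e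
  have h1 := congrArg (fun m : ℕ => m.factorization p) e'
  simp only [Nat.factorization_mul hv0.ne' hb.ne', Nat.factorization_mul hw0.ne' ha.ne', Finsupp.add_apply,
    Nat.factorization_eq_zero_of_not_dvd hpa] at h1
  have h2 := hn w hw
  omega

/-- PROOF. A coprime pair `(a,b)` has either `a = p^k a'`, `k ≥ 1`, `p ∤ a' b`, or `b = p^k b'`, `k ≥ 1`, `p ∤ a b'`, or `p ∤ a b`. In the first case
`cn V W a b = ∑_i cn (sl p (i+k) V) (sl p i W) a' b` (`t1_sliceA`), zero if `k ≥ n`, and `(a',b) ∈ cp (A/p^k) B` (`Nat.floor` inequalities); the map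
`(a,b) ↦ (a',b)` is injective for fixed `k`. Then `t2_mink`. The `k = 0` term of the first sum contains the pairs with `p ∤ a b`. -/
theorem t2_dec (p : ℕ) (hp : p.Prime) (V W : Finset ℕ) (hV : ∀ v ∈ V, 0 < v) (hW : ∀ w ∈ W, 0 < w) (n : ℕ)
    (hn : ∀ v ∈ V, v.factorization p < n) (hn' : ∀ w ∈ W, w.factorization p < n) (A B : ℝ) (hA : 0 < A) (hB : 0 < B) :
    KS V W A B ≤
      ∑ k ∈ range n, (∑ i ∈ range n, (KS (sl p (i + k) V) (sl p i W) (A / (p : ℝ) ^ k) B) ^ (3 / 4 : ℝ)) ^ (4 / 3 : ℝ) +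
      ∑ k ∈ Ico 1 n, (∑ i ∈ range n, (KS (sl p i V) (sl p (i + k) W) A (B / (p : ℝ) ^ k)) ^ (3 / 4 : ℝ)) ^ (4 / 3 : ℝ) := by
  have h0 : ∀ x : ℕ × ℕ, 0 ≤ (cn V W x.1 x.2 : ℝ) ^ (4 / 3 : ℝ) := fun x => Real.rpow_nonneg (Nat.cast_nonneg _) _
  have hz : (0 : ℝ) ^ (4 / 3 : ℝ) = 0 := Real.zero_rpow (by norm_num)
  have hsplit : KS V W A B = ∑ x ∈ (cp A B).filter (fun x => ¬ p ∣ x.2), (cn V W x.1 x.2 : ℝ) ^ (4 / 3 : ℝ) +
      ∑ x ∈ (cp A B).filter (fun x => ¬ ¬ p ∣ x.2), (cn V W x.1 x.2 : ℝ) ^ (4 / 3 : ℝ) := by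
    unfold KS
    exact (sum_filter_add_sum_filter_not _ _ _).symm
  rw [hsplit]
  refine add_le_add ?_ ?_
  · have h1 : ∑ x ∈ (cp A B).filter (fun x => ¬ p ∣ x.2), (cn V W x.1 x.2 : ℝ) ^ (4 / 3 : ℝ)
        = ∑ x ∈ ((cp A B).filter (fun x => ¬ p ∣ x.2)).filter (fun x => x.1.factorization p < n),
          (cn V W x.1 x.2 : ℝ) ^ (4 / 3 : ℝ) := by
      refine (sum_filter_of_ne fun x hx hne => ?_).symm
      by_contra hcon
      rw [not_lt] at hcon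
      obtain ⟨hx1, hx2⟩ := mem_filter.1 hx
      obtain ⟨c1, c2, -⟩ := t2_mem_cp hx1
      apply hne
      rw [t2_zeroA p V W hV hW n hn c1 c2 hx2 hcon, Nat.cast_zero, hz]
    rw [h1]
    rw [← sum_fiberwise_of_maps_to (s := ((cp A B).filter (fun x => ¬ p ∣ x.2)).filter (fun x => x.1.factorization p < n))
      (t := range n) (g := fun x : ℕ × ℕ => x.1.factorization p) (fun x hx => mem_range.2 (mem_filter.1 hx).2)]
    refine sum_le_sum fun k hk => ?_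
    refine le_trans ?_ (t2_partA p hp V W hV hW n hn' A B hA k)
    refine sum_le_sum_of_subset_of_nonneg ?_ fun x _ _ => h0 x
    intro x hx
    simp only [mem_filter] at hx ⊢
    exact ⟨hx.1.1.1, hx.2, hx.1.1.2⟩
  · have h1 : ∑ x ∈ (cp A B).filter (fun x => ¬ ¬ p ∣ x.2), (cn V W x.1 x.2 : ℝ) ^ (4 / 3 : ℝ)
        = ∑ x ∈ ((cp A B).filter (fun x => ¬ ¬ p ∣ x.2)).filter (fun x => x.2.factorization p < n),
          (cn V W x.1 x.2 : ℝ) ^ (4 / 3 : ℝ) := by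
      refine (sum_filter_of_ne fun x hx hne => ?_).symm
      by_contra hcon
      rw [not_lt] at hcon
      obtain ⟨hx1, hx2⟩ := mem_filter.1 hx
      rw [not_not] at hx2
      obtain ⟨c1, c2, c3, c4, c5⟩ := t2_mem_cp hx1
      have hpa : ¬ p ∣ x.1 := by
        intro h
        have h2 : p ∣ Nat.gcd x.1 x.2 := Nat.dvd_gcd h hx2
        rw [Nat.Coprime.gcd_eq_one c5] at h2
        exact hp.one_lt.ne' (Nat.dvd_one.1 h2)
      apply hne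
      rw [t2_zeroB p V W hV hW n hn' c1 c2 hpa hcon, Nat.cast_zero, hz]
    rw [h1]
    have hmap : ∀ x ∈ ((cp A B).filter (fun x => ¬ ¬ p ∣ x.2)).filter (fun x => x.2.factorization p < n),
        x.2.factorization p ∈ Ico 1 n := by
      intro x hx
      simp only [mem_filter, not_not] at hx
      obtain ⟨c1, c2, c3, c4, c5⟩ := t2_mem_cp hx.1.1
      refine mem_Ico.2 ⟨?_, hx.2⟩
      exact (Nat.Prime.dvd_iff_one_le_factorization hp c2.ne').1 hx.1.2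
    rw [← sum_fiberwise_of_maps_to (s := ((cp A B).filter (fun x => ¬ ¬ p ∣ x.2)).filter (fun x => x.2.factorization p < n))
      (t := Ico 1 n) (g := fun x : ℕ × ℕ => x.2.factorization p) hmap]
    refine sum_le_sum fun k hk => ?_
    refine le_trans ?_ (t2_partB p hp V W hV hW n hn A B hB k)
    refine sum_le_sum_of_subset_of_nonneg ?_ fun x _ _ => h0 x
    intro x hx
    simp only [mem_filter, not_not] at hx ⊢
    obtain ⟨c1, c2, c3, c4, c5⟩ := t2_mem_cp hx.1.1.1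
    refine ⟨hx.1.1.1, hx.2, ?_⟩
    intro h
    have h2 : p ∣ Nat.gcd x.1 x.2 := Nat.dvd_gcd h hx.1.1.2
    rw [Nat.Coprime.gcd_eq_one c5] at h2
    exact hp.one_lt.ne' (Nat.dvd_one.1 h2)

end Pool.Agent.H20G
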