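import Mathlib
import Pool.Agent.Lib.H20G.Defs
import Pool.Agent.Lib.H20G.G1
import Pool.Agent.Lib.H20G.T2
import Pool.Agent.Lib.H20G.T3
import Pool.Agent.Lib.H20G.D5

set_option autoImplicit false

/-!
# H20G chunk T6: one prime step
-/

namespace Pool.Agent.H20G

open Finset

theorem t6_dvd {p i v : ℕ} (hv : 0 < v) (h : v.factorization p = i) : p ^ i ∣ v := by
  rw [← h]
  exact Nat.ordProj_dvd v p

theorem t6_mem {c0 : ℝ} {p : ℕ} (hp : p.Prime) {V : Finset ℕ} (hV : ∀ v ∈ V, 0 < v ∧ rp v ≤ c0) (i : ℕ) :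
    ∀ v ∈ sl p i V, 0 < v ∧ rp v ≤ c0 := by
  intro v hv
  unfold sl at hv
  rw [mem_image] at hv
  obtain ⟨u, hu, rfl⟩ := hv
  rw [mem_filter] at hu
  obtain ⟨h1, h2⟩ := hV u hu.1
  have h3 := t6_dvd h1 hu.2
  have h4 : u / p ^ i ∣ u := Nat.div_dvd_of_dvd h3
  exact ⟨Nat.div_pos (Nat.le_of_dvd h1 h3) (pow_pos hp.pos i), (d5_rp_mono h4 h1.ne').trans h2⟩

/-- one inner sum -/
theorem t6_inner (n : ℕ) (f : ℕ → ℝ) (g : ℕ → ℝ) (M Y : ℝ) (hM : 0 ≤ M) (hY : 0 ≤ Y) (hf : ∀ i, 0 ≤ f i) (hg : ∀ i, 0 ≤ g i)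
    (h : ∀ i, f i ≤ M * Y ^ (3 / 10 : ℝ) * g i ^ (7 / 10 : ℝ)) :
    (∑ i ∈ range n, f i ^ (3 / 4 : ℝ)) ^ (4 / 3 : ℝ) ≤
      M * Y ^ (3 / 10 : ℝ) * (∑ i ∈ range n, g i ^ (21 / 40 : ℝ)) ^ (4 / 3 : ℝ) := by
  have hMY : 0 ≤ M * Y ^ (3 / 10 : ℝ) := mul_nonneg hM (Real.rpow_nonneg hY _)
  have h1 : ∀ i ∈ range n, f i ^ (3 / 4 : ℝ) ≤ (M * Y ^ (3 / 10 : ℝ)) ^ (3 / 4 : ℝ) * g i ^ (21 / 40 : ℝ) := by
    intro i _
    refine (Real.rpow_le_rpow (hf i) (h i) (by norm_num)).trans (le_of_eq ?_)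
    rw [Real.mul_rpow hMY (Real.rpow_nonneg (hg i) _), ← Real.rpow_mul (hg i)]
    norm_num
  have h2 := sum_le_sum h1
  rw [← mul_sum] at h2
  have h3 : 0 ≤ ∑ i ∈ range n, f i ^ (3 / 4 : ℝ) := sum_nonneg fun i _ => Real.rpow_nonneg (hf i) _
  have h4 : 0 ≤ ∑ i ∈ range n, g i ^ (21 / 40 : ℝ) := sum_nonneg fun i _ => Real.rpow_nonneg (hg i) _
  refine (Real.rpow_le_rpow h3 h2 (by norm_num)).trans (le_of_eq ?_)
  rw [Real.mul_rpow (Real.rpow_nonneg hMY _) h4, ← Real.rpow_mul hMY]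
  norm_num

theorem t6_pow {p : ℕ} (hp : p.Prime) (X : ℝ) (hX : 0 < X) (k : ℕ) :
    (X / (p : ℝ) ^ k) ^ (3 / 10 : ℝ) = X ^ (3 / 10 : ℝ) * ((p : ℝ) ^ (-(3 / 10) : ℝ)) ^ k := by
  have h0 : (0 : ℝ) < p := by exact_mod_cast hp.pos
  rw [Real.div_rpow hX.le (by positivity), ← Real.rpow_natCast, ← Real.rpow_natCast, ← Real.rpow_mul h0.le,
    ← Real.rpow_mul h0.le, div_eq_mul_inv, ← Real.rpow_neg h0.le]
  congr 2
  ring

/-- PROOF. `t2_dec`; the slices have primes in `(ps V W).erase p` (`g1_ps`), elements positive with `rp ≤ c0` (divisors of elements of `V`, `W`), so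
`KS (sl p (i+k) V) (sl p i W) (A/p^k) B ≤ M (AB/p^k)^{3/10} (|V_{i+k}||W_i|)^{7/10}`; power `3/4`, sum over `i`, power `4/3`:
`M (AB)^{3/10} p^{-3k/10} (∑_i (|V_{i+k}||W_i|)^{21/40})^{4/3}`. -/
theorem t6_step (c0 : ℝ) (V W : Finset ℕ) (hV : ∀ v ∈ V, 0 < v ∧ rp v ≤ c0) (hW : ∀ w ∈ W, 0 < w ∧ rp w ≤ c0)
    (p : ℕ) (hp : p.Prime) (M : ℝ) (hM : 0 ≤ M)
    (IH : ∀ V' W' : Finset ℕ, (∀ v ∈ V', 0 < v ∧ rp v ≤ c0) → (∀ w ∈ W', 0 < w ∧ rp w ≤ c0) →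
      ps V' W' ⊆ (ps V W).erase p → ∀ A B : ℝ, 0 < A → 0 < B →
      KS V' W' A B ≤ M * (A * B) ^ (3 / 10 : ℝ) * ((V'.card : ℝ) * W'.card) ^ (7 / 10 : ℝ))
    (n : ℕ) (hn : ∀ v ∈ V, v.factorization p < n) (hn' : ∀ w ∈ W, w.factorization p < n)
    (A B : ℝ) (hA : 0 < A) (hB : 0 < B) :
    KS V W A B ≤ M * (A * B) ^ (3 / 10 : ℝ) *
      FT ((p : ℝ) ^ (-(3 / 10) : ℝ)) n (fun i => ((sl p i V).card : ℝ)) (fun i => ((sl p i W).card : ℝ)) := by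
  have hKS : ∀ (V' W' : Finset ℕ) (A' B' : ℝ), 0 ≤ KS V' W' A' B' := fun V' W' A' B' =>
    sum_nonneg fun x _ => Real.rpow_nonneg (Nat.cast_nonneg _) _
  have hp0 : (0 : ℝ) < p := by exact_mod_cast hp.pos
  have h1 := t2_dec p hp V W (fun v hv => (hV v hv).1) (fun w hw => (hW w hw).1) n hn hn' A B hA hB
  refine h1.trans ?_
  unfold FT
  rw [mul_add, mul_sum, mul_sum]
  have hps : ∀ i j, ps (sl p i V) (sl p j W) ⊆ (ps V W).erase p := fun i j =>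
    g1_ps p hp i j V W (fun v hv => (hV v hv).1) (fun w hw => (hW w hw).1)
  refine add_le_add (sum_le_sum fun k _ => ?_) (sum_le_sum fun k _ => ?_)
  · have h2 := t6_inner n (fun i => KS (sl p (i + k) V) (sl p i W) (A / (p : ℝ) ^ k) B)
      (fun i => ((sl p (i + k) V).card : ℝ) * ((sl p i W).card : ℝ)) M (A / (p : ℝ) ^ k * B) hM (by positivity)
      (fun i => hKS _ _ _ _) (fun i => by positivity)
      (fun i => IH _ _ (t6_mem hp hV _) (t6_mem hp hW _) (hps _ _) _ _ (by positivity) hB)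
    refine h2.trans (le_of_eq ?_)
    have e1 : A / (p : ℝ) ^ k * B = A * B / (p : ℝ) ^ k := by ring
    rw [e1, t6_pow hp _ (mul_pos hA hB)]
    ring
  · have h2 := t6_inner n (fun i => KS (sl p i V) (sl p (i + k) W) A (B / (p : ℝ) ^ k))
      (fun i => ((sl p i V).card : ℝ) * ((sl p (i + k) W).card : ℝ)) M (A * (B / (p : ℝ) ^ k)) hM (by positivity)
      (fun i => hKS _ _ _ _) (fun i => by positivity)
      (fun i => IH _ _ (t6_mem hp hV _) (t6_mem hp hW _) (hps _ _) _ _ hA (by positivity))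
    refine h2.trans (le_of_eq ?_)
    have e1 : A * (B / (p : ℝ) ^ k) = A * B / (p : ℝ) ^ k := by ring
    rw [e1, t6_pow hp _ (mul_pos hA hB)]
    ring

/-- cardinalities of the slices: `∑_i |V_i| = |V|`, `V_i = ∅` for `i ≥ n` -/
theorem t6_card (p : ℕ) (hp : p.Prime) (V : Finset ℕ) (hV : ∀ v ∈ V, 0 < v) (n : ℕ) (hn : ∀ v ∈ V, v.factorization p < n) :
    ∑ i ∈ range n, ((sl p i V).card : ℝ) = V.card ∧ ∀ i, n ≤ i → (sl p i V).card = 0 := by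
  have h1 : ∀ i, (sl p i V).card = (V.filter fun v => v.factorization p = i).card := by
    intro i
    unfold sl
    refine card_image_of_injOn ?_
    intro v hv v' hv' h
    rw [mem_coe, mem_filter] at hv hv'
    have e1 := t6_dvd (hV v hv.1) hv.2
    have e2 := t6_dvd (hV v' hv'.1) hv'.2
    have h' : v / p ^ i = v' / p ^ i := h
    rw [← Nat.div_mul_cancel e1, ← Nat.div_mul_cancel e2, h']
  constructor
  · have h2 := card_eq_sum_card_fiberwise (s := V) (t := range n) (f := fun v => v.factorization p)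
      (fun v hv => by
        rw [mem_coe, mem_range]
        exact hn v hv)
    rw [h2]
    push_cast
    exact sum_congr rfl fun i _ => by rw [h1]
  · intro i hi
    rw [h1, card_eq_zero, filter_eq_empty_iff]
    intro v hv h2
    have := hn v hv
    omega

end Pool.Agent.H20G
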