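import Mathlib
import Pool.Agent.Lib.H20G.Defs
import Pool.Agent.Lib.H20G.D5

set_option autoImplicit false

/-!
# H20G chunk T7: the hub of module T
-/

namespace Pool.Agent.H20G

open Finset

/-- Like `g6_hub` with cardinalities. PROOF. `N = ∏_{p ∈ ps V W} p^{N_p}`; for `p ∣ N` at least `|V|/2` elements of `V` are divisible by `p`
(`(sl p i V).card = #{v : v_p = i}`), so `rp N ≤ 2 ∑_{p ∣ N} (1/p) #{v : p ∣ v}/|V| ≤ 2 (1/|V|) ∑_v rp v ≤ 2 c0`. -/
theorem t7_hub (c0 : ℝ) (V W : Finset ℕ) (hV : ∀ v ∈ V, 0 < v ∧ rp v ≤ c0) (hne : V.Nonempty) (Nf : ℕ → ℕ)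
    (hN : ∀ p ∈ ps V W, (V.card : ℝ) / 2 ≤ (sl p (Nf p) V).card) :
    ∃ N : ℕ, 0 < N ∧ rp N ≤ 2 * c0 ∧ (∀ p ∈ ps V W, N.factorization p = Nf p) ∧
      (∀ p ∉ ps V W, N.factorization p = 0) := by
  classical
  set N : ℕ := ∏ p ∈ ps V W, p ^ Nf p with hNdef
  have hprime : ∀ p ∈ ps V W, p.Prime := by
    intro p hp
    unfold ps at hp
    rw [mem_biUnion] at hp
    obtain ⟨v, -, hv⟩ := hp
    exact Nat.prime_of_mem_primeFactors hv
  have hN0 : 0 < N := prod_pos fun p hp => pow_pos (hprime p hp).pos _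
  have hfac : ∀ q, N.factorization q = if q ∈ ps V W then Nf q else 0 := by
    intro q
    rw [hNdef, Nat.factorization_prod (fun p hp => (pow_pos (hprime p hp).pos _).ne'), Finsupp.finset_sum_apply]
    have h1 : ∀ p ∈ ps V W, (p ^ Nf p).factorization q = if p = q then Nf q else 0 := by
      intro p hp
      rw [(hprime p hp).factorization_pow, Finsupp.single_apply]
      split_ifs with h
      · rw [h]
      · rfl
    rw [sum_congr rfl h1, sum_ite_eq' (ps V W) q]
  refine ⟨N, hN0, ?_, ?_, ?_⟩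
  · have hV0 : (0 : ℝ) < V.card := by exact_mod_cast hne.card_pos
    have hpf : ∀ p ∈ N.primeFactors, p ∈ ps V W ∧ 0 < Nf p := by
      intro p hp
      have h1 : N.factorization p ≠ 0 := by
        have := Nat.support_factorization N
        rw [← this] at hp
        exact Finsupp.mem_support_iff.1 hp
      rw [hfac] at h1
      by_cases h2 : p ∈ ps V W
      · rw [if_pos h2] at h1
        exact ⟨h2, Nat.pos_of_ne_zero h1⟩
      · rw [if_neg h2] at h1
        exact absurd rfl h1
    have hhalf : ∀ p ∈ N.primeFactors, (V.card : ℝ) / 2 ≤ ((V.filter fun v => p ∈ v.primeFactors).card : ℝ) := by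
      intro p hp
      obtain ⟨h1, h2⟩ := hpf p hp
      refine (hN p h1).trans ?_
      have h3 : (sl p (Nf p) V).card ≤ (V.filter fun v => p ∈ v.primeFactors).card := by
        unfold sl
        refine card_image_le.trans (card_le_card ?_)
        intro v hv
        rw [mem_filter] at hv ⊢
        refine ⟨hv.1, ?_⟩
        rw [← Nat.support_factorization, Finsupp.mem_support_iff, hv.2]
        exact h2.ne'
      exact_mod_cast h3
    have h4 : (V.card : ℝ) / 2 * rp N ≤ ∑ v ∈ V, rp v := by
      unfold rp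
      rw [mul_sum]
      have h5 : ∀ p ∈ N.primeFactors, (V.card : ℝ) / 2 * (1 / (p : ℝ)) ≤
          ∑ v ∈ V, if p ∈ v.primeFactors then 1 / (p : ℝ) else 0 := by
        intro p hp
        rw [← sum_filter, sum_const, nsmul_eq_mul]
        exact mul_le_mul_of_nonneg_right (hhalf p hp) (by positivity)
      refine (sum_le_sum h5).trans ?_
      rw [sum_comm]
      refine sum_le_sum fun v _ => ?_
      rw [← sum_filter]
      refine sum_le_sum_of_subset_of_nonneg ?_ fun p _ _ => by positivity
      intro p hp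
      exact (mem_filter.1 hp).2
    have h5 : ∑ v ∈ V, rp v ≤ V.card * c0 := by
      rw [← nsmul_eq_mul, ← sum_const]
      exact sum_le_sum fun v hv => (hV v hv).2
    have h6 : (V.card : ℝ) / 2 * rp N ≤ (V.card : ℝ) / 2 * (2 * c0) := by
      refine (h4.trans h5).trans (le_of_eq ?_)
      ring
    exact le_of_mul_le_mul_left h6 (by positivity)
  · intro p hp
    rw [hfac, if_pos hp]
  · intro p hp
    rw [hfac, if_neg hp]

end Pool.Agent.H20G
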