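import Mathlib
import Pool.Agent.Lib.H20G.Defs
import Pool.Agent.Lib.H20G.T2A
import Pool.Agent.Lib.H20G.T3
import Pool.Agent.Lib.H20G.T5
import Pool.Agent.Lib.H20G.T6
import Pool.Agent.Lib.H20G.T7

set_option autoImplicit false

/-!
# H20G chunk T8: Theorem 2
-/

namespace Pool.Agent.H20G

open Finset

theorem t8_t911 {p : ℕ} (hp : 2 ≤ p) : ((p : ℝ) ^ (-(3 / 10) : ℝ)) ≤ 9 / 11 := by
  have h1 : (2 : ℝ) ^ (3 / 10 : ℝ) ≤ (p : ℝ) ^ (3 / 10 : ℝ) :=
    Real.rpow_le_rpow (by norm_num) (by exact_mod_cast hp) (by norm_num)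
  have h2 : (11 / 9 : ℝ) ≤ (2 : ℝ) ^ (3 / 10 : ℝ) := by
    have h3 : ((11 / 9 : ℝ)) ^ (10 : ℕ) ≤ ((2 : ℝ) ^ (3 / 10 : ℝ)) ^ (10 : ℕ) := by
      rw [← Real.rpow_natCast ((2 : ℝ) ^ (3 / 10 : ℝ)) 10, ← Real.rpow_mul (by norm_num)]
      norm_num
    exact le_of_pow_le_pow_left₀ (by norm_num) (by positivity) h3
  have h4 : (0 : ℝ) < (p : ℝ) ^ (3 / 10 : ℝ) := by
    have : (0 : ℝ) < p := by
      have : 0 < p := by omega
      exact_mod_cast this
    positivity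
  rw [Real.rpow_neg (by positivity), inv_le_comm₀ h4 (by norm_num)]
  norm_num
  linarith

/-- choice of `p0` -/
theorem t8_p0 (t0 C3 : ℝ) (ht0 : 0 < t0) (hC3 : 0 < C3) : ∃ p0 : ℕ, 2 ≤ p0 ∧
    (∀ p : ℕ, p0 ≤ p → ((p : ℝ) ^ (-(3 / 10) : ℝ)) ≤ t0) ∧
    (∀ p : ℕ, p0 ≤ p → C3 * ((p : ℝ) ^ (-(3 / 10) : ℝ)) ^ (10 / 3 : ℝ) ≤ 1 / 2) ∧
    (∀ S : Finset ℕ, (∀ p ∈ S, p0 ≤ p) →
      ∑ p ∈ S, (C3 * ((p : ℝ) ^ (-(3 / 10) : ℝ)) ^ (14 / 3 : ℝ)) ^ (3 / 4 : ℝ) ≤ 1 / 2) := by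
  have ht : Filter.Tendsto (fun p : ℕ => ((p : ℝ) ^ (-(3 / 10) : ℝ))) Filter.atTop (nhds 0) :=
    (tendsto_rpow_neg_atTop (by norm_num : (0 : ℝ) < 3 / 10)).comp tendsto_natCast_atTop_atTop
  have e1 : ∀ᶠ p : ℕ in Filter.atTop, ((p : ℝ) ^ (-(3 / 10) : ℝ)) ≤ t0 :=
    (ht.eventually (Iio_mem_nhds ht0)).mono (fun p hp => le_of_lt hp)
  have e2 : ∀ᶠ p : ℕ in Filter.atTop, C3 * ((p : ℝ) ^ (-(3 / 10) : ℝ)) ^ (10 / 3 : ℝ) ≤ 1 / 2 := by
    have h1 : Filter.Tendsto (fun p : ℕ => C3 * ((p : ℝ) ^ (-(3 / 10) : ℝ)) ^ (10 / 3 : ℝ)) Filter.atTop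
        (nhds (C3 * (0 : ℝ) ^ (10 / 3 : ℝ))) :=
      (ht.rpow_const (Or.inr (by norm_num))).const_mul C3
    rw [Real.zero_rpow (by norm_num), mul_zero] at h1
    exact (h1.eventually (Iio_mem_nhds (by norm_num : (0 : ℝ) < 1 / 2))).mono (fun p hp => le_of_lt hp)
  have hsum : Summable (fun p : ℕ => (C3 * ((p : ℝ) ^ (-(3 / 10) : ℝ)) ^ (14 / 3 : ℝ)) ^ (3 / 4 : ℝ)) := by
    have h1 : (fun p : ℕ => (C3 * ((p : ℝ) ^ (-(3 / 10) : ℝ)) ^ (14 / 3 : ℝ)) ^ (3 / 4 : ℝ)) =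
        fun p : ℕ => C3 ^ (3 / 4 : ℝ) * (p : ℝ) ^ (-(21 / 20) : ℝ) := by
      funext p
      rw [← Real.rpow_mul (by positivity), Real.mul_rpow hC3.le (by positivity), ← Real.rpow_mul (by positivity)]
      norm_num
    rw [h1]
    exact (Real.summable_nat_rpow.2 (by norm_num)).mul_left _
  obtain ⟨s, hs⟩ := summable_iff_vanishing_norm.1 hsum (1 / 2) (by norm_num)
  obtain ⟨N1, hN1⟩ := Filter.eventually_atTop.1 e1
  obtain ⟨N2, hN2⟩ := Filter.eventually_atTop.1 e2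
  refine ⟨max 2 (max (max N1 N2) (s.sup id + 1)), le_max_left _ _, ?_, ?_, ?_⟩
  · intro p hp
    exact hN1 p (by omega)
  · intro p hp
    exact hN2 p (by omega)
  · intro S hS
    have hd : Disjoint S s := by
      rw [Finset.disjoint_left]
      intro p hp hps
      have h1 := hS p hp
      have h2 : p ≤ s.sup id := Finset.le_sup (f := id) hps
      omega
    have := hs S hd
    exact le_of_lt (lt_of_abs_lt (by simpa [Real.norm_eq_abs] using this))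

/-- the normalised cardinalities of the slices -/
noncomputable def t8_nm (p : ℕ) (V : Finset ℕ) (i : ℕ) : ℝ := ((sl p i V).card : ℝ) / V.card

theorem t8_nm_nonneg (p : ℕ) (V : Finset ℕ) (i : ℕ) : 0 ≤ t8_nm p V i := by
  unfold t8_nm
  positivity

theorem t8_nm_mul (p : ℕ) (V : Finset ℕ) (hV : V.Nonempty) (i : ℕ) : (V.card : ℝ) * t8_nm p V i = (sl p i V).card := by
  unfold t8_nm
  have : (V.card : ℝ) ≠ 0 := by
    have := Finset.card_pos.2 hV
    positivity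
  field_simp

theorem t8_nm_sum (p : ℕ) (hp : p.Prime) (V : Finset ℕ) (hV : ∀ v ∈ V, 0 < v) (hne : V.Nonempty) (n : ℕ)
    (hn : ∀ v ∈ V, v.factorization p < n) :
    ∑ i ∈ range n, t8_nm p V i = 1 ∧ ∀ i, n ≤ i → t8_nm p V i = 0 := by
  obtain ⟨h1, h2⟩ := t6_card p hp V hV n hn
  constructor
  · unfold t8_nm
    rw [← Finset.sum_div, h1]
    have : (V.card : ℝ) ≠ 0 := by
      have := Finset.card_pos.2 hne
      positivity
    exact div_self this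
  · intro i hi
    unfold t8_nm
    rw [h2 i hi]
    simp

theorem t8_FTnorm (t : ℝ) (n p : ℕ) (V W : Finset ℕ) (hV : V.Nonempty) (hW : W.Nonempty) :
    FT t n (fun i => ((sl p i V).card : ℝ)) (fun i => ((sl p i W).card : ℝ)) =
      ((V.card : ℝ) * W.card) ^ (7 / 10 : ℝ) * FT t n (t8_nm p V) (t8_nm p W) := by
  rw [← t3_hom t n (t8_nm p V) (t8_nm p W) (t8_nm_nonneg p V) (t8_nm_nonneg p W) _ _ (by positivity) (by positivity)]
  congr 1
  · funext i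
    exact (t8_nm_mul p V hV i).symm
  · funext i
    exact (t8_nm_mul p W hW i).symm

/-- the slices of `{v ∈ V : v_p ≠ M}` -/
theorem t8_slbad (p M i : ℕ) (V : Finset ℕ) :
    (sl p i (V.filter (fun v => v.factorization p ≠ M))) = if i = M then ∅ else sl p i V := by
  unfold sl
  rw [Finset.filter_filter]
  split_ifs with h
  · subst h
    rw [Finset.image_eq_empty, Finset.filter_eq_empty_iff]
    intro v _ hv
    exact hv.1 hv.2
  · congr 1
    apply Finset.filter_congr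
    intro v _
    constructor
    · exact fun hv => hv.2
    · intro hv
      exact ⟨by rw [hv]; exact h, hv⟩

theorem t8_FTbad (t : ℝ) (n p M : ℕ) (V W : Finset ℕ) (hV : V.Nonempty) (hW : W.Nonempty) :
    FT t n (fun i => ((sl p i (V.filter (fun v => v.factorization p ≠ M))).card : ℝ))
      (fun i => ((sl p i (W.filter (fun v => v.factorization p ≠ M))).card : ℝ)) =
      ((V.card : ℝ) * W.card) ^ (7 / 10 : ℝ) * FT t n (fun i => if i = M then 0 else t8_nm p V i)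
        (fun i => if i = M then 0 else t8_nm p W i) := by
  rw [← t3_hom t n _ _ (fun i => by
      show 0 ≤ (if i = M then (0 : ℝ) else t8_nm p V i)
      split_ifs
      · exact le_rfl
      · exact t8_nm_nonneg p V i) (fun i => by
      show 0 ≤ (if i = M then (0 : ℝ) else t8_nm p W i)
      split_ifs
      · exact le_rfl
      · exact t8_nm_nonneg p W i) _ _ (by positivity) (by positivity)]
  congr 1
  · funext i
    rw [t8_slbad]
    split_ifs with h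
    · simp
    · exact (t8_nm_mul p V hV i).symm
  · funext i
    rw [t8_slbad]
    split_ifs with h
    · simp
    · exact (t8_nm_mul p W hW i).symm

theorem t8_psprime {V W : Finset ℕ} {p : ℕ} (hp : p ∈ ps V W) : p.Prime := by
  unfold ps at hp
  obtain ⟨v, _, hv⟩ := Finset.mem_biUnion.1 hp
  exact Nat.prime_of_mem_primeFactors hv

theorem t8_psmono {V W V' W' : Finset ℕ} (hV : V' ⊆ V) (hW : W' ⊆ W) : ps V' W' ⊆ ps V W := by
  unfold ps
  exact Finset.biUnion_subset_biUnion_of_subset_left _ (Finset.union_subset_union hV hW)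

theorem t8_psz {V W : Finset ℕ} {p v : ℕ} (hp : p ∉ ps V W) (hv : v ∈ V ∨ v ∈ W) : v.factorization p = 0 := by
  have h1 : p ∉ v.primeFactors := by
    intro hc
    exact hp (Finset.mem_biUnion.2 ⟨v, Finset.mem_union.2 hv, hc⟩)
  rw [← Nat.support_factorization] at h1
  exact Finsupp.notMem_support_iff.1 h1

/-- bad and good pairs -/
theorem t8_split (V W : Finset ℕ) (N : ℕ) (Nf : ℕ → ℕ)
    (hN : ∀ p ∈ ps V W, N.factorization p = Nf p) (hN0 : ∀ p ∉ ps V W, N.factorization p = 0) (a b : ℕ) :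
    cn V W a b ≤ cnG N V W a b + ∑ p ∈ ps V W,
      cn (V.filter (fun v => v.factorization p ≠ Nf p)) (W.filter (fun v => v.factorization p ≠ Nf p)) a b := by
  classical
  unfold cn cnG
  refine le_trans (Finset.card_le_card (t := ((V ×ˢ W).filter (fun x : ℕ × ℕ => x.1 * b = x.2 * a ∧ GoodP N x.1 x.2)) ∪
    (ps V W).biUnion (fun p => (((V.filter (fun v => v.factorization p ≠ Nf p)) ×ˢ (W.filter (fun v => v.factorization p ≠ Nf p))).filter
      (fun x : ℕ × ℕ => x.1 * b = x.2 * a)))) ?_) ?_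
  · intro x hx
    obtain ⟨hx1, hx2⟩ := Finset.mem_filter.1 hx
    obtain ⟨hxV, hxW⟩ := Finset.mem_product.1 hx1
    by_cases hg : GoodP N x.1 x.2
    · exact Finset.mem_union_left _ (Finset.mem_filter.2 ⟨hx1, hx2, hg⟩)
    · apply Finset.mem_union_right
      unfold GoodP at hg
      push Not at hg
      obtain ⟨p, _, h1, h2⟩ := hg
      have hpps : p ∈ ps V W := by
        by_contra hnp
        rw [hN0 p hnp] at h1
        exact h1 (t8_psz hnp (Or.inl hxV))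
      rw [hN p hpps] at h1 h2
      exact Finset.mem_biUnion.2 ⟨p, hpps, Finset.mem_filter.2 ⟨Finset.mem_product.2
        ⟨Finset.mem_filter.2 ⟨hxV, h1⟩, Finset.mem_filter.2 ⟨hxW, h2⟩⟩, hx2⟩⟩
  · refine (Finset.card_union_le _ _).trans ?_
    exact Nat.add_le_add_left Finset.card_biUnion_le _

theorem t8_bound (c0 : ℝ) : ∃ (p0 : ℕ) (Cs : ℝ), 0 < Cs ∧ ∀ (m : ℕ) (V W : Finset ℕ), (∀ v ∈ V, 0 < v ∧ rp v ≤ c0) →
    (∀ w ∈ W, 0 < w ∧ rp w ≤ c0) → (ps V W).card = m → ∀ A B : ℝ, 0 < A → 0 < B →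
    KS V W A B ≤ Cs * 10 ^ ((ps V W).filter (fun p => p < p0)).card * (A * B) ^ (3 / 10 : ℝ) *
      ((V.card : ℝ) * W.card) ^ (7 / 10 : ℝ) := by
  obtain ⟨t0, C3, ht0, ht02, hC3, hconc⟩ := t3_conc
  obtain ⟨p0, hp02, hp0t, hp0h, hp0s⟩ := t8_p0 t0 C3 ht0 hC3
  set C1 : ℝ := Real.exp (240 * |c0|) with hC1
  have hC1pos : 0 < C1 := Real.exp_pos _
  set Cs : ℝ := 2 ^ (4 / 3 : ℝ) * C1 with hCs
  have hCspos : 0 < Cs := by positivity
  refine ⟨p0, Cs, hCspos, ?_⟩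
  intro m
  induction m using Nat.strong_induction_on with
  | _ m IH =>
  intro V W hV hW hm A B hA hB
  rcases V.eq_empty_or_nonempty with hVe | hVn
  · have : KS V W A B = 0 := by
      rw [hVe]
      unfold KS cn
      apply Finset.sum_eq_zero
      intro x _
      simp
    rw [this]
    positivity
  rcases W.eq_empty_or_nonempty with hWe | hWn
  · have : KS V W A B = 0 := by
      rw [hWe]
      unfold KS cn
      apply Finset.sum_eq_zero
      intro x _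
      simp
    rw [this]
    positivity
  have hVpos : ∀ v ∈ V, 0 < v := fun v hv => (hV v hv).1
  have hWpos : ∀ w ∈ W, 0 < w := fun w hw => (hW w hw).1
  set n : ℕ := (V ∪ W).sup id with hn
  have hnV : ∀ p : ℕ, ∀ v ∈ V, v.factorization p < n := by
    intro p v hv
    have h1 : v ≤ n := Finset.le_sup (f := id) (Finset.mem_union_left _ hv)
    exact lt_of_lt_of_le (Nat.factorization_lt p (hVpos v hv).ne') h1
  have hnW : ∀ p : ℕ, ∀ w ∈ W, w.factorization p < n := by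
    intro p w hw
    have h1 : w ≤ n := Finset.le_sup (f := id) (Finset.mem_union_right _ hw)
    exact lt_of_lt_of_le (Nat.factorization_lt p (hWpos w hw).ne') h1
  set VW : ℝ := ((V.card : ℝ) * W.card) ^ (7 / 10 : ℝ) with hVW
  have hVW0 : 0 ≤ VW := by positivity
  have hAB : 0 < (A * B) ^ (3 / 10 : ℝ) := by positivity
  have hnmV : ∀ p ∈ ps V W, ∑ i ∈ range n, t8_nm p V i = 1 ∧ ∀ i, n ≤ i → t8_nm p V i = 0 := fun p hp =>
    t8_nm_sum p (t8_psprime hp) V hVpos hVn n (hnV p)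
  have hnmW : ∀ p ∈ ps V W, ∑ i ∈ range n, t8_nm p W i = 1 ∧ ∀ i, n ≤ i → t8_nm p W i = 0 := fun p hp =>
    t8_nm_sum p (t8_psprime hp) W hWpos hWn n (hnW p)
  -- general induction hypothesis
  have IHg : ∀ p ∈ ps V W, ∀ (k : ℕ), ((ps V W).erase p |>.filter (fun p => p < p0)).card ≤ k →
      ∀ V' W' : Finset ℕ, (∀ v ∈ V', 0 < v ∧ rp v ≤ c0) → (∀ w ∈ W', 0 < w ∧ rp w ≤ c0) →
      ps V' W' ⊆ (ps V W).erase p → ∀ A B : ℝ, 0 < A → 0 < B →
      KS V' W' A B ≤ (Cs * 10 ^ k) * (A * B) ^ (3 / 10 : ℝ) * ((V'.card : ℝ) * W'.card) ^ (7 / 10 : ℝ) := by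
    intro p hp k hk V' W' hV' hW' hsub A B hA hB
    have hcard : (ps V' W').card < m := by
      calc (ps V' W').card ≤ ((ps V W).erase p).card := Finset.card_le_card hsub
        _ < (ps V W).card := Finset.card_erase_lt_of_mem hp
        _ = m := hm
    refine (IH _ hcard V' W' hV' hW' rfl A B hA hB).trans ?_
    have h7 : (10 : ℝ) ^ ((ps V' W').filter (fun p => p < p0)).card ≤ 10 ^ k := by
      apply pow_le_pow_right₀ (by norm_num)
      refine le_trans (Finset.card_le_card ?_) hk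
      exact Finset.filter_subset_filter _ hsub
    gcongr
  by_cases hsmall : ∃ p ∈ ps V W, p < p0
  · obtain ⟨p, hp, hpp0⟩ := hsmall
    have hpr := t8_psprime hp
    set k := ((ps V W).filter (fun p => p < p0)).card with hk
    have hk1 : ((ps V W).erase p |>.filter (fun p => p < p0)).card = k - 1 := by
      rw [Finset.filter_erase, Finset.card_erase_of_mem (Finset.mem_filter.2 ⟨hp, hpp0⟩)]
    have hkpos : 0 < k := Finset.card_pos.2 ⟨p, Finset.mem_filter.2 ⟨hp, hpp0⟩⟩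
    have h1 := t6_step c0 V W hV hW p hpr (Cs * 10 ^ (k - 1)) (by positivity) (IHg p hp (k - 1) hk1.le) n (hnV p)
      (hnW p) A B hA hB
    rw [t8_FTnorm _ _ _ _ _ hVn hWn] at h1
    have h2 : FT ((p : ℝ) ^ (-(3 / 10) : ℝ)) n (t8_nm p V) (t8_nm p W) ≤ 10 :=
      t3_le _ (by positivity) (t8_t911 hpr.two_le) n _ _ (t8_nm_nonneg p V) (t8_nm_nonneg p W) (hnmV p hp).2
        (hnmW p hp).2 (hnmV p hp).1 (hnmW p hp).1
    calc KS V W A B ≤ _ := h1
      _ ≤ Cs * 10 ^ (k - 1) * (A * B) ^ (3 / 10 : ℝ) * (VW * 10) := by gcongr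
      _ = Cs * 10 ^ k * (A * B) ^ (3 / 10 : ℝ) * VW := by
          have : (10 : ℝ) ^ k = 10 ^ (k - 1) * 10 := by
            rw [← pow_succ]
            congr 1
            omega
          rw [this]
          ring
  push Not at hsmall
  have hfe : (ps V W).filter (fun p => p < p0) = ∅ := by
    rw [Finset.filter_eq_empty_iff]
    intro p hp
    have := hsmall p hp
    omega
  rw [hfe, Finset.card_empty, pow_zero, mul_one]
  have IH0 : ∀ p ∈ ps V W, ∀ V' W' : Finset ℕ, (∀ v ∈ V', 0 < v ∧ rp v ≤ c0) → (∀ w ∈ W', 0 < w ∧ rp w ≤ c0) →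
      ps V' W' ⊆ (ps V W).erase p → ∀ A B : ℝ, 0 < A → 0 < B →
      KS V' W' A B ≤ Cs * (A * B) ^ (3 / 10 : ℝ) * ((V'.card : ℝ) * W'.card) ^ (7 / 10 : ℝ) := by
    intro p hp V' W' hV' hW' hsub A B hA hB
    have h1 := IHg p hp 0 (by
      rw [Finset.filter_erase, hfe]
      simp) V' W' hV' hW' hsub A B hA hB
    simpa using h1
  by_cases hle : ∃ p ∈ ps V W, FT ((p : ℝ) ^ (-(3 / 10) : ℝ)) n (t8_nm p V) (t8_nm p W) ≤ 1
  · obtain ⟨p, hp, hpF⟩ := hle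
    have hpr := t8_psprime hp
    have h1 := t6_step c0 V W hV hW p hpr Cs hCspos.le (IH0 p hp) n (hnV p) (hnW p) A B hA hB
    rw [t8_FTnorm _ _ _ _ _ hVn hWn] at h1
    calc KS V W A B ≤ _ := h1
      _ ≤ Cs * (A * B) ^ (3 / 10 : ℝ) * (VW * 1) := by gcongr
      _ = _ := by ring
  push Not at hle
  have hconc' : ∀ p ∈ ps V W, ∃ N < n, 1 - t8_nm p V N ≤ 1 / 2 ∧
      FT ((p : ℝ) ^ (-(3 / 10) : ℝ)) n (fun i => if i = N then 0 else t8_nm p V i) (fun i => if i = N then 0 else t8_nm p W i) ≤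
        C3 * ((p : ℝ) ^ (-(3 / 10) : ℝ)) ^ (14 / 3 : ℝ) := by
    intro p hp
    have hppos : (0 : ℝ) < p := by exact_mod_cast (t8_psprime hp).pos
    obtain ⟨N, hN, h1, -, h3⟩ := hconc ((p : ℝ) ^ (-(3 / 10) : ℝ)) (Real.rpow_pos_of_pos hppos _)
      (hp0t p (hsmall p hp)) n (t8_nm p V) (t8_nm p W) (t8_nm_nonneg p V) (t8_nm_nonneg p W) (hnmV p hp).2
      (hnmW p hp).2 (hnmV p hp).1 (hnmW p hp).1 (hle p hp)
    exact ⟨N, hN, h1.trans (hp0h p (hsmall p hp)), h3⟩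
  choose! Nf hNfn hNfV hNfS using hconc'
  obtain ⟨N, hN, hNrp, hNf, hNf0⟩ := t7_hub c0 V W hV hVn Nf (fun p hp => by
    have h1 := hNfV p hp
    rw [← t8_nm_mul p V hVn (Nf p)]
    have h2 : (0 : ℝ) ≤ V.card := by positivity
    nlinarith)
  set bd : ℝ := (A * B) ^ (3 / 10 : ℝ) * VW with hbd
  have hbd0 : 0 ≤ bd := by positivity
  set Vb : ℕ → Finset ℕ := fun p => V.filter (fun v => v.factorization p ≠ Nf p) with hVb
  set Wb : ℕ → Finset ℕ := fun p => W.filter (fun v => v.factorization p ≠ Nf p) with hWb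
  have hbad : ∀ p ∈ ps V W, KS (Vb p) (Wb p) A B ≤ Cs * bd * (C3 * ((p : ℝ) ^ (-(3 / 10) : ℝ)) ^ (14 / 3 : ℝ)) := by
    intro p hp
    have hpr := t8_psprime hp
    have hVbs : Vb p ⊆ V := Finset.filter_subset _ _
    have hWbs : Wb p ⊆ W := Finset.filter_subset _ _
    have h1 := t6_step c0 (Vb p) (Wb p) (fun v hv => hV v (hVbs hv)) (fun w hw => hW w (hWbs hw)) p hpr Cs hCspos.le
      (fun V' W' hV' hW' hsub => IH0 p hp V' W' hV' hW' (hsub.trans (Finset.erase_subset_erase _ (t8_psmono hVbs hWbs))))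
      n (fun v hv => hnV p v (hVbs hv)) (fun w hw => hnW p w (hWbs hw)) A B hA hB
    rw [t8_FTbad _ _ _ _ _ _ hVn hWn] at h1
    have h2 := hNfS p hp
    calc KS (Vb p) (Wb p) A B ≤ _ := h1
      _ ≤ Cs * (A * B) ^ (3 / 10 : ℝ) * (VW * (C3 * ((p : ℝ) ^ (-(3 / 10) : ℝ)) ^ (14 / 3 : ℝ))) := by gcongr
      _ = _ := by rw [hbd]; ring
  have hgood : ∑ x ∈ cp A B, (cnG N V W x.1 x.2 : ℝ) ^ (4 / 3 : ℝ) ≤ C1 * bd := by
    refine (t5_good N hN V W hVpos hWpos A B hA hB).trans ?_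
    rw [mul_assoc]
    have : Real.exp (120 * rp N) ≤ C1 := by
      rw [hC1]
      apply Real.exp_le_exp.2
      have := le_abs_self c0
      linarith
    gcongr
  -- Minkowski
  have h0ps : (0 : ℕ) ∉ ps V W := fun h => by
    have := t8_psprime h
    exact Nat.not_prime_zero this
  set f : ℕ → ℕ × ℕ → ℝ := fun k x => if k = 0 then (cnG N V W x.1 x.2 : ℝ) else (cn (Vb k) (Wb k) x.1 x.2 : ℝ) with hf
  have hf0 : ∀ k x, 0 ≤ f k x := by
    intro k x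
    simp only [hf]
    split_ifs <;> positivity
  have hmink := t2_mink (cp A B) (insert 0 (ps V W)) f hf0
  have hle1 : KS V W A B ≤ ∑ x ∈ cp A B, (∑ k ∈ insert 0 (ps V W), f k x) ^ (4 / 3 : ℝ) := by
    unfold KS
    apply Finset.sum_le_sum
    intro x _
    apply Real.rpow_le_rpow (by positivity) _ (by norm_num)
    rw [Finset.sum_insert h0ps]
    have h1 := t8_split V W N Nf hNf hNf0 x.1 x.2
    have h2 : ∑ k ∈ ps V W, f k x = ((∑ p ∈ ps V W, cn (Vb p) (Wb p) x.1 x.2 : ℕ) : ℝ) := by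
      push_cast
      apply Finset.sum_congr rfl
      intro k hk
      have : k ≠ 0 := fun h => h0ps (h ▸ hk)
      simp only [hf, if_neg this]
    have h3 : f 0 x = (cnG N V W x.1 x.2 : ℝ) := by simp [hf]
    rw [h2, h3]
    exact_mod_cast h1
  refine hle1.trans (hmink.trans ?_)
  have hfinal : ∑ k ∈ insert 0 (ps V W), (∑ x ∈ cp A B, f k x ^ (4 / 3 : ℝ)) ^ (3 / 4 : ℝ) ≤ (Cs * bd) ^ (3 / 4 : ℝ) := by
    rw [Finset.sum_insert h0ps]
    have h3 : ∑ x ∈ cp A B, f 0 x ^ (4 / 3 : ℝ) = ∑ x ∈ cp A B, (cnG N V W x.1 x.2 : ℝ) ^ (4 / 3 : ℝ) := by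
      apply Finset.sum_congr rfl
      intro x _
      simp [hf]
    have h4 : (∑ x ∈ cp A B, f 0 x ^ (4 / 3 : ℝ)) ^ (3 / 4 : ℝ) ≤ (C1 * bd) ^ (3 / 4 : ℝ) := by
      rw [h3]
      exact Real.rpow_le_rpow (Finset.sum_nonneg (fun x _ => by positivity)) hgood (by norm_num)
    have h5 : ∑ k ∈ ps V W, (∑ x ∈ cp A B, f k x ^ (4 / 3 : ℝ)) ^ (3 / 4 : ℝ) ≤
        ∑ k ∈ ps V W, (Cs * bd) ^ (3 / 4 : ℝ) * (C3 * ((k : ℝ) ^ (-(3 / 10) : ℝ)) ^ (14 / 3 : ℝ)) ^ (3 / 4 : ℝ) := by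
      apply Finset.sum_le_sum
      intro k hk
      have hk0 : k ≠ 0 := fun h => h0ps (h ▸ hk)
      have h6 : ∑ x ∈ cp A B, f k x ^ (4 / 3 : ℝ) = KS (Vb k) (Wb k) A B := by
        unfold KS
        apply Finset.sum_congr rfl
        intro x _
        simp only [hf, if_neg hk0]
      rw [h6, ← Real.mul_rpow (by positivity) (by positivity)]
      apply Real.rpow_le_rpow _ (hbad k hk) (by norm_num)
      unfold KS
      exact Finset.sum_nonneg (fun x _ => by positivity)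
    rw [← Finset.mul_sum] at h5
    have h6 := hp0s (ps V W) hsmall
    have h7 : (Cs * bd) ^ (3 / 4 : ℝ) = 2 * (C1 * bd) ^ (3 / 4 : ℝ) := by
      rw [hCs, mul_assoc, Real.mul_rpow (by positivity) (by positivity), ← Real.rpow_mul (by norm_num)]
      norm_num
    have h8 : 0 ≤ (Cs * bd) ^ (3 / 4 : ℝ) := by positivity
    nlinarith
  calc (∑ k ∈ insert 0 (ps V W), (∑ x ∈ cp A B, f k x ^ (4 / 3 : ℝ)) ^ (3 / 4 : ℝ)) ^ (4 / 3 : ℝ)
      ≤ ((Cs * bd) ^ (3 / 4 : ℝ)) ^ (4 / 3 : ℝ) := by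
        apply Real.rpow_le_rpow _ hfinal (by norm_num)
        apply Finset.sum_nonneg
        intro k _
        apply Real.rpow_nonneg
        exact Finset.sum_nonneg (fun x _ => Real.rpow_nonneg (hf0 k x) _)
    _ = Cs * bd := by
        rw [← Real.rpow_mul (by positivity)]
        norm_num
    _ = Cs * (A * B) ^ (3 / 10 : ℝ) * VW := by rw [hbd]; ring

/-- THEOREM 2. PROOF. `t0, C3` from `t3_conc`, `t_p = p^{-3/10} ≤ 2^{-3/10} ≤ 9/11`. Choose `p0` with `t_{p0} ≤ t0`, `C3 t_p^{10/3} ≤ 1/2` for `p ≥ p0`,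
`∑_{m ≥ p0} C3^{3/4} m^{-21/20} ≤ 1/2` (`(3/10)(14/3)(3/4) = 21/20`). `C1 = exp(240 |c0|)`, `Cs = 2^{4/3} C1`. CLAIM by strong induction on
`(ps V W).card`: `KS V W A B ≤ Cs 10^{#{p ∈ ps V W : p < p0}} (AB)^{3/10} (|V||W|)^{7/10}` for all `A, B > 0`.
`V` or `W` empty: `KS = 0`. Let `n` bound the exponents; `a_i = |V_i|/|V|`, `b_i = |W_i|/|W|` (`t3_hom`, `t6_card`).
(1) `p < p0` in `ps V W`: `t6_step` and `t3_le`. (2) some `p` with `FT ≤ 1`: `t6_step`. (3) Otherwise `t3_conc` gives `Nf p`; `N` from `t7_hub`.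
`cn V W a b ≤ ∑_{p ∈ ps V W} cn V^p W^p a b + cnG N V W a b`, `V^p = {v ∈ V : v_p ≠ Nf p}`, `W^p` (a pair not good for `N` has both exponents `≠ N_p` at
some `p`, necessarily in `ps V W`). By `t2_mink` (powers `3/4`), `KS(V,W)^{3/4} ≤ ∑_p KS(V^p,W^p)^{3/4} + (∑ cnG^{4/3})^{3/4}`. `t6_step` for `V^p, W^p`
(slices of `V^p` are those of `V` except the `Nf p`-th one, which is empty) and the last claim of `t3_conc`:
`KS(V^p,W^p)^{3/4} ≤ bound^{3/4} (C3 t_p^{14/3})^{3/4} = bound^{3/4} C3^{3/4} p^{-21/20}`, sum over `p` at most `bound^{3/4}/2`; `t5_good`: the last term is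
`≤ (C1 (AB)^{3/10}(|V||W|)^{7/10})^{3/4} = bound^{3/4}/2`. -/
theorem t8_thm2 (c0 : ℝ) : ∃ C : ℝ, 0 < C ∧ ∀ (V W : Finset ℕ), (∀ v ∈ V, 0 < v ∧ rp v ≤ c0) →
    (∀ w ∈ W, 0 < w ∧ rp w ≤ c0) → ∀ A B : ℝ, 0 < A → 0 < B →
    KS V W A B ≤ C * (A * B) ^ (3 / 10 : ℝ) * ((V.card : ℝ) * W.card) ^ (7 / 10 : ℝ) := by
  obtain ⟨p0, Cs, hCs, hb⟩ := t8_bound c0
  refine ⟨Cs * 10 ^ p0, by positivity, ?_⟩
  intro V W hV hW A B hA hB
  refine (hb _ V W hV hW rfl A B hA hB).trans ?_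
  have h7 : (10 : ℝ) ^ ((ps V W).filter (fun p => p < p0)).card ≤ 10 ^ p0 := by
    apply pow_le_pow_right₀ (by norm_num)
    calc ((ps V W).filter (fun p => p < p0)).card ≤ (range p0).card := by
          apply Finset.card_le_card
          intro p hp
          exact Finset.mem_range.2 (Finset.mem_filter.1 hp).2
      _ = p0 := Finset.card_range p0
  gcongr

/-- Corollary (2.2): `t2_hold` and `P ⊆ cp A B`. -/
theorem t8_cor (c0 : ℝ) : ∃ C : ℝ, 0 < C ∧ ∀ (V W : Finset ℕ), (∀ v ∈ V, 0 < v ∧ rp v ≤ c0) →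
    (∀ w ∈ W, 0 < w ∧ rp w ≤ c0) → ∀ A B : ℝ, 0 < A → 0 < B → ∀ P : Finset (ℕ × ℕ), P ⊆ cp A B →
    ∑ x ∈ P, (cn V W x.1 x.2 : ℝ) ≤
      C * (P.card : ℝ) ^ (1 / 4 : ℝ) * (A * B) ^ (9 / 40 : ℝ) * ((V.card : ℝ) * W.card) ^ (21 / 40 : ℝ) := by
  obtain ⟨C, hC, hb⟩ := t8_thm2 c0
  refine ⟨C ^ (3 / 4 : ℝ), by positivity, ?_⟩
  intro V W hV hW A B hA hB P hP
  have h1 := t2_hold P (fun x => (cn V W x.1 x.2 : ℝ)) (fun x => by positivity)
  have h2 : ∑ x ∈ P, (cn V W x.1 x.2 : ℝ) ^ (4 / 3 : ℝ) ≤ C * (A * B) ^ (3 / 10 : ℝ) * ((V.card : ℝ) * W.card) ^ (7 / 10 : ℝ) := by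
    refine le_trans ?_ (hb V W hV hW A B hA hB)
    unfold KS
    exact Finset.sum_le_sum_of_subset_of_nonneg hP (fun x _ _ => by positivity)
  have h3 : (∑ x ∈ P, (cn V W x.1 x.2 : ℝ) ^ (4 / 3 : ℝ)) ^ (3 / 4 : ℝ) ≤
      (C * (A * B) ^ (3 / 10 : ℝ) * ((V.card : ℝ) * W.card) ^ (7 / 10 : ℝ)) ^ (3 / 4 : ℝ) :=
    Real.rpow_le_rpow (Finset.sum_nonneg (fun x _ => by positivity)) h2 (by norm_num)
  have h4 : (C * (A * B) ^ (3 / 10 : ℝ) * ((V.card : ℝ) * W.card) ^ (7 / 10 : ℝ)) ^ (3 / 4 : ℝ) =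
      C ^ (3 / 4 : ℝ) * (A * B) ^ (9 / 40 : ℝ) * ((V.card : ℝ) * W.card) ^ (21 / 40 : ℝ) := by
    rw [Real.mul_rpow (by positivity) (by positivity), Real.mul_rpow (by positivity) (by positivity),
      ← Real.rpow_mul (by positivity), ← Real.rpow_mul (by positivity)]
    norm_num
  rw [h4] at h3
  calc ∑ x ∈ P, (cn V W x.1 x.2 : ℝ) ≤ _ := h1
    _ ≤ (P.card : ℝ) ^ (1 / 4 : ℝ) * (C ^ (3 / 4 : ℝ) * (A * B) ^ (9 / 40 : ℝ) * ((V.card : ℝ) * W.card) ^ (21 / 40 : ℝ)) := by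
        gcongr
    _ = _ := by ring

end Pool.Agent.H20G
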