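import Mathlib
import Pool.Agent.Lib.H20G.Core
import Pool.Agent.Lib.H20G.D2
import Pool.Agent.Lib.H20G.D5
import Pool.Agent.Lib.H20G.T8

set_option autoImplicit false

/-!
# H20G chunk E1: basic facts on edges (section 6)
-/

namespace Pool.Agent.H20G

open Finset

/-- radius class -/
theorem e1_rc (f : ℕ → ℝ) (q : ℕ) (h0 : 0 < rho f q) (h1 : rho f q ≤ 1) :
    1 / 2 ^ (rc f q + 1) < rho f q ∧ rho f q ≤ 1 / 2 ^ (rc f q) := by
  have hL : 0 ≤ Real.logb 2 (1 / rho f q) := Real.logb_nonneg (by norm_num) (one_le_one_div h0 h1)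
  have hp : 0 < 1 / rho f q := by positivity
  have h2 : ((rc f q : ℕ) : ℝ) ≤ Real.logb 2 (1 / rho f q) := Nat.floor_le hL
  have h3 : Real.logb 2 (1 / rho f q) < (rc f q : ℕ) + 1 := Nat.lt_floor_add_one _
  rw [Real.le_logb_iff_rpow_le (by norm_num) hp, Real.rpow_natCast] at h2
  rw [Real.logb_lt_iff_lt_rpow (by norm_num) hp] at h3
  have h4 : (2 : ℝ) ^ (((rc f q : ℕ) : ℝ) + 1) = 2 ^ (rc f q + 1) := by
    rw [← Real.rpow_natCast]; push_cast; rfl
  rw [h4] at h3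
  constructor
  · rw [div_lt_iff₀ (by positivity)]
    rw [div_lt_iff₀ h0] at h3
    linarith
  · rw [le_div_iff₀ (by positivity)]
    rw [le_div_iff₀ h0] at h2
    linarith

theorem e1_rho {c0 : ℝ} {f : ℕ → ℝ} {S : Finset ℕ} (hS : Blk c0 f S) {q : ℕ} (hq : q ∈ S) :
    0 < rho f q ∧ rho f q ≤ 1 := by
  have h1 := hS.pos q hq
  have h2 := hS.fpos q hq
  have h3 := hS.fle q hq
  have h4 : (1 : ℝ) ≤ q := by exact_mod_cast h1
  unfold rho
  constructor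
  · positivity
  · rw [div_le_one (by positivity)]
    linarith

theorem e1_comm (q r : ℕ) : aa q r = bb r q ∧ bb q r = aa r q := by
  unfold aa bb
  rw [Nat.gcd_comm]
  exact ⟨rfl, rfl⟩

/-- `b = lcm / q` -/
theorem e1_bb (q r : ℕ) (hq : 0 < q) : bb q r = Nat.lcm q r / q := by
  unfold bb Nat.lcm
  rw [Nat.mul_div_assoc _ (Nat.gcd_dvd_right q r), Nat.mul_div_cancel_left _ hq]

theorem e1_aa (q r : ℕ) (hr : 0 < r) : aa q r = Nat.lcm q r / r := by
  rw [(e1_comm q r).1, e1_bb r q hr, Nat.lcm_comm]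

theorem e1_cop (q r : ℕ) (hq : 0 < q) : Nat.Coprime (aa q r) (bb q r) := by
  unfold aa bb
  exact Nat.coprime_div_gcd_div_gcd (Nat.gcd_pos_of_pos_left _ hq)

theorem e1_gaa (q r : ℕ) : Nat.gcd q r * aa q r = q := Nat.mul_div_cancel' (Nat.gcd_dvd_left q r)

theorem e1_gbb (q r : ℕ) : Nat.gcd q r * bb q r = r := Nat.mul_div_cancel' (Nat.gcd_dvd_right q r)

theorem e1_aapos (q r : ℕ) (hq : 0 < q) : 0 < aa q r := by
  rcases Nat.eq_zero_or_pos (aa q r) with h | h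
  · have := e1_gaa q r
    rw [h] at this
    omega
  · exact h

theorem e1_bbpos (q r : ℕ) (hr : 0 < r) : 0 < bb q r := by
  rw [(e1_comm q r).2]; exact e1_aapos r q hr

theorem e1_lcm (q r : ℕ) (hq : 0 < q) : Nat.lcm q r = q * bb q r := by
  unfold bb Nat.lcm
  rw [Nat.mul_div_assoc _ (Nat.gcd_dvd_right q r)]

theorem e1_splitA (k0 k q r : ℕ) (hq : 0 < q) : tA k0 k q r * hA k0 k q r = aa q r :=
  d5_split _ _ (e1_aapos q r hq)

theorem e1_splitB (k0 k q r : ℕ) (hr : 0 < r) : tB k0 k q r * hB k0 k q r = bb q r :=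
  d5_split _ _ (e1_bbpos q r hr)

theorem e1_tpos (k0 k q r : ℕ) : 0 < tA k0 k q r ∧ 0 < tB k0 k q r ∧ 0 < hA k0 k q r ∧ 0 < hB k0 k q r :=
  ⟨(d5_pos _ _).1, (d5_pos _ _).1, (d5_pos _ _).2, (d5_pos _ _).2⟩

/-- `hA ∣ q`, `hB ∣ r`, `(q / hA) tB = (r / hB) tA` -/
theorem e1_cross (k0 k q r : ℕ) (hq : 0 < q) (hr : 0 < r) :
    hA k0 k q r ∣ q ∧ hB k0 k q r ∣ r ∧
      (q / hA k0 k q r) * tB k0 k q r = (r / hB k0 k q r) * tA k0 k q r := by
  obtain ⟨t1, t2, t3, t4⟩ := e1_tpos k0 k q r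
  have h1 := e1_splitA k0 k q r hq
  have h2 := e1_splitB k0 k q r hr
  have h3 := e1_gaa q r
  have h4 := e1_gbb q r
  have e1 : q = hA k0 k q r * (Nat.gcd q r * tA k0 k q r) := by
    calc q = Nat.gcd q r * aa q r := h3.symm
      _ = Nat.gcd q r * (tA k0 k q r * hA k0 k q r) := by rw [h1]
      _ = _ := by ring
  have e2 : r = hB k0 k q r * (Nat.gcd q r * tB k0 k q r) := by
    calc r = Nat.gcd q r * bb q r := h4.symm
      _ = Nat.gcd q r * (tB k0 k q r * hB k0 k q r) := by rw [h2]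
      _ = _ := by ring
  have e3 : q / hA k0 k q r = Nat.gcd q r * tA k0 k q r := Nat.div_eq_of_eq_mul_right t3 e1
  have e4 : r / hB k0 k q r = Nat.gcd q r * tB k0 k q r := Nat.div_eq_of_eq_mul_right t4 e2
  refine ⟨⟨_, e1⟩, ⟨_, e2⟩, ?_⟩
  rw [e3, e4]
  ring

/-- real form: `D = b f(q) (1 + ρ_r / ρ_q)`, i.e. `D ρ_q = b f(q) (ρ_q + ρ_r)` -/
theorem e1_D (f : ℕ → ℝ) (q r : ℕ) (hq : 0 < q) :
    DD f q r = (q : ℝ) * bb q r * (rho f q + rho f r) ∧ (q : ℝ) * rho f q = f q := by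
  have hq' : (0 : ℝ) < q := by exact_mod_cast hq
  constructor
  · unfold DD
    rw [e1_lcm q r hq]
    push_cast
    ring
  · unfold rho
    field_simp

end Pool.Agent.H20G
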