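import Mathlib
import Pool.Agent.Lib.H20G.Core
import Pool.Agent.Lib.H20G.E1
import Pool.Agent.Lib.H20G.T8

set_option autoImplicit false

/-!
# H20G chunk E2: the edges of one class (section 6)
-/

namespace Pool.Agent.H20G

open Finset

theorem e2_exp (x y : ℝ) : (Real.exp x) ^ y = Real.exp (x * y) := (Real.exp_mul x y).symm

/-- numerical identity -/
theorem e2_num (C1 K D H AB M c4 c256 : ℝ) (hK : 0 < K) (hD : 0 < D) (hH : 0 < H) (hAB : 0 < AB) (hM : 0 < M)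
    (h4 : 0 < c4) (h256 : 0 < c256) :
    C1 * (K ^ (-(1 / 4) : ℝ) * AB) ^ (1 / 4 : ℝ) * (c4 * AB) ^ (9 / 40 : ℝ) *
      (M * (c256 * K ^ 2 * H * AB * D)) ^ (21 / 40 : ℝ) * (4 * (1 / K) * (1 / D) / (H * AB)) =
    (C1 * 4 * c4 ^ (9 / 40 : ℝ) * c256 ^ (21 / 40 : ℝ)) * K ^ (-(1 / 80) : ℝ) * D ^ (-(19 / 40) : ℝ) *
      (H ^ (-(19 / 40) : ℝ) * M ^ (21 / 40 : ℝ)) := by
  obtain ⟨k, rfl⟩ : ∃ k, K = Real.exp k := ⟨Real.log K, (Real.exp_log hK).symm⟩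
  obtain ⟨d, rfl⟩ : ∃ k, D = Real.exp k := ⟨Real.log D, (Real.exp_log hD).symm⟩
  obtain ⟨h, rfl⟩ : ∃ k, H = Real.exp k := ⟨Real.log H, (Real.exp_log hH).symm⟩
  obtain ⟨a, rfl⟩ : ∃ k, AB = Real.exp k := ⟨Real.log AB, (Real.exp_log hAB).symm⟩
  obtain ⟨m, rfl⟩ : ∃ k, M = Real.exp k := ⟨Real.log M, (Real.exp_log hM).symm⟩
  obtain ⟨c, rfl⟩ : ∃ k, c4 = Real.exp k := ⟨Real.log c4, (Real.exp_log h4).symm⟩
  obtain ⟨c', rfl⟩ : ∃ k, c256 = Real.exp k := ⟨Real.log c256, (Real.exp_log h256).symm⟩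
  simp only [e2_exp, ← Real.exp_nat_mul, ← Real.exp_add, ← Real.exp_neg, div_eq_mul_inv, one_mul]
  have e1 : C1 * Real.exp ((k * -4⁻¹ + a) * 4⁻¹) * Real.exp ((c + a) * (9 * 40⁻¹)) *
      Real.exp ((m + (c' + (2 : ℕ) * k + h + a + d)) * (21 * 40⁻¹)) * (4 * Real.exp (-k) * Real.exp (-d) * Real.exp (-(h + a))) =
      C1 * 4 * Real.exp ((k * -4⁻¹ + a) * 4⁻¹ + (c + a) * (9 * 40⁻¹) + (m + (c' + (2 : ℕ) * k + h + a + d)) * (21 * 40⁻¹) +
        (-k) + (-d) + (-(h + a))) := by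
    simp only [Real.exp_add]
    ring
  have e2 : C1 * 4 * Real.exp (c * (9 * 40⁻¹)) * Real.exp (c' * (21 * 40⁻¹)) * Real.exp (k * -80⁻¹) * Real.exp (d * -(19 * 40⁻¹)) *
      Real.exp (h * -(19 * 40⁻¹) + m * (21 * 40⁻¹)) =
      C1 * 4 * Real.exp (c * (9 * 40⁻¹) + c' * (21 * 40⁻¹) + k * -80⁻¹ + d * -(19 * 40⁻¹) + (h * -(19 * 40⁻¹) + m * (21 * 40⁻¹))) := by
    simp only [Real.exp_add]
    ring
  rw [e1, e2]
  congr 2
  push_cast
  ring

/-- weighted AM-GM -/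
theorem e2_amgm (h h' M M' : ℝ) (h0 : 0 < h) (h1 : 0 < h') (h2 : 0 < M) (h3 : 0 < M') :
    (h * h') ^ (-(19 / 40) : ℝ) * (M * M') ^ (21 / 40 : ℝ) ≤ M / h' + M' / h + M * M' := by
  have e1 := Real.geom_mean_le_arith_mean3_weighted (w₁ := 19 / 40) (w₂ := 19 / 40) (w₃ := 2 / 40)
    (p₁ := M / h') (p₂ := M' / h) (p₃ := M * M') (by norm_num) (by norm_num) (by norm_num)
    (by positivity) (by positivity) (by positivity) (by norm_num)
  have e2 : (h * h') ^ (-(19 / 40) : ℝ) * (M * M') ^ (21 / 40 : ℝ) =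
      (M / h') ^ (19 / 40 : ℝ) * (M' / h) ^ (19 / 40 : ℝ) * (M * M') ^ (2 / 40 : ℝ) := by
    obtain ⟨k, rfl⟩ : ∃ k, h = Real.exp k := ⟨Real.log h, (Real.exp_log h0).symm⟩
    obtain ⟨k', rfl⟩ : ∃ k, h' = Real.exp k := ⟨Real.log h', (Real.exp_log h1).symm⟩
    obtain ⟨m, rfl⟩ : ∃ k, M = Real.exp k := ⟨Real.log M, (Real.exp_log h2).symm⟩
    obtain ⟨m', rfl⟩ : ∃ k, M' = Real.exp k := ⟨Real.log M', (Real.exp_log h3).symm⟩
    simp only [e2_exp, ← Real.exp_add, ← Real.exp_sub]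
    congr 1
    ring
  rw [e2]
  refine e1.trans ?_
  have p1 : 0 < M / h' := by positivity
  have p2 : 0 < M' / h := by positivity
  have p3 : 0 < M * M' := by positivity
  linarith

/-- counting the edges of one class by `cn` -/
theorem e2_count (P : Finset (ℕ × ℕ)) (k0 k h h' : ℕ) (E : Finset (ℕ × ℕ))

    (hE : ∀ x ∈ E, 0 < x.1 ∧ 0 < x.2 ∧ hB k0 k x.1 x.2 = h ∧ hA k0 k x.1 x.2 = h' ∧ (tA k0 k x.1 x.2, tB k0 k x.1 x.2) ∈ P) :
    E.card ≤ ∑ y ∈ P, cn ((E.image Prod.fst).image (fun q => q / h')) ((E.image Prod.snd).image (fun r => r / h)) y.1 y.2 := by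
  unfold cn
  rw [← Finset.card_sigma P (fun y => ((((E.image Prod.fst).image (fun q => q / h')) ×ˢ ((E.image Prod.snd).image (fun r => r / h))).filter
    (fun x : ℕ × ℕ => x.1 * y.2 = x.2 * y.1)))]
  refine Finset.card_le_card_of_injOn (fun x => ⟨(tA k0 k x.1 x.2, tB k0 k x.1 x.2), (x.1 / h', x.2 / h)⟩) ?_ ?_
  · intro x hx
    obtain ⟨a1, a2, a3, a4, a5⟩ := hE x hx
    have h3 := e1_cross k0 k x.1 x.2 a1 a2
    rw [a3, a4] at h3
    rw [Finset.mem_coe, Finset.mem_sigma]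
    refine ⟨a5, ?_⟩
    rw [mem_filter, mem_product]
    exact ⟨⟨mem_image_of_mem _ (mem_image_of_mem _ hx), mem_image_of_mem _ (mem_image_of_mem _ hx)⟩, h3.2.2⟩
  · intro x hx y hy hxy
    obtain ⟨a1, a2, a3, a4, a5⟩ := hE x hx
    obtain ⟨b1, b2, b3, b4, b5⟩ := hE y hy
    have h3 := e1_cross k0 k x.1 x.2 a1 a2
    rw [a3, a4] at h3
    have h4 := e1_cross k0 k y.1 y.2 b1 b2
    rw [b3, b4] at h4
    simp only [Sigma.mk.injEq, Prod.mk.injEq, heq_eq_eq] at hxy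
    obtain ⟨-, h5, h6⟩ := hxy
    have h7 : x.1 = y.1 := by
      rw [← Nat.mul_div_cancel' h3.1, ← Nat.mul_div_cancel' h4.1, h5]
    have h8 : x.2 = y.2 := by
      rw [← Nat.mul_div_cancel' h3.2.1, ← Nat.mul_div_cancel' h4.2.1, h6]
    exact Prod.ext h7 h8

/-- bounds for one edge: mass from below and overlap from above -/
theorem e2_edge {c0 γ : ℝ} {f : ℕ → ℝ} {S : Finset ℕ} (hS : Blk c0 f S) {k0 k q r : ℕ} (he : Edge γ f S k q r) :
    1 ≤ f q * (2 ^ (k + 1) * 2 * hB k0 k q r * 2 ^ Nat.log 2 (tB k0 k q r) *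
      (1 / 2 ^ (rc f q) + 1 / 2 ^ (rc f r)) * 2 ^ (rc f q + 1)) ∧
    ov f q r ≤ 4 * (1 / 2 ^ k) * (1 / 2 ^ (max (rc f q) (rc f r) - min (rc f q) (rc f r))) /
      ((hB k0 k q r : ℝ) * hA k0 k q r * (2 ^ Nat.log 2 (tA k0 k q r) * 2 ^ Nat.log 2 (tB k0 k q r))) := by
  obtain ⟨hq, hr, hne, hD1, hD2, hn⟩ := he
  have q0 := hS.pos q hq
  have r0 := hS.pos r hr
  obtain ⟨ρq0, ρq1⟩ := e1_rho hS hq
  obtain ⟨ρr0, ρr1⟩ := e1_rho hS hr
  obtain ⟨cq1, cq2⟩ := e1_rc f q ρq0 ρq1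
  obtain ⟨cr1, cr2⟩ := e1_rc f r ρr0 ρr1
  obtain ⟨t1, t2, t3, t4⟩ := e1_tpos k0 k q r
  have sA := e1_splitA k0 k q r q0
  have sB := e1_splitB k0 k q r r0
  obtain ⟨d1, d2⟩ := e1_D f q r q0
  have fq0 := hS.fpos q hq
  have tB1 : 2 ^ Nat.log 2 (tB k0 k q r) ≤ tB k0 k q r := Nat.pow_log_le_self 2 t2.ne'
  have tB2 : tB k0 k q r < 2 ^ (Nat.log 2 (tB k0 k q r) + 1) := Nat.lt_pow_succ_log_self (by norm_num) _
  have tA1 : 2 ^ Nat.log 2 (tA k0 k q r) ≤ tA k0 k q r := Nat.pow_log_le_self 2 t1.ne'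
  set B : ℝ := 2 ^ Nat.log 2 (tB k0 k q r) with hB0
  set A : ℝ := 2 ^ Nat.log 2 (tA k0 k q r) with hA0
  have tB1' : B ≤ (tB k0 k q r : ℝ) := by rw [hB0]; exact_mod_cast tB1
  have tB2' : (tB k0 k q r : ℝ) ≤ 2 * B := by
    have : (tB k0 k q r : ℝ) < 2 ^ (Nat.log 2 (tB k0 k q r) + 1) := by exact_mod_cast tB2
    rw [pow_succ] at this
    linarith
  have tA1' : A ≤ (tA k0 k q r : ℝ) := by rw [hA0]; exact_mod_cast tA1
  have sB' : (tB k0 k q r : ℝ) * hB k0 k q r = bb q r := by exact_mod_cast sB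
  have sA' : (tA k0 k q r : ℝ) * hA k0 k q r = aa q r := by exact_mod_cast sA
  have hb0 : (0 : ℝ) < hB k0 k q r := by exact_mod_cast t4
  have ha0 : (0 : ℝ) < hA k0 k q r := by exact_mod_cast t3
  have hB00 : 0 < B := by positivity
  have hA00 : 0 < A := by positivity
  constructor
  · -- mass
    have h1 : 1 / 2 ^ (k + 1) < f q * bb q r * ((rho f q + rho f r) / rho f q) := by
      have e1 : DD f q r = f q * bb q r * ((rho f q + rho f r) / rho f q) := by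
        rw [d1, ← d2]
        field_simp
      rw [← e1]
      exact hD2
    have h2 : (rho f q + rho f r) / rho f q ≤ (1 / 2 ^ (rc f q) + 1 / 2 ^ (rc f r)) * 2 ^ (rc f q + 1) := by
      rw [div_le_iff₀ ρq0]
      have h3 : 1 ≤ 2 ^ (rc f q + 1) * rho f q := by
        rw [div_lt_iff₀ (by positivity)] at cq1
        linarith
      have h4 : rho f q + rho f r ≤ 1 / 2 ^ (rc f q) + 1 / 2 ^ (rc f r) := by linarith
      calc rho f q + rho f r ≤ (1 / 2 ^ (rc f q) + 1 / 2 ^ (rc f r)) * 1 := by linarith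
        _ ≤ (1 / 2 ^ (rc f q) + 1 / 2 ^ (rc f r)) * (2 ^ (rc f q + 1) * rho f q) :=
            mul_le_mul_of_nonneg_left h3 (by positivity)
        _ = _ := by ring
    have h3 : (bb q r : ℝ) ≤ 2 * B * hB k0 k q r := by
      rw [← sB']
      exact mul_le_mul_of_nonneg_right tB2' hb0.le
    have h4 : 1 / 2 ^ (k + 1) ≤ f q * (2 * B * hB k0 k q r) * ((1 / 2 ^ (rc f q) + 1 / 2 ^ (rc f r)) * 2 ^ (rc f q + 1)) := by
      refine h1.le.trans ?_
      have : 0 ≤ (rho f q + rho f r) / rho f q := by positivity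
      gcongr
    rw [div_le_iff₀ (by positivity)] at h4
    calc (1 : ℝ) ≤ _ := h4
      _ = _ := by ring
  · -- overlap
    have hg : (Nat.gcd q r : ℝ) * (aa q r * bb q r) = Nat.lcm q r := by
      rw [e1_lcm q r q0]
      have := e1_gaa q r
      push_cast
      rw [← mul_assoc]
      congr 1
      exact_mod_cast this
    have hg2 : (Nat.gcd q r : ℝ) * (rho f q + rho f r) * (aa q r * bb q r) ≤ 1 / 2 ^ k := by
      refine le_trans (le_of_eq ?_) hD1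
      unfold DD
      rw [← hg]
      ring
    have hab : (hB k0 k q r : ℝ) * hA k0 k q r * (A * B) ≤ aa q r * bb q r := by
      rw [← sA', ← sB']
      calc (hB k0 k q r : ℝ) * hA k0 k q r * (A * B) = A * hA k0 k q r * (B * hB k0 k q r) := by ring
        _ ≤ _ := by gcongr
    -- `min ρ ≤ 2 · 2^{-δ} (ρ_q + ρ_r)`
    have hmin : min (rho f q) (rho f r) ≤ 2 * (1 / 2 ^ (max (rc f q) (rc f r) - min (rc f q) (rc f r))) * (rho f q + rho f r) := by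
      have key : ∀ x y : ℕ, ∀ u v : ℝ, 0 < u → 0 < v → 1 / 2 ^ (x + 1) < u → v ≤ 1 / 2 ^ y → x ≤ y →
          v ≤ 2 * (1 / 2 ^ (y - x)) * (u + v) := by
        intro x y u v hu hv h1 h2 hxy
        have e : (2 : ℝ) ^ y = 2 ^ (y - x) * 2 ^ x := by rw [← pow_add]; congr 1; omega
        calc v ≤ 1 / 2 ^ y := h2
          _ = 2 * (1 / 2 ^ (y - x)) * (1 / 2 ^ (x + 1)) := by
              rw [e, pow_succ]
              field_simp
          _ ≤ 2 * (1 / 2 ^ (y - x)) * (u + v) := by gcongr; linarith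
      rcases le_total (rc f q) (rc f r) with h | h
      · rw [max_eq_right h, min_eq_left h]
        exact (min_le_right _ _).trans (key _ _ _ _ ρq0 ρr0 cq1 cr2 h)
      · rw [max_eq_left h, min_eq_right h]
        rw [add_comm (rho f q)]
        exact (min_le_left _ _).trans (key _ _ _ _ ρr0 ρq0 cr1 cq2 h)
    have hapos : (0 : ℝ) < aa q r := by exact_mod_cast e1_aapos q r q0
    have hbpos : (0 : ℝ) < bb q r := by exact_mod_cast e1_bbpos q r r0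
    have hgpos : (0 : ℝ) < Nat.gcd q r := by exact_mod_cast Nat.gcd_pos_of_pos_left _ q0
    unfold ov
    rw [le_div_iff₀ (by positivity)]
    calc 2 * (Nat.gcd q r : ℝ) * min (rho f q) (rho f r) * ((hB k0 k q r : ℝ) * hA k0 k q r * (A * B))
        ≤ 2 * (Nat.gcd q r : ℝ) * (2 * (1 / 2 ^ (max (rc f q) (rc f r) - min (rc f q) (rc f r))) * (rho f q + rho f r)) *
          (aa q r * bb q r) := by gcongr
      _ = 4 * (1 / 2 ^ (max (rc f q) (rc f r) - min (rc f q) (rc f r))) *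
          ((Nat.gcd q r : ℝ) * (rho f q + rho f r) * (aa q r * bb q r)) := by ring
      _ ≤ 4 * (1 / 2 ^ (max (rc f q) (rc f r) - min (rc f q) (rc f r))) * (1 / 2 ^ k) := by gcongr
      _ = _ := by ring

end Pool.Agent.H20G
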