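import Mathlib
import Pool.Agent.Lib.H20G.Core
import Pool.Agent.Lib.H20G.E1
import Pool.Agent.Lib.H20G.E2
import Pool.Agent.Lib.H20G.T8

set_option autoImplicit false

/-!
# H20G chunk E3: one class (section 6)
-/

namespace Pool.Agent.H20G

open Finset

theorem e3_nint_neg (x : ℝ) : nint (-x) = nint x := by
  have h : ∀ y : ℝ, nint (-y) ≤ nint y := by
    intro y
    unfold nint
    have h1 := round_le (-y) (-(round y))
    refine h1.trans (le_of_eq ?_)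
    push_cast
    rw [← abs_neg]
    congr 1
    ring
  refine le_antisymm (h x) ?_
  have := h (-x)
  rwa [neg_neg] at this

theorem e3_DD (f : ℕ → ℝ) (q r : ℕ) : DD f q r = DD f r q := by
  unfold DD
  rw [Nat.lcm_comm, add_comm]

/-- edges are symmetric -/
theorem e3_edge_symm {γ : ℝ} {f : ℕ → ℝ} {S : Finset ℕ} {k q r : ℕ} (h : Edge γ f S k q r) : Edge γ f S k r q := by
  obtain ⟨h1, h2, h3, h4, h5, h6⟩ := h
  refine ⟨h2, h1, h3.symm, by rwa [e3_DD], by rwa [e3_DD], ?_⟩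
  rw [e3_DD, ← (e1_comm q r).1, ← (e1_comm q r).2]
  have : γ * ((aa q r : ℝ) - bb q r) = -(γ * ((bb q r : ℝ) - aa q r)) := by ring
  rw [this, e3_nint_neg]
  exact h6

theorem e3_sedge_symm {γ : ℝ} {k0 : ℕ} {f : ℕ → ℝ} {S X : Finset ℕ} {Ls : ℕ → Finset ℕ} {k q r : ℕ}
    (h : SEdge γ k0 f S X Ls k q r) : SEdge γ k0 f S X Ls k r q := by
  obtain ⟨h1, h2, h3, h4, h5, h6, h7⟩ := h
  exact ⟨h1, e3_edge_symm h2, h4, h3, by rwa [Nat.lcm_comm], h7, h6⟩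

theorem e3_swap (k0 k q r : ℕ) : hB k0 k r q = hA k0 k q r ∧ hA k0 k r q = hB k0 k q r ∧
    tB k0 k r q = tA k0 k q r ∧ tA k0 k r q = tB k0 k q r := by
  unfold hB hA tB tA
  rw [(e1_comm q r).1, (e1_comm q r).2]
  exact ⟨rfl, rfl, rfl, rfl⟩

theorem e3_sig (i i' : ℕ) : (1 / 2 ^ i + 1 / 2 ^ i' : ℝ) ^ 2 * (2 ^ (i + 1) * 2 ^ (i' + 1)) ≤
    16 * 2 ^ (max i i' - min i i') := by
  have key : ∀ x y : ℕ, x ≤ y → (1 / 2 ^ x + 1 / 2 ^ y : ℝ) ^ 2 * (2 ^ (x + 1) * 2 ^ (y + 1)) ≤ 16 * 2 ^ (y - x) := by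
    intro x y hxy
    have e : (2 : ℝ) ^ y = 2 ^ (y - x) * 2 ^ x := by rw [← pow_add]; congr 1; omega
    have h1 : (1 : ℝ) / 2 ^ y ≤ 1 / 2 ^ x :=
      one_div_le_one_div_of_le (by positivity) (pow_le_pow_right₀ (by norm_num) hxy)
    calc (1 / 2 ^ x + 1 / 2 ^ y : ℝ) ^ 2 * (2 ^ (x + 1) * 2 ^ (y + 1)) ≤
        (1 / 2 ^ x + 1 / 2 ^ x) ^ 2 * (2 ^ (x + 1) * 2 ^ (y + 1)) := by gcongr
      _ = 16 * 2 ^ (y - x) := by
          rw [pow_succ (2 : ℝ) x, pow_succ (2 : ℝ) y, e]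
          field_simp
          ring
  rcases le_total i i' with h | h
  · rw [max_eq_right h, min_eq_left h]
    exact key _ _ h
  · rw [max_eq_left h, min_eq_right h, add_comm (1 / 2 ^ i : ℝ), mul_comm ((2 : ℝ) ^ (i + 1))]
    exact key _ _ h

/-- membership of the smooth parts in the box -/
theorem e3_mem {γ : ℝ} {f : ℕ → ℝ} {S : Finset ℕ} {k0 k q r : ℕ} (q0 : 0 < q) (r0 : 0 < r) (he : Edge γ f S k q r) :
    (tA k0 k q r, tB k0 k q r) ∈ boxP γ k0 k q r := by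
  obtain ⟨t1, t2, t3, t4⟩ := e1_tpos k0 k q r
  have sA := e1_splitA k0 k q r q0
  have sB := e1_splitB k0 k q r r0
  unfold boxP Pset
  rw [mem_filter, mem_product, mem_Ico, mem_Ico]
  have hA1 := Nat.pow_log_le_self 2 t1.ne'
  have hB1 := Nat.pow_log_le_self 2 t2.ne'
  have hA2 : tA k0 k q r < 2 ^ (Nat.log 2 (tA k0 k q r) + 1) := Nat.lt_pow_succ_log_self (by norm_num) _
  have hB2 : tB k0 k q r < 2 ^ (Nat.log 2 (tB k0 k q r) + 1) := Nat.lt_pow_succ_log_self (by norm_num) _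
  rw [pow_succ] at hA2 hB2
  refine ⟨⟨⟨hA1, by simp only; linarith⟩, ⟨hB1, by simp only; linarith⟩⟩, ?_, ?_⟩
  · show Nat.Coprime (tA k0 k q r) (tB k0 k q r)
    exact Nat.Coprime.coprime_dvd_left ⟨_, sA.symm⟩ (Nat.Coprime.coprime_dvd_right ⟨_, sB.symm⟩ (e1_cop q r q0))
  · show nint (γ * ((tB k0 k q r : ℝ) * hB k0 k q r - (tA k0 k q r : ℝ) * hA k0 k q r)) ≤ 1 / 2 ^ k
    have e1 : (tB k0 k q r : ℝ) * hB k0 k q r = bb q r := by exact_mod_cast sB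
    have e2 : (tA k0 k q r : ℝ) * hA k0 k q r = aa q r := by exact_mod_cast sA
    rw [e1, e2]
    exact he.2.2.2.2.2.trans he.2.2.2.1

/-- the bound for one class -/
theorem e3_class (c0 : ℝ) : ∃ C : ℝ, 0 < C ∧ ∀ (γ : ℝ) (f : ℕ → ℝ) (S : Finset ℕ), Blk c0 f S →
    ∀ (k0 k i i' h h' eA eB : ℕ) (E : Finset (ℕ × ℕ)),
    (∀ x ∈ E, Edge γ f S k x.1 x.2 ∧ Generic γ k0 k x.1 x.2 ∧ rc f x.1 = i ∧ rc f x.2 = i' ∧
      hB k0 k x.1 x.2 = h ∧ hA k0 k x.1 x.2 = h' ∧ Nat.log 2 (tA k0 k x.1 x.2) = eA ∧ Nat.log 2 (tB k0 k x.1 x.2) = eB) →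
    ∑ x ∈ E, ov f x.1 x.2 ≤ C * (2 : ℝ) ^ (-((k : ℝ) / 80)) * ((2 : ℝ) ^ (-(19 / 40) : ℝ)) ^ (max i i' - min i i') *
      ((∑ q ∈ E.image Prod.fst, f q) / h' + (∑ r ∈ E.image Prod.snd, f r) / h +
        (∑ q ∈ E.image Prod.fst, f q) * (∑ r ∈ E.image Prod.snd, f r)) := by
  obtain ⟨C1, hC1, hT⟩ := t8_cor c0
  refine ⟨C1 * 4 * (4 : ℝ) ^ (9 / 40 : ℝ) * (256 : ℝ) ^ (21 / 40 : ℝ), by positivity, ?_⟩
  intro γ f S hS k0 k i i' h h' eA eB E hE
  rcases E.eq_empty_or_nonempty with rfl | hne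
  · simp
  obtain ⟨x0, hx0⟩ := hne
  obtain ⟨y1, y2, y3, y4, y5, y6, y7, y8⟩ := hE x0 hx0
  set V := E.image Prod.fst with hVdef
  set W := E.image Prod.snd with hWdef
  set M := ∑ q ∈ V, f q with hM
  set M' := ∑ r ∈ W, f r with hM'
  have hVS : ∀ q ∈ V, q ∈ S := by
    intro q hq
    rw [hVdef, mem_image] at hq
    obtain ⟨x, hx, rfl⟩ := hq
    exact (hE x hx).1.1
  have hWS : ∀ r ∈ W, r ∈ S := by
    intro r hr
    rw [hWdef, mem_image] at hr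
    obtain ⟨x, hx, rfl⟩ := hr
    exact (hE x hx).1.2.1
  have hMpos : 0 < M := Finset.sum_pos (fun q hq => hS.fpos q (hVS q hq)) ⟨x0.1, mem_image_of_mem _ hx0⟩
  have hMpos' : 0 < M' := Finset.sum_pos (fun q hq => hS.fpos q (hWS q hq)) ⟨x0.2, mem_image_of_mem _ hx0⟩
  have hh : 0 < h := by rw [← y5]; exact (e1_tpos k0 k x0.1 x0.2).2.2.2
  have hh' : 0 < h' := by rw [← y6]; exact (e1_tpos k0 k x0.1 x0.2).2.2.1
  have hhR : (0 : ℝ) < h := by exact_mod_cast hh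
  have hhR' : (0 : ℝ) < h' := by exact_mod_cast hh'
  set P := Pset γ k h h' (2 ^ eA) (2 ^ eB) with hP
  have hbox : ∀ x ∈ E, boxP γ k0 k x.1 x.2 = P := by
    intro x hx
    obtain ⟨z1, z2, z3, z4, z5, z6, z7, z8⟩ := hE x hx
    rw [hP, boxP, z5, z6, z7, z8]
  have hPc : (P.card : ℝ) ≤ (2 : ℝ) ^ (-((k : ℝ) / 4)) * (2 ^ eA * 2 ^ eB) := by
    have := y2
    unfold Generic at this
    rw [hbox x0 hx0, y7, y8] at this
    rw [← mul_assoc]
    exact this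
  set K : ℝ := 2 ^ k with hK
  set D : ℝ := 2 ^ (max i i' - min i i') with hD
  set AB : ℝ := 2 ^ eA * 2 ^ eB with hAB
  set o : ℝ := 4 * (1 / K) * (1 / D) / ((h : ℝ) * h' * AB) with ho
  have ho0 : 0 < o := by positivity
  -- step 1
  have s1 : ∑ x ∈ E, ov f x.1 x.2 ≤ (E.card : ℝ) * o := by
    rw [← nsmul_eq_mul]
    refine Finset.sum_le_card_nsmul _ _ _ fun x hx => ?_
    obtain ⟨z1, z2, z3, z4, z5, z6, z7, z8⟩ := hE x hx
    have := (e2_edge hS (k0 := k0) z1).2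
    rw [z3, z4, z5, z6, z7, z8] at this
    exact this
  -- step 2
  have s2 : (E.card : ℝ) ≤ ∑ y ∈ P, (cn (V.image (fun q => q / h')) (W.image (fun r => r / h)) y.1 y.2 : ℝ) := by
    have := e2_count P k0 k h h' E (fun x hx => by
      obtain ⟨z1, z2, z3, z4, z5, z6, z7, z8⟩ := hE x hx
      have a1 := hS.pos _ z1.1
      have a2 := hS.pos _ z1.2.1
      refine ⟨a1, a2, z5, z6, ?_⟩
      rw [← hbox x hx]
      exact e3_mem a1 a2 z1)
    exact_mod_cast this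
  -- divisibility
  have dV : ∀ q ∈ V, h' ∣ q := by
    intro q hq
    rw [hVdef, mem_image] at hq
    obtain ⟨x, hx, rfl⟩ := hq
    obtain ⟨z1, z2, z3, z4, z5, z6, z7, z8⟩ := hE x hx
    have := (e1_cross k0 k x.1 x.2 (hS.pos _ z1.1) (hS.pos _ z1.2.1)).1
    rwa [z6] at this
  have dW : ∀ r ∈ W, h ∣ r := by
    intro q hq
    rw [hWdef, mem_image] at hq
    obtain ⟨x, hx, rfl⟩ := hq
    obtain ⟨z1, z2, z3, z4, z5, z6, z7, z8⟩ := hE x hx
    have := (e1_cross k0 k x.1 x.2 (hS.pos _ z1.1) (hS.pos _ z1.2.1)).2.1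
    rwa [z5] at this
  -- step 3
  have s3 := hT (V.image (fun q => q / h')) (W.image (fun r => r / h))
    (fun v hv => by
      rw [mem_image] at hv
      obtain ⟨q, hq, rfl⟩ := hv
      have q0 := hS.pos q (hVS q hq)
      have d := dV q hq
      refine ⟨Nat.div_pos (Nat.le_of_dvd q0 d) hh', ?_⟩
      exact (d5_rp_mono (Nat.div_dvd_of_dvd d) q0.ne').trans (hS.rp_le q (hVS q hq)))
    (fun v hv => by
      rw [mem_image] at hv
      obtain ⟨q, hq, rfl⟩ := hv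
      have q0 := hS.pos q (hWS q hq)
      have d := dW q hq
      refine ⟨Nat.div_pos (Nat.le_of_dvd q0 d) hh, ?_⟩
      exact (d5_rp_mono (Nat.div_dvd_of_dvd d) q0.ne').trans (hS.rp_le q (hWS q hq)))
    (2 * 2 ^ eA) (2 * 2 ^ eB) (by positivity) (by positivity) P (by
      intro y hy
      rw [hP, Pset, mem_filter, mem_product, mem_Ico, mem_Ico] at hy
      obtain ⟨⟨⟨b1, b2⟩, ⟨b3, b4⟩⟩, b5, b6⟩ := hy
      unfold cp
      rw [mem_filter, mem_product, mem_Icc, mem_Icc]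
      refine ⟨⟨⟨le_trans Nat.one_le_two_pow b1, ?_⟩, ⟨le_trans Nat.one_le_two_pow b3, ?_⟩⟩, b5⟩
      · apply Nat.le_floor
        have : (y.1 : ℝ) < ((2 * 2 ^ eA : ℕ) : ℝ) := by exact_mod_cast b2
        push_cast at this
        exact this.le
      · apply Nat.le_floor
        have : (y.2 : ℝ) < ((2 * 2 ^ eB : ℕ) : ℝ) := by exact_mod_cast b4
        push_cast at this
        exact this.le)
  -- masses
  have m1 : (V.card : ℝ) ≤ M * (2 ^ (k + 1) * 2 * h * 2 ^ eB * (1 / 2 ^ i + 1 / 2 ^ i') * 2 ^ (i + 1)) := by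
    rw [hM, Finset.sum_mul, ← nsmul_one]
    refine Finset.card_nsmul_le_sum _ _ _ fun q hq => ?_
    rw [hVdef, mem_image] at hq
    obtain ⟨x, hx, rfl⟩ := hq
    obtain ⟨z1, z2, z3, z4, z5, z6, z7, z8⟩ := hE x hx
    have := (e2_edge hS (k0 := k0) z1).1
    rw [z3, z4, z5, z8] at this
    exact this
  have m2 : (W.card : ℝ) ≤ M' * (2 ^ (k + 1) * 2 * h' * 2 ^ eA * (1 / 2 ^ i' + 1 / 2 ^ i) * 2 ^ (i' + 1)) := by
    rw [hM', Finset.sum_mul, ← nsmul_one]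
    refine Finset.card_nsmul_le_sum _ _ _ fun q hq => ?_
    rw [hWdef, mem_image] at hq
    obtain ⟨x, hx, rfl⟩ := hq
    obtain ⟨z1, z2, z3, z4, z5, z6, z7, z8⟩ := hE x hx
    have := (e2_edge hS (k0 := k0) (e3_edge_symm z1)).1
    rw [z3, z4, (e3_swap k0 k x.1 x.2).1, (e3_swap k0 k x.1 x.2).2.2.1, z6, z7] at this
    exact this
  have m3 : ((V.image (fun q => q / h')).card : ℝ) * (W.image (fun r => r / h)).card ≤
      M * M' * (256 * K ^ 2 * ((h : ℝ) * h') * AB * D) := by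
    have c1 : ((V.image (fun q => q / h')).card : ℝ) ≤ V.card := by exact_mod_cast Finset.card_image_le
    have c2 : ((W.image (fun q => q / h)).card : ℝ) ≤ W.card := by exact_mod_cast Finset.card_image_le
    have c3 := e3_sig i i'
    calc ((V.image (fun q => q / h')).card : ℝ) * (W.image (fun r => r / h)).card
        ≤ (M * (2 ^ (k + 1) * 2 * h * 2 ^ eB * (1 / 2 ^ i + 1 / 2 ^ i') * 2 ^ (i + 1))) *
          (M' * (2 ^ (k + 1) * 2 * h' * 2 ^ eA * (1 / 2 ^ i' + 1 / 2 ^ i) * 2 ^ (i' + 1))) :=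
          mul_le_mul (c1.trans m1) (c2.trans m2) (by positivity) (by positivity)
      _ = M * M' * (16 * K ^ 2 * ((h : ℝ) * h') * AB) * ((1 / 2 ^ i + 1 / 2 ^ i' : ℝ) ^ 2 * (2 ^ (i + 1) * 2 ^ (i' + 1))) := by
          rw [hK, hAB, pow_succ 2 k]
          ring
      _ ≤ M * M' * (16 * K ^ 2 * ((h : ℝ) * h') * AB) * (16 * D) := by gcongr
      _ = _ := by ring
  -- numbers
  have n1 : (2 : ℝ) ^ (-((k : ℝ) / 4)) = K ^ (-(1 / 4) : ℝ) := by
    rw [hK, ← Real.rpow_natCast, ← Real.rpow_mul (by norm_num)]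
    congr 1
    ring
  have n2 : (2 : ℝ) ^ (-((k : ℝ) / 80)) = K ^ (-(1 / 80) : ℝ) := by
    rw [hK, ← Real.rpow_natCast, ← Real.rpow_mul (by norm_num)]
    congr 1
    ring
  have n3 : ((2 : ℝ) ^ (-(19 / 40) : ℝ)) ^ (max i i' - min i i') = D ^ (-(19 / 40) : ℝ) := by
    rw [hD, ← Real.rpow_natCast, ← Real.rpow_natCast, ← Real.rpow_mul (by norm_num), ← Real.rpow_mul (by norm_num)]
    congr 1
    ring
  rw [n2, n3]
  rw [n1] at hPc
  have hK0 : 0 < K := by positivity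
  have hD0 : 0 < D := by positivity
  have hAB0 : 0 < AB := by positivity
  calc ∑ x ∈ E, ov f x.1 x.2 ≤ (E.card : ℝ) * o := s1
    _ ≤ (C1 * (P.card : ℝ) ^ (1 / 4 : ℝ) * ((2 * 2 ^ eA) * (2 * 2 ^ eB)) ^ (9 / 40 : ℝ) *
        (((V.image (fun q => q / h')).card : ℝ) * (W.image (fun r => r / h)).card) ^ (21 / 40 : ℝ)) * o :=
        mul_le_mul_of_nonneg_right (s2.trans s3) ho0.le
    _ ≤ (C1 * (K ^ (-(1 / 4) : ℝ) * AB) ^ (1 / 4 : ℝ) * (4 * AB) ^ (9 / 40 : ℝ) *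
        (M * M' * (256 * K ^ 2 * ((h : ℝ) * h') * AB * D)) ^ (21 / 40 : ℝ)) * o := by
        have e4 : ((2 : ℝ) * 2 ^ eA) * (2 * 2 ^ eB) = 4 * AB := by rw [hAB]; ring
        rw [e4]
        gcongr
    _ = (C1 * 4 * (4 : ℝ) ^ (9 / 40 : ℝ) * (256 : ℝ) ^ (21 / 40 : ℝ)) * K ^ (-(1 / 80) : ℝ) * D ^ (-(19 / 40) : ℝ) *
      (((h : ℝ) * h') ^ (-(19 / 40) : ℝ) * (M * M') ^ (21 / 40 : ℝ)) := by
        rw [ho]
        exact e2_num C1 K D ((h : ℝ) * h') AB (M * M') 4 256 hK0 hD0 (by positivity) hAB0 (by positivity) (by norm_num) (by norm_num)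
    _ ≤ _ := by
        have := e2_amgm h h' M M' hhR hhR' hMpos hMpos'
        gcongr

end Pool.Agent.H20G
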