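import Mathlib
import Pool.Agent.Lib.H20G.Core
import Pool.Agent.Lib.H20G.E1
import Pool.Agent.Lib.H20G.E2
import Pool.Agent.Lib.H20G.E3
import Pool.Agent.Lib.H20G.D2

set_option autoImplicit false

/-!
# H20G chunk E4: summation over the classes (section 6)
-/

namespace Pool.Agent.H20G

open Finset

theorem e4_geo (t : ℝ) (h0 : 0 < t) (h1 : t < 1) (i : ℕ) (J : Finset ℕ) :
    ∑ j ∈ J, t ^ (max i j - min i j) ≤ 2 / (1 - t) := by
  have hgeo : ∀ F : Finset ℕ, ∑ n ∈ F, t ^ n ≤ 1 / (1 - t) := by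
    intro F
    have h2 := sum_le_hasSum F (fun n _ => pow_nonneg h0.le n) (hasSum_geometric_of_lt_one h0.le h1)
    rwa [← one_div] at h2
  have e : ∑ j ∈ J, t ^ (max i j - min i j) = ∑ j ∈ J.filter (fun j => j ≤ i), t ^ (max i j - min i j) +
      ∑ j ∈ J.filter (fun j => ¬ j ≤ i), t ^ (max i j - min i j) :=
    (Finset.sum_filter_add_sum_filter_not J (fun j => j ≤ i) _).symm
  have a1 : ∑ j ∈ J.filter (fun j => j ≤ i), t ^ (max i j - min i j) ≤ 1 / (1 - t) := by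
    have : ∑ j ∈ J.filter (fun j => j ≤ i), t ^ (max i j - min i j) =
        ∑ n ∈ (J.filter (fun j => j ≤ i)).image (fun j => i - j), t ^ n := by
      rw [Finset.sum_image]
      · refine Finset.sum_congr rfl fun j hj => ?_
        rw [mem_filter] at hj
        rw [max_eq_left hj.2, min_eq_right hj.2]
      · intro a ha b hb hab
        rw [Finset.mem_coe, mem_filter] at ha hb
        simp only at hab
        omega
    rw [this]
    exact hgeo _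
  have a2 : ∑ j ∈ J.filter (fun j => ¬ j ≤ i), t ^ (max i j - min i j) ≤ 1 / (1 - t) := by
    have : ∑ j ∈ J.filter (fun j => ¬ j ≤ i), t ^ (max i j - min i j) =
        ∑ n ∈ (J.filter (fun j => ¬ j ≤ i)).image (fun j => j - i), t ^ n := by
      rw [Finset.sum_image]
      · refine Finset.sum_congr rfl fun j hj => ?_
        rw [mem_filter] at hj
        have : i ≤ j := by omega
        rw [max_eq_right this, min_eq_left this]
      · intro a ha b hb hab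
        rw [Finset.mem_coe, mem_filter] at ha hb
        simp only at hab
        omega
    rw [this]
    exact hgeo _
  rw [e]
  have : 2 / (1 - t) = 1 / (1 - t) + 1 / (1 - t) := by ring
  linarith

/-- one side -/
theorem e4_side {ι : Type} [DecidableEq ι] (t : ℝ) (h0 : 0 < t) (h1 : t < 1) (c0 : ℝ) (S : Finset ℕ) (f : ℕ → ℝ)
    (hpos : ∀ q ∈ S, 0 < q) (hf : ∀ q ∈ S, 0 ≤ f q) (hrp : ∀ q ∈ S, rp q ≤ c0) (rcl : ℕ → ℕ)
    (Kc : Finset ι) (V : ι → Finset ℕ) (own oth hh : ι → ℕ)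
    (hV : ∀ c ∈ Kc, ∀ q ∈ V c, q ∈ S ∧ own c = rcl q ∧ hh c ∣ q)
    (hinj : ∀ c ∈ Kc, ∀ c' ∈ Kc, ∀ q, q ∈ V c → q ∈ V c' → oth c = oth c' → hh c = hh c' → c = c') :
    ∑ c ∈ Kc, t ^ (max (own c) (oth c) - min (own c) (oth c)) * ((∑ q ∈ V c, f q) / hh c) ≤
      (∑ q ∈ S, f q) * (2 / (1 - t) * Real.exp (2 * c0)) := by
  have e1 : ∀ c ∈ Kc, t ^ (max (own c) (oth c) - min (own c) (oth c)) * ((∑ q ∈ V c, f q) / hh c) =
      ∑ q ∈ S, (if q ∈ V c then f q * (t ^ (max (rcl q) (oth c) - min (rcl q) (oth c)) / hh c) else 0) := by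
    intro c hc
    rw [← Finset.sum_filter]
    have : S.filter (fun q => q ∈ V c) = V c := by
      ext q
      rw [mem_filter]
      exact ⟨fun h => h.2, fun h => ⟨(hV c hc q h).1, h⟩⟩
    rw [this, Finset.sum_div, Finset.mul_sum]
    refine Finset.sum_congr rfl fun q hq => ?_
    rw [(hV c hc q hq).2.1]
    ring
  rw [Finset.sum_congr rfl e1, Finset.sum_comm, Finset.sum_mul]
  refine Finset.sum_le_sum fun q hq => ?_
  rw [← Finset.sum_filter]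
  rw [← Finset.mul_sum]
  refine mul_le_mul_of_nonneg_left ?_ (hf q hq)
  set F := Kc.filter (fun c => q ∈ V c) with hF
  have e2 : ∑ c ∈ F, t ^ (max (rcl q) (oth c) - min (rcl q) (oth c)) / (hh c : ℝ) =
      ∑ y ∈ F.image (fun c => (oth c, hh c)), t ^ (max (rcl q) y.1 - min (rcl q) y.1) / (y.2 : ℝ) := by
    rw [Finset.sum_image]
    intro a ha b hb hab
    rw [Finset.mem_coe, hF, mem_filter] at ha hb
    simp only [Prod.mk.injEq] at hab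
    exact hinj a ha.1 b hb.1 q ha.2 hb.2 hab.1 hab.2
  rw [e2]
  have e3 : F.image (fun c => (oth c, hh c)) ⊆ (F.image oth) ×ˢ q.divisors := by
    intro y hy
    rw [mem_image] at hy
    obtain ⟨c, hc, rfl⟩ := hy
    rw [mem_product]
    refine ⟨mem_image_of_mem _ hc, ?_⟩
    rw [hF, mem_filter] at hc
    rw [Nat.mem_divisors]
    exact ⟨(hV c hc.1 q hc.2).2.2, (hpos q hq).ne'⟩
  refine (Finset.sum_le_sum_of_subset_of_nonneg e3 fun y _ _ => by positivity).trans ?_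
  rw [Finset.sum_product]
  have e4 : ∀ x ∈ F.image oth, ∑ y ∈ q.divisors, t ^ (max (rcl q) (x, y).1 - min (rcl q) (x, y).1) / (((x, y).2 : ℕ) : ℝ) =
      t ^ (max (rcl q) x - min (rcl q) x) * ∑ y ∈ q.divisors, 1 / (y : ℝ) := by
    intro x _
    rw [Finset.mul_sum]
    refine Finset.sum_congr rfl fun y _ => ?_
    simp only
    ring
  rw [Finset.sum_congr rfl e4, ← Finset.sum_mul]
  have d := d2_inv q (hpos q hq)
  have d' : Real.exp (2 * rp q) ≤ Real.exp (2 * c0) := Real.exp_le_exp.2 (by linarith [hrp q hq])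
  exact mul_le_mul (e4_geo t h0 h1 _ _) (d.trans d') (Finset.sum_nonneg fun _ _ => by positivity)
    (div_nonneg (by norm_num) (by linarith))

/-- the product term -/
theorem e4_prod {ι : Type} [DecidableEq ι] (S : Finset ℕ) (f : ℕ → ℝ) (hf : ∀ q ∈ S, 0 ≤ f q)
    (Kc : Finset ι) (V W : ι → Finset ℕ) (hV : ∀ c ∈ Kc, V c ⊆ S) (hW : ∀ c ∈ Kc, W c ⊆ S)
    (hinj : ∀ c ∈ Kc, ∀ c' ∈ Kc, ∀ q r, q ∈ V c → q ∈ V c' → r ∈ W c → r ∈ W c' → c = c') :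
    ∑ c ∈ Kc, (∑ q ∈ V c, f q) * (∑ r ∈ W c, f r) ≤ (∑ q ∈ S, f q) ^ 2 := by
  have e1 : ∀ c ∈ Kc, (∑ q ∈ V c, f q) * (∑ r ∈ W c, f r) = ∑ x ∈ V c ×ˢ W c, f x.1 * f x.2 := by
    intro c _
    rw [Finset.sum_mul_sum, Finset.sum_product]
  rw [Finset.sum_congr rfl e1, ← Finset.sum_biUnion]
  · have e2 : (∑ q ∈ S, f q) ^ 2 = ∑ x ∈ S ×ˢ S, f x.1 * f x.2 := by
      rw [sq, Finset.sum_mul_sum, Finset.sum_product]
    rw [e2]
    refine Finset.sum_le_sum_of_subset_of_nonneg ?_ fun x hx _ => ?_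
    · intro x hx
      rw [mem_biUnion] at hx
      obtain ⟨c, hc, hx⟩ := hx
      rw [mem_product] at hx ⊢
      exact ⟨hV c hc hx.1, hW c hc hx.2⟩
    · rw [mem_product] at hx
      exact mul_nonneg (hf _ hx.1) (hf _ hx.2)
  · intro c hc c' hc' hne
    rw [Function.onFun, Finset.disjoint_left]
    intro x hx hx'
    rw [mem_product] at hx hx'
    exact hne (hinj c hc c' hc' x.1 x.2 hx.1 hx'.1 hx.2 hx'.2)

/-- the rough part `hB` is a function of `q` -/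
theorem e4_canon {c0 γ : ℝ} {k0 : ℕ} {f : ℕ → ℝ} {S X : Finset ℕ} (hS : Blk c0 f S) {Ls : ℕ → Finset ℕ} (hC : Canon k0 f S X Ls)
    {k q r : ℕ} (h : SEdge γ k0 f S X Ls k q r) :
    ((tB k0 k q r : ℕ) : ℝ) ≤ Real.exp ((Real.log (Tk k0 k)) ^ 2) ∧
    ∀ r' : ℕ, SEdge γ k0 f S X Ls k q r' → hB k0 k q r = hB k0 k q r' := by
  have key : ∀ r : ℕ, SEdge γ k0 f S X Ls k q r → rho f q * (Nat.lcm q r : ℕ) ≤ 1 := by
    intro r h
    obtain ⟨h1, h2, h3, h4, h5, h6, h7⟩ := h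
    obtain ⟨ρq0, ρq1⟩ := e1_rho hS h2.1
    obtain ⟨ρr0, ρr1⟩ := e1_rho hS h2.2.1
    have h8 := h2.2.2.2.1
    unfold DD at h8
    have h9 : (1 : ℝ) / 2 ^ k ≤ 1 := by
      rw [div_le_one (by positivity)]
      exact one_le_pow₀ (by norm_num)
    have h10 : (0 : ℝ) ≤ (Nat.lcm q r : ℕ) := Nat.cast_nonneg _
    nlinarith
  obtain ⟨h1, h2, h3, h4, h5, h6, h7⟩ := h
  have q0 := hS.pos q h2.1
  obtain ⟨c1, c2⟩ := hC q h2.1 h3 k (Nat.lcm q r) h1 h5 (Nat.dvd_lcm_left q r) (key r ⟨h1, h2, h3, h4, h5, h6, h7⟩)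
  constructor
  · unfold tB
    rw [e1_bb q r q0]
    exact c1
  · intro r' h'
    have := c2 k (Nat.lcm q r') h1 le_rfl h'.2.2.2.2.1 (Nat.dvd_lcm_left q r') (key r' h')
    unfold hB
    rw [e1_bb q r q0, e1_bb q r' q0]
    exact this

/-- all edges with given dyadic sizes of the smooth parts -/
theorem e4_sum (c0 : ℝ) : ∃ C : ℝ, 0 < C ∧ ∀ (γ : ℝ) (f : ℕ → ℝ) (S : Finset ℕ), Blk c0 f S →
    ∀ (k0 : ℕ) (X : Finset ℕ) (Ls : ℕ → Finset ℕ), Canon k0 f S X Ls → ∀ (k eA eB : ℕ) (E : Finset (ℕ × ℕ)),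
    (∀ x ∈ E, SEdge γ k0 f S X Ls k x.1 x.2 ∧ Generic γ k0 k x.1 x.2 ∧
      Nat.log 2 (tA k0 k x.1 x.2) = eA ∧ Nat.log 2 (tB k0 k x.1 x.2) = eB) →
    ∑ x ∈ E, ov f x.1 x.2 ≤ C * (2 : ℝ) ^ (-((k : ℝ) / 80)) := by
  obtain ⟨C1, hC1, hcl⟩ := e3_class c0
  set t : ℝ := (2 : ℝ) ^ (-(19 / 40) : ℝ) with ht
  have t0 : 0 < t := by positivity
  have t1 : t < 1 := Real.rpow_lt_one_of_one_lt_of_neg (by norm_num) (by norm_num)
  have B0 : 0 < 2 / (1 - t) := div_pos (by norm_num) (by linarith)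
  refine ⟨C1 * (2 * (2 / (1 - t) * Real.exp (2 * c0)) + 2 * (2 / (1 - t) * Real.exp (2 * c0)) + 2 ^ 2), by positivity, ?_⟩
  intro γ f S hS k0 X Ls hCan k eA eB E hE
  have hf0 : ∀ q ∈ S, 0 ≤ f q := fun q hq => (hS.fpos q hq).le
  have hsum0 : 0 ≤ ∑ q ∈ S, f q := Finset.sum_nonneg hf0
  set κ : ℕ × ℕ → ℕ × ℕ × ℕ × ℕ := fun x => (rc f x.1, rc f x.2, hB k0 k x.1 x.2, hA k0 k x.1 x.2) with hκ
  set Kc := E.image κ with hKc
  set V : ℕ × ℕ × ℕ × ℕ → Finset ℕ := fun c => (E.filter (fun x => κ x = c)).image Prod.fst with hV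
  set W : ℕ × ℕ × ℕ × ℕ → Finset ℕ := fun c => (E.filter (fun x => κ x = c)).image Prod.snd with hW
  have mV : ∀ c, ∀ q ∈ V c, ∃ r, (q, r) ∈ E ∧ κ (q, r) = c := by
    intro c q hq
    simp only [hV, mem_image, mem_filter] at hq
    obtain ⟨x, ⟨hx, hxc⟩, rfl⟩ := hq
    exact ⟨x.2, hx, hxc⟩
  have mW : ∀ c, ∀ r ∈ W c, ∃ q, (q, r) ∈ E ∧ κ (q, r) = c := by
    intro c q hq
    simp only [hW, mem_image, mem_filter] at hq
    obtain ⟨x, ⟨hx, hxc⟩, rfl⟩ := hq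
    exact ⟨x.1, hx, hxc⟩
  have hVS : ∀ c ∈ Kc, ∀ q ∈ V c, q ∈ S ∧ c.1 = rc f q ∧ c.2.2.2 ∣ q := by
    intro c _ q hq
    obtain ⟨r, hr, rfl⟩ := mV c q hq
    have h1 := (hE _ hr).1
    refine ⟨h1.2.1.1, rfl, ?_⟩
    exact (e1_cross k0 k q r (hS.pos _ h1.2.1.1) (hS.pos _ h1.2.1.2.1)).1
  have hWS : ∀ c ∈ Kc, ∀ r ∈ W c, r ∈ S ∧ c.2.1 = rc f r ∧ c.2.2.1 ∣ r := by
    intro c _ r hr
    obtain ⟨q, hq, rfl⟩ := mW c r hr
    have h1 := (hE _ hq).1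
    refine ⟨h1.2.1.2.1, rfl, ?_⟩
    exact (e1_cross k0 k q r (hS.pos _ h1.2.1.1) (hS.pos _ h1.2.1.2.1)).2.1
  have hVc : ∀ c ∈ Kc, ∀ c' ∈ Kc, ∀ q, q ∈ V c → q ∈ V c' → c.1 = c'.1 ∧ c.2.2.1 = c'.2.2.1 := by
    intro c _ c' _ q hq hq'
    obtain ⟨r, hr, rfl⟩ := mV c q hq
    obtain ⟨r', hr', rfl⟩ := mV c' q hq'
    exact ⟨rfl, (e4_canon hS hCan (hE _ hr).1).2 r' (hE _ hr').1⟩
  have hWc : ∀ c ∈ Kc, ∀ c' ∈ Kc, ∀ r, r ∈ W c → r ∈ W c' → c.2.1 = c'.2.1 ∧ c.2.2.2 = c'.2.2.2 := by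
    intro c _ c' _ r hr hr'
    obtain ⟨q, hq, rfl⟩ := mW c r hr
    obtain ⟨q', hq', rfl⟩ := mW c' r hr'
    refine ⟨rfl, ?_⟩
    have h1 := (e4_canon hS hCan (e3_sedge_symm (hE _ hq).1)).2 q' (e3_sedge_symm (hE _ hq').1)
    rw [(e3_swap k0 k q r).1, (e3_swap k0 k q' r).1] at h1
    exact h1
  have S1 := e4_side t t0 t1 c0 S f hS.pos hf0 hS.rp_le (rc f) Kc V (fun c => c.1) (fun c => c.2.1) (fun c => c.2.2.2) hVS
    (fun c hc c' hc' q hq hq' ho hh => by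
      obtain ⟨a1, a2⟩ := hVc c hc c' hc' q hq hq'
      exact Prod.ext a1 (Prod.ext ho (Prod.ext a2 hh)))
  have S2 := e4_side t t0 t1 c0 S f hS.pos hf0 hS.rp_le (rc f) Kc W (fun c => c.2.1) (fun c => c.1) (fun c => c.2.2.1) hWS
    (fun c hc c' hc' q hq hq' ho hh => by
      obtain ⟨a1, a2⟩ := hWc c hc c' hc' q hq hq'
      exact Prod.ext ho (Prod.ext a1 (Prod.ext hh a2)))
  have S3 := e4_prod S f hf0 Kc V W (fun c hc q hq => (hVS c hc q hq).1) (fun c hc q hq => (hWS c hc q hq).1)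
    (fun c hc c' hc' q r hq hq' hr hr' => by
      obtain ⟨a1, a2⟩ := hVc c hc c' hc' q hq hq'
      obtain ⟨b1, b2⟩ := hWc c hc c' hc' r hr hr'
      exact Prod.ext a1 (Prod.ext b1 (Prod.ext a2 b2)))
  have hsum2 := hS.sum_le
  have hG0 : 0 ≤ 2 / (1 - t) * Real.exp (2 * c0) := by positivity
  have S1' := S1.trans (mul_le_mul_of_nonneg_right hsum2 hG0)
  have S2' := S2.trans (mul_le_mul_of_nonneg_right hsum2 hG0)
  have S3' := S3.trans (pow_le_pow_left₀ hsum0 hsum2 2)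
  have fib := Finset.sum_fiberwise_of_maps_to (s := E) (t := Kc) (g := κ) (fun x hx => mem_image_of_mem _ hx)
    (fun x => ov f x.1 x.2)
  rw [← fib]
  have cls : ∀ c ∈ Kc, ∑ x ∈ E.filter (fun x => κ x = c), ov f x.1 x.2 ≤
      C1 * (2 : ℝ) ^ (-((k : ℝ) / 80)) * (t ^ (max c.1 c.2.1 - min c.1 c.2.1) * ((∑ q ∈ V c, f q) / (c.2.2.2 : ℕ)) +
        t ^ (max c.2.1 c.1 - min c.2.1 c.1) * ((∑ q ∈ W c, f q) / (c.2.2.1 : ℕ)) + (∑ q ∈ V c, f q) * (∑ r ∈ W c, f r)) := by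
    intro c hc
    have h1 := hcl γ f S hS k0 k c.1 c.2.1 c.2.2.1 c.2.2.2 eA eB (E.filter (fun x => κ x = c)) (fun x hx => by
      rw [mem_filter] at hx
      obtain ⟨hx, rfl⟩ := hx
      obtain ⟨z1, z2, z3, z4⟩ := hE x hx
      exact ⟨z1.2.1, z2, rfl, rfl, rfl, rfl, z3, z4⟩)
    refine h1.trans ?_
    have vn : 0 ≤ ∑ q ∈ V c, f q := Finset.sum_nonneg fun q hq => hf0 q (hVS c hc q hq).1
    have wn : 0 ≤ ∑ q ∈ W c, f q := Finset.sum_nonneg fun q hq => hf0 q (hWS c hc q hq).1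
    have tp : t ^ (max c.1 c.2.1 - min c.1 c.2.1) ≤ 1 := pow_le_one₀ t0.le t1.le
    have e : C1 * (2 : ℝ) ^ (-((k : ℝ) / 80)) * t ^ (max c.1 c.2.1 - min c.1 c.2.1) *
        ((∑ q ∈ V c, f q) / (c.2.2.2 : ℕ) + (∑ r ∈ W c, f r) / (c.2.2.1 : ℕ) + (∑ q ∈ V c, f q) * (∑ r ∈ W c, f r)) =
        C1 * (2 : ℝ) ^ (-((k : ℝ) / 80)) * (t ^ (max c.1 c.2.1 - min c.1 c.2.1) * ((∑ q ∈ V c, f q) / (c.2.2.2 : ℕ)) +
        t ^ (max c.1 c.2.1 - min c.1 c.2.1) * ((∑ q ∈ W c, f q) / (c.2.2.1 : ℕ)) +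
        t ^ (max c.1 c.2.1 - min c.1 c.2.1) * ((∑ q ∈ V c, f q) * (∑ r ∈ W c, f r))) := by ring
    refine (le_of_eq e).trans ?_
    rw [max_comm c.2.1 c.1, min_comm c.2.1 c.1]
    refine mul_le_mul_of_nonneg_left ?_ (by positivity)
    have : t ^ (max c.1 c.2.1 - min c.1 c.2.1) * ((∑ q ∈ V c, f q) * (∑ r ∈ W c, f r)) ≤
        1 * ((∑ q ∈ V c, f q) * (∑ r ∈ W c, f r)) := mul_le_mul_of_nonneg_right tp (mul_nonneg vn wn)
    linarith
  refine (Finset.sum_le_sum cls).trans ?_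
  rw [← Finset.mul_sum, Finset.sum_add_distrib, Finset.sum_add_distrib]
  have hK0 : 0 < C1 * (2 : ℝ) ^ (-((k : ℝ) / 80)) := by positivity
  calc _ ≤ C1 * (2 : ℝ) ^ (-((k : ℝ) / 80)) *
      (2 * (2 / (1 - t) * Real.exp (2 * c0)) + 2 * (2 / (1 - t) * Real.exp (2 * c0)) + 2 ^ 2) :=
        mul_le_mul_of_nonneg_left (add_le_add (add_le_add S1' S2') S3') hK0.le
    _ = _ := by ring

end Pool.Agent.H20G
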