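import Mathlib
import Pool.Agent.Lib.H20G.Core
import Pool.Agent.Lib.H20G.E1
import Pool.Agent.Lib.H20G.E3
import Pool.Agent.Lib.H20G.E4

set_option autoImplicit false

/-!
# H20G chunk EMain: generic boxes (INTERFACE of section 6)
-/

namespace Pool.Agent.H20G

open Finset

theorem em_log (k0 k t : ℕ) (hk0 : 1 ≤ k0) (hk : k0 ≤ k) (ht0 : 0 < t) (ht : (t : ℝ) ≤ Real.exp ((Real.log (Tk k0 k)) ^ 2)) :
    Nat.log 2 t < 90000 * k ^ 2 + 1 := by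
  have h1 : k0 * 2 ^ (win k0 k) ≤ k := by
    unfold win
    have h2 : 2 ^ Nat.log 2 (k / k0) ≤ k / k0 := Nat.pow_log_le_self 2 (Nat.div_pos hk (by omega)).ne'
    calc k0 * 2 ^ Nat.log 2 (k / k0) ≤ k0 * (k / k0) := Nat.mul_le_mul_left _ h2
      _ ≤ k := Nat.mul_div_le k k0
  have h2 : Real.log (Tk k0 k) ≤ 300 * k * Real.log 2 := by
    unfold Tk
    push_cast
    rw [Real.log_pow]
    refine mul_le_mul_of_nonneg_right ?_ (Real.log_nonneg (by norm_num))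
    have : 300 * k0 * 2 ^ (win k0 k) ≤ 300 * k := by nlinarith
    exact_mod_cast this
  have h3 : 0 ≤ Real.log (Tk k0 k) := Real.log_natCast_nonneg _
  have h4 : Real.log (Tk k0 k) ^ 2 ≤ (300 * k * Real.log 2) ^ 2 := pow_le_pow_left₀ h3 h2 2
  have hl0 : 0 < Real.log 2 := Real.log_pos (by norm_num)
  have hl1 : Real.log 2 ≤ 1 := by
    have := Real.log_two_lt_d9
    linarith
  have h5 : (2 : ℝ) ^ Nat.log 2 t ≤ t := by exact_mod_cast Nat.pow_log_le_self 2 ht0.ne'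
  have h6 : (Nat.log 2 t : ℝ) * Real.log 2 ≤ (300 * k * Real.log 2) ^ 2 := by
    have h7 := Real.log_le_log (by positivity) (h5.trans ht)
    rw [Real.log_pow, Real.log_exp] at h7
    linarith
  have h7 : (Nat.log 2 t : ℝ) ≤ 90000 * (k : ℝ) ^ 2 := by
    have h8 : (Nat.log 2 t : ℝ) * Real.log 2 ≤ 90000 * (k : ℝ) ^ 2 * Real.log 2 * Real.log 2 := by
      refine h6.trans (le_of_eq ?_)
      ring
    have h9 := le_of_mul_le_mul_right h8 hl0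
    have h10 : 0 ≤ 90000 * (k : ℝ) ^ 2 := by positivity
    nlinarith
  have h8 : Nat.log 2 t ≤ 90000 * k ^ 2 := by exact_mod_cast h7
  omega

/-- Section 6: the short hub edges of level `k` with generic boxes. -/
theorem e_main (c0 : ℝ) : ∃ C : ℝ, 0 < C ∧ ∃ kk : ℕ, 1 ≤ kk ∧ ∀ k0 : ℕ, kk ≤ k0 → ∀ (γ : ℝ) (f : ℕ → ℝ) (S : Finset ℕ), Blk c0 f S →
    ∀ (X : Finset ℕ) (Ls : ℕ → Finset ℕ), Canon k0 f S X Ls → ∀ k : ℕ, k0 ≤ k → ∀ E : Finset (ℕ × ℕ),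
    (∀ x ∈ E, SEdge γ k0 f S X Ls k x.1 x.2 ∧ Generic γ k0 k x.1 x.2) →
    ∑ x ∈ E, ov f x.1 x.2 ≤ C * (k : ℝ) ^ 4 * (2 : ℝ) ^ (-((k : ℝ) / 80)) := by
  obtain ⟨C1, hC1, hb⟩ := e4_sum c0
  refine ⟨C1 * 90001 ^ 2, by positivity, 1, le_rfl, ?_⟩
  intro k0 hk0 γ f S hS X Ls hCan k hk E hE
  set n := 90000 * k ^ 2 + 1 with hn
  set g : ℕ × ℕ → ℕ × ℕ := fun x => (Nat.log 2 (tA k0 k x.1 x.2), Nat.log 2 (tB k0 k x.1 x.2)) with hg
  have hmap : ∀ x ∈ E, g x ∈ range n ×ˢ range n := by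
    intro x hx
    obtain ⟨h1, h2⟩ := hE x hx
    have a1 := (e4_canon hS hCan h1).1
    have a2 := (e4_canon hS hCan (e3_sedge_symm h1)).1
    rw [(e3_swap k0 k x.1 x.2).2.2.1] at a2
    obtain ⟨t1, t2, t3, t4⟩ := e1_tpos k0 k x.1 x.2
    rw [mem_product, mem_range, mem_range]
    exact ⟨em_log k0 k _ hk0 hk t1 a2, em_log k0 k _ hk0 hk t2 a1⟩
  rw [← Finset.sum_fiberwise_of_maps_to hmap (fun x => ov f x.1 x.2)]
  have hcell : ∀ y ∈ range n ×ˢ range n, ∑ x ∈ E.filter (fun x => g x = y), ov f x.1 x.2 ≤ C1 * (2 : ℝ) ^ (-((k : ℝ) / 80)) := by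
    intro y _
    refine hb γ f S hS k0 X Ls hCan k y.1 y.2 _ fun x hx => ?_
    rw [mem_filter] at hx
    obtain ⟨hx, rfl⟩ := hx
    obtain ⟨h1, h2⟩ := hE x hx
    exact ⟨h1, h2, rfl, rfl⟩
  refine (Finset.sum_le_card_nsmul _ _ _ hcell).trans ?_
  rw [card_product, card_range, nsmul_eq_mul]
  have hk1 : (1 : ℝ) ≤ k := by exact_mod_cast hk0.trans hk
  have hn2 : (n : ℝ) ≤ 90001 * (k : ℝ) ^ 2 := by
    rw [hn]
    push_cast
    nlinarith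
  have hK0 : 0 < C1 * (2 : ℝ) ^ (-((k : ℝ) / 80)) := by positivity
  calc ((n * n : ℕ) : ℝ) * (C1 * (2 : ℝ) ^ (-((k : ℝ) / 80))) ≤ ((90001 * (k : ℝ) ^ 2) * (90001 * (k : ℝ) ^ 2)) * (C1 * (2 : ℝ) ^ (-((k : ℝ) / 80))) := by
        refine mul_le_mul_of_nonneg_right ?_ hK0.le
        push_cast
        exact mul_le_mul hn2 hn2 (by positivity) (by positivity)
    _ = _ := by ring

end Pool.Agent.H20G
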