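import Mathlib
import Pool.Agent.Lib.H20G.Core

set_option autoImplicit false

/-!
# H20G chunk H0: elementary facts on radii, classes, levels
-/

namespace Pool.Agent.H20G

open Finset

/-- `nint` is even, bounded by the distance to every integer, at most `1/2`, nonnegative (`round_le`, `abs_sub_round`). -/
theorem h0_nint (t : ℝ) : nint (-t) = nint t ∧ (∀ n : ℤ, nint t ≤ |t - n|) ∧ nint t ≤ 1 / 2 ∧ 0 ≤ nint t := by
  have key : ∀ s : ℝ, nint (-s) ≤ nint s := by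
    intro s
    unfold nint
    have h := round_le (-s) (-(round s))
    have e : |(-s) - ((-(round s) : ℤ) : ℝ)| = |s - round s| := by
      push_cast
      rw [← abs_neg]
      congr 1
      ring
    linarith
  refine ⟨le_antisymm (key t) (by have := key (-t); rwa [neg_neg] at this), fun n => round_le t n,
    abs_sub_round t, abs_nonneg _⟩

theorem h0_nint_add (s t : ℝ) : nint (s + t) ≤ nint s + nint t ∧ nint (s - t) ≤ nint s + nint t := by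
  constructor
  · have h := (h0_nint (s + t)).2.1 (round s + round t)
    have e : |(s + t) - ((round s + round t : ℤ) : ℝ)| ≤ |s - round s| + |t - round t| := by
      have : (s + t) - ((round s + round t : ℤ) : ℝ) = (s - round s) + (t - round t) := by
        push_cast
        ring
      rw [this]
      exact abs_add_le _ _
    unfold nint at *
    linarith
  · have h := (h0_nint (s - t)).2.1 (round s - round t)
    have e : |(s - t) - ((round s - round t : ℤ) : ℝ)| ≤ |s - round s| + |t - round t| := by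
      have : (s - t) - ((round s - round t : ℤ) : ℝ) = (s - round s) - (t - round t) := by
        push_cast
        ring
      rw [this]
      exact abs_sub _ _
    unfold nint at *
    linarith

theorem h0_rho (c0 : ℝ) (f : ℕ → ℝ) (S : Finset ℕ) (hB : Blk c0 f S) (q : ℕ) (hq : q ∈ S) :
    0 < rho f q ∧ rho f q ≤ 1 / 16 ∧ f q = q * rho f q := by
  have h1 : (1 : ℝ) ≤ q := by exact_mod_cast hB.pos q hq
  have h2 := hB.fpos q hq
  have h3 := hB.fle q hq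
  unfold rho
  refine ⟨by positivity, ?_, by field_simp⟩
  rw [div_le_iff₀ (by linarith)]
  nlinarith

/-- `i = rc f q` means `2^(-i-1) < ρ_q ≤ 2^(-i)`: with `y = 1/ρ_q ≥ 1`, `i = ⌊logb 2 y⌋₊` gives `2^i ≤ y < 2^(i+1)`. -/
theorem h0_rc (c0 : ℝ) (f : ℕ → ℝ) (S : Finset ℕ) (hB : Blk c0 f S) (q : ℕ) (hq : q ∈ S) :
    (1 / 2 : ℝ) ^ (rc f q + 1) < rho f q ∧ rho f q ≤ (1 / 2 : ℝ) ^ (rc f q) := by
  obtain ⟨h1, h2, -⟩ := h0_rho c0 f S hB q hq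
  have hy : (1 : ℝ) ≤ 1 / rho f q := by
    rw [le_div_iff₀ h1]
    linarith
  have hy0 : (0 : ℝ) < 1 / rho f q := by linarith
  have hl : 0 ≤ Real.logb 2 (1 / rho f q) := Real.logb_nonneg (by norm_num) hy
  have ha : ((rc f q : ℕ) : ℝ) ≤ Real.logb 2 (1 / rho f q) := Nat.floor_le hl
  have hb : Real.logb 2 (1 / rho f q) < ((rc f q + 1 : ℕ) : ℝ) := by
    push_cast
    exact Nat.lt_floor_add_one _
  rw [Real.le_logb_iff_rpow_le (by norm_num) hy0, Real.rpow_natCast] at ha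
  rw [Real.logb_lt_iff_lt_rpow (by norm_num) hy0, Real.rpow_natCast] at hb
  constructor
  · rw [one_div, inv_pow, inv_lt_comm₀ (by positivity) h1, ← one_div]
    exact hb
  · rw [one_div, inv_pow, le_inv_comm₀ h1 (by positivity), ← one_div]
    exact ha

/-- symmetry of `DD`, `ov`, `Edge` (`aa r q = bb q r`, `bb r q = aa q r`, `h0_nint`) -/
theorem h0_symm (γ : ℝ) (f : ℕ → ℝ) (S : Finset ℕ) (q r : ℕ) : DD f q r = DD f r q ∧ ov f q r = ov f r q ∧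
    ∀ k, (Edge γ f S k q r ↔ Edge γ f S k r q) := by
  have hD : ∀ q r : ℕ, DD f q r = DD f r q := by
    intro q r
    unfold DD
    rw [Nat.lcm_comm, add_comm]
  have hE : ∀ q r k : ℕ, Edge γ f S k q r → Edge γ f S k r q := by
    rintro q r k ⟨a, b, c, d, e, g⟩
    refine ⟨b, a, fun h => c h.symm, by rwa [hD r q], by rwa [hD r q], ?_⟩
    rw [hD r q]
    refine le_trans (le_of_eq ?_) g
    rw [← (h0_nint (γ * ((bb q r : ℝ) - aa q r))).1]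
    congr 1
    have e1 : bb r q = aa q r := by
      unfold aa bb
      rw [Nat.gcd_comm]
    have e2 : aa r q = bb q r := by
      unfold aa bb
      rw [Nat.gcd_comm]
    rw [e1, e2]
    ring
  refine ⟨hD q r, ?_, fun k => ⟨hE q r k, hE r q k⟩⟩
  unfold ov
  rw [Nat.gcd_comm, min_comm]

theorem h0_ov_nonneg (c0 : ℝ) (f : ℕ → ℝ) (S : Finset ℕ) (hB : Blk c0 f S) (q r : ℕ) (hq : q ∈ S) (hr : r ∈ S) :
    0 ≤ ov f q r := by
  have h1 := (h0_rho c0 f S hB q hq).1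
  have h2 := (h0_rho c0 f S hB r hr).1
  unfold ov
  have : 0 ≤ min (rho f q) (rho f r) := le_min h1.le h2.le
  positivity

/-- An edge of level `k`, `i = rc q ≤ rc r`, `K = 2^k`: `2^i/(4K) ≤ lcm ≤ 2^(i+1)/K`.
PROOF. `1/(2K) < D = lcm (ρ_q + ρ_r) ≤ lcm 2^(1-i)` (as `ρ_r ≤ 2^(-rc r) ≤ 2^(-i)`), and
`lcm 2^(-i-1) < lcm ρ_q ≤ D ≤ 1/K`. -/
theorem h0_lcm (c0 : ℝ) (γ : ℝ) (f : ℕ → ℝ) (S : Finset ℕ) (hB : Blk c0 f S) (k q r : ℕ) (h : Edge γ f S k q r)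
    (hc : rc f q ≤ rc f r) :
    (2 : ℝ) ^ (rc f q) / (4 * (2 : ℝ) ^ k) ≤ (Nat.lcm q r : ℝ) ∧
      (Nat.lcm q r : ℝ) ≤ (2 : ℝ) ^ (rc f q + 1) / (2 : ℝ) ^ k := by
  obtain ⟨hq, hr, hne, hD1, hD2, hn⟩ := h
  obtain ⟨q1, q2⟩ := h0_rc c0 f S hB q hq
  obtain ⟨r1, r2⟩ := h0_rc c0 f S hB r hr
  have hr0 := (h0_rho c0 f S hB r hr).1
  have hq0 := (h0_rho c0 f S hB q hq).1
  have hl0 : (0 : ℝ) ≤ (Nat.lcm q r : ℝ) := by positivity
  have hmono : (1 / 2 : ℝ) ^ (rc f r) ≤ (1 / 2 : ℝ) ^ (rc f q) :=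
    pow_le_pow_of_le_one (by norm_num) (by norm_num) hc
  have hK : (0 : ℝ) < (2 : ℝ) ^ k := by positivity
  have hI : (0 : ℝ) < (2 : ℝ) ^ (rc f q) := by positivity
  unfold DD at hD1 hD2
  have e1 : (1 / 2 : ℝ) ^ (rc f q) = 1 / 2 ^ (rc f q) := by rw [one_div, inv_pow, one_div]
  constructor
  · have h1 : (Nat.lcm q r : ℝ) * (rho f q + rho f r) ≤ (Nat.lcm q r : ℝ) * (2 * (1 / 2 ^ (rc f q))) := by
      refine mul_le_mul_of_nonneg_left ?_ hl0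
      rw [← e1]
      linarith
    have h2 : 1 / (2 : ℝ) ^ (k + 1) < (Nat.lcm q r : ℝ) * (2 * (1 / 2 ^ (rc f q))) := lt_of_lt_of_le hD2 h1
    rw [pow_succ, div_lt_iff₀ (by positivity)] at h2
    rw [div_le_iff₀ (by positivity)]
    have h3 : (Nat.lcm q r : ℝ) * (2 * (1 / 2 ^ (rc f q))) * (2 ^ k * 2) * 2 ^ (rc f q)
        = (Nat.lcm q r : ℝ) * (4 * 2 ^ k) := by
      field_simp
      ring
    nlinarith [mul_lt_mul_of_pos_right h2 hI]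
  · have h1 : (Nat.lcm q r : ℝ) * (1 / 2 : ℝ) ^ (rc f q + 1) ≤ (Nat.lcm q r : ℝ) * (rho f q + rho f r) := by
      refine mul_le_mul_of_nonneg_left ?_ hl0
      linarith
    have h2 : (Nat.lcm q r : ℝ) * (1 / 2 : ℝ) ^ (rc f q + 1) ≤ 1 / 2 ^ k := le_trans h1 hD1
    have e2 : (1 / 2 : ℝ) ^ (rc f q + 1) = 1 / 2 ^ (rc f q + 1) := by rw [one_div, inv_pow, one_div]
    rw [e2, mul_one_div, div_le_iff₀ (by positivity)] at h2
    rw [div_eq_mul_one_div]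
    linarith

/-- An edge of level `k`, `i = rc q ≤ j = rc r`: `K 2^(-i-j-1) q r ≤ o(q,r) ≤ 16 K 2^(-i-j) q r`.
PROOF. `o = 2 gcd min(ρ_q,ρ_r) = 2 (q r/lcm) min(ρ_q, ρ_r)`. `min(ρ_q,ρ_r) ≤ ρ_r ≤ 2^(-j)` and `lcm ≥ 2^i/(4K)` (`h0_lcm`):
`o ≤ 8 K 2^(-i-j) q r`. `min(ρ_q,ρ_r) ≥ 2^(-j-1)` (as `i ≤ j`) and `lcm ≤ 2^(i+1)/K`: `o ≥ 2 q r 2^(-j-1) K 2^(-i-1)`. -/
theorem h0_ov (c0 : ℝ) (γ : ℝ) (f : ℕ → ℝ) (S : Finset ℕ) (hB : Blk c0 f S) (k q r : ℕ) (h : Edge γ f S k q r)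
    (hc : rc f q ≤ rc f r) :
    (2 : ℝ) ^ k * (1 / 2 : ℝ) ^ (rc f q + rc f r + 1) * ((q : ℝ) * r) ≤ ov f q r ∧
      ov f q r ≤ 16 * (2 : ℝ) ^ k * (1 / 2 : ℝ) ^ (rc f q + rc f r) * ((q : ℝ) * r) := by
  obtain ⟨l1, l2⟩ := h0_lcm c0 γ f S hB k q r h hc
  obtain ⟨hq, hr, hne, hD1, hD2, hn⟩ := h
  obtain ⟨q1, q2⟩ := h0_rc c0 f S hB q hq
  obtain ⟨r1, r2⟩ := h0_rc c0 f S hB r hr
  have hr0 := (h0_rho c0 f S hB r hr).1
  have hq0 := (h0_rho c0 f S hB q hq).1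
  have pq : (0 : ℝ) < q := by exact_mod_cast hB.pos q hq
  have pr : (0 : ℝ) < r := by exact_mod_cast hB.pos r hr
  have hg0 : (0 : ℝ) < (Nat.gcd q r : ℝ) := by
    exact_mod_cast Nat.gcd_pos_of_pos_left r (hB.pos q hq)
  have hl0 : (0 : ℝ) < (Nat.lcm q r : ℝ) := by
    exact_mod_cast Nat.lcm_pos (hB.pos q hq) (hB.pos r hr)
  have hgl : (Nat.gcd q r : ℝ) * (Nat.lcm q r : ℝ) = (q : ℝ) * r := by
    exact_mod_cast Nat.gcd_mul_lcm q r
  have hK : (0 : ℝ) < (2 : ℝ) ^ k := by positivity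
  have hI : (0 : ℝ) < (2 : ℝ) ^ (rc f q) := by positivity
  have hJ : (0 : ℝ) < (2 : ℝ) ^ (rc f r) := by positivity
  have e1 : ∀ n : ℕ, (1 / 2 : ℝ) ^ n = 1 / 2 ^ n := by
    intro n
    rw [one_div, inv_pow, one_div]
  have hmono : (1 / 2 : ℝ) ^ (rc f r + 1) ≤ (1 / 2 : ℝ) ^ (rc f q + 1) :=
    pow_le_pow_of_le_one (by norm_num) (by norm_num) (by omega)
  unfold ov
  constructor
  · have h1 : (1 / 2 : ℝ) ^ (rc f r + 1) ≤ min (rho f q) (rho f r) :=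
      le_min (by linarith) (by linarith)
    have h2 : (q : ℝ) * r ≤ (Nat.gcd q r : ℝ) * ((2 : ℝ) ^ (rc f q + 1) / 2 ^ k) := by
      rw [← hgl]
      exact mul_le_mul_of_nonneg_left l2 hg0.le
    calc (2 : ℝ) ^ k * (1 / 2 : ℝ) ^ (rc f q + rc f r + 1) * ((q : ℝ) * r)
        ≤ (2 : ℝ) ^ k * (1 / 2 : ℝ) ^ (rc f q + rc f r + 1) *
          ((Nat.gcd q r : ℝ) * ((2 : ℝ) ^ (rc f q + 1) / 2 ^ k)) :=
          mul_le_mul_of_nonneg_left h2 (by positivity)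
      _ = 2 * (Nat.gcd q r : ℝ) * (1 / 2 : ℝ) ^ (rc f r + 1) := by
          rw [e1, e1, pow_succ, pow_add, pow_succ, pow_succ]
          field_simp
      _ ≤ 2 * (Nat.gcd q r : ℝ) * min (rho f q) (rho f r) :=
          mul_le_mul_of_nonneg_left h1 (by positivity)
  · have h1 : min (rho f q) (rho f r) ≤ (1 / 2 : ℝ) ^ (rc f r) := le_trans (min_le_right _ _) r2
    have h2 : (Nat.gcd q r : ℝ) * ((2 : ℝ) ^ (rc f q) / (4 * 2 ^ k)) ≤ (q : ℝ) * r := by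
      rw [← hgl]
      exact mul_le_mul_of_nonneg_left l1 hg0.le
    calc 2 * (Nat.gcd q r : ℝ) * min (rho f q) (rho f r)
        ≤ 2 * (Nat.gcd q r : ℝ) * (1 / 2 : ℝ) ^ (rc f r) :=
          mul_le_mul_of_nonneg_left h1 (by positivity)
      _ = 8 * (2 : ℝ) ^ k * (1 / 2 : ℝ) ^ (rc f q + rc f r) *
          ((Nat.gcd q r : ℝ) * ((2 : ℝ) ^ (rc f q) / (4 * 2 ^ k))) := by
          rw [e1, e1, pow_add]
          field_simp
          ring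
      _ ≤ 8 * (2 : ℝ) ^ k * (1 / 2 : ℝ) ^ (rc f q + rc f r) * ((q : ℝ) * r) :=
          mul_le_mul_of_nonneg_left h2 (by positivity)
      _ ≤ 16 * (2 : ℝ) ^ k * (1 / 2 : ℝ) ^ (rc f q + rc f r) * ((q : ℝ) * r) := by
          have : 0 ≤ (2 : ℝ) ^ k * (1 / 2 : ℝ) ^ (rc f q + rc f r) * ((q : ℝ) * r) := by positivity
          linarith

/-- If `V` lies in class `i`: `Z_V ≤ 2^(i+1) M(V)` (termwise `q ≤ 2^(i+1) q ρ_q = 2^(i+1) f q`) and
`f q ≤ 2^(-i) q`. -/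
theorem h0_Z (c0 : ℝ) (f : ℕ → ℝ) (S : Finset ℕ) (hB : Blk c0 f S) (V : Finset ℕ) (hV : V ⊆ S) (i : ℕ)
    (hi : ∀ q ∈ V, rc f q = i) :
    Z V ≤ (2 : ℝ) ^ (i + 1) * ∑ q ∈ V, f q ∧ ∀ q ∈ V, f q ≤ (1 / 2 : ℝ) ^ i * q := by
  have hA : ∀ q ∈ V, (q : ℝ) ≤ (2 : ℝ) ^ (i + 1) * f q ∧ f q ≤ (1 / 2 : ℝ) ^ i * q := by
    intro q hq
    obtain ⟨q1, q2⟩ := h0_rc c0 f S hB q (hV hq)
    obtain ⟨p1, p2, p3⟩ := h0_rho c0 f S hB q (hV hq)
    rw [hi q hq] at q1 q2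
    have pq : (0 : ℝ) < q := by exact_mod_cast hB.pos q (hV hq)
    constructor
    · rw [p3]
      have h1 : (1 : ℝ) = 2 ^ (i + 1) * (1 / 2 : ℝ) ^ (i + 1) := by
        rw [← mul_pow]
        norm_num
      have h2 : (1 : ℝ) ≤ 2 ^ (i + 1) * rho f q := by
        calc (1 : ℝ) = 2 ^ (i + 1) * (1 / 2 : ℝ) ^ (i + 1) := h1
          _ ≤ 2 ^ (i + 1) * rho f q := mul_le_mul_of_nonneg_left q1.le (by positivity)
      nlinarith
    · rw [p3]
      nlinarith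
  refine ⟨?_, fun q hq => (hA q hq).2⟩
  unfold Z
  rw [Finset.mul_sum]
  exact Finset.sum_le_sum (fun q hq => (hA q hq).1)

open Classical in
/-- the set of edges of level `k` (ordered pairs) -/
noncomputable def EK (γ : ℝ) (f : ℕ → ℝ) (S : Finset ℕ) (k : ℕ) : Finset (ℕ × ℕ) :=
  (S ×ˢ S).filter (fun e => Edge γ f S k e.1 e.2)

theorem h0_EK (γ : ℝ) (f : ℕ → ℝ) (S : Finset ℕ) (k : ℕ) (e : ℕ × ℕ) :
    e ∈ EK γ f S k ↔ Edge γ f S k e.1 e.2 := by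
  classical
  unfold EK
  rw [Finset.mem_filter, Finset.mem_product]
  constructor
  · rintro ⟨-, h⟩
    exact h
  · intro h
    exact ⟨⟨h.1, h.2.1⟩, h⟩

end Pool.Agent.H20G
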