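import Mathlib
import Pool.Agent.Lib.H20G.Defs

set_option autoImplicit false

/-!
# H20G chunk G2: sums over slices
-/

namespace Pool.Agent.H20G

open Finset

theorem g2_inj {p i a b : ℕ} (ha : a.factorization p = i) (hb : b.factorization p = i)
    (h : a / p ^ i = b / p ^ i) : a = b := by
  subst ha
  have h1 : p ^ a.factorization p * (a / p ^ a.factorization p) = a := Nat.ordProj_mul_ordCompl_eq_self a p
  have h2 : p ^ b.factorization p * (b / p ^ b.factorization p) = b := Nat.ordProj_mul_ordCompl_eq_self b p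
  rw [hb] at h2
  rw [← h1, ← h2, h]

theorem g2_cast {p i u : ℕ} (hi : u.factorization p = i) :
    (u : ℝ) = (p : ℝ) ^ i * ((u / p ^ i : ℕ) : ℝ) := by
  subst hi
  have h1 : p ^ u.factorization p * (u / p ^ u.factorization p) = u := Nat.ordProj_mul_ordCompl_eq_self u p
  rw [← Nat.cast_pow, ← Nat.cast_mul, h1]

/-- `Z_V = ∑_i p^i Z(V_i)`. The map `v ↦ v / p^i` is injective on `{v_p = i}`. -/
theorem g2_Z (p : ℕ) (hp : p.Prime) (V : Finset ℕ) (hV : ∀ v ∈ V, 0 < v) (n : ℕ) (hn : ∀ v ∈ V, v.factorization p < n) :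
    Z V = ∑ i ∈ range n, (p : ℝ) ^ i * Z (sl p i V) := by
  have h1 : ∀ i ∈ range n, (p : ℝ) ^ i * Z (sl p i V) = ∑ v ∈ V.filter (fun v => v.factorization p = i), (v : ℝ) := by
    intro i _
    unfold Z sl
    rw [sum_image, mul_sum]
    · refine sum_congr rfl fun v hv => ?_
      exact (g2_cast (mem_filter.1 hv).2).symm
    · intro a ha b hb hab
      exact g2_inj (mem_filter.1 ha).2 (mem_filter.1 hb).2 hab
  rw [sum_congr rfl h1]
  unfold Z
  exact (sum_fiberwise_of_maps_to (g := fun v : ℕ => v.factorization p) (fun v hv => mem_range.2 (hn v hv))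
    (fun v : ℕ => (v : ℝ))).symm

/-- the part of `Wt E` with prescribed exponents -/
theorem g2_WtI (p : ℕ) (hp : p.Prime) (E : Finset (ℕ × ℕ)) (hE : ∀ x ∈ E, 0 < x.1 ∧ 0 < x.2) (I : Finset (ℕ × ℕ)) :
    Wt (E.filter (fun x => (x.1.factorization p, x.2.factorization p) ∈ I)) =
      ∑ y ∈ I, (p : ℝ) ^ y.1 * (p : ℝ) ^ y.2 * Wt (slE p y.1 y.2 E) := by
  have h1 : ∀ y ∈ I, (p : ℝ) ^ y.1 * (p : ℝ) ^ y.2 * Wt (slE p y.1 y.2 E) =
      ∑ x ∈ (E.filter (fun x => (x.1.factorization p, x.2.factorization p) ∈ I)).filter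
        (fun x => (x.1.factorization p, x.2.factorization p) = y), (x.1 : ℝ) * x.2 := by
    intro y hy
    have h2 : (E.filter (fun x => (x.1.factorization p, x.2.factorization p) ∈ I)).filter
        (fun x => (x.1.factorization p, x.2.factorization p) = y) =
        E.filter (fun x => x.1.factorization p = y.1 ∧ x.2.factorization p = y.2) := by
      ext x
      simp only [mem_filter]
      constructor
      · rintro ⟨⟨a, b⟩, c⟩
        exact ⟨a, congrArg Prod.fst c, congrArg Prod.snd c⟩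
      · rintro ⟨a, b, c⟩
        have e : (x.1.factorization p, x.2.factorization p) = y := Prod.ext b c
        exact ⟨⟨a, e ▸ hy⟩, e⟩
    rw [h2]
    unfold Wt slE
    rw [sum_image, mul_sum]
    · refine sum_congr rfl fun x hx => ?_
      obtain ⟨_, hx1, hx2⟩ := mem_filter.1 hx
      have e1 := g2_cast hx1
      have e2 := g2_cast hx2
      show (p : ℝ) ^ y.1 * (p : ℝ) ^ y.2 * (((x.1 / p ^ y.1 : ℕ) : ℝ) * ((x.2 / p ^ y.2 : ℕ) : ℝ)) = (x.1 : ℝ) * x.2
      rw [e1, e2]
      ring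
    · intro a ha b hb hab
      obtain ⟨_, ha1, ha2⟩ := mem_filter.1 ha
      obtain ⟨_, hb1, hb2⟩ := mem_filter.1 hb
      exact Prod.ext (g2_inj ha1 hb1 (congrArg Prod.fst hab)) (g2_inj ha2 hb2 (congrArg Prod.snd hab))
  rw [sum_congr rfl h1]
  unfold Wt
  exact (sum_fiberwise_of_maps_to (g := fun x : ℕ × ℕ => (x.1.factorization p, x.2.factorization p))
    (fun x hx => (mem_filter.1 hx).2) _).symm

end Pool.Agent.H20G
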