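import Mathlib
import Pool.Agent.Lib.H20G.Defs
import Pool.Agent.Lib.H20G.G4A

set_option autoImplicit false

/-!
# H20G chunk G4B: the count of good edges in a dyadic block
-/

namespace Pool.Agent.H20G

open Finset

theorem g4b_quot (v N : ℕ) (hN : 0 < N) : 0 < ((N / Nat.gcd v N : ℕ) : ℝ) ∧
    (v : ℝ) = (N : ℝ) / ((N / Nat.gcd v N : ℕ) : ℝ) * ((v / Nat.gcd v N : ℕ) : ℝ) := by
  have hNv : Nat.gcd v N * (N / Nat.gcd v N) = N := Nat.mul_div_cancel' (Nat.gcd_dvd_right _ _)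
  have hvv : Nat.gcd v N * (v / Nat.gcd v N) = v := Nat.mul_div_cancel' (Nat.gcd_dvd_left _ _)
  have hh0 : 0 < N / Nat.gcd v N := Nat.pos_of_mul_pos_left (by rw [hNv]; exact hN)
  have hh0' : 0 < ((N / Nat.gcd v N : ℕ) : ℝ) := by exact_mod_cast hh0
  refine ⟨hh0', ?_⟩
  have e1 : (N : ℝ) / ((N / Nat.gcd v N : ℕ) : ℝ) = (Nat.gcd v N : ℝ) := by
    rw [div_eq_iff hh0'.ne']
    exact_mod_cast hNv.symm
  rw [e1]
  exact_mod_cast hvv.symm

theorem g4b_inj (v v' N : ℕ) (hN : 0 < N) (h1 : N / Nat.gcd v N = N / Nat.gcd v' N)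
    (h2 : v / Nat.gcd v N = v' / Nat.gcd v' N) : v = v' := by
  have hNv : Nat.gcd v N * (N / Nat.gcd v N) = N := Nat.mul_div_cancel' (Nat.gcd_dvd_right _ _)
  have hNv' : Nat.gcd v' N * (N / Nat.gcd v' N) = N := Nat.mul_div_cancel' (Nat.gcd_dvd_right _ _)
  have hvv : Nat.gcd v N * (v / Nat.gcd v N) = v := Nat.mul_div_cancel' (Nat.gcd_dvd_left _ _)
  have hvv' : Nat.gcd v' N * (v' / Nat.gcd v' N) = v' := Nat.mul_div_cancel' (Nat.gcd_dvd_left _ _)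
  have hh0 : 0 < N / Nat.gcd v N := Nat.pos_of_mul_pos_left (by rw [hNv]; exact hN)
  have e : Nat.gcd v N = Nat.gcd v' N := by
    rw [← h1] at hNv'
    exact Nat.eq_of_mul_eq_mul_right hh0 (hNv.trans hNv'.symm)
  rw [← hvv, ← hvv', h2, e]

/-- PROOF. `α = g α'`, `β = g β'`, `g = gcd(α,β)`, `N_* = g α' β' N = lcm(α,β) N`. For `(v,w) ∈ E` let `h, x, h', x'` be as in `g4_struct`;
then `h_* = β' h`, `h'_* = α' h'` divide `N_*`, `N_*/h_* · x = α v`, `N_*/h'_* · x' = β w`, and `gcd(x h'_*, x' h_*) = 1`, because `x, h, x', h'` divide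
`v, N, w, N`, which are coprime to `α β`, and `gcd(α',β') = 1`. So `(x,x') ∈ Bl E0 N_* h_* h'_* 2^k 2^k'`, and `(v,w)` is determined by `(h,h',x,x')`.
`v w = N² x x'/(h h') ≤ 4 N² 2^k 2^k'/(h h') = 4 N² 2^k 2^k' (α'β'/(h_* h'_*))`. Sum over `(h_*,h'_*)` and use (H) (`Lam α β = α' β'`). -/
theorem g4_count {c0 C2 : ℝ} {G : ℕ → ℝ} {E0 : Set (ℕ × ℕ)} (hyp : HypG c0 C2 G E0) {α β : ℕ} {V W : Finset ℕ}
    {E : Finset (ℕ × ℕ)} {L : ℝ} (h : Cfg c0 E0 α β V W E L) (N : ℕ) (hN : 0 < N)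
    (hNα : Nat.Coprime N α) (hNβ : Nat.Coprime N β) (hrp : rp (Nat.lcm α β * N) ≤ 4 * c0)
    (hgood : ∀ x ∈ E, GoodP N x.1 x.2) (k k' : ℕ) :
    Wt (E.filter (fun x => x.1 / Nat.gcd x.1 N ∈ Ico (2 ^ k) (2 ^ (k + 1)) ∧
      x.2 / Nat.gcd x.2 N ∈ Ico (2 ^ k') (2 ^ (k' + 1)))) ≤
      4 * C2 * (G (Lam α β)) ^ (40 / 19 : ℝ) * ((N : ℝ) * 2 ^ k * 2 ^ k') ^ 2 := by
  classical
  set g := Nat.gcd α β with hg
  set α' := α / g with hα'
  set β' := β / g with hβ'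
  have hg0 : 0 < g := Nat.gcd_pos_of_pos_left _ h.hα
  have hα : g * α' = α := Nat.mul_div_cancel' (Nat.gcd_dvd_left _ _)
  have hβ : g * β' = β := Nat.mul_div_cancel' (Nat.gcd_dvd_right _ _)
  have hα0 : 0 < α' := Nat.pos_of_mul_pos_left (by rw [hα]; exact h.hα)
  have hβ0 : 0 < β' := Nat.pos_of_mul_pos_left (by rw [hβ]; exact h.hβ)
  have hcop : Nat.Coprime α' β' := Nat.coprime_div_gcd_div_gcd hg0
  have hlcm : Nat.lcm α β = g * α' * β' := by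
    have h1 := Nat.gcd_mul_lcm α β
    rw [← hg] at h1
    have h2 : g * Nat.lcm α β = g * (g * α' * β') := by
      rw [h1]
      nth_rewrite 1 [← hα]
      nth_rewrite 1 [← hβ]
      ring
    exact Nat.eq_of_mul_eq_mul_left hg0 h2
  set M := Nat.lcm α β * N with hM
  have hMe : M = g * α' * β' * N := by rw [hM, hlcm]
  have hM0 : 0 < M := by
    rw [hMe]
    positivity
  have hαM : α' ∣ M := ⟨g * β' * N, by rw [hMe]; ring⟩
  have hβM : β' ∣ M := ⟨g * α' * N, by rw [hMe]; ring⟩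
  have key := hyp M α' β' hM0 hrp hcop hαM hβM k k'
  set F := E.filter (fun x => x.1 / Nat.gcd x.1 N ∈ Ico (2 ^ k) (2 ^ (k + 1)) ∧
      x.2 / Nat.gcd x.2 N ∈ Ico (2 ^ k') (2 ^ (k' + 1))) with hF
  set φ : ℕ × ℕ → ℕ × ℕ := fun y => (β' * (N / Nat.gcd y.1 N), α' * (N / Nat.gcd y.2 N)) with hφ
  set D := (M.divisors.filter (fun h => β' ∣ h)) ×ˢ (M.divisors.filter (fun h' => α' ∣ h')) with hD
  have hφD : ∀ y ∈ F, φ y ∈ D := by
    intro y _
    rw [hD, mem_product, mem_filter, mem_filter, Nat.mem_divisors, Nat.mem_divisors]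
    have h1 : N / Nat.gcd y.1 N ∣ N := Nat.div_dvd_of_dvd (Nat.gcd_dvd_right _ _)
    have h2 : N / Nat.gcd y.2 N ∣ N := Nat.div_dvd_of_dvd (Nat.gcd_dvd_right _ _)
    refine ⟨⟨⟨?_, hM0.ne'⟩, Nat.dvd_mul_right _ _⟩, ⟨⟨?_, hM0.ne'⟩, Nat.dvd_mul_right _ _⟩⟩
    · obtain ⟨c, hc⟩ := h1
      refine ⟨g * α' * c, ?_⟩
      show M = β' * (N / Nat.gcd y.1 N) * (g * α' * c)
      rw [hMe]
      nth_rewrite 1 [hc]
      ring
    · obtain ⟨c, hc⟩ := h2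
      refine ⟨g * β' * c, ?_⟩
      show M = α' * (N / Nat.gcd y.2 N) * (g * β' * c)
      rw [hMe]
      nth_rewrite 1 [hc]
      ring
  -- the weight of one pair
  have hterm : ∀ y ∈ F, (y.1 : ℝ) * y.2 ≤
      4 * (N : ℝ) ^ 2 * (2 ^ k * 2 ^ k') * (((α' : ℝ) * β') / ((φ y).1 * (φ y).2)) := by
    intro y hy
    rw [hF, mem_filter, mem_Ico, mem_Ico] at hy
    obtain ⟨-, ⟨-, h2⟩, ⟨-, h4⟩⟩ := hy
    have d1 := g4b_quot y.1 N hN
    have d2 := g4b_quot y.2 N hN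
    have hx : ((y.1 / Nat.gcd y.1 N : ℕ) : ℝ) ≤ 2 * 2 ^ k := by
      have : ((y.1 / Nat.gcd y.1 N : ℕ) : ℝ) < ((2 ^ (k + 1) : ℕ) : ℝ) := by exact_mod_cast h2
      push_cast at this
      rw [pow_succ] at this
      linarith
    have hx' : ((y.2 / Nat.gcd y.2 N : ℕ) : ℝ) ≤ 2 * 2 ^ k' := by
      have : ((y.2 / Nat.gcd y.2 N : ℕ) : ℝ) < ((2 ^ (k' + 1) : ℕ) : ℝ) := by exact_mod_cast h4
      push_cast at this
      rw [pow_succ] at this
      linarith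
    obtain ⟨d1p, d1e⟩ := d1
    obtain ⟨d2p, d2e⟩ := d2
    rw [d1e, d2e]
    have hα0' : (0 : ℝ) < α' := by exact_mod_cast hα0
    have hβ0' : (0 : ℝ) < β' := by exact_mod_cast hβ0
    have e1 : ((α' : ℝ) * β') / ((φ y).1 * (φ y).2) =
        1 / (((N / Nat.gcd y.1 N : ℕ) : ℝ) * ((N / Nat.gcd y.2 N : ℕ) : ℝ)) := by
      show ((α' : ℝ) * β') / (((β' * (N / Nat.gcd y.1 N) : ℕ) : ℝ) * ((α' * (N / Nat.gcd y.2 N) : ℕ) : ℝ)) = _
      rw [Nat.cast_mul, Nat.cast_mul]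
      field_simp
    rw [e1]
    have e2 : 4 * (N : ℝ) ^ 2 * (2 ^ k * 2 ^ k') * (1 / (((N / Nat.gcd y.1 N : ℕ) : ℝ) * ((N / Nat.gcd y.2 N : ℕ) : ℝ))) =
        ((N : ℝ) / ((N / Nat.gcd y.1 N : ℕ) : ℝ) * (2 * 2 ^ k)) * ((N : ℝ) / ((N / Nat.gcd y.2 N : ℕ) : ℝ) * (2 * 2 ^ k')) := by
      field_simp
      ring
    rw [e2]
    have hN0 : (0 : ℝ) ≤ N := Nat.cast_nonneg N
    refine mul_le_mul (mul_le_mul_of_nonneg_left hx (by positivity)) (mul_le_mul_of_nonneg_left hx' (by positivity))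
      (by positivity) (by positivity)
  -- the number of pairs in a fibre
  have hfib : ∀ d ∈ D, ((F.filter (fun y => φ y = d)).card : ℝ) ≤ ((Bl E0 M d.1 d.2 (2 ^ k) (2 ^ k')).card : ℝ) := by
    intro d _
    rw [Nat.cast_le]
    refine card_le_card_of_injOn (fun y => (y.1 / Nat.gcd y.1 N, y.2 / Nat.gcd y.2 N)) ?_ ?_
    · intro y hy
      rw [mem_coe, mem_filter] at hy
      obtain ⟨hyF, hyd⟩ := hy
      rw [hF, mem_filter, mem_Ico, mem_Ico] at hyF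
      obtain ⟨hyE, ⟨h1, h2⟩, ⟨h3, h4⟩⟩ := hyF
      obtain ⟨hEV, hEW, hE0, -⟩ := h.hE y hyE
      obtain ⟨hv0, hvα, hvβ, -⟩ := h.hV y.1 hEV
      obtain ⟨hw0, hwα, hwβ, -⟩ := h.hW y.2 hEW
      obtain ⟨-, -, hc, -⟩ := g4_struct N y.1 y.2 hN hv0 hw0 (hgood y hyE)
      have hd1 : d.1 = β' * (N / Nat.gcd y.1 N) := by rw [← hyd]
      have hd2 : d.2 = α' * (N / Nat.gcd y.2 N) := by rw [← hyd]
      have hgv : 0 < Nat.gcd y.1 N := Nat.gcd_pos_of_pos_right _ hN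
      have hgw : 0 < Nat.gcd y.2 N := Nat.gcd_pos_of_pos_right _ hN
      have hNv : Nat.gcd y.1 N * (N / Nat.gcd y.1 N) = N := Nat.mul_div_cancel' (Nat.gcd_dvd_right _ _)
      have hNw : Nat.gcd y.2 N * (N / Nat.gcd y.2 N) = N := Nat.mul_div_cancel' (Nat.gcd_dvd_right _ _)
      have hvv : Nat.gcd y.1 N * (y.1 / Nat.gcd y.1 N) = y.1 := Nat.mul_div_cancel' (Nat.gcd_dvd_left _ _)
      have hww : Nat.gcd y.2 N * (y.2 / Nat.gcd y.2 N) = y.2 := Nat.mul_div_cancel' (Nat.gcd_dvd_left _ _)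
      have hh0 : 0 < N / Nat.gcd y.1 N := Nat.pos_of_mul_pos_left (by rw [hNv]; exact hN)
      have hh0' : 0 < N / Nat.gcd y.2 N := Nat.pos_of_mul_pos_left (by rw [hNw]; exact hN)
      rw [mem_coe]
      unfold Bl
      rw [mem_filter, mem_product, mem_Ico, mem_Ico]
      refine ⟨⟨⟨h1, ?_⟩, ⟨h3, ?_⟩⟩, ?_, ?_⟩
      · rw [pow_succ] at h2
        show y.1 / Nat.gcd y.1 N < 2 * 2 ^ k
        omega
      · rw [pow_succ] at h4
        show y.2 / Nat.gcd y.2 N < 2 * 2 ^ k'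
        omega
      · show Nat.Coprime ((y.1 / Nat.gcd y.1 N) * d.2) ((y.2 / Nat.gcd y.2 N) * d.1)
        rw [hd1, hd2]
        have dx : y.1 / Nat.gcd y.1 N ∣ y.1 := Nat.div_dvd_of_dvd (Nat.gcd_dvd_left _ _)
        have dx' : y.2 / Nat.gcd y.2 N ∣ y.2 := Nat.div_dvd_of_dvd (Nat.gcd_dvd_left _ _)
        have dh : N / Nat.gcd y.1 N ∣ N := Nat.div_dvd_of_dvd (Nat.gcd_dvd_right _ _)
        have dh' : N / Nat.gcd y.2 N ∣ N := Nat.div_dvd_of_dvd (Nat.gcd_dvd_right _ _)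
        have dα : α' ∣ α := ⟨g, by rw [mul_comm]; exact hα.symm⟩
        have dβ : β' ∣ β := ⟨g, by rw [mul_comm]; exact hβ.symm⟩
        have c1 : Nat.Coprime (y.1 / Nat.gcd y.1 N) β' := Nat.Coprime.coprime_dvd_left dx (Nat.Coprime.coprime_dvd_right dβ hvβ)
        have c2 : Nat.Coprime α' (y.2 / Nat.gcd y.2 N) :=
          (Nat.Coprime.coprime_dvd_left dx' (Nat.Coprime.coprime_dvd_right dα hwα)).symm
        have c3 : Nat.Coprime α' (N / Nat.gcd y.1 N) :=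
          (Nat.Coprime.coprime_dvd_left dh (Nat.Coprime.coprime_dvd_right dα hNα)).symm
        have c4 : Nat.Coprime (N / Nat.gcd y.2 N) β' :=
          Nat.Coprime.coprime_dvd_left dh' (Nat.Coprime.coprime_dvd_right dβ hNβ)
        have hc1 : Nat.Coprime (y.1 / Nat.gcd y.1 N) (y.2 / Nat.gcd y.2 N) :=
          Nat.Coprime.coprime_dvd_left (Nat.dvd_mul_right _ _) (Nat.Coprime.coprime_dvd_right (Nat.dvd_mul_right _ _) hc)
        have hc2 : Nat.Coprime (y.1 / Nat.gcd y.1 N) (N / Nat.gcd y.1 N) :=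
          Nat.Coprime.coprime_dvd_left (Nat.dvd_mul_right _ _) (Nat.Coprime.coprime_dvd_right (Nat.dvd_mul_left _ _) hc)
        have hc3 : Nat.Coprime (N / Nat.gcd y.2 N) (y.2 / Nat.gcd y.2 N) :=
          Nat.Coprime.coprime_dvd_left (Nat.dvd_mul_left _ _) (Nat.Coprime.coprime_dvd_right (Nat.dvd_mul_right _ _) hc)
        have hc4 : Nat.Coprime (N / Nat.gcd y.2 N) (N / Nat.gcd y.1 N) :=
          Nat.Coprime.coprime_dvd_left (Nat.dvd_mul_left _ _) (Nat.Coprime.coprime_dvd_right (Nat.dvd_mul_left _ _) hc)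
        refine Nat.Coprime.mul_left ?_ ?_
        · exact Nat.Coprime.mul_right hc1 (Nat.Coprime.mul_right c1 hc2)
        · refine Nat.Coprime.mul_left ?_ ?_
          · exact Nat.Coprime.mul_right c2 (Nat.Coprime.mul_right hcop c3)
          · exact Nat.Coprime.mul_right hc3 (Nat.Coprime.mul_right c4 hc4)
      · show (M / d.1 * (y.1 / Nat.gcd y.1 N), M / d.2 * (y.2 / Nat.gcd y.2 N)) ∈ E0
        have q1 : M / d.1 = α * Nat.gcd y.1 N := by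
          rw [hd1]
          refine Nat.div_eq_of_eq_mul_left (Nat.mul_pos hβ0 hh0) ?_
          rw [hMe, ← hα]
          nth_rewrite 1 [← hNv]
          ring
        have q2 : M / d.2 = β * Nat.gcd y.2 N := by
          rw [hd2]
          refine Nat.div_eq_of_eq_mul_left (Nat.mul_pos hα0 hh0') ?_
          rw [hMe, ← hβ]
          nth_rewrite 1 [← hNw]
          ring
        rw [q1, q2, mul_assoc, mul_assoc, hvv, hww]
        exact hE0
    · intro y hy y' hy' hyy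
      rw [mem_coe, mem_filter] at hy hy'
      have e1 := congrArg Prod.fst hyy
      have e2 := congrArg Prod.snd hyy
      simp only [] at e1 e2
      have f := hy.2.trans hy'.2.symm
      have f1 := congrArg Prod.fst f
      have f2 := congrArg Prod.snd f
      simp only [hφ] at f1 f2
      have g1 := Nat.eq_of_mul_eq_mul_left hβ0 f1
      have g2 := Nat.eq_of_mul_eq_mul_left hα0 f2
      have k1 := g4b_inj y.1 y'.1 N hN g1 e1
      have k2 := g4b_inj y.2 y'.2 N hN g2 e2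
      exact Prod.ext k1 k2
  -- assembly
  set c : ℕ × ℕ → ℝ := fun d => 4 * (N : ℝ) ^ 2 * (2 ^ k * 2 ^ k') * (((α' : ℝ) * β') / (d.1 * d.2)) with hc
  have hc0 : ∀ d, 0 ≤ c d := fun d => by
    simp only [hc]
    positivity
  have hW : Wt F ≤ ∑ d ∈ D, ((Bl E0 M d.1 d.2 (2 ^ k) (2 ^ k')).card : ℝ) * c d := by
    unfold Wt
    calc ∑ x ∈ F, (x.1 : ℝ) * x.2 ≤ ∑ x ∈ F, c (φ x) := Finset.sum_le_sum hterm
      _ = ∑ d ∈ D, ∑ x ∈ F.filter (fun y => φ y = d), c (φ x) := (Finset.sum_fiberwise_of_maps_to hφD _).symm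
      _ = ∑ d ∈ D, ((F.filter (fun y => φ y = d)).card : ℝ) * c d := by
          refine Finset.sum_congr rfl fun d _ => ?_
          rw [Finset.sum_congr rfl (fun x hx => by rw [(mem_filter.1 hx).2]), Finset.sum_const, nsmul_eq_mul]
      _ ≤ ∑ d ∈ D, ((Bl E0 M d.1 d.2 (2 ^ k) (2 ^ k')).card : ℝ) * c d :=
          Finset.sum_le_sum fun d hd => mul_le_mul_of_nonneg_right (hfib d hd) (hc0 d)
  have hS : ∑ d ∈ D, ((Bl E0 M d.1 d.2 (2 ^ k) (2 ^ k')).card : ℝ) * c d =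
      4 * (N : ℝ) ^ 2 * (2 ^ k * 2 ^ k') * ∑ h ∈ M.divisors.filter (fun h => β' ∣ h), ∑ h' ∈ M.divisors.filter (fun h' => α' ∣ h'),
      ((α' : ℝ) * β' / (h * h')) * ((Bl E0 M h h' (2 ^ k) (2 ^ k')).card : ℝ) := by
    rw [hD, Finset.sum_product, Finset.mul_sum]
    refine Finset.sum_congr rfl fun a _ => ?_
    rw [Finset.mul_sum]
    refine Finset.sum_congr rfl fun b _ => ?_
    simp only [hc]
    ring
  rw [hS] at hW
  refine hW.trans ?_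
  have hLam : Lam α β = α' * β' := rfl
  rw [hLam]
  calc 4 * (N : ℝ) ^ 2 * (2 ^ k * 2 ^ k') * ∑ h ∈ M.divisors.filter (fun h => β' ∣ h), ∑ h' ∈ M.divisors.filter (fun h' => α' ∣ h'),
      ((α' : ℝ) * β' / (h * h')) * ((Bl E0 M h h' (2 ^ k) (2 ^ k')).card : ℝ)
      ≤ 4 * (N : ℝ) ^ 2 * (2 ^ k * 2 ^ k') * (C2 * (G (α' * β')) ^ (40 / 19 : ℝ) * ((2 : ℝ) ^ k * 2 ^ k')) :=
        mul_le_mul_of_nonneg_left key (by positivity)
    _ = 4 * C2 * (G (α' * β')) ^ (40 / 19 : ℝ) * ((N : ℝ) * 2 ^ k * 2 ^ k') ^ 2 := by ring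

end Pool.Agent.H20G
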