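import Mathlib
import Pool.Agent.Lib.H20G.Defs

set_option autoImplicit false

/-!
# H20G chunk G4C: dyadic summation
-/

namespace Pool.Agent.H20G

open Finset

theorem g4c_two : (3 / 2 : ℝ) ≤ (2 : ℝ) ^ (19 / 20 : ℝ) := by
  have h1 : (3 / 2 : ℝ) = ((3 / 2 : ℝ) ^ (20 : ℕ)) ^ (1 / 20 : ℝ) := by
    rw [← Real.rpow_natCast, ← Real.rpow_mul (by norm_num)]
    norm_num
  have h2 : (2 : ℝ) ^ (19 / 20 : ℝ) = ((2 : ℝ) ^ (19 : ℕ)) ^ (1 / 20 : ℝ) := by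
    rw [← Real.rpow_natCast, ← Real.rpow_mul (by norm_num)]
    norm_num
  rw [h1, h2]
  exact Real.rpow_le_rpow (by norm_num) (by norm_num) (by norm_num)

/-- the geometric sum -/
theorem g4c_geom (D L : ℝ) (hD : 0 < D) (hL : 0 < L) (m : ℕ) :
    ∑ e ∈ range m, (if D * 2 ^ e ≤ L then (D * 2 ^ e) ^ (19 / 20 : ℝ) else 0) ≤
      3 * L ^ (19 / 20 : ℝ) ∧
    ∑ e ∈ range m, (if D * 2 ^ e ≤ L then (D * 2 ^ e) ^ (19 / 20 : ℝ) else 0) ≤
      2 * (D * 2 ^ m) ^ (19 / 20 : ℝ) := by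
  induction m with
  | zero =>
    simp only [Finset.range_zero, Finset.sum_empty]
    constructor <;> positivity
  | succ m ih =>
    rw [Finset.sum_range_succ]
    have hx : 0 < D * 2 ^ m := by positivity
    have h1 : (D * 2 ^ (m + 1)) ^ (19 / 20 : ℝ) =
        (D * 2 ^ m) ^ (19 / 20 : ℝ) * (2 : ℝ) ^ (19 / 20 : ℝ) := by
      rw [← Real.mul_rpow hx.le (by norm_num)]
      congr 1
      rw [pow_succ]
      ring
    have h2 : 0 < (D * 2 ^ m) ^ (19 / 20 : ℝ) := Real.rpow_pos_of_pos hx _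
    have h3 := g4c_two
    have h4 : (3 / 2 : ℝ) * (D * 2 ^ m) ^ (19 / 20 : ℝ) ≤ (D * 2 ^ (m + 1)) ^ (19 / 20 : ℝ) := by
      rw [h1]
      nlinarith
    split_ifs with h
    · have h5 : (D * 2 ^ m) ^ (19 / 20 : ℝ) ≤ L ^ (19 / 20 : ℝ) :=
        Real.rpow_le_rpow hx.le h (by norm_num)
      constructor
      · linarith [ih.2]
      · linarith [ih.2]
    · constructor
      · linarith [ih.1]
      · linarith [ih.2]

/-- `∑ z^{21/20} ≤ (∑ z)^{21/20}` -/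
theorem g4c_sum_rpow (n : ℕ) (z : ℕ → ℝ) (hz : ∀ k, 0 ≤ z k) :
    ∑ k ∈ range n, z k ^ (21 / 20 : ℝ) ≤ (∑ k ∈ range n, z k) ^ (21 / 20 : ℝ) := by
  have hS : 0 ≤ ∑ k ∈ range n, z k := Finset.sum_nonneg fun k _ => hz k
  have h1 : ∀ k ∈ range n, z k ^ (21 / 20 : ℝ) ≤ z k * (∑ k ∈ range n, z k) ^ (1 / 20 : ℝ) := by
    intro k hk
    have h2 : z k ^ (21 / 20 : ℝ) = z k * z k ^ (1 / 20 : ℝ) := by
      rw [show (21 / 20 : ℝ) = 1 + 1 / 20 by norm_num,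
        Real.rpow_add_of_nonneg (hz k) (by norm_num) (by norm_num), Real.rpow_one]
    rw [h2]
    refine mul_le_mul_of_nonneg_left (Real.rpow_le_rpow (hz k) ?_ (by norm_num)) (hz k)
    exact Finset.single_le_sum (fun i _ => hz i) hk
  refine (Finset.sum_le_sum h1).trans (le_of_eq ?_)
  rw [← Finset.sum_mul, show (21 / 20 : ℝ) = 1 + 1 / 20 by norm_num,
    Real.rpow_add_of_nonneg hS (by norm_num) (by norm_num), Real.rpow_one]

/-- one antidiagonal -/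
theorem g4c_diag (n e : ℕ) (z z' : ℕ → ℝ) (hz : ∀ k, 0 ≤ z k) (hz' : ∀ k, 0 ≤ z' k) :
    ∑ x ∈ (range n ×ˢ range n).filter (fun x : ℕ × ℕ => x.1 + x.2 = e),
      (z x.1 * z' x.2) ^ (21 / 40 : ℝ) ≤
      ((∑ k ∈ range n, z k) * (∑ k ∈ range n, z' k)) ^ (21 / 40 : ℝ) := by
  set s := (range n ×ˢ range n).filter (fun x : ℕ × ℕ => x.1 + x.2 = e) with hs
  have hS : 0 ≤ ∑ k ∈ range n, z k := Finset.sum_nonneg fun k _ => hz k
  have hS' : 0 ≤ ∑ k ∈ range n, z' k := Finset.sum_nonneg fun k _ => hz' k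
  have h1 := Finset.sum_mul_sq_le_sq_mul_sq s (fun x : ℕ × ℕ => z x.1 ^ (21 / 40 : ℝ))
    (fun x : ℕ × ℕ => z' x.2 ^ (21 / 40 : ℝ))
  have e1 : ∀ (y : ℕ → ℝ), (∀ k, 0 ≤ y k) → ∀ k, (y k ^ (21 / 40 : ℝ)) ^ 2 = y k ^ (21 / 20 : ℝ) := by
    intro y hy k
    rw [← Real.rpow_natCast, ← Real.rpow_mul (hy k)]
    norm_num
  have h2 : ∑ x ∈ s, (z x.1 ^ (21 / 40 : ℝ)) ^ 2 ≤ (∑ k ∈ range n, z k) ^ (21 / 20 : ℝ) := by
    have h3 : ∑ x ∈ s, (z x.1 ^ (21 / 40 : ℝ)) ^ 2 = ∑ k ∈ s.image Prod.fst, z k ^ (21 / 20 : ℝ) := by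
      rw [Finset.sum_image]
      · exact Finset.sum_congr rfl fun x _ => e1 z hz x.1
      · intro x hx y hy hxy
        have hx2 := (Finset.mem_filter.1 hx).2
        have hy2 := (Finset.mem_filter.1 hy).2
        have hxy' : x.1 = y.1 := hxy
        exact Prod.ext hxy' (by omega)
    rw [h3]
    refine le_trans ?_ (g4c_sum_rpow n z hz)
    refine Finset.sum_le_sum_of_subset_of_nonneg ?_ fun k _ _ => Real.rpow_nonneg (hz k) _
    intro k hk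
    obtain ⟨x, hx, rfl⟩ := Finset.mem_image.1 hk
    exact (Finset.mem_product.1 (Finset.mem_filter.1 hx).1).1
  have h2' : ∑ x ∈ s, (z' x.2 ^ (21 / 40 : ℝ)) ^ 2 ≤ (∑ k ∈ range n, z' k) ^ (21 / 20 : ℝ) := by
    have h3 : ∑ x ∈ s, (z' x.2 ^ (21 / 40 : ℝ)) ^ 2 =
        ∑ k ∈ s.image Prod.snd, z' k ^ (21 / 20 : ℝ) := by
      rw [Finset.sum_image]
      · exact Finset.sum_congr rfl fun x _ => e1 z' hz' x.2
      · intro x hx y hy hxy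
        have hx2 := (Finset.mem_filter.1 hx).2
        have hy2 := (Finset.mem_filter.1 hy).2
        have hxy' : x.2 = y.2 := hxy
        exact Prod.ext (by omega) hxy'
    rw [h3]
    refine le_trans ?_ (g4c_sum_rpow n z' hz')
    refine Finset.sum_le_sum_of_subset_of_nonneg ?_ fun k _ _ => Real.rpow_nonneg (hz' k) _
    intro k hk
    obtain ⟨x, hx, rfl⟩ := Finset.mem_image.1 hk
    exact (Finset.mem_product.1 (Finset.mem_filter.1 hx).1).2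
  have h4 : ∑ x ∈ s, (z x.1 * z' x.2) ^ (21 / 40 : ℝ) =
      ∑ x ∈ s, z x.1 ^ (21 / 40 : ℝ) * z' x.2 ^ (21 / 40 : ℝ) :=
    Finset.sum_congr rfl fun x _ => Real.mul_rpow (hz x.1) (hz' x.2)
  rw [h4]
  refine (sq_le_sq₀ (Finset.sum_nonneg fun x _ => mul_nonneg (Real.rpow_nonneg (hz x.1) _)
    (Real.rpow_nonneg (hz' x.2) _)) (Real.rpow_nonneg (mul_nonneg hS hS') _)).1 ?_
  refine h1.trans ((mul_le_mul h2 h2' (Finset.sum_nonneg fun x _ => sq_nonneg _)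
    (Real.rpow_nonneg hS _)).trans (le_of_eq ?_))
  rw [← Real.mul_rpow hS hS', ← Real.rpow_natCast, ← Real.rpow_mul (mul_nonneg hS hS')]
  norm_num

/-- PROOF. Group by `e = k + k'`: for fixed `e`, `∑_{k} (z_k z'_{e-k})^{21/40} ≤ (∑_k z_k^{21/20})^{1/2} (∑ z'_{k'}^{21/20})^{1/2}` (Cauchy–Schwarz)
`≤ (∑ z)^{21/40} (∑ z')^{21/40}` (`∑ z_k^{21/20} ≤ (∑ z_k)^{21/20}`, `Finset.sum_rpow_le..`/ℓ^p monotonicity). And
`∑_{e : D 2^e ≤ L} (D 2^e)^{19/20} ≤ L^{19/20}/(1 - 2^{-19/20}) ≤ 3 L^{19/20}`. -/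
theorem g4_dyadic (D L : ℝ) (hD : 0 < D) (hL : 0 < L) (n : ℕ) (z z' : ℕ → ℝ) (hz : ∀ k, 0 ≤ z k) (hz' : ∀ k, 0 ≤ z' k) :
    ∑ k ∈ range n, ∑ k' ∈ range n, (if D * 2 ^ k * 2 ^ k' ≤ L then
      (D * 2 ^ k * 2 ^ k') ^ (19 / 20 : ℝ) * (z k * z' k') ^ (21 / 40 : ℝ) else 0) ≤
      3 * L ^ (19 / 20 : ℝ) * ((∑ k ∈ range n, z k) * (∑ k ∈ range n, z' k)) ^ (21 / 40 : ℝ) := by
  have hS : 0 ≤ ∑ k ∈ range n, z k := Finset.sum_nonneg fun k _ => hz k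
  have hS' : 0 ≤ ∑ k ∈ range n, z' k := Finset.sum_nonneg fun k _ => hz' k
  rw [← Finset.sum_product' (range n) (range n) (fun k k' => if D * 2 ^ k * 2 ^ k' ≤ L then
      (D * 2 ^ k * 2 ^ k') ^ (19 / 20 : ℝ) * (z k * z' k') ^ (21 / 40 : ℝ) else 0)]
  have hmap : ∀ x ∈ range n ×ˢ range n, x.1 + x.2 ∈ range (2 * n) := by
    intro x hx
    have h1 := Finset.mem_range.1 (Finset.mem_product.1 hx).1
    have h2 := Finset.mem_range.1 (Finset.mem_product.1 hx).2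
    exact Finset.mem_range.2 (by omega)
  rw [← Finset.sum_fiberwise_of_maps_to hmap]
  have h1 : ∀ e ∈ range (2 * n),
      ∑ x ∈ (range n ×ˢ range n).filter (fun x : ℕ × ℕ => x.1 + x.2 = e),
        (if D * 2 ^ x.1 * 2 ^ x.2 ≤ L then
      (D * 2 ^ x.1 * 2 ^ x.2) ^ (19 / 20 : ℝ) * (z x.1 * z' x.2) ^ (21 / 40 : ℝ) else 0) ≤
      (if D * 2 ^ e ≤ L then (D * 2 ^ e) ^ (19 / 20 : ℝ) else 0) *
        ((∑ k ∈ range n, z k) * (∑ k ∈ range n, z' k)) ^ (21 / 40 : ℝ) := by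
    intro e _
    have h2 : ∀ x ∈ (range n ×ˢ range n).filter (fun x : ℕ × ℕ => x.1 + x.2 = e),
        (if D * 2 ^ x.1 * 2 ^ x.2 ≤ L then
          (D * 2 ^ x.1 * 2 ^ x.2) ^ (19 / 20 : ℝ) * (z x.1 * z' x.2) ^ (21 / 40 : ℝ) else 0) =
        (if D * 2 ^ e ≤ L then (D * 2 ^ e) ^ (19 / 20 : ℝ) else 0) *
          (z x.1 * z' x.2) ^ (21 / 40 : ℝ) := by
      intro x hx
      have h3 := (Finset.mem_filter.1 hx).2
      rw [mul_assoc, ← pow_add, h3, ite_mul, zero_mul]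
    rw [Finset.sum_congr rfl h2, ← Finset.mul_sum]
    refine mul_le_mul_of_nonneg_left (g4c_diag n e z z' hz hz') ?_
    split_ifs
    · positivity
    · exact le_rfl
  refine (Finset.sum_le_sum h1).trans ?_
  rw [← Finset.sum_mul]
  exact mul_le_mul_of_nonneg_right (g4c_geom D L hD hL (2 * n)).1
    (Real.rpow_nonneg (mul_nonneg hS hS') _)

end Pool.Agent.H20G
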