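import Mathlib
import Pool.Agent.Lib.H20G.Defs
import Pool.Agent.Lib.H20G.G4A
import Pool.Agent.Lib.H20G.G4B
import Pool.Agent.Lib.H20G.G4C

set_option autoImplicit false

/-!
# H20G chunk G4: all good edges
-/

namespace Pool.Agent.H20G

open Finset

theorem g4_log (m k : ℕ) (hm : 0 < m) : m ∈ Ico (2 ^ k) (2 ^ (k + 1)) ↔ Nat.log 2 m = k := by
  rw [mem_Ico, Nat.log_eq_iff (Or.inr ⟨by norm_num, hm.ne'⟩)]

theorem g4_interp (T X Y : ℝ) (hT : 0 ≤ T) (h1 : T ≤ X) (h2 : T ≤ Y) :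
    T ≤ X ^ (19 / 40 : ℝ) * Y ^ (21 / 40 : ℝ) := by
  have e : T = T ^ (19 / 40 : ℝ) * T ^ (21 / 40 : ℝ) := by
    rw [← Real.rpow_add_of_nonneg hT (by norm_num) (by norm_num)]
    norm_num
  calc T = T ^ (19 / 40 : ℝ) * T ^ (21 / 40 : ℝ) := e
    _ ≤ X ^ (19 / 40 : ℝ) * Y ^ (21 / 40 : ℝ) :=
      mul_le_mul (Real.rpow_le_rpow hT h1 (by norm_num)) (Real.rpow_le_rpow hT h2 (by norm_num))
        (Real.rpow_nonneg hT _) (Real.rpow_nonneg (hT.trans h1) _)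

theorem g4_X1 (C g u : ℝ) (hC : 0 < C) (hg : 0 < g) (hu : 0 ≤ u) :
    (4 * C * g ^ (40 / 19 : ℝ) * u ^ 2) ^ (19 / 40 : ℝ) = (4 * C) ^ (19 / 40 : ℝ) * g * u ^ (19 / 20 : ℝ) := by
  have h1 : 0 ≤ 4 * C := by linarith
  have h2 : 0 ≤ g ^ (40 / 19 : ℝ) := Real.rpow_nonneg hg.le _
  rw [Real.mul_rpow (mul_nonneg h1 h2) (pow_nonneg hu 2), Real.mul_rpow h1 h2, ← Real.rpow_mul hg.le,
    ← Real.rpow_natCast u 2, ← Real.rpow_mul hu]
  norm_num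

theorem g4_Z_nonneg (V : Finset ℕ) : 0 ≤ Z V := sum_nonneg fun v _ => Nat.cast_nonneg v

theorem g4_sumZ (V : Finset ℕ) (N n : ℕ) (hN : 0 < N) (hV : ∀ v ∈ V, 0 < v)
    (hn : ∀ v ∈ V, Nat.log 2 (v / Nat.gcd v N) < n) :
    ∑ k ∈ range n, Z (V.filter fun v => v / Nat.gcd v N ∈ Ico (2 ^ k) (2 ^ (k + 1))) = Z V := by
  unfold Z
  rw [← sum_fiberwise_of_maps_to (s := V) (t := range n) (g := fun v => Nat.log 2 (v / Nat.gcd v N))
    (fun v hv => mem_range.2 (hn v hv))]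
  refine sum_congr rfl fun k _ => ?_
  refine sum_congr ?_ fun _ _ => rfl
  refine filter_congr fun v hv => ?_
  exact g4_log _ _ (Nat.div_pos (Nat.gcd_le_left _ (hV v hv)) (Nat.gcd_pos_of_pos_right _ hN))

/-- PROOF. For a pair `(k,k')` let `E_{kk'}` be the part of `E` in `g4_count`, `V_k = {v ∈ V : v/gcd(v,N) ∈ [2^k,2^{k+1})}`, `W_{k'}`. `E` is the disjoint
union of the `E_{kk'}`, `k, k' < n` for large `n` (`v/gcd(v,N) ≥ 1`). If `E_{kk'}` is not empty then `N 2^k 2^k' ≤ N x x' = lcm ≤ L` (`g4_struct`).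
`Wt(E_{kk'}) ≤ X1 := 4 C2 G^{40/19} (N 2^k 2^k')²` (`g4_count`) and `Wt(E_{kk'}) ≤ X2 := Z(V_k) Z(W_{k'})` (`E_{kk'} ⊆ V_k × W_{k'}`), so
`Wt(E_{kk'}) ≤ X1^{19/40} X2^{21/40} = (4 C2)^{19/40} G (N 2^k 2^k')^{19/20} (Z(V_k) Z(W_{k'}))^{21/40}`. Sum with `g4_dyadic`
(`∑_k Z(V_k) ≤ Z(V)`). -/
theorem g4_good {c0 C2 : ℝ} (hC2 : 0 < C2) {G : ℕ → ℝ} (hG : GrowthG G) {E0 : Set (ℕ × ℕ)} (hyp : HypG c0 C2 G E0) {α β : ℕ}
    {V W : Finset ℕ} {E : Finset (ℕ × ℕ)} {L : ℝ} (h : Cfg c0 E0 α β V W E L) (N : ℕ) (hN : 0 < N)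
    (hNα : Nat.Coprime N α) (hNβ : Nat.Coprime N β) (hrp : rp (Nat.lcm α β * N) ≤ 4 * c0)
    (hgood : ∀ x ∈ E, GoodP N x.1 x.2) :
    Wt E ≤ 3 * (4 * C2) ^ (19 / 40 : ℝ) * G (Lam α β) * L ^ (19 / 20 : ℝ) * (Z V * Z W) ^ (21 / 40 : ℝ) := by
  have hDV : ∀ v ∈ V, 0 < v / Nat.gcd v N := fun v hv =>
    Nat.div_pos (Nat.gcd_le_left _ (h.hV v hv).1) (Nat.gcd_pos_of_pos_right _ hN)
  have hDW : ∀ w ∈ W, 0 < w / Nat.gcd w N := fun w hw =>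
    Nat.div_pos (Nat.gcd_le_left _ (h.hW w hw).1) (Nat.gcd_pos_of_pos_right _ hN)
  obtain ⟨n, hnV, hnW⟩ : ∃ n : ℕ, (∀ v ∈ V, Nat.log 2 (v / Nat.gcd v N) < n) ∧
      ∀ w ∈ W, Nat.log 2 (w / Nat.gcd w N) < n := by
    refine ⟨(V ∪ W).sup id + 1, fun v hv => ?_, fun w hw => ?_⟩
    · have h1 : id v ≤ (V ∪ W).sup id := le_sup (f := id) (mem_union_left _ hv)
      have h2 := (Nat.log_le_self 2 (v / Nat.gcd v N)).trans (Nat.div_le_self v (Nat.gcd v N))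
      simp only [id] at h1
      omega
    · have h1 : id w ≤ (V ∪ W).sup id := le_sup (f := id) (mem_union_right _ hw)
      have h2 := (Nat.log_le_self 2 (w / Nat.gcd w N)).trans (Nat.div_le_self w (Nat.gcd w N))
      simp only [id] at h1
      omega
  have hNR : (0 : ℝ) < N := Nat.cast_pos.2 hN
  have hLam : 0 < Lam α β := Nat.mul_pos (Nat.div_pos (Nat.gcd_le_left _ h.hα) (Nat.gcd_pos_of_pos_left _ h.hα))
    (Nat.div_pos (Nat.gcd_le_right _ h.hβ) (Nat.gcd_pos_of_pos_left _ h.hα))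
  have hg : 0 < G (Lam α β) := (hG.1 _ hLam).1
  set g := G (Lam α β) with hgdef
  set Ek : ℕ → ℕ → Finset (ℕ × ℕ) := fun k k' => E.filter (fun x => x.1 / Nat.gcd x.1 N ∈ Ico (2 ^ k) (2 ^ (k + 1)) ∧
      x.2 / Nat.gcd x.2 N ∈ Ico (2 ^ k') (2 ^ (k' + 1))) with hEk
  set z : ℕ → ℝ := fun k => Z (V.filter fun v => v / Nat.gcd v N ∈ Ico (2 ^ k) (2 ^ (k + 1))) with hz
  set z' : ℕ → ℝ := fun k => Z (W.filter fun v => v / Nat.gcd v N ∈ Ico (2 ^ k) (2 ^ (k + 1))) with hz'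
  have hz0 : ∀ k, 0 ≤ z k := fun k => g4_Z_nonneg _
  have hz0' : ∀ k, 0 ≤ z' k := fun k => g4_Z_nonneg _
  have hsum : Wt E = ∑ k ∈ range n, ∑ k' ∈ range n, Wt (Ek k k') := by
    unfold Wt
    rw [← sum_fiberwise_of_maps_to (s := E) (t := range n ×ˢ range n)
      (g := fun x => (Nat.log 2 (x.1 / Nat.gcd x.1 N), Nat.log 2 (x.2 / Nat.gcd x.2 N)))
      (fun x hx => mem_product.2 ⟨mem_range.2 (hnV _ (h.hE x hx).1), mem_range.2 (hnW _ (h.hE x hx).2.1)⟩),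
      sum_product]
    refine sum_congr rfl fun k _ => sum_congr rfl fun k' _ => ?_
    refine sum_congr ?_ fun _ _ => rfl
    rw [hEk]
    refine filter_congr fun x hx => ?_
    rw [g4_log _ _ (hDV _ (h.hE x hx).1), g4_log _ _ (hDW _ (h.hE x hx).2.1), Prod.mk.injEq]
  have hterm : ∀ k k', Wt (Ek k k') ≤ ((4 * C2) ^ (19 / 40 : ℝ) * g) * (if (N : ℝ) * 2 ^ k * 2 ^ k' ≤ L then
      ((N : ℝ) * 2 ^ k * 2 ^ k') ^ (19 / 20 : ℝ) * (z k * z' k') ^ (21 / 40 : ℝ) else 0) := by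
    intro k k'
    have hc0 : 0 ≤ (4 * C2) ^ (19 / 40 : ℝ) * g := mul_nonneg (Real.rpow_nonneg (by linarith) _) hg.le
    have hu : 0 ≤ (N : ℝ) * 2 ^ k * 2 ^ k' := by positivity
    by_cases hne : (Ek k k').Nonempty
    · obtain ⟨x, hx⟩ := hne
      obtain ⟨hxE, hx1, hx2⟩ := mem_filter.1 hx
      obtain ⟨hxV, hxW, _, hlcm⟩ := h.hE x hxE
      have hst := (g4_struct N x.1 x.2 hN (h.hV _ hxV).1 (h.hW _ hxW).1 (hgood x hxE)).2.2.2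
      have hle : (N : ℝ) * 2 ^ k * 2 ^ k' ≤ L := by
        refine le_trans ?_ hlcm
        rw [hst]
        have h1 := (mem_Ico.1 hx1).1
        have h2 := (mem_Ico.1 hx2).1
        have h3 : N * 2 ^ k * 2 ^ k' ≤ N * (x.1 / Nat.gcd x.1 N) * (x.2 / Nat.gcd x.2 N) :=
          Nat.mul_le_mul (Nat.mul_le_mul_left _ h1) h2
        exact_mod_cast h3
      rw [if_pos hle]
      have hT0 : 0 ≤ Wt (Ek k k') := sum_nonneg fun y _ => by positivity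
      have hX1 : Wt (Ek k k') ≤ 4 * C2 * g ^ (40 / 19 : ℝ) * ((N : ℝ) * 2 ^ k * 2 ^ k') ^ 2 :=
        g4_count hyp h N hN hNα hNβ hrp hgood k k'
      have hX2 : Wt (Ek k k') ≤ z k * z' k' := by
        have h1 : z k * z' k' = ∑ y ∈ (V.filter fun v => v / Nat.gcd v N ∈ Ico (2 ^ k) (2 ^ (k + 1))) ×ˢ
            (W.filter fun v => v / Nat.gcd v N ∈ Ico (2 ^ k') (2 ^ (k' + 1))), (y.1 : ℝ) * y.2 := by
          simp only [hz, hz', Z]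
          rw [sum_mul_sum, sum_product]
        rw [h1]
        unfold Wt
        refine sum_le_sum_of_subset_of_nonneg ?_ fun y _ _ => by positivity
        intro y hy
        obtain ⟨hyE, hy1, hy2⟩ := mem_filter.1 hy
        obtain ⟨hyV, hyW, _, _⟩ := h.hE y hyE
        exact mem_product.2 ⟨mem_filter.2 ⟨hyV, hy1⟩, mem_filter.2 ⟨hyW, hy2⟩⟩
      have h5 := g4_interp _ _ _ hT0 hX1 hX2
      rw [g4_X1 C2 g _ hC2 hg hu] at h5
      linarith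
    · rw [not_nonempty_iff_eq_empty] at hne
      have h0 : Wt (Ek k k') = 0 := by
        rw [hne]
        simp [Wt]
      rw [h0]
      refine mul_nonneg hc0 ?_
      split_ifs
      · exact mul_nonneg (Real.rpow_nonneg hu _) (Real.rpow_nonneg (mul_nonneg (hz0 k) (hz0' k')) _)
      · exact le_refl 0
  have hfin := g4_dyadic N L hNR h.hL n z z' hz0 hz0'
  rw [g4_sumZ V N n hN (fun v hv => (h.hV v hv).1) hnV, g4_sumZ W N n hN (fun v hv => (h.hW v hv).1) hnW] at hfin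
  rw [hsum]
  calc ∑ k ∈ range n, ∑ k' ∈ range n, Wt (Ek k k')
      ≤ ∑ k ∈ range n, ∑ k' ∈ range n, ((4 * C2) ^ (19 / 40 : ℝ) * g) * (if (N : ℝ) * 2 ^ k * 2 ^ k' ≤ L then
      ((N : ℝ) * 2 ^ k * 2 ^ k') ^ (19 / 20 : ℝ) * (z k * z' k') ^ (21 / 40 : ℝ) else 0) :=
        sum_le_sum fun k _ => sum_le_sum fun k' _ => hterm k k'
    _ = ((4 * C2) ^ (19 / 40 : ℝ) * g) * ∑ k ∈ range n, ∑ k' ∈ range n, (if (N : ℝ) * 2 ^ k * 2 ^ k' ≤ L then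
      ((N : ℝ) * 2 ^ k * 2 ^ k') ^ (19 / 20 : ℝ) * (z k * z' k') ^ (21 / 40 : ℝ) else 0) := by
        rw [mul_sum]
        refine sum_congr rfl fun k _ => ?_
        rw [mul_sum]
    _ ≤ ((4 * C2) ^ (19 / 40 : ℝ) * g) * (3 * L ^ (19 / 20 : ℝ) * (Z V * Z W) ^ (21 / 40 : ℝ)) :=
        mul_le_mul_of_nonneg_left hfin (mul_nonneg (Real.rpow_nonneg (by linarith) _) hg.le)
    _ = 3 * (4 * C2) ^ (19 / 40 : ℝ) * g * L ^ (19 / 20 : ℝ) * (Z V * Z W) ^ (21 / 40 : ℝ) := by ring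

end Pool.Agent.H20G
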