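import Mathlib
import Pool.Agent.Lib.H20G.Defs
import Pool.Agent.Lib.H20G.G1
import Pool.Agent.Lib.H20G.G2

set_option autoImplicit false

/-!
# H20G chunk G5: one prime step
-/

namespace Pool.Agent.H20G

open Finset

/-- `a_i = p^i Z(V_i)/Z(V)` -/
noncomputable def frac (p : ℕ) (V : Finset ℕ) (i : ℕ) : ℝ := (p : ℝ) ^ i * Z (sl p i V) / Z V

theorem g5_Z_nonneg (V : Finset ℕ) : 0 ≤ Z V := sum_nonneg fun v _ => Nat.cast_nonneg v

theorem g5_pow (P : ℝ) (hP : 0 < P) (i j : ℕ) :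
    P ^ i * P ^ j * P ^ (((max i j - min i j : ℕ) : ℝ) / 80) * P ^ (-(19 / 20 * ((max i j : ℕ) : ℝ)))
      * P ^ (-(21 / 40 * ((i : ℝ) + j))) = (P ^ (-(37 / 80) : ℝ)) ^ (max i j - min i j) := by
  rw [← Real.rpow_natCast P i, ← Real.rpow_natCast P j, ← Real.rpow_natCast (P ^ (-(37 / 80) : ℝ)),
    ← Real.rpow_mul hP.le, ← Real.rpow_add hP, ← Real.rpow_add hP, ← Real.rpow_add hP, ← Real.rpow_add hP]
  congr 1
  rcases le_total i j with h | h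
  · rw [max_eq_right h, min_eq_left h, Nat.cast_sub h]
    ring
  · rw [max_eq_left h, min_eq_right h, Nat.cast_sub h]
    ring

theorem g5_term (M g g' L ZV ZW Zi Zj u w P : ℝ) (i j : ℕ) (hM : 0 ≤ M) (hP : 0 < P)
    (hL : 0 < L) (hZV : 0 < ZV) (hZW : 0 < ZW) (hZi : 0 ≤ Zi) (hZj : 0 ≤ Zj)
    (hu : u = P ^ i * Zi / ZV) (hw : w = P ^ j * Zj / ZW)
    (hg' : g' ≤ P ^ (((max i j - min i j : ℕ) : ℝ) / 80) * g) :
    P ^ i * P ^ j * (M * g' * (L / P ^ (max i j)) ^ (19 / 20 : ℝ) * (Zi * Zj) ^ (21 / 40 : ℝ)) ≤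
      M * g * L ^ (19 / 20 : ℝ) * (ZV * ZW) ^ (21 / 40 : ℝ) *
        ((P ^ (-(37 / 80) : ℝ)) ^ (max i j - min i j) * (u * w) ^ (21 / 40 : ℝ)) := by
  have hu0 : 0 ≤ u := by rw [hu]; positivity
  have hw0 : 0 ≤ w := by rw [hw]; positivity
  have e1 : (L / P ^ (max i j)) ^ (19 / 20 : ℝ) = L ^ (19 / 20 : ℝ) * P ^ (-(19 / 20 * ((max i j : ℕ) : ℝ))) := by
    rw [Real.div_rpow hL.le (pow_nonneg hP.le _), Real.rpow_neg hP.le, div_eq_mul_inv, ← Real.rpow_natCast P (max i j),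
      ← Real.rpow_mul hP.le, mul_comm (19 / 20 : ℝ)]
  have e2 : Zi * Zj = (u * w) * (ZV * ZW) * P ^ (-((i : ℝ) + j)) := by
    rw [hu, hw, Real.rpow_neg hP.le, Real.rpow_add hP, Real.rpow_natCast, Real.rpow_natCast]
    field_simp
  have e3 : (Zi * Zj) ^ (21 / 40 : ℝ) = (u * w) ^ (21 / 40 : ℝ) * (ZV * ZW) ^ (21 / 40 : ℝ)
      * P ^ (-(21 / 40 * ((i : ℝ) + j))) := by
    rw [e2, Real.mul_rpow (by positivity) (by positivity), Real.mul_rpow (by positivity) (by positivity),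
      ← Real.rpow_mul hP.le]
    congr 2
    ring
  rw [e1, e3, ← g5_pow P hP i j]
  have h1 : M * g' * (L ^ (19 / 20 : ℝ) * P ^ (-(19 / 20 * ((max i j : ℕ) : ℝ)))) * ((u * w) ^ (21 / 40 : ℝ)
      * (ZV * ZW) ^ (21 / 40 : ℝ) * P ^ (-(21 / 40 * ((i : ℝ) + j))))
      ≤ M * (P ^ (((max i j - min i j : ℕ) : ℝ) / 80) * g) * (L ^ (19 / 20 : ℝ)
        * P ^ (-(19 / 20 * ((max i j : ℕ) : ℝ)))) * ((u * w) ^ (21 / 40 : ℝ)
      * (ZV * ZW) ^ (21 / 40 : ℝ) * P ^ (-(21 / 40 * ((i : ℝ) + j)))) := by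
    have hM2 : M * g' ≤ M * (P ^ (((max i j - min i j : ℕ) : ℝ) / 80) * g) := mul_le_mul_of_nonneg_left hg' hM
    exact mul_le_mul_of_nonneg_right (mul_le_mul_of_nonneg_right hM2 (by positivity)) (by positivity)
  refine (mul_le_mul_of_nonneg_left h1 (by positivity)).trans (le_of_eq ?_)
  ring

/-- The induction hypothesis applied to the slices with exponents in a set `I`. PROOF. For `(i,j) ∈ I` the slice is a configuration (`g1_slice`; `p` is coprime to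
`α β` because `p` divides some element of `V ∪ W`, which is coprime to `α β`), its primes are in `(ps V W).erase p` (`g1_ps`), so
`Wt(slE p i j E) ≤ M · G(Λ p^{|i-j|}) (L/p^{max})^{19/20} (Z(V_i) Z(W_j))^{21/40}` and `G(Λ p^{|i-j|}) ≤ p^{|i-j|/80} G(Λ)`. Multiply by `p^{i+j}`:
`p^i Z(V_i) = a_i Z_V`; the exponent of `p` is `i + j - (19/20) max(i,j) - (21/40)(i+j) + |i-j|/80 = -(37/80)|i-j|`
(`i+j = 2 max - |i-j|`). If `Z_V = 0` or `Z_W = 0` both sides are `0` (then `V` or `W` is empty, as its elements are positive). -/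
theorem g5_step {c0 : ℝ} {G : ℕ → ℝ} (hG : GrowthG G) {E0 : Set (ℕ × ℕ)} {α β : ℕ} {V W : Finset ℕ}
    {E : Finset (ℕ × ℕ)} {L : ℝ} (h : Cfg c0 E0 α β V W E L) (p : ℕ) (hp : p ∈ ps V W) (M : ℝ) (hM : 0 ≤ M)
    (IH : ∀ (α' β' : ℕ) (V' W' : Finset ℕ) (E' : Finset (ℕ × ℕ)) (L' : ℝ), Cfg c0 E0 α' β' V' W' E' L' →
      ps V' W' ⊆ (ps V W).erase p →
      Wt E' ≤ M * G (Lam α' β') * L' ^ (19 / 20 : ℝ) * (Z V' * Z W') ^ (21 / 40 : ℝ)) (I : Finset (ℕ × ℕ)) :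
    ∑ y ∈ I, (p : ℝ) ^ y.1 * (p : ℝ) ^ y.2 * Wt (slE p y.1 y.2 E) ≤
      M * G (Lam α β) * L ^ (19 / 20 : ℝ) * (Z V * Z W) ^ (21 / 40 : ℝ) *
        ∑ y ∈ I, ((p : ℝ) ^ (-(37 / 80) : ℝ)) ^ (max y.1 y.2 - min y.1 y.2) *
          (frac p V y.1 * frac p W y.2) ^ (21 / 40 : ℝ) := by
  have hprime : p.Prime := by
    obtain ⟨v, _, hpv⟩ := mem_biUnion.1 hp
    exact Nat.prime_of_mem_primeFactors hpv
  have hnd : ¬ p ∣ α ∧ ¬ p ∣ β := by
    obtain ⟨v, hv, hpv⟩ := mem_biUnion.1 hp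
    have hdv := Nat.dvd_of_mem_primeFactors hpv
    rcases mem_union.1 hv with hv | hv
    · obtain ⟨_, c1, c2, _⟩ := h.hV v hv
      exact ⟨fun hd => hprime.one_lt.ne' (Nat.dvd_one.1 (c1 ▸ Nat.dvd_gcd hdv hd)),
        fun hd => hprime.one_lt.ne' (Nat.dvd_one.1 (c2 ▸ Nat.dvd_gcd hdv hd))⟩
    · obtain ⟨_, c1, c2, _⟩ := h.hW v hv
      exact ⟨fun hd => hprime.one_lt.ne' (Nat.dvd_one.1 (c1 ▸ Nat.dvd_gcd hdv hd)),
        fun hd => hprime.one_lt.ne' (Nat.dvd_one.1 (c2 ▸ Nat.dvd_gcd hdv hd))⟩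
  have hempty : (¬ V.Nonempty ∨ ¬ W.Nonempty) → E = ∅ := by
    intro hor
    refine eq_empty_of_forall_notMem fun x hx => ?_
    obtain ⟨h1, h2, _⟩ := h.hE x hx
    rcases hor with h3 | h3
    · exact h3 ⟨_, h1⟩
    · exact h3 ⟨_, h2⟩
  have hLam : 0 < Lam α β := Nat.mul_pos (Nat.div_pos (Nat.gcd_le_left _ h.hα) (Nat.gcd_pos_of_pos_left _ h.hα))
    (Nat.div_pos (Nat.gcd_le_right _ h.hβ) (Nat.gcd_pos_of_pos_left _ h.hα))
  have hg : 0 < G (Lam α β) := (hG.1 _ hLam).1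
  by_cases hVW : V.Nonempty ∧ W.Nonempty
  · obtain ⟨hVn, hWn⟩ := hVW
    have hZpos : ∀ U : Finset ℕ, U.Nonempty → (∀ v ∈ U, 0 < v) → 0 < Z U := by
      intro U hU hpos
      exact sum_pos (fun v hv => Nat.cast_pos.2 (hpos v hv)) hU
    have hZV := hZpos V hVn fun v hv => (h.hV v hv).1
    have hZW := hZpos W hWn fun v hv => (h.hW v hv).1
    have hP : (0 : ℝ) < p := Nat.cast_pos.2 hprime.pos
    rw [mul_sum]
    refine sum_le_sum fun y _ => ?_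
    have hsl := g1_slice h hprime hnd.1 hnd.2 y.1 y.2
    have hps := g1_ps p hprime y.1 y.2 V W (fun v hv => (h.hV v hv).1) (fun v hv => (h.hW v hv).1)
    have hI := IH _ _ _ _ _ _ hsl hps
    have hgr : G (Lam (α * p ^ y.1) (β * p ^ y.2)) ≤ (p : ℝ) ^ (((max y.1 y.2 - min y.1 y.2 : ℕ) : ℝ) / 80)
        * G (Lam α β) := by
      rw [g1_Lam α β p y.1 y.2 h.hα h.hβ hprime hnd.1 hnd.2]
      exact hG.2 _ _ _ hLam hprime
    refine (mul_le_mul_of_nonneg_left hI (by positivity)).trans ?_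
    exact g5_term M (G (Lam α β)) (G (Lam (α * p ^ y.1) (β * p ^ y.2))) L (Z V) (Z W) (Z (sl p y.1 V))
      (Z (sl p y.2 W)) (frac p V y.1) (frac p W y.2) p y.1 y.2 hM hP h.hL hZV hZW (g5_Z_nonneg _) (g5_Z_nonneg _)
      rfl rfl hgr
  · have hE : E = ∅ := hempty (not_and_or.1 hVW)
    have h1 : ∀ y ∈ I, (p : ℝ) ^ y.1 * (p : ℝ) ^ y.2 * Wt (slE p y.1 y.2 E) = 0 := by
      intro y _
      rw [hE]
      simp [slE, Wt]
    rw [sum_eq_zero h1]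
    have hfr : ∀ (U : Finset ℕ) (i : ℕ), 0 ≤ frac p U i := fun U i => by
      unfold frac
      exact div_nonneg (mul_nonneg (by positivity) (g5_Z_nonneg _)) (g5_Z_nonneg _)
    refine mul_nonneg (mul_nonneg (mul_nonneg (mul_nonneg hM hg.le) (Real.rpow_nonneg h.hL.le _))
      (Real.rpow_nonneg (mul_nonneg (g5_Z_nonneg _) (g5_Z_nonneg _)) _)) (sum_nonneg fun y _ => ?_)
    exact mul_nonneg (by positivity) (Real.rpow_nonneg (mul_nonneg (hfr _ _) (hfr _ _)) _)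

/-- the fractions are a probability vector (`g2_Z`) -/
theorem g5_frac (p : ℕ) (hp : p.Prime) (V : Finset ℕ) (hV : ∀ v ∈ V, 0 < v) (hne : V.Nonempty) (n : ℕ)
    (hn : ∀ v ∈ V, v.factorization p < n) :
    (∀ i, 0 ≤ frac p V i) ∧ ∑ i ∈ range n, frac p V i = 1 := by
  have hZ : 0 < Z V := sum_pos (fun v hv => Nat.cast_pos.2 (hV v hv)) hne
  refine ⟨fun i => ?_, ?_⟩
  · unfold frac
    exact div_nonneg (mul_nonneg (by positivity) (g5_Z_nonneg _)) (g5_Z_nonneg _)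
  · unfold frac
    rw [← sum_div, ← g2_Z p hp V hV n hn, div_self hZ.ne']

end Pool.Agent.H20G
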