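import Mathlib
import Pool.Agent.Lib.H20G.Defs
import Pool.Agent.Lib.H20G.D5
import Pool.Agent.Lib.H20G.G5

set_option autoImplicit false

/-!
# H20G chunk G6: the hub N of a concentrated configuration
-/

namespace Pool.Agent.H20G

open Finset

theorem g6_prime {V W : Finset ℕ} {p : ℕ} (hp : p ∈ ps V W) : p.Prime := by
  obtain ⟨v, _, hpv⟩ := mem_biUnion.1 hp
  exact Nat.prime_of_mem_primeFactors hpv

theorem g6_fact (S : Finset ℕ) (hS : ∀ p ∈ S, p.Prime) (Nf : ℕ → ℕ) (q : ℕ) :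
    (∏ p ∈ S, p ^ Nf p).factorization q = if q ∈ S then Nf q else 0 := by
  have h0 : ∀ p ∈ S, p ^ Nf p ≠ 0 := fun p hp => pow_ne_zero _ (hS p hp).ne_zero
  rw [Nat.factorization_prod h0, Finsupp.finsetSum_apply]
  have h1 : ∀ p ∈ S, (p ^ Nf p).factorization q = if p = q then Nf q else 0 := by
    intro p hp
    rw [(hS p hp).factorization_pow, Finsupp.single_apply]
    by_cases h : p = q
    · rw [if_pos h, if_pos h, h]
    · rw [if_neg h, if_neg h]
  rw [sum_congr rfl h1, sum_ite_eq']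

/-- elements of `V` divisible by `p` have at least half of the mass -/
theorem g6_half {V : Finset ℕ} (hV : ∀ v ∈ V, 0 < v) (hVn : V.Nonempty) {p : ℕ} (hp : p.Prime) {i : ℕ}
    (hi : i ≠ 0) (h : 1 / 2 ≤ frac p V i) : Z V / 2 ≤ ∑ v ∈ V.filter (fun v => p ∣ v), (v : ℝ) := by
  have hZ : 0 < Z V := sum_pos (fun v hv => Nat.cast_pos.2 (hV v hv)) hVn
  have hP : (0 : ℝ) < p := Nat.cast_pos.2 hp.pos
  have h1 : Z V / 2 ≤ (p : ℝ) ^ i * Z (sl p i V) := by
    unfold frac at h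
    rw [le_div_iff₀ hZ] at h
    linarith
  refine h1.trans ?_
  have hdv : ∀ v ∈ V.filter (fun v => v.factorization p = i), p ^ i ∣ v := by
    intro v hv
    rw [← (mem_filter.1 hv).2]
    exact Nat.ordProj_dvd v p
  have h2 : (p : ℝ) ^ i * Z (sl p i V) = ∑ v ∈ V.filter (fun v => v.factorization p = i), (v : ℝ) := by
    unfold Z sl
    rw [sum_image, mul_sum]
    · refine sum_congr rfl fun v hv => ?_
      obtain ⟨c, hc⟩ := hdv v hv
      rw [hc, Nat.mul_div_cancel_left _ (pow_pos hp.pos i)]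
      push_cast
      ring
    · intro v hv w hw hvw
      obtain ⟨c, hc⟩ := hdv v hv
      obtain ⟨d, hd⟩ := hdv w hw
      simp only at hvw
      rw [hc, hd, Nat.mul_div_cancel_left _ (pow_pos hp.pos i), Nat.mul_div_cancel_left _ (pow_pos hp.pos i)] at hvw
      rw [hc, hd, hvw]
  rw [h2]
  refine sum_le_sum_of_subset_of_nonneg ?_ fun v _ _ => Nat.cast_nonneg v
  intro v hv
  obtain ⟨hv1, hv2⟩ := mem_filter.1 hv
  refine mem_filter.2 ⟨hv1, ?_⟩
  have := hdv v hv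
  exact (dvd_pow_self p hi).trans this

/-- PROOF. `N := ∏_{p ∈ ps V W} p^{N_p}`. For `p ∣ N` we have `N_p ≥ 1`, so (as `frac p V N_p ≥ 1/2`) the elements `v ∈ V` divisible by `p` have
`∑ v ≥ Z_V/2`. Hence `∑_{p ∣ N} 1/p ≤ 2 ∑_{p ∣ N} (1/p) ∑_{v : p ∣ v} v/Z_V ≤ 2 ∑_v (v/Z_V) rp(v) ≤ 2 c0` (`rp v ≤ rp (α v) ≤ c0`).
`rp(lcm(α,β) N) ≤ rp α + rp β + rp N ≤ 4 c0` (`rp α ≤ rp (α v)` for some `v ∈ V`). The factorization of `N` at `p` is `Nf p` for `p ∈ ps V W`,
and `0` otherwise; `N` is coprime to `α, β` since each `p ∈ ps V W` divides an element of `V ∪ W`. -/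
theorem g6_hub {c0 : ℝ} {E0 : Set (ℕ × ℕ)} {α β : ℕ} {V W : Finset ℕ} {E : Finset (ℕ × ℕ)} {L : ℝ}
    (h : Cfg c0 E0 α β V W E L) (hV : V.Nonempty) (hW : W.Nonempty) (Nf : ℕ → ℕ)
    (hN : ∀ p ∈ ps V W, 1 / 2 ≤ frac p V (Nf p)) :
    ∃ N : ℕ, 0 < N ∧ Nat.Coprime N α ∧ Nat.Coprime N β ∧ rp (Nat.lcm α β * N) ≤ 4 * c0 ∧
      (∀ p ∈ ps V W, N.factorization p = Nf p) ∧ (∀ p ∉ ps V W, N.factorization p = 0) := by
  have hZ : 0 < Z V := sum_pos (fun v hv => Nat.cast_pos.2 (h.hV v hv).1) hV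
  have hcop : ∀ p ∈ ps V W, Nat.Coprime p α ∧ Nat.Coprime p β := by
    intro p hp
    obtain ⟨v, hv, hpv⟩ := mem_biUnion.1 hp
    have hdv := Nat.dvd_of_mem_primeFactors hpv
    rcases mem_union.1 hv with hv | hv
    · obtain ⟨_, c1, c2, _⟩ := h.hV v hv
      exact ⟨Nat.Coprime.coprime_dvd_left hdv c1, Nat.Coprime.coprime_dvd_left hdv c2⟩
    · obtain ⟨_, c1, c2, _⟩ := h.hW v hv
      exact ⟨Nat.Coprime.coprime_dvd_left hdv c1, Nat.Coprime.coprime_dvd_left hdv c2⟩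
  have hfact := g6_fact (ps V W) (fun p hp => g6_prime hp) Nf
  set N := ∏ p ∈ ps V W, p ^ Nf p with hNdef
  have hN0 : 0 < N := prod_pos fun p hp => pow_pos (g6_prime hp).pos _
  have hrN : rp N ≤ 2 * c0 := by
    have hpf : ∀ p ∈ N.primeFactors, p ∈ ps V W ∧ Nf p ≠ 0 := by
      intro p hp
      have h1 : N.factorization p ≠ 0 := by
        rw [← Finsupp.mem_support_iff, Nat.support_factorization]
        exact hp
      rw [hfact p] at h1
      by_cases h2 : p ∈ ps V W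
      · rw [if_pos h2] at h1
        exact ⟨h2, h1⟩
      · rw [if_neg h2] at h1
        exact absurd rfl h1
    have h1 : ∀ p ∈ N.primeFactors, (Z V / 2) * (1 / (p : ℝ)) ≤ ∑ v ∈ V, if p ∣ v then (v : ℝ) * (1 / p) else 0 := by
      intro p hp
      obtain ⟨hp1, hp2⟩ := hpf p hp
      have h2 := g6_half (fun v hv => (h.hV v hv).1) hV (g6_prime hp1) hp2 (hN p hp1)
      rw [← sum_filter, ← sum_mul]
      exact mul_le_mul_of_nonneg_right h2 (by positivity)
    have h2 : (Z V / 2) * rp N ≤ Z V * c0 := by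
      unfold rp
      rw [mul_sum]
      refine (sum_le_sum h1).trans ?_
      rw [sum_comm]
      unfold Z
      rw [sum_mul]
      refine sum_le_sum fun v hv => ?_
      rw [← sum_filter, ← mul_sum]
      refine mul_le_mul_of_nonneg_left ?_ (Nat.cast_nonneg v)
      obtain ⟨hv0, _, _, hv3⟩ := h.hV v hv
      refine le_trans ?_ hv3
      unfold rp
      refine sum_le_sum_of_subset_of_nonneg ?_ fun p _ _ => by positivity
      intro p hp
      obtain ⟨hp1, hp2⟩ := mem_filter.1 hp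
      rw [Nat.mem_primeFactors]
      exact ⟨Nat.prime_of_mem_primeFactors hp1, Dvd.dvd.mul_left hp2 α, (Nat.mul_pos h.hα hv0).ne'⟩
    have h3 : (Z V / 2) * rp N ≤ (Z V / 2) * (2 * c0) := by linarith
    exact le_of_mul_le_mul_left h3 (by linarith)
  have hrα : rp α ≤ c0 := by
    obtain ⟨v, hv⟩ := hV
    obtain ⟨hv0, _, _, hv3⟩ := h.hV v hv
    exact (d5_rp_mono (Dvd.intro _ rfl) (Nat.mul_pos h.hα hv0).ne').trans hv3
  have hrβ : rp β ≤ c0 := by
    obtain ⟨v, hv⟩ := hW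
    obtain ⟨hv0, _, _, hv3⟩ := h.hW v hv
    exact (d5_rp_mono (Dvd.intro _ rfl) (Nat.mul_pos h.hβ hv0).ne').trans hv3
  refine ⟨N, hN0, ?_, ?_, ?_, ?_, ?_⟩
  · exact Nat.Coprime.prod_left fun p hp => Nat.Coprime.pow_left _ (hcop p hp).1
  · exact Nat.Coprime.prod_left fun p hp => Nat.Coprime.pow_left _ (hcop p hp).2
  · have h1 := d5_rp_mul (Nat.lcm α β) N
    have h2 := d5_rp_lcm α β
    linarith
  · intro p hp
    rw [hfact p, if_pos hp]
  · intro p hp
    rw [hfact p, if_neg hp]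

end Pool.Agent.H20G
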