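import Mathlib
import Pool.Agent.Lib.H20G.Defs
import Pool.Agent.Lib.H20G.G1
import Pool.Agent.Lib.H20G.G2
import Pool.Agent.Lib.H20G.G3
import Pool.Agent.Lib.H20G.G4
import Pool.Agent.Lib.H20G.G5
import Pool.Agent.Lib.H20G.G6

set_option autoImplicit false

/-!
# H20G chunk G7: Theorem 1
-/

namespace Pool.Agent.H20G

open Finset

theorem g7_t34 {p : ℕ} (hp : 2 ≤ p) : ((p : ℝ) ^ (-(37 / 80) : ℝ)) ≤ 3 / 4 := by
  have h1 : (2 : ℝ) ^ (37 / 80 : ℝ) ≤ (p : ℝ) ^ (37 / 80 : ℝ) :=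
    Real.rpow_le_rpow (by norm_num) (by exact_mod_cast hp) (by norm_num)
  have h2 : (4 / 3 : ℝ) ≤ (2 : ℝ) ^ (37 / 80 : ℝ) := by
    have h3 : ((4 / 3 : ℝ)) ^ (80 : ℕ) ≤ ((2 : ℝ) ^ (37 / 80 : ℝ)) ^ (80 : ℕ) := by
      rw [← Real.rpow_natCast ((2 : ℝ) ^ (37 / 80 : ℝ)) 80, ← Real.rpow_mul (by norm_num)]
      norm_num
    exact le_of_pow_le_pow_left₀ (by norm_num) (by positivity) h3
  have h4 : (0 : ℝ) < (p : ℝ) ^ (37 / 80 : ℝ) := by
    have : (0 : ℝ) < p := by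
      have : 0 < p := by omega
      exact_mod_cast this
    positivity
  rw [Real.rpow_neg (by positivity), inv_le_comm₀ h4 (by norm_num)]
  norm_num
  linarith

/-- choice of `p0` -/
theorem g7_p0 (t0 C3 : ℝ) (ht0 : 0 < t0) (_hC3 : 0 < C3) : ∃ p0 : ℕ, 2 ≤ p0 ∧
    (∀ p : ℕ, p0 ≤ p → ((p : ℝ) ^ (-(37 / 80) : ℝ)) ≤ t0) ∧
    (∀ p : ℕ, p0 ≤ p → C3 * ((p : ℝ) ^ (-(37 / 80) : ℝ)) ^ (40 / 19 : ℝ) ≤ 1 / 2) ∧
    (∀ S : Finset ℕ, (∀ p ∈ S, p0 ≤ p) → ∑ p ∈ S, C3 * ((p : ℝ) ^ (-(37 / 80) : ℝ)) ^ (42 / 19 : ℝ) ≤ 1 / 2) := by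
  have ht : Filter.Tendsto (fun p : ℕ => ((p : ℝ) ^ (-(37 / 80) : ℝ))) Filter.atTop (nhds 0) :=
    (tendsto_rpow_neg_atTop (by norm_num : (0 : ℝ) < 37 / 80)).comp tendsto_natCast_atTop_atTop
  have e1 : ∀ᶠ p : ℕ in Filter.atTop, ((p : ℝ) ^ (-(37 / 80) : ℝ)) ≤ t0 :=
    (ht.eventually (Iio_mem_nhds ht0)).mono (fun p hp => le_of_lt hp)
  have e2 : ∀ᶠ p : ℕ in Filter.atTop, C3 * ((p : ℝ) ^ (-(37 / 80) : ℝ)) ^ (40 / 19 : ℝ) ≤ 1 / 2 := by
    have h1 : Filter.Tendsto (fun p : ℕ => C3 * ((p : ℝ) ^ (-(37 / 80) : ℝ)) ^ (40 / 19 : ℝ)) Filter.atTop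
        (nhds (C3 * (0 : ℝ) ^ (40 / 19 : ℝ))) :=
      (ht.rpow_const (Or.inr (by norm_num))).const_mul C3
    rw [Real.zero_rpow (by norm_num), mul_zero] at h1
    exact (h1.eventually (Iio_mem_nhds (by norm_num : (0 : ℝ) < 1 / 2))).mono (fun p hp => le_of_lt hp)
  have hsum : Summable (fun p : ℕ => C3 * ((p : ℝ) ^ (-(37 / 80) : ℝ)) ^ (42 / 19 : ℝ)) := by
    apply Summable.mul_left
    have h1 : (fun p : ℕ => ((p : ℝ) ^ (-(37 / 80) : ℝ)) ^ (42 / 19 : ℝ)) =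
        fun p : ℕ => (p : ℝ) ^ (-(777 / 760) : ℝ) := by
      funext p
      rw [← Real.rpow_mul (by positivity)]
      norm_num
    rw [h1]
    exact Real.summable_nat_rpow.2 (by norm_num)
  obtain ⟨s, hs⟩ := summable_iff_vanishing_norm.1 hsum (1 / 2) (by norm_num)
  obtain ⟨N1, hN1⟩ := Filter.eventually_atTop.1 e1
  obtain ⟨N2, hN2⟩ := Filter.eventually_atTop.1 e2
  refine ⟨max 2 (max (max N1 N2) (s.sup id + 1)), le_max_left _ _, ?_, ?_, ?_⟩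
  · intro p hp
    exact hN1 p (by omega)
  · intro p hp
    exact hN2 p (by omega)
  · intro S hS
    have hd : Disjoint S s := by
      rw [Finset.disjoint_left]
      intro p hp hps
      have h1 := hS p hp
      have h2 : p ≤ s.sup id := Finset.le_sup (f := id) hps
      omega
    have := hs S hd
    exact le_of_lt (lt_of_abs_lt (by simpa [Real.norm_eq_abs] using this))

theorem g7_Lam_pos {α β : ℕ} (hα : 0 < α) (hβ : 0 < β) : 0 < Lam α β := by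
  unfold Lam
  have h1 : 0 < α / Nat.gcd α β := Nat.div_pos (Nat.le_of_dvd hα (Nat.gcd_dvd_left _ _)) (Nat.gcd_pos_of_pos_left _ hα)
  have h2 : 0 < β / Nat.gcd α β := Nat.div_pos (Nat.le_of_dvd hβ (Nat.gcd_dvd_right _ _)) (Nat.gcd_pos_of_pos_left _ hα)
  exact Nat.mul_pos h1 h2

theorem g7_Z_nonneg (V : Finset ℕ) : 0 ≤ Z V := by
  unfold Z
  exact Finset.sum_nonneg (fun v _ => by positivity)

theorem g7_Wt_nonneg (E : Finset (ℕ × ℕ)) : 0 ≤ Wt E := by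
  unfold Wt
  exact Finset.sum_nonneg (fun v _ => by positivity)

theorem g7_Wt_union (E1 E2 : Finset (ℕ × ℕ)) : Wt (E1 ∪ E2) ≤ Wt E1 + Wt E2 := by
  unfold Wt
  rw [← Finset.sum_union_inter]
  have : 0 ≤ ∑ x ∈ E1 ∩ E2, (x.1 : ℝ) * x.2 := Finset.sum_nonneg (fun v _ => by positivity)
  linarith

theorem g7_Wt_bi {ι : Type*} [DecidableEq ι] (S : Finset ι) (F : ι → Finset (ℕ × ℕ)) :
    Wt (S.biUnion F) ≤ ∑ i ∈ S, Wt (F i) := by
  induction S using Finset.induction_on with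
  | empty => simp [Wt]
  | insert a S ha ih =>
    rw [Finset.biUnion_insert, Finset.sum_insert ha]
    have h3 := g7_Wt_union (F a) (S.biUnion F)
    linarith

theorem g7_Wt_cover {ι : Type*} [DecidableEq ι] (S : Finset ι) (E : Finset (ℕ × ℕ)) (E1 : Finset (ℕ × ℕ)) (F : ι → Finset (ℕ × ℕ))
    (h : ∀ x ∈ E, x ∈ E1 ∨ ∃ i ∈ S, x ∈ F i) : Wt E ≤ Wt E1 + ∑ i ∈ S, Wt (F i) := by
  have h1 : Wt E ≤ Wt (E1 ∪ S.biUnion F) := by
    unfold Wt
    apply Finset.sum_le_sum_of_subset_of_nonneg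
    · intro x hx
      rcases h x hx with h | ⟨i, hi, hx⟩
      · exact Finset.mem_union_left _ h
      · exact Finset.mem_union_right _ (Finset.mem_biUnion.2 ⟨i, hi, hx⟩)
    · intro x _ _
      positivity
  linarith [g7_Wt_union E1 (S.biUnion F), g7_Wt_bi S F]

theorem g7_all (p : ℕ) (hp : p.Prime) (E : Finset (ℕ × ℕ)) (hE : ∀ x ∈ E, 0 < x.1 ∧ 0 < x.2) (n : ℕ)
    (hn : ∀ x ∈ E, x.1.factorization p < n ∧ x.2.factorization p < n) :
    Wt E = ∑ y ∈ range n ×ˢ range n, (p : ℝ) ^ y.1 * (p : ℝ) ^ y.2 * Wt (slE p y.1 y.2 E) := by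
  rw [← g2_WtI p hp E hE]
  congr 1
  symm
  apply Finset.filter_true_of_mem
  intro x hx
  obtain ⟨h1, h2⟩ := hn x hx
  exact Finset.mem_product.2 ⟨Finset.mem_range.2 h1, Finset.mem_range.2 h2⟩

theorem g7_FF (t : ℝ) (n : ℕ) (a b : ℕ → ℝ) :
    ∑ y ∈ range n ×ˢ range n, t ^ (max y.1 y.2 - min y.1 y.2) * (a y.1 * b y.2) ^ (21 / 40 : ℝ) = FF t n a b := by
  unfold FF
  rw [Finset.sum_product]

theorem g7_bound (c0 C2 : ℝ) (hC2 : 0 < C2) : ∃ (p0 : ℕ) (Cs : ℝ), 0 < Cs ∧ ∀ (G : ℕ → ℝ), GrowthG G →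
    ∀ (E0 : Set (ℕ × ℕ)), HypG c0 C2 G E0 → ∀ (m : ℕ) (α β : ℕ) (V W : Finset ℕ) (E : Finset (ℕ × ℕ)) (L : ℝ),
    Cfg c0 E0 α β V W E L → (ps V W).card = m →
    Wt E ≤ Cs * 7 ^ ((ps V W).filter (fun p => p < p0)).card * G (Lam α β) * L ^ (19 / 20 : ℝ) *
      (Z V * Z W) ^ (21 / 40 : ℝ) := by
  obtain ⟨t0, C3, ht0, ht02, hC3, hconc⟩ := g3_conc
  obtain ⟨p0, hp02, hp0t, hp0h, hp0s⟩ := g7_p0 t0 C3 ht0 hC3
  set C1 : ℝ := 3 * (4 * C2) ^ (19 / 40 : ℝ) with hC1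
  have hC1pos : 0 < C1 := by positivity
  refine ⟨p0, 2 * C1, by positivity, ?_⟩
  intro G hG E0 hyp m
  induction m using Nat.strong_induction_on with
  | _ m IH =>
  intro α β V W E L h hm
  have hGpos : 0 < G (Lam α β) := (hG.1 _ (g7_Lam_pos h.hα h.hβ)).1
  have hLpos : 0 < L ^ (19 / 20 : ℝ) := Real.rpow_pos_of_pos h.hL _
  have hZ0 : 0 ≤ (Z V * Z W) ^ (21 / 40 : ℝ) :=
    Real.rpow_nonneg (mul_nonneg (g7_Z_nonneg _) (g7_Z_nonneg _)) _
  rcases V.eq_empty_or_nonempty with hVe | hVn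
  · have hE : E = ∅ := by
      rw [Finset.eq_empty_iff_forall_notMem]
      intro x hx
      have := (h.hE x hx).1
      rw [hVe] at this
      exact absurd this (Finset.notMem_empty _)
    rw [hE]
    have : Wt ∅ = 0 := by simp [Wt]
    rw [this]
    positivity
  rcases W.eq_empty_or_nonempty with hWe | hWn
  · have hE : E = ∅ := by
      rw [Finset.eq_empty_iff_forall_notMem]
      intro x hx
      have := (h.hE x hx).2.1
      rw [hWe] at this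
      exact absurd this (Finset.notMem_empty _)
    rw [hE]
    have : Wt ∅ = 0 := by simp [Wt]
    rw [this]
    positivity
  have hVpos : ∀ v ∈ V, 0 < v := fun v hv => (h.hV v hv).1
  have hWpos : ∀ w ∈ W, 0 < w := fun w hw => (h.hW w hw).1
  have hEpos : ∀ x ∈ E, 0 < x.1 ∧ 0 < x.2 := fun x hx =>
    ⟨hVpos _ (h.hE x hx).1, hWpos _ (h.hE x hx).2.1⟩
  set n : ℕ := (V ∪ W).sup id with hn
  have hnV : ∀ p : ℕ, ∀ v ∈ V, v.factorization p < n := by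
    intro p v hv
    have h1 : v ≤ n := Finset.le_sup (f := id) (Finset.mem_union_left _ hv)
    exact lt_of_lt_of_le (Nat.factorization_lt p (hVpos v hv).ne') h1
  have hnW : ∀ p : ℕ, ∀ w ∈ W, w.factorization p < n := by
    intro p w hw
    have h1 : w ≤ n := Finset.le_sup (f := id) (Finset.mem_union_right _ hw)
    exact lt_of_lt_of_le (Nat.factorization_lt p (hWpos w hw).ne') h1
  have hnE : ∀ p : ℕ, ∀ x ∈ E, x.1.factorization p < n ∧ x.2.factorization p < n := fun p x hx =>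
    ⟨hnV p _ (h.hE x hx).1, hnW p _ (h.hE x hx).2.1⟩
  have hpsprime : ∀ p ∈ ps V W, p.Prime := by
    intro p hp
    unfold ps at hp
    obtain ⟨v, _, hv⟩ := Finset.mem_biUnion.1 hp
    exact Nat.prime_of_mem_primeFactors hv
  have hfrV : ∀ p ∈ ps V W, (∀ i, 0 ≤ frac p V i) ∧ ∑ i ∈ range n, frac p V i = 1 := fun p hp =>
    g5_frac p (hpsprime p hp) V hVpos hVn n (hnV p)
  have hfrW : ∀ p ∈ ps V W, (∀ i, 0 ≤ frac p W i) ∧ ∑ i ∈ range n, frac p W i = 1 := fun p hp =>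
    g5_frac p (hpsprime p hp) W hWpos hWn n (hnW p)
  -- general induction hypothesis
  have IHg : ∀ p ∈ ps V W, ∀ (k : ℕ), ((ps V W).erase p |>.filter (fun p => p < p0)).card ≤ k →
      ∀ (α' β' : ℕ) (V' W' : Finset ℕ) (E' : Finset (ℕ × ℕ)) (L' : ℝ), Cfg c0 E0 α' β' V' W' E' L' →
      ps V' W' ⊆ (ps V W).erase p →
      Wt E' ≤ (2 * C1 * 7 ^ k) * G (Lam α' β') * L' ^ (19 / 20 : ℝ) * (Z V' * Z W') ^ (21 / 40 : ℝ) := by
    intro p hp k hk α' β' V' W' E' L' h' hsub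
    have hcard : (ps V' W').card < m := by
      calc (ps V' W').card ≤ ((ps V W).erase p).card := Finset.card_le_card hsub
        _ < (ps V W).card := Finset.card_erase_lt_of_mem hp
        _ = m := hm
    have h1 := IH _ hcard α' β' V' W' E' L' h' rfl
    refine h1.trans ?_
    have hG' : 0 < G (Lam α' β') := (hG.1 _ (g7_Lam_pos h'.hα h'.hβ)).1
    have hL' : 0 < L' ^ (19 / 20 : ℝ) := Real.rpow_pos_of_pos h'.hL _
    have hZ' : 0 ≤ (Z V' * Z W') ^ (21 / 40 : ℝ) :=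
      Real.rpow_nonneg (mul_nonneg (g7_Z_nonneg _) (g7_Z_nonneg _)) _
    have h7 : (7 : ℝ) ^ ((ps V' W').filter (fun p => p < p0)).card ≤ 7 ^ k := by
      apply pow_le_pow_right₀ (by norm_num)
      refine le_trans (Finset.card_le_card ?_) hk
      exact Finset.filter_subset_filter _ hsub
    gcongr
  by_cases hsmall : ∃ p ∈ ps V W, p < p0
  · -- case 1
    obtain ⟨p, hp, hpp0⟩ := hsmall
    have hpr := hpsprime p hp
    set k := ((ps V W).filter (fun p => p < p0)).card with hk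
    have hk1 : ((ps V W).erase p |>.filter (fun p => p < p0)).card = k - 1 := by
      rw [Finset.filter_erase, Finset.card_erase_of_mem (Finset.mem_filter.2 ⟨hp, hpp0⟩)]
    have hkpos : 0 < k := Finset.card_pos.2 ⟨p, Finset.mem_filter.2 ⟨hp, hpp0⟩⟩
    have h1 := g5_step hG h p hp (2 * C1 * 7 ^ (k - 1)) (by positivity) (IHg p hp (k - 1) hk1.le) (range n ×ˢ range n)
    rw [← g7_all p hpr E hEpos n (hnE p), g7_FF] at h1
    have h2 : FF ((p : ℝ) ^ (-(37 / 80) : ℝ)) n (frac p V) (frac p W) ≤ 7 :=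
      g3_le _ (by positivity) (g7_t34 hpr.two_le) n _ _ (hfrV p hp).1 (hfrW p hp).1 (hfrV p hp).2 (hfrW p hp).2
    calc Wt E ≤ _ := h1
      _ ≤ (2 * C1 * 7 ^ (k - 1)) * G (Lam α β) * L ^ (19 / 20 : ℝ) * (Z V * Z W) ^ (21 / 40 : ℝ) * 7 := by
          gcongr
      _ = 2 * C1 * 7 ^ k * G (Lam α β) * L ^ (19 / 20 : ℝ) * (Z V * Z W) ^ (21 / 40 : ℝ) := by
          have : (7 : ℝ) ^ k = 7 ^ (k - 1) * 7 := by
            rw [← pow_succ]
            congr 1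
            omega
          rw [this]
          ring
  push Not at hsmall
  have hfe : (ps V W).filter (fun p => p < p0) = ∅ := by
    rw [Finset.filter_eq_empty_iff]
    intro p hp
    have := hsmall p hp
    omega
  rw [hfe, Finset.card_empty, pow_zero, mul_one]
  have IH0 : ∀ p ∈ ps V W, ∀ (α' β' : ℕ) (V' W' : Finset ℕ) (E' : Finset (ℕ × ℕ)) (L' : ℝ), Cfg c0 E0 α' β' V' W' E' L' →
      ps V' W' ⊆ (ps V W).erase p →
      Wt E' ≤ (2 * C1) * G (Lam α' β') * L' ^ (19 / 20 : ℝ) * (Z V' * Z W') ^ (21 / 40 : ℝ) := by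
    intro p hp α' β' V' W' E' L' h' hsub
    have h1 := IHg p hp 0 (by
      rw [Finset.filter_erase, hfe]
      simp) α' β' V' W' E' L' h' hsub
    simpa using h1
  by_cases hle : ∃ p ∈ ps V W, FF ((p : ℝ) ^ (-(37 / 80) : ℝ)) n (frac p V) (frac p W) ≤ 1
  · obtain ⟨p, hp, hpF⟩ := hle
    have hpr := hpsprime p hp
    have h1 := g5_step hG h p hp (2 * C1) (by positivity) (IH0 p hp) (range n ×ˢ range n)
    rw [← g7_all p hpr E hEpos n (hnE p), g7_FF] at h1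
    calc Wt E ≤ _ := h1
      _ ≤ (2 * C1) * G (Lam α β) * L ^ (19 / 20 : ℝ) * (Z V * Z W) ^ (21 / 40 : ℝ) * 1 := by
          gcongr
      _ = _ := by ring
  push Not at hle
  -- case 3
  have hconc' : ∀ p ∈ ps V W, ∃ N < n, 1 - frac p V N ≤ 1 / 2 ∧
      ∑ i ∈ (range n).erase N, ∑ j ∈ (range n).erase N, ((p : ℝ) ^ (-(37 / 80) : ℝ)) ^ (max i j - min i j) *
        (frac p V i * frac p W j) ^ (21 / 40 : ℝ) ≤ C3 * ((p : ℝ) ^ (-(37 / 80) : ℝ)) ^ (42 / 19 : ℝ) := by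
    intro p hp
    have hpr := hpsprime p hp
    have hppos : (0 : ℝ) < p := by exact_mod_cast hpr.pos
    obtain ⟨N, hN, h1, -, h3⟩ := hconc ((p : ℝ) ^ (-(37 / 80) : ℝ)) (Real.rpow_pos_of_pos hppos _)
      (hp0t p (hsmall p hp)) n (frac p V) (frac p W) (hfrV p hp).1 (hfrW p hp).1 (hfrV p hp).2 (hfrW p hp).2 (hle p hp)
    exact ⟨N, hN, h1.trans (hp0h p (hsmall p hp)), h3⟩
  choose! Nf hNfn hNfV hNfS using hconc'
  obtain ⟨N, hN, hNα, hNβ, hNrp, hNf, hNf0⟩ := g6_hub h hVn hWn Nf (fun p hp => by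
    have := hNfV p hp
    linarith)
  classical
  set Eg : Finset (ℕ × ℕ) := E.filter (fun x => GoodP N x.1 x.2) with hEg
  set I : ℕ → Finset (ℕ × ℕ) := fun p => ((range n).erase (Nf p)) ×ˢ ((range n).erase (Nf p)) with hI
  set Eb : ℕ → Finset (ℕ × ℕ) := fun p => E.filter (fun x => (x.1.factorization p, x.2.factorization p) ∈ I p) with hEb
  have hcover : ∀ x ∈ E, x ∈ Eg ∨ ∃ p ∈ ps V W, x ∈ Eb p := by
    intro x hx
    by_cases hg : GoodP N x.1 x.2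
    · exact Or.inl (Finset.mem_filter.2 ⟨hx, hg⟩)
    · right
      unfold GoodP at hg
      push Not at hg
      obtain ⟨p, hpp, h1, h2⟩ := hg
      have hpps : p ∈ ps V W := by
        by_contra hnp
        rw [hNf0 p hnp] at h1
        apply h1
        have hx1 := (h.hE x hx).1
        have : p ∉ x.1.primeFactors := by
          intro hc
          exact hnp (Finset.mem_biUnion.2 ⟨x.1, Finset.mem_union_left _ hx1, hc⟩)
        rw [← Nat.support_factorization] at this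
        exact Finsupp.notMem_support_iff.1 this
      refine ⟨p, hpps, Finset.mem_filter.2 ⟨hx, ?_⟩⟩
      rw [hNf p hpps] at h1 h2
      obtain ⟨h3, h4⟩ := hnE p x hx
      exact Finset.mem_product.2 ⟨Finset.mem_erase.2 ⟨h1, Finset.mem_range.2 h3⟩,
        Finset.mem_erase.2 ⟨h2, Finset.mem_range.2 h4⟩⟩
  have hmain := g7_Wt_cover (ps V W) E Eg Eb hcover
  have hgood : Wt Eg ≤ C1 * G (Lam α β) * L ^ (19 / 20 : ℝ) * (Z V * Z W) ^ (21 / 40 : ℝ) := by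
    have hcfg : Cfg c0 E0 α β V W Eg L := by
      refine ⟨h.hα, h.hβ, h.hL, h.hV, h.hW, ?_⟩
      intro x hx
      exact h.hE x (Finset.mem_filter.1 hx).1
    exact g4_good hC2 hG hyp hcfg N hN hNα hNβ hNrp (fun x hx => (Finset.mem_filter.1 hx).2)
  have hbad : ∀ p ∈ ps V W, Wt (Eb p) ≤ 2 * C1 * G (Lam α β) * L ^ (19 / 20 : ℝ) * (Z V * Z W) ^ (21 / 40 : ℝ) *
      (C3 * ((p : ℝ) ^ (-(37 / 80) : ℝ)) ^ (42 / 19 : ℝ)) := by
    intro p hp
    have hpr := hpsprime p hp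
    have h1 := g5_step hG h p hp (2 * C1) (by positivity) (IH0 p hp) (I p)
    have h2 : Wt (Eb p) = ∑ y ∈ I p, (p : ℝ) ^ y.1 * (p : ℝ) ^ y.2 * Wt (slE p y.1 y.2 E) :=
      g2_WtI p hpr E hEpos (I p)
    rw [h2]
    refine h1.trans ?_
    have h3 : ∑ y ∈ I p, ((p : ℝ) ^ (-(37 / 80) : ℝ)) ^ (max y.1 y.2 - min y.1 y.2) *
          (frac p V y.1 * frac p W y.2) ^ (21 / 40 : ℝ) ≤ C3 * ((p : ℝ) ^ (-(37 / 80) : ℝ)) ^ (42 / 19 : ℝ) := by
      simp only [hI]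
      rw [Finset.sum_product]
      exact hNfS p hp
    gcongr
  have hbsum : ∑ p ∈ ps V W, Wt (Eb p) ≤ 2 * C1 * G (Lam α β) * L ^ (19 / 20 : ℝ) * (Z V * Z W) ^ (21 / 40 : ℝ) * (1 / 2) := by
    calc ∑ p ∈ ps V W, Wt (Eb p) ≤ ∑ p ∈ ps V W, 2 * C1 * G (Lam α β) * L ^ (19 / 20 : ℝ) * (Z V * Z W) ^ (21 / 40 : ℝ) *
          (C3 * ((p : ℝ) ^ (-(37 / 80) : ℝ)) ^ (42 / 19 : ℝ)) := Finset.sum_le_sum hbad
      _ = 2 * C1 * G (Lam α β) * L ^ (19 / 20 : ℝ) * (Z V * Z W) ^ (21 / 40 : ℝ) *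
          ∑ p ∈ ps V W, (C3 * ((p : ℝ) ^ (-(37 / 80) : ℝ)) ^ (42 / 19 : ℝ)) := by rw [Finset.mul_sum]
      _ ≤ _ := by
          have := hp0s (ps V W) hsmall
          gcongr
  linarith

/-- THEOREM 1. PROOF. Let `t0, C3` be from `g3_conc`, `t_p = p^{-37/80}` (`≤ 2^{-37/80} ≤ 3/4`). Choose `p0` such that `t_{p0} ≤ t0`, `C3 t_p^{40/19} ≤ 1/2` for
`p ≥ p0` and `∑_{n ≥ p0} C3 n^{-777/760} ≤ 1/2` (`(37/80)(42/19) = 777/760 > 1`, `Real.summable_nat_rpow`). `C1 = 3 (4 C2)^{19/40}`, `Cs = 2 C1`.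
CLAIM, by strong induction on `(ps V W).card`: for every configuration
`Wt E ≤ Cs 7^{#{p ∈ ps V W : p < p0}} G(Lam α β) L^{19/20} (Z V Z W)^{21/40}`.
`V` or `W` empty: `E` empty. Let `n` be larger than all exponents.
(1) Some `p ∈ ps V W` with `p < p0`: `Wt E = ∑_{i,j<n}` (`g2_WtI` with `I = range n ×ˢ range n`), `g5_step` with `M = Cs 7^{#-1}` and `g3_le`.
(2) All `p ≥ p0`, some `p` with `FF ≤ 1`: the same with `g5_step`, `M = Cs`.
(3) Otherwise `1 < FF t_p n (frac p V) (frac p W)` for all `p ∈ ps V W`: `g3_conc` gives `Nf p`. The edges with both exponents `≠ Nf p` have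
`Wt ≤ bound · C3 t_p^{42/19}` (`g2_WtI`, `g5_step` with `I = (range n).erase (Nf p) ×ˢ (range n).erase (Nf p)`, `M = Cs`), the sum over `p` is `≤ bound/2`
(distinct integers `≥ p0`). The remaining edges are good for `N` of `g6_hub` (for `p ∉ ps V W` all exponents are `0`), `g4_good` (the
configuration with `E` restricted): `≤ C1 ... = bound/2`.
Finally, for `α = β = 1`: `#{p < p0} ≤ p0`, `C = Cs 7^{p0}`, `Lam 1 1 = 1`. -/
theorem g7_thm1 (c0 C2 : ℝ) (hC2 : 0 < C2) : ∃ C : ℝ, 0 < C ∧ ∀ (G : ℕ → ℝ), GrowthG G →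
    ∀ (E0 : Set (ℕ × ℕ)), HypG c0 C2 G E0 → ∀ (V W : Finset ℕ) (E : Finset (ℕ × ℕ)) (L : ℝ),
    Cfg c0 E0 1 1 V W E L → Wt E ≤ C * G 1 * L ^ (19 / 20 : ℝ) * (Z V * Z W) ^ (21 / 40 : ℝ) := by
  obtain ⟨p0, Cs, hCs, hb⟩ := g7_bound c0 C2 hC2
  refine ⟨Cs * 7 ^ p0, by positivity, ?_⟩
  intro G hG E0 hyp V W E L h
  have h1 := hb G hG E0 hyp _ 1 1 V W E L h rfl
  have hL1 : Lam 1 1 = 1 := by decide
  rw [hL1] at h1
  refine h1.trans ?_
  have hG1 : 0 < G 1 := (hG.1 1 one_pos).1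
  have hLpos : 0 < L ^ (19 / 20 : ℝ) := Real.rpow_pos_of_pos h.hL _
  have hZ0 : 0 ≤ (Z V * Z W) ^ (21 / 40 : ℝ) :=
    Real.rpow_nonneg (mul_nonneg (g7_Z_nonneg _) (g7_Z_nonneg _)) _
  have h7 : (7 : ℝ) ^ ((ps V W).filter (fun p => p < p0)).card ≤ 7 ^ p0 := by
    apply pow_le_pow_right₀ (by norm_num)
    calc ((ps V W).filter (fun p => p < p0)).card ≤ (range p0).card := by
          apply Finset.card_le_card
          intro p hp
          exact Finset.mem_range.2 (Finset.mem_filter.1 hp).2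
      _ = p0 := Finset.card_range p0
  gcongr

end Pool.Agent.H20G
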