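import Mathlib
import Pool.Agent.Lib.H20G.Defs
import Pool.Agent.Lib.H20G.D2
import Pool.Agent.Lib.H20G.D5
import Pool.Agent.Lib.H20G.G7

set_option autoImplicit false

/-!
# H20G chunk G8: the two corollaries of Theorem 1
-/

namespace Pool.Agent.H20G

open Finset

/-- Sum of `β'/h` over the divisors `h` of `N` divisible by `β'`: `h = β' h1`, `h1 ∣ N/β'`: `≤ exp(2 rp N)` (`d2_inv` and monotonicity of the sum). -/
theorem g8_sum (N b : ℕ) (hN : 0 < N) (hb : b ∣ N) :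
    ∑ h ∈ N.divisors.filter (fun h => b ∣ h), (b : ℝ) / h ≤ Real.exp (2 * rp N) := by
  have hb0 : 0 < b := Nat.pos_of_dvd_of_pos hb hN
  have himg : N.divisors.filter (fun h => b ∣ h) = (N / b).divisors.image (fun m => b * m) := by
    ext h
    rw [mem_filter, Nat.mem_divisors, mem_image]
    constructor
    · rintro ⟨⟨h1, _⟩, m, rfl⟩
      refine ⟨m, ?_, rfl⟩
      rw [Nat.mem_divisors]
      refine ⟨?_, (Nat.div_pos (Nat.le_of_dvd hN hb) hb0).ne'⟩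
      exact (Nat.dvd_div_iff_mul_dvd hb).2 h1
    · rintro ⟨m, hm, rfl⟩
      rw [Nat.mem_divisors] at hm
      exact ⟨⟨(Nat.dvd_div_iff_mul_dvd hb).1 hm.1, hN.ne'⟩, Dvd.intro _ rfl⟩
  have hbR : (b : ℝ) ≠ 0 := Nat.cast_ne_zero.2 hb0.ne'
  rw [himg, sum_image (fun x _ y _ hxy => Nat.eq_of_mul_eq_mul_left hb0 hxy)]
  have h1 : ∀ m ∈ (N / b).divisors, (b : ℝ) / ((b * m : ℕ) : ℝ) = 1 / (m : ℝ) := by
    intro m hm
    have hm0 : (m : ℝ) ≠ 0 := Nat.cast_ne_zero.2 (Nat.pos_of_mem_divisors hm).ne'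
    push_cast
    field_simp
  rw [sum_congr rfl h1]
  refine (d2_inv (N / b) (Nat.div_pos (Nat.le_of_dvd hN hb) hb0)).trans ?_
  refine Real.exp_le_exp.2 ?_
  have := d5_rp_mono (Nat.div_dvd_of_dvd hb) hN.ne'
  linarith


theorem g8_card (E0 : Set (ℕ × ℕ)) (N h h' k k' : ℕ) :
    ((Bl E0 N h h' (2 ^ k) (2 ^ k')).card : ℝ) ≤ (2 : ℝ) ^ k * 2 ^ k' := by
  have h1 : (Bl E0 N h h' (2 ^ k) (2 ^ k')).card ≤ 2 ^ k * 2 ^ k' := by
    unfold Bl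
    refine (@card_filter_le _ _ _ (_)).trans (le_of_eq ?_)
    rw [card_product, Nat.card_Ico, Nat.card_Ico]
    congr 1 <;> omega
  exact_mod_cast h1

theorem g8_dbl (c0 : ℝ) (N a b : ℕ) (hN : 0 < N) (ha : a ∣ N) (hb : b ∣ N) (hr : rp N ≤ 4 * c0) :
    ∑ h ∈ N.divisors.filter (fun h => b ∣ h), ∑ h' ∈ N.divisors.filter (fun h' => a ∣ h'),
      ((a : ℝ) * b / (h * h')) ≤ Real.exp (16 * c0) := by
  have e : ∑ h ∈ N.divisors.filter (fun h => b ∣ h), ∑ h' ∈ N.divisors.filter (fun h' => a ∣ h'),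
      ((a : ℝ) * b / (h * h')) = (∑ h ∈ N.divisors.filter (fun h => b ∣ h), (b : ℝ) / h) *
        ∑ h' ∈ N.divisors.filter (fun h' => a ∣ h'), (a : ℝ) / h' := by
    rw [sum_mul_sum]
    refine sum_congr rfl fun h _ => sum_congr rfl fun h' _ => ?_
    rw [div_mul_div_comm, mul_comm (b : ℝ)]
  rw [e]
  have h1 := g8_sum N b hN hb
  have h2 := g8_sum N a hN ha
  have h3 : 0 ≤ ∑ h' ∈ N.divisors.filter (fun h' => a ∣ h'), (a : ℝ) / h' := sum_nonneg fun _ _ => by positivity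
  calc _ ≤ Real.exp (2 * rp N) * Real.exp (2 * rp N) := mul_le_mul h1 h2 h3 (Real.exp_pos _).le
    _ = Real.exp (4 * rp N) := by
      rw [← Real.exp_add]
      congr 1
      ring
    _ ≤ Real.exp (16 * c0) := Real.exp_le_exp.2 (by linarith)

theorem g8_triv (c0 : ℝ) (E0 : Set (ℕ × ℕ)) (N a b : ℕ) (hN : 0 < N) (ha : a ∣ N) (hb : b ∣ N)
    (hr : rp N ≤ 4 * c0) (k k' : ℕ) :
    ∑ h ∈ N.divisors.filter (fun h => b ∣ h), ∑ h' ∈ N.divisors.filter (fun h' => a ∣ h'),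
      ((a : ℝ) * b / (h * h')) * ((Bl E0 N h h' (2 ^ k) (2 ^ k')).card : ℝ)
      ≤ Real.exp (16 * c0) * ((2 : ℝ) ^ k * 2 ^ k') := by
  calc _ ≤ ∑ h ∈ N.divisors.filter (fun h => b ∣ h), ∑ h' ∈ N.divisors.filter (fun h' => a ∣ h'),
      ((a : ℝ) * b / (h * h')) * ((2 : ℝ) ^ k * 2 ^ k') :=
        sum_le_sum fun h _ => sum_le_sum fun h' _ => mul_le_mul_of_nonneg_left (g8_card E0 N h h' k k') (by positivity)
    _ = (∑ h ∈ N.divisors.filter (fun h => b ∣ h), ∑ h' ∈ N.divisors.filter (fun h' => a ∣ h'),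
      ((a : ℝ) * b / (h * h'))) * ((2 : ℝ) ^ k * 2 ^ k') := by
        rw [sum_mul]
        refine sum_congr rfl fun h _ => ?_
        rw [sum_mul]
    _ ≤ _ := mul_le_mul_of_nonneg_right (g8_dbl c0 N a b hN ha hb hr) (by positivity)

theorem g8_cfg {c0 : ℝ} (E0 : Set (ℕ × ℕ)) {V W : Finset ℕ} {E : Finset (ℕ × ℕ)} {L : ℝ} (hL : 0 < L)
    (hV : ∀ v ∈ V, 0 < v ∧ rp v ≤ c0) (hW : ∀ w ∈ W, 0 < w ∧ rp w ≤ c0)
    (hE : ∀ x ∈ E, x.1 ∈ V ∧ x.2 ∈ W ∧ ((Nat.lcm x.1 x.2 : ℕ) : ℝ) ≤ L) (hE0 : ∀ x ∈ E, x ∈ E0) :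
    Cfg c0 E0 1 1 V W E L where
  hα := Nat.one_pos
  hβ := Nat.one_pos
  hL := hL
  hV := fun v hv => ⟨(hV v hv).1, Nat.coprime_one_right v, Nat.coprime_one_right v, by
    rw [one_mul]
    exact (hV v hv).2⟩
  hW := fun v hv => ⟨(hW v hv).1, Nat.coprime_one_right v, Nat.coprime_one_right v, by
    rw [one_mul]
    exact (hW v hv).2⟩
  hE := fun x hx => ⟨(hE x hx).1, (hE x hx).2.1, by
    rw [one_mul, one_mul]
    exact hE0 x hx, (hE x hx).2.2⟩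

/-- Plain corollary: `G = 1`, `E0 = univ`, `#Bl ≤ 2^k 2^k'`, `C2 = exp(16 c0)`. -/
theorem g8_plain (c0 : ℝ) : ∃ C : ℝ, 0 < C ∧ ∀ (V W : Finset ℕ) (E : Finset (ℕ × ℕ)) (L : ℝ), 0 < L →
    (∀ v ∈ V, 0 < v ∧ rp v ≤ c0) → (∀ w ∈ W, 0 < w ∧ rp w ≤ c0) →
    (∀ x ∈ E, x.1 ∈ V ∧ x.2 ∈ W ∧ ((Nat.lcm x.1 x.2 : ℕ) : ℝ) ≤ L) →
    Wt E ≤ C * L ^ (19 / 20 : ℝ) * (Z V * Z W) ^ (21 / 40 : ℝ) := by
  obtain ⟨C, hC, h⟩ := g7_thm1 c0 (Real.exp (16 * c0)) (Real.exp_pos _)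
  refine ⟨C, hC, fun V W E L hL hV hW hE => ?_⟩
  have hG : GrowthG fun _ => (1 : ℝ) := by
    refine ⟨fun n _ => ⟨one_pos, le_refl 1⟩, fun Λ p k _ hp => ?_⟩
    rw [mul_one]
    exact Real.one_le_rpow (by exact_mod_cast hp.one_lt.le) (by positivity)
  have hyp : HypG c0 (Real.exp (16 * c0)) (fun _ => (1 : ℝ)) Set.univ := by
    intro N a b hN hr _ ha hb k k'
    have := g8_triv c0 Set.univ N a b hN ha hb hr k k'
    rw [Real.one_rpow, mul_one]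
    exact this
  have h1 := h (fun _ => 1) hG Set.univ hyp V W E L (g8_cfg _ hL hV hW hE fun _ _ => Set.mem_univ _)
  rw [mul_one] at h1
  exact h1

/-- hypothesis (H_K) -/
def HypK (c0 K : ℝ) (E : Finset (ℕ × ℕ)) : Prop :=
  ∀ N : ℕ, 0 < N → rp N ≤ 4 * c0 → ∀ k k' : ℕ,
    ∑ h ∈ N.divisors, ∑ h' ∈ N.divisors, (1 / ((h : ℝ) * h')) *
      max 0 (((Bl (E : Set (ℕ × ℕ)) N h h' (2 ^ k) (2 ^ k')).card : ℝ) - K ^ (-(1 / 4) : ℝ) * ((2 : ℝ) ^ k * 2 ^ k'))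
      ≤ K ^ (-6 : ℝ) * ((2 : ℝ) ^ k * 2 ^ k')

/-- the gain function -/
noncomputable def g8G (K : ℝ) (n : ℕ) : ℝ := min 1 (K ^ (-(1 / 16) : ℝ) * (n : ℝ) ^ (1 / 80 : ℝ))

theorem g8G_growth (K : ℝ) (hK : 1 ≤ K) : GrowthG (g8G K) := by
  have hK0 : 0 < K := by linarith
  refine ⟨fun n hn => ⟨?_, min_le_left _ _⟩, fun Λ p k hΛ hp => ?_⟩
  · have hn' : (0 : ℝ) < n := Nat.cast_pos.2 hn
    exact lt_min one_pos (mul_pos (Real.rpow_pos_of_pos hK0 _) (Real.rpow_pos_of_pos hn' _))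
  · have hp1 : (1 : ℝ) ≤ p := by exact_mod_cast hp.one_lt.le
    have ht : (1 : ℝ) ≤ (p : ℝ) ^ ((k : ℝ) / 80) := Real.one_le_rpow hp1 (by positivity)
    have e : ((Λ * p ^ k : ℕ) : ℝ) ^ (1 / 80 : ℝ) = (Λ : ℝ) ^ (1 / 80 : ℝ) * (p : ℝ) ^ ((k : ℝ) / 80) := by
      push_cast
      rw [Real.mul_rpow (by positivity) (by positivity), ← Real.rpow_natCast (p : ℝ) k, ← Real.rpow_mul (by positivity)]
      congr 2
      ring
    unfold g8G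
    rw [e, mul_min_of_nonneg _ _ (by linarith : (0 : ℝ) ≤ (p : ℝ) ^ ((k : ℝ) / 80))]
    refine le_min ?_ ?_
    · rw [mul_one]
      exact (min_le_left _ _).trans ht
    · refine (min_le_right _ _).trans (le_of_eq ?_)
      ring

theorem g8_hyp (c0 K : ℝ) (hK : 1 ≤ K) (E : Finset (ℕ × ℕ)) (hE : HypK c0 K E) :
    HypG c0 (2 * Real.exp (16 * |c0|)) (g8G K) (E : Set (ℕ × ℕ)) := by
  have hK0 : 0 < K := by linarith
  intro N a b hN hr _ ha hb k k'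
  have ha0 : 0 < a := Nat.pos_of_dvd_of_pos ha hN
  have hb0 : 0 < b := Nat.pos_of_dvd_of_pos hb hN
  have hab : (1 : ℝ) ≤ ((a * b : ℕ) : ℝ) := by exact_mod_cast Nat.mul_pos ha0 hb0
  have hXX : (0 : ℝ) < (2 : ℝ) ^ k * 2 ^ k' := by positivity
  have hexp : Real.exp (16 * c0) ≤ Real.exp (16 * |c0|) := Real.exp_le_exp.2 (by have := le_abs_self c0; linarith)
  have hexp1 : 1 ≤ Real.exp (16 * |c0|) := Real.one_le_exp (by have := abs_nonneg c0; linarith)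
  by_cases hcase : ((a * b : ℕ) : ℝ) ≤ K ^ (5 : ℕ)
  · -- small Λ
    have hG1 : K ^ (-(1 / 4) : ℝ) ≤ (g8G K (a * b)) ^ (40 / 19 : ℝ) := by
      have h1 : K ^ (-(1 / 16) : ℝ) ≤ g8G K (a * b) := by
        refine le_min (Real.rpow_le_one_of_one_le_of_nonpos hK (by norm_num)) ?_
        have h2 : (1 : ℝ) ≤ ((a * b : ℕ) : ℝ) ^ (1 / 80 : ℝ) := Real.one_le_rpow hab (by norm_num)
        exact le_mul_of_one_le_right (Real.rpow_nonneg hK0.le _) h2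
      have h3 := Real.rpow_le_rpow (Real.rpow_nonneg hK0.le _) h1 (by norm_num : (0 : ℝ) ≤ 40 / 19)
      rw [← Real.rpow_mul hK0.le] at h3
      refine le_trans ?_ h3
      exact Real.rpow_le_rpow_of_exponent_le hK (by norm_num)
    have hpt : ∀ h h' : ℕ, ((a : ℝ) * b / (h * h')) * ((Bl (E : Set (ℕ × ℕ)) N h h' (2 ^ k) (2 ^ k')).card : ℝ) ≤
        ((a : ℝ) * b / (h * h')) * (K ^ (-(1 / 4) : ℝ) * ((2 : ℝ) ^ k * 2 ^ k')) + ((a : ℝ) * b) * ((1 / ((h : ℝ) * h')) *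
          max 0 (((Bl (E : Set (ℕ × ℕ)) N h h' (2 ^ k) (2 ^ k')).card : ℝ)
            - K ^ (-(1 / 4) : ℝ) * ((2 : ℝ) ^ k * 2 ^ k'))) := by
      intro h h'
      have h1 := le_max_right 0 (((Bl (E : Set (ℕ × ℕ)) N h h' (2 ^ k) (2 ^ k')).card : ℝ)
            - K ^ (-(1 / 4) : ℝ) * ((2 : ℝ) ^ k * 2 ^ k'))
      have h2 : 0 ≤ (a : ℝ) * b / (h * h') := by positivity
      have h3 := mul_le_mul_of_nonneg_left h1 h2
      have e : ((a : ℝ) * b) * ((1 / ((h : ℝ) * h')) *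
          max 0 (((Bl (E : Set (ℕ × ℕ)) N h h' (2 ^ k) (2 ^ k')).card : ℝ)
            - K ^ (-(1 / 4) : ℝ) * ((2 : ℝ) ^ k * 2 ^ k'))) = ((a : ℝ) * b / (h * h')) *
          max 0 (((Bl (E : Set (ℕ × ℕ)) N h h' (2 ^ k) (2 ^ k')).card : ℝ)
            - K ^ (-(1 / 4) : ℝ) * ((2 : ℝ) ^ k * 2 ^ k')) := by ring
      rw [e]
      linarith
    have hA := g8_dbl c0 N a b hN ha hb hr
    have hB := hE N hN hr k k'
    have hB' : ∑ h ∈ N.divisors.filter (fun h => b ∣ h), ∑ h' ∈ N.divisors.filter (fun h' => a ∣ h'),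
        (1 / ((h : ℝ) * h')) * max 0 (((Bl (E : Set (ℕ × ℕ)) N h h' (2 ^ k) (2 ^ k')).card : ℝ)
            - K ^ (-(1 / 4) : ℝ) * ((2 : ℝ) ^ k * 2 ^ k')) ≤ K ^ (-6 : ℝ) * ((2 : ℝ) ^ k * 2 ^ k') := by
      refine le_trans ?_ hB
      refine (sum_le_sum fun h _ => sum_le_sum_of_subset_of_nonneg (filter_subset _ _) fun h' _ _ =>
        mul_nonneg (by positivity) (le_max_left _ _)).trans ?_
      exact sum_le_sum_of_subset_of_nonneg (filter_subset _ _) fun h _ _ => sum_nonneg fun h' _ =>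
        mul_nonneg (by positivity) (le_max_left _ _)
    have hsum : ∑ h ∈ N.divisors.filter (fun h => b ∣ h), ∑ h' ∈ N.divisors.filter (fun h' => a ∣ h'),
      ((a : ℝ) * b / (h * h')) * ((Bl (E : Set (ℕ × ℕ)) N h h' (2 ^ k) (2 ^ k')).card : ℝ) ≤
      Real.exp (16 * c0) * (K ^ (-(1 / 4) : ℝ) * ((2 : ℝ) ^ k * 2 ^ k')) +
        ((a : ℝ) * b) * (K ^ (-6 : ℝ) * ((2 : ℝ) ^ k * 2 ^ k')) := by
      refine (sum_le_sum fun h _ => sum_le_sum fun h' _ => hpt h h').trans ?_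
      have e : ∑ h ∈ N.divisors.filter (fun h => b ∣ h), ∑ h' ∈ N.divisors.filter (fun h' => a ∣ h'),
        (((a : ℝ) * b / (h * h')) * (K ^ (-(1 / 4) : ℝ) * ((2 : ℝ) ^ k * 2 ^ k')) + ((a : ℝ) * b) * ((1 / ((h : ℝ) * h')) *
          max 0 (((Bl (E : Set (ℕ × ℕ)) N h h' (2 ^ k) (2 ^ k')).card : ℝ)
            - K ^ (-(1 / 4) : ℝ) * ((2 : ℝ) ^ k * 2 ^ k')))) =
        (∑ h ∈ N.divisors.filter (fun h => b ∣ h), ∑ h' ∈ N.divisors.filter (fun h' => a ∣ h'),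
          ((a : ℝ) * b / (h * h'))) * (K ^ (-(1 / 4) : ℝ) * ((2 : ℝ) ^ k * 2 ^ k')) + ((a : ℝ) * b) *
        ∑ h ∈ N.divisors.filter (fun h => b ∣ h), ∑ h' ∈ N.divisors.filter (fun h' => a ∣ h'),
          (1 / ((h : ℝ) * h')) * max 0 (((Bl (E : Set (ℕ × ℕ)) N h h' (2 ^ k) (2 ^ k')).card : ℝ)
            - K ^ (-(1 / 4) : ℝ) * ((2 : ℝ) ^ k * 2 ^ k')) := by
        rw [sum_mul, mul_sum, ← sum_add_distrib]
        refine sum_congr rfl fun h _ => ?_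
        rw [sum_mul, mul_sum, ← sum_add_distrib]
      rw [e]
      refine add_le_add ?_ ?_
      · exact mul_le_mul_of_nonneg_right hA (mul_nonneg (Real.rpow_nonneg hK0.le _) hXX.le)
      · exact mul_le_mul_of_nonneg_left hB' (by positivity)
    have hK4 : 0 ≤ K ^ (-(1 / 4) : ℝ) := Real.rpow_nonneg hK0.le _
    have h6 : ((a : ℝ) * b) * K ^ (-6 : ℝ) ≤ K ^ (-(1 / 4) : ℝ) := by
      have h1 : (a : ℝ) * b ≤ K ^ (5 : ℝ) := by
        have : ((a * b : ℕ) : ℝ) = (a : ℝ) * b := by push_cast; ring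
        rw [← this]
        have e5 : K ^ (5 : ℝ) = K ^ (5 : ℕ) := by
          rw [← Real.rpow_natCast K 5]
          norm_num
        rw [e5]
        exact hcase
      calc ((a : ℝ) * b) * K ^ (-6 : ℝ) ≤ K ^ (5 : ℝ) * K ^ (-6 : ℝ) :=
            mul_le_mul_of_nonneg_right h1 (Real.rpow_nonneg hK0.le _)
        _ = K ^ (-1 : ℝ) := by
            rw [← Real.rpow_add hK0]
            norm_num
        _ ≤ K ^ (-(1 / 4) : ℝ) := Real.rpow_le_rpow_of_exponent_le hK (by norm_num)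
    refine hsum.trans ?_
    have h7 : Real.exp (16 * c0) * K ^ (-(1 / 4) : ℝ) + ((a : ℝ) * b) * K ^ (-6 : ℝ) ≤
        2 * Real.exp (16 * |c0|) * (g8G K (a * b)) ^ (40 / 19 : ℝ) := by
      calc _ ≤ Real.exp (16 * |c0|) * K ^ (-(1 / 4) : ℝ) + Real.exp (16 * |c0|) * K ^ (-(1 / 4) : ℝ) := by
            refine add_le_add (mul_le_mul_of_nonneg_right hexp hK4) (h6.trans ?_)
            exact le_mul_of_one_le_left hK4 hexp1
        _ = 2 * Real.exp (16 * |c0|) * K ^ (-(1 / 4) : ℝ) := by ring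
        _ ≤ _ := mul_le_mul_of_nonneg_left hG1 (by positivity)
    calc _ = (Real.exp (16 * c0) * K ^ (-(1 / 4) : ℝ) + ((a : ℝ) * b) * K ^ (-6 : ℝ)) * ((2 : ℝ) ^ k * 2 ^ k') := by
          ring
      _ ≤ _ := mul_le_mul_of_nonneg_right h7 hXX.le
  · -- large Λ
    have hG1 : g8G K (a * b) = 1 := by
      unfold g8G
      refine min_eq_left ?_
      have h1 : K ^ (5 : ℕ) ≤ ((a * b : ℕ) : ℝ) := le_of_not_ge hcase
      have h2 := Real.rpow_le_rpow (by positivity) h1 (by norm_num : (0 : ℝ) ≤ 1 / 80)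
      have h3 : (K ^ (5 : ℕ)) ^ (1 / 80 : ℝ) = K ^ (1 / 16 : ℝ) := by
        rw [← Real.rpow_natCast K 5, ← Real.rpow_mul hK0.le]
        norm_num
      rw [h3] at h2
      calc (1 : ℝ) = K ^ (-(1 / 16) : ℝ) * K ^ (1 / 16 : ℝ) := by
            rw [← Real.rpow_add hK0]
            norm_num
        _ ≤ _ := mul_le_mul_of_nonneg_left h2 (Real.rpow_nonneg hK0.le _)
    rw [hG1, Real.one_rpow, mul_one]
    refine (g8_triv c0 _ N a b hN ha hb hr k k').trans ?_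
    refine mul_le_mul_of_nonneg_right ?_ hXX.le
    have := Real.exp_pos (16 * |c0|)
    linarith

/-- Corollary with gain. PROOF. `G(Λ) = min(1, K^{-1/16} Λ^{1/80})` satisfies `GrowthG` (`K ≥ 1`), `G(Λ)^{40/19} = min(1, K^{-5/38} Λ^{1/38})`. (H) with
`E0 = E`, `Λ = α'β'`, `X X' = 2^k 2^k'`: `#Bl ≤ K^{-1/4} X X' + (#Bl - K^{-1/4}XX')^+`, so the sum is `≤ K^{-1/4} XX' exp(16 c0) + Λ K^{-6} X X'`
(`g8_sum` twice, `1/(hh')` terms restricted to `β' ∣ h, α' ∣ h'`); for `Λ ≤ K^5` this is `≤ 2 exp(16 |c0|) K^{-1/4} XX' ≤ C2 K^{-5/38} Λ^{1/38} XX'`; for `Λ > K^5`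
`G = 1` and the trivial bound `#Bl ≤ XX'` gives `exp(16 c0) XX'`. `C2 = 2 exp(16 |c0|)`. `G 1 = K^{-1/16}`. -/
theorem g8_gain (c0 : ℝ) : ∃ C : ℝ, 0 < C ∧ ∀ (K : ℝ), 1 ≤ K → ∀ (V W : Finset ℕ) (E : Finset (ℕ × ℕ)) (L : ℝ), 0 < L →
    (∀ v ∈ V, 0 < v ∧ rp v ≤ c0) → (∀ w ∈ W, 0 < w ∧ rp w ≤ c0) →
    (∀ x ∈ E, x.1 ∈ V ∧ x.2 ∈ W ∧ ((Nat.lcm x.1 x.2 : ℕ) : ℝ) ≤ L) → HypK c0 K E →
    Wt E ≤ C * K ^ (-(1 / 16) : ℝ) * L ^ (19 / 20 : ℝ) * (Z V * Z W) ^ (21 / 40 : ℝ) := by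
  obtain ⟨C, hC, h⟩ := g7_thm1 c0 (2 * Real.exp (16 * |c0|)) (by positivity)
  refine ⟨C, hC, fun K hK V W E L hL hV hW hE hH => ?_⟩
  have hK0 : 0 < K := by linarith
  have h1 := h (g8G K) (g8G_growth K hK) (E : Set (ℕ × ℕ)) (g8_hyp c0 K hK E hH) V W E L
    (g8_cfg _ hL hV hW hE fun x hx => mem_coe.2 hx)
  have h2 : g8G K 1 = K ^ (-(1 / 16) : ℝ) := by
    unfold g8G
    rw [Nat.cast_one, Real.one_rpow, mul_one]
    exact min_eq_right (Real.rpow_le_one_of_one_le_of_nonpos hK (by norm_num))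
  rw [h2] at h1
  exact h1

end Pool.Agent.H20G
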