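import Mathlib
import Pool.Agent.Lib.H20G.Core
import Pool.Agent.Lib.H20G.G8
import Pool.Agent.Lib.H20G.H0

set_option autoImplicit false

/-!
# H20G chunk H1A: conversion of the gcd inequality (3.1)
-/

namespace Pool.Agent.H20G

open Finset

theorem h1A_half (n : ℕ) : (1 / 2 : ℝ) ^ n = (2 : ℝ) ^ (-(n : ℝ)) := by
  rw [Real.rpow_neg (by norm_num), Real.rpow_natCast, one_div, inv_pow]

/-- The powers of 2. -/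
theorem h1A_num (k i d : ℕ) : 16 * (2 : ℝ) ^ k * (1 / 2 : ℝ) ^ (i + (i + d)) *
    (((2 : ℝ) ^ (i + 1) / (2 : ℝ) ^ k) ^ (19 / 20 : ℝ) * ((2 : ℝ) ^ (i + 1) * (2 : ℝ) ^ (i + d + 1)) ^ (21 / 40 : ℝ)) =
    64 * ((2 : ℝ) ^ k) ^ (1 / 20 : ℝ) * ((1 / 2 : ℝ) ^ d) ^ (19 / 40 : ℝ) := by
  have h1 : ((2 : ℝ) ^ (i + 1) / (2 : ℝ) ^ k) ^ (19 / 20 : ℝ) = (2 : ℝ) ^ ((((i + 1 : ℕ) : ℝ) - k) * (19 / 20 : ℝ)) := by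
    rw [← Real.rpow_natCast 2 (i + 1), ← Real.rpow_natCast 2 k, ← Real.rpow_sub (by norm_num), ← Real.rpow_mul (by norm_num)]
  have h2 : ((2 : ℝ) ^ (i + 1) * (2 : ℝ) ^ (i + d + 1)) ^ (21 / 40 : ℝ) =
      (2 : ℝ) ^ ((((i + 1 : ℕ) : ℝ) + ((i + d + 1 : ℕ) : ℝ)) * (21 / 40 : ℝ)) := by
    rw [← Real.rpow_natCast 2 (i + 1), ← Real.rpow_natCast 2 (i + d + 1), ← Real.rpow_add (by norm_num), ← Real.rpow_mul (by norm_num)]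
  have h3 : ((2 : ℝ) ^ k) ^ (1 / 20 : ℝ) = (2 : ℝ) ^ ((k : ℝ) * (1 / 20 : ℝ)) := by
    rw [← Real.rpow_natCast 2 k, ← Real.rpow_mul (by norm_num)]
  have h4 : ((1 / 2 : ℝ) ^ d) ^ (19 / 40 : ℝ) = (2 : ℝ) ^ (-(d : ℝ) * (19 / 40 : ℝ)) := by
    rw [h1A_half, ← Real.rpow_mul (by norm_num)]
  have h5 : (16 : ℝ) = (2 : ℝ) ^ (4 : ℝ) := by norm_num
  have h6 : (64 : ℝ) = (2 : ℝ) ^ (6 : ℝ) := by norm_num
  rw [h1, h2, h3, h4, h1A_half, h5, h6, ← Real.rpow_natCast 2 k]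
  rw [← Real.rpow_add (by norm_num), ← Real.rpow_add (by norm_num), ← Real.rpow_add (by norm_num), ← Real.rpow_add (by norm_num),
    ← Real.rpow_add (by norm_num), ← Real.rpow_add (by norm_num)]
  congr 1
  push_cast
  ring

/-- Conversion. `F` a set of edges of level `k`, `F ⊆ V × W`, `V` in class `i`, `W` in class `j`, `i ≤ j`; `K = 2^k`.
PROOF. By `h0_ov`, `∑_F o ≤ 16 K 2^(-i-j) Wt F`; with `L = 2^(i+1)/K`, `Z V ≤ 2^(i+1) M V`, `Z W ≤ 2^(j+1) M W` (`h0_Z`) the hypothesis gives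
`∑_F o ≤ 16 A K 2^(-i-j) (2^(i+1)/K)^(19/20) (2^(i+j+2) M V M W)^(21/40) = 64 A K^(1/20) 2^(-19(j-i)/40) (M V M W)^(21/40)`
(`16·2^(19/20)·2^(21/20) = 64`; exponent of 2: `-i-j+19i/20+21(i+j)/40 = -19(j-i)/40`). Write all powers of 2 as `Real.rpow` of 2
(`Real.rpow_natCast`, `Real.mul_rpow`, `Real.rpow_add`). -/
theorem h1_conv (c0 : ℝ) (γ : ℝ) (f : ℕ → ℝ) (S : Finset ℕ) (hB : Blk c0 f S) (k i j : ℕ) (hij : i ≤ j) (V W : Finset ℕ)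
    (hV : V ⊆ S) (hW : W ⊆ S) (hVi : ∀ q ∈ V, rc f q = i) (hWj : ∀ r ∈ W, rc f r = j)
    (F : Finset (ℕ × ℕ)) (hF : F ⊆ EK γ f S k) (hFV : ∀ e ∈ F, e.1 ∈ V ∧ e.2 ∈ W) (A : ℝ) (hA : 0 ≤ A)
    (h : Wt F ≤ A * ((2 : ℝ) ^ (i + 1) / (2 : ℝ) ^ k) ^ (19 / 20 : ℝ) * (Z V * Z W) ^ (21 / 40 : ℝ)) :
    ∑ e ∈ F, ov f e.1 e.2 ≤ 64 * A * ((2 : ℝ) ^ k) ^ (1 / 20 : ℝ) *
      ((1 / 2 : ℝ) ^ (j - i)) ^ (19 / 40 : ℝ) * ((∑ q ∈ V, f q) * ∑ q ∈ W, f q) ^ (21 / 40 : ℝ) := by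
  obtain ⟨d, rfl⟩ := Nat.exists_eq_add_of_le hij
  have e1 : ∑ e ∈ F, ov f e.1 e.2 ≤ 16 * (2 : ℝ) ^ k * (1 / 2 : ℝ) ^ (i + (i + d)) * Wt F := by
    unfold Wt
    rw [Finset.mul_sum]
    refine Finset.sum_le_sum fun e he => ?_
    have h1 := (h0_EK γ f S k e).1 (hF he)
    obtain ⟨h2, h3⟩ := hFV e he
    have h4 := (h0_ov c0 γ f S hB k e.1 e.2 h1 (by rw [hVi _ h2, hWj _ h3]; omega)).2
    rw [hVi _ h2, hWj _ h3] at h4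
    exact h4
  have z1 := (h0_Z c0 f S hB V hV i hVi).1
  have z2 := (h0_Z c0 f S hB W hW (i + d) hWj).1
  have n1 : 0 ≤ Z V := Finset.sum_nonneg fun v _ => Nat.cast_nonneg v
  have n2 : 0 ≤ Z W := Finset.sum_nonneg fun v _ => Nat.cast_nonneg v
  have m1 : 0 ≤ ∑ q ∈ V, f q := Finset.sum_nonneg fun q hq => (hB.fpos q (hV hq)).le
  have m2 : 0 ≤ ∑ q ∈ W, f q := Finset.sum_nonneg fun q hq => (hB.fpos q (hW hq)).le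
  have e2 : (Z V * Z W) ^ (21 / 40 : ℝ) ≤ ((2 : ℝ) ^ (i + 1) * (2 : ℝ) ^ (i + d + 1)) ^ (21 / 40 : ℝ) *
      ((∑ q ∈ V, f q) * ∑ q ∈ W, f q) ^ (21 / 40 : ℝ) := by
    rw [← Real.mul_rpow (by positivity) (by positivity)]
    refine Real.rpow_le_rpow (by positivity) ?_ (by norm_num)
    calc Z V * Z W ≤ ((2 : ℝ) ^ (i + 1) * ∑ q ∈ V, f q) * ((2 : ℝ) ^ (i + d + 1) * ∑ q ∈ W, f q) :=
          mul_le_mul z1 z2 n2 (by positivity)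
      _ = _ := by ring
  have e3 : Wt F ≤ A * (((2 : ℝ) ^ (i + 1) / (2 : ℝ) ^ k) ^ (19 / 20 : ℝ) *
      (((2 : ℝ) ^ (i + 1) * (2 : ℝ) ^ (i + d + 1)) ^ (21 / 40 : ℝ) * ((∑ q ∈ V, f q) * ∑ q ∈ W, f q) ^ (21 / 40 : ℝ))) := by
    refine h.trans ?_
    rw [mul_assoc]
    exact mul_le_mul_of_nonneg_left (mul_le_mul_of_nonneg_left e2 (by positivity)) hA
  refine (e1.trans (mul_le_mul_of_nonneg_left e3 (by positivity))).trans (le_of_eq ?_)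
  have e4 := h1A_num k i d
  rw [Nat.add_sub_cancel_left]
  calc 16 * (2 : ℝ) ^ k * (1 / 2 : ℝ) ^ (i + (i + d)) * (A * (((2 : ℝ) ^ (i + 1) / (2 : ℝ) ^ k) ^ (19 / 20 : ℝ) *
      (((2 : ℝ) ^ (i + 1) * (2 : ℝ) ^ (i + d + 1)) ^ (21 / 40 : ℝ) * ((∑ q ∈ V, f q) * ∑ q ∈ W, f q) ^ (21 / 40 : ℝ)))) =
      A * (16 * (2 : ℝ) ^ k * (1 / 2 : ℝ) ^ (i + (i + d)) * (((2 : ℝ) ^ (i + 1) / (2 : ℝ) ^ k) ^ (19 / 20 : ℝ) *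
      ((2 : ℝ) ^ (i + 1) * (2 : ℝ) ^ (i + d + 1)) ^ (21 / 40 : ℝ))) * ((∑ q ∈ V, f q) * ∑ q ∈ W, f q) ^ (21 / 40 : ℝ) := by
        ring
    _ = _ := by
      rw [e4]
      ring

end Pool.Agent.H20G
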