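import Mathlib
import Pool.Agent.Lib.H20G.Core
import Pool.Agent.Lib.H20G.G8
import Pool.Agent.Lib.H20G.H0
import Pool.Agent.Lib.H20G.H1A

set_option autoImplicit false

/-!
# H20G chunk H1: the gcd inequalities for the edges between two radius classes (3.1)
-/

namespace Pool.Agent.H20G

open Finset

/-- the hypotheses of `g8_plain`, `g8_gain` -/
theorem h1_pre {c0 γ : ℝ} {f : ℕ → ℝ} {S : Finset ℕ} (hB : Blk c0 f S) {k i j : ℕ} (hij : i ≤ j) {V W : Finset ℕ}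
    (hVi : ∀ q ∈ V, rc f q = i) (hWj : ∀ r ∈ W, rc f r = j) {F : Finset (ℕ × ℕ)} (hF : F ⊆ EK γ f S k)
    (hFV : ∀ e ∈ F, e.1 ∈ V ∧ e.2 ∈ W) :
    ∀ x ∈ F, x.1 ∈ V ∧ x.2 ∈ W ∧ ((Nat.lcm x.1 x.2 : ℕ) : ℝ) ≤ (2 : ℝ) ^ (i + 1) / (2 : ℝ) ^ k := by
  intro x hx
  obtain ⟨h1, h2⟩ := hFV x hx
  refine ⟨h1, h2, ?_⟩
  have h3 := (h0_EK γ f S k x).1 (hF hx)
  have h4 := (h0_lcm c0 γ f S hB k x.1 x.2 h3 (by rw [hVi _ h1, hWj _ h2]; exact hij)).2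
  rw [hVi _ h1] at h4
  exact h4

/-- (3.1) plain. PROOF. `g8_plain` with `L = 2^(i+1)/K` (`h0_lcm`), `h1_conv`; `C = 64 C'`. -/
theorem h1_plain (c0 : ℝ) : ∃ C : ℝ, 0 < C ∧ ∀ (γ : ℝ) (f : ℕ → ℝ) (S : Finset ℕ), Blk c0 f S → ∀ (k i j : ℕ), i ≤ j →
    ∀ V W : Finset ℕ, V ⊆ S → W ⊆ S → (∀ q ∈ V, rc f q = i) → (∀ r ∈ W, rc f r = j) →
    ∀ F : Finset (ℕ × ℕ), F ⊆ EK γ f S k → (∀ e ∈ F, e.1 ∈ V ∧ e.2 ∈ W) →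
    ∑ e ∈ F, ov f e.1 e.2 ≤ C * ((2 : ℝ) ^ k) ^ (1 / 20 : ℝ) *
      ((1 / 2 : ℝ) ^ (j - i)) ^ (19 / 40 : ℝ) * ((∑ q ∈ V, f q) * ∑ q ∈ W, f q) ^ (21 / 40 : ℝ) := by
  obtain ⟨C, hC, h⟩ := g8_plain c0
  refine ⟨64 * C, by positivity, ?_⟩
  intro γ f S hB k i j hij V W hV hW hVi hWj F hF hFV
  refine h1_conv c0 γ f S hB k i j hij V W hV hW hVi hWj F hF hFV C hC.le ?_
  exact h V W F _ (by positivity) (fun v hv => ⟨hB.pos v (hV hv), hB.rp_le v (hV hv)⟩)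
    (fun v hv => ⟨hB.pos v (hW hv), hB.rp_le v (hW hv)⟩) (h1_pre hB hij hVi hWj hF hFV)

/-- (3.1) with gain. PROOF. `g8_gain` with `K = 2^k ≥ 1`, `L = 2^(i+1)/K`, `h1_conv` with `A = C' K^(-1/16)`; `-1/16 + 1/20 = -1/80`. -/
theorem h1_gain (c0 : ℝ) : ∃ C : ℝ, 0 < C ∧ ∀ (γ : ℝ) (f : ℕ → ℝ) (S : Finset ℕ), Blk c0 f S → ∀ (k i j : ℕ), i ≤ j →
    ∀ V W : Finset ℕ, V ⊆ S → W ⊆ S → (∀ q ∈ V, rc f q = i) → (∀ r ∈ W, rc f r = j) →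
    ∀ F : Finset (ℕ × ℕ), F ⊆ EK γ f S k → (∀ e ∈ F, e.1 ∈ V ∧ e.2 ∈ W) → HypK c0 ((2 : ℝ) ^ k) F →
    ∑ e ∈ F, ov f e.1 e.2 ≤ C * ((2 : ℝ) ^ k) ^ (-(1 / 80) : ℝ) *
      ((1 / 2 : ℝ) ^ (j - i)) ^ (19 / 40 : ℝ) * ((∑ q ∈ V, f q) * ∑ q ∈ W, f q) ^ (21 / 40 : ℝ) := by
  obtain ⟨C, hC, h⟩ := g8_gain c0
  refine ⟨64 * C, by positivity, ?_⟩
  intro γ f S hB k i j hij V W hV hW hVi hWj F hF hFV hH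
  have hK0 : (0 : ℝ) < (2 : ℝ) ^ k := by positivity
  have h1 := h1_conv c0 γ f S hB k i j hij V W hV hW hVi hWj F hF hFV (C * ((2 : ℝ) ^ k) ^ (-(1 / 16) : ℝ)) (by positivity)
    (h ((2 : ℝ) ^ k) (one_le_pow₀ (by norm_num)) V W F _ (by positivity) (fun v hv => ⟨hB.pos v (hV hv), hB.rp_le v (hV hv)⟩)
      (fun v hv => ⟨hB.pos v (hW hv), hB.rp_le v (hW hv)⟩) (h1_pre hB hij hVi hWj hF hFV) hH)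
  refine h1.trans (le_of_eq ?_)
  have e1 : ((2 : ℝ) ^ k) ^ (-(1 / 80) : ℝ) = ((2 : ℝ) ^ k) ^ (-(1 / 16) : ℝ) * ((2 : ℝ) ^ k) ^ (1 / 20 : ℝ) := by
    rw [← Real.rpow_add hK0]
    norm_num
  rw [e1]
  ring

end Pool.Agent.H20G
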