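import Mathlib
import Pool.Agent.Lib.H20G.Defs

set_option autoImplicit false

/-!
# H20G chunk H2A: sums over pairs of classes, shifts (3.2), pure
-/

namespace Pool.Agent.H20G

open Finset

theorem h2a_sq (x : ℝ) (hx : 0 ≤ x) : (x ^ (21 / 40 : ℝ)) ^ 2 = x * x ^ (1 / 20 : ℝ) := by
  have h1 : x ^ (1 + 1 / 20 : ℝ) = x ^ (1 : ℝ) * x ^ (1 / 20 : ℝ) := Real.rpow_add' hx (by norm_num)
  rw [Real.rpow_one] at h1
  rw [← h1, ← Real.rpow_natCast, ← Real.rpow_mul hx]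
  norm_num

theorem h2a_pow (n : ℕ) (f : ℕ → ℝ) (hf : ∀ i, 0 ≤ f i) :
    ∑ i ∈ range n, (f i ^ (21 / 40 : ℝ)) ^ 2 ≤ ((∑ i ∈ range n, f i) ^ (21 / 40 : ℝ)) ^ 2 := by
  have hF : 0 ≤ ∑ i ∈ range n, f i := Finset.sum_nonneg fun i _ => hf i
  rw [h2a_sq _ hF, Finset.sum_mul]
  refine Finset.sum_le_sum fun i hi => ?_
  rw [h2a_sq _ (hf i)]
  refine mul_le_mul_of_nonneg_left ?_ (hf i)
  exact Real.rpow_le_rpow (hf i) (Finset.single_le_sum (fun j _ => hf j) hi) (by norm_num)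

theorem h2a_fix (n : ℕ) (f g : ℕ → ℝ) (hf : ∀ i, 0 ≤ f i) (hg : ∀ i, 0 ≤ g i) (D : Finset (ℕ × ℕ))
    (hD : D ⊆ range n ×ˢ range n) (h1 : ∀ p ∈ D, ∀ q ∈ D, p.1 = q.1 → p = q)
    (h2 : ∀ p ∈ D, ∀ q ∈ D, p.2 = q.2 → p = q) :
    ∑ p ∈ D, (f p.1 * g p.2) ^ (21 / 40 : ℝ) ≤
      ((∑ i ∈ range n, f i) * ∑ j ∈ range n, g j) ^ (21 / 40 : ℝ) := by
  have hF : 0 ≤ ∑ i ∈ range n, f i := Finset.sum_nonneg fun i _ => hf i
  have hG : 0 ≤ ∑ i ∈ range n, g i := Finset.sum_nonneg fun i _ => hg i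
  have e1 : ∑ p ∈ D, (f p.1 * g p.2) ^ (21 / 40 : ℝ) = ∑ p ∈ D, f p.1 ^ (21 / 40 : ℝ) * g p.2 ^ (21 / 40 : ℝ) :=
    Finset.sum_congr rfl fun p _ => Real.mul_rpow (hf _) (hg _)
  have h3 := Finset.sum_mul_sq_le_sq_mul_sq D (fun p : ℕ × ℕ => f p.1 ^ (21 / 40 : ℝ)) (fun p : ℕ × ℕ => g p.2 ^ (21 / 40 : ℝ))
  have h4 : ∑ p ∈ D, (f p.1 ^ (21 / 40 : ℝ)) ^ 2 ≤ ((∑ i ∈ range n, f i) ^ (21 / 40 : ℝ)) ^ 2 := by
    refine le_trans ?_ (h2a_pow n f hf)
    rw [← Finset.sum_image (s := D) (g := fun p : ℕ × ℕ => p.1) (f := fun i => (f i ^ (21 / 40 : ℝ)) ^ 2)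
      (fun p hp q hq h => h1 p hp q hq h)]
    refine Finset.sum_le_sum_of_subset_of_nonneg ?_ fun i _ _ => by positivity
    intro i hi
    obtain ⟨p, hp, rfl⟩ := Finset.mem_image.1 hi
    exact (Finset.mem_product.1 (hD hp)).1
  have h5 : ∑ p ∈ D, (g p.2 ^ (21 / 40 : ℝ)) ^ 2 ≤ ((∑ i ∈ range n, g i) ^ (21 / 40 : ℝ)) ^ 2 := by
    refine le_trans ?_ (h2a_pow n g hg)
    rw [← Finset.sum_image (s := D) (g := fun p : ℕ × ℕ => p.2) (f := fun i => (g i ^ (21 / 40 : ℝ)) ^ 2)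
      (fun p hp q hq h => h2 p hp q hq h)]
    refine Finset.sum_le_sum_of_subset_of_nonneg ?_ fun i _ _ => by positivity
    intro i hi
    obtain ⟨p, hp, rfl⟩ := Finset.mem_image.1 hi
    exact (Finset.mem_product.1 (hD hp)).2
  rw [e1, Real.mul_rpow hF hG]
  have h6 : (∑ p ∈ D, f p.1 ^ (21 / 40 : ℝ) * g p.2 ^ (21 / 40 : ℝ)) ^ 2 ≤
      ((∑ i ∈ range n, f i) ^ (21 / 40 : ℝ) * (∑ j ∈ range n, g j) ^ (21 / 40 : ℝ)) ^ 2 := by
    rw [mul_pow]
    exact h3.trans (mul_le_mul h4 h5 (Finset.sum_nonneg fun i _ => by positivity) (by positivity))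
  exact le_of_sq_le_sq h6 (by positivity)

/-- PROOF. For a fixed shift `d`, Cauchy–Schwarz: `∑_{i, i+d < n} (f_i g_{i+d})^(21/40) ≤ (∑ f_i^(21/20))^(1/2) (∑ g_i^(21/20))^(1/2)` and
`∑ f_i^(21/20) ≤ (∑ f_i)^(21/20)` (each `f_i ≤ s := ∑ f`, so `f_i^(21/20) ≤ f_i s^(1/20)`; `s = 0` is trivial); so this is
`≤ (∑f ∑g)^(21/40)`. The pairs with `max i j - min i j = d` are `(i, i+d)` and `(i+d, i)`: factor 2. -/
theorem h2_shift (w : ℕ → ℝ) (hw : ∀ d, 0 ≤ w d) (n : ℕ) (f g : ℕ → ℝ) (hf : ∀ i, 0 ≤ f i)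
    (hg : ∀ i, 0 ≤ g i) :
    ∑ i ∈ range n, ∑ j ∈ range n, w (max i j - min i j) * (f i * g j) ^ (21 / 40 : ℝ) ≤
      2 * (∑ d ∈ range n, w d) * ((∑ i ∈ range n, f i) * ∑ j ∈ range n, g j) ^ (21 / 40 : ℝ) := by
  rw [← Finset.sum_product' (s := range n) (t := range n)
    (f := fun i j => w (max i j - min i j) * (f i * g j) ^ (21 / 40 : ℝ))]
  rw [← Finset.sum_fiberwise_of_maps_to (s := range n ×ˢ range n) (t := range n)
    (g := fun p : ℕ × ℕ => max p.1 p.2 - min p.1 p.2)]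
  swap
  · intro p hp
    rw [Finset.mem_product, Finset.mem_range, Finset.mem_range] at hp
    rw [Finset.mem_range]
    omega
  rw [Finset.mul_sum, Finset.sum_mul]
  refine Finset.sum_le_sum fun d _ => ?_
  have hA := h2a_fix n f g hf hg ((range n ×ˢ range n).filter fun p => p.2 = p.1 + d) (Finset.filter_subset _ _)
    (by
      intro p hp q hq h
      rw [Finset.mem_filter] at hp hq
      exact Prod.ext h (by omega))
    (by
      intro p hp q hq h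
      rw [Finset.mem_filter] at hp hq
      exact Prod.ext (by omega) h)
  have hB := h2a_fix n f g hf hg ((range n ×ˢ range n).filter fun p => p.1 = p.2 + d) (Finset.filter_subset _ _)
    (by
      intro p hp q hq h
      rw [Finset.mem_filter] at hp hq
      exact Prod.ext h (by omega))
    (by
      intro p hp q hq h
      rw [Finset.mem_filter] at hp hq
      exact Prod.ext (by omega) h)
  have hc : ∀ p : ℕ × ℕ, 0 ≤ (f p.1 * g p.2) ^ (21 / 40 : ℝ) := fun p => Real.rpow_nonneg (mul_nonneg (hf _) (hg _)) _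
  have e1 : ∑ p ∈ (range n ×ˢ range n).filter (fun p => max p.1 p.2 - min p.1 p.2 = d),
      w (max p.1 p.2 - min p.1 p.2) * (f p.1 * g p.2) ^ (21 / 40 : ℝ) =
      w d * ∑ p ∈ (range n ×ˢ range n).filter (fun p => max p.1 p.2 - min p.1 p.2 = d),
        (f p.1 * g p.2) ^ (21 / 40 : ℝ) := by
    rw [Finset.mul_sum]
    refine Finset.sum_congr rfl fun p hp => ?_
    rw [(Finset.mem_filter.1 hp).2]
  rw [e1]
  have h3 : ∑ p ∈ (range n ×ˢ range n).filter (fun p => max p.1 p.2 - min p.1 p.2 = d),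
        (f p.1 * g p.2) ^ (21 / 40 : ℝ) ≤ 2 * ((∑ i ∈ range n, f i) * ∑ j ∈ range n, g j) ^ (21 / 40 : ℝ) := by
    have h4 : (range n ×ˢ range n).filter (fun p => max p.1 p.2 - min p.1 p.2 = d) ⊆
        ((range n ×ˢ range n).filter fun p => p.2 = p.1 + d) ∪ ((range n ×ˢ range n).filter fun p => p.1 = p.2 + d) := by
      intro p hp
      rw [Finset.mem_filter] at hp
      rw [Finset.mem_union, Finset.mem_filter, Finset.mem_filter]
      by_cases h : p.1 ≤ p.2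
      · left
        refine ⟨hp.1, ?_⟩
        omega
      · right
        refine ⟨hp.1, ?_⟩
        omega
    have h5 := Finset.sum_le_sum_of_subset_of_nonneg (f := fun p : ℕ × ℕ => (f p.1 * g p.2) ^ (21 / 40 : ℝ)) h4
      fun p _ _ => hc p
    have h6 := Finset.sum_union_inter (s₁ := (range n ×ˢ range n).filter fun p => p.2 = p.1 + d)
      (s₂ := (range n ×ˢ range n).filter fun p => p.1 = p.2 + d) (f := fun p : ℕ × ℕ => (f p.1 * g p.2) ^ (21 / 40 : ℝ))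
    have h7 : 0 ≤ ∑ p ∈ ((range n ×ˢ range n).filter fun p => p.2 = p.1 + d) ∩
      ((range n ×ˢ range n).filter fun p => p.1 = p.2 + d), (f p.1 * g p.2) ^ (21 / 40 : ℝ) :=
      Finset.sum_nonneg fun p _ => hc p
    linarith
  have h8 := mul_le_mul_of_nonneg_left h3 (hw d)
  linarith

end Pool.Agent.H20G
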