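import Mathlib
import Pool.Agent.Lib.H20G.Defs
import Pool.Agent.Lib.H20G.H2A

set_option autoImplicit false

/-!
# H20G chunk H2: sums over pairs of classes (3.2), no blocks
-/

namespace Pool.Agent.H20G

open Finset

/-- Sum over all pairs of classes. PROOF. Let `n` be larger than all classes of elements of `V ∪ W`. `∑_F o = ∑_{i,j<n} ∑_{e ∈ F, cls = (i,j)} o`
(`Finset.sum_fiberwise_of_maps_to` with the map `e ↦ (cls e.1, cls e.2)` into `range n ×ˢ range n`), bound each by the hypothesis, use `h2_shift` with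
`f i = ∑_{q ∈ V, cls q = i} m q`, `g j` similarly; `∑_{i<n} f i = ∑_V m`. -/
theorem h2_cls (cls : ℕ → ℕ) (o : ℕ × ℕ → ℝ) (m : ℕ → ℝ) (V W : Finset ℕ) (F : Finset (ℕ × ℕ))
    (hF : ∀ e ∈ F, e.1 ∈ V ∧ e.2 ∈ W) (hV : ∀ q ∈ V, 0 ≤ m q) (hW : ∀ q ∈ W, 0 ≤ m q) (w : ℕ → ℝ)
    (hw : ∀ d, 0 ≤ w d) (Wd : ℝ) (hWd : ∀ n, ∑ d ∈ range n, w d ≤ Wd) (A : ℝ) (hA : 0 ≤ A)
    (h : ∀ i j : ℕ, ∑ e ∈ F.filter (fun e => cls e.1 = i ∧ cls e.2 = j), o e ≤
      A * w (max i j - min i j) * ((∑ q ∈ V.filter (fun q => cls q = i), m q) *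
        ∑ q ∈ W.filter (fun q => cls q = j), m q) ^ (21 / 40 : ℝ)) :
    ∑ e ∈ F, o e ≤ 2 * A * Wd * ((∑ q ∈ V, m q) * ∑ q ∈ W, m q) ^ (21 / 40 : ℝ) := by
  obtain ⟨n, hn⟩ : ∃ n : ℕ, ∀ q ∈ V ∪ W, cls q < n :=
    ⟨(V ∪ W).sup cls + 1, fun q hq => Nat.lt_succ_of_le (le_sup (f := cls) hq)⟩
  have hsumV : ∑ i ∈ range n, ∑ q ∈ V.filter (fun q => cls q = i), m q = ∑ q ∈ V, m q :=
    sum_fiberwise_of_maps_to (fun q hq => mem_range.2 (hn q (mem_union_left _ hq))) m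
  have hsumW : ∑ i ∈ range n, ∑ q ∈ W.filter (fun q => cls q = i), m q = ∑ q ∈ W, m q :=
    sum_fiberwise_of_maps_to (fun q hq => mem_range.2 (hn q (mem_union_right _ hq))) m
  have hsumF : ∑ e ∈ F, o e = ∑ i ∈ range n, ∑ j ∈ range n, ∑ e ∈ F.filter (fun e => cls e.1 = i ∧ cls e.2 = j), o e := by
    have h1 : ∑ x ∈ range n ×ˢ range n, ∑ e ∈ F.filter (fun e => (cls e.1, cls e.2) = x), o e = ∑ e ∈ F, o e :=
      sum_fiberwise_of_maps_to (fun e he => mem_product.2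
        ⟨mem_range.2 (hn _ (mem_union_left _ (hF e he).1)), mem_range.2 (hn _ (mem_union_right _ (hF e he).2))⟩) o
    rw [← h1, sum_product]
    refine sum_congr rfl fun i _ => sum_congr rfl fun j _ => sum_congr ?_ fun _ _ => rfl
    refine filter_congr fun e _ => ?_
    rw [Prod.mk.injEq]
  have hf : ∀ i, 0 ≤ ∑ q ∈ V.filter (fun q => cls q = i), m q := fun i => sum_nonneg fun q hq => hV q (mem_filter.1 hq).1
  have hg : ∀ i, 0 ≤ ∑ q ∈ W.filter (fun q => cls q = i), m q := fun i => sum_nonneg fun q hq => hW q (mem_filter.1 hq).1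
  have h2 := h2_shift w hw n (fun i => ∑ q ∈ V.filter (fun q => cls q = i), m q)
    (fun i => ∑ q ∈ W.filter (fun q => cls q = i), m q) hf hg
  rw [hsumV, hsumW] at h2
  have hP : 0 ≤ ((∑ q ∈ V, m q) * ∑ q ∈ W, m q) ^ (21 / 40 : ℝ) :=
    Real.rpow_nonneg (mul_nonneg (sum_nonneg hV) (sum_nonneg hW)) _
  rw [hsumF]
  calc ∑ i ∈ range n, ∑ j ∈ range n, ∑ e ∈ F.filter (fun e => cls e.1 = i ∧ cls e.2 = j), o e
      ≤ ∑ i ∈ range n, ∑ j ∈ range n, A * w (max i j - min i j) * ((∑ q ∈ V.filter (fun q => cls q = i), m q) *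
        ∑ q ∈ W.filter (fun q => cls q = j), m q) ^ (21 / 40 : ℝ) :=
        sum_le_sum fun i _ => sum_le_sum fun j _ => h i j
    _ = A * ∑ i ∈ range n, ∑ j ∈ range n, w (max i j - min i j) * ((∑ q ∈ V.filter (fun q => cls q = i), m q) *
        ∑ q ∈ W.filter (fun q => cls q = j), m q) ^ (21 / 40 : ℝ) := by
        rw [mul_sum]
        refine sum_congr rfl fun i _ => ?_
        rw [mul_sum]
        refine sum_congr rfl fun j _ => ?_
        ring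
    _ ≤ A * (2 * (∑ d ∈ range n, w d) * ((∑ q ∈ V, m q) * ∑ q ∈ W, m q) ^ (21 / 40 : ℝ)) :=
        mul_le_mul_of_nonneg_left h2 hA
    _ ≤ A * (2 * Wd * ((∑ q ∈ V, m q) * ∑ q ∈ W, m q) ^ (21 / 40 : ℝ)) := by
        refine mul_le_mul_of_nonneg_left (mul_le_mul_of_nonneg_right ?_ hP) hA
        exact mul_le_mul_of_nonneg_left (hWd n) (by norm_num)
    _ = 2 * A * Wd * ((∑ q ∈ V, m q) * ∑ q ∈ W, m q) ^ (21 / 40 : ℝ) := by ring

end Pool.Agent.H20G
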