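import Mathlib
import Pool.Agent.Lib.H20G.Defs

set_option autoImplicit false

/-!
# H20G chunk H2G: geometric sums (3.2), pure
-/

namespace Pool.Agent.H20G

open Finset

theorem h2_x : (1 / 2 : ℝ) ^ (19 / 40 : ℝ) ≤ 3 / 4 := by
  have h0 : (0 : ℝ) ≤ (1 / 2 : ℝ) ^ (19 / 40 : ℝ) := Real.rpow_nonneg (by norm_num) _
  have h1 : ((1 / 2 : ℝ) ^ (19 / 40 : ℝ)) ^ (40 : ℕ) = (1 / 2 : ℝ) ^ (19 : ℕ) := by
    rw [← Real.rpow_natCast, ← Real.rpow_mul (by norm_num), ← Real.rpow_natCast]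
    norm_num
  have h2 : ((1 / 2 : ℝ) ^ (19 / 40 : ℝ)) ^ (40 : ℕ) ≤ (3 / 4 : ℝ) ^ (40 : ℕ) := by
    rw [h1]
    norm_num
  exact le_of_pow_le_pow_left₀ (by norm_num) (by norm_num) h2

theorem h2_pow (d : ℕ) : ((1 / 2 : ℝ) ^ d) ^ (19 / 40 : ℝ) = ((1 / 2 : ℝ) ^ (19 / 40 : ℝ)) ^ d := by
  rw [← Real.rpow_natCast, ← Real.rpow_mul (by norm_num), ← Real.rpow_natCast, ← Real.rpow_mul (by norm_num), mul_comm]

/-- `∑_{d<n} 2^(-19d/40) ≤ 1/(1 - 2^(-19/40)) ≤ 4`: `2^(-19/40) ≤ 3/4` because `(3/4)^40 ≥ 2^(-19)`. -/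
theorem h2_geom (n : ℕ) : ∑ d ∈ range n, ((1 / 2 : ℝ) ^ d) ^ (19 / 40 : ℝ) ≤ 4 := by
  have h0 : (0 : ℝ) ≤ (1 / 2 : ℝ) ^ (19 / 40 : ℝ) := Real.rpow_nonneg (by norm_num) _
  have h1 : ∑ d ∈ range n, ((1 / 2 : ℝ) ^ d) ^ (19 / 40 : ℝ) ≤ ∑ d ∈ range n, (3 / 4 : ℝ) ^ d := by
    refine sum_le_sum fun d _ => ?_
    rw [h2_pow]
    exact pow_le_pow_left₀ h0 h2_x d
  refine h1.trans ?_
  have h3 := geom_sum_eq (x := (3 / 4 : ℝ)) (by norm_num) n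
  rw [h3]
  have h4 : (0 : ℝ) ≤ (3 / 4 : ℝ) ^ n := by positivity
  rw [div_le_iff_of_neg (by norm_num)]
  linarith

/-- The tail `2^d > Y`: `∑ ≤ 4 Y^(-19/40)`. PROOF. If `Y < 1` this is `h2_geom`. Let `d0` be the least `d` with `2^d > Y`; the sum is
at most `x^{d0} ∑_d x^d ≤ 4 x^{d0}`, `x = 2^(-19/40)`, and `x^{d0} = (2^{-d0})^(19/40) ≤ Y^(-19/40)`. -/
theorem h2_tail (Y : ℝ) (hY : 0 < Y) (n : ℕ) :
    ∑ d ∈ range n, (if Y < (2 : ℝ) ^ d then ((1 / 2 : ℝ) ^ d) ^ (19 / 40 : ℝ) else 0) ≤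
      4 * Y ^ (-(19 / 40) : ℝ) := by
  induction n generalizing Y with
  | zero =>
    rw [range_zero, sum_empty]
    have := Real.rpow_pos_of_pos hY (-(19 / 40) : ℝ)
    positivity
  | succ n ih =>
    by_cases h1 : Y < 1
    · refine le_trans (sum_le_sum (g := fun d => ((1 / 2 : ℝ) ^ d) ^ (19 / 40 : ℝ)) fun d _ => ?_) ((h2_geom (n + 1)).trans ?_)
      · split_ifs
        · exact le_rfl
        · exact Real.rpow_nonneg (by positivity) _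
      · have := Real.one_le_rpow_of_pos_of_le_one_of_nonpos hY h1.le (z := (-(19 / 40) : ℝ)) (by norm_num)
        linarith
    · rw [sum_range_succ', pow_zero, if_neg h1, add_zero]
      have h2 : ∀ d ∈ range n, (if Y < (2 : ℝ) ^ (d + 1) then ((1 / 2 : ℝ) ^ (d + 1)) ^ (19 / 40 : ℝ) else 0) =
          (1 / 2 : ℝ) ^ (19 / 40 : ℝ) * (if Y / 2 < (2 : ℝ) ^ d then ((1 / 2 : ℝ) ^ d) ^ (19 / 40 : ℝ) else 0) := by
        intro d _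
        have h3 : (Y < (2 : ℝ) ^ (d + 1)) ↔ (Y / 2 < (2 : ℝ) ^ d) := by
          rw [pow_succ, div_lt_iff₀ (by norm_num)]
        by_cases h4 : Y / 2 < (2 : ℝ) ^ d
        · rw [if_pos h4, if_pos (h3.2 h4), h2_pow, h2_pow, pow_succ, mul_comm]
        · rw [if_neg h4, if_neg (fun h => h4 (h3.1 h)), mul_zero]
      rw [sum_congr rfl h2, ← mul_sum]
      have h5 := ih (Y / 2) (by positivity)
      have h6 : (0 : ℝ) ≤ (1 / 2 : ℝ) ^ (19 / 40 : ℝ) := Real.rpow_nonneg (by norm_num) _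
      refine (mul_le_mul_of_nonneg_left h5 h6).trans (le_of_eq ?_)
      have h7 : (Y / 2) ^ (-(19 / 40) : ℝ) = Y ^ (-(19 / 40) : ℝ) * ((1 / 2 : ℝ) ^ (19 / 40 : ℝ))⁻¹ := by
        rw [div_eq_mul_inv, ← one_div, Real.mul_rpow hY.le (by norm_num), Real.rpow_neg (by norm_num : (0 : ℝ) ≤ 1 / 2)]
      rw [h7]
      have h8 : (1 / 2 : ℝ) ^ (19 / 40 : ℝ) ≠ 0 := (Real.rpow_pos_of_pos (by norm_num) _).ne'
      field_simp

end Pool.Agent.H20G
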