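import Mathlib
import Pool.Agent.Lib.H20G.Core
import Pool.Agent.Lib.H20G.H0
import Pool.Agent.Lib.H20G.H1
import Pool.Agent.Lib.H20G.H2
import Pool.Agent.Lib.H20G.H2G

set_option autoImplicit false

/-!
# H20G chunk H3A: edges meeting a set of vertices (3.2)
-/

namespace Pool.Agent.H20G

open Finset

/-- The plain gcd inequality for the edges of a subset `F` of `EK` between two classes, in either order. -/
theorem h3a_pair (γ : ℝ) (f : ℕ → ℝ) (S : Finset ℕ) (k : ℕ) (C1 : ℝ)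
    (H1 : ∀ (i j : ℕ), i ≤ j →
    ∀ V W : Finset ℕ, V ⊆ S → W ⊆ S → (∀ q ∈ V, rc f q = i) → (∀ r ∈ W, rc f r = j) →
    ∀ F : Finset (ℕ × ℕ), F ⊆ EK γ f S k → (∀ e ∈ F, e.1 ∈ V ∧ e.2 ∈ W) →
    ∑ e ∈ F, ov f e.1 e.2 ≤ C1 * ((2 : ℝ) ^ k) ^ (1 / 20 : ℝ) *
      ((1 / 2 : ℝ) ^ (j - i)) ^ (19 / 40 : ℝ) * ((∑ q ∈ V, f q) * ∑ q ∈ W, f q) ^ (21 / 40 : ℝ))
    (i j : ℕ) (V W : Finset ℕ) (hV : V ⊆ S) (hW : W ⊆ S) (hi : ∀ q ∈ V, rc f q = i)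
    (hj : ∀ r ∈ W, rc f r = j) (F : Finset (ℕ × ℕ)) (hF : F ⊆ EK γ f S k)
    (hFV : ∀ e ∈ F, e.1 ∈ V ∧ e.2 ∈ W) :
    ∑ e ∈ F, ov f e.1 e.2 ≤ C1 * ((2 : ℝ) ^ k) ^ (1 / 20 : ℝ) *
      ((1 / 2 : ℝ) ^ (max i j - min i j)) ^ (19 / 40 : ℝ) *
        ((∑ q ∈ V, f q) * ∑ q ∈ W, f q) ^ (21 / 40 : ℝ) := by
  rcases le_or_gt i j with hij | hij
  · have h := H1 i j hij V W hV hW hi hj F hF hFV
    rw [max_eq_right hij, min_eq_left hij]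
    exact h
  · have h := H1 j i hij.le W V hW hV hj hi (F.image Prod.swap) ?_ ?_
    · rw [max_eq_left hij.le, min_eq_right hij.le, mul_comm (∑ q ∈ V, f q) (∑ q ∈ W, f q)]
      refine le_trans (le_of_eq ?_) h
      rw [Finset.sum_image (fun a _ b _ hab => Prod.swap_injective hab)]
      refine Finset.sum_congr rfl fun e _ => ?_
      exact (h0_symm γ f S e.1 e.2).2.1
    · intro e he
      obtain ⟨e', he', rfl⟩ := Finset.mem_image.1 he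
      have h1 := (h0_EK γ f S k e').1 (hF he')
      rw [h0_EK]
      exact ((h0_symm γ f S e'.1 e'.2).2.2 k).1 h1
    · intro e he
      obtain ⟨e', he', rfl⟩ := Finset.mem_image.1 he
      exact ⟨(hFV e' he').2, (hFV e' he').1⟩

/-- Any subset `V` of the block: the edges of level `k` with first end in `V`.
PROOF. `h2_cls` with `cls = rc f`, `m = f`, `F = {e ∈ EK : e.1 ∈ V}`, `W = S`, `o e = ov f e.1 e.2`, `w d = (2^(-d))^(19/40)`, `Wd = 4` (`h2_geom`),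
`A = C1 K^(1/20)`, `C1` from `h1_plain`. The hypothesis for `i ≤ j`: `h1_plain` with `V_i = {q ∈ V : rc q = i}`, `W_j = {q ∈ S : rc q = j}`.
For `i > j`: `∑_{e ∈ F, rc e = (i,j)} o e = ∑ o` over the swapped set `{(r, q)} ⊆ EK` (`h0_symm`; `Finset.sum_nbij'` or `sum_image` with
`Prod.swap`), which is a set of edges from `W_j` to `V_i`, and `h1_plain` again. `∑_S f ≤ 2`, `2^(21/40) ≤ 2`. `C = 16 C1`. -/
theorem h3_sub (c0 : ℝ) : ∃ C : ℝ, 0 < C ∧ ∀ (γ : ℝ) (f : ℕ → ℝ) (S : Finset ℕ), Blk c0 f S → ∀ (k : ℕ) (V : Finset ℕ), V ⊆ S →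
    ∑ e ∈ (EK γ f S k).filter (fun e => e.1 ∈ V), ov f e.1 e.2 ≤
      C * ((2 : ℝ) ^ k) ^ (1 / 20 : ℝ) * (∑ q ∈ V, f q) ^ (21 / 40 : ℝ) := by
  obtain ⟨C1, hC1, H1⟩ := h1_plain c0
  refine ⟨16 * C1, by positivity, ?_⟩
  intro γ f S hB k V hV
  have hA : 0 ≤ C1 * ((2 : ℝ) ^ k) ^ (1 / 20 : ℝ) := by positivity
  have hf : ∀ q ∈ S, 0 ≤ f q := fun q hq => (hB.fpos q hq).le
  have hMV : 0 ≤ ∑ q ∈ V, f q := Finset.sum_nonneg fun q hq => hf q (hV hq)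
  have key := h2_cls (rc f) (fun e => ov f e.1 e.2) f V S
    ((EK γ f S k).filter (fun e => e.1 ∈ V))
    (fun e he => ⟨(Finset.mem_filter.1 he).2,
      ((h0_EK γ f S k e).1 (Finset.mem_filter.1 he).1).2.1⟩)
    (fun q hq => hf q (hV hq)) hf
    (fun d => ((1 / 2 : ℝ) ^ d) ^ (19 / 40 : ℝ)) (fun d => by positivity) 4 h2_geom
    (C1 * ((2 : ℝ) ^ k) ^ (1 / 20 : ℝ)) hA ?_
  · have h2 : ((∑ q ∈ V, f q) * ∑ q ∈ S, f q) ^ (21 / 40 : ℝ) ≤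
        2 * (∑ q ∈ V, f q) ^ (21 / 40 : ℝ) := by
      rw [Real.mul_rpow hMV (Finset.sum_nonneg hf), mul_comm]
      refine mul_le_mul_of_nonneg_right ?_ (by positivity)
      calc (∑ q ∈ S, f q) ^ (21 / 40 : ℝ) ≤ (2 : ℝ) ^ (21 / 40 : ℝ) :=
            Real.rpow_le_rpow (Finset.sum_nonneg hf) hB.sum_le (by norm_num)
        _ ≤ (2 : ℝ) ^ (1 : ℝ) := Real.rpow_le_rpow_of_exponent_le (by norm_num) (by norm_num)
        _ = 2 := Real.rpow_one 2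
    calc ∑ e ∈ (EK γ f S k).filter (fun e => e.1 ∈ V), ov f e.1 e.2
        ≤ 2 * (C1 * ((2 : ℝ) ^ k) ^ (1 / 20 : ℝ)) * 4 *
          ((∑ q ∈ V, f q) * ∑ q ∈ S, f q) ^ (21 / 40 : ℝ) := key
      _ ≤ 2 * (C1 * ((2 : ℝ) ^ k) ^ (1 / 20 : ℝ)) * 4 *
          (2 * (∑ q ∈ V, f q) ^ (21 / 40 : ℝ)) :=
          mul_le_mul_of_nonneg_left h2 (by positivity)
      _ = 16 * C1 * ((2 : ℝ) ^ k) ^ (1 / 20 : ℝ) * (∑ q ∈ V, f q) ^ (21 / 40 : ℝ) := by ring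
  · intro i j
    refine h3a_pair γ f S k C1 (H1 γ f S hB k) i j (V.filter (fun q => rc f q = i))
      (S.filter (fun q => rc f q = j)) ((Finset.filter_subset _ _).trans hV)
      (Finset.filter_subset _ _) (fun q hq => (Finset.mem_filter.1 hq).2)
      (fun q hq => (Finset.mem_filter.1 hq).2) _
      ((Finset.filter_subset _ _).trans (Finset.filter_subset _ _)) ?_
    intro e he
    obtain ⟨he1, he2, he3⟩ := Finset.mem_filter.1 he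
    obtain ⟨he4, he5⟩ := Finset.mem_filter.1 he1
    exact ⟨Finset.mem_filter.2 ⟨he5, he2⟩,
      Finset.mem_filter.2 ⟨((h0_EK γ f S k e).1 he4).2.1, he3⟩⟩

end Pool.Agent.H20G
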