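import Mathlib
import Pool.Agent.Lib.H20G.Core
import Pool.Agent.Lib.H20G.H0
import Pool.Agent.Lib.H20G.H3A

set_option autoImplicit false

/-!
# H20G chunk H3: mass cap (3.3)
-/

namespace Pool.Agent.H20G

open Finset

open Classical in
/-- Vertices of too large mass at level `k` -/
noncomputable def Cap (γ : ℝ) (f : ℕ → ℝ) (S : Finset ℕ) (k : ℕ) : Finset ℕ :=
  S.filter (fun q => (2 : ℝ) ^ k * f q ≤ ∑ e ∈ (EK γ f S k).filter (fun e => e.1 = q), ov f e.1 e.2)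

/-- `O ≤ C K^(1/20) (O/K)^(21/40)` gives `O ≤ C^(40/19)/K` -/
theorem h3_solve (C K O : ℝ) (hC : 0 < C) (hK : 0 < K) (hO : 0 ≤ O)
    (h : O ≤ C * K ^ (1 / 20 : ℝ) * (O * K⁻¹) ^ (21 / 40 : ℝ)) : O ≤ C ^ (40 / 19 : ℝ) * K⁻¹ := by
  rcases hO.eq_or_lt with h0 | h0
  · rw [← h0]
    positivity
  · have h1 : O ^ (19 / 40 : ℝ) * O ^ (21 / 40 : ℝ) = O := by
      rw [← Real.rpow_add h0]
      norm_num
    have h2 : (O * K⁻¹) ^ (21 / 40 : ℝ) = O ^ (21 / 40 : ℝ) * K ^ (-(21 / 40) : ℝ) := by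
      rw [Real.mul_rpow h0.le (by positivity), Real.inv_rpow hK.le, ← Real.rpow_neg hK.le]
    have h3 : K ^ (1 / 20 : ℝ) * K ^ (-(21 / 40) : ℝ) = K ^ (-(19 / 40) : ℝ) := by
      rw [← Real.rpow_add hK]
      norm_num
    have h4 : O ^ (19 / 40 : ℝ) * O ^ (21 / 40 : ℝ) ≤
        C * K ^ (-(19 / 40) : ℝ) * O ^ (21 / 40 : ℝ) := by
      calc O ^ (19 / 40 : ℝ) * O ^ (21 / 40 : ℝ) = O := h1
        _ ≤ C * K ^ (1 / 20 : ℝ) * (O * K⁻¹) ^ (21 / 40 : ℝ) := h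
        _ = C * (K ^ (1 / 20 : ℝ) * K ^ (-(21 / 40) : ℝ)) * O ^ (21 / 40 : ℝ) := by rw [h2]; ring
        _ = C * K ^ (-(19 / 40) : ℝ) * O ^ (21 / 40 : ℝ) := by rw [h3]
    have h5 : O ^ (19 / 40 : ℝ) ≤ C * K ^ (-(19 / 40) : ℝ) :=
      le_of_mul_le_mul_right h4 (Real.rpow_pos_of_pos h0 _)
    have h6 : (O ^ (19 / 40 : ℝ)) ^ (40 / 19 : ℝ) ≤ (C * K ^ (-(19 / 40) : ℝ)) ^ (40 / 19 : ℝ) :=
      Real.rpow_le_rpow (by positivity) h5 (by norm_num)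
    rw [Real.mul_rpow hC.le (by positivity), ← Real.rpow_mul h0.le, ← Real.rpow_mul hK.le] at h6
    have e1 : (19 / 40 : ℝ) * (40 / 19) = 1 := by norm_num
    have e2 : (-(19 / 40) : ℝ) * (40 / 19) = -1 := by norm_num
    rw [e1, e2, Real.rpow_one, Real.rpow_neg_one] at h6
    exact h6

/-- (3.3). PROOF. `V = Cap`, `O := ∑_{e ∈ EK, e.1 ∈ V} o = ∑_{q ∈ V} ∑_{e ∈ EK, e.1 = q} o ≥ K ∑_V f`. `h3_sub`: `O ≤ C K^(1/20) (O/K)^(21/40)`, so (if `O > 0`)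
`O^(19/40) ≤ C K^(1/20 - 21/40) = C K^(-19/40)`, `O ≤ C^(40/19) / K`. -/
theorem h3_cap (c0 : ℝ) : ∃ C : ℝ, 0 < C ∧ ∀ (γ : ℝ) (f : ℕ → ℝ) (S : Finset ℕ), Blk c0 f S → ∀ (k : ℕ),
    ∑ e ∈ (EK γ f S k).filter (fun e => e.1 ∈ Cap γ f S k), ov f e.1 e.2 ≤ C * ((2 : ℝ) ^ k)⁻¹ := by
  obtain ⟨C, hC, H⟩ := h3_sub c0
  refine ⟨C ^ (40 / 19 : ℝ), by positivity, ?_⟩
  intro γ f S hB k
  have hK : (0 : ℝ) < (2 : ℝ) ^ k := by positivity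
  have hV : Cap γ f S k ⊆ S := Finset.filter_subset _ _
  have hov : ∀ e ∈ EK γ f S k, 0 ≤ ov f e.1 e.2 := by
    intro e he
    have h1 := (h0_EK γ f S k e).1 he
    exact h0_ov_nonneg c0 f S hB e.1 e.2 h1.1 h1.2.1
  have hO : 0 ≤ ∑ e ∈ (EK γ f S k).filter (fun e => e.1 ∈ Cap γ f S k), ov f e.1 e.2 :=
    Finset.sum_nonneg fun e he => hov e (Finset.mem_filter.1 he).1
  have hM : 0 ≤ ∑ q ∈ Cap γ f S k, f q := Finset.sum_nonneg fun q hq => (hB.fpos q (hV hq)).le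
  have h1 := H γ f S hB k (Cap γ f S k) hV
  have h2 : (2 : ℝ) ^ k * ∑ q ∈ Cap γ f S k, f q ≤
      ∑ e ∈ (EK γ f S k).filter (fun e => e.1 ∈ Cap γ f S k), ov f e.1 e.2 := by
    rw [Finset.mul_sum]
    have h3 : ∑ e ∈ (EK γ f S k).filter (fun e => e.1 ∈ Cap γ f S k), ov f e.1 e.2 =
        ∑ q ∈ Cap γ f S k, ∑ e ∈ (EK γ f S k).filter (fun e => e.1 = q), ov f e.1 e.2 := by
      rw [← Finset.sum_fiberwise_of_maps_to (s := (EK γ f S k).filter (fun e => e.1 ∈ Cap γ f S k))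
        (t := Cap γ f S k) (g := Prod.fst) (fun e he => (Finset.mem_filter.1 he).2)]
      refine Finset.sum_congr rfl fun q hq => ?_
      refine Finset.sum_congr ?_ fun _ _ => rfl
      ext e
      simp only [Finset.mem_filter]
      constructor
      · rintro ⟨⟨h1, _⟩, h3⟩
        exact ⟨h1, h3⟩
      · rintro ⟨h1, h3⟩
        exact ⟨⟨h1, by rw [h3]; exact hq⟩, h3⟩
    rw [h3]
    refine Finset.sum_le_sum fun q hq => ?_
    exact (Finset.mem_filter.1 hq).2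
  refine h3_solve C _ _ hC hK hO ?_
  refine h1.trans (mul_le_mul_of_nonneg_left ?_ (by positivity))
  refine Real.rpow_le_rpow hM ?_ (by norm_num)
  rw [← div_eq_mul_inv, le_div_iff₀ hK, mul_comm]
  exact h2

end Pool.Agent.H20G
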