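import Mathlib
import Pool.Agent.Lib.H20G.Core
import Pool.Agent.Lib.H20G.H0
import Pool.Agent.Lib.H20G.H1
import Pool.Agent.Lib.H20G.H2
import Pool.Agent.Lib.H20G.H2G

set_option autoImplicit false

/-!
# H20G chunk H3B: far classes (3.2)
-/

namespace Pool.Agent.H20G

open Finset

/-- `k < 5 d` implies `K^(1/5) < 2^d` -/
theorem h3b_lt (k d : ℕ) (h : k < 5 * d) : ((2 : ℝ) ^ k) ^ (1 / 5 : ℝ) < (2 : ℝ) ^ d := by
  have h1 : ((2 : ℝ) ^ k) ^ (1 / 5 : ℝ) = (2 : ℝ) ^ ((k : ℝ) * (1 / 5)) := by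
    rw [← Real.rpow_natCast, ← Real.rpow_mul (by norm_num)]
  have h2 : (2 : ℝ) ^ d = (2 : ℝ) ^ (d : ℝ) := (Real.rpow_natCast 2 d).symm
  rw [h1, h2]
  refine Real.rpow_lt_rpow_of_exponent_lt (by norm_num) ?_
  have h3 : (k : ℝ) < 5 * d := by exact_mod_cast h
  linarith

/-- Far classes. PROOF. `h2_cls` with `F` the set below, `V = W = S`, `w d = if K^(1/5) < 2^d then (2^(-d))^(19/40) else 0`, `Wd = 4 K^(-19/200)`
(`h2_tail` with `Y = K^(1/5)`), `A = C1 K^(1/20)`: for `i ≤ j` with `K^(1/5) < 2^(j-i)` the hypothesis is `h1_plain`, otherwise the sum is empty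
(for `i ≤ j`: `k < 5(j-i)` iff `K^(1/5) < 2^(j-i)`; for `i > j` no edges by `rc e.1 ≤ rc e.2`). `1/20 - 19/200 = -9/200`. -/
theorem h3_far (c0 : ℝ) : ∃ C : ℝ, 0 < C ∧ ∀ (γ : ℝ) (f : ℕ → ℝ) (S : Finset ℕ), Blk c0 f S → ∀ (k : ℕ),
    ∑ e ∈ (EK γ f S k).filter (fun e => rc f e.1 ≤ rc f e.2 ∧ k < 5 * (rc f e.2 - rc f e.1)), ov f e.1 e.2 ≤
      C * ((2 : ℝ) ^ k) ^ (-(9 / 200) : ℝ) := by
  obtain ⟨C1, hC1, H1⟩ := h1_plain c0
  refine ⟨32 * C1, by positivity, ?_⟩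
  intro γ f S hB k
  have hK : (0 : ℝ) < (2 : ℝ) ^ k := by positivity
  have hA : 0 ≤ C1 * ((2 : ℝ) ^ k) ^ (1 / 20 : ℝ) := by positivity
  have hf : ∀ q ∈ S, 0 ≤ f q := fun q hq => (hB.fpos q hq).le
  have hM : 0 ≤ ∑ q ∈ S, f q := Finset.sum_nonneg hf
  have hY : ((2 : ℝ) ^ k) ^ (-(19 / 200) : ℝ) = (((2 : ℝ) ^ k) ^ (1 / 5 : ℝ)) ^ (-(19 / 40) : ℝ) := by
    rw [← Real.rpow_mul hK.le]
    norm_num
  have key := h2_cls (rc f) (fun e => ov f e.1 e.2) f S S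
    ((EK γ f S k).filter (fun e => rc f e.1 ≤ rc f e.2 ∧ k < 5 * (rc f e.2 - rc f e.1)))
    (fun e he => ⟨((h0_EK γ f S k e).1 (Finset.mem_filter.1 he).1).1,
      ((h0_EK γ f S k e).1 (Finset.mem_filter.1 he).1).2.1⟩) hf hf
    (fun d => if ((2 : ℝ) ^ k) ^ (1 / 5 : ℝ) < (2 : ℝ) ^ d then ((1 / 2 : ℝ) ^ d) ^ (19 / 40 : ℝ) else 0)
    (fun d => by split_ifs <;> positivity) (4 * ((2 : ℝ) ^ k) ^ (-(19 / 200) : ℝ))
    (fun n => by
      rw [hY]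
      exact h2_tail _ (by positivity) n)
    (C1 * ((2 : ℝ) ^ k) ^ (1 / 20 : ℝ)) hA ?_
  · have h2 : ((∑ q ∈ S, f q) * ∑ q ∈ S, f q) ^ (21 / 40 : ℝ) ≤ 4 := by
      have h3 : (∑ q ∈ S, f q) * ∑ q ∈ S, f q ≤ 4 := by
        have h4 := hB.sum_le
        nlinarith
      calc ((∑ q ∈ S, f q) * ∑ q ∈ S, f q) ^ (21 / 40 : ℝ) ≤ (4 : ℝ) ^ (21 / 40 : ℝ) :=
            Real.rpow_le_rpow (by positivity) h3 (by norm_num)
        _ ≤ (4 : ℝ) ^ (1 : ℝ) := Real.rpow_le_rpow_of_exponent_le (by norm_num) (by norm_num)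
        _ = 4 := Real.rpow_one 4
    have h5 : ((2 : ℝ) ^ k) ^ (1 / 20 : ℝ) * ((2 : ℝ) ^ k) ^ (-(19 / 200) : ℝ) =
        ((2 : ℝ) ^ k) ^ (-(9 / 200) : ℝ) := by
      rw [← Real.rpow_add hK]
      norm_num
    calc _ ≤ 2 * (C1 * ((2 : ℝ) ^ k) ^ (1 / 20 : ℝ)) * (4 * ((2 : ℝ) ^ k) ^ (-(19 / 200) : ℝ)) *
          ((∑ q ∈ S, f q) * ∑ q ∈ S, f q) ^ (21 / 40 : ℝ) := key
      _ ≤ 2 * (C1 * ((2 : ℝ) ^ k) ^ (1 / 20 : ℝ)) * (4 * ((2 : ℝ) ^ k) ^ (-(19 / 200) : ℝ)) * 4 :=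
          mul_le_mul_of_nonneg_left h2 (by positivity)
      _ = 32 * C1 * (((2 : ℝ) ^ k) ^ (1 / 20 : ℝ) * ((2 : ℝ) ^ k) ^ (-(19 / 200) : ℝ)) := by ring
      _ = 32 * C1 * ((2 : ℝ) ^ k) ^ (-(9 / 200) : ℝ) := by rw [h5]
  · intro i j
    by_cases hij : i ≤ j ∧ k < 5 * (j - i)
    · have h := H1 γ f S hB k i j hij.1 (S.filter (fun q => rc f q = i))
        (S.filter (fun q => rc f q = j)) (Finset.filter_subset _ _)
        (Finset.filter_subset _ _) (fun q hq => (Finset.mem_filter.1 hq).2)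
        (fun q hq => (Finset.mem_filter.1 hq).2)
        (((EK γ f S k).filter (fun e => rc f e.1 ≤ rc f e.2 ∧ k < 5 * (rc f e.2 - rc f e.1))).filter
          (fun e => rc f e.1 = i ∧ rc f e.2 = j))
        ((Finset.filter_subset _ _).trans (Finset.filter_subset _ _)) ?_
      · rw [max_eq_right hij.1, min_eq_left hij.1]
        simp only [if_pos (h3b_lt k (j - i) hij.2)]
        exact h
      · intro e he
        obtain ⟨he1, he2, he3⟩ := Finset.mem_filter.1 he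
        obtain ⟨he4, he5⟩ := Finset.mem_filter.1 he1
        have he6 := (h0_EK γ f S k e).1 he4
        exact ⟨Finset.mem_filter.2 ⟨he6.1, he2⟩, Finset.mem_filter.2 ⟨he6.2.1, he3⟩⟩
    · rw [Finset.filter_eq_empty_iff.2, Finset.sum_empty]
      · have h1 : 0 ≤ ∑ q ∈ S.filter (fun q => rc f q = i), f q :=
          Finset.sum_nonneg fun q hq => hf q (Finset.mem_filter.1 hq).1
        have h2 : 0 ≤ ∑ q ∈ S.filter (fun q => rc f q = j), f q :=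
          Finset.sum_nonneg fun q hq => hf q (Finset.mem_filter.1 hq).1
        have h3 : (0 : ℝ) ≤ (if ((2 : ℝ) ^ k) ^ (1 / 5 : ℝ) < (2 : ℝ) ^ (max i j - min i j) then
            ((1 / 2 : ℝ) ^ (max i j - min i j)) ^ (19 / 40 : ℝ) else 0) := by
          split_ifs <;> positivity
        exact mul_nonneg (mul_nonneg hA h3) (by positivity)
      · rintro e he ⟨hi, hj⟩
        have h1 := (Finset.mem_filter.1 he).2
        rw [hi, hj] at h1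
        exact hij h1

end Pool.Agent.H20G
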