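import Mathlib
import Pool.Agent.Lib.H20G.Core
import Pool.Agent.Lib.H20G.G8

set_option autoImplicit false

/-!
# H20G chunk H4A: arithmetic of hub pairs; the removed set (3.4)
-/

namespace Pool.Agent.H20G

open Finset

/-- Arithmetic of a pair `(N x/h, N x'/h')`, `gcd(x h', x' h) = 1`. PROOF. `gcd(h, h') = 1`, so `N = h h' g`; `q = h' g x`, `r = h g x'`,
`gcd(q, r) = g gcd(h' x, h x') = g`; so `aa = x h'`, `bb = x' h`, `lcm = g x h' x' h = N x x'`. `gcd(q, N) = gcd(h' g x, h' g h) = h' g = N/h`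
(as `gcd(x, h) = 1`), so `N / gcd(q,N) = h`, `q / gcd(q, N) = x`. -/
theorem h4_arith (N h h' x x' : ℕ) (hN : 0 < N) (hh : h ∣ N) (hh' : h' ∣ N) (hx : 0 < x) (hx' : 0 < x')
    (hc : Nat.Coprime (x * h') (x' * h)) :
    aa (N / h * x) (N / h' * x') = x * h' ∧ bb (N / h * x) (N / h' * x') = x' * h ∧
      Nat.lcm (N / h * x) (N / h' * x') = N * x * x' ∧
      N / Nat.gcd (N / h * x) N = h ∧ (N / h * x) / Nat.gcd (N / h * x) N = x ∧
      N / Nat.gcd (N / h' * x') N = h' ∧ (N / h' * x') / Nat.gcd (N / h' * x') N = x' := by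
  have hc1 : Nat.Coprime h h' := (hc.coprime_mul_left.coprime_mul_left_right).symm
  have hxh : Nat.Coprime x h := hc.coprime_mul_right.coprime_mul_left_right
  have hxh' : Nat.Coprime x' h' := (hc.coprime_mul_left.coprime_mul_right_right).symm
  obtain ⟨g, rfl⟩ := hc1.mul_dvd_of_dvd_of_dvd hh hh'
  have h0 : 0 < h := Nat.pos_of_ne_zero (by rintro rfl; simp at hN)
  have h0' : 0 < h' := Nat.pos_of_ne_zero (by rintro rfl; simp at hN)
  have g0 : 0 < g := Nat.pos_of_ne_zero (by rintro rfl; simp at hN)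
  have e1 : h * h' * g / h = h' * g := Nat.div_eq_of_eq_mul_right h0 (by ring)
  have e2 : h * h' * g / h' = h * g := Nat.div_eq_of_eq_mul_right h0' (by ring)
  rw [e1, e2]
  have g1 : Nat.gcd (h' * g * x) (h * g * x') = g := by
    have e3 : h' * g * x = g * (x * h') := by ring
    have e4 : h * g * x' = g * (x' * h) := by ring
    rw [e3, e4, Nat.gcd_mul_left, hc.gcd_eq_one, mul_one]
  have g2 : Nat.gcd (h' * g * x) (h * h' * g) = h' * g := by
    have e4 : h * h' * g = h' * g * h := by ring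
    rw [e4, Nat.gcd_mul_left, hxh.gcd_eq_one, mul_one]
  have g3 : Nat.gcd (h * g * x') (h * h' * g) = h * g := by
    have e4 : h * h' * g = h * g * h' := by ring
    rw [e4, Nat.gcd_mul_left, hxh'.gcd_eq_one, mul_one]
  refine ⟨?_, ?_, ?_, ?_, ?_, ?_, ?_⟩
  · unfold aa
    rw [g1]
    exact Nat.div_eq_of_eq_mul_right g0 (by ring)
  · unfold bb
    rw [g1]
    exact Nat.div_eq_of_eq_mul_right g0 (by ring)
  · unfold Nat.lcm
    rw [g1]
    exact Nat.div_eq_of_eq_mul_right g0 (by ring)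
  · rw [g2]
    exact Nat.div_eq_of_eq_mul_right (Nat.mul_pos h0' g0) (by ring)
  · rw [g2]
    exact Nat.div_eq_of_eq_mul_right (Nat.mul_pos h0' g0) (by ring)
  · rw [g3]
    exact Nat.div_eq_of_eq_mul_right (Nat.mul_pos h0 g0) (by ring)
  · rw [g3]
    exact Nat.div_eq_of_eq_mul_right (Nat.mul_pos h0 g0) (by ring)

open Classical in
/-- the removed set: all pairs of `F` in blocks of `N, 2^s, 2^s'` with more than `K^(-1/4) 2^s 2^s'` elements -/
noncomputable def Rm (k N s s' : ℕ) (F : Finset (ℕ × ℕ)) : Finset (ℕ × ℕ) :=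
  F.filter (fun e => ∃ h h' x x' : ℕ, h ∣ N ∧ h' ∣ N ∧ (x, x') ∈ Bl (F : Set (ℕ × ℕ)) N h h' (2 ^ s) (2 ^ s') ∧
    e = (N / h * x, N / h' * x') ∧
    ((2 : ℝ) ^ k) ^ (-(1 / 4) : ℝ) * ((2 : ℝ) ^ s * 2 ^ s') < ((Bl (F : Set (ℕ × ℕ)) N h h' (2 ^ s) (2 ^ s')).card : ℝ))

end Pool.Agent.H20G
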