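import Mathlib
import Pool.Agent.Lib.H20G.Core
import Pool.Agent.Lib.H20G.G8
import Pool.Agent.Lib.H20G.H0
import Pool.Agent.Lib.H20G.H4A

set_option autoImplicit false

/-!
# H20G chunk H4B: removed pairs are hub edges (3.4)
-/

namespace Pool.Agent.H20G

open Finset

theorem h4b_mem (E0 : Set (ℕ × ℕ)) (N h h' X X' : ℕ) (y : ℕ × ℕ) :
    y ∈ Bl E0 N h h' X X' ↔ (y.1 ∈ Ico X (2 * X) ∧ y.2 ∈ Ico X' (2 * X')) ∧ Nat.Coprime (y.1 * h') (y.2 * h) ∧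
      (N / h * y.1, N / h' * y.2) ∈ E0 := by
  simp only [Bl, Finset.mem_filter, Finset.mem_product]

/-- The removed pairs are hub edges. PROOF. `Bl F N h h' 2^s 2^s' ⊆ RelB γ k h h' s s'`: for `(y, y')` in the block the pair
`(N y/h, N y'/h')` is in `F`, an edge of level `k`, so `nint (γ (bb - aa)) ≤ DD ≤ 1/2^k`, with `aa = y h'`, `bb = y' h` (`h4_arith`); `2^(s+1) = 2·2^s`.
`(2^k)^(-1/4) = 2^(-k/4)`. The other parts of `HubEdge` by `h4_arith` (`h = N/gcd(q,N)` etc.). -/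
theorem h4_hub (γ : ℝ) (f : ℕ → ℝ) (S : Finset ℕ) (k N s s' : ℕ) (hN : 0 < N) (F : Finset (ℕ × ℕ)) (hF : F ⊆ EK γ f S k) :
    ∀ e ∈ Rm k N s s' F, HubEdge γ k (N, s, s') e.1 e.2 := by
  classical
  intro e he
  obtain ⟨-, h, h', x, x', hh, hh', hb, rfl, hcard⟩ := mem_filter.1 he
  have hpos : ∀ y z : ℕ, (y, z) ∈ Bl (F : Set (ℕ × ℕ)) N h h' (2 ^ s) (2 ^ s') → 0 < y ∧ 0 < z := by
    intro y z hyz
    obtain ⟨⟨h2, h3⟩, -⟩ := (h4b_mem _ _ _ _ _ _ _).1 hyz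
    exact ⟨lt_of_lt_of_le (pow_pos two_pos _) (mem_Ico.1 h2).1,
      lt_of_lt_of_le (pow_pos two_pos _) (mem_Ico.1 h3).1⟩
  obtain ⟨hx, hx'⟩ := hpos x x' hb
  obtain ⟨⟨hbx, hbx'⟩, hc, hbF⟩ := (h4b_mem _ _ _ _ _ _ _).1 hb
  obtain ⟨a1, a2, a3, a4, a5, a6, a7⟩ := h4_arith N h h' x x' hN hh hh' hx hx' hc
  have hsub : Bl (F : Set (ℕ × ℕ)) N h h' (2 ^ s) (2 ^ s') ⊆ RelB γ k h h' s s' := by
    rintro ⟨y, z⟩ hyz
    obtain ⟨hy, hz⟩ := hpos y z hyz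
    obtain ⟨⟨h4, h5⟩, h2, h3⟩ := (h4b_mem _ _ _ _ _ _ _).1 hyz
    obtain ⟨b1, b2, -⟩ := h4_arith N h h' y z hN hh hh' hy hz h2
    have hE := (h0_EK γ f S k _).1 (hF (mem_coe.1 h3))
    obtain ⟨-, -, -, e1, -, e2⟩ := hE
    refine mem_filter.2 ⟨mem_product.2 ⟨?_, ?_⟩, h2, ?_⟩
    · rw [pow_succ']
      exact h4
    · rw [pow_succ']
      exact h5
    · have e3 := e2.trans e1
      simp only at e3
      rw [b1, b2] at e3
      push_cast at e3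
      exact e3
  refine ⟨?_, ?_, ?_, ?_⟩
  · show (N / h * x) / Nat.gcd (N / h * x) N ∈ Ico (2 ^ s) (2 ^ (s + 1))
    rw [a5, pow_succ']
    exact hbx
  · show (N / h' * x') / Nat.gcd (N / h' * x') N ∈ Ico (2 ^ s') (2 ^ (s' + 1))
    rw [a7, pow_succ']
    exact hbx'
  · show Nat.Coprime ((N / h * x) / Nat.gcd (N / h * x) N * (N / Nat.gcd (N / h' * x') N))
      ((N / h' * x') / Nat.gcd (N / h' * x') N * (N / Nat.gcd (N / h * x) N))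
    rw [a4, a5, a6, a7]
    exact hc
  · show Rich γ k (N / Nat.gcd (N / h * x) N) (N / Nat.gcd (N / h' * x') N) s s'
    rw [a4, a6]
    unfold Rich
    have h1 : ((Bl (F : Set (ℕ × ℕ)) N h h' (2 ^ s) (2 ^ s')).card : ℝ) ≤ ((RelB γ k h h' s s').card : ℝ) := by
      exact_mod_cast card_le_card hsub
    refine lt_of_lt_of_le ?_ h1
    have h2 : (2 : ℝ) ^ (-((k : ℝ) / 4)) = ((2 : ℝ) ^ k) ^ (-(1 / 4) : ℝ) := by
      rw [← Real.rpow_natCast 2 k, ← Real.rpow_mul (by norm_num)]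
      congr 1
      ring
    rw [h2, mul_assoc]
    exact hcard

end Pool.Agent.H20G
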