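import Mathlib
import Pool.Agent.Lib.H20G.Core
import Pool.Agent.Lib.H20G.G8
import Pool.Agent.Lib.H20G.D5
import Pool.Agent.Lib.H20G.H0
import Pool.Agent.Lib.H20G.H4A

set_option autoImplicit false

/-!
# H20G chunk H4C: mass of the removed set (3.4)
-/

namespace Pool.Agent.H20G

open Finset

theorem h4c_mem (E0 : Set (ℕ × ℕ)) (N h h' X X' : ℕ) (y : ℕ × ℕ) :
    y ∈ Bl E0 N h h' X X' ↔ (y.1 ∈ Ico X (2 * X) ∧ y.2 ∈ Ico X' (2 * X')) ∧ Nat.Coprime (y.1 * h') (y.2 * h) ∧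
      (N / h * y.1, N / h' * y.2) ∈ E0 := by
  simp only [Bl, Finset.mem_filter, Finset.mem_product]

/-- Lower bound for the removed mass. `K = 2^k`, `X = 2^s`, `X' = 2^s'`.
PROOF. `∑_{e ∈ Rm} o(e) = ∑ over (h,h') with large block, (x,x') in the block, of o(N x/h, N x'/h')`: the map `(h,h',x,x') ↦ (N x/h, N x'/h')` is
injective (`h4_arith`: `h = N/gcd(q,N)`, `x = q/gcd(q,N)`, same for `r`). Each term is `≥ K 2^(-i-j-1) (N/h) x (N/h') x' ≥ K 2^(-i-j-1) N² X X'/(h h')`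
(`h0_ov`; `((N/h : ℕ) : ℝ) = N/h` as `h ∣ N`). So the sum is `≥ K 2^(-i-j-1) N² XX' ∑_{large} #Bl/(hh') ≥ K 2^(-i-j-1) N² XX' ∑_{h,h'} (1/(hh')) max 0 (#Bl - K^(-1/4) XX')`
`> K 2^(-i-j-1) N² XX' K^(-6) XX'` (the hypothesis `hv`, the negated inequality of `HypK`). -/
theorem h4_mass (c0 : ℝ) (γ : ℝ) (f : ℕ → ℝ) (S : Finset ℕ) (hB : Blk c0 f S) (k i j N s s' : ℕ) (hij : i ≤ j) (hN : 0 < N)
    (F : Finset (ℕ × ℕ)) (hF : F ⊆ EK γ f S k) (hc : ∀ e ∈ F, rc f e.1 = i ∧ rc f e.2 = j)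
    (hv : ((2 : ℝ) ^ k) ^ (-6 : ℝ) * ((2 : ℝ) ^ s * 2 ^ s') < ∑ h ∈ N.divisors, ∑ h' ∈ N.divisors, (1 / ((h : ℝ) * h')) *
      max 0 (((Bl (F : Set (ℕ × ℕ)) N h h' (2 ^ s) (2 ^ s')).card : ℝ) - ((2 : ℝ) ^ k) ^ (-(1 / 4) : ℝ) * ((2 : ℝ) ^ s * 2 ^ s'))) :
    ((2 : ℝ) ^ k) ^ (-5 : ℝ) * (1 / 2 : ℝ) ^ (i + j + 1) * ((N : ℝ) * (2 ^ s * 2 ^ s')) ^ 2 <
      ∑ e ∈ Rm k N s s' F, ov f e.1 e.2 := by
  classical
  have hN' : (0 : ℝ) < N := by exact_mod_cast hN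
  have hpos : ∀ h h' : ℕ, ∀ y ∈ Bl (F : Set (ℕ × ℕ)) N h h' (2 ^ s) (2 ^ s'), 0 < y.1 ∧ 0 < y.2 := by
    intro h h' y hyz
    obtain ⟨⟨h2, h3⟩, -⟩ := (h4c_mem _ _ _ _ _ _ _).1 hyz
    exact ⟨lt_of_lt_of_le (pow_pos two_pos _) (mem_Ico.1 h2).1,
      lt_of_lt_of_le (pow_pos two_pos _) (mem_Ico.1 h3).1⟩
  set K : ℝ := (2 : ℝ) ^ k with hKdef
  have hK : 0 < K := by positivity
  set XX : ℝ := (2 : ℝ) ^ s * 2 ^ s' with hXX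
  have hXX0 : 0 < XX := by positivity
  set D : Finset (ℕ × ℕ) := (N.divisors ×ˢ N.divisors).filter (fun p =>
    K ^ (-(1 / 4) : ℝ) * XX < ((Bl (F : Set (ℕ × ℕ)) N p.1 p.2 (2 ^ s) (2 ^ s')).card : ℝ)) with hD
  have hDdvd : ∀ p ∈ D, p.1 ∣ N ∧ p.2 ∣ N := by
    intro p hp
    obtain ⟨h1, h2⟩ := mem_product.1 (mem_filter.1 hp).1
    exact ⟨Nat.dvd_of_mem_divisors h1, Nat.dvd_of_mem_divisors h2⟩
  let S0 : Finset (Σ _ : ℕ × ℕ, ℕ × ℕ) :=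
    D.sigma (fun p => Bl (F : Set (ℕ × ℕ)) N p.1 p.2 (2 ^ s) (2 ^ s'))
  let ψ : (Σ _ : ℕ × ℕ, ℕ × ℕ) → ℕ × ℕ := fun t => (N / t.1.1 * t.2.1, N / t.1.2 * t.2.2)
  have hinj : Set.InjOn ψ S0 := by
    rintro ⟨⟨h, h'⟩, ⟨x, x'⟩⟩ ht ⟨⟨g, g'⟩, ⟨y, y'⟩⟩ hu he
    obtain ⟨ht1, ht2⟩ := mem_sigma.1 (mem_coe.1 ht)
    obtain ⟨hu1, hu2⟩ := mem_sigma.1 (mem_coe.1 hu)
    have he1 : N / h * x = N / g * y := congrArg Prod.fst he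
    have he2 : N / h' * x' = N / g' * y' := congrArg Prod.snd he
    obtain ⟨-, -, -, a4, a5, a6, a7⟩ := h4_arith N h h' x x' hN (hDdvd _ ht1).1 (hDdvd _ ht1).2
      (hpos _ _ _ ht2).1 (hpos _ _ _ ht2).2 ((h4c_mem _ _ _ _ _ _ _).1 ht2).2.1
    obtain ⟨-, -, -, b4, b5, b6, b7⟩ := h4_arith N g g' y y' hN (hDdvd _ hu1).1 (hDdvd _ hu1).2
      (hpos _ _ _ hu2).1 (hpos _ _ _ hu2).2 ((h4c_mem _ _ _ _ _ _ _).1 hu2).2.1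
    rw [he1] at a4 a5
    rw [he2] at a6 a7
    have c1 : h = g := a4.symm.trans b4
    have c2 : h' = g' := a6.symm.trans b6
    have c3 : x = y := a5.symm.trans b5
    have c4 : x' = y' := a7.symm.trans b7
    rw [c1, c2, c3, c4]
  have hsub : S0.image ψ ⊆ Rm k N s s' F := by
    intro e he
    obtain ⟨⟨⟨h, h'⟩, ⟨x, x'⟩⟩, ht, rfl⟩ := mem_image.1 he
    obtain ⟨ht1, ht2⟩ := mem_sigma.1 ht
    refine mem_filter.2 ⟨mem_coe.1 ((h4c_mem _ _ _ _ _ _ _).1 ht2).2.2, h, h', x, x', (hDdvd _ ht1).1,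
      (hDdvd _ ht1).2, ht2, rfl, (mem_filter.1 ht1).2⟩
  have hRmF : ∀ e ∈ Rm k N s s' F, e ∈ F := fun e he => (mem_filter.1 he).1
  have h1 : ∑ e ∈ S0.image ψ, ov f e.1 e.2 ≤ ∑ e ∈ Rm k N s s' F, ov f e.1 e.2 := by
    refine sum_le_sum_of_subset_of_nonneg hsub fun e he _ => ?_
    have hE := (h0_EK γ f S k e).1 (hF (hRmF e he))
    exact h0_ov_nonneg c0 f S hB e.1 e.2 hE.1 hE.2.1
  rw [sum_image hinj] at h1
  have h2 : ∑ t ∈ S0, ov f (ψ t).1 (ψ t).2 =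
      ∑ p ∈ D, ∑ y ∈ Bl (F : Set (ℕ × ℕ)) N p.1 p.2 (2 ^ s) (2 ^ s'),
        ov f (N / p.1 * y.1) (N / p.2 * y.2) := by
    exact sum_sigma _ _ _
  rw [h2] at h1
  set cc : ℝ := K * (1 / 2 : ℝ) ^ (i + j + 1) * ((N : ℝ) ^ 2 * XX) with hcc
  have hcc0 : 0 < cc := by positivity
  have h3 : ∀ p ∈ D, cc * ((1 / ((p.1 : ℝ) * p.2)) *
      ((Bl (F : Set (ℕ × ℕ)) N p.1 p.2 (2 ^ s) (2 ^ s')).card : ℝ)) ≤
      ∑ y ∈ Bl (F : Set (ℕ × ℕ)) N p.1 p.2 (2 ^ s) (2 ^ s'), ov f (N / p.1 * y.1) (N / p.2 * y.2) := by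
    intro p hp
    have hp1 : 0 < p.1 := Nat.pos_of_dvd_of_pos (hDdvd p hp).1 hN
    have hp2 : 0 < p.2 := Nat.pos_of_dvd_of_pos (hDdvd p hp).2 hN
    have hp1' : (0 : ℝ) < p.1 := by exact_mod_cast hp1
    have hp2' : (0 : ℝ) < p.2 := by exact_mod_cast hp2
    have h4 : ∀ y ∈ Bl (F : Set (ℕ × ℕ)) N p.1 p.2 (2 ^ s) (2 ^ s'),
        cc * (1 / ((p.1 : ℝ) * p.2)) ≤ ov f (N / p.1 * y.1) (N / p.2 * y.2) := by
      intro y hy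
      obtain ⟨⟨hy1, hy2⟩, -, hyF⟩ := (h4c_mem _ _ _ _ _ _ _).1 hy
      have hyF' := mem_coe.1 hyF
      have hE := (h0_EK γ f S k _).1 (hF hyF')
      obtain ⟨hc1, hc2⟩ := hc _ hyF'
      have h5 := (h0_ov c0 γ f S hB k _ _ hE (by rw [hc1, hc2]; exact hij)).1
      rw [hc1, hc2] at h5
      refine le_trans ?_ h5
      have e1 : (((N / p.1 * y.1 : ℕ) : ℝ)) = N / p.1 * y.1 := by
        rw [Nat.cast_mul, Nat.cast_div (hDdvd p hp).1 hp1'.ne']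
      have e2 : (((N / p.2 * y.2 : ℕ) : ℝ)) = N / p.2 * y.2 := by
        rw [Nat.cast_mul, Nat.cast_div (hDdvd p hp).2 hp2'.ne']
      have e3 : (2 : ℝ) ^ s ≤ y.1 := by exact_mod_cast (mem_Ico.1 hy1).1
      have e4 : (2 : ℝ) ^ s' ≤ y.2 := by exact_mod_cast (mem_Ico.1 hy2).1
      simp only
      rw [e1, e2]
      have e5 : cc * (1 / ((p.1 : ℝ) * p.2)) =
          K * (1 / 2 : ℝ) ^ (i + j + 1) * ((N / p.1 * 2 ^ s) * (N / p.2 * 2 ^ s')) := by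
        rw [hcc, hXX]
        field_simp
      rw [e5]
      apply mul_le_mul_of_nonneg_left _ (by positivity)
      apply mul_le_mul _ _ (by positivity) (by positivity)
      · exact mul_le_mul_of_nonneg_left e3 (by positivity)
      · exact mul_le_mul_of_nonneg_left e4 (by positivity)
    have h6 := card_nsmul_le_sum _ _ _ h4
    rw [nsmul_eq_mul] at h6
    calc _ = ((Bl (F : Set (ℕ × ℕ)) N p.1 p.2 (2 ^ s) (2 ^ s')).card : ℝ) *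
          (cc * (1 / ((p.1 : ℝ) * p.2))) := by ring
      _ ≤ _ := h6
  have h4 := sum_le_sum h3
  rw [← mul_sum] at h4
  have h5 : ∑ h ∈ N.divisors, ∑ h' ∈ N.divisors, (1 / ((h : ℝ) * h')) *
      max 0 (((Bl (F : Set (ℕ × ℕ)) N h h' (2 ^ s) (2 ^ s')).card : ℝ) - K ^ (-(1 / 4) : ℝ) * XX) ≤
      ∑ p ∈ D, (1 / ((p.1 : ℝ) * p.2)) * ((Bl (F : Set (ℕ × ℕ)) N p.1 p.2 (2 ^ s) (2 ^ s')).card : ℝ) := by
    rw [← sum_product', hD, sum_filter]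
    refine sum_le_sum fun p _ => ?_
    have e0 : (0 : ℝ) ≤ 1 / ((p.1 : ℝ) * p.2) := by positivity
    have e1 : 0 < K ^ (-(1 / 4) : ℝ) * XX := mul_pos (Real.rpow_pos_of_pos hK _) hXX0
    split_ifs with h6
    · apply mul_le_mul_of_nonneg_left _ e0
      refine max_le (Nat.cast_nonneg _) ?_
      linarith
    · rw [max_eq_left (by linarith [not_lt.1 h6]), mul_zero]
  have h6 : cc * (K ^ (-6 : ℝ) * XX) < ∑ e ∈ Rm k N s s' F, ov f e.1 e.2 :=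
    lt_of_lt_of_le (mul_lt_mul_of_pos_left (lt_of_lt_of_le hv h5) hcc0) (h4.trans h1)
  refine lt_of_le_of_lt (le_of_eq ?_) h6
  have h7 : K ^ (-5 : ℝ) = K * K ^ (-6 : ℝ) := by
    rw [show (-5 : ℝ) = 1 + (-6) by norm_num, Real.rpow_add hK, Real.rpow_one]
  rw [h7, hcc]
  ring

end Pool.Agent.H20G
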