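import Mathlib
import Pool.Agent.Lib.H20G.Core
import Pool.Agent.Lib.H20G.G8
import Pool.Agent.Lib.H20G.D2
import Pool.Agent.Lib.H20G.D5
import Pool.Agent.Lib.H20G.H0
import Pool.Agent.Lib.H20G.H4A

set_option autoImplicit false

/-!
# H20G chunk H4D: size of a hub, masses of its sides (3.4)
-/

namespace Pool.Agent.H20G

open Finset

theorem h4d_side (c0 : ℝ) (f : ℕ → ℝ) (S : Finset ℕ) (hB : Blk c0 f S) (i N s : ℕ) (hN : 0 < N) (V : Finset ℕ)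
    (hV : ∀ q ∈ V, q ∈ S ∧ rc f q = i ∧ ∃ h x : ℕ, h ∣ N ∧ x ∈ Ico (2 ^ s) (2 * 2 ^ s) ∧ q = N / h * x) :
    ∑ q ∈ V, f q ≤ 2 * Real.exp (2 * rp N) * (1 / 2 : ℝ) ^ i * (N * ((2 : ℝ) ^ s) ^ 2) := by
  classical
  have h1 : ∑ q ∈ V, f q ≤ ∑ q ∈ V, (1 / 2 : ℝ) ^ i * (q : ℝ) :=
    sum_le_sum (h0_Z c0 f S hB V (fun q hq => (hV q hq).1) i (fun q hq => (hV q hq).2.1)).2
  refine h1.trans ?_
  rw [← mul_sum]
  have hsub : V ⊆ (N.divisors ×ˢ Ico (2 ^ s) (2 * 2 ^ s)).image (fun p => N / p.1 * p.2) := by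
    intro q hq
    obtain ⟨_, _, h, x, hh, hx, rfl⟩ := hV q hq
    exact mem_image.2 ⟨(h, x), mem_product.2 ⟨Nat.mem_divisors.2 ⟨hh, hN.ne'⟩, hx⟩, rfl⟩
  have h2 : ∑ q ∈ V, (q : ℝ) ≤ ∑ p ∈ N.divisors ×ˢ Ico (2 ^ s) (2 * 2 ^ s), ((N / p.1 * p.2 : ℕ) : ℝ) := by
    refine (sum_le_sum_of_subset_of_nonneg hsub (fun _ _ _ => Nat.cast_nonneg _)).trans ?_
    exact sum_image_le_of_nonneg (fun u _ => Nat.cast_nonneg u)
  have h3 : ∑ p ∈ N.divisors ×ˢ Ico (2 ^ s) (2 * 2 ^ s), ((N / p.1 * p.2 : ℕ) : ℝ) ≤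
      ∑ p ∈ N.divisors ×ˢ Ico (2 ^ s) (2 * 2 ^ s), ((N : ℝ) * (1 / (p.1 : ℝ))) * (2 * 2 ^ s) := by
    refine sum_le_sum (fun p hp => ?_)
    obtain ⟨hp1, hp2⟩ := mem_product.1 hp
    push_cast
    have a1 : ((N / p.1 : ℕ) : ℝ) ≤ (N : ℝ) * (1 / (p.1 : ℝ)) := by
      rw [mul_one_div]; exact Nat.cast_div_le
    have a2 : (p.2 : ℝ) ≤ 2 * 2 ^ s := by exact_mod_cast (mem_Ico.1 hp2).2.le
    exact mul_le_mul a1 a2 (Nat.cast_nonneg _) (by positivity)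
  have h4 : ∑ p ∈ N.divisors ×ˢ Ico (2 ^ s) (2 * 2 ^ s), ((N : ℝ) * (1 / (p.1 : ℝ))) * (2 * 2 ^ s) =
      (N : ℝ) * (∑ h ∈ N.divisors, 1 / (h : ℝ)) * (2 * ((2 : ℝ) ^ s) ^ 2) := by
    rw [sum_product]
    simp only [sum_const, Nat.card_Ico, nsmul_eq_mul]
    have a3 : ((2 * 2 ^ s - 2 ^ s : ℕ) : ℝ) = 2 ^ s := by
      have : 2 * 2 ^ s - 2 ^ s = 2 ^ s := by omega
      rw [this]; push_cast; ring
    rw [a3, mul_sum, sum_mul]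
    refine sum_congr rfl (fun h _ => ?_)
    ring
  have h5 := d2_inv N hN
  have h6 : ∑ q ∈ V, (q : ℝ) ≤ (N : ℝ) * Real.exp (2 * rp N) * (2 * ((2 : ℝ) ^ s) ^ 2) := by
    refine (h2.trans h3).trans (h4.le.trans ?_)
    exact mul_le_mul_of_nonneg_right (mul_le_mul_of_nonneg_left h5 (Nat.cast_nonneg _)) (by positivity)
  have h7 := mul_le_mul_of_nonneg_left h6 (by positivity : (0 : ℝ) ≤ (1 / 2) ^ i)
  refine h7.trans (le_of_eq ?_)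
  ring

theorem h4d_Bl {E0 : Set (ℕ × ℕ)} {N h h' X X' : ℕ} {x : ℕ × ℕ} (hx : x ∈ Bl E0 N h h' X X') :
    x.1 ∈ Ico X (2 * X) ∧ x.2 ∈ Ico X' (2 * X') ∧ Nat.Coprime (x.1 * h') (x.2 * h) ∧
      (N / h * x.1, N / h' * x.2) ∈ E0 := by
  unfold Bl at hx
  rw [@mem_filter _ _ (_) _ _] at hx
  exact ⟨(mem_product.1 hx.1).1, (mem_product.1 hx.1).2, hx.2.1, hx.2.2⟩

/-- `N X X' > 2^i/(16 K)` if the removed set is nonempty. PROOF. An element `(q, r) = (N x/h, N x'/h')` has `N x x' = lcm(q, r) ≥ 2^i/(4K)`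
(`h4_arith`, `h0_lcm`) and `x < 2X`, `x' < 2X'`. -/
theorem h4_low (c0 : ℝ) (γ : ℝ) (f : ℕ → ℝ) (S : Finset ℕ) (hB : Blk c0 f S) (k i j N s s' : ℕ) (hij : i ≤ j) (hN : 0 < N)
    (F : Finset (ℕ × ℕ)) (hF : F ⊆ EK γ f S k) (hc : ∀ e ∈ F, rc f e.1 = i ∧ rc f e.2 = j)
    (hne : (Rm k N s s' F).Nonempty) :
    (2 : ℝ) ^ i / (16 * (2 : ℝ) ^ k) < (N : ℝ) * (2 ^ s * 2 ^ s') := by
  classical
  obtain ⟨e, he⟩ := hne
  obtain ⟨heF, h, h', x, x', hh, hh', hx, rfl, -⟩ := mem_filter.1 he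
  obtain ⟨hxa, hxb, hcop, hxF⟩ := h4d_Bl hx
  rw [mem_Ico] at hxa hxb
  have hx0 : 0 < x := lt_of_lt_of_le (by positivity) hxa.1
  have hx0' : 0 < x' := lt_of_lt_of_le (by positivity) hxb.1
  have hE := (h0_EK γ f S k _).1 (hF heF)
  have hci := hc _ heF
  have hlcm := (h0_lcm c0 γ f S hB k _ _ hE (by rw [hci.1, hci.2]; exact hij)).1
  have har := (h4_arith N h h' x x' hN hh hh' hx0 hx0' hcop).2.2.1
  simp only at hlcm hci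
  rw [har, hci.1] at hlcm
  push_cast at hlcm
  have hxr : (x : ℝ) < 2 * 2 ^ s := by exact_mod_cast hxa.2
  have hxr' : (x' : ℝ) < 2 * 2 ^ s' := by exact_mod_cast hxb.2
  have hNr : (0 : ℝ) < N := Nat.cast_pos.2 hN
  have hx0r : (0 : ℝ) < x := Nat.cast_pos.2 hx0
  have hx0r' : (0 : ℝ) < x' := Nat.cast_pos.2 hx0'
  have h3 : (N : ℝ) * x * x' < N * (2 * 2 ^ s) * (2 * 2 ^ s') := by
    have a1 : (N : ℝ) * x < N * (2 * 2 ^ s) := mul_lt_mul_of_pos_left hxr hNr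
    exact mul_lt_mul a1 hxr'.le hx0r' (by positivity)
  have h4 : (2 : ℝ) ^ i / (16 * 2 ^ k) = (2 ^ i / (4 * 2 ^ k)) / 4 := by
    field_simp
    norm_num
  rw [h4]
  nlinarith

/-- Mass of the left (right) ends. PROOF. The first components of `Rm` lie in the union over `h ∣ N`, `x ∈ [X, 2X)` of `N x/h`, in class `i`:
`∑ f ≤ 2^(-i) ∑_{h ∣ N} ∑_x (N/h) x ≤ 2^(-i) N (∑_{h ∣ N} 1/h) X (2X)` (`h0_Z`, `d2_inv`). Same for the second components. -/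
theorem h4_side (c0 : ℝ) (γ : ℝ) (f : ℕ → ℝ) (S : Finset ℕ) (hB : Blk c0 f S) (k i j N s s' : ℕ) (hN : 0 < N)
    (F : Finset (ℕ × ℕ)) (hF : F ⊆ EK γ f S k) (hc : ∀ e ∈ F, rc f e.1 = i ∧ rc f e.2 = j) :
    ∑ q ∈ (Rm k N s s' F).image Prod.fst, f q ≤
        2 * Real.exp (2 * rp N) * (1 / 2 : ℝ) ^ i * (N * ((2 : ℝ) ^ s) ^ 2) ∧
      ∑ r ∈ (Rm k N s s' F).image Prod.snd, f r ≤
        2 * Real.exp (2 * rp N) * (1 / 2 : ℝ) ^ j * (N * ((2 : ℝ) ^ s') ^ 2) := by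
  classical
  constructor
  · refine h4d_side c0 f S hB i N s hN _ ?_
    intro q hq
    obtain ⟨e, he, rfl⟩ := mem_image.1 hq
    obtain ⟨heF, h, h', x, x', hh, hh', hx, rfl, -⟩ := mem_filter.1 he
    obtain ⟨hxa, hxb, hcop, hxF⟩ := h4d_Bl hx
    exact ⟨((h0_EK γ f S k _).1 (hF heF)).1, (hc _ heF).1, h, x, hh, hxa, rfl⟩
  · refine h4d_side c0 f S hB j N s' hN _ ?_
    intro q hq
    obtain ⟨e, he, rfl⟩ := mem_image.1 hq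
    obtain ⟨heF, h, h', x, x', hh, hh', hx, rfl, -⟩ := mem_filter.1 he
    obtain ⟨hxa, hxb, hcop, hxF⟩ := h4d_Bl hx
    exact ⟨((h0_EK γ f S k _).1 (hF heF)).2.1, (hc _ heF).2, h', x', hh', hxb, rfl⟩

end Pool.Agent.H20G
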