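import Mathlib
import Pool.Agent.Lib.H20G.Core
import Pool.Agent.Lib.H20G.G8
import Pool.Agent.Lib.H20G.D5
import Pool.Agent.Lib.H20G.H0
import Pool.Agent.Lib.H20G.H4A
import Pool.Agent.Lib.H20G.H4B
import Pool.Agent.Lib.H20G.H4C
import Pool.Agent.Lib.H20G.H4D

set_option autoImplicit false

/-!
# H20G chunk H5A: one greedy step (3.4)
-/

namespace Pool.Agent.H20G

open Finset

/-- `F` is a set of edges of level `k` between class `i` and class `j`, with capped masses at all vertices -/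
structure Capd (γ : ℝ) (f : ℕ → ℝ) (S : Finset ℕ) (k i j : ℕ) (F : Finset (ℕ × ℕ)) : Prop where
  sub : F ⊆ EK γ f S k
  cls : ∀ e ∈ F, rc f e.1 = i ∧ rc f e.2 = j
  cap1 : ∀ q ∈ S, ∑ e ∈ F.filter (fun e => e.1 = q), ov f e.1 e.2 ≤ (2 : ℝ) ^ k * f q
  cap2 : ∀ r ∈ S, ∑ e ∈ F.filter (fun e => e.2 = r), ov f e.1 e.2 ≤ (2 : ℝ) ^ k * f r

/-- the numbers of a hub: `N > 0`, `X/X' ≤ K^9`, `X'/X ≤ K^9` -/
def HubOk (k : ℕ) (t : ℕ × ℕ × ℕ) : Prop := 0 < t.1 ∧ t.2.1 ≤ t.2.2 + 9 * k ∧ t.2.2 ≤ t.2.1 + 9 * k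

/-- sum over a set of edges by one end -/
theorem h5a_side (o : ℕ × ℕ → ℝ) (pr : ℕ × ℕ → ℕ) (F R : Finset (ℕ × ℕ)) (hRF : R ⊆ F) (ho : ∀ e ∈ F, 0 ≤ o e) (g : ℕ → ℝ)
    (hcap : ∀ q ∈ R.image pr, ∑ e ∈ F.filter (fun e => pr e = q), o e ≤ g q) :
    ∑ e ∈ R, o e ≤ ∑ q ∈ R.image pr, g q := by
  rw [← Finset.sum_fiberwise_of_maps_to (s := R) (t := R.image pr) (g := pr) (fun e he => mem_image_of_mem _ he) o]
  refine Finset.sum_le_sum fun q hq => le_trans ?_ (hcap q hq)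
  refine Finset.sum_le_sum_of_subset_of_nonneg (Finset.filter_subset_filter _ hRF) fun e he _ => ?_
  exact ho e (mem_filter.1 he).1

/-- arithmetic of one greedy step -/
theorem h5a_num (N X X' K I J A s1 : ℝ) (hN : 0 < N) (hX : 0 < X) (hX' : 0 < X') (hK : 0 < K) (hI : 0 < I) (hJ : 0 < J)
    (h1 : (K ^ 5)⁻¹ * (1 / (2 * I * J)) * (N * (X * X')) ^ 2 < s1)
    (h2 : I / (16 * K) < N * (X * X'))
    (h3 : s1 ≤ K * (2 * A * (1 / I) * (N * X ^ 2))) :
    X' * I < 64 * A * K ^ 7 * J * X := by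
  have h4 : (K ^ 5)⁻¹ * (1 / (2 * I * J)) * (N * (X * X')) ^ 2 < K * (2 * A * (1 / I) * (N * X ^ 2)) := lt_of_lt_of_le h1 h3
  have h5 : N * X' ^ 2 < 4 * A * K ^ 6 * J := by
    have e1 : (K ^ 5)⁻¹ * (1 / (2 * I * J)) * (N * (X * X')) ^ 2 = (N * X' ^ 2) * (N * X ^ 2 / (K ^ 5 * (2 * I * J))) := by
      field_simp
    have e2 : K * (2 * A * (1 / I) * (N * X ^ 2)) = (4 * A * K ^ 6 * J) * (N * X ^ 2 / (K ^ 5 * (2 * I * J))) := by
      field_simp
      ring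
    rw [e1, e2] at h4
    exact lt_of_mul_lt_mul_right h4 (by positivity)
  rw [div_lt_iff₀ (by positivity)] at h2
  -- `I < N X X' 16 K`
  have h6 : X' * I < X' * (N * (X * X') * (16 * K)) := mul_lt_mul_of_pos_left h2 hX'
  have h7 : X' * (N * (X * X') * (16 * K)) = (N * X' ^ 2) * (16 * K * X) := by ring
  have h8 : (N * X' ^ 2) * (16 * K * X) < (4 * A * K ^ 6 * J) * (16 * K * X) := mul_lt_mul_of_pos_right h5 (by positivity)
  calc X' * I < X' * (N * (X * X') * (16 * K)) := h6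
    _ = (N * X' ^ 2) * (16 * K * X) := h7
    _ < (4 * A * K ^ 6 * J) * (16 * K * X) := h8
    _ = _ := by ring

/-- One step. PROOF. `¬ HypK` gives `N, s, s'` with the hypothesis of `h4_mass`; `R := Rm k N s s' F`, `X = 2^s`, `X' = 2^s'`. By `h4_mass`
`∑_R o > K^(-5) 2^(-i-j-1) (N X X')² > 0`, so `R ≠ ∅`, and with `h4_low` (`N X X' > 2^i/(16K)`) `∑_R o > K^(-7) 2^(i-j)/512 ≥ K^(-7-1/5)/512 ≥ K^(-8)` for
`k ≥ 12` (`512 ≤ K^(4/5)`). `R ⊆ F`; hub edges by `h4_hub`. Ratios: `∑_R o = ∑_{q ∈ left ends} ∑_{e ∈ R, e.1 = q} o ≤ K ∑_{left ends} f q`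
(`cap1`, all terms `≥ 0`) `≤ 2 exp(8 c0) K 2^(-i) N X²` (`h4_side`, `rp N ≤ 4 c0`); so `K^(-5) 2^(-i-j-1) (NXX')² < 2 exp(8 c0) K 2^(-i) N X²`, i.e.
`N X'² < 4 exp(8 c0) K^6 2^j`, and `X'/X = N X'²/(N X X') < 64 exp(8 c0) K^7 2^(j-i) ≤ 64 exp(8c0) K^(7+1/5) ≤ K^9` (`5 (j-i) ≤ k`). Similarly with `cap2`:
`N X² < 4 exp(8 c0) K^6 2^i` and `X/X' < 64 exp(8 c0) K^7 ≤ K^9`. (`2^s' ≤ 2^s K^9` is `s' ≤ s + 9k`.) -/
theorem h5_step (c0 : ℝ) : ∃ k0 : ℕ, ∀ (γ : ℝ) (f : ℕ → ℝ) (S : Finset ℕ), Blk c0 f S → ∀ k : ℕ, k0 ≤ k → ∀ i j : ℕ, i ≤ j →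
    5 * (j - i) ≤ k → ∀ F : Finset (ℕ × ℕ), Capd γ f S k i j F →
    ¬ HypK c0 ((2 : ℝ) ^ k) F → ∃ t : ℕ × ℕ × ℕ, HubOk k t ∧ ∃ R : Finset (ℕ × ℕ), R ⊆ F ∧ R.Nonempty ∧
      (∀ e ∈ R, HubEdge γ k t e.1 e.2) ∧ (1 : ℝ) ≤ (2 : ℝ) ^ (8 * k) * ∑ e ∈ R, ov f e.1 e.2 := by
  classical
  obtain ⟨n, hn⟩ := pow_unbounded_of_one_lt (64 * Real.exp (8 * c0)) (by norm_num : (1 : ℝ) < 2)
  refine ⟨max 12 n, ?_⟩
  intro γ f S hB k hk i j hij hnear F hF hyp
  have hk12 : 12 ≤ k := (le_max_left _ _).trans hk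
  have hkn : n ≤ k := (le_max_right _ _).trans hk
  set A : ℝ := Real.exp (8 * c0) with hA
  have hA0 : 0 < A := Real.exp_pos _
  have hAK : 64 * A ≤ (2 : ℝ) ^ k := hn.le.trans (pow_le_pow_right₀ (by norm_num) hkn)
  unfold HypK at hyp
  push Not at hyp
  obtain ⟨N, hN, hrN, s, s', hv⟩ := hyp
  have hcls := hF.cls
  have hsub := hF.sub
  have hmass := h4_mass c0 γ f S hB k i j N s s' hij hN F hsub hcls hv
  set R := Rm k N s s' F with hR
  have hRF : R ⊆ F := by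
    rw [hR]; unfold Rm; exact Finset.filter_subset _ _
  have hov : ∀ e ∈ F, 0 ≤ ov f e.1 e.2 := by
    intro e he
    have := hsub he
    rw [h0_EK] at this
    exact h0_ov_nonneg c0 f S hB e.1 e.2 this.1 this.2.1
  set K : ℝ := (2 : ℝ) ^ k with hK
  set X : ℝ := (2 : ℝ) ^ s with hX
  set X' : ℝ := (2 : ℝ) ^ s' with hX'
  set I : ℝ := (2 : ℝ) ^ i with hI
  set J : ℝ := (2 : ℝ) ^ j with hJ
  have hK0 : 0 < K := by positivity
  have hX0 : 0 < X := by positivity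
  have hX0' : 0 < X' := by positivity
  have hI0 : 0 < I := by positivity
  have hJ0 : 0 < J := by positivity
  have hNR : (0 : ℝ) < N := by exact_mod_cast hN
  have e1 : K ^ (-5 : ℝ) = (K ^ 5)⁻¹ := by
    rw [Real.rpow_neg hK0.le, show (5 : ℝ) = ((5 : ℕ) : ℝ) by norm_num, Real.rpow_natCast]
  have e2 : (1 / 2 : ℝ) ^ (i + j + 1) = 1 / (2 * I * J) := by
    rw [one_div_pow, hI, hJ, pow_succ, pow_add]
    congr 1
    ring
  rw [e1, e2] at hmass
  have hpos : 0 < ∑ e ∈ R, ov f e.1 e.2 := lt_of_le_of_lt (by positivity) hmass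
  have hne : R.Nonempty := by
    rw [Finset.nonempty_iff_ne_empty]
    intro h
    rw [h] at hpos
    simp at hpos
  have hlow := h4_low c0 γ f S hB k i j N s s' hij hN F hsub hcls hne
  obtain ⟨hs1, hs2⟩ := h4_side c0 γ f S hB k i j N s s' hN F hsub hcls
  have hrpA : Real.exp (2 * rp N) ≤ A := by
    rw [hA]
    exact Real.exp_le_exp.2 (by linarith)
  have hJI : J ≤ K * I := by
    rw [hJ, hK, hI, ← pow_add]
    exact pow_le_pow_right₀ (by norm_num) (by omega)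
  -- the two sides
  have side1 : ∑ e ∈ R, ov f e.1 e.2 ≤ K * (2 * A * (1 / I) * (N * X ^ 2)) := by
    have h1 := h5a_side (fun e => ov f e.1 e.2) Prod.fst F R hRF hov (fun q => K * f q) (fun q hq => by
      rw [mem_image] at hq
      obtain ⟨e, he, rfl⟩ := hq
      have := hsub (hRF he)
      rw [h0_EK] at this
      exact hF.cap1 _ this.1)
    refine h1.trans ?_
    rw [← Finset.mul_sum]
    refine mul_le_mul_of_nonneg_left ?_ hK0.le
    refine hs1.trans ?_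
    rw [one_div_pow]
    gcongr
  have side2 : ∑ e ∈ R, ov f e.1 e.2 ≤ K * (2 * A * (1 / J) * (N * X' ^ 2)) := by
    have h1 := h5a_side (fun e => ov f e.1 e.2) Prod.snd F R hRF hov (fun q => K * f q) (fun q hq => by
      rw [mem_image] at hq
      obtain ⟨e, he, rfl⟩ := hq
      have := hsub (hRF he)
      rw [h0_EK] at this
      exact hF.cap2 _ this.2.1)
    refine h1.trans ?_
    rw [← Finset.mul_sum]
    refine mul_le_mul_of_nonneg_left ?_ hK0.le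
    refine hs2.trans ?_
    rw [one_div_pow]
    gcongr
  have r1 := h5a_num N X X' K I J A _ hNR hX0 hX0' hK0 hI0 hJ0 hmass hlow side1
  have hmass' : (K ^ 5)⁻¹ * (1 / (2 * J * I)) * (N * (X' * X)) ^ 2 < ∑ e ∈ R, ov f e.1 e.2 := by
    have : (K ^ 5)⁻¹ * (1 / (2 * J * I)) * (N * (X' * X)) ^ 2 = (K ^ 5)⁻¹ * (1 / (2 * I * J)) * (N * (X * X')) ^ 2 := by
      rw [mul_comm X' X]
      congr 3
      ring
    rw [this]; exact hmass
  -- second ratio by hand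
  have r2 : X < 64 * A * K ^ 7 * X' := by
    have h4 : (K ^ 5)⁻¹ * (1 / (2 * I * J)) * (N * (X * X')) ^ 2 < K * (2 * A * (1 / J) * (N * X' ^ 2)) := lt_of_lt_of_le hmass side2
    have h5 : N * X ^ 2 < 4 * A * K ^ 6 * I := by
      have e1 : (K ^ 5)⁻¹ * (1 / (2 * I * J)) * (N * (X * X')) ^ 2 = (N * X ^ 2) * (N * X' ^ 2 / (K ^ 5 * (2 * I * J))) := by
        field_simp
      have e2 : K * (2 * A * (1 / J) * (N * X' ^ 2)) = (4 * A * K ^ 6 * I) * (N * X' ^ 2 / (K ^ 5 * (2 * I * J))) := by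
        field_simp
        ring
      rw [e1, e2] at h4
      exact lt_of_mul_lt_mul_right h4 (by positivity)
    have h2 := hlow
    rw [div_lt_iff₀ (by positivity)] at h2
    have h6 : X * I < X * (N * (X * X') * (16 * K)) := mul_lt_mul_of_pos_left h2 hX0
    have h8 : (N * X ^ 2) * (16 * K * X') < (4 * A * K ^ 6 * I) * (16 * K * X') := mul_lt_mul_of_pos_right h5 (by positivity)
    have h9 : X * I < (64 * A * K ^ 7 * X') * I := by
      calc X * I < X * (N * (X * X') * (16 * K)) := h6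
        _ = (N * X ^ 2) * (16 * K * X') := by ring
        _ < (4 * A * K ^ 6 * I) * (16 * K * X') := h8
        _ = _ := by ring
    exact lt_of_mul_lt_mul_right h9 hI0.le
  have r3 : X' ≤ K ^ 9 * X := by
    have : X' * I ≤ (K ^ 9 * X) * I := by
      refine r1.le.trans ?_
      calc 64 * A * K ^ 7 * J * X ≤ K * K ^ 7 * (K * I) * X := by gcongr
        _ = _ := by ring
    exact le_of_mul_le_mul_right this hI0
  have r4 : X ≤ K ^ 9 * X' := by
    have hK1 : 1 ≤ K := by rw [hK]; exact one_le_pow₀ (by norm_num)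
    refine r2.le.trans ?_
    calc 64 * A * K ^ 7 * X' ≤ K * K ^ 7 * X' := by gcongr
      _ = K ^ 8 * X' := by ring
      _ ≤ K ^ 9 * X' := by
          have : K ^ 8 ≤ K ^ 9 := pow_le_pow_right₀ hK1 (by norm_num)
          gcongr
  refine ⟨(N, s, s'), ⟨hN, ?_, ?_⟩, R, hRF, hne, h4_hub γ f S k N s s' hN F hsub, ?_⟩
  · -- s ≤ s' + 9 k
    have : (2 : ℝ) ^ s ≤ 2 ^ (s' + 9 * k) := by
      refine r4.trans (le_of_eq ?_)
      rw [hK, hX', ← pow_mul, ← pow_add]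
      congr 1
      ring
    exact (pow_le_pow_iff_right₀ (by norm_num)).1 this
  · have : (2 : ℝ) ^ s' ≤ 2 ^ (s + 9 * k) := by
      refine r3.trans (le_of_eq ?_)
      rw [hK, hX, ← pow_mul, ← pow_add]
      congr 1
      ring
    exact (pow_le_pow_iff_right₀ (by norm_num)).1 this
  · -- mass
    have h5 : (I / (16 * K)) ^ 2 ≤ (N * (X * X')) ^ 2 := pow_le_pow_left₀ (by positivity) hlow.le 2
    have h6 : 512 * J ≤ K * I := by
      have : (512 : ℝ) = 2 ^ 9 := by norm_num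
      rw [this, hJ, hK, hI, ← pow_add, ← pow_add]
      exact pow_le_pow_right₀ (by norm_num) (by omega)
    have h7 : (1 : ℝ) ≤ K ^ 8 * ((K ^ 5)⁻¹ * (1 / (2 * I * J)) * (I / (16 * K)) ^ 2) := by
      have : K ^ 8 * ((K ^ 5)⁻¹ * (1 / (2 * I * J)) * (I / (16 * K)) ^ 2) = (K * I) / (512 * J) := by
        field_simp
        ring
      rw [this, le_div_iff₀ (by positivity)]
      linarith
    have e3 : (2 : ℝ) ^ (8 * k) = K ^ 8 := by rw [hK, ← pow_mul]; congr 1; ring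
    rw [e3]
    refine h7.trans ?_
    refine mul_le_mul_of_nonneg_left ?_ (by positivity)
    refine le_trans ?_ hmass.le
    exact mul_le_mul_of_nonneg_left h5 (by positivity)

end Pool.Agent.H20G
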