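import Mathlib
import Pool.Agent.Lib.H20G.Core
import Pool.Agent.Lib.H20G.G8
import Pool.Agent.Lib.H20G.H0
import Pool.Agent.Lib.H20G.H5A

set_option autoImplicit false

/-!
# H20G chunk H5: all greedy steps (3.4)
-/

namespace Pool.Agent.H20G

open Finset

/-- All steps. PROOF. Strong induction on `F.card`. If `HypK` holds: `H = ∅`, `F' = F`. Otherwise `h5_step` gives `t, R`; `F \ R` is `Capd` again
(subset, `ov ≥ 0`), has smaller cardinality; induction gives `H1, F'`; take `H = insert t H1`. `|H| ≤ 1 + |H1| ≤ K^8 ∑_R o + K^8 ∑_{F \ R} o`. -/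
theorem h5_greedy (c0 : ℝ) : ∃ k0 : ℕ, ∀ (γ : ℝ) (f : ℕ → ℝ) (S : Finset ℕ), Blk c0 f S → ∀ k : ℕ, k0 ≤ k → ∀ i j : ℕ, i ≤ j →
    5 * (j - i) ≤ k → ∀ F : Finset (ℕ × ℕ), Capd γ f S k i j F →
    ∃ (H : Finset (ℕ × ℕ × ℕ)) (F' : Finset (ℕ × ℕ)), F' ⊆ F ∧ HypK c0 ((2 : ℝ) ^ k) F' ∧
      (∀ t ∈ H, HubOk k t) ∧ (∀ e ∈ F \ F', ∃ t ∈ H, HubEdge γ k t e.1 e.2) ∧
      (H.card : ℝ) ≤ (2 : ℝ) ^ (8 * k) * ∑ e ∈ F, ov f e.1 e.2 := by
  classical
  obtain ⟨k0, hstep⟩ := h5_step c0
  refine ⟨k0, ?_⟩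
  intro γ f S hB k hk i j hij hnear
  have main : ∀ n : ℕ, ∀ F : Finset (ℕ × ℕ), F.card = n → Capd γ f S k i j F →
    ∃ (H : Finset (ℕ × ℕ × ℕ)) (F' : Finset (ℕ × ℕ)), F' ⊆ F ∧ HypK c0 ((2 : ℝ) ^ k) F' ∧
      (∀ t ∈ H, HubOk k t) ∧ (∀ e ∈ F \ F', ∃ t ∈ H, HubEdge γ k t e.1 e.2) ∧
      (H.card : ℝ) ≤ (2 : ℝ) ^ (8 * k) * ∑ e ∈ F, ov f e.1 e.2 := by
    intro n
    induction n using Nat.strong_induction_on with
    | _ n ih =>
      intro F hFn hF
      have hov : ∀ e ∈ F, 0 ≤ ov f e.1 e.2 := by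
        intro e he
        have := hF.sub he
        rw [h0_EK] at this
        exact h0_ov_nonneg c0 f S hB e.1 e.2 this.1 this.2.1
      by_cases hyp : HypK c0 ((2 : ℝ) ^ k) F
      · refine ⟨∅, F, Finset.Subset.refl _, hyp, by simp, by simp, ?_⟩
        have := Finset.sum_nonneg hov
        simp only [Finset.card_empty, Nat.cast_zero]
        positivity
      · obtain ⟨t, ht, R, hRF, hRne, hRh, hRm⟩ := hstep γ f S hB k hk i j hij hnear F hF hyp
        have hsub : F \ R ⊆ F := Finset.sdiff_subset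
        have hcard : (F \ R).card < n := by
          rw [← hFn]
          refine Finset.card_lt_card ⟨hsub, ?_⟩
          intro h
          obtain ⟨e, he⟩ := hRne
          have := h (hRF he)
          rw [mem_sdiff] at this
          exact this.2 he
        have hcap : Capd γ f S k i j (F \ R) := by
          refine ⟨hsub.trans hF.sub, fun e he => hF.cls e (hsub he), ?_, ?_⟩
          · intro q hq
            refine le_trans (Finset.sum_le_sum_of_subset_of_nonneg (Finset.filter_subset_filter _ hsub) fun e he _ => ?_) (hF.cap1 q hq)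
            exact hov e (mem_filter.1 he).1
          · intro q hq
            refine le_trans (Finset.sum_le_sum_of_subset_of_nonneg (Finset.filter_subset_filter _ hsub) fun e he _ => ?_) (hF.cap2 q hq)
            exact hov e (mem_filter.1 he).1
        obtain ⟨H1, F', h1, h2, h3, h4, h5⟩ := ih _ hcard (F \ R) rfl hcap
        refine ⟨insert t H1, F', h1.trans hsub, h2, ?_, ?_, ?_⟩
        · intro t' ht'
          rcases Finset.mem_insert.1 ht' with rfl | h
          · exact ht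
          · exact h3 t' h
        · intro e he
          rw [mem_sdiff] at he
          by_cases heR : e ∈ R
          · exact ⟨t, Finset.mem_insert_self _ _, hRh e heR⟩
          · obtain ⟨t', ht', h6⟩ := h4 e (by rw [mem_sdiff, mem_sdiff]; exact ⟨⟨he.1, heR⟩, he.2⟩)
            exact ⟨t', Finset.mem_insert_of_mem ht', h6⟩
        · have hc : ((insert t H1).card : ℝ) ≤ H1.card + 1 := by exact_mod_cast Finset.card_insert_le t H1
          have hs : ∑ e ∈ F, ov f e.1 e.2 = ∑ e ∈ F \ R, ov f e.1 e.2 + ∑ e ∈ R, ov f e.1 e.2 :=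
            (Finset.sum_sdiff hRF).symm
          rw [hs, mul_add]
          linarith
  intro F hF
  exact main F.card F rfl hF

end Pool.Agent.H20G
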