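import Mathlib
import Pool.Agent.Lib.H20G.Core
import Pool.Agent.Lib.H20G.H0
import Pool.Agent.Lib.H20G.H3
import Pool.Agent.Lib.H20G.H5A

set_option autoImplicit false

/-!
# H20G chunk H6A: the capped edges between two classes
-/

namespace Pool.Agent.H20G

open Finset

open Classical in
/-- the edges of level `k` from class `i` to class `j` without the capped vertices -/
noncomputable def Fij (γ : ℝ) (f : ℕ → ℝ) (S : Finset ℕ) (k i j : ℕ) : Finset (ℕ × ℕ) :=
  (EK γ f S k).filter (fun e => e.1 ∉ Cap γ f S k ∧ e.2 ∉ Cap γ f S k ∧ rc f e.1 = i ∧ rc f e.2 = j)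

theorem h6a_ov {c0 γ : ℝ} {f : ℕ → ℝ} {S : Finset ℕ} (hB : Blk c0 f S) {k : ℕ} {e : ℕ × ℕ} (he : e ∈ EK γ f S k) :
    0 ≤ ov f e.1 e.2 := by
  rw [h0_EK] at he
  exact h0_ov_nonneg c0 f S hB e.1 e.2 he.1 he.2.1

theorem h6a_swap (γ : ℝ) (f : ℕ → ℝ) (S : Finset ℕ) (k r : ℕ) :
    ∑ e ∈ (EK γ f S k).filter (fun e => e.2 = r), ov f e.1 e.2 = ∑ e ∈ (EK γ f S k).filter (fun e => e.1 = r), ov f e.1 e.2 := by
  refine Finset.sum_nbij' Prod.swap Prod.swap ?_ ?_ ?_ ?_ ?_
  · intro e he
    rw [mem_filter, h0_EK] at he ⊢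
    exact ⟨((h0_symm γ f S e.1 e.2).2.2 k).1 he.1, he.2⟩
  · intro e he
    rw [mem_filter, h0_EK] at he ⊢
    exact ⟨((h0_symm γ f S e.1 e.2).2.2 k).1 he.1, he.2⟩
  · intro e _; rfl
  · intro e _; rfl
  · intro e _
    exact (h0_symm γ f S e.1 e.2).2.1

/-- PROOF. `q ∈ S`, `q ∉ Cap`: `∑_{e ∈ EK, e.1 = q} o < K f q`, and the sum over the subset `{e ∈ Fij, e.1 = q}` is at most that (terms `≥ 0`,
`h0_ov_nonneg`); `q ∈ Cap`: the sum is empty, `f q ≥ 0`. `cap2`: by symmetry (`h0_symm`, swap)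
`∑_{e ∈ Fij, e.2 = r} o ≤ ∑_{e ∈ EK, e.2 = r} o = ∑_{e ∈ EK, e.1 = r} o`. -/
theorem h6_capd (c0 : ℝ) (γ : ℝ) (f : ℕ → ℝ) (S : Finset ℕ) (hB : Blk c0 f S) (k i j : ℕ) :
    Capd γ f S k i j (Fij γ f S k i j) := by
  classical
  refine ⟨?_, ?_, ?_, ?_⟩
  · unfold Fij
    exact Finset.filter_subset _ _
  · intro e he
    unfold Fij at he
    rw [mem_filter] at he
    exact ⟨he.2.2.2.1, he.2.2.2.2⟩
  · intro q hq
    by_cases hc : q ∈ Cap γ f S k
    · have : (Fij γ f S k i j).filter (fun e => e.1 = q) = ∅ := by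
        rw [Finset.filter_eq_empty_iff]
        intro e he h1
        unfold Fij at he
        rw [mem_filter] at he
        exact he.2.1 (h1 ▸ hc)
      rw [this, Finset.sum_empty]
      have := hB.fpos q hq
      positivity
    · have h1 : ¬ ((2 : ℝ) ^ k * f q ≤ ∑ e ∈ (EK γ f S k).filter (fun e => e.1 = q), ov f e.1 e.2) := by
        intro h
        apply hc
        unfold Cap
        rw [mem_filter]
        exact ⟨hq, h⟩
      refine le_trans ?_ (not_le.1 h1).le
      refine Finset.sum_le_sum_of_subset_of_nonneg ?_ fun e he _ => ?_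
      · intro e he
        unfold Fij at he
        rw [mem_filter, mem_filter] at he
        rw [mem_filter]
        exact ⟨he.1.1, he.2⟩
      · rw [mem_filter] at he
        exact h6a_ov hB he.1
  · intro q hq
    by_cases hc : q ∈ Cap γ f S k
    · have : (Fij γ f S k i j).filter (fun e => e.2 = q) = ∅ := by
        rw [Finset.filter_eq_empty_iff]
        intro e he h1
        unfold Fij at he
        rw [mem_filter] at he
        exact he.2.2.1 (h1 ▸ hc)
      rw [this, Finset.sum_empty]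
      have := hB.fpos q hq
      positivity
    · have h1 : ¬ ((2 : ℝ) ^ k * f q ≤ ∑ e ∈ (EK γ f S k).filter (fun e => e.1 = q), ov f e.1 e.2) := by
        intro h
        apply hc
        unfold Cap
        rw [mem_filter]
        exact ⟨hq, h⟩
      refine le_trans ?_ (not_le.1 h1).le
      rw [← h6a_swap]
      refine Finset.sum_le_sum_of_subset_of_nonneg ?_ fun e he _ => ?_
      · intro e he
        unfold Fij at he
        rw [mem_filter, mem_filter] at he
        rw [mem_filter]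
        exact ⟨he.1.1, he.2⟩
      · rw [mem_filter] at he
        exact h6a_ov hB he.1

end Pool.Agent.H20G
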