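import Mathlib
import Pool.Agent.Lib.H20G.Core
import Pool.Agent.Lib.H20G.H0
import Pool.Agent.Lib.H20G.H1
import Pool.Agent.Lib.H20G.H2
import Pool.Agent.Lib.H20G.H2G
import Pool.Agent.Lib.H20G.H3
import Pool.Agent.Lib.H20G.H3A
import Pool.Agent.Lib.H20G.H5
import Pool.Agent.Lib.H20G.H6A

set_option autoImplicit false

/-!
# H20G chunk H6: near classes of one level
-/

namespace Pool.Agent.H20G

open Finset

theorem h6_half {c0 : ℝ} {f : ℕ → ℝ} {S : Finset ℕ} (hB : Blk c0 f S) :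
    (0 : ℝ) ≤ ∑ q ∈ S, f q ∧ (∑ q ∈ S, f q) ^ (21 / 40 : ℝ) ≤ 2 ∧
      ((∑ q ∈ S, f q) * ∑ q ∈ S, f q) ^ (21 / 40 : ℝ) ≤ 4 := by
  have h0 : (0 : ℝ) ≤ ∑ q ∈ S, f q := Finset.sum_nonneg fun q hq => (hB.fpos q hq).le
  have h1 : (∑ q ∈ S, f q) ^ (21 / 40 : ℝ) ≤ 2 := by
    calc (∑ q ∈ S, f q) ^ (21 / 40 : ℝ) ≤ (2 : ℝ) ^ (21 / 40 : ℝ) := Real.rpow_le_rpow h0 hB.sum_le (by norm_num)
      _ ≤ (2 : ℝ) ^ (1 : ℝ) := Real.rpow_le_rpow_of_exponent_le (by norm_num) (by norm_num)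
      _ = 2 := Real.rpow_one _
  have h2 : (0 : ℝ) ≤ (∑ q ∈ S, f q) ^ (21 / 40 : ℝ) := Real.rpow_nonneg h0 _
  refine ⟨h0, h1, ?_⟩
  rw [Real.mul_rpow h0 h0]
  nlinarith

/-- all edges of one level -/
theorem h6_all (c0 : ℝ) : ∃ k0 : ℕ, ∀ (γ : ℝ) (f : ℕ → ℝ) (S : Finset ℕ), Blk c0 f S → ∀ k : ℕ, k0 ≤ k →
    ∑ e ∈ EK γ f S k, ov f e.1 e.2 ≤ (2 : ℝ) ^ k := by
  obtain ⟨C, hC, h⟩ := h3_sub c0
  obtain ⟨n, hn⟩ := pow_unbounded_of_one_lt ((2 * C) ^ 2) (one_lt_two : (1 : ℝ) < 2)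
  refine ⟨n, fun γ f S hB k hk => ?_⟩
  have hK0 : (0 : ℝ) < (2 : ℝ) ^ k := by positivity
  have hK1 : (1 : ℝ) ≤ (2 : ℝ) ^ k := one_le_pow₀ (by norm_num)
  obtain ⟨h1, h2, -⟩ := h6_half hB
  have h3 := h γ f S hB k S (Finset.Subset.refl S)
  have e1 : (EK γ f S k).filter (fun e => e.1 ∈ S) = EK γ f S k := by
    refine Finset.filter_true_of_mem fun e he => ?_
    exact ((h0_EK γ f S k e).1 he).1
  rw [e1] at h3
  refine h3.trans ?_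
  have h4 : (2 * C) ≤ ((2 : ℝ) ^ k) ^ (1 / 2 : ℝ) := by
    rw [← Real.sqrt_eq_rpow]
    refine Real.le_sqrt_of_sq_le (hn.le.trans ?_)
    exact pow_le_pow_right₀ (by norm_num) hk
  have h5 : ((2 : ℝ) ^ k) ^ (1 / 20 : ℝ) ≤ ((2 : ℝ) ^ k) ^ (1 / 2 : ℝ) :=
    Real.rpow_le_rpow_of_exponent_le hK1 (by norm_num)
  have h6 : ((2 : ℝ) ^ k) ^ (1 / 2 : ℝ) * ((2 : ℝ) ^ k) ^ (1 / 2 : ℝ) = (2 : ℝ) ^ k := by
    rw [← Real.rpow_add hK0]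
    norm_num
  have h7 : (0 : ℝ) < ((2 : ℝ) ^ k) ^ (1 / 2 : ℝ) := by positivity
  have h8 : (0 : ℝ) ≤ ((2 : ℝ) ^ k) ^ (1 / 20 : ℝ) := by positivity
  calc C * ((2 : ℝ) ^ k) ^ (1 / 20 : ℝ) * (∑ q ∈ S, f q) ^ (21 / 40 : ℝ)
      ≤ C * ((2 : ℝ) ^ k) ^ (1 / 20 : ℝ) * 2 := mul_le_mul_of_nonneg_left h2 (by positivity)
    _ = 2 * C * ((2 : ℝ) ^ k) ^ (1 / 20 : ℝ) := by ring
    _ ≤ ((2 : ℝ) ^ k) ^ (1 / 2 : ℝ) * ((2 : ℝ) ^ k) ^ (1 / 2 : ℝ) := mul_le_mul h4 h5 h8 h7.le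
    _ = _ := h6

/-- The near class pairs `i ≤ j` give one set of hubs.
PROOF. Let `n` be larger than all classes of `S`. `H = ∪` over `i ≤ j < n` with `5(j-i) ≤ k` of the sets of `h5_greedy` for `Fij`; `F'(i,j)` its remaining
sets (choice). `|H| ≤ K^8 ∑_{i,j} ∑_{Fij} o ≤ K^8 ∑_{EK} o ≤ K^8 C K^(1/20) 2^(21/40)` (disjoint sets; `h3_sub` with `V = S`, `∑_S f ≤ 2`) `≤ K^9` for
`k ≥ k0`. Remaining edges: `∑_{i ≤ j near} ∑_{F'(i,j)} o ≤ C K^(-1/80)`: `h1_gain` for each `(i,j)` with `V = {rc = i}`, `W = {rc = j}` and `h2_cls`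
(`F = ∪ F'(i,j)`, `w d = (2^(-d))^(19/40)`, `A = C K^(-1/80)`, `Wd = 4`, `(∑_S f)² ≤ 4`). `G := ∪ F'(i,j)`. -/
theorem h6_near (c0 : ℝ) : ∃ (C : ℝ) (k0 : ℕ), 0 < C ∧ ∀ (γ : ℝ) (f : ℕ → ℝ) (S : Finset ℕ), Blk c0 f S → ∀ k : ℕ, k0 ≤ k →
    ∃ (H : Finset (ℕ × ℕ × ℕ)) (G : Finset (ℕ × ℕ)), (∀ t ∈ H, HubOk k t) ∧
      (H.card : ℝ) ≤ (2 : ℝ) ^ (9 * k) ∧ G ⊆ EK γ f S k ∧
      ∑ e ∈ G, ov f e.1 e.2 ≤ C * ((2 : ℝ) ^ k) ^ (-(1 / 80) : ℝ) ∧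
      ∀ e ∈ EK γ f S k, e.1 ∉ Cap γ f S k → e.2 ∉ Cap γ f S k → rc f e.1 ≤ rc f e.2 →
        5 * (rc f e.2 - rc f e.1) ≤ k → e ∈ G ∨ ∃ t ∈ H, HubEdge γ k t e.1 e.2 := by
  classical
  obtain ⟨C1, hC1, h1⟩ := h1_gain c0
  obtain ⟨k1, hk1⟩ := h6_all c0
  obtain ⟨k2, hk2⟩ := h5_greedy c0
  refine ⟨32 * C1, max k1 k2, by positivity, fun γ f S hB k hk => ?_⟩
  have hka : k1 ≤ k := (le_max_left _ _).trans hk
  have hkb : k2 ≤ k := (le_max_right _ _).trans hk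
  have hK0 : (0 : ℝ) < (2 : ℝ) ^ k := by positivity
  have hov : ∀ e ∈ EK γ f S k, 0 ≤ ov f e.1 e.2 := by
    intro e he
    have h2 := (h0_EK γ f S k e).1 he
    exact h0_ov_nonneg c0 f S hB e.1 e.2 h2.1 h2.2.1
  have hch : ∀ p : ℕ × ℕ, ∃ (H : Finset (ℕ × ℕ × ℕ)) (F' : Finset (ℕ × ℕ)), p.1 ≤ p.2 → 5 * (p.2 - p.1) ≤ k →
      F' ⊆ Fij γ f S k p.1 p.2 ∧ HypK c0 ((2 : ℝ) ^ k) F' ∧
      (∀ t ∈ H, HubOk k t) ∧ (∀ e ∈ Fij γ f S k p.1 p.2 \ F', ∃ t ∈ H, HubEdge γ k t e.1 e.2) ∧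
      (H.card : ℝ) ≤ (2 : ℝ) ^ (8 * k) * ∑ e ∈ Fij γ f S k p.1 p.2, ov f e.1 e.2 := by
    intro p
    by_cases hp : p.1 ≤ p.2 ∧ 5 * (p.2 - p.1) ≤ k
    · obtain ⟨H, F', hH⟩ := hk2 γ f S hB k hkb p.1 p.2 hp.1 hp.2 (Fij γ f S k p.1 p.2) (h6_capd c0 γ f S hB k p.1 p.2)
      exact ⟨H, F', fun _ _ => hH⟩
    · exact ⟨∅, ∅, fun h3 h4 => absurd ⟨h3, h4⟩ hp⟩
  choose Hs Fs hs using hch
  obtain ⟨P, hP⟩ : ∃ P : Finset (ℕ × ℕ), ∀ p, p ∈ P ↔ (p.1 ∈ S.image (rc f) ∧ p.2 ∈ S.image (rc f)) ∧ p.1 ≤ p.2 ∧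
      5 * (p.2 - p.1) ≤ k := by
    refine ⟨(S.image (rc f) ×ˢ S.image (rc f)).filter (fun p => p.1 ≤ p.2 ∧ 5 * (p.2 - p.1) ≤ k), fun p => ?_⟩
    rw [Finset.mem_filter, Finset.mem_product]
  have hFij : ∀ (i j : ℕ) (e : ℕ × ℕ), e ∈ Fij γ f S k i j ↔ e ∈ EK γ f S k ∧ e.1 ∉ Cap γ f S k ∧ e.2 ∉ Cap γ f S k ∧
      rc f e.1 = i ∧ rc f e.2 = j := by
    intro i j e
    unfold Fij
    rw [Finset.mem_filter]
  refine ⟨P.biUnion Hs, P.biUnion Fs, ?_, ?_, ?_, ?_, ?_⟩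
  · intro t ht
    obtain ⟨p, hp, ht⟩ := Finset.mem_biUnion.1 ht
    have hp' := ((hP p).1 hp).2
    exact (hs p hp'.1 hp'.2).2.2.1 t ht
  · have h2 : ((P.biUnion Hs).card : ℝ) ≤ ∑ p ∈ P, ((Hs p).card : ℝ) := by
      exact_mod_cast Finset.card_biUnion_le
    have h3 : ∑ p ∈ P, ((Hs p).card : ℝ) ≤ ∑ p ∈ P, (2 : ℝ) ^ (8 * k) *
        ∑ e ∈ (EK γ f S k).filter (fun e => (rc f e.1, rc f e.2) = p), ov f e.1 e.2 := by
      refine Finset.sum_le_sum fun p hp => ?_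
      have hp' := ((hP p).1 hp).2
      refine ((hs p hp'.1 hp'.2).2.2.2.2).trans (mul_le_mul_of_nonneg_left ?_ (by positivity))
      refine Finset.sum_le_sum_of_subset_of_nonneg ?_ fun e he _ => hov e (Finset.mem_filter.1 he).1
      intro e he
      have h4 := (hFij _ _ e).1 he
      exact Finset.mem_filter.2 ⟨h4.1, Prod.ext h4.2.2.2.1 h4.2.2.2.2⟩
    have h5 : ∑ p ∈ P, ∑ e ∈ (EK γ f S k).filter (fun e => (rc f e.1, rc f e.2) = p), ov f e.1 e.2 ≤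
        ∑ e ∈ EK γ f S k, ov f e.1 e.2 := by
      refine Finset.sum_fiberwise_le_sum_of_sum_fiber_nonneg fun p _ => ?_
      exact Finset.sum_nonneg fun e he => hov e (Finset.mem_filter.1 he).1
    have h6 := hk1 γ f S hB k hka
    rw [← Finset.mul_sum] at h3
    calc ((P.biUnion Hs).card : ℝ) ≤ (2 : ℝ) ^ (8 * k) * (2 : ℝ) ^ k :=
          (h2.trans h3).trans (mul_le_mul_of_nonneg_left (h5.trans h6) (by positivity))
      _ = (2 : ℝ) ^ (9 * k) := by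
          rw [← pow_add]
          congr 1
          ring
  · intro e he
    obtain ⟨p, hp, he⟩ := Finset.mem_biUnion.1 he
    have hp' := ((hP p).1 hp).2
    exact ((hFij _ _ e).1 ((hs p hp'.1 hp'.2).1 he)).1
  · have h2 := h2_cls (rc f) (fun e => ov f e.1 e.2) f S S (P.biUnion Fs)
      (by
        intro e he
        obtain ⟨p, hp, he⟩ := Finset.mem_biUnion.1 he
        have hp' := ((hP p).1 hp).2
        have h3 := (h0_EK γ f S k e).1 ((hFij _ _ e).1 ((hs p hp'.1 hp'.2).1 he)).1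
        exact ⟨h3.1, h3.2.1⟩)
      (fun q hq => (hB.fpos q hq).le) (fun q hq => (hB.fpos q hq).le)
      (fun d => ((1 / 2 : ℝ) ^ d) ^ (19 / 40 : ℝ)) (fun d => by positivity) 4 h2_geom
      (C1 * ((2 : ℝ) ^ k) ^ (-(1 / 80) : ℝ)) (by positivity) ?_
    · obtain ⟨-, -, h3⟩ := h6_half hB
      refine h2.trans ?_
      calc 2 * (C1 * ((2 : ℝ) ^ k) ^ (-(1 / 80) : ℝ)) * 4 * ((∑ q ∈ S, f q) * ∑ q ∈ S, f q) ^ (21 / 40 : ℝ)
          ≤ 2 * (C1 * ((2 : ℝ) ^ k) ^ (-(1 / 80) : ℝ)) * 4 * 4 := mul_le_mul_of_nonneg_left h3 (by positivity)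
        _ = 32 * C1 * ((2 : ℝ) ^ k) ^ (-(1 / 80) : ℝ) := by ring
    · intro i j
      have hnn : ∀ T : Finset ℕ, T ⊆ S → 0 ≤ ∑ q ∈ T, f q := fun T hT => Finset.sum_nonneg fun q hq => (hB.fpos q (hT hq)).le
      by_cases hij : i ≤ j ∧ 5 * (j - i) ≤ k
      · have h3 : (P.biUnion Fs).filter (fun e => rc f e.1 = i ∧ rc f e.2 = j) ⊆ Fs (i, j) := by
          intro e he
          rw [Finset.mem_filter] at he
          obtain ⟨p, hp, he'⟩ := Finset.mem_biUnion.1 he.1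
          have hp' := ((hP p).1 hp).2
          have h4 := (hFij _ _ e).1 ((hs p hp'.1 hp'.2).1 he')
          have h5 : p = (i, j) := Prod.ext (h4.2.2.2.1.symm.trans he.2.1) (h4.2.2.2.2.symm.trans he.2.2)
          rw [← h5]
          exact he'
        obtain ⟨h4, h5, -, -, -⟩ := hs (i, j) hij.1 hij.2
        have h6 : ∀ e ∈ Fs (i, j), e ∈ EK γ f S k ∧ rc f e.1 = i ∧ rc f e.2 = j := by
          intro e he
          have h7 := (hFij _ _ e).1 (h4 he)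
          exact ⟨h7.1, h7.2.2.2.1, h7.2.2.2.2⟩
        refine (Finset.sum_le_sum_of_subset_of_nonneg h3 fun e he _ => hov e (h6 e he).1).trans ?_
        have h8 := h1 γ f S hB k i j hij.1 (S.filter (fun q => rc f q = i)) (S.filter (fun q => rc f q = j))
          (Finset.filter_subset _ _) (Finset.filter_subset _ _) (fun q hq => (Finset.mem_filter.1 hq).2)
          (fun q hq => (Finset.mem_filter.1 hq).2) (Fs (i, j)) (fun e he => (h6 e he).1)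
          (fun e he => by
            have h9 := h6 e he
            have h10 := (h0_EK γ f S k e).1 h9.1
            exact ⟨Finset.mem_filter.2 ⟨h10.1, h9.2.1⟩, Finset.mem_filter.2 ⟨h10.2.1, h9.2.2⟩⟩) h5
        have h11 : max i j - min i j = j - i := by
          rw [max_eq_right hij.1, min_eq_left hij.1]
        rw [h11]
        exact h8
      · have h3 : (P.biUnion Fs).filter (fun e => rc f e.1 = i ∧ rc f e.2 = j) = ∅ := by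
          rw [Finset.filter_eq_empty_iff]
          intro e he h4
          obtain ⟨p, hp, he'⟩ := Finset.mem_biUnion.1 he
          have hp' := ((hP p).1 hp).2
          have h5 := (hFij _ _ e).1 ((hs p hp'.1 hp'.2).1 he')
          apply hij
          rw [← h4.1, ← h4.2, h5.2.2.2.1, h5.2.2.2.2]
          exact hp'
        rw [h3, Finset.sum_empty]
        have h4 := hnn _ (Finset.filter_subset (fun q => rc f q = i) S)
        have h5 := hnn _ (Finset.filter_subset (fun q => rc f q = j) S)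
        have h6 : (0 : ℝ) ≤ ((∑ q ∈ S.filter (fun q => rc f q = i), f q) * ∑ q ∈ S.filter (fun q => rc f q = j), f q) ^ (21 / 40 : ℝ) :=
          Real.rpow_nonneg (mul_nonneg h4 h5) _
        positivity
  · intro e he h2 h3 h4 h5
    have h6 := (h0_EK γ f S k e).1 he
    have hp : (rc f e.1, rc f e.2) ∈ P :=
      (hP _).2 ⟨⟨Finset.mem_image_of_mem _ h6.1, Finset.mem_image_of_mem _ h6.2.1⟩, h4, h5⟩
    have h7 : e ∈ Fij γ f S k (rc f e.1) (rc f e.2) := (hFij _ _ e).2 ⟨he, h2, h3, rfl, rfl⟩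
    by_cases h8 : e ∈ Fs (rc f e.1, rc f e.2)
    · left
      exact Finset.mem_biUnion.2 ⟨_, hp, h8⟩
    · right
      obtain ⟨t, ht, h9⟩ := (hs (rc f e.1, rc f e.2) h4 h5).2.2.2.1 e (Finset.mem_sdiff.2 ⟨h7, h8⟩)
      exact ⟨t, Finset.mem_biUnion.2 ⟨_, hp, ht⟩, h9⟩

end Pool.Agent.H20G
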