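import Mathlib
import Pool.Agent.Lib.H20G.Core
import Pool.Agent.Lib.H20G.H0
import Pool.Agent.Lib.H20G.H3
import Pool.Agent.Lib.H20G.H3B
import Pool.Agent.Lib.H20G.H5A
import Pool.Agent.Lib.H20G.H6

set_option autoImplicit false

/-!
# H20G chunk HMain: levels and hubs (INTERFACE of section 3; assembly of the H chunks)
-/

namespace Pool.Agent.H20G

open Finset

theorem hmain_union (s t : Finset (ℕ × ℕ)) (o : ℕ × ℕ → ℝ) (hs : ∀ e ∈ s, 0 ≤ o e) (a b : ℝ)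
    (h1 : ∑ e ∈ s, o e ≤ a) (h2 : ∑ e ∈ t, o e ≤ b) : ∑ e ∈ s ∪ t, o e ≤ a + b := by
  have h := Finset.sum_union_inter (s₁ := s) (s₂ := t) (f := o)
  have h3 : 0 ≤ ∑ e ∈ s ∩ t, o e := Finset.sum_nonneg fun e he => hs e (mem_inter.1 he).1
  linarith

/-- Section 3. At every level `k` all edges with `rc q ≤ rc r` are either in `R` (small total) or (comparable radii and) hub edges of at most `2^{10k}` hubs
`(N, e, e')` with `|e - e'| ≤ 9k`.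
PROOF. `R := {e ∈ EK : e.1 ∈ Cap} ∪ {e ∈ EK : e.2 ∈ Cap} ∪ {e ∈ EK : rc e.1 ≤ rc e.2, k < 5(rc e.2 - rc e.1)} ∪ G` (`h6_near`), `Hb := H`.
`∑_R o ≤ 2 C K^(-1) + C K^(-9/200) + C K^(-1/80)` (`h3_cap`, and by the symmetry `h0_symm` for `e.2 ∈ Cap`; `h3_far`; `h6_near`; all terms `≥ 0`, so
`Finset.sum_union_inter`-type bounds), and `K^(-1), K^(-9/200) ≤ K^(-1/80)`; `(2^k)^(-1/80) = 2^(-k/80)`. `2^(9k) ≤ 2^(10k)`. -/
theorem h_main (c0 : ℝ) : ∃ C : ℝ, 0 < C ∧ ∃ kk : ℕ, ∀ (γ : ℝ) (f : ℕ → ℝ) (S : Finset ℕ), Blk c0 f S → ∀ k : ℕ, kk ≤ k →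
    ∃ (R : Finset (ℕ × ℕ)) (Hb : Finset (ℕ × ℕ × ℕ)),
      (∀ x ∈ R, x.1 ∈ S ∧ x.2 ∈ S) ∧
      ∑ x ∈ R, ov f x.1 x.2 ≤ C * (2 : ℝ) ^ (-((k : ℝ) / 80)) ∧ Hb.card ≤ 2 ^ (10 * k) ∧
      (∀ t ∈ Hb, 0 < t.1 ∧ t.2.1 ≤ t.2.2 + 9 * k ∧ t.2.2 ≤ t.2.1 + 9 * k) ∧
      ∀ q r : ℕ, Edge γ f S k q r → rc f q ≤ rc f r →
        (q, r) ∈ R ∨ (5 * (rc f r - rc f q) ≤ k ∧ ∃ t ∈ Hb, HubEdge γ k t q r) := by
  classical
  obtain ⟨C1, hC1, hcap⟩ := h3_cap c0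
  obtain ⟨C2, hC2, hfar⟩ := h3_far c0
  obtain ⟨C3, k0, hC3, hnear⟩ := h6_near c0
  refine ⟨C1 + C1 + C2 + C3, by positivity, k0, ?_⟩
  intro γ f S hB k hk
  obtain ⟨H, G, hH1, hH2, hG1, hG2, hG3⟩ := hnear γ f S hB k hk
  set E := EK γ f S k with hE
  set c := Cap γ f S k with hc
  have hov : ∀ e ∈ E, 0 ≤ ov f e.1 e.2 := by
    intro e he
    rw [hE, h0_EK] at he
    exact h0_ov_nonneg c0 f S hB e.1 e.2 he.1 he.2.1
  have s1 := hcap γ f S hB k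
  have s2 : ∑ e ∈ E.filter (fun e => e.2 ∈ c), ov f e.1 e.2 ≤ C1 * ((2 : ℝ) ^ k)⁻¹ := by
    refine le_trans (le_of_eq ?_) s1
    refine Finset.sum_nbij' Prod.swap Prod.swap ?_ ?_ ?_ ?_ ?_
    · intro e he
      rw [mem_filter, hE, h0_EK] at he
      rw [mem_filter, h0_EK]
      exact ⟨((h0_symm γ f S e.1 e.2).2.2 k).1 he.1, he.2⟩
    · intro e he
      rw [mem_filter, h0_EK] at he
      rw [mem_filter, hE, h0_EK]
      exact ⟨((h0_symm γ f S e.1 e.2).2.2 k).1 he.1, he.2⟩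
    · intro e _; rfl
    · intro e _; rfl
    · intro e _
      exact (h0_symm γ f S e.1 e.2).2.1
  have s3 := hfar γ f S hB k
  set R1 := E.filter (fun e => e.1 ∈ c) with hR1
  set R2 := E.filter (fun e => e.2 ∈ c) with hR2
  set R3 := E.filter (fun e => rc f e.1 ≤ rc f e.2 ∧ k < 5 * (rc f e.2 - rc f e.1)) with hR3
  have n1 : ∀ e ∈ R1, 0 ≤ ov f e.1 e.2 := fun e he => hov e (mem_filter.1 he).1
  have n2 : ∀ e ∈ R2, 0 ≤ ov f e.1 e.2 := fun e he => hov e (mem_filter.1 he).1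
  have n3 : ∀ e ∈ R3, 0 ≤ ov f e.1 e.2 := fun e he => hov e (mem_filter.1 he).1
  have u1 := hmain_union R1 R2 (fun e => ov f e.1 e.2) n1 _ _ s1 s2
  have n12 : ∀ e ∈ R1 ∪ R2, 0 ≤ ov f e.1 e.2 := fun e he => (mem_union.1 he).elim (n1 e) (n2 e)
  have u2 := hmain_union (R1 ∪ R2) R3 (fun e => ov f e.1 e.2) n12 _ _ u1 s3
  have n123 : ∀ e ∈ (R1 ∪ R2) ∪ R3, 0 ≤ ov f e.1 e.2 := fun e he => (mem_union.1 he).elim (n12 e) (n3 e)
  have u3 := hmain_union ((R1 ∪ R2) ∪ R3) G (fun e => ov f e.1 e.2) n123 _ _ u2 hG2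
  have hsub : ∀ x ∈ ((R1 ∪ R2) ∪ R3) ∪ G, x ∈ E := by
    intro x hx
    rw [mem_union, mem_union, mem_union] at hx
    rcases hx with ((h | h) | h) | h
    · exact (mem_filter.1 h).1
    · exact (mem_filter.1 h).1
    · exact (mem_filter.1 h).1
    · exact hG1 h
  have hK1 : (1 : ℝ) ≤ (2 : ℝ) ^ k := one_le_pow₀ (by norm_num)
  have p1 : ((2 : ℝ) ^ k)⁻¹ ≤ ((2 : ℝ) ^ k) ^ (-(1 / 80) : ℝ) := by
    rw [← Real.rpow_neg_one]
    exact Real.rpow_le_rpow_of_exponent_le hK1 (by norm_num)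
  have p2 : ((2 : ℝ) ^ k) ^ (-(9 / 200) : ℝ) ≤ ((2 : ℝ) ^ k) ^ (-(1 / 80) : ℝ) :=
    Real.rpow_le_rpow_of_exponent_le hK1 (by norm_num)
  have p3 : (2 : ℝ) ^ (-((k : ℝ) / 80)) = ((2 : ℝ) ^ k) ^ (-(1 / 80) : ℝ) := by
    rw [← Real.rpow_natCast, ← Real.rpow_mul (by norm_num)]
    congr 1
    ring
  refine ⟨((R1 ∪ R2) ∪ R3) ∪ G, H, ?_, ?_, ?_, hH1, ?_⟩
  · intro x hx
    have := hsub x hx
    rw [hE, h0_EK] at this
    exact ⟨this.1, this.2.1⟩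
  · refine u3.trans ?_
    rw [p3]
    have q1 := mul_le_mul_of_nonneg_left p1 hC1.le
    have q2 := mul_le_mul_of_nonneg_left p2 hC2.le
    nlinarith
  · have : (H.card : ℝ) ≤ 2 ^ (10 * k) := hH2.trans (pow_le_pow_right₀ (by norm_num) (by omega))
    exact_mod_cast this
  · intro q r he hrc
    have hmem : (q, r) ∈ E := by rw [hE, h0_EK]; exact he
    by_cases a1 : q ∈ c
    · left
      rw [mem_union, mem_union, mem_union]
      exact Or.inl (Or.inl (Or.inl (mem_filter.2 ⟨hmem, a1⟩)))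
    by_cases a2 : r ∈ c
    · left
      rw [mem_union, mem_union, mem_union]
      exact Or.inl (Or.inl (Or.inr (mem_filter.2 ⟨hmem, a2⟩)))
    by_cases a3 : k < 5 * (rc f r - rc f q)
    · left
      rw [mem_union, mem_union, mem_union]
      exact Or.inl (Or.inr (mem_filter.2 ⟨hmem, hrc, a3⟩))
    · have a4 : 5 * (rc f r - rc f q) ≤ k := not_lt.1 a3
      rcases hG3 (q, r) hmem a1 a2 hrc a4 with h | h
      · left
        rw [mem_union]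
        exact Or.inr h
      · exact Or.inr ⟨a4, h⟩

end Pool.Agent.H20G
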