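import Mathlib
import Pool.Agent.Lib.H20G.Core

set_option autoImplicit false

/-!
# H20G: definitions for section 7 (planes, INTERFACE P) and section 8 (killing)
-/

namespace Pool.Agent.H20G

open Finset

/-- quantitative planar structure (7.1) of `P = Pset γ k h h' A B` -/
structure PL (γ : ℝ) (k h h' A B : ℕ) (u u' : ℤ) (n : ℕ) : Prop where
  plane : Plane (Pset γ k h h' A B) (mm γ h h') u u' n
  n_le : (n : ℝ) ≤ 12 * (2 : ℝ) ^ ((k : ℝ) / 4)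
  n_le' : n ≤ 6 * (A * B)
  ap : |γ * h - (u : ℝ) / n| ≤ 4 * A / (2 ^ k * n)
  ap2 : |γ * h - (u : ℝ) / n| ≤ 32 * (2 : ℝ) ^ ((k : ℝ) / 4) / (2 ^ k * B * n)
  ap' : |γ * h' - (u' : ℝ) / n| ≤ 4 * B / (2 ^ k * n)
  ap2' : |γ * h' - (u' : ℝ) / n| ≤ 32 * (2 : ℝ) ^ ((k : ℝ) / 4) / (2 ^ k * A * n)

/-- the class condition modulo `μ`: `μ ∣ (n / g) h P + u / g`, `g = gcd(u, n)` -/
def KCls (h : ℕ) (u : ℤ) (n : ℕ) (μ : ℕ) (P : ℤ) : Prop :=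
  (μ : ℤ) ∣ ((n / Int.gcd u n : ℕ) : ℤ) * h * P + u / (Int.gcd u n : ℤ)

/-- the multiplier `(n/g) h` is invertible modulo `μ` -/
def KInv (h : ℕ) (u : ℤ) (n : ℕ) (μ : ℕ) : Prop :=
  Nat.Coprime ((n / Int.gcd u n) * h) μ

end Pool.Agent.H20G
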