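import Mathlib
import Pool.Agent.Lib.H20G.KDefs

set_option autoImplicit false

/-!
# H20G chunk K1: arithmetic of planes (7.2) (pure number theory)
-/

namespace Pool.Agent.H20G

open Finset

/-- `gcd(u, n) ∣ a`: from `n m = u b - u' a`, `gcd(u,n)` divides `u' a` and is coprime to `u'`. -/
theorem k1_gcd (a b n : ℕ) (u u' m : ℤ) (hg : Nat.gcd (Int.gcd u u') n = 1)
    (hm : (n : ℤ) * m = u * b - u' * a) : Int.gcd u n ∣ a := by
  have h1 : ((Int.gcd u n : ℕ) : ℤ) ∣ u := Int.gcd_dvd_left u n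
  have h2 : ((Int.gcd u n : ℕ) : ℤ) ∣ (n : ℤ) := Int.gcd_dvd_right u n
  have h3 : ((Int.gcd u n : ℕ) : ℤ) ∣ u' * a := by
    have e : u' * a = u * b - n * m := by rw [hm]; ring
    rw [e]
    exact dvd_sub (Dvd.dvd.mul_right h1 _) (Dvd.dvd.mul_right h2 _)
  have h4 : Int.gcd u n ∣ u'.natAbs * a := by
    have := Int.natAbs_dvd_natAbs.2 h3
    rwa [Int.natAbs_natCast, Int.natAbs_mul, Int.natAbs_natCast] at this
  have h5 : Nat.Coprime (Int.gcd u n) u'.natAbs := by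
    rw [Nat.coprime_iff_gcd_eq_one]
    have h6 : Nat.gcd (Int.gcd u n) u'.natAbs ∣ Nat.gcd (Int.gcd u u') n := by
      refine Nat.dvd_gcd ?_ ?_
      · refine Nat.dvd_gcd ?_ (Nat.gcd_dvd_right _ _)
        refine (Nat.gcd_dvd_left _ _).trans ?_
        have := Int.natAbs_dvd_natAbs.2 h1
        rwa [Int.natAbs_natCast] at this
      · refine (Nat.gcd_dvd_left _ _).trans ?_
        exact_mod_cast h2
    rw [hg] at h6
    exact Nat.dvd_one.1 h6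
  exact h5.dvd_of_dvd_mul_left h4

/-- The class: `P b h - P' a h' = -m`, `n m = u b - u' a`. Then `a ∣ b (n h P + u)` hence `a ∣ n h P + u`; divide by `g = gcd(u,n)` (`k1_gcd`):
with `μ = a / g`, `μ ∣ (n/g) h P + u/g`. Also `(n/g) h` is coprime to `μ`: a common divisor of `n/g` and `μ` divides `u/g`, hence is `1`;
and `gcd(h, a) = 1`. -/
theorem k1_class (a b h h' n : ℕ) (u u' m P P' : ℤ) (hn : 1 ≤ n) (ha : 0 < a) (hab : Nat.Coprime a b) (hha : Nat.Coprime h a)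
    (hg : Nat.gcd (Int.gcd u u') n = 1) (hm : (n : ℤ) * m = u * b - u' * a)
    (hP : P * ((b : ℤ) * h) - P' * ((a : ℤ) * h') = -m) :
    KCls h u n (a / Int.gcd u n) P ∧ KInv h u n (a / Int.gcd u n) := by
  have hga : Int.gcd u n ∣ a := k1_gcd a b n u u' m hg hm
  have hgpos : 0 < Int.gcd u n := Nat.pos_of_dvd_of_pos hga ha
  have h1 : (a : ℤ) ∣ b * ((n : ℤ) * h * P + u) := by
    refine ⟨u' + n * P' * h', ?_⟩
    linear_combination (n : ℤ) * hP - hm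
  have h2 : (a : ℤ) ∣ (n : ℤ) * h * P + u := by
    have h3 : IsCoprime (a : ℤ) (b : ℤ) := Nat.isCoprime_iff_coprime.2 hab
    exact h3.dvd_of_dvd_mul_left h1
  obtain ⟨u0, hu0⟩ : ((Int.gcd u n : ℕ) : ℤ) ∣ u := Int.gcd_dvd_left u n
  obtain ⟨n0, hn0⟩ : Int.gcd u n ∣ n := by
    have h2 : ((Int.gcd u n : ℕ) : ℤ) ∣ (n : ℤ) := Int.gcd_dvd_right u n
    exact_mod_cast h2
  obtain ⟨μ, hμ⟩ := hga
  have hgz : ((Int.gcd u n : ℕ) : ℤ) ≠ 0 := by exact_mod_cast hgpos.ne'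
  have e1 : u / (Int.gcd u n : ℤ) = u0 := by
    exact Int.ediv_eq_of_eq_mul_right hgz hu0
  have e2 : n / Int.gcd u n = n0 := by
    have : Int.gcd u n * n0 / Int.gcd u n = n0 := Nat.mul_div_cancel_left _ hgpos
    rw [← hn0] at this
    exact this
  have e3 : a / Int.gcd u n = μ := by
    have : Int.gcd u n * μ / Int.gcd u n = μ := Nat.mul_div_cancel_left _ hgpos
    rw [← hμ] at this
    exact this
  have hcop : Int.gcd u0 n0 = 1 := by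
    have h3 : Int.gcd u n * Int.gcd u0 n0 = Int.gcd u n * 1 := by
      have h4 := Int.gcd_mul_left ((Int.gcd u n : ℕ) : ℤ) u0 n0
      have h5 : ((Int.gcd u n : ℕ) : ℤ) * (n0 : ℤ) = (n : ℤ) := by exact_mod_cast hn0.symm
      rw [← hu0, h5, Int.natAbs_natCast] at h4
      rw [← h4, mul_one]
    exact Nat.eq_of_mul_eq_mul_left hgpos h3
  have hcls : (μ : ℤ) ∣ (n0 : ℤ) * h * P + u0 := by
    obtain ⟨c, hc⟩ := h2
    refine ⟨c, mul_left_cancel₀ hgz ?_⟩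
    have h5 : (n : ℤ) = ((Int.gcd u n : ℕ) : ℤ) * (n0 : ℤ) := by exact_mod_cast hn0
    have h6 : (a : ℤ) = ((Int.gcd u n : ℕ) : ℤ) * (μ : ℤ) := by exact_mod_cast hμ
    calc ((Int.gcd u n : ℕ) : ℤ) * ((n0 : ℤ) * h * P + u0) =
        (((Int.gcd u n : ℕ) : ℤ) * n0) * h * P + ((Int.gcd u n : ℕ) : ℤ) * u0 := by ring
      _ = (n : ℤ) * h * P + u := by rw [← h5, ← hu0]
      _ = a * c := hc
      _ = (((Int.gcd u n : ℕ) : ℤ) * (μ : ℤ)) * c := by rw [← h6]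
      _ = ((Int.gcd u n : ℕ) : ℤ) * (μ * c) := by ring
  refine ⟨?_, ?_⟩
  · unfold KCls
    rw [e1, e2, e3]
    exact hcls
  · unfold KInv
    rw [e2, e3]
    refine Nat.Coprime.mul_left ?_ ?_
    · rw [Nat.coprime_iff_gcd_eq_one]
      by_contra hne
      obtain ⟨p, hp, hpd⟩ := Nat.exists_prime_and_dvd hne
      have h3 : p ∣ n0 := hpd.trans (Nat.gcd_dvd_left _ _)
      have h4 : p ∣ μ := hpd.trans (Nat.gcd_dvd_right _ _)
      have h5 : (p : ℤ) ∣ (n0 : ℤ) * h * P + u0 := (Int.natCast_dvd_natCast.2 h4).trans hcls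
      have h6 : (p : ℤ) ∣ u0 := by
        have h7 : (p : ℤ) ∣ (n0 : ℤ) * h * P :=
          Dvd.dvd.mul_right (Dvd.dvd.mul_right (Int.natCast_dvd_natCast.2 h3) _) _
        exact (Int.dvd_add_right h7).1 h5
      have h7 : p ∣ Int.gcd u0 n0 := by
        refine Nat.dvd_gcd ?_ ?_
        · have := Int.natAbs_dvd_natAbs.2 h6
          rwa [Int.natAbs_natCast] at this
        · rwa [Int.natAbs_natCast]
      rw [hcop] at h7
      exact hp.one_lt.ne' (Nat.dvd_one.1 h7)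
    · exact Nat.Coprime.coprime_dvd_right ⟨Int.gcd u n, by rw [mul_comm]; exact hμ⟩ hha

/-- at most one class -/
theorem k1_unique (h n μ : ℕ) (u P P' : ℤ) (hI : KInv h u n μ) (h1 : KCls h u n μ P) (h2 : KCls h u n μ P') :
    P ≡ P' [ZMOD μ] := by
  unfold KInv at hI
  unfold KCls at h1 h2
  rw [Int.modEq_iff_dvd]
  have h3 : (μ : ℤ) ∣ (((n / Int.gcd u n) * h : ℕ) : ℤ) * (P' - P) := by
    have h4 := dvd_sub h2 h1
    have e : ((n / Int.gcd u n : ℕ) : ℤ) * h * P' + u / (Int.gcd u n : ℤ) -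
        (((n / Int.gcd u n : ℕ) : ℤ) * h * P + u / (Int.gcd u n : ℤ)) =
        (((n / Int.gcd u n) * h : ℕ) : ℤ) * (P' - P) := by
      push_cast
      ring
    rw [e] at h4
    exact h4
  have h4 : IsCoprime (μ : ℤ) (((n / Int.gcd u n) * h : ℕ) : ℤ) := Nat.isCoprime_iff_coprime.2 hI.symm
  exact h4.dvd_of_dvd_mul_left h3

/-- equal fractions `(u₁/g₁)/((n₁/g₁) h₁) = (u₂/g₂)/((n₂/g₂) h₂)` give equal classes:
multiply `μ ∣ (n₁/g₁) h₁ P + u₁/g₁` by `(n₂/g₂) h₂`, the result is `(n₁/g₁) h₁ ((n₂/g₂) h₂ P + u₂/g₂)`, and `(n₁/g₁) h₁` is invertible. -/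
theorem k1_same (h1 h2 n1 n2 μ : ℕ) (u1 u2 P : ℤ)
    (hF : (u1 / (Int.gcd u1 n1 : ℤ)) * (((n2 / Int.gcd u2 n2 : ℕ) : ℤ) * h2) =
      (u2 / (Int.gcd u2 n2 : ℤ)) * (((n1 / Int.gcd u1 n1 : ℕ) : ℤ) * h1))
    (hI : KInv h1 u1 n1 μ) (h1' : KCls h1 u1 n1 μ P) : KCls h2 u2 n2 μ P := by
  unfold KInv at hI
  unfold KCls at h1' ⊢
  have h3 : (μ : ℤ) ∣ (((n1 / Int.gcd u1 n1) * h1 : ℕ) : ℤ) *
      (((n2 / Int.gcd u2 n2 : ℕ) : ℤ) * h2 * P + u2 / (Int.gcd u2 n2 : ℤ)) := by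
    have h4 := Dvd.dvd.mul_right h1' (((n2 / Int.gcd u2 n2 : ℕ) : ℤ) * h2)
    have e : (((n1 / Int.gcd u1 n1 : ℕ) : ℤ) * h1 * P + u1 / (Int.gcd u1 n1 : ℤ)) *
        (((n2 / Int.gcd u2 n2 : ℕ) : ℤ) * h2) = (((n1 / Int.gcd u1 n1) * h1 : ℕ) : ℤ) *
      (((n2 / Int.gcd u2 n2 : ℕ) : ℤ) * h2 * P + u2 / (Int.gcd u2 n2 : ℤ)) := by
      rw [Nat.cast_mul]
      linear_combination hF
    rw [e] at h4
    exact h4
  have h4 : IsCoprime (μ : ℤ) (((n1 / Int.gcd u1 n1) * h1 : ℕ) : ℤ) := Nat.isCoprime_iff_coprime.2 hI.symm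
  exact h4.dvd_of_dvd_mul_left h3

end Pool.Agent.H20G
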