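import Mathlib
import Pool.Agent.Lib.H20G.KDefs
import Pool.Agent.Lib.H20G.D5

set_option autoImplicit false

/-!
# H20G chunk K2: basic facts on edges
-/

namespace Pool.Agent.H20G

open Finset

/-- arithmetic of a pair `(q, r)` (use `d5_split`, `d5_pos`, `d5_coprime`, `d5_rou_dvd`) -/
theorem k2_basic (q r : ℕ) (hq : 0 < q) (hr : 0 < r) :
    aa q r * Nat.gcd q r = q ∧ bb q r * Nat.gcd q r = r ∧ Nat.Coprime (aa q r) (bb q r) ∧
    Nat.lcm q r = q * bb q r ∧ Nat.lcm q r = r * aa q r ∧ 0 < aa q r ∧ 0 < bb q r := by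
  have hg : 0 < Nat.gcd q r := Nat.gcd_pos_of_pos_left r hq
  have h1 : aa q r * Nat.gcd q r = q := Nat.div_mul_cancel (Nat.gcd_dvd_left q r)
  have h2 : bb q r * Nat.gcd q r = r := Nat.div_mul_cancel (Nat.gcd_dvd_right q r)
  refine ⟨h1, h2, Nat.coprime_div_gcd_div_gcd hg, ?_, ?_, ?_, ?_⟩
  · unfold bb Nat.lcm
    exact Nat.mul_div_assoc q (Nat.gcd_dvd_right q r)
  · unfold aa Nat.lcm
    rw [mul_comm q r]
    exact Nat.mul_div_assoc r (Nat.gcd_dvd_left q r)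
  · exact Nat.div_pos (Nat.le_of_dvd hq (Nat.gcd_dvd_left q r)) hg
  · exact Nat.div_pos (Nat.le_of_dvd hr (Nat.gcd_dvd_right q r)) hg

/-- smooth and rough parts of `a`, `b` -/
theorem k2_parts (k0 k q r : ℕ) (hq : 0 < q) (hr : 0 < r) :
    tA k0 k q r * hA k0 k q r = aa q r ∧ tB k0 k q r * hB k0 k q r = bb q r ∧
    0 < tA k0 k q r ∧ 0 < hA k0 k q r ∧ 0 < tB k0 k q r ∧ 0 < hB k0 k q r ∧
    Nat.Coprime (tA k0 k q r) (tB k0 k q r) ∧ Nat.Coprime (hB k0 k q r) (tA k0 k q r) ∧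
    tA k0 k q r ∣ q ∧ ∀ p ∈ (tA k0 k q r).primeFactors, p ≤ Tk k0 k := by
  obtain ⟨h1, h2, h3, -, -, h4, h5⟩ := k2_basic q r hq hr
  have hA1 : tA k0 k q r * hA k0 k q r = aa q r := d5_split _ _ h4
  have hB1 : tB k0 k q r * hB k0 k q r = bb q r := d5_split _ _ h5
  have dA : tA k0 k q r ∣ aa q r := ⟨_, hA1.symm⟩
  have dB : tB k0 k q r ∣ bb q r := ⟨_, hB1.symm⟩
  have dB' : hB k0 k q r ∣ bb q r := ⟨tB k0 k q r, by rw [mul_comm]; exact hB1.symm⟩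
  refine ⟨hA1, hB1, (d5_pos _ _).1, (d5_pos _ _).2, (d5_pos _ _).1, (d5_pos _ _).2, ?_, ?_, ?_, ?_⟩
  · exact Nat.Coprime.coprime_dvd_left dA (Nat.Coprime.coprime_dvd_right dB h3)
  · exact Nat.Coprime.coprime_dvd_left dB' (Nat.Coprime.coprime_dvd_right dA h3.symm)
  · exact dA.trans ⟨_, h1.symm⟩
  · intro p hp
    by_contra hne
    have h6 : (tA k0 k q r).factorization p = 0 := by
      unfold tA
      rw [d5_fact_smo, if_neg hne]
    have h7 : p ∈ (tA k0 k q r).factorization.support := by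
      rw [Nat.support_factorization]
      exact hp
    exact (Finsupp.mem_support_iff.1 h7) h6

/-- `(a_s, b_s)` lies in the box of the edge -/
theorem k2_mem (γ : ℝ) (k0 : ℕ) (f : ℕ → ℝ) (S : Finset ℕ) (k q r : ℕ) (hq : 0 < q) (hr : 0 < r)
    (hE : Edge γ f S k q r) : (tA k0 k q r, tB k0 k q r) ∈ boxP γ k0 k q r := by
  obtain ⟨hA1, hB1, pA, -, pB, -, h3, -⟩ := k2_parts k0 k q r hq hr
  have hA2 : (tA k0 k q r : ℝ) * hA k0 k q r = aa q r := by exact_mod_cast hA1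
  have hB2 : (tB k0 k q r : ℝ) * hB k0 k q r = bb q r := by exact_mod_cast hB1
  unfold boxP Pset
  rw [Finset.mem_filter]
  refine ⟨Finset.mem_product.2 ⟨Finset.mem_Ico.2 ⟨Nat.pow_log_le_self 2 pA.ne', ?_⟩,
    Finset.mem_Ico.2 ⟨Nat.pow_log_le_self 2 pB.ne', ?_⟩⟩, h3, ?_⟩
  · have := Nat.lt_pow_succ_log_self (b := 2) (by norm_num) (tA k0 k q r)
    rwa [pow_succ, mul_comm] at this
  · have := Nat.lt_pow_succ_log_self (b := 2) (by norm_num) (tB k0 k q r)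
    rwa [pow_succ, mul_comm] at this
  · show nint (γ * ((tB k0 k q r : ℝ) * hB k0 k q r - (tA k0 k q r : ℝ) * hA k0 k q r)) ≤ 1 / 2 ^ k
    rw [hA2, hB2]
    exact hE.2.2.2.2.2.trans hE.2.2.2.1

/-- A coincidence of an edge of level `k ≥ 1`: `P b - P' a = -m`, as `|P b - P' a + γ (b - a)| < D`, `|γ (b-a) - m| ≤ D ≤ 1/2`. -/
theorem k2_coin (γ : ℝ) (k0 : ℕ) (f : ℕ → ℝ) (S : Finset ℕ) (k q r : ℕ) (hq : 0 < q) (hr : 0 < r) (hk : 1 ≤ k)
    (hE : Edge γ f S k q r) (P P' : ℤ) (hC : Coin γ f q r P P') :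
    P * ((tB k0 k q r : ℤ) * hB k0 k q r) - P' * ((tA k0 k q r : ℤ) * hA k0 k q r) =
      - mm γ (hB k0 k q r) (hA k0 k q r) (tA k0 k q r, tB k0 k q r) := by
  obtain ⟨hA1, hB1, -⟩ := k2_parts k0 k q r hq hr
  have hA2 : (tA k0 k q r : ℝ) * hA k0 k q r = aa q r := by exact_mod_cast hA1
  have hB2 : (tB k0 k q r : ℝ) * hB k0 k q r = bb q r := by exact_mod_cast hB1
  have hA3 : (tA k0 k q r : ℤ) * hA k0 k q r = aa q r := by exact_mod_cast hA1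
  have hB3 : (tB k0 k q r : ℤ) * hB k0 k q r = bb q r := by exact_mod_cast hB1
  have e1 : mm γ (hB k0 k q r) (hA k0 k q r) (tA k0 k q r, tB k0 k q r) =
      round (γ * ((bb q r : ℝ) - aa q r)) := by
    show round (γ * ((tB k0 k q r : ℝ) * hB k0 k q r - (tA k0 k q r : ℝ) * hA k0 k q r)) = _
    rw [hA2, hB2]
  rw [e1, hA3, hB3]
  have h1 : |γ * ((bb q r : ℝ) - aa q r) - round (γ * ((bb q r : ℝ) - aa q r))| ≤ 1 / 2 ^ k :=
    hE.2.2.2.2.2.trans hE.2.2.2.1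
  have h2 : |(P : ℝ) * bb q r - (P' : ℝ) * aa q r + γ * ((bb q r : ℝ) - aa q r)| < 1 / 2 ^ k :=
    lt_of_lt_of_le hC hE.2.2.2.1
  have h3 : (1 : ℝ) / 2 ^ k ≤ 1 / 2 := by
    have h4 : (2 : ℝ) ^ 1 ≤ 2 ^ k := pow_le_pow_right₀ (by norm_num) hk
    rw [pow_one] at h4
    exact one_div_le_one_div_of_le (by norm_num) h4
  have h4 : |((P * (bb q r : ℤ) - P' * (aa q r : ℤ) + round (γ * ((bb q r : ℝ) - aa q r)) : ℤ) : ℝ)| < 1 := by
    push_cast
    have a1 := abs_le.1 h1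
    have a2 := abs_lt.1 h2
    rw [abs_lt]
    constructor
    · linarith [a1.2, a2.1]
    · linarith [a1.1, a2.2]
  have h5 : P * (bb q r : ℤ) - P' * (aa q r : ℤ) + round (γ * ((bb q r : ℝ) - aa q r)) = 0 := by
    rw [← Int.cast_abs] at h4
    have h6 : |P * (bb q r : ℤ) - P' * (aa q r : ℤ) + round (γ * ((bb q r : ℝ) - aa q r))| < 1 := by
      exact_mod_cast h4
    exact Int.abs_lt_one_iff.1 h6
  linarith

/-- `D = h b_s m_q (1 + ρ_r/ρ_q)` -/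
theorem k2_D (f : ℕ → ℝ) (k0 k q r : ℕ) (hq : 0 < q) (hr : 0 < r) (hf : 0 < f q) :
    DD f q r = (hB k0 k q r : ℝ) * tB k0 k q r * f q * (1 + rho f r / rho f q) := by
  obtain ⟨-, hB1, -⟩ := k2_parts k0 k q r hq hr
  obtain ⟨-, -, -, hl, -⟩ := k2_basic q r hq hr
  have hB2 : (hB k0 k q r : ℝ) * tB k0 k q r = bb q r := by
    rw [mul_comm]
    exact_mod_cast hB1
  have hl2 : ((Nat.lcm q r : ℕ) : ℝ) = q * bb q r := by exact_mod_cast hl
  have hq' : (0 : ℝ) < q := by exact_mod_cast hq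
  unfold DD
  rw [hB2, hl2]
  have h1 : rho f q = f q / q := rfl
  have h2 : rho f r / rho f q = q * rho f r / f q := by
    rw [h1]
    field_simp
  rw [h2, h1]
  field_simp

/-- `2^{rc q} ≤ 1/ρ_q < 2^{rc q + 1}` -/
theorem k2_rc (f : ℕ → ℝ) (q : ℕ) (hq : 0 < q) (hfq : 0 < f q) (hq1 : f q ≤ 1) :
    0 < rho f q ∧ rho f q * 2 ^ (rc f q) ≤ 1 ∧ 1 < rho f q * 2 ^ (rc f q + 1) := by
  have hq' : (1 : ℝ) ≤ q := by exact_mod_cast hq
  have h0 : 0 < rho f q := by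
    unfold rho
    positivity
  have h1 : rho f q ≤ 1 := by
    unfold rho
    rw [div_le_one (by linarith)]
    linarith
  have h2 : 1 ≤ 1 / rho f q := by
    rw [le_div_iff₀ h0]
    linarith
  have h3 : 0 < 1 / rho f q := by positivity
  have h4 : 0 ≤ Real.logb 2 (1 / rho f q) := Real.logb_nonneg (by norm_num) h2
  have h5 : (rc f q : ℝ) ≤ Real.logb 2 (1 / rho f q) := Nat.floor_le h4
  have h6 : Real.logb 2 (1 / rho f q) < rc f q + 1 := Nat.lt_floor_add_one _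
  have h7 : (2 : ℝ) ^ (Real.logb 2 (1 / rho f q)) = 1 / rho f q :=
    Real.rpow_logb (by norm_num) (by norm_num) h3
  have h8 : (2 : ℝ) ^ (rc f q) ≤ 1 / rho f q := by
    rw [← h7, ← Real.rpow_natCast]
    exact Real.rpow_le_rpow_of_exponent_le (by norm_num) h5
  have h9 : 1 / rho f q < (2 : ℝ) ^ (rc f q + 1) := by
    rw [← h7, ← Real.rpow_natCast]
    refine Real.rpow_lt_rpow_of_exponent_lt (by norm_num) ?_
    push_cast
    exact h6
  refine ⟨h0, ?_, ?_⟩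
  · have := (le_div_iff₀ h0).1 h8
    linarith
  · have := (div_lt_iff₀ h0).1 h9
    linarith

/-- `ρ_r/ρ_q ≤ 2^{i(q)-i(r)+1}` (truncated subtraction) -/
theorem k2_ratio (f : ℕ → ℝ) (q r : ℕ) (hq : 0 < q) (hr : 0 < r) (hfq : 0 < f q) (hfr : 0 < f r)
    (hq1 : f q ≤ 1) (hr1 : f r ≤ 1) : rho f r / rho f q ≤ 2 ^ (rc f q - rc f r + 1) := by
  obtain ⟨a1, -, a3⟩ := k2_rc f q hq hfq hq1
  obtain ⟨b1, b2, -⟩ := k2_rc f r hr hfr hr1
  rw [div_le_iff₀ a1]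
  have h1 : (2 : ℝ) ^ (rc f q + 1) ≤ 2 ^ (rc f q - rc f r + 1) * 2 ^ (rc f r) := by
    rw [← pow_add]
    exact pow_le_pow_right₀ (by norm_num) (by omega)
  calc rho f r = rho f r * 1 := (mul_one _).symm
    _ ≤ rho f r * (rho f q * 2 ^ (rc f q + 1)) := mul_le_mul_of_nonneg_left a3.le b1.le
    _ ≤ rho f r * (rho f q * (2 ^ (rc f q - rc f r + 1) * 2 ^ (rc f r))) :=
        mul_le_mul_of_nonneg_left (mul_le_mul_of_nonneg_left h1 a1.le) b1.le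
    _ = (rho f r * 2 ^ (rc f r)) * (2 ^ (rc f q - rc f r + 1) * rho f q) := by ring
    _ ≤ 1 * (2 ^ (rc f q - rc f r + 1) * rho f q) := mul_le_mul_of_nonneg_right b2 (by positivity)
    _ = 2 ^ (rc f q - rc f r + 1) * rho f q := one_mul _

end Pool.Agent.H20G
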