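import Mathlib
import Pool.Agent.Lib.H20G.KDefs

set_option autoImplicit false

/-!
# H20G chunk K3: number of windows (8.1) (pure)
-/

namespace Pool.Agent.H20G

open Finset

theorem k3_sum_prod (s : Finset ℕ) (e : ℕ → ℕ) : (∑ p ∈ s, e p) + 1 ≤ ∏ p ∈ s, (e p + 1) := by
  classical
  induction s using Finset.induction_on with
  | empty => simp
  | insert a s ha ih =>
    rw [Finset.sum_insert ha, Finset.prod_insert ha]
    have h1 : 1 ≤ ∏ p ∈ s, (e p + 1) := by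
      refine Nat.one_le_iff_ne_zero.2 ?_
      exact Finset.prod_ne_zero_iff.2 fun p _ => Nat.succ_ne_zero _
    nlinarith [Nat.zero_le (e a)]

/-- `μ ≤ P^{τ(μ)}` if all prime factors of `μ` are `≤ P`: `μ = ∏ p^{e_p} ≤ P^{∑ e_p}`, `∑ e_p + 1 ≤ ∏ (e_p + 1) = τ(μ)`. -/
theorem k3_smooth (μ P : ℕ) (hμ : 0 < μ) (hP : 1 ≤ P) (h : ∀ p ∈ μ.primeFactors, p ≤ P) :
    μ ≤ P ^ μ.divisors.card := by
  have h1 : μ = ∏ p ∈ μ.primeFactors, p ^ (μ.factorization p) := (Nat.prod_factorization_pow_eq_self hμ.ne').symm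
  have h2 : ∏ p ∈ μ.primeFactors, p ^ (μ.factorization p) ≤ ∏ p ∈ μ.primeFactors, P ^ (μ.factorization p) :=
    Finset.prod_le_prod' fun p hp => Nat.pow_le_pow_left (h p hp) _
  have h3 : ∏ p ∈ μ.primeFactors, P ^ (μ.factorization p) = P ^ (∑ p ∈ μ.primeFactors, μ.factorization p) :=
    Finset.prod_pow_eq_pow_sum _ _ _
  have h4 : (∑ p ∈ μ.primeFactors, μ.factorization p) ≤ μ.divisors.card := by
    rw [Nat.card_divisors hμ.ne']
    exact (Nat.le_succ _).trans (k3_sum_prod _ _)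
  calc μ = ∏ p ∈ μ.primeFactors, p ^ (μ.factorization p) := h1
    _ ≤ _ := h2
    _ = _ := h3
    _ ≤ _ := Nat.pow_le_pow_right hP h4

/-- The windows `j = win k0 k` of levels `k ≥ k0` with `2^k ≤ μ^80` and `μ` `T`-smooth, `T = 2^{300 k0 2^j}`, are few.
PROOF. Let `P ≥ 2` be the largest prime factor of `μ`. `k0 2^j ≤ k` (`j = log2 (k/k0)`) so `2^{k0 2^j} ≤ μ^80 ≤ P^{80 τ(μ)}` (`k3_smooth`), and
`P ≤ 2^{300 k0 2^j}` for every `j ∈ J`. For the smallest `i` and the largest `j` in `J`: `2^{k0 2^j} ≤ 2^{300 k0 2^i 80 τ(μ)}`, so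
`2^{j-i} ≤ 24000 τ(μ) < 2^{15 + τ(μ)}...`, `card J ≤ j - i + 1`; with `τ(μ) ≥ 2`, and `n < 2^n`. -/
theorem k3_windows (k0 μ : ℕ) (hk0 : 1 ≤ k0) (hμ : 2 ≤ μ) (J : Finset ℕ)
    (hJ : ∀ j ∈ J, ∃ k : ℕ, k0 ≤ k ∧ win k0 k = j ∧ 2 ^ k ≤ μ ^ 80 ∧ ∀ p ∈ μ.primeFactors, p ≤ Tk k0 k) :
    J.card + 1 ≤ 17 * μ.divisors.card := by
  have hτ : 1 ≤ μ.divisors.card := Finset.card_pos.2 ⟨1, Nat.one_mem_divisors.2 (by omega)⟩
  rcases J.eq_empty_or_nonempty with rfl | hne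
  · simp only [Finset.card_empty]; omega
  set τ := μ.divisors.card with hτdef
  set i := J.min' hne with hi
  set j := J.max' hne with hj
  obtain ⟨ki, hki0, hkiw, -, hkip⟩ := hJ i (J.min'_mem hne)
  obtain ⟨kj, hkj0, hkjw, hkj80, -⟩ := hJ j (J.max'_mem hne)
  have hij : i ≤ j := J.min'_le_max' hne
  -- k0 2^j ≤ kj
  have h1 : k0 * 2 ^ j ≤ kj := by
    have h2 : 1 ≤ kj / k0 := (Nat.one_le_div_iff (by omega)).2 hkj0
    have h3 : 2 ^ (Nat.log 2 (kj / k0)) ≤ kj / k0 := Nat.pow_log_le_self 2 (by omega)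
    have h4 : Nat.log 2 (kj / k0) = j := hkjw
    rw [h4] at h3
    calc k0 * 2 ^ j ≤ k0 * (kj / k0) := Nat.mul_le_mul_left _ h3
      _ ≤ kj := Nat.mul_div_le _ _
  have h5 : μ ≤ (2 ^ (300 * k0 * 2 ^ i)) ^ τ := by
    refine k3_smooth μ (2 ^ (300 * k0 * 2 ^ i)) (by omega) Nat.one_le_two_pow fun p hp => ?_
    have := hkip p hp
    rw [Tk, hkiw] at this
    exact this
  have h6 : 2 ^ (k0 * 2 ^ j) ≤ 2 ^ (300 * k0 * 2 ^ i * τ * 80) := by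
    calc 2 ^ (k0 * 2 ^ j) ≤ 2 ^ kj := Nat.pow_le_pow_right (by norm_num) h1
      _ ≤ μ ^ 80 := hkj80
      _ ≤ ((2 ^ (300 * k0 * 2 ^ i)) ^ τ) ^ 80 := Nat.pow_le_pow_left h5 _
      _ = 2 ^ (300 * k0 * 2 ^ i * τ * 80) := by rw [← pow_mul, ← pow_mul, mul_assoc (300 * k0 * 2 ^ i)]
  have h7 : k0 * 2 ^ j ≤ 300 * k0 * 2 ^ i * τ * 80 := (Nat.pow_le_pow_iff_right (by norm_num)).1 h6
  have h8 : 2 ^ j ≤ 24000 * 2 ^ i * τ := by
    have : k0 * 2 ^ j ≤ k0 * (24000 * 2 ^ i * τ) := by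
      calc k0 * 2 ^ j ≤ 300 * k0 * 2 ^ i * τ * 80 := h7
        _ = k0 * (24000 * 2 ^ i * τ) := by ring
    exact Nat.le_of_mul_le_mul_left this (by omega)
  have h9 : 2 ^ j < 2 ^ (i + 15 + τ) := by
    calc 2 ^ j ≤ 24000 * 2 ^ i * τ := h8
      _ < 24000 * 2 ^ i * 2 ^ τ := Nat.mul_lt_mul_of_pos_left Nat.lt_two_pow_self (by positivity)
      _ ≤ 2 ^ 15 * 2 ^ i * 2 ^ τ := by
        refine Nat.mul_le_mul_right _ (Nat.mul_le_mul_right _ (by norm_num))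
      _ = 2 ^ (i + 15 + τ) := by rw [pow_add, pow_add]; ring
  have h10 : j < i + 15 + τ := (Nat.pow_lt_pow_iff_right (by norm_num)).1 h9
  have h11 : J.card ≤ j + 1 - i := by
    have hsub : J ⊆ Finset.Icc i j := fun x hx => Finset.mem_Icc.2 ⟨J.min'_le x hx, J.le_max' x hx⟩
    calc J.card ≤ (Finset.Icc i j).card := Finset.card_le_card hsub
      _ = j + 1 - i := Nat.card_Icc i j
  omega

end Pool.Agent.H20G
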