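import Mathlib
import Pool.Agent.Lib.H20G.KDefs
import Pool.Agent.Lib.H20G.K2

set_option autoImplicit false

/-!
# H20G chunk K4: size of `B` and of `K`; the two inequalities between levels
-/

namespace Pool.Agent.H20G

open Finset

/-- the two basic inequalities: `h K m_q ≤ 1` and `1 < 2 K h b m_q (1 + λ)`, `0 ≤ λ ≤ 2^{i(q)-i(r)+1}` -/
theorem k4_basic (c0 γ : ℝ) (k0 : ℕ) (f : ℕ → ℝ) (S X : Finset ℕ) (Ls : ℕ → Finset ℕ) (hB0 : Blk c0 f S) (k q r : ℕ)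
    (hE : SEdge γ k0 f S X Ls k q r) :
    0 < f q ∧ 1 ≤ hB k0 k q r ∧ 1 ≤ tB k0 k q r ∧
    (hB k0 k q r : ℝ) * 2 ^ k * f q ≤ 1 ∧
    1 < 2 * (2 : ℝ) ^ k * hB k0 k q r * tB k0 k q r * f q * (1 + rho f r / rho f q) ∧
    0 ≤ rho f r / rho f q ∧ rho f r / rho f q ≤ 2 ^ (rc f q - rc f r + 1) := by
  obtain ⟨hk, ⟨hqS, hrS, hne, hD1, hD2, hn⟩, hqX, hrX, hl, h1, h2⟩ := hE
  have hq := hB0.pos q hqS
  have hr := hB0.pos r hrS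
  have hfq := hB0.fpos q hqS
  have hfr := hB0.fpos r hrS
  have hfq1 := hB0.fle q hqS
  have hfr1 := hB0.fle r hrS
  have hD := k2_D f k0 k q r hq hr hfq
  have hrat := k2_ratio f q r hq hr hfq hfr (by linarith) (by linarith)
  obtain ⟨-, -, -, -, htB, hhB, -, -, -, -⟩ := k2_parts k0 k q r hq hr
  have hq' : (0 : ℝ) < q := by exact_mod_cast hq
  have hr' : (0 : ℝ) < r := by exact_mod_cast hr
  have hrat0 : 0 ≤ rho f r / rho f q := by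
    unfold rho; positivity
  have htB' : (1 : ℝ) ≤ tB k0 k q r := by exact_mod_cast htB
  have hhB' : (1 : ℝ) ≤ hB k0 k q r := by exact_mod_cast hhB
  have hK : (0 : ℝ) < 2 ^ k := by positivity
  refine ⟨hfq, hhB, htB, ?_, ?_, hrat0, hrat⟩
  · have h3 : (hB k0 k q r : ℝ) * f q ≤ DD f q r := by
      rw [hD]
      have h4 : (hB k0 k q r : ℝ) * f q ≤ (hB k0 k q r : ℝ) * tB k0 k q r * f q := by
        have : 0 ≤ (hB k0 k q r : ℝ) * f q := by positivity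
        nlinarith
      have h5 : 0 ≤ (hB k0 k q r : ℝ) * tB k0 k q r * f q := by positivity
      nlinarith
    have h6 : (hB k0 k q r : ℝ) * f q ≤ 1 / 2 ^ k := h3.trans hD1
    rw [le_div_iff₀ hK] at h6
    linarith [h6, mul_right_comm (hB k0 k q r : ℝ) (f q) ((2 : ℝ) ^ k)]
  · rw [hD, div_lt_iff₀ (by positivity), pow_succ] at hD2
    linarith [hD2]

/-- data of an edge of level `k` at `q`, with `Ω = 1/(h m_q)`: `K ≤ Ω` and `1/(K B) ≤ 12 K^{1/5}/Ω`, `B = 2^{log b_s}`.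
PROOF. `D = h b_s m_q (1+λ)` (`k2_D`), `1/(2K) < D ≤ 1/K`, `λ = ρ_r/ρ_q ≤ 2 · 2^{i(q)-i(r)} ≤ 2 K^{1/5}` (`k2_ratio`; `5 (i(q)-i(r)) ≤ k`).
`K ≤ 1/D = Ω/(b_s (1+λ)) ≤ Ω`. `B > b_s/2 = D Ω/(2 (1+λ)) ≥ Ω/(4 K (1+λ)) ≥ Ω/(12 K K^{1/5})`. -/
theorem k4_sizes (c0 γ : ℝ) (k0 : ℕ) (f : ℕ → ℝ) (S X : Finset ℕ) (Ls : ℕ → Finset ℕ) (hB0 : Blk c0 f S) (k q r : ℕ)
    (hE : SEdge γ k0 f S X Ls k q r) :
    (2 : ℝ) ^ k ≤ 1 / (hB k0 k q r * f q) ∧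
    1 / ((2 : ℝ) ^ k * 2 ^ Nat.log 2 (tB k0 k q r)) ≤ 12 * (2 : ℝ) ^ ((k : ℝ) / 5) * (hB k0 k q r * f q) := by
  obtain ⟨hfq, hhB, htB, h1, h2, h3, h4⟩ := k4_basic c0 γ k0 f S X Ls hB0 k q r hE
  obtain ⟨-, -, -, -, -, -, h5⟩ := hE
  have hhB' : (1 : ℝ) ≤ hB k0 k q r := by exact_mod_cast hhB
  have htB' : (1 : ℝ) ≤ tB k0 k q r := by exact_mod_cast htB
  have hK : (0 : ℝ) < 2 ^ k := by positivity
  constructor
  · rw [le_div_iff₀ (by positivity)]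
    linarith [h1]
  · have hB2 : (tB k0 k q r : ℝ) ≤ 2 * 2 ^ Nat.log 2 (tB k0 k q r) := by
      have := (Nat.lt_pow_succ_log_self (by norm_num : 1 < 2) (tB k0 k q r)).le
      rw [pow_succ] at this
      have h' : ((tB k0 k q r : ℕ) : ℝ) ≤ ((2 ^ Nat.log 2 (tB k0 k q r) * 2 : ℕ) : ℝ) := by exact_mod_cast this
      push_cast at h'
      linarith
    have hBpos : (0 : ℝ) < 2 ^ Nat.log 2 (tB k0 k q r) := by positivity
    have hlam : rho f r / rho f q ≤ 2 * (2 : ℝ) ^ ((k : ℝ) / 5) := by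
      refine h4.trans ?_
      rw [pow_succ, mul_comm]
      refine mul_le_mul_of_nonneg_left ?_ (by norm_num)
      rw [← Real.rpow_natCast]
      refine Real.rpow_le_rpow_of_exponent_le (by norm_num) ?_
      have : (5 : ℝ) * ((rc f q - rc f r : ℕ) : ℝ) ≤ (k : ℝ) := by exact_mod_cast h5
      linarith
    have hone : (1 : ℝ) ≤ (2 : ℝ) ^ ((k : ℝ) / 5) := Real.one_le_rpow (by norm_num) (by positivity)
    have hsum : 1 + rho f r / rho f q ≤ 3 * (2 : ℝ) ^ ((k : ℝ) / 5) := by linarith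
    rw [div_le_iff₀ (by positivity)]
    set B := (2 : ℝ) ^ Nat.log 2 (tB k0 k q r)
    set L := (2 : ℝ) ^ ((k : ℝ) / 5)
    have h6 : 2 * (2 : ℝ) ^ k * hB k0 k q r * tB k0 k q r * f q * (1 + rho f r / rho f q) ≤
        2 * (2 : ℝ) ^ k * hB k0 k q r * (2 * B) * f q * (3 * L) := by
      gcongr
    calc (1 : ℝ) ≤ 2 * (2 : ℝ) ^ k * hB k0 k q r * (2 * B) * f q * (3 * L) := h2.le.trans h6
      _ = 12 * L * (hB k0 k q r * f q) * (2 ^ k * B) := by ring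

/-- comparison of two edges at `q`: `h₁ K₁ ≤ 2 b₂ (1 + λ₂) · h₂ K₂`, where `λ₂ ≤ 2^{|i(q) - i(r₂)| + 1}`.
PROOF. `h₁ b₁ m_q (1+λ₁) = D₁ ≤ 1/K₁` so `h₁ K₁ m_q ≤ 1`; `h₂ b₂ m_q (1+λ₂) = D₂ > 1/(2 K₂)` so `1 < 2 K₂ h₂ b₂ m_q (1+λ₂)`. -/
theorem k4_compare (c0 γ : ℝ) (k0 : ℕ) (f : ℕ → ℝ) (S X : Finset ℕ) (Ls : ℕ → Finset ℕ) (hB0 : Blk c0 f S)
    (k1 k2 q r1 r2 : ℕ) (hE1 : SEdge γ k0 f S X Ls k1 q r1) (hE2 : SEdge γ k0 f S X Ls k2 q r2) :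
    (hB k0 k1 q r1 : ℝ) * 2 ^ k1 ≤ 2 * tB k0 k2 q r2 *
      (1 + 2 ^ (max (rc f q) (rc f r2) - min (rc f q) (rc f r2) + 1)) * (hB k0 k2 q r2 * 2 ^ k2) := by
  obtain ⟨hfq, -, -, h1, -, -, -⟩ := k4_basic c0 γ k0 f S X Ls hB0 k1 q r1 hE1
  obtain ⟨-, hhB, htB, -, h2, h3, h4⟩ := k4_basic c0 γ k0 f S X Ls hB0 k2 q r2 hE2
  have h5 : rho f r2 / rho f q ≤ 2 ^ (max (rc f q) (rc f r2) - min (rc f q) (rc f r2) + 1) := by
    refine h4.trans (pow_le_pow_right₀ (by norm_num) ?_)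
    have : rc f q - rc f r2 ≤ max (rc f q) (rc f r2) - min (rc f q) (rc f r2) := by omega
    omega
  set L := (2 : ℝ) ^ (max (rc f q) (rc f r2) - min (rc f q) (rc f r2) + 1)
  have h6 : 2 * (2 : ℝ) ^ k2 * hB k0 k2 q r2 * tB k0 k2 q r2 * f q * (1 + rho f r2 / rho f q) ≤
      2 * (2 : ℝ) ^ k2 * hB k0 k2 q r2 * tB k0 k2 q r2 * f q * (1 + L) := by
    gcongr
  have h7 : (hB k0 k1 q r1 : ℝ) * 2 ^ k1 * f q ≤
      (2 * tB k0 k2 q r2 * (1 + L) * (hB k0 k2 q r2 * 2 ^ k2)) * f q := by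
    calc (hB k0 k1 q r1 : ℝ) * 2 ^ k1 * f q ≤ 1 := h1
      _ ≤ 2 * (2 : ℝ) ^ k2 * hB k0 k2 q r2 * tB k0 k2 q r2 * f q * (1 + L) := h2.le.trans h6
      _ = _ := by ring
  exact le_of_mul_le_mul_right h7 hfq

end Pool.Agent.H20G
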