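import Mathlib
import Pool.Agent.Lib.H20G.KDefs

set_option autoImplicit false

/-!
# H20G, section 7, (7.1): the bounds `PL` for every plane (helper24)
-/

namespace Pool.Agent.H20G

open Finset

/-- finite sets of reals with gaps at least `δ` -/
theorem pb_gap {ι : Type*} (P : Finset ι) (s : ι → ℝ) (δ : ℝ) (hδ : 0 < δ) (hne : P.Nonempty)
    (hgap : ∀ x ∈ P, ∀ y ∈ P, x ≠ y → δ ≤ |s x - s y|) :
    ∃ x ∈ P, ∃ y ∈ P, ((P.card : ℝ) - 1) * δ ≤ s y - s x := by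
  obtain ⟨x, hx, hxm⟩ := Finset.exists_min_image P s hne
  obtain ⟨y, hy, hym⟩ := Finset.exists_max_image P s hne
  refine ⟨x, hx, y, hy, ?_⟩
  have hxy : 0 ≤ (s y - s x) / δ := div_nonneg (by linarith [hxm y hy]) hδ.le
  have hinj : Set.InjOn (fun z => ⌊(s z - s x) / δ⌋₊) (P : Set ι) := by
    intro z hz w hw he
    by_contra hzw
    have hz0 : 0 ≤ (s z - s x) / δ := div_nonneg (by linarith [hxm z hz]) hδ.le
    have hw0 : 0 ≤ (s w - s x) / δ := div_nonneg (by linarith [hxm w hw]) hδ.le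
    have h1 := Nat.floor_le hz0
    have h2 := Nat.lt_floor_add_one ((s z - s x) / δ)
    have h3 := Nat.floor_le hw0
    have h4 := Nat.lt_floor_add_one ((s w - s x) / δ)
    simp only at he
    rw [he] at h1 h2
    have h5 : |(s z - s x) / δ - (s w - s x) / δ| < 1 := by
      rw [abs_lt]; constructor <;> linarith
    have h6 : (s z - s x) / δ - (s w - s x) / δ = (s z - s w) / δ := by ring
    rw [h6, abs_div, abs_of_pos hδ, div_lt_one hδ] at h5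
    linarith [hgap z hz w hw hzw]
  have hmaps : ∀ z ∈ P, (fun z => ⌊(s z - s x) / δ⌋₊) z ∈ range (⌊(s y - s x) / δ⌋₊ + 1) := by
    intro z hz
    rw [Finset.mem_range, Nat.lt_succ_iff]
    apply Nat.floor_le_floor
    apply div_le_div_of_nonneg_right _ hδ.le
    linarith [hym z hz]
  have hc := Finset.card_le_card_of_injOn _ hmaps hinj
  rw [Finset.card_range] at hc
  have hc' : (P.card : ℝ) ≤ (⌊(s y - s x) / δ⌋₊ : ℝ) + 1 := by exact_mod_cast hc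
  have hf := Nat.floor_le hxy
  have : (P.card : ℝ) - 1 ≤ (s y - s x) / δ := by linarith
  rwa [le_div_iff₀ hδ] at this

theorem pb_mem {γ : ℝ} {k h h' A B : ℕ} {x : ℕ × ℕ} (hx : x ∈ Pset γ k h h' A B) :
    A ≤ x.1 ∧ x.1 < 2 * A ∧ B ≤ x.2 ∧ x.2 < 2 * B ∧ Nat.Coprime x.1 x.2 ∧
      |γ * ((x.2 : ℝ) * h - (x.1 : ℝ) * h') - (mm γ h h' x : ℤ)| ≤ 1 / 2 ^ k := by
  unfold Pset at hx
  rw [Finset.mem_filter, Finset.mem_product, Finset.mem_Ico, Finset.mem_Ico] at hx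
  exact ⟨hx.1.1.1, hx.1.1.2, hx.1.2.1, hx.1.2.2, hx.2.1, hx.2.2⟩

/-- the determinant of two distinct elements is divisible by `n` and nonzero -/
theorem pb_det {P : Finset (ℕ × ℕ)} {m : ℕ × ℕ → ℤ} {u u' : ℤ} {n : ℕ} (hP : Plane P m u u' n)
    {x y : ℕ × ℕ} (hx : x ∈ P) (hy : y ∈ P) (hcx : Nat.Coprime x.1 x.2) (hcy : Nat.Coprime y.1 y.2)
    (hx1 : 0 < x.1) (hy1 : 0 < y.1) (hne : x ≠ y) :
    (n : ℝ) ≤ |(x.1 : ℝ) * y.2 - (y.1 : ℝ) * x.2| := by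
  obtain ⟨hn, hg, hm⟩ := hP
  have e1 := hm x hx
  have e2 := hm y hy
  have d1 : (n : ℤ) ∣ u * ((x.1 : ℤ) * y.2 - (y.1 : ℤ) * x.2) := by
    refine ⟨x.1 * m y - y.1 * m x, ?_⟩
    linear_combination (-(x.1 : ℤ)) * e2 + (y.1 : ℤ) * e1
  have d2 : (n : ℤ) ∣ u' * ((x.1 : ℤ) * y.2 - (y.1 : ℤ) * x.2) := by
    refine ⟨x.2 * m y - y.2 * m x, ?_⟩
    linear_combination (-(x.2 : ℤ)) * e2 + (y.2 : ℤ) * e1
  have d3 : (n : ℤ) ∣ ((x.1 : ℤ) * y.2 - (y.1 : ℤ) * x.2) := by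
    set d : ℤ := ((x.1 : ℤ) * y.2 - (y.1 : ℤ) * x.2)
    have g1 : (n : ℤ) ∣ ((Int.gcd u u' : ℕ) : ℤ) * d := by
      have hbez := Int.gcd_eq_gcd_ab u u'
      rw [hbez]
      have : (u * Int.gcdA u u' + u' * Int.gcdB u u') * d
          = (u * d) * Int.gcdA u u' + (u' * d) * Int.gcdB u u' := by ring
      rw [this]
      exact dvd_add (d1.mul_right _) (d2.mul_right _)
    have hcop : IsCoprime (n : ℤ) ((Int.gcd u u' : ℕ) : ℤ) := by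
      rw [Int.isCoprime_iff_gcd_eq_one]
      rw [Int.gcd_natCast_natCast, Nat.gcd_comm]
      exact hg
    exact hcop.dvd_of_dvd_mul_left g1
  have hd0 : ((x.1 : ℤ) * y.2 - (y.1 : ℤ) * x.2) ≠ 0 := by
    intro h0
    apply hne
    have h1 : x.1 * y.2 = y.1 * x.2 := by
      have : (x.1 : ℤ) * y.2 = (y.1 : ℤ) * x.2 := by linarith
      exact_mod_cast this
    have h2 : x.1 ∣ y.1 := hcx.dvd_of_dvd_mul_right (by rw [← h1]; exact dvd_mul_right _ _)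
    have h3 : y.1 ∣ x.1 := hcy.dvd_of_dvd_mul_right (by rw [h1]; exact dvd_mul_right _ _)
    have h4 : x.1 = y.1 := Nat.dvd_antisymm h2 h3
    have h5 : x.2 = y.2 := by
      rw [h4] at h1
      exact (Nat.eq_of_mul_eq_mul_left hy1 h1).symm
    exact Prod.ext h4 h5
  have h6 : (n : ℤ) ≤ |((x.1 : ℤ) * y.2 - (y.1 : ℤ) * x.2)| :=
    Int.le_of_dvd (abs_pos.mpr hd0) ((dvd_abs _ _).mpr d3)
  have h7 : ((n : ℤ) : ℝ) ≤ ((|((x.1 : ℤ) * y.2 - (y.1 : ℤ) * x.2)| : ℤ) : ℝ) := by exact_mod_cast h6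
  push_cast at h7
  simpa using h7

/-- two elements of the box: bound for `X = γ h - u/n` and `Y = γ h' - u'/n` by the determinant -/
theorem pb_two {γ : ℝ} {k h h' A B : ℕ} {u u' : ℤ} {n : ℕ}
    (hP : Plane (Pset γ k h h' A B) (mm γ h h') u u' n) {x y : ℕ × ℕ}
    (hx : x ∈ Pset γ k h h' A B) (hy : y ∈ Pset γ k h h' A B) :
    |γ * h - (u : ℝ) / n| * |(x.1 : ℝ) * y.2 - (y.1 : ℝ) * x.2| ≤ 4 * A / 2 ^ k ∧
    |γ * h' - (u' : ℝ) / n| * |(x.1 : ℝ) * y.2 - (y.1 : ℝ) * x.2| ≤ 4 * B / 2 ^ k := by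
  obtain ⟨hxA, hxA2, hxB, hxB2, -, hxe⟩ := pb_mem hx
  obtain ⟨hyA, hyA2, hyB, hyB2, -, hye⟩ := pb_mem hy
  obtain ⟨hn, -, hm⟩ := hP
  have hn0 : (n : ℝ) ≠ 0 := by positivity
  have e1 : (n : ℝ) * (mm γ h h' x : ℤ) = (u : ℝ) * x.2 - (u' : ℝ) * x.1 := by exact_mod_cast hm x hx
  have e2 : (n : ℝ) * (mm γ h h' y : ℤ) = (u : ℝ) * y.2 - (u' : ℝ) * y.1 := by exact_mod_cast hm y hy
  set X : ℝ := γ * h - (u : ℝ) / n with hX
  set Y : ℝ := γ * h' - (u' : ℝ) / n with hY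
  set e : ℝ := γ * ((x.2 : ℝ) * h - (x.1 : ℝ) * h') - (mm γ h h' x : ℤ) with he
  set f : ℝ := γ * ((y.2 : ℝ) * h - (y.1 : ℝ) * h') - (mm γ h h' y : ℤ) with hf
  have f1 : (x.2 : ℝ) * X - x.1 * Y = e := by
    have : ((mm γ h h' x : ℤ) : ℝ) = ((u : ℝ) * x.2 - (u' : ℝ) * x.1) / n := by
      rw [eq_div_iff hn0]; linarith
    rw [he, this, hX, hY]; field_simp; ring
  have f2 : (y.2 : ℝ) * X - y.1 * Y = f := by
    have : ((mm γ h h' y : ℤ) : ℝ) = ((u : ℝ) * y.2 - (u' : ℝ) * y.1) / n := by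
      rw [eq_div_iff hn0]; linarith
    rw [hf, this, hX, hY]; field_simp; ring
  have hk : (0 : ℝ) < 1 / 2 ^ k := by positivity
  have x1 : (x.1 : ℝ) ≤ 2 * A := by exact_mod_cast hxA2.le
  have y1 : (y.1 : ℝ) ≤ 2 * A := by exact_mod_cast hyA2.le
  have x2 : (x.2 : ℝ) ≤ 2 * B := by exact_mod_cast hxB2.le
  have y2 : (y.2 : ℝ) ≤ 2 * B := by exact_mod_cast hyB2.le
  have px1 : (0 : ℝ) ≤ x.1 := by positivity
  have py1 : (0 : ℝ) ≤ y.1 := by positivity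
  have px2 : (0 : ℝ) ≤ x.2 := by positivity
  have py2 : (0 : ℝ) ≤ y.2 := by positivity
  constructor
  · rw [← abs_mul]
    have : X * ((x.1 : ℝ) * y.2 - (y.1 : ℝ) * x.2) = x.1 * f - y.1 * e := by
      rw [← f1, ← f2]; ring
    rw [this]
    calc |(x.1 : ℝ) * f - y.1 * e| ≤ |(x.1 : ℝ) * f| + |(y.1 : ℝ) * e| := abs_sub _ _
      _ = x.1 * |f| + y.1 * |e| := by rw [abs_mul, abs_mul, abs_of_nonneg px1, abs_of_nonneg py1]
      _ ≤ (2 * A) * (1 / 2 ^ k) + (2 * A) * (1 / 2 ^ k) := by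
          apply add_le_add
          · exact mul_le_mul x1 hye (abs_nonneg _) (by positivity)
          · exact mul_le_mul y1 hxe (abs_nonneg _) (by positivity)
      _ = 4 * A / 2 ^ k := by ring
  · rw [← abs_mul]
    have : Y * ((x.1 : ℝ) * y.2 - (y.1 : ℝ) * x.2) = x.2 * f - y.2 * e := by
      rw [← f1, ← f2]; ring
    rw [this]
    calc |(x.2 : ℝ) * f - y.2 * e| ≤ |(x.2 : ℝ) * f| + |(y.2 : ℝ) * e| := abs_sub _ _
      _ = x.2 * |f| + y.2 * |e| := by rw [abs_mul, abs_mul, abs_of_nonneg px2, abs_of_nonneg py2]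
      _ ≤ (2 * B) * (1 / 2 ^ k) + (2 * B) * (1 / 2 ^ k) := by
          apply add_le_add
          · exact mul_le_mul x2 hye (abs_nonneg _) (by positivity)
          · exact mul_le_mul y2 hxe (abs_nonneg _) (by positivity)
      _ = 4 * B / 2 ^ k := by ring

/-- (7.1), the bounds. -/
theorem p_bounds (k : ℕ) (γ : ℝ) (h h' A B : ℕ) (hc2 : 2 ≤ (Pset γ k h h' A B).card)
    (hc : (2 : ℝ) ^ (-((k : ℝ) / 4)) * A * B < ((Pset γ k h h' A B).card : ℝ))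
    (u u' : ℤ) (n : ℕ) (hP : Plane (Pset γ k h h' A B) (mm γ h h') u u' n) :
    PL γ k h h' A B u u' n := by
  set P := Pset γ k h h' A B with hPdef
  obtain ⟨x0, hx0, y0, hy0, hne0⟩ := Finset.one_lt_card.mp (by omega : 1 < P.card)
  obtain ⟨hA1, hA2, hB1, hB2, hcx, -⟩ := pb_mem hx0
  have hA : 0 < A := by omega
  have hB : 0 < B := by omega
  have hAr : (0 : ℝ) < A := by exact_mod_cast hA
  have hBr : (0 : ℝ) < B := by exact_mod_cast hB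
  have hn := hP.1
  have hnr : (1 : ℝ) ≤ n := by exact_mod_cast hn
  have hn0 : (0 : ℝ) < n := by linarith
  have hpos : ∀ z ∈ P, 0 < z.1 := fun z hz => by have := (pb_mem hz).1; omega
  have hcop : ∀ z ∈ P, Nat.Coprime z.1 z.2 := fun z hz => (pb_mem hz).2.2.2.2.1
  have hdet : ∀ z ∈ P, ∀ w ∈ P, z ≠ w → (n : ℝ) ≤ |(z.1 : ℝ) * w.2 - (w.1 : ℝ) * z.2| :=
    fun z hz w hw hzw => pb_det hP hz hw (hcop z hz) (hcop w hw) (hpos z hz) (hpos w hw) hzw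
  -- gap of slopes
  have hgap : ∀ z ∈ P, ∀ w ∈ P, z ≠ w → (n : ℝ) / (4 * A ^ 2) ≤ |(z.2 : ℝ) / z.1 - (w.2 : ℝ) / w.1| := by
    intro z hz w hw hzw
    have h1 := hdet z hz w hw hzw
    have z1 : (0 : ℝ) < z.1 := by exact_mod_cast hpos z hz
    have w1 : (0 : ℝ) < w.1 := by exact_mod_cast hpos w hw
    have z2 : (z.1 : ℝ) ≤ 2 * A := by exact_mod_cast (pb_mem hz).2.1.le
    have w2 : (w.1 : ℝ) ≤ 2 * A := by exact_mod_cast (pb_mem hw).2.1.le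
    have e : (z.2 : ℝ) / z.1 - (w.2 : ℝ) / w.1 = -((z.1 : ℝ) * w.2 - (w.1 : ℝ) * z.2) / (z.1 * w.1) := by
      field_simp; ring
    rw [e, abs_div, abs_neg, abs_of_pos (mul_pos z1 w1)]
    have h4 : (z.1 : ℝ) * w.1 ≤ 4 * A ^ 2 := by nlinarith
    exact div_le_div₀ (abs_nonneg _) h1 (mul_pos z1 w1) h4
  have hδ : (0 : ℝ) < (n : ℝ) / (4 * A ^ 2) := by positivity
  obtain ⟨x, hx, y, hy, hxy⟩ := pb_gap P (fun z => (z.2 : ℝ) / z.1) _ hδ ⟨x0, hx0⟩ hgap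
  have x1 : (0 : ℝ) < x.1 := by exact_mod_cast hpos x hx
  have y1 : (0 : ℝ) < y.1 := by exact_mod_cast hpos y hy
  have x1A : (A : ℝ) ≤ x.1 := by exact_mod_cast (pb_mem hx).1
  have y1A : (A : ℝ) ≤ y.1 := by exact_mod_cast (pb_mem hy).1
  have x1A2 : (x.1 : ℝ) ≤ 2 * A := by exact_mod_cast (pb_mem hx).2.1.le
  have x2B : (B : ℝ) ≤ x.2 := by exact_mod_cast (pb_mem hx).2.2.1
  have y2B : (y.2 : ℝ) ≤ 2 * B := by exact_mod_cast (pb_mem hy).2.2.2.1.le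
  have hcard : (2 : ℝ) ≤ P.card := by exact_mod_cast hc2
  -- the determinant of the extreme pair
  have hD : ((P.card : ℝ) - 1) * n / 4 ≤ (x.1 : ℝ) * y.2 - (y.1 : ℝ) * x.2 := by
    have e : (y.2 : ℝ) / y.1 - (x.2 : ℝ) / x.1 = ((x.1 : ℝ) * y.2 - (y.1 : ℝ) * x.2) / (x.1 * y.1) := by
      field_simp
    rw [e, le_div_iff₀ (mul_pos x1 y1)] at hxy
    refine le_trans ?_ hxy
    have h1 : (A : ℝ) ^ 2 ≤ x.1 * y.1 := by nlinarith
    have h2 : 0 ≤ ((P.card : ℝ) - 1) * (n / (4 * A ^ 2)) := mul_nonneg (by linarith) hδ.le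
    calc ((P.card : ℝ) - 1) * n / 4 = ((P.card : ℝ) - 1) * (n / (4 * A ^ 2)) * A ^ 2 := by
          field_simp
      _ ≤ _ := mul_le_mul_of_nonneg_left h1 h2
  have hD2 : (P.card : ℝ) * n / 8 ≤ (x.1 : ℝ) * y.2 - (y.1 : ℝ) * x.2 := by nlinarith
  have hK : (0 : ℝ) < (2 : ℝ) ^ ((k : ℝ) / 4) := by positivity
  have hKK : (2 : ℝ) ^ (-((k : ℝ) / 4)) * (2 : ℝ) ^ ((k : ℝ) / 4) = 1 := by
    rw [← Real.rpow_add (by norm_num)]; simp
  have hc' : (A : ℝ) * B < P.card * (2 : ℝ) ^ ((k : ℝ) / 4) := by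
    have := mul_lt_mul_of_pos_right hc hK
    calc (A : ℝ) * B = ((2 : ℝ) ^ (-((k : ℝ) / 4)) * (2 : ℝ) ^ ((k : ℝ) / 4)) * (A * B) := by rw [hKK]; ring
      _ = (2 : ℝ) ^ (-((k : ℝ) / 4)) * A * B * (2 : ℝ) ^ ((k : ℝ) / 4) := by ring
      _ < _ := this
  have hDle : (x.1 : ℝ) * y.2 - (y.1 : ℝ) * x.2 ≤ 3 * (A * B) := by nlinarith
  have hDpos : 0 < (x.1 : ℝ) * y.2 - (y.1 : ℝ) * x.2 := by
    have : 0 < (P.card : ℝ) * n / 8 := by positivity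
    linarith
  -- generic two-element bounds
  obtain ⟨hX0, hY0⟩ := pb_two hP hx0 hy0
  have hd0 := hdet x0 hx0 y0 hy0 hne0
  obtain ⟨hX1, hY1⟩ := pb_two hP hx hy
  rw [abs_of_pos hDpos] at hX1 hY1
  have h2k : (0 : ℝ) < 2 ^ k := by positivity
  -- the lower bound of the extreme determinant
  have hD3 : (A : ℝ) * B * n / 8 ≤ ((x.1 : ℝ) * y.2 - (y.1 : ℝ) * x.2) * (2 : ℝ) ^ ((k : ℝ) / 4) := by
    have h1 : (A : ℝ) * B * n / 8 ≤ P.card * (2 : ℝ) ^ ((k : ℝ) / 4) * n / 8 := by nlinarith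
    have h2 : (P.card : ℝ) * n / 8 * (2 : ℝ) ^ ((k : ℝ) / 4) ≤
        ((x.1 : ℝ) * y.2 - (y.1 : ℝ) * x.2) * (2 : ℝ) ^ ((k : ℝ) / 4) :=
      mul_le_mul_of_nonneg_right hD2 hK.le
    linarith
  refine ⟨hP, ?_, ?_, ?_, ?_, ?_, ?_⟩
  · -- n ≤ 12 K^{1/4}... from |P| n / 8 ≤ 3 A B we get 24, so use (|P| - 1) n ≤ 6 A B
    have hslope : (y.2 : ℝ) / y.1 - (x.2 : ℝ) / x.1 ≤ (3 / 2) * (B / A) := by
      have a1 : (y.2 : ℝ) / y.1 ≤ 2 * B / A := div_le_div₀ (by positivity) y2B hAr y1A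
      have a2 : (B : ℝ) / (2 * A) ≤ (x.2 : ℝ) / x.1 := div_le_div₀ (by positivity) x2B x1 x1A2
      have : 2 * (B : ℝ) / A - B / (2 * A) = (3 / 2) * (B / A) := by field_simp; ring
      linarith
    have h1 : ((P.card : ℝ) - 1) * (n / (4 * A ^ 2)) ≤ (3 / 2) * (B / A) := le_trans hxy hslope
    have h2 : ((P.card : ℝ) - 1) * n ≤ 6 * (A * B) := by
      have := mul_le_mul_of_nonneg_right h1 (by positivity : (0 : ℝ) ≤ 4 * A ^ 2)
      calc ((P.card : ℝ) - 1) * n = ((P.card : ℝ) - 1) * (n / (4 * A ^ 2)) * (4 * A ^ 2) := by field_simp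
        _ ≤ (3 / 2) * (B / A) * (4 * A ^ 2) := this
        _ = 6 * (A * B) := by field_simp; ring
    have h3 : (P.card : ℝ) * n ≤ 12 * (A * B) := by nlinarith
    have h4 : (P.card : ℝ) * n ≤ 12 * (P.card * (2 : ℝ) ^ ((k : ℝ) / 4)) := by linarith
    have hcp : (0 : ℝ) < P.card := by linarith
    have h5 : (P.card : ℝ) * n ≤ P.card * (12 * (2 : ℝ) ^ ((k : ℝ) / 4)) := by linarith
    exact le_of_mul_le_mul_left h5 hcp
  · have hx0' := pb_mem hx0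
    have hy0' := pb_mem hy0
    have h1 : |(x0.1 : ℝ) * y0.2 - (y0.1 : ℝ) * x0.2| ≤ 6 * (A * B) := by
      have a1 : (x0.1 : ℝ) ≤ 2 * A := by exact_mod_cast hx0'.2.1.le
      have a2 : (y0.1 : ℝ) ≤ 2 * A := by exact_mod_cast hy0'.2.1.le
      have a3 : (x0.2 : ℝ) ≤ 2 * B := by exact_mod_cast hx0'.2.2.2.1.le
      have a4 : (y0.2 : ℝ) ≤ 2 * B := by exact_mod_cast hy0'.2.2.2.1.le
      have b1 : (0 : ℝ) ≤ x0.1 := by positivity
      have b2 : (0 : ℝ) ≤ y0.1 := by positivity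
      have b3 : (0 : ℝ) ≤ x0.2 := by positivity
      have b4 : (0 : ℝ) ≤ y0.2 := by positivity
      have c1 : (x0.1 : ℝ) * y0.2 ≤ 4 * (A * B) := by nlinarith
      have c2 : (y0.1 : ℝ) * x0.2 ≤ 4 * (A * B) := by nlinarith
      have c3 : (0 : ℝ) ≤ x0.1 * y0.2 := by positivity
      have c4 : (0 : ℝ) ≤ y0.1 * x0.2 := by positivity
      rw [abs_le]; constructor <;> nlinarith
    have h2 : (n : ℝ) ≤ 6 * (A * B) := le_trans hd0 h1
    exact_mod_cast h2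
  · rw [le_div_iff₀ (by positivity)]
    have h1 : |γ * h - (u : ℝ) / n| * n ≤ 4 * A / 2 ^ k :=
      le_trans (mul_le_mul_of_nonneg_left hd0 (abs_nonneg _)) hX0
    rw [le_div_iff₀ h2k] at h1
    calc |γ * h - (u : ℝ) / n| * (2 ^ k * n) = |γ * h - (u : ℝ) / n| * n * 2 ^ k := by ring
      _ ≤ 4 * A := h1
  · rw [le_div_iff₀ (by positivity)]
    rw [le_div_iff₀ h2k] at hX1
    have h1 : |γ * h - (u : ℝ) / n| * (A * B * n / 8) * 2 ^ k ≤ 4 * A * (2 : ℝ) ^ ((k : ℝ) / 4) := by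
      calc |γ * h - (u : ℝ) / n| * (A * B * n / 8) * 2 ^ k
          ≤ |γ * h - (u : ℝ) / n| * (((x.1 : ℝ) * y.2 - (y.1 : ℝ) * x.2) * (2 : ℝ) ^ ((k : ℝ) / 4)) * 2 ^ k := by
            apply mul_le_mul_of_nonneg_right _ h2k.le
            exact mul_le_mul_of_nonneg_left hD3 (abs_nonneg _)
        _ = |γ * h - (u : ℝ) / n| * ((x.1 : ℝ) * y.2 - (y.1 : ℝ) * x.2) * 2 ^ k * (2 : ℝ) ^ ((k : ℝ) / 4) := by ring
        _ ≤ _ := mul_le_mul_of_nonneg_right hX1 hK.le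
    have h2 : A * (|γ * h - (u : ℝ) / n| * (2 ^ k * B * n)) ≤ A * (32 * (2 : ℝ) ^ ((k : ℝ) / 4)) := by
      nlinarith
    exact le_of_mul_le_mul_left h2 hAr
  · rw [le_div_iff₀ (by positivity)]
    have h1 : |γ * h' - (u' : ℝ) / n| * n ≤ 4 * B / 2 ^ k :=
      le_trans (mul_le_mul_of_nonneg_left hd0 (abs_nonneg _)) hY0
    rw [le_div_iff₀ h2k] at h1
    calc |γ * h' - (u' : ℝ) / n| * (2 ^ k * n) = |γ * h' - (u' : ℝ) / n| * n * 2 ^ k := by ring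
      _ ≤ 4 * B := h1
  · rw [le_div_iff₀ (by positivity)]
    rw [le_div_iff₀ h2k] at hY1
    have h1 : |γ * h' - (u' : ℝ) / n| * (A * B * n / 8) * 2 ^ k ≤ 4 * B * (2 : ℝ) ^ ((k : ℝ) / 4) := by
      calc |γ * h' - (u' : ℝ) / n| * (A * B * n / 8) * 2 ^ k
          ≤ |γ * h' - (u' : ℝ) / n| * (((x.1 : ℝ) * y.2 - (y.1 : ℝ) * x.2) * (2 : ℝ) ^ ((k : ℝ) / 4)) * 2 ^ k := by
            apply mul_le_mul_of_nonneg_right _ h2k.le
            exact mul_le_mul_of_nonneg_left hD3 (abs_nonneg _)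
        _ = |γ * h' - (u' : ℝ) / n| * ((x.1 : ℝ) * y.2 - (y.1 : ℝ) * x.2) * 2 ^ k * (2 : ℝ) ^ ((k : ℝ) / 4) := by ring
        _ ≤ _ := mul_le_mul_of_nonneg_right hY1 hK.le
    have h2 : B * (|γ * h' - (u' : ℝ) / n| * (2 ^ k * A * n)) ≤ B * (32 * (2 : ℝ) ^ ((k : ℝ) / 4)) := by
      nlinarith
    exact le_of_mul_le_mul_left h2 hBr

end Pool.Agent.H20G
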