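import Mathlib
import Pool.Agent.Lib.H20G.Core

set_option autoImplicit false

/-!
# H20G chunk L1: the one-variable approximation lemma (4.1)
-/

namespace Pool.Agent.H20G

open Finset

theorem l1_nint_le (x : ℝ) (z : ℤ) : nint x ≤ |x - z| := round_le x z

theorem l1_nint_sub (x y : ℝ) : nint (x - y) ≤ nint x + nint y := by
  have h := l1_nint_le (x - y) (round x - round y)
  have h2 : |x - y - ((round x - round y : ℤ) : ℝ)| ≤ |x - round x| + |y - round y| := by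
    have e : x - y - ((round x - round y : ℤ) : ℝ) = (x - round x) - (y - round y) := by push_cast; ring
    rw [e]; exact abs_sub _ _
  unfold nint at *; linarith

/-- two elements at distance `< 2/δ` -/
theorem l1_pair (δ : ℝ) (M : ℕ) (S : Finset ℕ) (hS : S ⊆ Ico M (2 * M)) (hcard : δ * M ≤ (S.card : ℝ)) (h4 : 4 ≤ δ * M)
    (hδ : 0 < δ) : ∃ b ∈ S, ∃ b' ∈ S, b < b' ∧ ((b' : ℝ) - b) < 2 / δ := by
  have hmaps : ∀ b ∈ S, ⌊((b : ℝ) - M) * (δ / 2)⌋₊ ∈ range (⌊δ * M / 2⌋₊ + 1) := by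
    intro b hb
    have h1 := Finset.mem_Ico.mp (hS hb)
    rw [Finset.mem_range, Nat.lt_succ_iff]
    apply Nat.floor_le_floor
    have h2 : (b : ℝ) < 2 * M := by exact_mod_cast h1.2
    nlinarith
  have hc : (range (⌊δ * M / 2⌋₊ + 1)).card < S.card := by
    rw [Finset.card_range]
    have h1 : ((⌊δ * M / 2⌋₊ : ℕ) : ℝ) ≤ δ * M / 2 := Nat.floor_le (by linarith)
    have h2 : (((⌊δ * M / 2⌋₊ + 1 : ℕ)) : ℝ) < S.card := by push_cast; linarith
    exact_mod_cast h2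
  obtain ⟨b, hb, b', hb', hne, he⟩ := Finset.exists_ne_map_eq_of_card_lt_of_maps_to hc hmaps
  have key : ∀ b ∈ S, ∀ b' ∈ S, b < b' → ⌊((b : ℝ) - M) * (δ / 2)⌋₊ = ⌊((b' : ℝ) - M) * (δ / 2)⌋₊ →
      ((b' : ℝ) - b) < 2 / δ := by
    intro b hb b' hb' hlt he
    have h1 := Finset.mem_Ico.mp (hS hb)
    have h0 : (0 : ℝ) ≤ ((b : ℝ) - M) * (δ / 2) := by
      have : (M : ℝ) ≤ b := by exact_mod_cast h1.1
      apply mul_nonneg <;> linarith
    have hf := Nat.floor_le h0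
    have hg := Nat.lt_floor_add_one (((b' : ℝ) - M) * (δ / 2))
    rw [← he] at hg
    rw [lt_div_iff₀ hδ]
    nlinarith
  rcases lt_or_gt_of_ne hne with h | h
  · exact ⟨b, hb, b', hb', h, key b hb b' hb' h he⟩
  · exact ⟨b', hb', b, hb, h, key b' hb' b hb h he.symm⟩

/-- reduced fraction -/
theorem l1_frac (β ε : ℝ) (n1 : ℕ) (h1 : 1 ≤ n1) (h : nint (n1 * β) ≤ 2 * ε) :
    ∃ (u : ℤ) (n : ℕ), 1 ≤ n ∧ n ≤ n1 ∧ Int.gcd u n = 1 ∧ n * |β - (u : ℝ) / n| ≤ 2 * ε := by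
  set r : ℤ := round (n1 * β) with hr
  have hg : 0 < Int.gcd r n1 := Int.gcd_pos_of_ne_zero_right _ (by positivity)
  obtain ⟨g, hg1, hg2⟩ : ∃ g : ℕ, g = Int.gcd r n1 ∧ 0 < g := ⟨_, rfl, hg⟩
  have hd1 : (g : ℤ) ∣ r := by rw [hg1]; exact Int.gcd_dvd_left ..
  have hd2 : g ∣ n1 := by
    have : (g : ℤ) ∣ (n1 : ℤ) := by rw [hg1]; exact Int.gcd_dvd_right ..
    exact_mod_cast this
  obtain ⟨u, hu⟩ := hd1
  obtain ⟨n, hn⟩ := hd2
  have hnpos : 0 < n := by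
    rcases Nat.eq_zero_or_pos n with h0 | h0
    · subst h0; omega
    · exact h0
  have hgcd : Int.gcd u n = 1 := by
    have e1 : Int.gcd r n1 = g * Int.gcd u n := by
      rw [hu, hn]; push_cast
      rw [Int.gcd_mul_left]; simp
    rw [← hg1] at e1
    have : g * 1 = g * Int.gcd u n := by rw [mul_one]; exact e1
    exact (Nat.eq_of_mul_eq_mul_left hg2 this).symm
  refine ⟨u, n, hnpos, ?_, hgcd, ?_⟩
  · rw [hn]; exact Nat.le_mul_of_pos_left n hg2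
  · have e2 : (u : ℝ) / n = r / n1 := by
      rw [hu, hn]; push_cast
      have : (g : ℝ) ≠ 0 := by positivity
      have : (n : ℝ) ≠ 0 := by positivity
      field_simp
    rw [e2]
    have hn1 : (0 : ℝ) < n1 := by exact_mod_cast h1
    have e3 : (n1 : ℝ) * |β - r / n1| = |n1 * β - r| := by
      rw [← abs_of_pos hn1, ← abs_mul, abs_of_pos hn1]; congr 1; field_simp
    have h3 : (n : ℝ) ≤ n1 := by
      rw [hn]; push_cast
      have : (1 : ℝ) ≤ g := by exact_mod_cast hg2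
      nlinarith [(Nat.cast_nonneg n : (0 : ℝ) ≤ n)]
    calc (n : ℝ) * |β - r / n1| ≤ n1 * |β - r / n1| := mul_le_mul_of_nonneg_right h3 (abs_nonneg _)
      _ = |n1 * β - r| := e3
      _ ≤ 2 * ε := h

/-- in a short window the elements are congruent modulo `n` and close -/
theorem l1_close (β c ε η : ℝ) (u : ℤ) (n : ℕ) (b b' : ℕ) (hb : b ≤ b') (hn1 : 1 ≤ n) (hη : η = |β - (u : ℝ) / n|)
    (hε : 2 * ε < 3 / (4 * n)) (hε2 : 2 * ε < 1 / 2)
    (h1 : nint ((b : ℝ) * β - c) ≤ ε) (h2 : nint ((b' : ℝ) * β - c) ≤ ε) (hw : ((b' : ℝ) - b) * η ≤ 1 / (4 * n)) (hg : Int.gcd u n = 1) :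
    n ∣ (b' - b) ∧ ((b' : ℝ) - b) * η ≤ 2 * ε := by
  have hn0 : (0 : ℝ) < n := by exact_mod_cast hn1
  obtain ⟨d, hd⟩ : ∃ d : ℕ, b' = b + d := ⟨b' - b, by omega⟩
  have hdr : ((b' : ℝ) - b) = d := by rw [hd]; push_cast; ring
  rw [hdr] at hw ⊢
  have e0 : b' - b = d := by omega
  rw [e0]
  have h3 : nint ((d : ℝ) * β) ≤ 2 * ε := by
    have := l1_nint_sub ((b' : ℝ) * β - c) ((b : ℝ) * β - c)
    have e : (b' : ℝ) * β - c - ((b : ℝ) * β - c) = d * β := by rw [← hdr]; ring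
    rw [e] at this; linarith
  set θ : ℝ := β - (u : ℝ) / n with hθ
  have hdθ : |(d : ℝ) * θ| ≤ 1 / (4 * n) := by
    rw [abs_mul, abs_of_nonneg (Nat.cast_nonneg d : (0 : ℝ) ≤ d), ← hη]; exact hw
  set z : ℤ := round ((d : ℝ) * β) with hz
  have h4 : |(d : ℝ) * β - z| ≤ 2 * ε := h3
  -- |d u / n - z| < 1 / n
  have h5 : |(d : ℝ) * u - n * z| < 1 := by
    have e : (d : ℝ) * u - n * z = n * (((d : ℝ) * β - z) - d * θ) := by
      rw [hθ]; field_simp; ring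
    rw [e, abs_mul, abs_of_pos hn0]
    have h6 : |((d : ℝ) * β - z) - d * θ| ≤ 2 * ε + 1 / (4 * n) := by
      calc |((d : ℝ) * β - z) - d * θ| ≤ |(d : ℝ) * β - z| + |(d : ℝ) * θ| := abs_sub _ _
        _ ≤ _ := by linarith
    have h7 : 2 * ε + 1 / (4 * n) < 1 / (n : ℝ) := by
      have : (1 : ℝ) / n = 3 / (4 * n) + 1 / (4 * n) := by field_simp; norm_num
      rw [this]; linarith
    calc (n : ℝ) * |((d : ℝ) * β - z) - d * θ| ≤ n * (2 * ε + 1 / (4 * n)) := mul_le_mul_of_nonneg_left h6 hn0.le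
      _ < n * (1 / n) := mul_lt_mul_of_pos_left h7 hn0
      _ = 1 := by field_simp
  have h8 : (d : ℤ) * u - n * z = 0 := by
    have : |((((d : ℤ) * u - n * z : ℤ)) : ℝ)| < 1 := by push_cast; exact h5
    have h9 : |((d : ℤ) * u - n * z)| < 1 := by exact_mod_cast this
    exact Int.abs_lt_one_iff.mp h9
  have hdvd : (n : ℤ) ∣ (d : ℤ) * u := ⟨z, by linarith⟩
  have hdvd2 : (n : ℤ) ∣ (d : ℤ) := by
    have hc : IsCoprime (n : ℤ) u := by
      rw [Int.isCoprime_iff_gcd_eq_one, Int.gcd_comm]; exact hg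
    exact hc.dvd_of_dvd_mul_right hdvd
  refine ⟨by exact_mod_cast hdvd2, ?_⟩
  -- d β - z = d θ
  have h10 : (d : ℝ) * β - z = d * θ := by
    have h8r : (d : ℝ) * u - n * z = 0 := by exact_mod_cast h8
    rw [hθ]
    have : (d : ℝ) * (u / n) = z := by field_simp; linarith
    rw [mul_sub, this]
  rw [h10, abs_mul, abs_of_nonneg (Nat.cast_nonneg d : (0 : ℝ) ≤ d), ← hη] at h4
  exact h4

/-- counting in a short window -/
theorem l1_fibre (β c ε η : ℝ) (u : ℤ) (n : ℕ) (F : Finset ℕ) (hn1 : 1 ≤ n) (hη : η = |β - (u : ℝ) / n|) (hη0 : 0 < η)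
    (hε : 2 * ε < 3 / (4 * n)) (hε2 : 2 * ε < 1 / 2) (hε0 : 0 < ε) (hF : ∀ b ∈ F, nint ((b : ℝ) * β - c) ≤ ε)
    (hw : ∀ b ∈ F, ∀ b' ∈ F, b ≤ b' → ((b' : ℝ) - b) * η ≤ 1 / (4 * n)) (hg : Int.gcd u n = 1) :
    (F.card : ℝ) ≤ 2 * ε / (n * η) + 1 := by
  have hn0 : (0 : ℝ) < n := by exact_mod_cast hn1
  rcases F.eq_empty_or_nonempty with h0 | h0
  · subst h0; simp; positivity
  set m := F.min' h0 with hm
  have hmF : m ∈ F := F.min'_mem h0
  have hinj : Set.InjOn (fun b => (b - m) / n) (F : Set ℕ) := by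
    intro b hb b' hb' hbb
    have hb1 := F.min'_le b hb
    have hb2 := F.min'_le b' hb'
    obtain ⟨k, hk⟩ := (l1_close β c ε η u n m b hb1 hn1 hη hε hε2 (hF _ hmF) (hF _ hb) (hw _ hmF _ hb hb1) hg).1
    obtain ⟨k', hk'⟩ := (l1_close β c ε η u n m b' hb2 hn1 hη hε hε2 (hF _ hmF) (hF _ hb') (hw _ hmF _ hb' hb2) hg).1
    simp only at hbb
    rw [hk, hk', Nat.mul_div_cancel_left _ (by omega), Nat.mul_div_cancel_left _ (by omega)] at hbb
    subst hbb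
    have : m ≤ b := hb1
    have : m ≤ b' := hb2
    omega
  have hmap : ∀ b ∈ F, (fun b => (b - m) / n) b ∈ range (⌊2 * ε / (n * η)⌋₊ + 1) := by
    intro b hb
    have hb1 := F.min'_le b hb
    have hcl := (l1_close β c ε η u n m b hb1 hn1 hη hε hε2 (hF _ hmF) (hF _ hb) (hw _ hmF _ hb hb1) hg).2
    rw [Finset.mem_range, Nat.lt_succ_iff]
    apply Nat.le_floor
    have h1 : (((b - m) / n : ℕ) : ℝ) ≤ ((b - m : ℕ) : ℝ) / n := Nat.cast_div_le
    have h2 : ((b - m : ℕ) : ℝ) = (b : ℝ) - m := Nat.cast_sub hb1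
    rw [h2] at h1
    refine h1.trans ?_
    rw [div_le_div_iff₀ hn0 (by positivity)]
    nlinarith
  have h3 := Finset.card_le_card_of_injOn _ hmap hinj
  rw [Finset.card_range] at h3
  have h4 : ((⌊2 * ε / (n * η)⌋₊ : ℕ) : ℝ) ≤ 2 * ε / (n * η) := Nat.floor_le (by positivity)
  have h5 : (F.card : ℝ) ≤ ((⌊2 * ε / (n * η)⌋₊ + 1 : ℕ) : ℝ) := by exact_mod_cast h3
  push_cast at h5; linarith

/-- Lemma L1. `S ⊆ [M, 2M)`, `‖b β - c‖ ≤ ε` on `S`, `|S| ≥ δ M`, `δ M ≥ 4`, `64 ε ≤ δ`: then `|β - u/n| ≤ 4 ε / (δ n M)` for some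
coprime `u, n`, `1 ≤ n ≤ 2/δ`. -/
theorem l1_approx (β c ε δ : ℝ) (M : ℕ) (S : Finset ℕ) (hS : S ⊆ Ico M (2 * M))
    (hn : ∀ b ∈ S, nint ((b : ℝ) * β - c) ≤ ε) (hcard : δ * M ≤ (S.card : ℝ)) (h4 : 4 ≤ δ * M) (hε : 0 < ε) (hδ : 0 < δ)
    (hεδ : 64 * ε ≤ δ) :
    ∃ (u : ℤ) (n : ℕ), 1 ≤ n ∧ (n : ℝ) ≤ 2 / δ ∧ Int.gcd u n = 1 ∧ |β - (u : ℝ) / n| ≤ 4 * ε / (δ * n * M) := by
  have hM : (0 : ℝ) < M := by
    rcases Nat.eq_zero_or_pos M with h | h
    · subst h; simp at h4; linarith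
    · exact_mod_cast h
  -- δ ≤ 1
  have hScard : (S.card : ℝ) ≤ M := by
    have := Finset.card_le_card hS
    rw [Nat.card_Ico] at this
    have h2 : 2 * M - M = M := by omega
    rw [h2] at this; exact_mod_cast this
  have hδ1 : δ ≤ 1 := by
    by_contra hcon; push Not at hcon
    nlinarith
  obtain ⟨b, hb, b', hb', hlt, hd⟩ := l1_pair δ M S hS hcard h4 hδ
  obtain ⟨n1, hn1⟩ : ∃ n1 : ℕ, b' = b + n1 := ⟨b' - b, by omega⟩
  have hn1pos : 1 ≤ n1 := by omega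
  have hn1r : ((b' : ℝ) - b) = n1 := by rw [hn1]; push_cast; ring
  rw [hn1r] at hd
  have hnn : nint ((n1 : ℝ) * β) ≤ 2 * ε := by
    have := l1_nint_sub ((b' : ℝ) * β - c) ((b : ℝ) * β - c)
    have e : (b' : ℝ) * β - c - ((b : ℝ) * β - c) = n1 * β := by rw [← hn1r]; ring
    rw [e] at this
    have h1 := hn b hb
    have h2 := hn b' hb'
    linarith
  obtain ⟨u, n, hnpos, hnle, hg, hne⟩ := l1_frac β ε n1 hn1pos hnn
  have hn0 : (0 : ℝ) < n := by exact_mod_cast hnpos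
  have hnle' : (n : ℝ) ≤ n1 := by exact_mod_cast hnle
  have hnδ : (n : ℝ) ≤ 2 / δ := by linarith
  refine ⟨u, n, hnpos, hnδ, hg, ?_⟩
  set η : ℝ := |β - (u : ℝ) / n| with hη
  rcases eq_or_lt_of_le (abs_nonneg (β - (u : ℝ) / n)) with h0 | h0
  · rw [hη, ← h0]; positivity
  have hη0 : 0 < η := h0
  have hnδ2 : (n : ℝ) * δ ≤ 2 := by rwa [le_div_iff₀ hδ] at hnδ
  have hε1 : 2 * ε < 3 / (4 * n) := by
    rw [lt_div_iff₀ (by positivity)]
    nlinarith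
  have hε2 : 2 * ε < 1 / 2 := by nlinarith
  -- windows
  set w : ℝ := 1 / (4 * n * η) with hw
  have hw0 : 0 < w := by positivity
  have hmaps : ∀ b ∈ S, ⌊((b : ℝ) - M) / w⌋₊ ∈ range (⌊(M : ℝ) / w⌋₊ + 1) := by
    intro b hb
    have h1 := Finset.mem_Ico.mp (hS hb)
    rw [Finset.mem_range, Nat.lt_succ_iff]
    apply Nat.floor_le_floor
    have h2 : (b : ℝ) < 2 * M := by exact_mod_cast h1.2
    apply div_le_div_of_nonneg_right _ hw0.le
    linarith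
  have hfib : ∀ j ∈ range (⌊(M : ℝ) / w⌋₊ + 1),
      ((S.filter (fun b : ℕ => ⌊((b : ℝ) - M) / w⌋₊ = j)).card : ℝ) ≤ 2 * ε / (n * η) + 1 := by
    intro j _
    apply l1_fibre β c ε η u n _ hnpos hη hη0 hε1 hε2 hε _ _ hg
    · intro b hb; exact hn b (Finset.mem_filter.mp hb).1
    · intro b hb b' hb' hbb
      obtain ⟨hb1, hb2⟩ := Finset.mem_filter.mp hb
      obtain ⟨hb1', hb2'⟩ := Finset.mem_filter.mp hb'
      have hM1 : (M : ℝ) ≤ b := by exact_mod_cast (Finset.mem_Ico.mp (hS hb1)).1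
      have h5 : (j : ℝ) ≤ ((b : ℝ) - M) / w := by
        rw [← hb2]; exact Nat.floor_le (div_nonneg (by linarith) hw0.le)
      have h6 : ((b' : ℝ) - M) / w < j + 1 := by
        rw [← hb2']; exact Nat.lt_floor_add_one _
      have h7 : ((b' : ℝ) - b) / w ≤ 1 := by
        have : ((b' : ℝ) - b) / w = ((b' : ℝ) - M) / w - ((b : ℝ) - M) / w := by ring
        rw [this]; linarith
      rw [div_le_iff₀ hw0, one_mul, hw] at h7
      calc ((b' : ℝ) - b) * η ≤ 1 / (4 * n * η) * η := mul_le_mul_of_nonneg_right h7 hη0.le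
        _ = 1 / (4 * n) := by field_simp
  have hsum : (S.card : ℝ) ≤ ((⌊(M : ℝ) / w⌋₊ : ℝ) + 1) * (2 * ε / (n * η) + 1) := by
    rw [Finset.card_eq_sum_card_fiberwise (f := fun b : ℕ => ⌊((b : ℝ) - M) / w⌋₊)
      (t := range (⌊(M : ℝ) / w⌋₊ + 1)) (fun b hb => hmaps b hb)]
    push_cast
    calc ∑ j ∈ range (⌊(M : ℝ) / w⌋₊ + 1), ((S.filter (fun b : ℕ => ⌊((b : ℝ) - M) / w⌋₊ = j)).card : ℝ)
        ≤ ∑ j ∈ range (⌊(M : ℝ) / w⌋₊ + 1), (2 * ε / (n * η) + 1) := Finset.sum_le_sum hfib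
      _ = _ := by rw [Finset.sum_const, Finset.card_range, nsmul_eq_mul]; push_cast; rfl
  have hfl : ((⌊(M : ℝ) / w⌋₊ : ℕ) : ℝ) ≤ M / w := Nat.floor_le (by positivity)
  have hMw : (M : ℝ) / w = 4 * n * η * M := by rw [hw]; field_simp
  have hA : 0 < 2 * ε / (n * η) + 1 := by positivity
  have h9 : (S.card : ℝ) ≤ (4 * n * η * M + 1) * (2 * ε / (n * η) + 1) := by
    refine hsum.trans ?_
    apply mul_le_mul_of_nonneg_right _ hA.le
    rw [← hMw]; linarith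
  have h10 : (4 * n * η * M + 1) * (2 * ε / (n * η) + 1) = 8 * ε * M + 4 * (n * η) * M + 2 * ε / (n * η) + 1 := by
    field_simp; ring
  have h11 : 4 * (n * η) * M ≤ 8 * ε * M := by nlinarith
  have h12 : δ * M / 2 ≤ 2 * ε / (n * η) := by
    rw [h10] at h9
    nlinarith
  rw [le_div_iff₀ (by positivity)] at h12 ⊢
  nlinarith

end Pool.Agent.H20G
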