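import Mathlib

/-!
# H20G, module N (section 9), file 8: planes

A plane for a set of pairs `(a, b)` with an integer function `mm` is a primitive relation
`n * mm (a, b) = u * b - u' * a` with `n ≥ 1`.  It is unique as soon as the set contains two
different pairs of coprime positive integers.
-/

set_option autoImplicit false
open scoped BigOperators
open Finset

namespace Pool.Agent.Lib.H20G

/-- `(u, u', n)` is the plane of the set `P` of pairs (with the integer function `mm`). -/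
def Plane (P : Set (ℕ × ℕ)) (mm : ℕ × ℕ → ℤ) (u u' n : ℤ) : Prop :=
  1 ≤ n ∧ Int.gcd (Int.gcd u u') n = 1 ∧ ∀ x ∈ P, n * mm x = u * (x.2 : ℤ) - u' * (x.1 : ℤ)

theorem Plane.mono {P Q : Set (ℕ × ℕ)} {mm : ℕ × ℕ → ℤ} {u u' n : ℤ} (h : Plane Q mm u u' n)
    (hPQ : P ⊆ Q) : Plane P mm u u' n :=
  ⟨h.1, h.2.1, fun x hx => h.2.2 x (hPQ hx)⟩

/-- Two different pairs of coprime positive integers are not proportional. -/
theorem n8_det {a b a' b' : ℕ} (ha : 1 ≤ a)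
    (h : Nat.Coprime a b) (h' : Nat.Coprime a' b') (hne : (a, b) ≠ (a', b')) :
    (a : ℤ) * b' - a' * b ≠ 0 := by
  intro h0
  apply hne
  have h1 : a * b' = a' * b := by
    have : (a : ℤ) * b' = a' * b := by linarith
    exact_mod_cast this
  have d1 : a ∣ a' := h.dvd_of_dvd_mul_right (h1 ▸ Dvd.intro _ rfl)
  have d2 : a' ∣ a := h'.dvd_of_dvd_mul_right (h1 ▸ Dvd.intro _ rfl)
  have e1 : a = a' := Nat.dvd_antisymm d1 d2
  subst e1
  have e2 : b' = b := Nat.eq_of_mul_eq_mul_left ha h1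
  rw [e2]

theorem n8_dvd {k n u u' v v' : ℤ} (g : Int.gcd (Int.gcd u u') n = 1) (h1 : k * u = n * v)
    (h2 : k * u' = n * v') : n ∣ k := by
  have hcop : IsCoprime (n : ℤ) (Int.gcd u u' : ℤ) :=
    (Int.isCoprime_iff_gcd_eq_one.mpr g).symm
  refine hcop.dvd_of_dvd_mul_right (?_ : n ∣ k * (Int.gcd u u' : ℤ))
  rw [Int.gcd_eq_gcd_ab u u']
  refine ⟨v * u.gcdA u' + v' * u.gcdB u', ?_⟩
  calc k * (u * u.gcdA u' + u' * u.gcdB u')
      = (k * u) * u.gcdA u' + (k * u') * u.gcdB u' := by ring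
    _ = n * (v * u.gcdA u' + v' * u.gcdB u') := by rw [h1, h2]; ring

/-- **N8.** A plane through two different pairs of coprime positive integers is unique. -/
theorem N8_unique {mm : ℕ × ℕ → ℤ} {x y : ℕ × ℕ} (hx1 : 1 ≤ x.1) (hx : Nat.Coprime x.1 x.2) (hy : Nat.Coprime y.1 y.2) (hne : x ≠ y)
    {u u' n v v' k : ℤ} (hn : 1 ≤ n) (hk : 1 ≤ k) (gn : Int.gcd (Int.gcd u u') n = 1)
    (gk : Int.gcd (Int.gcd v v') k = 1)
    (e1 : n * mm x = u * (x.2 : ℤ) - u' * (x.1 : ℤ)) (e2 : n * mm y = u * (y.2 : ℤ) - u' * (y.1 : ℤ))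
    (f1 : k * mm x = v * (x.2 : ℤ) - v' * (x.1 : ℤ)) (f2 : k * mm y = v * (y.2 : ℤ) - v' * (y.1 : ℤ)) :
    u = v ∧ u' = v' ∧ n = k := by
  have hdet := n8_det hx1 hx hy (by simpa [Prod.ext_iff] using hne)
  -- `p = k u - n v`, `p' = k u' - n v'` satisfy `p x₂ = p' x₁`, `p y₂ = p' y₁`
  have r1 : (k * u - n * v) * (x.2 : ℤ) = (k * u' - n * v') * (x.1 : ℤ) := by
    have : k * (n * mm x) = n * (k * mm x) := by ring
    rw [e1, f1] at this
    linarith
  have r2 : (k * u - n * v) * (y.2 : ℤ) = (k * u' - n * v') * (y.1 : ℤ) := by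
    have : k * (n * mm y) = n * (k * mm y) := by ring
    rw [e2, f2] at this
    linarith
  have s1 : (k * u - n * v) * ((x.1 : ℤ) * y.2 - y.1 * x.2) = 0 := by
    have : (k * u - n * v) * ((x.1 : ℤ) * y.2 - y.1 * x.2) =
        (x.1 : ℤ) * ((k * u - n * v) * (y.2 : ℤ)) - y.1 * ((k * u - n * v) * (x.2 : ℤ)) := by ring
    rw [this, r1, r2]
    ring
  have s2 : (k * u' - n * v') * ((x.1 : ℤ) * y.2 - y.1 * x.2) = 0 := by
    have : (k * u' - n * v') * ((x.1 : ℤ) * y.2 - y.1 * x.2) =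
        (y.2 : ℤ) * ((k * u' - n * v') * (x.1 : ℤ)) - x.2 * ((k * u' - n * v') * (y.1 : ℤ)) := by ring
    rw [this, ← r1, ← r2]
    ring
  have t1 : k * u = n * v := by
    rcases mul_eq_zero.mp s1 with h | h
    · linarith
    · exact absurd h hdet
  have t2 : k * u' = n * v' := by
    rcases mul_eq_zero.mp s2 with h | h
    · linarith
    · exact absurd h hdet
  have d1 : n ∣ k := n8_dvd gn t1 t2
  have d2 : k ∣ n := n8_dvd gk t1.symm t2.symm
  have hnk : n = k := Int.dvd_antisymm (by omega) (by omega) d1 d2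
  subst hnk
  have hn0 : n ≠ 0 := by omega
  exact ⟨mul_left_cancel₀ hn0 t1, mul_left_cancel₀ hn0 t2, rfl⟩

/-- **N8.** The planes of two sets with a common subset which contains two different pairs of coprime
positive integers are equal. -/
theorem N8_plane {P Q R : Set (ℕ × ℕ)} {mm : ℕ × ℕ → ℤ} {u u' n v v' k : ℤ}
    (hP : Plane P mm u u' n) (hQ : Plane Q mm v v' k) (hRP : R ⊆ P) (hRQ : R ⊆ Q)
    (hR : ∀ x ∈ R, 1 ≤ x.1 ∧ 1 ≤ x.2 ∧ Nat.Coprime x.1 x.2) {x y : ℕ × ℕ} (hx : x ∈ R) (hy : y ∈ R)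
    (hne : x ≠ y) : u = v ∧ u' = v' ∧ n = k :=
  N8_unique (hR x hx).1 (hR x hx).2.2 (hR y hy).2.2 hne hP.1 hQ.1 hP.2.1 hQ.2.1 (hP.2.2 x (hRP hx)) (hP.2.2 y (hRP hy)) (hQ.2.2 x (hRQ hx))
    (hQ.2.2 y (hRQ hy))

/-- **N8.** Two isolated pairs of a decreasing family of sets coincide. -/
theorem N8_isolated {P : ℕ → Finset (ℕ × ℕ)} (hP : Antitone P) {k l : ℕ} {x y : ℕ × ℕ}
    (hx : x ∈ P k) (hy : y ∈ P l) (hk : (P k).card ≤ 1) (hl : (P l).card ≤ 1) : x = y := by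
  rcases le_total k l with h | h
  · exact Finset.card_le_one.mp hk x hx y (hP h hy)
  · exact Finset.card_le_one.mp hl x (hP h hx) y hy

/-- **N8.** The planes of two members (with at least two elements) of a decreasing family of sets
coincide. -/
theorem N8_planar {P : ℕ → Finset (ℕ × ℕ)} (hP : Antitone P) {mm : ℕ × ℕ → ℤ}
    (hcop : ∀ k, ∀ x ∈ P k, 1 ≤ x.1 ∧ 1 ≤ x.2 ∧ Nat.Coprime x.1 x.2) {k l : ℕ}
    (hk : 2 ≤ (P k).card) (hl : 2 ≤ (P l).card) {u u' n v v' w : ℤ}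
    (h1 : Plane (P k : Set (ℕ × ℕ)) mm u u' n) (h2 : Plane (P l : Set (ℕ × ℕ)) mm v v' w) :
    u = v ∧ u' = v' ∧ n = w := by
  rcases le_total k l with h | h
  · obtain ⟨x, hx, y, hy, hne⟩ := Finset.one_lt_card.mp (by omega : 1 < (P l).card)
    exact N8_plane h1 h2 (R := (P l : Set (ℕ × ℕ))) (Finset.coe_subset.mpr (hP h)) subset_rfl
      (fun z hz => hcop l z (Finset.mem_coe.mp hz)) (Finset.mem_coe.mpr hx) (Finset.mem_coe.mpr hy)
      hne
  · obtain ⟨x, hx, y, hy, hne⟩ := Finset.one_lt_card.mp (by omega : 1 < (P k).card)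
    exact N8_plane h1 h2 (R := (P k : Set (ℕ × ℕ))) subset_rfl (Finset.coe_subset.mpr (hP h))
      (fun z hz => hcop k z (Finset.mem_coe.mp hz)) (Finset.mem_coe.mpr hx) (Finset.mem_coe.mpr hy)
      hne

end Pool.Agent.Lib.H20G
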