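import Mathlib
import Pool.Agent.Lib.H20G.Core
import Pool.Agent.Lib.H20G.D5
import Pool.Agent.Lib.H20G.N8

set_option autoImplicit false

/-!
# H20G chunk N10: planes and boxes (uniqueness, divisibility, swap)
-/

namespace Pool.Agent.H20G

open Finset

/-! ### nearest integers -/

theorem nmn_nint_le (x : ℝ) (z : ℤ) : nint x ≤ |x - z| := round_le x z

theorem nmn_nint_neg (x : ℝ) : nint (-x) = nint x := by
  have h : ∀ y : ℝ, nint (-y) ≤ nint y := by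
    intro y
    refine (nmn_nint_le (-y) (-round y)).trans (le_of_eq ?_)
    unfold nint
    rw [Int.cast_neg, show -y - -(round y : ℝ) = -(y - round y) by ring, abs_neg]
  refine le_antisymm (h x) ?_
  have := h (-x)
  rwa [neg_neg] at this

theorem nmn_round_neg {x : ℝ} (h : nint x < 1 / 2) : round (-x) = -round x := by
  have h1 : |(-x) - round (-x)| < 1 / 2 := by
    have := nmn_nint_neg x
    unfold nint at this
    rw [this]
    exact h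
  have h2 : |x - round x| < 1 / 2 := h
  have h3 : |((round (-x) + round x : ℤ) : ℝ)| < 1 := by
    have e : ((round (-x) + round x : ℤ) : ℝ) = -(((-x) - round (-x)) + (x - round x)) := by
      push_cast; ring
    rw [e, abs_neg]
    exact (abs_add_le _ _).trans_lt (by linarith)
  have h4 : |round (-x) + round x| < 1 := by exact_mod_cast h3
  rw [Int.abs_lt_one_iff] at h4
  omega

/-! ### planes -/

theorem nmn_gcd {u u' : ℤ} {n : ℕ} (h : Nat.gcd (Int.gcd u u') n = 1) :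
    Int.gcd (Int.gcd u u') (n : ℤ) = 1 := by
  rw [Int.gcd_natCast_natCast]; exact h

/-- Uniqueness of the plane. -/
theorem nmn_unique {P Q R : Finset (ℕ × ℕ)} {m : ℕ × ℕ → ℤ} {u u' v v' : ℤ} {n k : ℕ}
    (hP : Plane P m u u' n) (hQ : Plane Q m v v' k) (hRP : R ⊆ P) (hRQ : R ⊆ Q)
    (hR : ∀ x ∈ R, 1 ≤ x.1 ∧ Nat.Coprime x.1 x.2) (h2 : 2 ≤ R.card) :
    u = v ∧ u' = v' ∧ n = k := by
  obtain ⟨x, hx, y, hy, hne⟩ := Finset.one_lt_card.mp (by omega : 1 < R.card)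
  obtain ⟨h3, h4, h5⟩ := Pool.Agent.Lib.H20G.N8_unique (mm := m) (hR x hx).1 (hR x hx).2
    (hR y hy).2 hne (n := (n : ℤ)) (k := (k : ℤ)) (by exact_mod_cast hP.1) (by exact_mod_cast hQ.1)
    (nmn_gcd hP.2.1) (nmn_gcd hQ.2.1) (hP.2.2 x (hRP hx)) (hP.2.2 y (hRP hy)) (hQ.2.2 x (hRQ hx))
    (hQ.2.2 y (hRQ hy))
  exact ⟨h3, h4, by exact_mod_cast h5⟩

/-- `gcd (u, n)` divides `a` and `gcd (u', n)` divides `b` for all `(a, b)` of the set. -/
theorem nmn_gdvd {P : Finset (ℕ × ℕ)} {m : ℕ × ℕ → ℤ} {u u' : ℤ} {n : ℕ} (hP : Plane P m u u' n)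
    {x : ℕ × ℕ} (hx : x ∈ P) : Int.gcd u n ∣ x.1 ∧ Int.gcd u' n ∣ x.2 := by
  have e := hP.2.2 x hx
  have g := nmn_gcd hP.2.1
  constructor
  · -- `g ∣ u' x.1`
    have h1 : (Int.gcd u n : ℤ) ∣ u := Int.gcd_dvd_left _ _
    have h2 : (Int.gcd u n : ℤ) ∣ (n : ℤ) := Int.gcd_dvd_right _ _
    have h3 : (Int.gcd u n : ℤ) ∣ u' * x.1 := by
      have : u' * (x.1 : ℤ) = u * x.2 - n * m x := by linarith
      rw [this]
      exact dvd_sub (h1.mul_right _) (h2.mul_right _)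
    have h4 : IsCoprime (Int.gcd u n : ℤ) u' := by
      rw [Int.isCoprime_iff_gcd_eq_one]
      have h5 : Int.gcd (Int.gcd u n) u' ∣ Int.gcd (Int.gcd u u') (n : ℤ) := by
        apply Int.dvd_gcd
        · apply Int.dvd_coe_gcd
          · exact (Int.gcd_dvd_left _ _).trans h1
          · exact Int.gcd_dvd_right _ _
        · exact (Int.gcd_dvd_left _ _).trans h2
      rw [g] at h5
      exact Nat.dvd_one.mp h5
    have h6 := h4.dvd_of_dvd_mul_left h3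
    exact_mod_cast h6
  · have h1 : (Int.gcd u' n : ℤ) ∣ u' := Int.gcd_dvd_left _ _
    have h2 : (Int.gcd u' n : ℤ) ∣ (n : ℤ) := Int.gcd_dvd_right _ _
    have h3 : (Int.gcd u' n : ℤ) ∣ u * x.2 := by
      have : u * (x.2 : ℤ) = u' * x.1 + n * m x := by linarith
      rw [this]
      exact dvd_add (h1.mul_right _) (h2.mul_right _)
    have h4 : IsCoprime (Int.gcd u' n : ℤ) u := by
      rw [Int.isCoprime_iff_gcd_eq_one]
      have h5 : Int.gcd (Int.gcd u' n) u ∣ Int.gcd (Int.gcd u u') (n : ℤ) := by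
        apply Int.dvd_gcd
        · apply Int.dvd_coe_gcd
          · exact Int.gcd_dvd_right _ _
          · exact (Int.gcd_dvd_left _ _).trans h1
        · exact (Int.gcd_dvd_left _ _).trans h2
      rw [g] at h5
      exact Nat.dvd_one.mp h5
    have h6 := h4.dvd_of_dvd_mul_left h3
    exact_mod_cast h6

/-! ### boxes -/

theorem nmn_mem {γ : ℝ} {k h h' A B : ℕ} {x : ℕ × ℕ} : x ∈ Pset γ k h h' A B ↔
    (A ≤ x.1 ∧ x.1 < 2 * A) ∧ (B ≤ x.2 ∧ x.2 < 2 * B) ∧ Nat.Coprime x.1 x.2 ∧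
      nint (γ * ((x.2 : ℝ) * h - (x.1 : ℝ) * h')) ≤ 1 / 2 ^ k := by
  unfold Pset
  rw [mem_filter, mem_product, mem_Ico, mem_Ico]
  tauto

theorem nmn_anti (γ : ℝ) (h h' A B : ℕ) {k l : ℕ} (hkl : k ≤ l) :
    Pset γ l h h' A B ⊆ Pset γ k h h' A B := by
  intro x hx
  rw [nmn_mem] at hx ⊢
  refine ⟨hx.1, hx.2.1, hx.2.2.1, hx.2.2.2.trans ?_⟩
  exact one_div_le_one_div_of_le (by positivity) (pow_le_pow_right₀ (by norm_num) hkl)

theorem nmn_swap_mem {γ : ℝ} {k h h' A B : ℕ} {x : ℕ × ℕ} :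
    x.swap ∈ Pset γ k h' h B A ↔ x ∈ Pset γ k h h' A B := by
  rw [nmn_mem, nmn_mem]
  have e : nint (γ * ((x.swap.2 : ℝ) * h' - (x.swap.1 : ℝ) * h)) =
      nint (γ * ((x.2 : ℝ) * h - (x.1 : ℝ) * h')) := by
    rw [← nmn_nint_neg]
    congr 1
    simp only [Prod.fst_swap, Prod.snd_swap]
    ring
  rw [e]
  simp only [Prod.fst_swap, Prod.snd_swap]
  rw [Nat.coprime_comm]
  tauto

/-- The plane of the swapped box. -/
theorem nmn_swap_plane {γ : ℝ} {k h h' A B : ℕ} (hk : 2 ≤ k) {u u' : ℤ} {n : ℕ}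
    (hP : Plane (Pset γ k h h' A B) (mm γ h h') u u' n) :
    Plane (Pset γ k h' h B A) (mm γ h' h) u' u n := by
  refine ⟨hP.1, by rw [Int.gcd_comm]; exact hP.2.1, ?_⟩
  intro y hy
  have hx : y.swap ∈ Pset γ k h h' A B := by
    rw [← nmn_swap_mem, Prod.swap_swap]; exact hy
  have e := hP.2.2 _ hx
  have hn : nint (γ * ((y.swap.2 : ℝ) * h - (y.swap.1 : ℝ) * h')) < 1 / 2 := by
    refine lt_of_le_of_lt (nmn_mem.mp hx).2.2.2 ?_
    refine lt_of_le_of_lt (one_div_le_one_div_of_le (by positivity)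
      (pow_le_pow_right₀ (by norm_num) hk) : (1 : ℝ) / 2 ^ k ≤ 1 / 2 ^ 2) (by norm_num)
  have hm : mm γ h' h y = -mm γ h h' y.swap := by
    unfold mm
    rw [← nmn_round_neg hn]
    congr 1
    simp only [Prod.fst_swap, Prod.snd_swap]
    ring
  rw [hm, mul_neg, e]
  simp only [Prod.fst_swap, Prod.snd_swap]
  ring

/-! ### edges -/

theorem nmn_aa (q r : ℕ) : aa r q = bb q r := by
  unfold aa bb; rw [Nat.gcd_comm]

theorem nmn_bb (q r : ℕ) : bb r q = aa q r := by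
  unfold aa bb; rw [Nat.gcd_comm]

theorem nmn_tA (k0 k q r : ℕ) : tA k0 k r q = tB k0 k q r := by
  unfold tA tB; rw [nmn_aa]

theorem nmn_tB (k0 k q r : ℕ) : tB k0 k r q = tA k0 k q r := by
  unfold tA tB; rw [nmn_bb]

theorem nmn_hA (k0 k q r : ℕ) : hA k0 k r q = hB k0 k q r := by
  unfold hA hB; rw [nmn_aa]

theorem nmn_hB (k0 k q r : ℕ) : hB k0 k r q = hA k0 k q r := by
  unfold hA hB; rw [nmn_bb]

theorem nmn_box_swap (γ : ℝ) (k0 k q r : ℕ) : boxP γ k0 k r q =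
    Pset γ k (hA k0 k q r) (hB k0 k q r) (2 ^ Nat.log 2 (tB k0 k q r))
      (2 ^ Nat.log 2 (tA k0 k q r)) := by
  unfold boxP
  rw [nmn_hB k0 k q r, nmn_hA k0 k q r, nmn_tA k0 k q r, nmn_tB k0 k q r]

theorem nmn_box_mem (γ : ℝ) (k0 k q r : ℕ) {x : ℕ × ℕ} :
    x.swap ∈ boxP γ k0 k r q ↔ x ∈ boxP γ k0 k q r := by
  rw [nmn_box_swap]
  exact nmn_swap_mem

theorem nmn_box_card (γ : ℝ) (k0 k q r : ℕ) : (boxP γ k0 k r q).card = (boxP γ k0 k q r).card := by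
  refine Finset.card_bij (fun x _ => x.swap) ?_ ?_ ?_
  · intro x hx
    rw [← nmn_box_mem, Prod.swap_swap]
    exact hx
  · intro x _ y _ hxy
    exact Prod.swap_injective hxy
  · intro y hy
    exact ⟨y.swap, nmn_box_mem γ k0 k q r |>.mpr hy, Prod.swap_swap y⟩

/-- the parts of an edge -/
theorem nmn_aa_pos {q r : ℕ} (hq : 0 < q) : 0 < aa q r := by
  unfold aa
  exact Nat.div_pos (Nat.le_of_dvd hq (Nat.gcd_dvd_left _ _)) (Nat.gcd_pos_of_pos_left _ hq)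

theorem nmn_bb_pos {q r : ℕ} (hr : 0 < r) : 0 < bb q r := by
  rw [← nmn_aa]; exact nmn_aa_pos hr

theorem nmn_aa_eq {q r : ℕ} (hq : 0 < q) (k0 k : ℕ) : hA k0 k q r * tA k0 k q r = aa q r := by
  unfold hA tA
  rw [mul_comm]
  exact d5_split _ _ (nmn_aa_pos hq)

theorem nmn_bb_eq {q r : ℕ} (hr : 0 < r) (k0 k : ℕ) : hB k0 k q r * tB k0 k q r = bb q r := by
  unfold hB tB
  rw [mul_comm]
  exact d5_split _ _ (nmn_bb_pos hr)

theorem nmn_tA_pos (k0 k q r : ℕ) : 0 < tA k0 k q r := (d5_pos _ _).1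

theorem nmn_tB_pos (k0 k q r : ℕ) : 0 < tB k0 k q r := (d5_pos _ _).1

theorem nmn_hA_pos (k0 k q r : ℕ) : 0 < hA k0 k q r := (d5_pos _ _).2

theorem nmn_hB_pos (k0 k q r : ℕ) : 0 < hB k0 k q r := (d5_pos _ _).2

theorem nmn_coprime {q r : ℕ} (hq : 0 < q) : Nat.Coprime (aa q r) (bb q r) :=
  Nat.coprime_div_gcd_div_gcd (Nat.gcd_pos_of_pos_left _ hq)

/-- The pair of smooth parts lies in the box. -/
theorem nmn_self_mem {γ : ℝ} {f : ℕ → ℝ} {S : Finset ℕ} {k0 k q r : ℕ} (hq : 0 < q) (hr : 0 < r)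
    (he : Edge γ f S k q r) : (tA k0 k q r, tB k0 k q r) ∈ boxP γ k0 k q r := by
  unfold boxP
  rw [nmn_mem]
  have ha := nmn_tA_pos k0 k q r
  have hb := nmn_tB_pos k0 k q r
  refine ⟨⟨Nat.pow_log_le_self 2 ha.ne', ?_⟩, ⟨Nat.pow_log_le_self 2 hb.ne', ?_⟩, ?_, ?_⟩
  · have := Nat.lt_pow_succ_log_self (b := 2) (by norm_num) (tA k0 k q r)
    rw [pow_succ] at this
    simpa [mul_comm] using this
  · have := Nat.lt_pow_succ_log_self (b := 2) (by norm_num) (tB k0 k q r)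
    rw [pow_succ] at this
    simpa [mul_comm] using this
  · exact Nat.Coprime.of_dvd (nmn_aa_eq hq k0 k ▸ Dvd.intro_left _ rfl)
      (nmn_bb_eq hr k0 k ▸ Dvd.intro_left _ rfl) (nmn_coprime hq)
  · have e : γ * (((tA k0 k q r, tB k0 k q r).2 : ℝ) * (hB k0 k q r : ℝ) -
        ((tA k0 k q r, tB k0 k q r).1 : ℝ) * (hA k0 k q r : ℝ)) =
        γ * ((bb q r : ℝ) - aa q r) := by
      rw [← nmn_aa_eq hq k0 k, ← nmn_bb_eq hr k0 k]
      push_cast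
      ring
    rw [e]
    exact he.2.2.2.2.2.trans he.2.2.2.1

/-! ### the chosen plane -/

theorem nmn_pl {γ : ℝ} {k0 k q r : ℕ} (H : ∃ t : ℤ × ℤ × ℕ,
    Plane (boxP γ k0 k q r) (mm γ (hB k0 k q r) (hA k0 k q r)) t.1 t.2.1 t.2.2) :
    Plane (boxP γ k0 k q r) (mm γ (hB k0 k q r) (hA k0 k q r)) (pl γ k0 k q r).1
      (pl γ k0 k q r).2.1 (pl γ k0 k q r).2.2 := by
  unfold pl
  rw [dif_pos H]
  exact Classical.choose_spec H

theorem nmn_box_ok {γ : ℝ} {k0 k q r : ℕ} {x : ℕ × ℕ} (hx : x ∈ boxP γ k0 k q r) :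
    1 ≤ x.1 ∧ Nat.Coprime x.1 x.2 := by
  unfold boxP at hx
  rw [nmn_mem] at hx
  exact ⟨le_trans Nat.one_le_two_pow hx.1.1, hx.2.2.1⟩

/-- the plane of the swapped edge is `(u', u, n)` -/
theorem nmn_pl_swap {γ : ℝ} {k0 k q r : ℕ} (hk : 2 ≤ k) (H : ∃ t : ℤ × ℤ × ℕ,
    Plane (boxP γ k0 k q r) (mm γ (hB k0 k q r) (hA k0 k q r)) t.1 t.2.1 t.2.2)
    (h2 : 2 ≤ (boxP γ k0 k q r).card) :
    (pl γ k0 k r q).1 = (pl γ k0 k q r).2.1 ∧ (pl γ k0 k r q).2.1 = (pl γ k0 k q r).1 ∧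
      (pl γ k0 k r q).2.2 = (pl γ k0 k q r).2.2 := by
  have h1 := nmn_pl H
  have h3 : Plane (boxP γ k0 k r q) (mm γ (hB k0 k r q) (hA k0 k r q)) (pl γ k0 k q r).2.1
      (pl γ k0 k q r).1 (pl γ k0 k q r).2.2 := by
    rw [nmn_box_swap, nmn_hA k0 k q r, nmn_hB k0 k q r]
    exact nmn_swap_plane hk h1
  have h4 := nmn_pl (γ := γ) (k0 := k0) (k := k) (q := r) (r := q)
    ⟨((pl γ k0 k q r).2.1, (pl γ k0 k q r).1, (pl γ k0 k q r).2.2), h3⟩
  exact nmn_unique h4 h3 (R := boxP γ k0 k r q) subset_rfl subset_rfl (fun x hx => nmn_box_ok hx)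
    (by rw [nmn_box_card]; exact h2)

/-- **swap lemma** -/
theorem nmn_swap {γ : ℝ} {k0 k q r : ℕ} (hk : 2 ≤ k) (H : ∃ t : ℤ × ℤ × ℕ,
    Plane (boxP γ k0 k q r) (mm γ (hB k0 k q r) (hA k0 k q r)) t.1 t.2.1 t.2.2)
    (h2 : 2 ≤ (boxP γ k0 k q r).card) : al γ k0 k r q = be γ k0 k q r := by
  obtain ⟨e1, _, e3⟩ := nmn_pl_swap hk H h2
  unfold al be
  rw [e1, e3, nmn_tA k0 k q r]

/-- `a_s = α₁ gcd(u, n)`, `b_s = β₁ gcd(u', n)` -/
theorem nmn_al {γ : ℝ} {f : ℕ → ℝ} {S : Finset ℕ} {k0 k q r : ℕ} (hq : 0 < q) (hr : 0 < r)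
    (he : Edge γ f S k q r) (H : ∃ t : ℤ × ℤ × ℕ,
    Plane (boxP γ k0 k q r) (mm γ (hB k0 k q r) (hA k0 k q r)) t.1 t.2.1 t.2.2) :
    tA k0 k q r = al γ k0 k q r * Int.gcd (pl γ k0 k q r).1 ((pl γ k0 k q r).2.2 : ℤ) ∧
    tB k0 k q r = be γ k0 k q r * Int.gcd (pl γ k0 k q r).2.1 ((pl γ k0 k q r).2.2 : ℤ) := by
  obtain ⟨h1, h2⟩ := nmn_gdvd (nmn_pl H) (nmn_self_mem hq hr he)
  constructor
  · unfold al
    rw [Nat.div_mul_cancel h1]
  · unfold be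
    rw [Nat.div_mul_cancel h2]

end Pool.Agent.H20G
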