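import Mathlib
import Pool.Agent.Lib.H20G.Core
import Pool.Agent.Lib.H20G.N10
import Pool.Agent.Lib.H20G.L1

set_option autoImplicit false

/-!
# H20G chunk PEx: existence of the plane (section 7.1)
-/

namespace Pool.Agent.H20G

open Finset

/-- an integer relation gives a primitive one -/
theorem pex_norm {P : Finset (ℕ × ℕ)} {m : ℕ × ℕ → ℤ} {U U' N : ℤ} (hN : 0 < N)
    (h : ∀ x ∈ P, N * m x = U * x.2 - U' * x.1) :
    ∃ (u u' : ℤ) (n : ℕ), Plane P m u u' n := by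
  obtain ⟨n0, hn0⟩ := Int.eq_ofNat_of_zero_le hN.le
  have hn0pos : 0 < n0 := by
    have : (0 : ℤ) < n0 := by rw [← hn0]; exact hN
    exact_mod_cast this
  obtain ⟨G, hG⟩ : ∃ G : ℕ, G = Nat.gcd (Int.gcd U U') n0 := ⟨_, rfl⟩
  have hGpos : 0 < G := by rw [hG]; exact Nat.gcd_pos_of_pos_right _ hn0pos
  have h1 : (G : ℤ) ∣ U := by
    have h2 : (G : ℤ) ∣ (Int.gcd U U' : ℤ) := by
      rw [hG]; exact_mod_cast Nat.gcd_dvd_left _ _
    exact h2.trans (Int.gcd_dvd_left _ _)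
  have h1' : (G : ℤ) ∣ U' := by
    have h2 : (G : ℤ) ∣ (Int.gcd U U' : ℤ) := by
      rw [hG]; exact_mod_cast Nat.gcd_dvd_left _ _
    exact h2.trans (Int.gcd_dvd_right _ _)
  have h3 : G ∣ n0 := by rw [hG]; exact Nat.gcd_dvd_right _ _
  obtain ⟨u, hu⟩ := h1
  obtain ⟨u', hu'⟩ := h1'
  obtain ⟨n, hn⟩ := h3
  have hnpos : 0 < n := by
    rcases Nat.eq_zero_or_pos n with h0 | h0
    · subst h0; omega
    · exact h0
  refine ⟨u, u', n, hnpos, ?_, ?_⟩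
  · have e1 : Int.gcd U U' = G * Int.gcd u u' := by
      rw [hu, hu', Int.gcd_mul_left]; simp
    rw [e1, hn, Nat.gcd_mul_left] at hG
    have : G * 1 = G * Nat.gcd (Int.gcd u u') n := by rw [mul_one]; exact hG
    exact (Nat.eq_of_mul_eq_mul_left hGpos this).symm
  · intro x hx
    have h4 := h x hx
    rw [hn0, hn, hu, hu'] at h4
    push_cast at h4
    have h5 : (G : ℤ) * ((n : ℤ) * m x) = (G : ℤ) * (u * x.2 - u' * x.1) := by linarith
    exact mul_left_cancel₀ (by exact_mod_cast hGpos.ne') h5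

/-- the defect of a pair -/
theorem pex_e {γ : ℝ} {k h h' A B : ℕ} {x : ℕ × ℕ} (hx : x ∈ Pset γ k h h' A B) :
    |(x.2 : ℝ) * (γ * h) - (x.1 : ℝ) * (γ * h') - (mm γ h h' x : ℝ)| ≤ 1 / 2 ^ k := by
  have h1 := (nmn_mem.mp hx).2.2.2
  unfold nint at h1
  unfold mm
  rw [show (x.2 : ℝ) * (γ * h) - (x.1 : ℝ) * (γ * h') = γ * ((x.2 : ℝ) * h - (x.1 : ℝ) * h') by ring]
  exact h1

theorem pex_int {z : ℤ} {c : ℝ} (h : |(z : ℝ)| ≤ c) (hc : c < 1) : z = 0 := by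
  have h1 : |(z : ℝ)| < 1 := lt_of_le_of_lt h hc
  have h2 : |z| < 1 := by exact_mod_cast h1
  rwa [Int.abs_lt_one_iff] at h2

/-- small boxes: three vectors are coplanar -/
theorem pex_small {γ : ℝ} {k h h' A B : ℕ} (h2 : 2 ≤ (Pset γ k h h' A B).card)
    (hAB : 12 * (A : ℝ) * B < 2 ^ k) :
    ∃ (u u' : ℤ) (n : ℕ), Plane (Pset γ k h h' A B) (mm γ h h') u u' n := by
  obtain ⟨x, hx, y, hy, hne⟩ := Finset.one_lt_card.mp (by omega : 1 < (Pset γ k h h' A B).card)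
  have hx' := nmn_mem.mp hx
  have hy' := nmn_mem.mp hy
  have hA1 : 1 ≤ A := by omega
  have hB1 : 1 ≤ B := by omega
  have hdet : (x.1 : ℤ) * y.2 - y.1 * x.2 ≠ 0 :=
    Pool.Agent.Lib.H20G.n8_det (by omega) hx'.2.2.1 hy'.2.2.1 (by simpa [Prod.ext_iff] using hne)
  have hrel : ∀ z ∈ Pset γ k h h' A B, ((x.1 : ℤ) * y.2 - y.1 * x.2) * mm γ h h' z =
      ((x.1 : ℤ) * mm γ h h' y - y.1 * mm γ h h' x) * z.2 -
      ((x.2 : ℤ) * mm γ h h' y - y.2 * mm γ h h' x) * z.1 := by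
    intro z hz
    have hz' := nmn_mem.mp hz
    rw [← sub_eq_zero]
    have ex := pex_e hx
    have ey := pex_e hy
    have ez := pex_e hz
    set ε : ℝ := 1 / 2 ^ k with hε
    have hbd : ∀ a b c d : ℕ, A ≤ a → a < 2 * A → B ≤ b → b < 2 * B → A ≤ c → c < 2 * A → B ≤ d →
        d < 2 * B → |(a : ℝ) * d - c * b| ≤ 4 * A * B := by
      intro a b c d _ ha2 _ hb2 _ hc2 _ hd2
      have ha : (a : ℝ) ≤ 2 * A := by exact_mod_cast ha2.le
      have hb : (b : ℝ) ≤ 2 * B := by exact_mod_cast hb2.le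
      have hc : (c : ℝ) ≤ 2 * A := by exact_mod_cast hc2.le
      have hd : (d : ℝ) ≤ 2 * B := by exact_mod_cast hd2.le
      have h1 : (a : ℝ) * d ≤ 4 * A * B := by nlinarith [(Nat.cast_nonneg a : (0 : ℝ) ≤ a), (Nat.cast_nonneg d : (0 : ℝ) ≤ d), (Nat.cast_nonneg A : (0 : ℝ) ≤ A), (Nat.cast_nonneg B : (0 : ℝ) ≤ B)]
      have h2 : (c : ℝ) * b ≤ 4 * A * B := by nlinarith [(Nat.cast_nonneg c : (0 : ℝ) ≤ c), (Nat.cast_nonneg b : (0 : ℝ) ≤ b), (Nat.cast_nonneg A : (0 : ℝ) ≤ A), (Nat.cast_nonneg B : (0 : ℝ) ≤ B)]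
      have h3 : (0 : ℝ) ≤ (a : ℝ) * d := by positivity
      have h4 : (0 : ℝ) ≤ (c : ℝ) * b := by positivity
      rw [abs_le]
      constructor <;> linarith
    have b1 := hbd x.1 x.2 y.1 y.2 hx'.1.1 hx'.1.2 hx'.2.1.1 hx'.2.1.2 hy'.1.1 hy'.1.2 hy'.2.1.1 hy'.2.1.2
    have b2 := hbd y.1 y.2 z.1 z.2 hy'.1.1 hy'.1.2 hy'.2.1.1 hy'.2.1.2 hz'.1.1 hz'.1.2 hz'.2.1.1 hz'.2.1.2
    have b3 := hbd x.1 x.2 z.1 z.2 hx'.1.1 hx'.1.2 hx'.2.1.1 hx'.2.1.2 hz'.1.1 hz'.1.2 hz'.2.1.1 hz'.2.1.2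
    refine pex_int (c := 3 * (4 * A * B * ε)) ?_ ?_
    · set Ex := (x.2 : ℝ) * (γ * h) - (x.1 : ℝ) * (γ * h') - (mm γ h h' x : ℝ) with hEx
      set Ey := (y.2 : ℝ) * (γ * h) - (y.1 : ℝ) * (γ * h') - (mm γ h h' y : ℝ) with hEy
      set Ez := (z.2 : ℝ) * (γ * h) - (z.1 : ℝ) * (γ * h') - (mm γ h h' z : ℝ) with hEz
      have e : (((((x.1 : ℤ) * y.2 - y.1 * x.2) * mm γ h h' z -
          (((x.1 : ℤ) * mm γ h h' y - y.1 * mm γ h h' x) * z.2 -
          ((x.2 : ℤ) * mm γ h h' y - y.2 * mm γ h h' x) * z.1) : ℤ)) : ℝ) =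
          -(((x.1 : ℝ) * y.2 - y.1 * x.2) * Ez) + ((x.1 : ℝ) * z.2 - z.1 * x.2) * Ey -
            ((y.1 : ℝ) * z.2 - z.1 * y.2) * Ex := by
        have m1 : (mm γ h h' x : ℝ) = (x.2 : ℝ) * (γ * h) - (x.1 : ℝ) * (γ * h') - Ex := by rw [hEx]; ring
        have m2 : (mm γ h h' y : ℝ) = (y.2 : ℝ) * (γ * h) - (y.1 : ℝ) * (γ * h') - Ey := by rw [hEy]; ring
        have m3 : (mm γ h h' z : ℝ) = (z.2 : ℝ) * (γ * h) - (z.1 : ℝ) * (γ * h') - Ez := by rw [hEz]; ring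
        push_cast
        rw [m1, m2, m3]
        ring
      rw [e]
      have t1 : |((x.1 : ℝ) * y.2 - y.1 * x.2) * Ez| ≤ 4 * A * B * ε := by
        rw [abs_mul]; exact mul_le_mul b1 ez (abs_nonneg _) (by positivity)
      have t2 : |((x.1 : ℝ) * z.2 - z.1 * x.2) * Ey| ≤ 4 * A * B * ε := by
        rw [abs_mul]; exact mul_le_mul b3 ey (abs_nonneg _) (by positivity)
      have t3 : |((y.1 : ℝ) * z.2 - z.1 * y.2) * Ex| ≤ 4 * A * B * ε := by
        rw [abs_mul]; exact mul_le_mul b2 ex (abs_nonneg _) (by positivity)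
      rw [abs_le] at t1 t2 t3 ⊢
      constructor <;> linarith [t1.1, t1.2, t2.1, t2.2, t3.1, t3.2]
    · rw [hε]
      have : 3 * (4 * (A : ℝ) * B * (1 / 2 ^ k)) = 12 * (A : ℝ) * B / 2 ^ k := by ring
      rw [this, div_lt_one (by positivity)]
      exact hAB
  rcases lt_or_gt_of_ne hdet with hneg | hpos
  · refine pex_norm (N := -((x.1 : ℤ) * y.2 - y.1 * x.2))
      (U := -((x.1 : ℤ) * mm γ h h' y - y.1 * mm γ h h' x))
      (U' := -((x.2 : ℤ) * mm γ h h' y - y.2 * mm γ h h' x)) (by linarith) ?_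
    intro z hz
    have := hrel z hz
    linarith
  · exact pex_norm hpos hrel

/-- a rich row -/
theorem pex_row {P : Finset (ℕ × ℕ)} {A : ℕ} {t : ℝ} (hP : ∀ x ∈ P, x.1 ∈ Ico A (2 * A))
    (hc : t * A < (P.card : ℝ)) : ∃ a ∈ Ico A (2 * A), t ≤ ((P.filter (fun x => x.1 = a)).card : ℝ) := by
  by_contra hcon
  push Not at hcon
  have h1 : (P.card : ℝ) = ∑ a ∈ Ico A (2 * A), ((P.filter (fun x => x.1 = a)).card : ℝ) := by
    rw [Finset.card_eq_sum_card_fiberwise (f := fun x : ℕ × ℕ => x.1) (t := Ico A (2 * A)) hP]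
    push_cast
    rfl
  have h2 : (P.card : ℝ) ≤ ∑ a ∈ Ico A (2 * A), t := by
    rw [h1]
    exact Finset.sum_le_sum fun a ha => (hcon a ha).le
  rw [Finset.sum_const, Nat.card_Ico, nsmul_eq_mul, show 2 * A - A = A by omega] at h2
  linarith

/-- approximation of `β = γ h` by a rich row -/
theorem pex_approx {γ : ℝ} {k h h' A B : ℕ} {L : ℝ} (hL : 16 ≤ L) (hLk : L ^ 4 = 2 ^ k)
    (hc : L⁻¹ * A * B < ((Pset γ k h h' A B).card : ℝ)) (hB : 4 * L ≤ B) :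
    ∃ (u : ℤ) (n : ℕ), 1 ≤ n ∧ (n : ℝ) ≤ 2 * L ∧ |γ * h - (u : ℝ) / n| ≤ 4 * L / (2 ^ k * n * B) := by
  have hL0 : 0 < L := by linarith
  obtain ⟨a, ha, hrow⟩ := pex_row (P := Pset γ k h h' A B) (A := A) (t := L⁻¹ * B)
    (fun x hx => mem_Ico.mpr (nmn_mem.mp hx).1) (by
      have : L⁻¹ * (B : ℝ) * A = L⁻¹ * A * B := by ring
      rw [this]; exact hc)
  set F := (Pset γ k h h' A B).filter (fun x => x.1 = a) with hF
  set R := F.image (fun x => x.2) with hR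
  have hcard : R.card = F.card := by
    rw [hR]
    refine Finset.card_image_of_injOn ?_
    intro x hx y hy hxy
    have h1 := (mem_filter.mp (mem_coe.mp hx)).2
    have h2 := (mem_filter.mp (mem_coe.mp hy)).2
    exact Prod.ext (h1.trans h2.symm) hxy
  have hB0 : (0 : ℝ) < B := by linarith
  have hS1 : R ⊆ Ico B (2 * B) := by
    intro b hb
    obtain ⟨x, hx, hxb⟩ := mem_image.mp hb
    have h1 := nmn_mem.mp (mem_filter.mp hx).1
    rw [← hxb]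
    exact mem_Ico.mpr h1.2.1
  have hS2 : ∀ b ∈ R, nint ((b : ℝ) * (γ * h) - a * (γ * h')) ≤ 1 / 2 ^ k := by
    intro b hb
    obtain ⟨x, hx, hxb⟩ := mem_image.mp hb
    obtain ⟨hx1, hx2⟩ := mem_filter.mp hx
    have h1 := (nmn_mem.mp hx1).2.2.2
    rw [← hxb, ← hx2]
    have e : (x.2 : ℝ) * (γ * h) - (x.1 : ℝ) * (γ * h') = γ * ((x.2 : ℝ) * h - (x.1 : ℝ) * h') := by ring
    rw [e]
    exact h1
  have hS3 : 1 / L * (B : ℝ) ≤ (R.card : ℝ) := by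
    rw [hcard, one_div]
    exact hrow
  have hS4 : 4 ≤ 1 / L * (B : ℝ) := by
    rw [one_div, inv_mul_eq_div, le_div_iff₀ hL0]
    exact hB
  have hS5 : 64 * (1 / 2 ^ k) ≤ 1 / L := by
    rw [← hLk, mul_one_div, div_le_div_iff₀ (by positivity) hL0]
    nlinarith [pow_pos hL0 3, pow_le_pow_left₀ (by norm_num : (0 : ℝ) ≤ 16) hL 3]
  obtain ⟨u, n, h1, h2, _, h4⟩ := l1_approx (γ * h) (a * (γ * h')) (1 / 2 ^ k) (1 / L) B R hS1 hS2
    hS3 hS4 (by positivity) (by positivity) hS5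
  have hn0 : (0 : ℝ) < n := by exact_mod_cast h1
  refine ⟨u, n, h1, ?_, ?_⟩
  · rw [div_div_eq_mul_div, div_one] at h2
    exact h2
  · refine h4.trans (le_of_eq ?_)
    field_simp

/-- the number of elements of the swapped box -/
theorem pex_card (γ : ℝ) (k h h' A B : ℕ) :
    (Pset γ k h' h B A).card = (Pset γ k h h' A B).card := by
  refine Finset.card_bij (fun x _ => x.swap) ?_ ?_ ?_
  · intro x hx
    rw [← nmn_swap_mem, Prod.swap_swap]
    exact hx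
  · intro x _ y _ hxy
    exact Prod.swap_injective hxy
  · intro y hy
    exact ⟨y.swap, nmn_swap_mem.mpr hy, Prod.swap_swap y⟩

/-- large boxes with `A ≤ B` -/
theorem pex_large {γ : ℝ} {k h h' A B : ℕ} {L : ℝ} (hL : 16 ≤ L) (hLk : L ^ 4 = 2 ^ k)
    (h2 : 2 ≤ (Pset γ k h h' A B).card)
    (hc : L⁻¹ * A * B < ((Pset γ k h h' A B).card : ℝ)) (hAB : 2 ^ k ≤ 12 * (A : ℝ) * B)
    (hle : A ≤ B) :
    ∃ (u u' : ℤ) (n : ℕ), Plane (Pset γ k h h' A B) (mm γ h h') u u' n := by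
  have hL0 : 0 < L := by linarith
  have hle' : (A : ℝ) ≤ B := by exact_mod_cast hle
  have hA0 : (0 : ℝ) ≤ A := Nat.cast_nonneg A
  have hB4 : 4 * L ≤ B := by
    by_contra hcon
    push Not at hcon
    have h3 : (A : ℝ) * B ≤ B * B := by nlinarith
    have h4 : (B : ℝ) * B ≤ (4 * L) * (4 * L) := by
      have : (0 : ℝ) ≤ B := Nat.cast_nonneg B
      nlinarith
    have h5 : L ^ 4 ≤ 192 * L ^ 2 := by
      rw [hLk]; nlinarith
    have h6 : L ^ 4 = L ^ 2 * L ^ 2 := by ring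
    have h7 : 256 ≤ L ^ 2 := by nlinarith
    nlinarith [pow_pos hL0 2]
  obtain ⟨u1, n1, hn1, hn1L, hap1⟩ := pex_approx hL hLk hc hB4
  have hn10 : (0 : ℝ) < n1 := by exact_mod_cast hn1
  have hB0 : (0 : ℝ) < B := by linarith
  have hK0 : (0 : ℝ) < 2 ^ k := by positivity
  have hKL : (2 : ℝ) ^ k = L ^ 4 := hLk.symm
  by_cases hA4 : 4 * L ≤ (A : ℝ)
  · -- both variables
    have hA00 : (0 : ℝ) < A := by linarith
    obtain ⟨u2, n2, hn2, hn2L, hap2⟩ := pex_approx (γ := γ) (k := k) (h := h') (h' := h) (A := B)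
      (B := A) hL hLk (by rw [pex_card]; have : L⁻¹ * (B : ℝ) * A = L⁻¹ * A * B := by ring
                          rw [this]; exact hc) hA4
    have hn20 : (0 : ℝ) < n2 := by exact_mod_cast hn2
    refine pex_norm (N := (n1 : ℤ) * n2) (U := n2 * u1) (U' := n1 * u2)
      (by positivity) ?_
    intro x hx
    have hx' := nmn_mem.mp hx
    have ex := pex_e hx
    set Ex := (x.2 : ℝ) * (γ * h) - (x.1 : ℝ) * (γ * h') - (mm γ h h' x : ℝ) with hEx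
    set θ := γ * h - (u1 : ℝ) / n1 with hθ
    set θ' := γ * h' - (u2 : ℝ) / n2 with hθ'
    rw [← sub_eq_zero]
    refine pex_int (c := 36 / L ^ 2) ?_ ?_
    · have e : ((((n1 : ℤ) * n2 * mm γ h h' x - (n2 * u1 * x.2 - n1 * u2 * x.1) : ℤ)) : ℝ) =
          n1 * n2 * ((x.2 : ℝ) * θ - (x.1 : ℝ) * θ' - Ex) := by
        have m1 : (mm γ h h' x : ℝ) = (x.2 : ℝ) * (γ * h) - (x.1 : ℝ) * (γ * h') - Ex := by rw [hEx]; ring
        push_cast
        rw [m1, hθ, hθ']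
        field_simp
        ring
      rw [e, abs_mul, abs_of_pos (by positivity : (0 : ℝ) < n1 * n2)]
      have hx2 : (x.2 : ℝ) ≤ 2 * B := by exact_mod_cast hx'.2.1.2.le
      have hx1 : (x.1 : ℝ) ≤ 2 * A := by exact_mod_cast hx'.1.2.le
      have s1 : |(x.2 : ℝ) * θ| ≤ 8 * L / (2 ^ k * n1) := by
        rw [abs_mul, Nat.abs_cast]
        calc (x.2 : ℝ) * |θ| ≤ (2 * B) * (4 * L / (2 ^ k * n1 * B)) :=
              mul_le_mul hx2 hap1 (abs_nonneg _) (by positivity)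
          _ = 8 * L / (2 ^ k * n1) := by field_simp; ring
      have s2 : |(x.1 : ℝ) * θ'| ≤ 8 * L / (2 ^ k * n2) := by
        rw [abs_mul, Nat.abs_cast]
        calc (x.1 : ℝ) * |θ'| ≤ (2 * A) * (4 * L / (2 ^ k * n2 * A)) :=
              mul_le_mul hx1 hap2 (abs_nonneg _) (by positivity)
          _ = 8 * L / (2 ^ k * n2) := by field_simp; ring
      have s3 : |(x.2 : ℝ) * θ - (x.1 : ℝ) * θ' - Ex| ≤
          8 * L / (2 ^ k * n1) + 8 * L / (2 ^ k * n2) + 1 / 2 ^ k := by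
        rw [abs_le] at s1 s2 ex ⊢
        constructor <;> linarith [s1.1, s1.2, s2.1, s2.2, ex.1, ex.2]
      calc (n1 : ℝ) * n2 * |(x.2 : ℝ) * θ - (x.1 : ℝ) * θ' - Ex|
          ≤ n1 * n2 * (8 * L / (2 ^ k * n1) + 8 * L / (2 ^ k * n2) + 1 / 2 ^ k) := by gcongr
        _ = (8 * L * n2 + 8 * L * n1 + n1 * n2) / 2 ^ k := by field_simp
        _ ≤ (8 * L * (2 * L) + 8 * L * (2 * L) + (2 * L) * (2 * L)) / 2 ^ k := by gcongr
        _ = 36 / L ^ 2 := by rw [hKL]; field_simp; ring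
    · rw [div_lt_one (by positivity)]
      nlinarith
  · -- `A` small
    push Not at hA4
    obtain ⟨x0, hx0⟩ : (Pset γ k h h' A B).Nonempty := card_pos.mp (by omega)
    have hx0' := nmn_mem.mp hx0
    have e0 := pex_e hx0
    set E0 := (x0.2 : ℝ) * (γ * h) - (x0.1 : ℝ) * (γ * h') - (mm γ h h' x0 : ℝ) with hE0
    refine pex_norm (N := (x0.1 : ℤ) * n1) (U := x0.1 * u1)
      (U' := u1 * x0.2 - n1 * mm γ h h' x0) ?_ ?_
    · have : 0 < x0.1 := by omega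
      positivity
    intro x hx
    have hx' := nmn_mem.mp hx
    have ex := pex_e hx
    set Ex := (x.2 : ℝ) * (γ * h) - (x.1 : ℝ) * (γ * h') - (mm γ h h' x : ℝ) with hEx
    set θ := γ * h - (u1 : ℝ) / n1 with hθ
    rw [← sub_eq_zero]
    refine pex_int (c := 160 / L ^ 2) ?_ ?_
    · have e : ((((x0.1 : ℤ) * n1 * mm γ h h' x - (x0.1 * u1 * x.2 - (u1 * x0.2 - n1 * mm γ h h' x0) * x.1) : ℤ)) : ℝ) =
          n1 * ((x0.1 : ℝ) * ((x.2 : ℝ) * θ - Ex) - (x.1 : ℝ) * ((x0.2 : ℝ) * θ - E0)) := by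
        have m1 : (mm γ h h' x : ℝ) = (x.2 : ℝ) * (γ * h) - (x.1 : ℝ) * (γ * h') - Ex := by rw [hEx]; ring
        have m0 : (mm γ h h' x0 : ℝ) = (x0.2 : ℝ) * (γ * h) - (x0.1 : ℝ) * (γ * h') - E0 := by rw [hE0]; ring
        push_cast
        rw [m1, m0, hθ]
        field_simp
        ring
      rw [e, abs_mul, abs_of_pos hn10]
      have hx2 : (x.2 : ℝ) ≤ 2 * B := by exact_mod_cast hx'.2.1.2.le
      have hx1 : (x.1 : ℝ) ≤ 2 * A := by exact_mod_cast hx'.1.2.le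
      have hx02 : (x0.2 : ℝ) ≤ 2 * B := by exact_mod_cast hx0'.2.1.2.le
      have hx01 : (x0.1 : ℝ) ≤ 2 * A := by exact_mod_cast hx0'.1.2.le
      have s1 : ∀ b : ℕ, (b : ℝ) ≤ 2 * B → |(b : ℝ) * θ| ≤ 8 * L / (2 ^ k * n1) := by
        intro b hb
        rw [abs_mul, Nat.abs_cast]
        calc (b : ℝ) * |θ| ≤ (2 * B) * (4 * L / (2 ^ k * n1 * B)) :=
              mul_le_mul hb hap1 (abs_nonneg _) (by positivity)
          _ = 8 * L / (2 ^ k * n1) := by field_simp; ring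
      have t1 : |(x.2 : ℝ) * θ - Ex| ≤ 8 * L / (2 ^ k * n1) + 1 / 2 ^ k :=
        (abs_sub _ _).trans (add_le_add (s1 _ hx2) ex)
      have t0 : |(x0.2 : ℝ) * θ - E0| ≤ 8 * L / (2 ^ k * n1) + 1 / 2 ^ k :=
        (abs_sub _ _).trans (add_le_add (s1 _ hx02) e0)
      have t2 : |(x0.1 : ℝ) * ((x.2 : ℝ) * θ - Ex) - (x.1 : ℝ) * ((x0.2 : ℝ) * θ - E0)| ≤
          (4 * A) * (8 * L / (2 ^ k * n1) + 1 / 2 ^ k) := by
        refine (abs_sub _ _).trans ?_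
        rw [abs_mul, abs_mul, Nat.abs_cast, Nat.abs_cast]
        have r1 : (x0.1 : ℝ) * |(x.2 : ℝ) * θ - Ex| ≤ 2 * A * (8 * L / (2 ^ k * n1) + 1 / 2 ^ k) :=
          mul_le_mul hx01 t1 (abs_nonneg _) (by positivity)
        have r2 : (x.1 : ℝ) * |(x0.2 : ℝ) * θ - E0| ≤ 2 * A * (8 * L / (2 ^ k * n1) + 1 / 2 ^ k) :=
          mul_le_mul hx1 t0 (abs_nonneg _) (by positivity)
        linarith
      calc (n1 : ℝ) * |(x0.1 : ℝ) * ((x.2 : ℝ) * θ - Ex) - (x.1 : ℝ) * ((x0.2 : ℝ) * θ - E0)|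
          ≤ n1 * ((4 * A) * (8 * L / (2 ^ k * n1) + 1 / 2 ^ k)) := by gcongr
        _ = (4 * A) * (8 * L + n1) / 2 ^ k := by field_simp
        _ ≤ (4 * (4 * L)) * (8 * L + 2 * L) / 2 ^ k := by gcongr
        _ = 160 / L ^ 2 := by rw [hKL]; field_simp; ring
    · rw [div_lt_one (by positivity)]
      nlinarith

/-- **Existence of the plane** (section 7.1). -/
theorem p_exists : ∃ kk : ℕ, ∀ k : ℕ, kk ≤ k → ∀ (γ : ℝ) (h h' A B : ℕ), 2 ≤ (Pset γ k h h' A B).card →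
    (2 : ℝ) ^ (-((k : ℝ) / 4)) * A * B < ((Pset γ k h h' A B).card : ℝ) →
    ∃ (u u' : ℤ) (n : ℕ), Plane (Pset γ k h h' A B) (mm γ h h') u u' n := by
  refine ⟨16, ?_⟩
  intro k hk γ h h' A B h2 hc
  set L : ℝ := (2 : ℝ) ^ ((k : ℝ) / 4) with hLdef
  have hk' : (16 : ℝ) ≤ k := by exact_mod_cast hk
  have hL : 16 ≤ L := by
    have h1 : (2 : ℝ) ^ (4 : ℝ) ≤ L := Real.rpow_le_rpow_of_exponent_le (by norm_num) (by linarith)
    have h3 : (2 : ℝ) ^ (4 : ℝ) = 16 := by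
      rw [show (4 : ℝ) = ((4 : ℕ) : ℝ) by norm_num, Real.rpow_natCast]; norm_num
    linarith
  have hLk : L ^ 4 = 2 ^ k := by
    rw [hLdef, ← Real.rpow_natCast, ← Real.rpow_mul (by norm_num), ← Real.rpow_natCast]
    congr 1
    push_cast
    ring
  have hc' : L⁻¹ * A * B < ((Pset γ k h h' A B).card : ℝ) := by
    rw [hLdef, ← Real.rpow_neg (by norm_num)]
    exact hc
  by_cases hAB : 12 * (A : ℝ) * B < 2 ^ k
  · exact pex_small h2 hAB
  · push Not at hAB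
    rcases le_total A B with hle | hle
    · exact pex_large hL hLk h2 hc' hAB hle
    · obtain ⟨u, u', n, hP⟩ := pex_large (γ := γ) (k := k) (h := h') (h' := h) (A := B) (B := A) hL hLk
        (by rw [pex_card]; exact h2)
        (by rw [pex_card]; have : L⁻¹ * (B : ℝ) * A = L⁻¹ * A * B := by ring
            rw [this]; exact hc') (by linarith) hle
      exact ⟨u', u, n, nmn_swap_plane (by omega) hP⟩

end Pool.Agent.H20G
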