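import Mathlib
import Pool.Agent.Lib.H20G.KDefs
import Pool.Agent.Lib.H20G.PEx
import Pool.Agent.Lib.H20G.PBd

set_option autoImplicit false

/-!
# H20G chunk PMain: planar structure (INTERFACE of section 7, module P)

Existence of the plane by helper26 (PEx.lean), bounds by helper24 (PBd.lean).
-/

namespace Pool.Agent.H20G

open Finset

/-- Section 7, (7.1). A box with at least two and more than `K^{-1/4} A B` related pairs has a plane, and every plane satisfies the bounds `PL`. -/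
theorem p_main : ∃ kk : ℕ, ∀ k : ℕ, kk ≤ k → ∀ (γ : ℝ) (h h' A B : ℕ), 2 ≤ (Pset γ k h h' A B).card →
    (2 : ℝ) ^ (-((k : ℝ) / 4)) * A * B < ((Pset γ k h h' A B).card : ℝ) →
    (∃ (u u' : ℤ) (n : ℕ), Plane (Pset γ k h h' A B) (mm γ h h') u u' n) ∧
    ∀ (u u' : ℤ) (n : ℕ), Plane (Pset γ k h h' A B) (mm γ h h') u u' n → PL γ k h h' A B u u' n := by
  obtain ⟨kk, hkk⟩ := p_exists
  refine ⟨kk, fun k hk γ h h' A B h2 hc => ⟨hkk k hk γ h h' A B h2 hc, fun u u' n hP => ?_⟩⟩
  exact p_bounds k γ h h' A B h2 hc u u' n hP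

end Pool.Agent.H20G
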