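import Mathlib
import Pool.Agent.Lib.H20G.KDefs
import Pool.Agent.Lib.H20G.PMain
import Pool.Agent.Lib.H20G.K1
import Pool.Agent.Lib.H20G.K4

set_option autoImplicit false

/-!
# H20G chunk K5: uniqueness (7.3)
-/

namespace Pool.Agent.H20G

open Finset

/-- reduced form of a fraction -/
theorem k5_red (u : ℤ) (n : ℕ) (h : 1 ≤ n) :
    0 < Int.gcd u n ∧ (n / Int.gcd u n) * Int.gcd u n = n ∧ (u / (Int.gcd u n : ℤ)) * (Int.gcd u n : ℤ) = u ∧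
    0 < n / Int.gcd u n ∧
    (u : ℝ) / n = ((u / (Int.gcd u n : ℤ) : ℤ) : ℝ) / ((n / Int.gcd u n : ℕ) : ℝ) := by
  have hg : 0 < Int.gcd u n := Int.gcd_pos_of_ne_zero_right u (by exact_mod_cast (by omega : n ≠ 0))
  have hd : Int.gcd u n ∣ n := by
    have := Int.gcd_dvd_right u (n : ℤ)
    exact_mod_cast this
  have h1 : (n / Int.gcd u n) * Int.gcd u n = n := Nat.div_mul_cancel hd
  have h2 : (u / (Int.gcd u n : ℤ)) * (Int.gcd u n : ℤ) = u := Int.ediv_mul_cancel (Int.gcd_dvd_left u n)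
  have h3 : 0 < n / Int.gcd u n := Nat.div_pos (Nat.le_of_dvd (by omega) hd) hg
  refine ⟨hg, h1, h2, h3, ?_⟩
  have h1' : ((n / Int.gcd u n : ℕ) : ℝ) * (Int.gcd u n : ℝ) = (n : ℝ) := by exact_mod_cast h1
  have h2' : ((u / (Int.gcd u n : ℤ) : ℤ) : ℝ) * (Int.gcd u n : ℝ) = (u : ℝ) := by exact_mod_cast h2
  have hg' : (Int.gcd u n : ℝ) ≠ 0 := by
    have : (0 : ℝ) < (Int.gcd u n : ℝ) := by exact_mod_cast hg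
    exact this.ne'
  calc (u : ℝ) / n = (((u / (Int.gcd u n : ℤ) : ℤ) : ℝ) * (Int.gcd u n : ℝ)) /
        (((n / Int.gcd u n : ℕ) : ℝ) * (Int.gcd u n : ℝ)) := by rw [h1', h2']
    _ = _ := mul_div_mul_right _ _ hg'

/-- two reduced fractions: `|u₁/n₁ - u₂/n₂| n₁* n₂* < 1` implies `u₁* n₂* = u₂* n₁*` (`u = g u*`, `n = g n*`) -/
theorem k5_frac (u1 u2 : ℤ) (n1 n2 : ℕ) (h1 : 1 ≤ n1) (h2 : 1 ≤ n2)
    (h : |(u1 : ℝ) / n1 - (u2 : ℝ) / n2| * (((n1 / Int.gcd u1 n1 : ℕ) : ℝ) * ((n2 / Int.gcd u2 n2 : ℕ) : ℝ)) < 1) :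
    (u1 / (Int.gcd u1 n1 : ℤ)) * ((n2 / Int.gcd u2 n2 : ℕ) : ℤ) = (u2 / (Int.gcd u2 n2 : ℤ)) * ((n1 / Int.gcd u1 n1 : ℕ) : ℤ) := by
  obtain ⟨-, -, -, hN1, e1⟩ := k5_red u1 n1 h1
  obtain ⟨-, -, -, hN2, e2⟩ := k5_red u2 n2 h2
  rw [e1, e2] at h
  generalize n1 / Int.gcd u1 n1 = N1 at *
  generalize n2 / Int.gcd u2 n2 = N2 at *
  generalize u1 / (Int.gcd u1 n1 : ℤ) = U1 at *
  generalize u2 / (Int.gcd u2 n2 : ℤ) = U2 at *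
  have hN1' : (0 : ℝ) < N1 := by exact_mod_cast hN1
  have hN2' : (0 : ℝ) < N2 := by exact_mod_cast hN2
  have h3 : |(U1 : ℝ) / N1 - (U2 : ℝ) / N2| * ((N1 : ℝ) * N2) = |(U1 : ℝ) * N2 - U2 * N1| := by
    have : (U1 : ℝ) * N2 - U2 * N1 = ((U1 : ℝ) / N1 - (U2 : ℝ) / N2) * ((N1 : ℝ) * N2) := by
      field_simp
    rw [this, abs_mul, abs_of_pos (mul_pos hN1' hN2')]
  rw [h3] at h
  have h4 : |U1 * (N2 : ℤ) - U2 * (N1 : ℤ)| < 1 := by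
    have h5 : ((|U1 * (N2 : ℤ) - U2 * (N1 : ℤ)| : ℤ) : ℝ) < ((1 : ℤ) : ℝ) := by
      push_cast
      exact h
    exact_mod_cast h5
  have h6 := Int.abs_lt_one_iff.1 h4
  linarith

/-- the structure `PL` for the plane of a planar edge -/
theorem k5_pl : ∃ kk : ℕ, ∀ k : ℕ, kk ≤ k → ∀ (γ : ℝ) (k0 q r : ℕ), Planar γ k0 k q r →
    PL γ k (hB k0 k q r) (hA k0 k q r) (2 ^ Nat.log 2 (tA k0 k q r)) (2 ^ Nat.log 2 (tB k0 k q r))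
      (pl γ k0 k q r).1 (pl γ k0 k q r).2.1 (pl γ k0 k q r).2.2 := by
  obtain ⟨kk, hkk⟩ := p_main
  refine ⟨kk, fun k hk γ k0 q r hP => ?_⟩
  have h2 := hP.1
  unfold Generic at h2
  rw [not_le] at h2
  obtain ⟨⟨u, u', n, hun⟩, hall⟩ := hkk k hk γ (hB k0 k q r) (hA k0 k q r) (2 ^ Nat.log 2 (tA k0 k q r))
    (2 ^ Nat.log 2 (tB k0 k q r)) hP.2 (by push_cast; exact h2)
  refine hall _ _ _ ?_
  have H : ∃ t : ℤ × ℤ × ℕ, Plane (boxP γ k0 k q r) (mm γ (hB k0 k q r) (hA k0 k q r)) t.1 t.2.1 t.2.2 :=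
    ⟨(u, u', n), hun⟩
  have e : pl γ k0 k q r = Classical.choose H := by
    unfold pl
    rw [dif_pos H]
  rw [e]
  exact Classical.choose_spec H

/-- one of the two error terms of (7.3) -/
theorem k5_term (k k' : ℕ) (Ω D n Ns Ns' P : ℝ) (hΩ : 0 < Ω) (hD : 0 < D) (hn : 0 < n) (hNs0 : 0 ≤ Ns) (hNs : Ns ≤ n)
    (hNs0' : 0 ≤ Ns') (hNs' : Ns' ≤ 12 * (2 : ℝ) ^ ((k' : ℝ) / 4))
    (hK : (2 : ℝ) ^ k ≤ Ω) (hK' : (2 : ℝ) ^ k' ≤ Ω)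
    (hB : 1 / ((2 : ℝ) ^ k * D) ≤ 12 * (2 : ℝ) ^ ((k : ℝ) / 5) * (1 / Ω))
    (hP : P ≤ 32 * (2 : ℝ) ^ ((k : ℝ) / 4) / (2 ^ k * D * n)) :
    P * (Ns * Ns') ≤ 4608 * Ω ^ (-(3 / 10) : ℝ) := by
  have a1 : (2 : ℝ) ^ ((k : ℝ) / 4) ≤ Ω ^ (1 / 4 : ℝ) := by
    have : (2 : ℝ) ^ ((k : ℝ) / 4) = ((2 : ℝ) ^ k) ^ (1 / 4 : ℝ) := by
      rw [← Real.rpow_natCast, ← Real.rpow_mul (by norm_num)]; congr 1; ring
    rw [this]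
    exact Real.rpow_le_rpow (by positivity) hK (by norm_num)
  have a2 : (2 : ℝ) ^ ((k' : ℝ) / 4) ≤ Ω ^ (1 / 4 : ℝ) := by
    have : (2 : ℝ) ^ ((k' : ℝ) / 4) = ((2 : ℝ) ^ k') ^ (1 / 4 : ℝ) := by
      rw [← Real.rpow_natCast, ← Real.rpow_mul (by norm_num)]; congr 1; ring
    rw [this]
    exact Real.rpow_le_rpow (by positivity) hK' (by norm_num)
  have a3 : (2 : ℝ) ^ ((k : ℝ) / 5) ≤ Ω ^ (1 / 5 : ℝ) := by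
    have : (2 : ℝ) ^ ((k : ℝ) / 5) = ((2 : ℝ) ^ k) ^ (1 / 5 : ℝ) := by
      rw [← Real.rpow_natCast, ← Real.rpow_mul (by norm_num)]; congr 1; ring
    rw [this]
    exact Real.rpow_le_rpow (by positivity) hK (by norm_num)
  have h1 : P * (Ns * Ns') ≤ (32 * (2 : ℝ) ^ ((k : ℝ) / 4) / (2 ^ k * D * n)) * (n * (12 * (2 : ℝ) ^ ((k' : ℝ) / 4))) := by
    have hN : Ns * Ns' ≤ n * (12 * (2 : ℝ) ^ ((k' : ℝ) / 4)) := mul_le_mul hNs hNs' hNs0' hn.le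
    have h0 : 0 ≤ Ns * Ns' := mul_nonneg hNs0 hNs0'
    have h0' : 0 ≤ 32 * (2 : ℝ) ^ ((k : ℝ) / 4) / (2 ^ k * D * n) := by positivity
    exact (mul_le_mul_of_nonneg_right hP h0).trans (mul_le_mul_of_nonneg_left hN h0')
  have h2 : (32 * (2 : ℝ) ^ ((k : ℝ) / 4) / (2 ^ k * D * n)) * (n * (12 * (2 : ℝ) ^ ((k' : ℝ) / 4))) =
      384 * (2 : ℝ) ^ ((k : ℝ) / 4) * (2 : ℝ) ^ ((k' : ℝ) / 4) * (1 / ((2 : ℝ) ^ k * D)) := by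
    field_simp
    ring
  have h3 : 384 * (2 : ℝ) ^ ((k : ℝ) / 4) * (2 : ℝ) ^ ((k' : ℝ) / 4) * (1 / ((2 : ℝ) ^ k * D)) ≤
      384 * Ω ^ (1 / 4 : ℝ) * Ω ^ (1 / 4 : ℝ) * (12 * Ω ^ (1 / 5 : ℝ) * (1 / Ω)) := by
    have hB' : 1 / ((2 : ℝ) ^ k * D) ≤ 12 * Ω ^ (1 / 5 : ℝ) * (1 / Ω) := by
      refine hB.trans ?_
      gcongr
    gcongr
  have h4 : 384 * Ω ^ (1 / 4 : ℝ) * Ω ^ (1 / 4 : ℝ) * (12 * Ω ^ (1 / 5 : ℝ) * (1 / Ω)) = 4608 * Ω ^ (-(3 / 10) : ℝ) := by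
    have : Ω ^ (-(3 / 10) : ℝ) = Ω ^ (1 / 4 : ℝ) * Ω ^ (1 / 4 : ℝ) * Ω ^ (1 / 5 : ℝ) * (1 / Ω) := by
      rw [one_div Ω, ← Real.rpow_neg_one Ω, ← Real.rpow_add hΩ, ← Real.rpow_add hΩ, ← Real.rpow_add hΩ]
      norm_num
    rw [this]; ring
  linarith

/-- (7.3). For planar edges at `q` with the same `h` the fraction `u/n` is the same.
PROOF. `K_i ≤ Ω`, `1/(K_i B_i) ≤ 12 K_i^{1/5}/Ω` (`k4_sizes`; `Ω = 1/(h m_q)`), `n_i* ≤ n_i ≤ 12 K_i^{1/4}`,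
`|γ h - u_i/n_i| ≤ 32 K_i^{1/4}/(K_i B_i n_i)` (`p_main`). So `n₁* n₂* |u₁/n₁ - u₂/n₂| ≤ ∑_i 32 K_i^{1/4} · 12 K_i^{1/5} Ω^{-1} · 12 K_{3-i}^{1/4}`
`≤ 9216 Ω^{9/20 + 1/4 - 1} < 1` as `Ω ≥ K_i ≥ 2^{k0}`; `k5_frac`. -/
theorem k5_unique : ∃ kk : ℕ, 1 ≤ kk ∧ ∀ k0 : ℕ, kk ≤ k0 → ∀ (c0 γ : ℝ) (f : ℕ → ℝ) (S : Finset ℕ), Blk c0 f S →
    ∀ (X : Finset ℕ) (Ls : ℕ → Finset ℕ) (k1 k2 q r1 r2 : ℕ), SEdge γ k0 f S X Ls k1 q r1 → SEdge γ k0 f S X Ls k2 q r2 →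
    Planar γ k0 k1 q r1 → Planar γ k0 k2 q r2 → hB k0 k1 q r1 = hB k0 k2 q r2 →
    ((pl γ k0 k1 q r1).1 / (Int.gcd (pl γ k0 k1 q r1).1 (pl γ k0 k1 q r1).2.2 : ℤ)) *
        (((pl γ k0 k2 q r2).2.2 / Int.gcd (pl γ k0 k2 q r2).1 (pl γ k0 k2 q r2).2.2 : ℕ) : ℤ) =
      ((pl γ k0 k2 q r2).1 / (Int.gcd (pl γ k0 k2 q r2).1 (pl γ k0 k2 q r2).2.2 : ℤ)) *
        (((pl γ k0 k1 q r1).2.2 / Int.gcd (pl γ k0 k1 q r1).1 (pl γ k0 k1 q r1).2.2 : ℕ) : ℤ) := by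
  obtain ⟨kk, hkk⟩ := k5_pl
  refine ⟨max kk 60, le_max_of_le_right (by norm_num), ?_⟩
  intro k0 hk0 c0 γ f S hB0 X Ls k1 k2 q r1 r2 hE1 hE2 hP1 hP2 hh
  have hkk0 : kk ≤ k0 := (le_max_left _ _).trans hk0
  have h60 : 60 ≤ k0 := (le_max_right _ _).trans hk0
  obtain ⟨hs1, hs1'⟩ := k4_sizes c0 γ k0 f S X Ls hB0 k1 q r1 hE1
  obtain ⟨hs2, hs2'⟩ := k4_sizes c0 γ k0 f S X Ls hB0 k2 q r2 hE2
  have hk1 : k0 ≤ k1 := hE1.1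
  have hk2 : k0 ≤ k2 := hE2.1
  have hL1 := hkk k1 (hkk0.trans hk1) γ k0 q r1 hP1
  have hL2 := hkk k2 (hkk0.trans hk2) γ k0 q r2 hP2
  rw [← hh] at hL2 hs2 hs2'
  obtain ⟨pln1, nle1, -, -, ap1, -, -⟩ := hL1
  obtain ⟨pln2, nle2, -, -, ap2, -, -⟩ := hL2
  have hn1 := pln1.1
  have hn2 := pln2.1
  generalize (pl γ k0 k1 q r1).1 = u1 at *
  generalize (pl γ k0 k2 q r2).1 = u2 at *
  generalize (pl γ k0 k1 q r1).2.2 = n1 at *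
  generalize (pl γ k0 k2 q r2).2.2 = n2 at *
  generalize hhd : hB k0 k1 q r1 = h at *
  refine k5_frac u1 u2 n1 n2 hn1 hn2 ?_
  obtain ⟨-, e1, -, hN1, -⟩ := k5_red u1 n1 hn1
  obtain ⟨-, e2, -, hN2, -⟩ := k5_red u2 n2 hn2
  have hN1n : n1 / Int.gcd u1 n1 ≤ n1 := Nat.div_le_self _ _
  have hN2n : n2 / Int.gcd u2 n2 ≤ n2 := Nat.div_le_self _ _
  generalize n1 / Int.gcd u1 n1 = N1 at *
  generalize n2 / Int.gcd u2 n2 = N2 at *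
  have hN1n' : (N1 : ℝ) ≤ n1 := by exact_mod_cast hN1n
  have hN2n' : (N2 : ℝ) ≤ n2 := by exact_mod_cast hN2n
  have hn1' : (0 : ℝ) < n1 := by exact_mod_cast hn1
  have hn2' : (0 : ℝ) < n2 := by exact_mod_cast hn2
  have hΩ : 0 < 1 / ((h : ℝ) * f q) := lt_of_lt_of_le (by positivity) hs1
  have hΩ2 : ((h : ℝ) * f q) = 1 / (1 / ((h : ℝ) * f q)) := by rw [one_div_one_div]
  rw [hΩ2] at hs1' hs2'
  have hΩk : (2 : ℝ) ^ k0 ≤ 1 / ((h : ℝ) * f q) := (pow_le_pow_right₀ (by norm_num) hk1).trans hs1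
  generalize 1 / ((h : ℝ) * f q) = Ω at *
  push_cast at ap1 ap2
  have t1 := k5_term k1 k2 Ω (2 ^ Nat.log 2 (tB k0 k1 q r1)) n1 N1 N2 _ hΩ (by positivity) hn1' (by positivity) hN1n'
    (by positivity) (hN2n'.trans nle2) hs1 hs2 hs1' ap1
  have t2 := k5_term k2 k1 Ω (2 ^ Nat.log 2 (tB k0 k2 q r2)) n2 N2 N1 _ hΩ (by positivity) hn2' (by positivity) hN2n'
    (by positivity) (hN1n'.trans nle1) hs2 hs1 hs2' ap2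
  have h3 : |(u1 : ℝ) / n1 - (u2 : ℝ) / n2| ≤ |γ * h - (u1 : ℝ) / n1| + |γ * h - (u2 : ℝ) / n2| := by
    have : (u1 : ℝ) / n1 - (u2 : ℝ) / n2 = -(γ * h - (u1 : ℝ) / n1) + (γ * h - (u2 : ℝ) / n2) := by ring
    rw [this]
    exact (abs_add_le _ _).trans (by rw [abs_neg])
  have h4 : |(u1 : ℝ) / n1 - (u2 : ℝ) / n2| * ((N1 : ℝ) * N2) ≤ 9216 * Ω ^ (-(3 / 10) : ℝ) := by
    have h5 : 0 ≤ (N1 : ℝ) * N2 := by positivity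
    have h6 := mul_le_mul_of_nonneg_right h3 h5
    rw [add_mul] at h6
    rw [mul_comm (N2 : ℝ) N1] at t2
    linarith
  refine lt_of_le_of_lt h4 ?_
  have h7 : (2 : ℝ) ^ (18 : ℝ) ≤ Ω ^ (3 / 10 : ℝ) := by
    calc (2 : ℝ) ^ (18 : ℝ) = ((2 : ℝ) ^ (60 : ℕ)) ^ (3 / 10 : ℝ) := by
          rw [← Real.rpow_natCast, ← Real.rpow_mul (by norm_num)]; norm_num
      _ ≤ Ω ^ (3 / 10 : ℝ) := Real.rpow_le_rpow (by positivity)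
          ((pow_le_pow_right₀ (by norm_num) h60).trans hΩk) (by norm_num)
  have h8 : (2 : ℝ) ^ (18 : ℝ) = 262144 := by
    rw [show (18 : ℝ) = ((18 : ℕ) : ℝ) by norm_num, Real.rpow_natCast]; norm_num
  rw [h8] at h7
  rw [Real.rpow_neg hΩ.le, ← div_eq_mul_inv, div_lt_one (by linarith)]
  linarith

end Pool.Agent.H20G
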