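import Mathlib
import Pool.Agent.Lib.H20G.KDefs
import Pool.Agent.Lib.H20G.PMain
import Pool.Agent.Lib.H20G.D5
import Pool.Agent.Lib.H20G.K1
import Pool.Agent.Lib.H20G.K4

set_option autoImplicit false

/-!
# H20G chunk K6: killing classes of type II (8.2)
-/

namespace Pool.Agent.H20G

open Finset

/-- two fractions with denominators `N₁ h₁`, `N₂ h₂`, `h₂ ∣ h₁`, at distance `< 1/(N₁ N₂ h₁)` are equal -/
theorem k6_frac (v1 v2 : ℤ) (N1 N2 h1 h2 : ℕ) (hN1 : 0 < N1) (hN2 : 0 < N2) (h10 : 0 < h1) (hd : h2 ∣ h1)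
    (h : |(v1 : ℝ) / (N1 * h1) - (v2 : ℝ) / (N2 * h2)| * ((N1 : ℝ) * N2 * h1) < 1) :
    v1 * ((N2 : ℤ) * h2) = v2 * ((N1 : ℤ) * h1) := by
  obtain ⟨c, rfl⟩ := hd
  have hh2 : 0 < h2 := Nat.pos_of_mul_pos_right h10
  have hc : 0 < c := Nat.pos_of_mul_pos_left h10
  have hN1' : (0 : ℝ) < N1 := by exact_mod_cast hN1
  have hN2' : (0 : ℝ) < N2 := by exact_mod_cast hN2
  have hh2' : (0 : ℝ) < h2 := by exact_mod_cast hh2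
  have hc' : (0 : ℝ) < c := by exact_mod_cast hc
  push_cast at h
  have h3 : |(v1 : ℝ) / (N1 * (h2 * c)) - (v2 : ℝ) / (N2 * h2)| * ((N1 : ℝ) * N2 * (h2 * c)) =
      |(v1 : ℝ) * N2 - v2 * N1 * c| := by
    have : (v1 : ℝ) * N2 - v2 * N1 * c =
        ((v1 : ℝ) / (N1 * (h2 * c)) - (v2 : ℝ) / (N2 * h2)) * ((N1 : ℝ) * N2 * (h2 * c)) := by
      field_simp
    rw [this, abs_mul, abs_of_pos (a := (N1 : ℝ) * N2 * (h2 * c)) (by positivity)]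
  rw [h3] at h
  have h4 : |v1 * (N2 : ℤ) - v2 * (N1 : ℤ) * c| < 1 := by
    have h5 : ((|v1 * (N2 : ℤ) - v2 * (N1 : ℤ) * c| : ℤ) : ℝ) < ((1 : ℤ) : ℝ) := by
      push_cast
      exact h
    exact_mod_cast h5
  have h6 := Int.abs_lt_one_iff.1 h4
  have h7 : v1 * (N2 : ℤ) = v2 * (N1 : ℤ) * c := by linarith
  push_cast
  calc v1 * ((N2 : ℤ) * h2) = (v1 * (N2 : ℤ)) * h2 := by ring
    _ = (v2 * (N1 : ℤ) * c) * h2 := by rw [h7]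
    _ = _ := by ring

/-- reduced form of a fraction -/
theorem k6_red (u : ℤ) (n : ℕ) (h : 1 ≤ n) :
    0 < Int.gcd u n ∧ (n / Int.gcd u n) * Int.gcd u n = n ∧ (u / (Int.gcd u n : ℤ)) * (Int.gcd u n : ℤ) = u ∧
    0 < n / Int.gcd u n ∧
    (u : ℝ) / n = ((u / (Int.gcd u n : ℤ) : ℤ) : ℝ) / ((n / Int.gcd u n : ℕ) : ℝ) := by
  have hg : 0 < Int.gcd u n := Int.gcd_pos_of_ne_zero_right u (by exact_mod_cast (by omega : n ≠ 0))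
  have hd : Int.gcd u n ∣ n := by
    have := Int.gcd_dvd_right u (n : ℤ)
    exact_mod_cast this
  have h1 : (n / Int.gcd u n) * Int.gcd u n = n := Nat.div_mul_cancel hd
  have h2 : (u / (Int.gcd u n : ℤ)) * (Int.gcd u n : ℤ) = u := Int.ediv_mul_cancel (Int.gcd_dvd_left u n)
  have h3 : 0 < n / Int.gcd u n := Nat.div_pos (Nat.le_of_dvd (by omega) hd) hg
  refine ⟨hg, h1, h2, h3, ?_⟩
  have h1' : ((n / Int.gcd u n : ℕ) : ℝ) * (Int.gcd u n : ℝ) = (n : ℝ) := by exact_mod_cast h1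
  have h2' : ((u / (Int.gcd u n : ℤ) : ℤ) : ℝ) * (Int.gcd u n : ℝ) = (u : ℝ) := by exact_mod_cast h2
  have hg' : (Int.gcd u n : ℝ) ≠ 0 := by
    have : (0 : ℝ) < (Int.gcd u n : ℝ) := by exact_mod_cast hg
    exact this.ne'
  calc (u : ℝ) / n = (((u / (Int.gcd u n : ℤ) : ℤ) : ℝ) * (Int.gcd u n : ℝ)) /
        (((n / Int.gcd u n : ℕ) : ℝ) * (Int.gcd u n : ℝ)) := by rw [h1', h2']
    _ = _ := mul_div_mul_right _ _ hg'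

/-- the structure `PL` for the plane of a planar edge -/
theorem k6_pl : ∃ kk : ℕ, ∀ k : ℕ, kk ≤ k → ∀ (γ : ℝ) (k0 q r : ℕ), Planar γ k0 k q r →
    PL γ k (hB k0 k q r) (hA k0 k q r) (2 ^ Nat.log 2 (tA k0 k q r)) (2 ^ Nat.log 2 (tB k0 k q r))
      (pl γ k0 k q r).1 (pl γ k0 k q r).2.1 (pl γ k0 k q r).2.2 := by
  obtain ⟨kk, hkk⟩ := p_main
  refine ⟨kk, fun k hk γ k0 q r hP => ?_⟩
  have h2 := hP.1
  unfold Generic at h2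
  rw [not_le] at h2
  obtain ⟨⟨u, u', n, hun⟩, hall⟩ := hkk k hk γ (hB k0 k q r) (hA k0 k q r) (2 ^ Nat.log 2 (tA k0 k q r))
    (2 ^ Nat.log 2 (tB k0 k q r)) hP.2 (by push_cast; exact h2)
  refine hall _ _ _ ?_
  have H : ∃ t : ℤ × ℤ × ℕ, Plane (boxP γ k0 k q r) (mm γ (hB k0 k q r) (hA k0 k q r)) t.1 t.2.1 t.2.2 :=
    ⟨(u, u', n), hun⟩
  have e : pl γ k0 k q r = Classical.choose H := by
    unfold pl
    rw [dif_pos H]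
  rw [e]
  exact Classical.choose_spec H

/-- one planar edge with `α₁ = μ`: `N ≤ 6 μ b_s` and `|γ h - u/n| ≤ 4 μ/(K N)` -/
theorem k6_one : ∃ kk : ℕ, ∀ k : ℕ, kk ≤ k → ∀ (γ : ℝ) (k0 : ℕ) (f : ℕ → ℝ) (S : Finset ℕ) (q r μ : ℕ),
    0 < q → 0 < r → Edge γ f S k q r → Planar γ k0 k q r → al γ k0 k q r = μ →
    1 ≤ (pl γ k0 k q r).2.2 ∧
    (pl γ k0 k q r).2.2 / Int.gcd (pl γ k0 k q r).1 (pl γ k0 k q r).2.2 ≤ 6 * (μ * tB k0 k q r) ∧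
    |γ * hB k0 k q r - ((pl γ k0 k q r).1 : ℝ) / (pl γ k0 k q r).2.2| ≤
      4 * μ / (2 ^ k * ((((pl γ k0 k q r).2.2 / Int.gcd (pl γ k0 k q r).1 (pl γ k0 k q r).2.2 : ℕ)) : ℝ)) := by
  obtain ⟨kk, hkk⟩ := k6_pl
  refine ⟨kk, fun k hk γ k0 f S q r μ hq hr hE hP hal => ?_⟩
  obtain ⟨pln, -, nle', ap, -, -, -⟩ := hkk k hk γ k0 q r hP
  have hmem := k2_mem γ k0 f S k q r hq hr hE
  obtain ⟨-, -, htA, -, htB, -, -, -, -, -⟩ := k2_parts k0 k q r hq hr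
  have hm := pln.2.2 _ hmem
  have hgd := k1_gcd (tA k0 k q r) (tB k0 k q r) (pl γ k0 k q r).2.2 (pl γ k0 k q r).1 (pl γ k0 k q r).2.1 _ pln.2.1 hm
  have hn := pln.1
  rw [al] at hal
  generalize (pl γ k0 k q r).1 = u at *
  generalize (pl γ k0 k q r).2.2 = n at *
  obtain ⟨hg, e1, -, hN, -⟩ := k6_red u n hn
  have hA : 2 ^ Nat.log 2 (tA k0 k q r) ≤ tA k0 k q r := Nat.pow_log_le_self 2 htA.ne'
  have hB : 2 ^ Nat.log 2 (tB k0 k q r) ≤ tB k0 k q r := Nat.pow_log_le_self 2 htB.ne'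
  have hgA : μ * Int.gcd u n = tA k0 k q r := by
    rw [← hal]; exact Nat.div_mul_cancel hgd
  generalize Int.gcd u n = g at *
  generalize n / g = N at *
  refine ⟨hn, ?_, ?_⟩
  · have h1 : N * g ≤ (6 * (μ * tB k0 k q r)) * g := by
      rw [e1]
      calc n ≤ 6 * (2 ^ Nat.log 2 (tA k0 k q r) * 2 ^ Nat.log 2 (tB k0 k q r)) := nle'
        _ ≤ 6 * (tA k0 k q r * tB k0 k q r) := Nat.mul_le_mul_left _ (Nat.mul_le_mul hA hB)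
        _ = (6 * (μ * tB k0 k q r)) * g := by rw [← hgA]; ring
    exact Nat.le_of_mul_le_mul_right h1 hg
  · refine ap.trans ?_
    have hg' : (0 : ℝ) < g := by exact_mod_cast hg
    have hN' : (0 : ℝ) < N := by exact_mod_cast hN
    have e1' : (n : ℝ) = N * g := by exact_mod_cast e1.symm
    have hA' : ((2 ^ Nat.log 2 (tA k0 k q r) : ℕ) : ℝ) ≤ μ * g := by
      have : (tA k0 k q r : ℝ) = μ * g := by exact_mod_cast hgA.symm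
      rw [← this]; exact_mod_cast hA
    rw [e1', div_le_div_iff₀ (by positivity) (by positivity)]
    calc 4 * ((2 ^ Nat.log 2 (tA k0 k q r) : ℕ) : ℝ) * (2 ^ k * N) ≤ 4 * (μ * g) * (2 ^ k * N) := by gcongr
      _ = 4 * μ * (2 ^ k * (N * g)) := by ring

/-- (8.2). Two planar edges at `q` of levels `k1 ≤ k2`, with `α₁ = μ ≥ 2` for both, `μ^80 < K₁`, `b_i ≤ μ^16`, `λ_i ≤ μ^16`: the fractions
`F_i = (u_i/g_i)/((n_i/g_i) h_i)` are equal.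
PROOF. `h₂ ∣ h₁`: `h₂ = rou T₂ (l₂/q) = rou T₂ (l₁/q)` (`Canon`, `bb q r = lcm/q`), `= rou T₂ (rou T₁ (l₁/q)) ∣ h₁` (`d5_rou_rou`, `d5_rou_dvd`).
`N_i := n_i/g_i`: `n_i ≤ 6 A B ≤ 6 a_s b_s`, `a_s = g_i μ`, so `N_i ≤ 6 μ^17`. `|γ h_i - u_i/n_i| ≤ 4 A/(K_i n_i) ≤ 4 μ/(K_i N_i)`, so
`|γ - F_i| ≤ 4 μ/(K_i N_i h_i)` and `N₁ N₂ h₁ |F₁ - F₂| ≤ 4 μ N₂/K₁ + 4 μ N₁ h₁/(h₂ K₂)`, with `h₁ K₁ ≤ 2 μ^16 (1 + μ^16) h₂ K₂` (`k4_compare`)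
`≤ 24 μ^18/K₁ + 4 μ · 6 μ^17 · 4 μ^32/K₁ ≤ 120 μ^50/K₁ < 1` as `K₁ > μ^80`, `μ ≥ 2`. Then `k6_frac`. -/
theorem k6_typeII : ∃ kk : ℕ, 1 ≤ kk ∧ ∀ k0 : ℕ, kk ≤ k0 → ∀ (c0 γ : ℝ) (f : ℕ → ℝ) (S : Finset ℕ), Blk c0 f S →
    ∀ (X : Finset ℕ) (Ls : ℕ → Finset ℕ), Canon k0 f S X Ls → ∀ (k1 k2 q r1 r2 μ : ℕ), k1 ≤ k2 →
    SEdge γ k0 f S X Ls k1 q r1 → SEdge γ k0 f S X Ls k2 q r2 → Planar γ k0 k1 q r1 → Planar γ k0 k2 q r2 →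
    al γ k0 k1 q r1 = μ → al γ k0 k2 q r2 = μ → 2 ≤ μ → μ ^ 80 < 2 ^ k1 → tB k0 k1 q r1 ≤ μ ^ 16 → tB k0 k2 q r2 ≤ μ ^ 16 →
    2 ^ (max (rc f q) (rc f r1) - min (rc f q) (rc f r1) + 1) ≤ μ ^ 16 →
    2 ^ (max (rc f q) (rc f r2) - min (rc f q) (rc f r2) + 1) ≤ μ ^ 16 →
    ((pl γ k0 k1 q r1).1 / (Int.gcd (pl γ k0 k1 q r1).1 (pl γ k0 k1 q r1).2.2 : ℤ)) *
        ((((pl γ k0 k2 q r2).2.2 / Int.gcd (pl γ k0 k2 q r2).1 (pl γ k0 k2 q r2).2.2 : ℕ) : ℤ) * hB k0 k2 q r2) =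
      ((pl γ k0 k2 q r2).1 / (Int.gcd (pl γ k0 k2 q r2).1 (pl γ k0 k2 q r2).2.2 : ℤ)) *
        ((((pl γ k0 k1 q r1).2.2 / Int.gcd (pl γ k0 k1 q r1).1 (pl γ k0 k1 q r1).2.2 : ℕ) : ℤ) * hB k0 k1 q r1) := by
  obtain ⟨kk, hkk⟩ := k6_one
  refine ⟨max kk 1, le_max_right _ _, ?_⟩
  intro k0 hk0 c0 γ f S hB0 X Ls hC k1 k2 q r1 r2 μ hk12 hE1 hE2 hP1 hP2 ha1 ha2 hμ hμK hb1 hb2 hl1 hl2
  have hkk0 : kk ≤ k0 := (le_max_left _ _).trans hk0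
  have hk01 : 1 ≤ k0 := (le_max_right _ _).trans hk0
  have hcmp := k4_compare c0 γ k0 f S X Ls hB0 k1 k2 q r1 r2 hE1 hE2
  obtain ⟨hk1, hEd1, hqX, -, hls1, -⟩ := hE1
  obtain ⟨hk2, hEd2, -, -, hls2, -⟩ := hE2
  have hqS := hEd1.1
  have hq := hB0.pos q hqS
  have hr1 := hB0.pos r1 hEd1.2.1
  have hr2 := hB0.pos r2 hEd2.2.1
  have hrho : ∀ s : ℕ, s ∈ S → 0 ≤ rho f s := fun s hs => by
    unfold rho
    exact div_nonneg (hB0.fpos s hs).le (Nat.cast_nonneg _)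
  have hbnd : ∀ (k r : ℕ), Edge γ f S k q r → rho f q * ((Nat.lcm q r : ℕ) : ℝ) ≤ 1 := by
    intro k r hE
    have h1 := hE.2.2.2.1
    unfold DD at h1
    have h2 : (1 : ℝ) / 2 ^ k ≤ 1 := by
      rw [div_le_one (by positivity)]
      exact one_le_pow₀ (by norm_num)
    have h3 := mul_nonneg (Nat.cast_nonneg (α := ℝ) (Nat.lcm q r)) (hrho r hE.2.1)
    nlinarith
  obtain ⟨-, hcan⟩ := hC q hqS hqX k1 (Nat.lcm q r1) hk1 hls1 (Nat.dvd_lcm_left q r1) (hbnd k1 r1 hEd1)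
  have hwin : win k0 k1 ≤ win k0 k2 := Nat.log_mono_right (Nat.div_le_div_right hk12)
  have hrr := hcan k2 (Nat.lcm q r2) hk2 hwin hls2 (Nat.dvd_lcm_left q r2) (hbnd k2 r2 hEd2)
  obtain ⟨-, -, -, hlc1, -, -, hbb1⟩ := k2_basic q r1 hq hr1
  obtain ⟨-, -, -, hlc2, -, -, hbb2⟩ := k2_basic q r2 hq hr2
  rw [hlc1, hlc2, Nat.mul_div_cancel_left _ hq, Nat.mul_div_cancel_left _ hq] at hrr
  have hTT : Tk k0 k1 ≤ Tk k0 k2 := by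
    unfold Tk
    refine Nat.pow_le_pow_right (by norm_num) (Nat.mul_le_mul_left _ (Nat.pow_le_pow_right (by norm_num) hwin))
  have hdvd : hB k0 k2 q r2 ∣ hB k0 k1 q r1 := by
    unfold hB
    rw [← hrr, ← d5_rou_rou _ _ (bb q r1) hTT]
    have h1 := d5_split (Tk k0 k2) (rou (Tk k0 k1) (bb q r1)) (d5_pos _ _).2
    exact ⟨_, by rw [mul_comm]; exact h1.symm⟩
  obtain ⟨hn1, hN1, hap1⟩ := hkk k1 (hkk0.trans hk1) γ k0 f S q r1 μ hq hr1 hEd1 hP1 ha1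
  obtain ⟨hn2, hN2, hap2⟩ := hkk k2 (hkk0.trans hk2) γ k0 f S q r2 μ hq hr2 hEd2 hP2 ha2
  have hh1 : 0 < hB k0 k1 q r1 := (d5_pos _ _).2
  have hh2 : 0 < hB k0 k2 q r2 := (d5_pos _ _).2
  have hN1' := hN1.trans (Nat.mul_le_mul_left 6 (Nat.mul_le_mul_left μ hb1))
  have hN2' := hN2.trans (Nat.mul_le_mul_left 6 (Nat.mul_le_mul_left μ hb2))
  have hb2' : (tB k0 k2 q r2 : ℝ) ≤ (μ : ℝ) ^ 16 := by exact_mod_cast hb2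
  have hl2' : (2 : ℝ) ^ (max (rc f q) (rc f r2) - min (rc f q) (rc f r2) + 1) ≤ (μ : ℝ) ^ 16 := by exact_mod_cast hl2
  have hμK' : (μ : ℝ) ^ 80 < 2 ^ k1 := by exact_mod_cast hμK
  have hμ' : (2 : ℝ) ≤ μ := by exact_mod_cast hμ
  generalize (pl γ k0 k1 q r1).1 = u1 at *
  generalize (pl γ k0 k2 q r2).1 = u2 at *
  generalize (pl γ k0 k1 q r1).2.2 = n1 at *
  generalize (pl γ k0 k2 q r2).2.2 = n2 at *
  obtain ⟨-, -, -, hNp1, er1⟩ := k6_red u1 n1 hn1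
  obtain ⟨-, -, -, hNp2, er2⟩ := k6_red u2 n2 hn2
  rw [er1] at hap1
  rw [er2] at hap2
  generalize n1 / Int.gcd u1 n1 = N1 at *
  generalize n2 / Int.gcd u2 n2 = N2 at *
  generalize u1 / (Int.gcd u1 n1 : ℤ) = U1 at *
  generalize u2 / (Int.gcd u2 n2 : ℤ) = U2 at *
  generalize hB k0 k1 q r1 = h1 at *
  generalize hB k0 k2 q r2 = h2 at *
  refine k6_frac U1 U2 N1 N2 h1 h2 hNp1 hNp2 hh1 hdvd ?_
  have p1 : (0 : ℝ) < h1 := by exact_mod_cast hh1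
  have p2 : (0 : ℝ) < h2 := by exact_mod_cast hh2
  have q1 : (0 : ℝ) < N1 := by exact_mod_cast hNp1
  have q2 : (0 : ℝ) < N2 := by exact_mod_cast hNp2
  have N1b : (N1 : ℝ) ≤ 6 * (μ : ℝ) ^ 17 := by
    have : N1 ≤ 6 * μ ^ 17 := by
      calc N1 ≤ 6 * (μ * μ ^ 16) := hN1'
        _ = 6 * μ ^ 17 := by ring
    exact_mod_cast this
  have N2b : (N2 : ℝ) ≤ 6 * (μ : ℝ) ^ 17 := by
    have : N2 ≤ 6 * μ ^ 17 := by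
      calc N2 ≤ 6 * (μ * μ ^ 16) := hN2'
        _ = 6 * μ ^ 17 := by ring
    exact_mod_cast this
  -- `|γ - F_i|`
  have g1 : |γ - (U1 : ℝ) / (N1 * h1)| * h1 ≤ 4 * μ / (2 ^ k1 * N1) := by
    refine le_trans (le_of_eq ?_) hap1
    rw [← abs_of_pos p1, ← abs_mul, abs_of_pos p1]
    congr 1
    field_simp
  have g2 : |γ - (U2 : ℝ) / (N2 * h2)| * h2 ≤ 4 * μ / (2 ^ k2 * N2) := by
    refine le_trans (le_of_eq ?_) hap2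
    rw [← abs_of_pos p2, ← abs_mul, abs_of_pos p2]
    congr 1
    field_simp
  have g3 : |(U1 : ℝ) / (N1 * h1) - (U2 : ℝ) / (N2 * h2)| ≤ |γ - (U1 : ℝ) / (N1 * h1)| + |γ - (U2 : ℝ) / (N2 * h2)| := by
    have : (U1 : ℝ) / (N1 * h1) - (U2 : ℝ) / (N2 * h2) = -(γ - (U1 : ℝ) / (N1 * h1)) + (γ - (U2 : ℝ) / (N2 * h2)) := by ring
    rw [this]
    exact (abs_add_le _ _).trans (by rw [abs_neg])
  have k1p : (0 : ℝ) < 2 ^ k1 := by positivity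
  have k2p : (0 : ℝ) < 2 ^ k2 := by positivity
  -- first term
  have s1 : |γ - (U1 : ℝ) / (N1 * h1)| * ((N1 : ℝ) * N2 * h1) ≤ 4 * μ * N2 / 2 ^ k1 := by
    calc |γ - (U1 : ℝ) / (N1 * h1)| * ((N1 : ℝ) * N2 * h1) =
          (|γ - (U1 : ℝ) / (N1 * h1)| * h1) * (N1 * N2) := by ring
      _ ≤ (4 * μ / (2 ^ k1 * N1)) * (N1 * N2) := mul_le_mul_of_nonneg_right g1 (by positivity)
      _ = 4 * μ * N2 / 2 ^ k1 := by field_simp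
  have s2 : |γ - (U2 : ℝ) / (N2 * h2)| * ((N1 : ℝ) * N2 * h1) ≤ 4 * μ * N1 * h1 / (2 ^ k2 * h2) := by
    calc |γ - (U2 : ℝ) / (N2 * h2)| * ((N1 : ℝ) * N2 * h1) =
          (|γ - (U2 : ℝ) / (N2 * h2)| * h2) * (N1 * N2 * h1 / h2) := by field_simp
      _ ≤ (4 * μ / (2 ^ k2 * N2)) * (N1 * N2 * h1 / h2) := mul_le_mul_of_nonneg_right g2 (by positivity)
      _ = 4 * μ * N1 * h1 / (2 ^ k2 * h2) := by field_simp
  have s3 : (h1 : ℝ) / (2 ^ k2 * h2) ≤ 2 * μ ^ 16 * (1 + μ ^ 16) / 2 ^ k1 := by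
    rw [div_le_div_iff₀ (by positivity) k1p]
    refine hcmp.trans ?_
    calc 2 * (tB k0 k2 q r2 : ℝ) * (1 + 2 ^ (max (rc f q) (rc f r2) - min (rc f q) (rc f r2) + 1)) * (h2 * 2 ^ k2)
        ≤ 2 * (μ : ℝ) ^ 16 * (1 + μ ^ 16) * (h2 * 2 ^ k2) := by gcongr
      _ = _ := by ring
  have s4 : 4 * μ * N1 * h1 / (2 ^ k2 * h2) ≤ 4 * μ * (6 * (μ : ℝ) ^ 17) * (2 * μ ^ 16 * (1 + μ ^ 16) / 2 ^ k1) := by
    rw [mul_div_assoc]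
    gcongr
  have s5 : 4 * μ * N2 / (2 : ℝ) ^ k1 ≤ 4 * μ * (6 * (μ : ℝ) ^ 17) / 2 ^ k1 := by gcongr
  have s6 : |(U1 : ℝ) / (N1 * h1) - (U2 : ℝ) / (N2 * h2)| * ((N1 : ℝ) * N2 * h1) ≤
      (24 * (μ : ℝ) ^ 18 + 48 * μ ^ 34 * (1 + μ ^ 16)) / 2 ^ k1 := by
    have h5 : 0 ≤ (N1 : ℝ) * N2 * h1 := by positivity
    have h6 := mul_le_mul_of_nonneg_right g3 h5
    rw [add_mul] at h6
    have h7 : 4 * μ * (6 * (μ : ℝ) ^ 17) / 2 ^ k1 + 4 * μ * (6 * (μ : ℝ) ^ 17) * (2 * μ ^ 16 * (1 + μ ^ 16) / 2 ^ k1) =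
      (24 * (μ : ℝ) ^ 18 + 48 * μ ^ 34 * (1 + μ ^ 16)) / 2 ^ k1 := by
      field_simp
      ring
    linarith
  refine lt_of_le_of_lt s6 ?_
  rw [div_lt_one k1p]
  refine lt_of_le_of_lt ?_ hμK'
  have m1 : (1 : ℝ) ≤ μ := by linarith
  have m2 : (μ : ℝ) ^ 18 ≤ μ ^ 50 := pow_le_pow_right₀ m1 (by norm_num)
  have m3 : (1 : ℝ) ≤ (μ : ℝ) ^ 16 := one_le_pow₀ m1
  have m4 : 48 * (μ : ℝ) ^ 34 * (1 + μ ^ 16) ≤ 96 * μ ^ 50 := by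
    calc 48 * (μ : ℝ) ^ 34 * (1 + μ ^ 16) ≤ 48 * (μ : ℝ) ^ 34 * (μ ^ 16 + μ ^ 16) := by gcongr
      _ = 96 * (μ : ℝ) ^ 50 := by ring
  have m5 : (128 : ℝ) ≤ μ ^ 30 := by
    calc (128 : ℝ) ≤ 2 ^ 30 := by norm_num
      _ ≤ μ ^ 30 := pow_le_pow_left₀ (by norm_num) hμ' _
  have m6 : 0 ≤ (μ : ℝ) ^ 50 := by positivity
  calc 24 * (μ : ℝ) ^ 18 + 48 * μ ^ 34 * (1 + μ ^ 16) ≤ 128 * (μ : ℝ) ^ 50 := by linarith
    _ ≤ (μ : ℝ) ^ 30 * (μ : ℝ) ^ 50 := mul_le_mul_of_nonneg_right m5 m6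
    _ = (μ : ℝ) ^ 80 := by ring

end Pool.Agent.H20G
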