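import Mathlib
import Pool.Agent.Lib.H20G.Core
import Pool.Agent.Lib.H20G.KDefs
import Pool.Agent.Lib.H20G.PMain
import Pool.Agent.Lib.H20G.K1
import Pool.Agent.Lib.H20G.K2
import Pool.Agent.Lib.H20G.K3
import Pool.Agent.Lib.H20G.K4
import Pool.Agent.Lib.H20G.K5
import Pool.Agent.Lib.H20G.K6

set_option autoImplicit false

/-!
# H20G chunk KMain: killing classes (INTERFACE of sections 7, 8)
-/

namespace Pool.Agent.H20G

open Finset

/-- multiplier data of an edge -/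
noncomputable def kmH (k0 k q r : ℕ) : ℕ := hB k0 k q r
noncomputable def kmU (γ : ℝ) (k0 k q r : ℕ) : ℤ := (pl γ k0 k q r).1
noncomputable def kmU' (γ : ℝ) (k0 k q r : ℕ) : ℤ := (pl γ k0 k q r).2.1
noncomputable def kmN (γ : ℝ) (k0 k q r : ℕ) : ℕ := (pl γ k0 k q r).2.2

/-- `P` lies in the class of the edge -/
def kmC (γ : ℝ) (k0 k q r μ : ℕ) (P : ℤ) : Prop :=
  KCls (hB k0 k q r) (pl γ k0 k q r).1 (pl γ k0 k q r).2.2 μ P ∧
  KInv (hB k0 k q r) (pl γ k0 k q r).1 (pl γ k0 k q r).2.2 μ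

theorem km_plane : ∃ kk : ℕ, ∀ k0 : ℕ, kk ≤ k0 → ∀ (γ : ℝ) (k q r : ℕ), k0 ≤ k → Planar γ k0 k q r →
    Plane (boxP γ k0 k q r) (mm γ (hB k0 k q r) (hA k0 k q r)) (pl γ k0 k q r).1 (pl γ k0 k q r).2.1 (pl γ k0 k q r).2.2 := by
  obtain ⟨kk, hkk⟩ := p_main
  refine ⟨kk, fun k0 hk0 γ k q r hk hP => ?_⟩
  have h1 := hkk k (hk0.trans hk) γ (hB k0 k q r) (hA k0 k q r) (2 ^ Nat.log 2 (tA k0 k q r)) (2 ^ Nat.log 2 (tB k0 k q r)) hP.2
    (by
      have h2 := hP.1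
      unfold Generic at h2
      rw [not_le] at h2
      push_cast
      exact h2)
  obtain ⟨⟨u, u', n, hu⟩, -⟩ := h1
  have hex : ∃ t : ℤ × ℤ × ℕ, Plane (boxP γ k0 k q r) (mm γ (hB k0 k q r) (hA k0 k q r)) t.1 t.2.1 t.2.2 := ⟨(u, u', n), hu⟩
  have h3 : pl γ k0 k q r = Classical.choose hex := by
    unfold pl
    rw [dif_pos hex]
  rw [h3]
  exact Classical.choose_spec hex

theorem km_coin (γ : ℝ) (k0 : ℕ) (c0 : ℝ) (f : ℕ → ℝ) (S X : Finset ℕ) (Ls : ℕ → Finset ℕ) (hS : Blk c0 f S) (k q r : ℕ) (hk1 : 1 ≤ k)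
    (hE : SEdge γ k0 f S X Ls k q r)
    (hpl : Plane (boxP γ k0 k q r) (mm γ (hB k0 k q r) (hA k0 k q r)) (pl γ k0 k q r).1 (pl γ k0 k q r).2.1 (pl γ k0 k q r).2.2) :
    al γ k0 k q r ∣ q ∧ 0 < al γ k0 k q r ∧ al γ k0 k q r ∣ tA k0 k q r ∧
      ∀ P P' : ℤ, Coin γ f q r P P' → kmC γ k0 k q r (al γ k0 k q r) P := by
  have hEd := hE.2.1
  have hq := hS.pos q hEd.1
  have hr := hS.pos r hEd.2.1
  obtain ⟨p1, p2, p3, p4, p5, p6, p7, p8, p9, p10⟩ := k2_parts k0 k q r hq hr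
  have hmem := k2_mem γ k0 f S k q r hq hr hEd
  have hm := hpl.2.2 _ hmem
  have hg := k1_gcd (tA k0 k q r) (tB k0 k q r) (pl γ k0 k q r).2.2 (pl γ k0 k q r).1 (pl γ k0 k q r).2.1 _ hpl.2.1 hm
  have hdiv : al γ k0 k q r ∣ tA k0 k q r := Nat.div_dvd_of_dvd hg
  refine ⟨hdiv.trans p9, Nat.pos_of_dvd_of_pos hdiv p3, hdiv, fun P P' hC => ?_⟩
  have h1 := k2_coin γ k0 f S k q r hq hr hk1 hEd P P' hC
  exact k1_class (tA k0 k q r) (tB k0 k q r) (hB k0 k q r) (hA k0 k q r) (pl γ k0 k q r).2.2 (pl γ k0 k q r).1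
    (pl γ k0 k q r).2.1 _ P P' hpl.1 p3 p7 p8 hpl.2.1 hm h1

open Classical in
/-- classes of type I and II -/
noncomputable def kmI (γ : ℝ) (k0 : ℕ) (f : ℕ → ℝ) (S X : Finset ℕ) (Ls : ℕ → Finset ℕ) (q μ : ℕ) : Finset ℤ :=
  (Ico (0 : ℤ) μ).filter (fun c => ∃ k r : ℕ, ∃ P : ℤ, SEdge γ k0 f S X Ls k q r ∧ Planar γ k0 k q r ∧ al γ k0 k q r = μ ∧
    2 ^ k ≤ μ ^ 80 ∧ kmC γ k0 k q r μ P ∧ P ≡ c [ZMOD μ])

open Classical in
noncomputable def kmII (γ : ℝ) (k0 : ℕ) (f : ℕ → ℝ) (S X : Finset ℕ) (Ls : ℕ → Finset ℕ) (q μ : ℕ) : Finset ℤ :=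
  (Ico (0 : ℤ) μ).filter (fun c => ∃ k r : ℕ, ∃ P : ℤ, SEdge γ k0 f S X Ls k q r ∧ Planar γ k0 k q r ∧ al γ k0 k q r = μ ∧
    (μ ^ 80 < 2 ^ k ∧ tB k0 k q r ≤ μ ^ 16 ∧ 2 ^ (max (rc f q) (rc f r) - min (rc f q) (rc f r) + 1) ≤ μ ^ 16) ∧
    kmC γ k0 k q r μ P ∧ P ≡ c [ZMOD μ])

theorem km_ico {μ : ℕ} {c c' : ℤ} (hc : c ∈ Ico (0 : ℤ) μ) (hc' : c' ∈ Ico (0 : ℤ) μ) (h : c ≡ c' [ZMOD μ]) : c = c' := by
  rw [mem_Ico] at hc hc'
  rw [Int.ModEq, Int.emod_eq_of_lt hc.1 hc.2, Int.emod_eq_of_lt hc'.1 hc'.2] at h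
  exact h

/-- Sections 7, 8: at most `17 τ(μ)` classes modulo `μ` kill all coincidences of planar edges with `KillAt`. -/
theorem k_main (y0 : ℕ) : ∃ kk : ℕ, 1 ≤ kk ∧ ∀ k0 : ℕ, kk ≤ k0 → ∀ (c0 γ : ℝ) (f : ℕ → ℝ) (S : Finset ℕ), Blk c0 f S →
    ∀ (X : Finset ℕ) (Ls : ℕ → Finset ℕ), Canon k0 f S X Ls → ∀ q ∈ S, q ∉ X →
    ∃ cl : ℕ → Finset ℤ, (∀ μ : ℕ, 0 < μ → (cl μ).card ≤ 17 * μ.divisors.card) ∧
      ∀ k r : ℕ, SEdge γ k0 f S X Ls k q r → Planar γ k0 k q r → KillAt γ f y0 k0 k q r →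
        al γ k0 k q r ∣ q ∧ y0 < al γ k0 k q r ∧
        ∀ P P' : ℤ, Coin γ f q r P P' → ∃ c ∈ cl (al γ k0 k q r), P ≡ c [ZMOD (al γ k0 k q r)] := by
  classical
  obtain ⟨kk1, h1⟩ := km_plane
  obtain ⟨kk2, -, h2⟩ := k5_unique
  obtain ⟨kk3, -, h3⟩ := k6_typeII
  refine ⟨kk1 + kk2 + kk3 + 1 + y0 ^ 80, by omega, fun k0 hk0 c0 γ f S hS X Ls hCan q hq hqX => ?_⟩
  replace h1 := h1 k0 (by omega) γ
  replace h2 := h2 k0 (by omega) c0 γ f S hS X Ls
  replace h3 := h3 k0 (by omega) c0 γ f S hS X Ls hCan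
  have hk01 : 1 ≤ k0 := by omega
  have hqpos := hS.pos q hq
  refine ⟨fun μ => kmI γ k0 f S X Ls q μ ∪ kmII γ k0 f S X Ls q μ, ?_, ?_⟩
  · intro μ hμ
    show (kmI γ k0 f S X Ls q μ ∪ kmII γ k0 f S X Ls q μ).card ≤ 17 * μ.divisors.card
    rcases Nat.lt_or_ge μ 2 with hμ2 | hμ2
    · have hμ1 : μ = 1 := by omega
      subst hμ1
      have hsub : kmI γ k0 f S X Ls q 1 ∪ kmII γ k0 f S X Ls q 1 ⊆ Ico (0 : ℤ) ((1 : ℕ) : ℤ) := by
        apply union_subset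
        · exact filter_subset _ _
        · exact filter_subset _ _
      have h4 := card_le_card hsub
      simp at h4
      simp
      omega
    · -- type I
      have hI : (kmI γ k0 f S X Ls q μ).card + 1 ≤ 17 * μ.divisors.card := by
        have hex : ∀ c ∈ kmI γ k0 f S X Ls q μ, ∃ k r : ℕ, ∃ P : ℤ, SEdge γ k0 f S X Ls k q r ∧ Planar γ k0 k q r ∧
            al γ k0 k q r = μ ∧ 2 ^ k ≤ μ ^ 80 ∧ kmC γ k0 k q r μ P ∧ P ≡ c [ZMOD μ] := by
          intro c hc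
          unfold kmI at hc
          exact (mem_filter.mp hc).2
        choose! kf rf Pf hkf using hex
        have hinj : Set.InjOn (fun c => win k0 (kf c)) (kmI γ k0 f S X Ls q μ : Set ℤ) := by
          intro c hc c' hc' hw
          have hc := mem_coe.mp hc
          have hc' := mem_coe.mp hc'
          obtain ⟨e1, e2, e3, e4, e5, e6⟩ := hkf c hc
          obtain ⟨g1, g2, g3, g4, g5, g6⟩ := hkf c' hc'
          have hw' : win k0 (kf c) = win k0 (kf c') := hw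
          -- the rough parts agree
          have hT : Tk k0 (kf c) = Tk k0 (kf c') := by
            unfold Tk
            rw [hw']
          have hr := hS.pos (rf c) e1.2.1.2.1
          have hr' := hS.pos (rf c') g1.2.1.2.1
          obtain ⟨b1, b2, b3, b4, b5, b6, b7⟩ := k2_basic q (rf c) hqpos hr
          obtain ⟨b1', b2', b3', b4', b5', b6', b7'⟩ := k2_basic q (rf c') hqpos hr'
          have hrho : 0 ≤ rho f q := div_nonneg (hS.fpos q hq).le (Nat.cast_nonneg q)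
          have hle : ∀ k r : ℕ, Edge γ f S k q r → rho f q * ((Nat.lcm q r : ℕ) : ℝ) ≤ 1 := by
            intro k r hE
            have hr0 : 0 ≤ rho f r := div_nonneg (hS.fpos r hE.2.1).le (Nat.cast_nonneg r)
            have hD := hE.2.2.2.1
            unfold DD at hD
            have h5 : (1 : ℝ) / 2 ^ k ≤ 1 := by
              rw [div_le_one (by positivity)]
              exact one_le_pow₀ (by norm_num)
            have h6 : 0 ≤ ((Nat.lcm q r : ℕ) : ℝ) * rho f r := mul_nonneg (Nat.cast_nonneg _) hr0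
            nlinarith
          have hh : hB k0 (kf c) q (rf c) = hB k0 (kf c') q (rf c') := by
            have h5 := (hCan q hq hqX (kf c) (Nat.lcm q (rf c)) e1.1 e1.2.2.2.2.1 (Nat.dvd_lcm_left q (rf c)) (hle _ _ e1.2.1)).2
              (kf c') (Nat.lcm q (rf c')) g1.1 hw'.le g1.2.2.2.2.1 (Nat.dvd_lcm_left q (rf c')) (hle _ _ g1.2.1)
            unfold hB
            rw [b4, Nat.mul_div_cancel_left _ hqpos, b4', Nat.mul_div_cancel_left _ hqpos] at h5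
            rw [hT]
            exact h5
          have h6 := h2 (kf c) (kf c') q (rf c) (rf c') e1 g1 e2 g2 hh
          have h7 : KCls (hB k0 (kf c') q (rf c')) (pl γ k0 (kf c') q (rf c')).1 (pl γ k0 (kf c') q (rf c')).2.2 μ (Pf c) := by
            refine k1_same (hB k0 (kf c) q (rf c)) (hB k0 (kf c') q (rf c')) (pl γ k0 (kf c) q (rf c)).2.2
              (pl γ k0 (kf c') q (rf c')).2.2 μ (pl γ k0 (kf c) q (rf c)).1 (pl γ k0 (kf c') q (rf c')).1 (Pf c) ?_ e5.2 e5.1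
            rw [← hh, ← mul_assoc, ← mul_assoc, h6]
          have h8 := k1_unique _ _ _ _ _ _ g5.2 h7 g5.1
          have h9 : c ≡ c' [ZMOD μ] := (e6.symm.trans h8).trans g6
          unfold kmI at hc hc'
          exact km_ico (mem_filter.mp hc).1 (mem_filter.mp hc').1 h9
        rw [← card_image_of_injOn hinj]
        refine k3_windows k0 μ hk01 hμ2 _ (fun j hj => ?_)
        obtain ⟨c, hc, rfl⟩ := mem_image.mp hj
        obtain ⟨e1, e2, e3, e4, e5, e6⟩ := hkf c hc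
        refine ⟨kf c, e1.1, rfl, e4, fun p hp => ?_⟩
        have hr := hS.pos (rf c) e1.2.1.2.1
        obtain ⟨p1, p2, p3, p4, p5, p6, p7, p8, p9, p10⟩ := k2_parts k0 (kf c) q (rf c) hqpos hr
        have h10 := (km_coin γ k0 c0 f S X Ls hS (kf c) q (rf c) (by have := e1.1; omega) e1 (h1 (kf c) q (rf c) e1.1 e2)).2.2.1
        rw [e3] at h10
        exact p10 p (Nat.primeFactors_mono h10 p3.ne' hp)
      have hII : (kmII γ k0 f S X Ls q μ).card ≤ 1 := by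
        rw [card_le_one]
        have key : ∀ c ∈ kmII γ k0 f S X Ls q μ, ∀ c' ∈ kmII γ k0 f S X Ls q μ, c = c' := by
          intro c hc c' hc'
          have hc0 := hc
          have hc0' := hc'
          unfold kmII at hc0 hc0'
          obtain ⟨i1, k, r, P, e1, e2, e3, e4, e5, e6⟩ := mem_filter.mp hc0
          obtain ⟨i2, k', r', P', g1, g2, g3, g4, g5, g6⟩ := mem_filter.mp hc0'
          have main : ∀ (k r : ℕ) (P : ℤ) (k' r' : ℕ) (P' : ℤ), k ≤ k' → SEdge γ k0 f S X Ls k q r → Planar γ k0 k q r →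
              al γ k0 k q r = μ → (μ ^ 80 < 2 ^ k ∧ tB k0 k q r ≤ μ ^ 16 ∧ 2 ^ (max (rc f q) (rc f r) - min (rc f q) (rc f r) + 1) ≤ μ ^ 16) →
              kmC γ k0 k q r μ P → SEdge γ k0 f S X Ls k' q r' → Planar γ k0 k' q r' → al γ k0 k' q r' = μ →
              (μ ^ 80 < 2 ^ k' ∧ tB k0 k' q r' ≤ μ ^ 16 ∧ 2 ^ (max (rc f q) (rc f r') - min (rc f q) (rc f r') + 1) ≤ μ ^ 16) →
              kmC γ k0 k' q r' μ P' → P ≡ P' [ZMOD μ] := by
            intro k r P k' r' P' hkk e1 e2 e3 e4 e5 g1 g2 g3 g4 g5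
            have h11 := h3 k k' q r r' μ hkk e1 g1 e2 g2 e3 g3 hμ2 e4.1 e4.2.1 g4.2.1 e4.2.2 g4.2.2
            have h12 := k1_same _ _ _ _ μ _ _ P h11 e5.2 e5.1
            exact k1_unique _ _ _ _ _ _ g5.2 h12 g5.1
          rcases le_total k k' with hkk | hkk
          · exact km_ico i1 i2 ((e6.symm.trans (main k r P k' r' P' hkk e1 e2 e3 e4 e5 g1 g2 g3 g4 g5)).trans g6)
          · exact km_ico i1 i2 ((e6.symm.trans (main k' r' P' k r P hkk g1 g2 g3 g4 g5 e1 e2 e3 e4 e5).symm).trans g6)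
        exact key
      have := card_union_le (kmI γ k0 f S X Ls q μ) (kmII γ k0 f S X Ls q μ)
      omega
  · intro k r hE hP hK
    obtain ⟨a1, a2, a3, a4⟩ := km_coin γ k0 c0 f S X Ls hS k q r (by have := hE.1; omega) hE (h1 k q r hE.1 hP)
    have hy : y0 < al γ k0 k q r := by
      rcases hK with h | h
      · by_contra hcon
        push Not at hcon
        have h5 : (al γ k0 k q r) ^ 80 ≤ y0 ^ 80 := Nat.pow_le_pow_left hcon 80
        have h6 : k < 2 ^ k := Nat.lt_two_pow_self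
        have h7 := hE.1
        omega
      · exact h.1
    refine ⟨a1, hy, fun P P' hC => ?_⟩
    have h5 := a4 P P' hC
    have hpos : (0 : ℤ) < (al γ k0 k q r : ℕ) := by exact_mod_cast a2
    refine ⟨P % (al γ k0 k q r : ℕ), ?_, (Int.mod_modEq _ _).symm⟩
    have hico : P % (al γ k0 k q r : ℕ) ∈ Ico (0 : ℤ) ((al γ k0 k q r : ℕ) : ℤ) := by
      rw [mem_Ico]
      exact ⟨Int.emod_nonneg _ hpos.ne', Int.emod_lt_of_pos _ hpos⟩
    rw [mem_union]
    rcases Nat.lt_or_ge ((al γ k0 k q r) ^ 80) (2 ^ k) with hlt | hge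
    · right
      unfold kmII
      refine mem_filter.mpr ⟨hico, k, r, P, hE, hP, rfl, ⟨hlt, ?_⟩, h5, (Int.mod_modEq _ _).symm⟩
      rcases hK with h | h
      · omega
      · exact h.2
    · left
      unfold kmI
      exact mem_filter.mpr ⟨hico, k, r, P, hE, hP, rfl, hge, h5, (Int.mod_modEq _ _).symm⟩

end Pool.Agent.H20G
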