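import Mathlib
import Pool.Agent.Lib.H20G.L1

set_option autoImplicit false

/-!
# H20G chunk L2: auxiliary facts for long hubs (4.2)
-/

namespace Pool.Agent.H20G

open Finset

/-- `q b = r a`, `gcd(a,b) = 1`: then `a = q/gcd(q,r)`, `b = r/gcd(q,r)`, `lcm(q,r) = q b`. -/
theorem l2_ab (q r a b : ℕ) (hq : 0 < q) (hr : 0 < r) (h : q * b = r * a) (hc : Nat.Coprime a b) :
    q / Nat.gcd q r = a ∧ r / Nat.gcd q r = b ∧ Nat.lcm q r = q * b := by
  obtain ⟨g, q1, r1, hg, hc1, hq1, hr1⟩ := Nat.exists_coprime' (m := q) (n := r) (Nat.gcd_pos_of_pos_left _ hq)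
  have hgg : Nat.gcd q r = g := by
    rw [hq1, hr1, Nat.gcd_mul_right, hc1.gcd_eq_one, one_mul]
  have h1 : q1 * b = r1 * a := by
    have : g * (q1 * b) = g * (r1 * a) := by
      calc g * (q1 * b) = (q1 * g) * b := by ring
        _ = (r1 * g) * a := by rw [← hq1, ← hr1]; exact h
        _ = g * (r1 * a) := by ring
    exact Nat.eq_of_mul_eq_mul_left hg this
  have h2 : q1 ∣ a := by
    have : q1 ∣ r1 * a := ⟨b, h1.symm⟩
    exact hc1.dvd_of_dvd_mul_left this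
  have h3 : a ∣ q1 := by
    have : a ∣ q1 * b := ⟨r1, by rw [h1]; ring⟩
    exact hc.dvd_of_dvd_mul_right this
  have ha : a = q1 := Nat.dvd_antisymm h3 h2
  have hq1pos : 0 < q1 := by
    rcases Nat.eq_zero_or_pos q1 with h0 | h0
    · subst h0; omega
    · exact h0
  have hb : b = r1 := by
    rw [ha] at h1
    have : q1 * b = q1 * r1 := by rw [h1]; ring
    exact Nat.eq_of_mul_eq_mul_left hq1pos this
  refine ⟨?_, ?_, ?_⟩
  · rw [hgg, ha, hq1, Nat.mul_div_cancel _ hg]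
  · rw [hgg, hb, hr1, Nat.mul_div_cancel _ hg]
  · have e1 : q * r = (q * r1) * g := by rw [mul_assoc, ← hr1]
    rw [Nat.lcm, hgg, hb, e1, Nat.mul_div_cancel _ hg]

/-- the data of a hub pair -/
theorem l2_hub (N q r : ℕ) (hq : 0 < q) (hr : 0 < r)
    (hc : Nat.Coprime ((q / Nat.gcd q N) * (N / Nat.gcd r N)) ((r / Nat.gcd r N) * (N / Nat.gcd q N))) :
    q / Nat.gcd q r = (q / Nat.gcd q N) * (N / Nat.gcd r N) ∧ r / Nat.gcd q r = (r / Nat.gcd r N) * (N / Nat.gcd q N) ∧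
    Nat.lcm q r = N * (q / Nat.gcd q N) * (r / Nat.gcd r N) := by
  have e1 : q * (N / Nat.gcd q N) = N * (q / Nat.gcd q N) := by
    obtain ⟨g, a, b, hg, hc1, ha, hb⟩ := Nat.exists_coprime' (m := q) (n := N) (Nat.gcd_pos_of_pos_left _ hq)
    have hgg : Nat.gcd q N = g := by rw [ha, hb, Nat.gcd_mul_right, hc1.gcd_eq_one, one_mul]
    rw [hgg]
    have e2 : N / g = b := by rw [hb, Nat.mul_div_cancel _ hg]
    have e3 : q / g = a := by rw [ha, Nat.mul_div_cancel _ hg]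
    rw [e2, e3, ha, hb]; ring
  have e2 : r * (N / Nat.gcd r N) = N * (r / Nat.gcd r N) := by
    obtain ⟨g, a, b, hg, hc1, ha, hb⟩ := Nat.exists_coprime' (m := r) (n := N) (Nat.gcd_pos_of_pos_left _ hr)
    have hgg : Nat.gcd r N = g := by rw [ha, hb, Nat.gcd_mul_right, hc1.gcd_eq_one, one_mul]
    rw [hgg]
    have e2 : N / g = b := by rw [hb, Nat.mul_div_cancel _ hg]
    have e3 : r / g = a := by rw [ha, Nat.mul_div_cancel _ hg]
    rw [e2, e3, ha, hb]; ring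
  have h := l2_ab q r ((q / Nat.gcd q N) * (N / Nat.gcd r N)) ((r / Nat.gcd r N) * (N / Nat.gcd q N)) hq hr
    (by
      calc q * ((r / Nat.gcd r N) * (N / Nat.gcd q N)) = (q * (N / Nat.gcd q N)) * (r / Nat.gcd r N) := by ring
        _ = (N * (q / Nat.gcd q N)) * (r / Nat.gcd r N) := by rw [e1]
        _ = (N * (r / Nat.gcd r N)) * (q / Nat.gcd q N) := by ring
        _ = (r * (N / Nat.gcd r N)) * (q / Nat.gcd q N) := by rw [← e2]
        _ = r * ((q / Nat.gcd q N) * (N / Nat.gcd r N)) := by ring) hc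
  refine ⟨h.1, h.2.1, ?_⟩
  rw [h.2.2]
  calc q * ((r / Nat.gcd r N) * (N / Nat.gcd q N)) = (q * (N / Nat.gcd q N)) * (r / Nat.gcd r N) := by ring
    _ = _ := by rw [e1]

/-- number of solutions of a linear congruence -/
theorem l2_sol (x A : ℕ) (B : ℤ) (hx : 0 < x) :
    ((range x).filter (fun c : ℕ => (x : ℤ) ∣ (A : ℤ) * c + B)).card ≤ Nat.gcd A x := by
  set g := Nat.gcd A x with hg
  have hgpos : 0 < g := Nat.gcd_pos_of_pos_right _ hx
  have hgx : g ∣ x := Nat.gcd_dvd_right _ _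
  have hgA : g ∣ A := Nat.gcd_dvd_left _ _
  set y := x / g with hy
  have hxy : x = g * y := (Nat.mul_div_cancel' hgx).symm
  have hypos : 0 < y := Nat.div_pos (Nat.le_of_dvd hx hgx) hgpos
  have hcop : Nat.Coprime y (A / g) := by
    have := Nat.coprime_div_gcd_div_gcd (m := A) (n := x) hgpos
    exact this.symm
  have key : ∀ c ∈ (range x).filter (fun c : ℕ => (x : ℤ) ∣ (A : ℤ) * c + B),
      ∀ c' ∈ (range x).filter (fun c : ℕ => (x : ℤ) ∣ (A : ℤ) * c + B), c % y = c' % y := by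
    intro c hc c' hc'
    have h1 := (Finset.mem_filter.mp hc).2
    have h2 := (Finset.mem_filter.mp hc').2
    have h3 : (x : ℤ) ∣ (A : ℤ) * ((c : ℤ) - c') := by
      have := dvd_sub h1 h2
      have e : (A : ℤ) * c + B - ((A : ℤ) * c' + B) = (A : ℤ) * ((c : ℤ) - c') := by ring
      rwa [e] at this
    have h4 : (y : ℤ) ∣ ((A / g : ℕ) : ℤ) * ((c : ℤ) - c') := by
      obtain ⟨z, hz⟩ := h3
      refine ⟨z, ?_⟩
      have e1 : (A : ℤ) = g * ((A / g : ℕ) : ℤ) := by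
        have := Nat.mul_div_cancel' hgA
        exact_mod_cast this.symm
      have e2 : (x : ℤ) = g * (y : ℤ) := by exact_mod_cast hxy
      rw [e1, e2] at hz
      have hg0 : (g : ℤ) ≠ 0 := by positivity
      apply mul_left_cancel₀ hg0
      linarith
    have h5 : (y : ℤ) ∣ (c : ℤ) - c' := by
      have hc2 : IsCoprime (y : ℤ) ((A / g : ℕ) : ℤ) := Nat.isCoprime_iff_coprime.mpr hcop
      exact hc2.dvd_of_dvd_mul_left h4
    have h6 : (c' : ℤ) ≡ c [ZMOD y] := (Int.modEq_iff_dvd).mpr h5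
    have h7 : c' ≡ c [MOD y] := by exact_mod_cast h6
    exact h7.symm
  have hmap : ∀ c ∈ (range x).filter (fun c : ℕ => (x : ℤ) ∣ (A : ℤ) * c + B), c / y ∈ range g := by
    intro c hc
    have h1 := Finset.mem_range.mp (Finset.mem_filter.mp hc).1
    rw [Finset.mem_range]
    apply Nat.div_lt_of_lt_mul
    rw [mul_comm, ← hxy]; exact h1
  have hinj : Set.InjOn (fun c : ℕ => c / y) ((range x).filter (fun c : ℕ => (x : ℤ) ∣ (A : ℤ) * c + B) : Set ℕ) := by
    intro c hc c' hc' h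
    have h1 := key c (by exact_mod_cast hc) c' (by exact_mod_cast hc')
    have h2 : c / y = c' / y := h
    rw [← Nat.div_add_mod c y, ← Nat.div_add_mod c' y, h1, h2]
  have := Finset.card_le_card_of_injOn _ hmap hinj
  rwa [Finset.card_range] at this

/-- powers: `2^{k/4} ≤ 2^k / ...` -/
theorem l2_pow (k : ℕ) : (2 : ℝ) ^ ((k : ℝ) / 4) * (2 : ℝ) ^ ((k : ℝ) / 4) = (2 : ℝ) ^ ((k : ℝ) / 2) ∧
    (2 : ℝ) ^ ((k : ℝ) / 2) * (2 : ℝ) ^ ((k : ℝ) / 2) = (2 : ℝ) ^ k ∧ (2 : ℝ) ^ (-((k : ℝ) / 4)) * (2 : ℝ) ^ ((k : ℝ) / 4) = 1 := by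
  refine ⟨?_, ?_, ?_⟩
  · rw [← Real.rpow_add (by norm_num)]; congr 1; ring
  · rw [← Real.rpow_add (by norm_num), ← Real.rpow_natCast]; congr 1; ring
  · rw [← Real.rpow_add (by norm_num)]; simp

theorem l2_big (k : ℕ) (hk : 20 ≤ k) : (1024 : ℝ) ≤ (2 : ℝ) ^ ((k : ℝ) / 2) := by
  have h1 : (1024 : ℝ) = (2 : ℝ) ^ ((10 : ℝ)) := by
    have : ((10 : ℝ)) = ((10 : ℕ) : ℝ) := by norm_num
    rw [this, Real.rpow_natCast]; norm_num
  rw [h1]
  apply Real.rpow_le_rpow_of_exponent_le (by norm_num)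
  have : (20 : ℝ) ≤ k := by exact_mod_cast hk
  linarith

theorem l2_nint_neg (x : ℝ) : nint (-x) = nint x := by
  apply le_antisymm
  · have := l1_nint_le (-x) (-round x)
    have e : |(-x) - ((-round x : ℤ) : ℝ)| = |x - round x| := by
      rw [← abs_neg]; congr 1; push_cast; ring
    rw [e] at this; exact this
  · have := l1_nint_le x (-round (-x))
    have e : |x - ((-round (-x) : ℤ) : ℝ)| = |(-x) - round (-x)| := by
      rw [← abs_neg]; congr 1; push_cast; ring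
    rw [e] at this; exact this

end Pool.Agent.H20G
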