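import Mathlib
import Pool.Agent.Lib.H20G.L2

set_option autoImplicit false

/-!
# H20G chunk L3: the fractions of a rich block (4.2)
-/

namespace Pool.Agent.H20G

open Finset

/-- pigeonhole in a rich block: a column -/
theorem l3_col (γ : ℝ) (k h h' e e' : ℕ) (hR : Rich γ k h h' e e') :
    ∃ x1 : ℕ, (2 : ℝ) ^ (-((k : ℝ) / 4)) * 2 ^ e' <
      (((Ico (2 ^ e') (2 ^ (e' + 1))).filter (fun x' : ℕ => nint (γ * ((x' : ℝ) * h - (x1 : ℝ) * h')) ≤ 1 / 2 ^ k)).card : ℝ) := by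
  classical
  by_contra hcon
  push Not at hcon
  have h1 : ((RelB γ k h h' e e').card : ℝ) ≤
      ∑ x1 ∈ (Ico (2 ^ e) (2 ^ (e + 1)) : Finset ℕ),
        (((Ico (2 ^ e') (2 ^ (e' + 1))).filter (fun x' : ℕ => nint (γ * ((x' : ℝ) * h - (x1 : ℝ) * h')) ≤ 1 / 2 ^ k)).card : ℝ) := by
    have h2 : RelB γ k h h' e e' ⊆ Finset.image (fun s : (_ : ℕ) × ℕ => (s.1, s.2)) ((Ico (2 ^ e) (2 ^ (e + 1))).sigma
        (fun x1 : ℕ => (Ico (2 ^ e') (2 ^ (e' + 1))).filter (fun x' : ℕ => nint (γ * ((x' : ℝ) * h - (x1 : ℝ) * h')) ≤ 1 / 2 ^ k))) := by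
      intro x hx
      unfold RelB at hx
      rw [Finset.mem_filter, Finset.mem_product] at hx
      rw [Finset.mem_image]
      refine ⟨⟨x.1, x.2⟩, ?_, rfl⟩
      rw [Finset.mem_sigma]
      exact ⟨hx.1.1, Finset.mem_filter.mpr ⟨hx.1.2, hx.2.2⟩⟩
    have h3 := (Finset.card_le_card h2).trans Finset.card_image_le
    rw [Finset.card_sigma] at h3
    exact_mod_cast h3
  have h2 := h1.trans (Finset.sum_le_sum (fun x1 _ => hcon x1))
  rw [Finset.sum_const, Nat.card_Ico, nsmul_eq_mul] at h2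
  have h3 : ((2 ^ (e + 1) - 2 ^ e : ℕ) : ℝ) = 2 ^ e := by
    have : 2 ^ (e + 1) - 2 ^ e = 2 ^ e := by rw [pow_succ]; omega
    rw [this]; push_cast; ring
  rw [h3] at h2
  unfold Rich at hR
  nlinarith

theorem l3_row (γ : ℝ) (k h h' e e' : ℕ) (hR : Rich γ k h h' e e') :
    ∃ x1' : ℕ, (2 : ℝ) ^ (-((k : ℝ) / 4)) * 2 ^ e <
      (((Ico (2 ^ e) (2 ^ (e + 1))).filter (fun x : ℕ => nint (γ * ((x1' : ℝ) * h - (x : ℝ) * h')) ≤ 1 / 2 ^ k)).card : ℝ) := by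
  classical
  by_contra hcon
  push Not at hcon
  have h1 : ((RelB γ k h h' e e').card : ℝ) ≤
      ∑ x1 ∈ (Ico (2 ^ e') (2 ^ (e' + 1)) : Finset ℕ),
        (((Ico (2 ^ e) (2 ^ (e + 1))).filter (fun x : ℕ => nint (γ * ((x1 : ℝ) * h - (x : ℝ) * h')) ≤ 1 / 2 ^ k)).card : ℝ) := by
    have h2 : RelB γ k h h' e e' ⊆ Finset.image (fun s : (_ : ℕ) × ℕ => (s.2, s.1)) ((Ico (2 ^ e') (2 ^ (e' + 1))).sigma
        (fun x1 : ℕ => (Ico (2 ^ e) (2 ^ (e + 1))).filter (fun x : ℕ => nint (γ * ((x1 : ℝ) * h - (x : ℝ) * h')) ≤ 1 / 2 ^ k))) := by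
      intro x hx
      unfold RelB at hx
      rw [Finset.mem_filter, Finset.mem_product] at hx
      rw [Finset.mem_image]
      refine ⟨⟨x.2, x.1⟩, ?_, rfl⟩
      rw [Finset.mem_sigma]
      exact ⟨hx.1.2, Finset.mem_filter.mpr ⟨hx.1.1, hx.2.2⟩⟩
    have h3 := (Finset.card_le_card h2).trans Finset.card_image_le
    rw [Finset.card_sigma] at h3
    exact_mod_cast h3
  have h2 := h1.trans (Finset.sum_le_sum (fun x1 _ => hcon x1))
  rw [Finset.sum_const, Nat.card_Ico, nsmul_eq_mul] at h2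
  have h3 : ((2 ^ (e' + 1) - 2 ^ e' : ℕ) : ℝ) = 2 ^ e' := by
    have : 2 ^ (e' + 1) - 2 ^ e' = 2 ^ e' := by rw [pow_succ]; omega
    rw [this]; push_cast; ring
  rw [h3] at h2
  unfold Rich at hR
  nlinarith

/-- the fraction approximating `β` from a rich column -/
theorem l3_frac (β c : ℝ) (k e : ℕ) (hk : 20 ≤ k) (he : 20 * k ≤ e)
    (hcard : (2 : ℝ) ^ (-((k : ℝ) / 4)) * 2 ^ e <
      (((Ico (2 ^ e) (2 ^ (e + 1))).filter (fun x : ℕ => nint ((x : ℝ) * β - c) ≤ 1 / 2 ^ k)).card : ℝ)) :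
    ∃ (u : ℤ) (n : ℕ), 1 ≤ n ∧ (n : ℝ) ≤ 2 * (2 : ℝ) ^ ((k : ℝ) / 4) ∧ Int.gcd u n = 1 ∧
      |β - (u : ℝ) / n| ≤ 4 * (2 : ℝ) ^ ((k : ℝ) / 4) / (2 ^ k * n * 2 ^ e) := by
  obtain ⟨p1, p2, p3⟩ := l2_pow k
  have p4 := l2_big k hk
  set y : ℝ := (2 : ℝ) ^ ((k : ℝ) / 4) with hy
  set z : ℝ := (2 : ℝ) ^ ((k : ℝ) / 2) with hz
  set w : ℝ := (2 : ℝ) ^ (-((k : ℝ) / 4)) with hw
  have hy0 : 0 < y := by positivity
  have hw0 : 0 < w := by positivity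
  have hy1 : 1 ≤ y := Real.one_le_rpow (by norm_num) (by positivity)
  have hyz : y ≤ z := by rw [← p1]; nlinarith
  have hwy : w = 1 / y := by field_simp; linarith
  have h := l1_approx β c (1 / 2 ^ k) w (2 ^ e)
    ((Ico (2 ^ e) (2 ^ (e + 1))).filter (fun x : ℕ => nint ((x : ℝ) * β - c) ≤ 1 / 2 ^ k))
    (by
      intro x hx
      have := (Finset.mem_filter.mp hx).1
      rw [pow_succ, mul_comm] at this
      exact this)
    (fun b hb => (Finset.mem_filter.mp hb).2)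
    (by push_cast; exact hcard.le)
    (by
      push_cast
      have h1 : (2 : ℝ) ^ k ≤ 2 ^ e := pow_le_pow_right₀ (by norm_num) (by omega)
      rw [hwy, div_mul_eq_mul_div, one_mul, le_div_iff₀ hy0]
      nlinarith)
    (by positivity) hw0
    (by
      rw [hwy, mul_one_div, div_le_div_iff₀ (by positivity) hy0, ← p2]
      nlinarith)
  obtain ⟨u, n, h1, h2, h3, h4⟩ := h
  refine ⟨u, n, h1, ?_, h3, ?_⟩
  · have : 2 / w = 2 * y := by rw [hwy]; field_simp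
    rwa [this] at h2
  · have : 4 * (1 / 2 ^ k) / (w * n * ((2 ^ e : ℕ) : ℝ)) = 4 * y / (2 ^ k * n * 2 ^ e) := by
      rw [hwy]; push_cast
      have : (n : ℝ) ≠ 0 := by positivity
      field_simp
    rwa [this] at h4

/-- uniqueness of the fraction -/
theorem l3_unique (β : ℝ) (k e : ℕ) (hk : 20 ≤ k) (u1 u2 : ℤ) (n1 n2 : ℕ) (h1 : 1 ≤ n1) (h2 : 1 ≤ n2)
    (hn1 : (n1 : ℝ) ≤ 2 * (2 : ℝ) ^ ((k : ℝ) / 4)) (hn2 : (n2 : ℝ) ≤ 2 * (2 : ℝ) ^ ((k : ℝ) / 4))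
    (hg1 : Int.gcd u1 n1 = 1) (hg2 : Int.gcd u2 n2 = 1)
    (ha1 : |β - (u1 : ℝ) / n1| ≤ 4 * (2 : ℝ) ^ ((k : ℝ) / 4) / (2 ^ k * n1 * 2 ^ e))
    (ha2 : |β - (u2 : ℝ) / n2| ≤ 4 * (2 : ℝ) ^ ((k : ℝ) / 4) / (2 ^ k * n2 * 2 ^ e)) : u1 = u2 ∧ n1 = n2 := by
  obtain ⟨p1, p2, p3⟩ := l2_pow k
  have p4 := l2_big k hk
  set y : ℝ := (2 : ℝ) ^ ((k : ℝ) / 4) with hy
  set z : ℝ := (2 : ℝ) ^ ((k : ℝ) / 2) with hz
  have hy0 : 0 < y := by positivity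
  have m1 : (0 : ℝ) < n1 := by exact_mod_cast h1
  have m2 : (0 : ℝ) < n2 := by exact_mod_cast h2
  have he1 : (1 : ℝ) ≤ 2 ^ e := one_le_pow₀ (by norm_num)
  have hab : |(u1 : ℝ) * n2 - u2 * n1| < 1 := by
    have e1 : (u1 : ℝ) * n2 - u2 * n1 = (n1 * n2) * ((β - (u2 : ℝ) / n2) - (β - (u1 : ℝ) / n1)) := by field_simp; ring
    rw [e1, abs_mul, abs_of_pos (by positivity)]
    have h5 : |(β - (u2 : ℝ) / n2) - (β - (u1 : ℝ) / n1)| ≤
        4 * y / (2 ^ k * n2 * 2 ^ e) + 4 * y / (2 ^ k * n1 * 2 ^ e) := (abs_sub _ _).trans (add_le_add ha2 ha1)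
    calc (n1 * n2 : ℝ) * |(β - (u2 : ℝ) / n2) - (β - (u1 : ℝ) / n1)|
        ≤ (n1 * n2) * (4 * y / (2 ^ k * n2 * 2 ^ e) + 4 * y / (2 ^ k * n1 * 2 ^ e)) :=
          mul_le_mul_of_nonneg_left h5 (by positivity)
      _ = 4 * y * (n1 + n2) / (2 ^ k * 2 ^ e) := by field_simp
      _ ≤ 4 * y * (2 * y + 2 * y) / (2 ^ k * 1) := by
          gcongr
      _ = 16 * z / (z * z) := by rw [mul_one, ← p2]; congr 1; nlinarith
      _ = 16 / z := by field_simp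
      _ < 1 := by rw [div_lt_one (by positivity)]; linarith
  have hz0 : u1 * n2 - u2 * n1 = 0 := by
    have : |(((u1 * n2 - u2 * n1 : ℤ)) : ℝ)| < 1 := by push_cast; exact hab
    have h9 : |(u1 * n2 - u2 * n1)| < 1 := by exact_mod_cast this
    exact Int.abs_lt_one_iff.mp h9
  have hd1 : (n1 : ℤ) ∣ n2 := by
    have hc : IsCoprime (n1 : ℤ) u1 := by rw [Int.isCoprime_iff_gcd_eq_one, Int.gcd_comm]; exact hg1
    apply hc.dvd_of_dvd_mul_left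
    exact ⟨u2, by linarith⟩
  have hd2 : (n2 : ℤ) ∣ n1 := by
    have hc : IsCoprime (n2 : ℤ) u2 := by rw [Int.isCoprime_iff_gcd_eq_one, Int.gcd_comm]; exact hg2
    apply hc.dvd_of_dvd_mul_left
    exact ⟨u1, by linarith⟩
  have hn : n1 = n2 := Nat.dvd_antisymm (by exact_mod_cast hd1) (by exact_mod_cast hd2)
  subst hn
  refine ⟨?_, rfl⟩
  have : (n1 : ℤ) ≠ 0 := by positivity
  have h3 : (u1 - u2) * (n1 : ℤ) = 0 := by linarith
  rcases mul_eq_zero.mp h3 with h | h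
  · linarith
  · exact absurd h this

end Pool.Agent.H20G
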