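import Mathlib
import Pool.Agent.Lib.H20G.Core
import Pool.Agent.Lib.H20G.L3

set_option autoImplicit false

/-!
# H20G chunk LMain: long hubs (INTERFACE of section 4)
-/

namespace Pool.Agent.H20G

open Finset

/-- the key congruence for one coincidence -/
theorem lm_key (γ : ℝ) (k e e' x x' h h' : ℕ) (u u' : ℤ) (n n' : ℕ) (P P' : ℤ) (hk : 20 ≤ k)
    (hx : x < 2 ^ (e + 1)) (hx' : x' < 2 ^ (e' + 1)) (h1 : 1 ≤ n) (h2 : 1 ≤ n')
    (hn1 : (n : ℝ) ≤ 2 * (2 : ℝ) ^ ((k : ℝ) / 4)) (hn2 : (n' : ℝ) ≤ 2 * (2 : ℝ) ^ ((k : ℝ) / 4))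
    (ha1 : |γ * h - (u : ℝ) / n| ≤ 4 * (2 : ℝ) ^ ((k : ℝ) / 4) / (2 ^ k * n * 2 ^ e'))
    (ha2 : |γ * h' - (u' : ℝ) / n'| ≤ 4 * (2 : ℝ) ^ ((k : ℝ) / 4) / (2 ^ k * n' * 2 ^ e))
    (hc : |(P : ℝ) * (x' * h) - (P' : ℝ) * (x * h') + γ * ((x' * h) - x * h')| < 1 / 2 ^ k)
    (hcop : Nat.Coprime x x') : (x : ℤ) ∣ (n' : ℤ) * (n * h * P + u) := by
  obtain ⟨p1, p2, p3⟩ := l2_pow k
  have p4 := l2_big k hk
  set y : ℝ := (2 : ℝ) ^ ((k : ℝ) / 4) with hy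
  set z : ℝ := (2 : ℝ) ^ ((k : ℝ) / 2) with hz
  have hy0 : 0 < y := by positivity
  have hz0 : 0 < z := by positivity
  have m1 : (0 : ℝ) < n := by exact_mod_cast h1
  have m2 : (0 : ℝ) < n' := by exact_mod_cast h2
  have hxr : (x : ℝ) ≤ 2 * 2 ^ e := by
    have : (x : ℝ) < 2 ^ (e + 1) := by exact_mod_cast hx
    rw [pow_succ] at this; linarith
  have hxr' : (x' : ℝ) ≤ 2 * 2 ^ e' := by
    have : (x' : ℝ) < 2 ^ (e' + 1) := by exact_mod_cast hx'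
    rw [pow_succ] at this; linarith
  have hx0 : (0 : ℝ) ≤ x := Nat.cast_nonneg x
  have hx0' : (0 : ℝ) ≤ x' := Nat.cast_nonneg x'
  set T : ℝ := (P : ℝ) * (x' * h) - (P' : ℝ) * (x * h') with hT
  -- the real quantity
  have hab : |(n : ℝ) * n' * T + n' * x' * u - n * x * u'| < 1 := by
    have e1 : (n : ℝ) * n' * T + n' * x' * u - n * x * u' =
        (n * n') * ((T + γ * ((x' * h) - x * h')) - x' * (γ * h - (u : ℝ) / n) + x * (γ * h' - (u' : ℝ) / n')) := by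
      field_simp; ring
    rw [e1, abs_mul, abs_of_pos (by positivity)]
    have b1 : |(x' : ℝ) * (γ * h - (u : ℝ) / n)| ≤ 8 * y / (2 ^ k * n) := by
      rw [abs_mul, abs_of_nonneg hx0']
      calc (x' : ℝ) * |γ * h - (u : ℝ) / n| ≤ (2 * 2 ^ e') * (4 * y / (2 ^ k * n * 2 ^ e')) :=
            mul_le_mul hxr' ha1 (abs_nonneg _) (by positivity)
        _ = _ := by field_simp; ring
    have b2 : |(x : ℝ) * (γ * h' - (u' : ℝ) / n')| ≤ 8 * y / (2 ^ k * n') := by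
      rw [abs_mul, abs_of_nonneg hx0]
      calc (x : ℝ) * |γ * h' - (u' : ℝ) / n'| ≤ (2 * 2 ^ e) * (4 * y / (2 ^ k * n' * 2 ^ e)) :=
            mul_le_mul hxr ha2 (abs_nonneg _) (by positivity)
        _ = _ := by field_simp; ring
    have b3 : |(T + γ * ((x' * h) - x * h')) - x' * (γ * h - (u : ℝ) / n) + x * (γ * h' - (u' : ℝ) / n')| ≤
        1 / 2 ^ k + 8 * y / (2 ^ k * n) + 8 * y / (2 ^ k * n') := by
      refine (abs_add_le _ _).trans ?_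
      refine add_le_add ?_ b2
      exact (abs_sub _ _).trans (add_le_add hc.le b1)
    calc (n * n' : ℝ) * |(T + γ * ((x' * h) - x * h')) - x' * (γ * h - (u : ℝ) / n) + x * (γ * h' - (u' : ℝ) / n')|
        ≤ (n * n') * (1 / 2 ^ k + 8 * y / (2 ^ k * n) + 8 * y / (2 ^ k * n')) := mul_le_mul_of_nonneg_left b3 (by positivity)
      _ = (n * n' + 8 * y * (n + n')) / 2 ^ k := by field_simp; ring
      _ ≤ ((2 * y) * (2 * y) + 8 * y * (2 * y + 2 * y)) / 2 ^ k := by gcongr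
      _ = 36 * z / (z * z) := by rw [← p2]; congr 1; nlinarith
      _ = 36 / z := by field_simp
      _ < 1 := by rw [div_lt_one hz0]; linarith
  have hz1 : (n : ℤ) * n' * (P * (x' * h) - P' * (x * h')) + n' * x' * u - n * x * u' = 0 := by
    have h3 : |((((n : ℤ) * n' * (P * (x' * h) - P' * (x * h')) + n' * x' * u - n * x * u' : ℤ)) : ℝ)| < 1 := by
      push_cast; exact hab
    have h9 : |(n : ℤ) * n' * (P * (x' * h) - P' * (x * h')) + n' * x' * u - n * x * u'| < 1 := by exact_mod_cast h3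
    exact Int.abs_lt_one_iff.mp h9
  have hd : (x : ℤ) ∣ (x' : ℤ) * ((n' : ℤ) * (n * h * P + u)) := by
    refine ⟨n * n' * P' * h' + n * u', ?_⟩
    linear_combination hz1
  have hco : IsCoprime (x : ℤ) (x' : ℤ) := Nat.isCoprime_iff_coprime.mpr hcop
  exact hco.dvd_of_dvd_mul_left hd

/-- the set of classes -/
noncomputable def lmCl (k x h : ℕ) (u : ℤ) (n : ℕ) : Finset ℤ :=
  (Icc 1 ⌊2 * (2 : ℝ) ^ ((k : ℝ) / 4)⌋₊).biUnion (fun n' =>
    ((range x).filter (fun c : ℕ => (x : ℤ) ∣ ((n' * n * h : ℕ) : ℤ) * c + n' * u)).image (fun c : ℕ => (c : ℤ)))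

theorem lm_card (k x h : ℕ) (u : ℤ) (n : ℕ) (hx : 0 < x) (hn : 1 ≤ n) (hn1 : (n : ℝ) ≤ 2 * (2 : ℝ) ^ ((k : ℝ) / 4))
    (hc : Nat.Coprime h x) : ((lmCl k x h u n).card : ℝ) ≤ 64 * (2 : ℝ) ^ (3 * (k : ℝ) / 4) := by
  set y : ℝ := (2 : ℝ) ^ ((k : ℝ) / 4) with hy
  have hy0 : 0 < y := by positivity
  have hyy : y * y * y = (2 : ℝ) ^ (3 * (k : ℝ) / 4) := by
    rw [hy, ← Real.rpow_add (by norm_num), ← Real.rpow_add (by norm_num)]; congr 1; ring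
  have h1 : (lmCl k x h u n).card ≤ ∑ n' ∈ Icc 1 ⌊2 * y⌋₊, n' * n := by
    unfold lmCl
    refine Finset.card_biUnion_le.trans (Finset.sum_le_sum ?_)
    intro n' hn'
    refine Finset.card_image_le.trans ?_
    refine (l2_sol x (n' * n * h) (n' * u) hx).trans ?_
    have e1 : Nat.gcd (n' * n * h) x = Nat.gcd (n' * n) x := Nat.Coprime.gcd_mul_right_cancel _ hc
    rw [e1]
    have : 0 < n' := (Finset.mem_Icc.mp hn').1
    exact Nat.gcd_le_left _ (by positivity)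
  have h2 : ∀ n' ∈ Icc 1 ⌊2 * y⌋₊, ((n' * n : ℕ) : ℝ) ≤ 4 * (y * y) := by
    intro n' hn'
    have h3 : ((n' : ℕ) : ℝ) ≤ 2 * y := (Nat.cast_le.mpr (Finset.mem_Icc.mp hn').2).trans (Nat.floor_le (by positivity))
    push_cast
    have : (0 : ℝ) ≤ n := Nat.cast_nonneg n
    nlinarith
  have h4 : ((lmCl k x h u n).card : ℝ) ≤ ∑ n' ∈ Icc 1 ⌊2 * y⌋₊, ((n' * n : ℕ) : ℝ) := by exact_mod_cast h1
  have h5 := h4.trans (Finset.sum_le_sum h2)
  rw [Finset.sum_const, Nat.card_Icc, nsmul_eq_mul] at h5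
  have h6 : ((⌊2 * y⌋₊ + 1 - 1 : ℕ) : ℝ) ≤ 2 * y := by
    rw [Nat.add_sub_cancel]; exact Nat.floor_le (by positivity)
  rw [← hyy]
  have h7 : 0 < y * y := by positivity
  nlinarith

/-- Section 4, long hubs: at `q` at most `64 K^{3/4}` classes modulo `x = q/gcd(q,N)` contain all coincidences of the edges of the hub. -/
theorem l_main : ∃ kk : ℕ, ∀ k : ℕ, kk ≤ k → ∀ (γ : ℝ) (f : ℕ → ℝ) (t : ℕ × ℕ × ℕ) (q : ℕ), 0 < t.1 → 0 < q →
    20 * k ≤ t.2.1 → 20 * k ≤ t.2.2 →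
    ∃ Cl : Finset ℤ, (Cl.card : ℝ) ≤ 64 * (2 : ℝ) ^ (3 * (k : ℝ) / 4) ∧
      ∀ r : ℕ, 0 < r → DD f q r ≤ 1 / 2 ^ k → HubEdge γ k t q r → ∀ P P' : ℤ, Coin γ f q r P P' →
        ∃ c ∈ Cl, P ≡ c [ZMOD (q / Nat.gcd q t.1 : ℕ)] := by
  refine ⟨20, ?_⟩
  intro k hk γ f t q ht hq he he'
  by_cases hex : ∃ r : ℕ, HubEdge γ k t q r
  · obtain ⟨r0, hr0⟩ := hex
    set x := q / Nat.gcd q t.1 with hxdef
    set h := t.1 / Nat.gcd q t.1 with hhdef
    have hgpos : 0 < Nat.gcd q t.1 := Nat.gcd_pos_of_pos_left _ hq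
    have hxpos : 0 < x := Nat.div_pos (Nat.le_of_dvd hq (Nat.gcd_dvd_left _ _)) hgpos
    have hcop : Nat.Coprime h x := (Nat.coprime_div_gcd_div_gcd (m := q) (n := t.1) hgpos).symm
    -- fraction for `h`
    have frac : ∀ r : ℕ, HubEdge γ k t q r → ∃ (u : ℤ) (n : ℕ), 1 ≤ n ∧ (n : ℝ) ≤ 2 * (2 : ℝ) ^ ((k : ℝ) / 4) ∧ Int.gcd u n = 1 ∧
        |γ * h - (u : ℝ) / n| ≤ 4 * (2 : ℝ) ^ ((k : ℝ) / 4) / (2 ^ k * n * 2 ^ t.2.2) := by
      intro r hr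
      obtain ⟨x1, hx1⟩ := l3_col γ k _ _ _ _ hr.2.2.2
      apply l3_frac (γ * h) (γ * ((x1 : ℝ) * ((t.1 / Nat.gcd r t.1 : ℕ) : ℝ))) k t.2.2 hk he'
      refine hx1.trans_le ?_
      rw [Nat.cast_le]
      apply Finset.card_le_card
      intro w hw
      rw [Finset.mem_filter] at hw ⊢
      refine ⟨hw.1, ?_⟩
      have e1 : (w : ℝ) * (γ * h) - γ * ((x1 : ℝ) * ((t.1 / Nat.gcd r t.1 : ℕ) : ℝ)) =
          γ * ((w : ℝ) * h - (x1 : ℝ) * ((t.1 / Nat.gcd r t.1 : ℕ) : ℝ)) := by ring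
      rw [e1]; exact hw.2
    obtain ⟨u, n, hn, hn1, hg, ha⟩ := frac r0 hr0
    refine ⟨lmCl k x h u n, lm_card k x h u n hxpos hn hn1 hcop, ?_⟩
    intro r hr hDD hHE P P' hcoin
    obtain ⟨u2, n2, hn2, hn21, hg2, ha2⟩ := frac r hHE
    obtain ⟨rfl, rfl⟩ := l3_unique (γ * h) k t.2.2 hk u u2 n n2 hn hn2 hn1 hn21 hg hg2 ha ha2
    obtain ⟨x1', hx1'⟩ := l3_row γ k _ _ _ _ hHE.2.2.2
    set h' := t.1 / Nat.gcd r t.1 with hh'def
    set x' := r / Nat.gcd r t.1 with hx'def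
    obtain ⟨u', n', hn', hn'1, hg', ha'⟩ := l3_frac (γ * h') (γ * ((x1' : ℝ) * (h : ℝ))) k t.2.1 hk he
      (by
        refine hx1'.trans_le ?_
        rw [Nat.cast_le]
        apply Finset.card_le_card
        intro w hw
        rw [Finset.mem_filter] at hw ⊢
        refine ⟨hw.1, ?_⟩
        have e1 : (w : ℝ) * (γ * h') - γ * ((x1' : ℝ) * (h : ℝ)) = -(γ * ((x1' : ℝ) * h - (w : ℝ) * h')) := by ring
        rw [e1, l2_nint_neg]; exact hw.2)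
    obtain ⟨hx1, hx2, hc, _⟩ := hHE
    have hub := l2_hub t.1 q r hq hr hc
    have hcoin' : |(P : ℝ) * (x' * h) - (P' : ℝ) * (x * h') + γ * ((x' * h) - x * h')| < 1 / 2 ^ k := by
      unfold Coin at hcoin
      have e1 : (bb q r : ℝ) = x' * h := by
        have : bb q r = x' * h := hub.2.1
        rw [this]; push_cast; ring
      have e2 : (aa q r : ℝ) = x * h' := by
        have : aa q r = x * h' := hub.1
        rw [this]; push_cast; ring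
      rw [e1, e2] at hcoin
      exact hcoin.trans_le hDD
    have hxx : Nat.Coprime x x' := (hc.coprime_mul_right).coprime_mul_right_right
    have hkey := lm_key γ k t.2.1 t.2.2 x x' h h' u u' n n' P P' hk (Finset.mem_Ico.mp hx1).2 (Finset.mem_Ico.mp hx2).2
      hn hn' hn1 hn'1 ha ha' hcoin' hxx
    refine ⟨P % x, ?_, (Int.mod_modEq P x).symm⟩
    unfold lmCl
    rw [Finset.mem_biUnion]
    refine ⟨n', ?_, ?_⟩
    · rw [Finset.mem_Icc]; exact ⟨hn', Nat.le_floor hn'1⟩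
    · rw [Finset.mem_image]
      have hx0 : (0 : ℤ) < x := by exact_mod_cast hxpos
      have hnn : 0 ≤ P % (x : ℤ) := Int.emod_nonneg _ hx0.ne'
      have hlt : P % (x : ℤ) < x := Int.emod_lt_of_pos _ hx0
      refine ⟨(P % (x : ℤ)).toNat, ?_, Int.toNat_of_nonneg hnn⟩
      rw [Finset.mem_filter, Finset.mem_range]
      refine ⟨by omega, ?_⟩
      rw [Int.toNat_of_nonneg hnn]
      have e3 : ((n' * n * h : ℕ) : ℤ) * (P % x) + n' * u = (n' : ℤ) * (n * h * P + u) - x * ((n' * n * h) * (P / x)) := by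
        have := Int.emod_add_mul_ediv P x
        push_cast
        linear_combination (n' * n * h : ℤ) * this
      rw [e3]
      exact dvd_sub hkey (Dvd.intro _ rfl)
  · refine ⟨∅, by simp; positivity, ?_⟩
    intro r hr hDD hHE
    exact absurd ⟨r, hHE⟩ hex

/-- the lcm of a hub edge is `N x x'` -/
theorem l_lcm (t : ℕ × ℕ × ℕ) (q r : ℕ) (ht : 0 < t.1) (hq : 0 < q) (hr : 0 < r)
    (hc : Nat.Coprime ((q / Nat.gcd q t.1) * (t.1 / Nat.gcd r t.1)) ((r / Nat.gcd r t.1) * (t.1 / Nat.gcd q t.1))) :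
    Nat.lcm q r = t.1 * (q / Nat.gcd q t.1) * (r / Nat.gcd r t.1) :=
  (l2_hub t.1 q r hq hr hc).2.2

end Pool.Agent.H20G
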