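import Mathlib

/-!
# H20G, module N (section 9), file 5: the overlap of an edge against the masses of its ends
-/

set_option autoImplicit false
open scoped BigOperators
open Finset

namespace Pool.Agent.Lib.H20G

/-- **N5.** One side: `q = g h' a_s`, `2 ^ α ≤ a_s`, `i = cls q`, `j = cls r`. -/
theorem N5_side (q g h' as α i j : ℕ) (mq ρr : ℝ) (hq : q = g * (h' * as)) (hg : 1 ≤ g)
    (hh : 1 ≤ h') (ha : 2 ^ α ≤ as) (hm : 0 ≤ mq)
    (hi : (1 / 2 : ℝ) ^ (i + 1) ≤ mq / q) (hj : ρr ≤ (1 / 2 : ℝ) ^ j) :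
    2 * (g : ℝ) * min (mq / q) ρr ≤
      mq * (4 * (1 / 2) ^ α * min 1 ((2 : ℝ) ^ ((i : ℤ) - j)) * (1 / (h' : ℝ))) := by
  have hg0 : (0 : ℝ) < g := by exact_mod_cast hg
  have hh0 : (0 : ℝ) < h' := by exact_mod_cast hh
  have ha1 : 1 ≤ as := le_trans Nat.one_le_two_pow ha
  have ha0 : (0 : ℝ) < as := by exact_mod_cast ha1
  have haα : (2 : ℝ) ^ α ≤ as := by exact_mod_cast ha
  have hq' : (q : ℝ) = g * (h' * as) := by rw [hq]; push_cast; ring
  have hρ : (0 : ℝ) ≤ mq / q := by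
    rw [hq']; positivity
  -- `g ρ_q = m_q / (h' a_s)`
  have h1 : (g : ℝ) * (mq / q) = mq / (h' * as) := by
    rw [hq']
    field_simp
  have h2 : (g : ℝ) * (mq / q) ≤ mq * ((1 / 2) ^ α * (1 / (h' : ℝ))) := by
    rw [h1, div_le_iff₀ (by positivity)]
    have h3 : (1 : ℝ) ≤ (1 / 2) ^ α * as := by
      rw [one_div, inv_pow, inv_mul_eq_div, le_div_iff₀ (by positivity)]
      linarith
    calc mq = mq * 1 := by ring
      _ ≤ mq * ((1 / 2) ^ α * as) := mul_le_mul_of_nonneg_left h3 hm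
      _ = mq * ((1 / 2) ^ α * (1 / (h' : ℝ))) * (h' * as) := by
        field_simp
  -- `ρ_r ≤ 2 ρ_q 2^{i-j}`
  have h4 : ρr ≤ 2 * (mq / q) * (2 : ℝ) ^ ((i : ℤ) - j) := by
    have h5 : (1 / 2 : ℝ) ^ j = 2 * (1 / 2 : ℝ) ^ (i + 1) * (2 : ℝ) ^ ((i : ℤ) - j) := by
      rw [zpow_sub₀ (by norm_num), zpow_natCast, zpow_natCast, pow_succ, one_div, inv_pow, inv_pow]
      field_simp
    rw [h5] at hj
    refine hj.trans ?_
    have : (0 : ℝ) ≤ (2 : ℝ) ^ ((i : ℤ) - j) := by positivity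
    gcongr
  have hz : (0 : ℝ) < (2 : ℝ) ^ ((i : ℤ) - j) := by positivity
  have h6 : min (mq / q) ρr ≤ (mq / q) * (2 * min 1 ((2 : ℝ) ^ ((i : ℤ) - j))) := by
    rcases le_total 1 ((2 : ℝ) ^ ((i : ℤ) - j)) with h | h
    · rw [min_eq_left h]
      refine (min_le_left _ _).trans ?_
      nlinarith
    · rw [min_eq_right h]
      refine (min_le_right _ _).trans (h4.trans (le_of_eq ?_))
      ring
  have hmin : 0 ≤ min 1 ((2 : ℝ) ^ ((i : ℤ) - j)) := le_min (by norm_num) hz.le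
  calc 2 * (g : ℝ) * min (mq / q) ρr
      ≤ 2 * (g : ℝ) * ((mq / q) * (2 * min 1 ((2 : ℝ) ^ ((i : ℤ) - j)))) := by gcongr
    _ = 4 * min 1 ((2 : ℝ) ^ ((i : ℤ) - j)) * ((g : ℝ) * (mq / q)) := by ring
    _ ≤ 4 * min 1 ((2 : ℝ) ^ ((i : ℤ) - j)) * (mq * ((1 / 2) ^ α * (1 / (h' : ℝ)))) := by gcongr
    _ = mq * (4 * (1 / 2) ^ α * min 1 ((2 : ℝ) ^ ((i : ℤ) - j)) * (1 / (h' : ℝ))) := by ring

/-- **N5.** The product of the two minima. -/
theorem N5_min (d : ℤ) :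
    min 1 ((2 : ℝ) ^ (-d)) * min 1 ((2 : ℝ) ^ d) = (1 / 2) ^ d.natAbs := by
  rcases le_total 0 d with h | h
  · obtain ⟨n, rfl⟩ := Int.eq_ofNat_of_zero_le h
    rw [Int.natAbs_natCast, min_eq_right, min_eq_left, zpow_neg, zpow_natCast]
    · simp
    · rw [zpow_natCast]; exact one_le_pow₀ (by norm_num)
    · rw [zpow_neg, zpow_natCast]
      exact inv_le_one_of_one_le₀ (one_le_pow₀ (by norm_num))
  · obtain ⟨n, hn⟩ := Int.eq_ofNat_of_zero_le (Int.neg_nonneg_of_nonpos h)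
    have hd : d = -(n : ℤ) := by rw [← hn]; ring
    subst hd
    rw [Int.natAbs_neg, Int.natAbs_natCast, neg_neg, min_eq_left, min_eq_right, zpow_neg,
      zpow_natCast]
    · simp
    · rw [zpow_neg, zpow_natCast]
      exact inv_le_one_of_one_le₀ (one_le_pow₀ (by norm_num))
    · rw [zpow_natCast]; exact one_le_pow₀ (by norm_num)

end Pool.Agent.Lib.H20G
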