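import Pool.Agent.Lib.H20G.N3
import Pool.Agent.Lib.H20G.N5

/-!
# H20G, module N (section 9), file 6: geometric mean of the two sides, sum over the types
-/

set_option autoImplicit false
open scoped BigOperators
open Finset

namespace Pool.Agent.Lib.H20G

/-- The weight of a type `(s, s', α, β, d)`. -/
noncomputable def n6w (t : ℕ × ℕ × ℕ × ℕ × ℤ) : ℝ :=
  (1 / 2) ^ t.1 * ((1 / 2) ^ t.2.1 * ((n3u⁻¹ ^ 6) ^ t.2.2.1 * ((n3u⁻¹ ^ 6) ^ t.2.2.2.1 *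
    (n3u⁻¹ ^ 4) ^ t.2.2.2.2.natAbs)))

theorem n6w_nonneg (t : ℕ × ℕ × ℕ × ℕ × ℤ) : 0 ≤ n6w t := by
  have := n3u_pos
  unfold n6w
  positivity

theorem n6_pow (k : ℕ) : (n3u⁻¹ : ℝ) ^ (16 * k) = (1 / 2) ^ k := by
  rw [pow_mul, inv_pow, n3u_pow, one_div]

/-- **N6.** The geometric mean of the two one-sided bounds. -/
theorem N6_mean (X N e Ψ : ℝ) (s s' α β y₀ : ℕ) (d : ℤ) (hX : 0 ≤ X) (he : 0 ≤ e) (hΨ : 0 ≤ Ψ)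
    (hN : N = 1 + (y₀ ^ 2 * n3u ^ (α + β + 2 * d.natAbs + 4)) ^ 2)
    (h1 : X ≤ (4 * (1 / 2) ^ α * min 1 ((2 : ℝ) ^ (-d))) * N * (e / 4 ^ s') * Ψ)
    (h2 : X ≤ (4 * (1 / 2) ^ β * min 1 ((2 : ℝ) ^ d)) * N * (e / 4 ^ s) * Ψ) :
    X ≤ 4 * (1 + 2 * y₀ ^ 4) * e * Ψ * n6w (s, s', α, β, d) := by
  have hu := n3u_pos
  have hu1 := n3u_one_lt
  have hN0 : 0 ≤ N := by rw [hN]; positivity
  set D := d.natAbs with hD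
  have hNle : N ≤ (1 + 2 * y₀ ^ 4) * n3u ^ (2 * (α + β) + 4 * D) := by
    have e1 : (y₀ ^ 2 * n3u ^ (α + β + 2 * D + 4)) ^ 2 =
        (y₀ : ℝ) ^ 4 * n3u ^ 8 * n3u ^ (2 * (α + β) + 4 * D) := by
      rw [mul_pow, ← pow_mul, ← pow_mul, mul_assoc, ← pow_add]
      congr 2
      ring
    have e2 : n3u ^ 8 ≤ 2 := by
      have e3 : (n3u ^ 8) ^ 2 = 2 := by rw [← pow_mul]; exact n3u_pow
      nlinarith [pow_pos hu 8]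
    have e4 : (1 : ℝ) ≤ n3u ^ (2 * (α + β) + 4 * D) := one_le_pow₀ hu1.le
    rw [hN, e1]
    have e5 : (y₀ : ℝ) ^ 4 * n3u ^ 8 * n3u ^ (2 * (α + β) + 4 * D) ≤
        (y₀ : ℝ) ^ 4 * 2 * n3u ^ (2 * (α + β) + 4 * D) := by gcongr
    nlinarith
  -- square
  have hA0 : 0 ≤ (4 * (1 / 2) ^ α * min 1 ((2 : ℝ) ^ (-d))) * N * (e / 4 ^ s') * Ψ := hX.trans h1
  have hsq : X ^ 2 ≤ (4 * N * e * Ψ * ((1 / 2) ^ s * (1 / 2) ^ s' *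
      (n3u⁻¹) ^ (8 * (α + β) + 8 * D))) ^ 2 := by
    have h3 : X ^ 2 ≤ ((4 * (1 / 2) ^ α * min 1 ((2 : ℝ) ^ (-d))) * N * (e / 4 ^ s') * Ψ) *
        ((4 * (1 / 2) ^ β * min 1 ((2 : ℝ) ^ d)) * N * (e / 4 ^ s) * Ψ) := by
      rw [sq]
      exact mul_le_mul h1 h2 hX hA0
    refine h3.trans (le_of_eq ?_)
    have h4 := N5_min d
    have h5 : ((n3u⁻¹ : ℝ) ^ (8 * (α + β) + 8 * D)) ^ 2 = (1 / 2) ^ α * (1 / 2) ^ β * (1 / 2) ^ D := by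
      rw [← pow_mul, show (8 * (α + β) + 8 * D) * 2 = 16 * (α + β + D) by ring, n6_pow, pow_add,
        pow_add]
    have h6 : ∀ n : ℕ, ((1 / 2 : ℝ) ^ n) ^ 2 = 1 / 4 ^ n := by
      intro n
      rw [← pow_mul, mul_comm, pow_mul, show ((1 / 2 : ℝ) ^ 2) = 1 / 4 by norm_num, one_div_pow]
    calc ((4 * (1 / 2) ^ α * min 1 ((2 : ℝ) ^ (-d))) * N * (e / 4 ^ s') * Ψ) *
        ((4 * (1 / 2) ^ β * min 1 ((2 : ℝ) ^ d)) * N * (e / 4 ^ s) * Ψ)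
        = 16 * N ^ 2 * e ^ 2 * Ψ ^ 2 * ((1 / 4 ^ s) * (1 / 4 ^ s')) *
          ((1 / 2) ^ α * (1 / 2) ^ β * (min 1 ((2 : ℝ) ^ (-d)) * min 1 ((2 : ℝ) ^ d))) := by ring
      _ = 16 * N ^ 2 * e ^ 2 * Ψ ^ 2 * (((1 / 2 : ℝ) ^ s) ^ 2 * ((1 / 2 : ℝ) ^ s') ^ 2) *
          ((n3u⁻¹ : ℝ) ^ (8 * (α + β) + 8 * D)) ^ 2 := by rw [h4, h5, h6, h6, ← hD]
      _ = (4 * N * e * Ψ * ((1 / 2) ^ s * (1 / 2) ^ s' *
      (n3u⁻¹) ^ (8 * (α + β) + 8 * D))) ^ 2 := by ring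
  have hle : X ≤ 4 * N * e * Ψ * ((1 / 2) ^ s * (1 / 2) ^ s' *
      (n3u⁻¹) ^ (8 * (α + β) + 8 * D)) :=
    le_of_pow_le_pow_left₀ (by norm_num) (by positivity) hsq
  have hprod : n3u ^ (2 * (α + β) + 4 * D) * (n3u⁻¹) ^ (8 * (α + β) + 8 * D) =
      (n3u⁻¹ ^ 6) ^ α * ((n3u⁻¹ ^ 6) ^ β * (n3u⁻¹ ^ 4) ^ D) := by
    have e1 : (n3u⁻¹ : ℝ) ^ (8 * (α + β) + 8 * D) =
        (n3u⁻¹) ^ (2 * (α + β) + 4 * D) * (n3u⁻¹) ^ (6 * α + 6 * β + 4 * D) := by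
      rw [← pow_add]; congr 1; ring
    rw [e1, ← mul_assoc, ← mul_pow, mul_inv_cancel₀ hu.ne', one_pow, one_mul, pow_add, pow_add,
      pow_mul, pow_mul, pow_mul, mul_assoc]
  refine hle.trans ?_
  calc 4 * N * e * Ψ * ((1 / 2) ^ s * (1 / 2) ^ s' * (n3u⁻¹) ^ (8 * (α + β) + 8 * D))
      ≤ 4 * ((1 + 2 * y₀ ^ 4) * n3u ^ (2 * (α + β) + 4 * D)) * e * Ψ *
        ((1 / 2) ^ s * (1 / 2) ^ s' * (n3u⁻¹) ^ (8 * (α + β) + 8 * D)) := by gcongr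
    _ = 4 * (1 + 2 * y₀ ^ 4) * e * Ψ * ((1 / 2) ^ s * ((1 / 2) ^ s' *
        (n3u ^ (2 * (α + β) + 4 * D) * (n3u⁻¹) ^ (8 * (α + β) + 8 * D)))) := by ring
    _ = 4 * (1 + 2 * y₀ ^ 4) * e * Ψ * n6w (s, s', α, β, d) := by
        rw [hprod]; rfl

/-- **N7.** The weights are summable. -/
theorem N7_summable : Summable n6w := by
  have hu := n3u_pos
  have hu1 := n3u_one_lt
  have hv0 : (0 : ℝ) ≤ n3u⁻¹ := (inv_pos.mpr hu).le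
  have hv1 : (n3u⁻¹ : ℝ) < 1 := inv_lt_one_of_one_lt₀ hu1
  have g1 : Summable fun n : ℕ => (1 / 2 : ℝ) ^ n :=
    summable_geometric_of_lt_one (by norm_num) (by norm_num)
  have g2 : Summable fun n : ℕ => ((n3u⁻¹ : ℝ) ^ 6) ^ n :=
    summable_geometric_of_lt_one (by positivity) (pow_lt_one₀ hv0 hv1 (by norm_num))
  have g3 : Summable fun n : ℕ => ((n3u⁻¹ : ℝ) ^ 4) ^ n :=
    summable_geometric_of_lt_one (by positivity) (pow_lt_one₀ hv0 hv1 (by norm_num))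
  have g4 : Summable fun d : ℤ => ((n3u⁻¹ : ℝ) ^ 4) ^ d.natAbs := by
    rw [summable_int_iff_summable_nat_and_neg]
    constructor
    · simpa using g3
    · simpa using g3
  have k1 : Summable fun x : ℕ × ℤ => ((n3u⁻¹ : ℝ) ^ 6) ^ x.1 * ((n3u⁻¹ : ℝ) ^ 4) ^ x.2.natAbs :=
    g2.mul_of_nonneg g4 (fun n => by positivity) (fun n => by positivity)
  have k2 : Summable fun x : ℕ × ℕ × ℤ => ((n3u⁻¹ : ℝ) ^ 6) ^ x.1 * (((n3u⁻¹ : ℝ) ^ 6) ^ x.2.1 *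
      ((n3u⁻¹ : ℝ) ^ 4) ^ x.2.2.natAbs) :=
    g2.mul_of_nonneg k1 (fun n => by positivity) (fun n => by positivity)
  have k3 : Summable fun x : ℕ × ℕ × ℕ × ℤ => (1 / 2 : ℝ) ^ x.1 * (((n3u⁻¹ : ℝ) ^ 6) ^ x.2.1 *
      (((n3u⁻¹ : ℝ) ^ 6) ^ x.2.2.1 * ((n3u⁻¹ : ℝ) ^ 4) ^ x.2.2.2.natAbs)) :=
    g1.mul_of_nonneg k2 (fun n => by positivity) (fun n => by positivity)
  exact g1.mul_of_nonneg k3 (fun n => by positivity) (fun n => by positivity)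

/-- **N7.** Sum over the types. -/
theorem N7_types {ι : Type*} (E : Finset ι) (τ : ι → ℕ × ℕ × ℕ × ℕ × ℤ) (o : ι → ℝ) (M : ℝ)
    (hM : 0 ≤ M) (h : ∀ t, ∑ e ∈ E.filter (fun e => τ e = t), o e ≤ M * n6w t) :
    ∑ e ∈ E, o e ≤ M * ∑' t, n6w t := by
  classical
  rw [← Finset.sum_fiberwise_of_maps_to (s := E) (t := E.image τ) (g := τ)
    (fun e he => Finset.mem_image_of_mem τ he)]
  refine (Finset.sum_le_sum fun t _ => h t).trans ?_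
  rw [← Finset.mul_sum]
  exact mul_le_mul_of_nonneg_left
    (N7_summable.sum_le_tsum _ fun t _ => n6w_nonneg t) hM

end Pool.Agent.Lib.H20G
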