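import Pool.Agent.Lib.H20G.N2
import Pool.Agent.Lib.H20G.N6

/-!
# H20G, module N (section 9), file 9: the surviving short hub edges

The two-sided counting, in an abstract form.
-/

set_option autoImplicit false
open scoped BigOperators
open Finset

namespace Pool.Agent.Lib.H20G

/-- The hypotheses of the counting theorem of section 9.  `e = (q, r)`, `d = cls r - cls q`,
`q = g h' a_s`, `r = g h b_s`, `g = gcd (q, r)`; `al`, `be` are the numbers `α₁`, `β₁`. -/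
structure N9Hyp (y₀ : ℕ) (c₀ : ℝ) (S : Finset ℕ) (m : ℕ → ℝ) (cls : ℕ → ℕ)
    (E : Finset (ℕ × ℕ)) (h h' as bs al be : ℕ × ℕ → ℕ) (iso : ℕ × ℕ → Prop) : Prop where
  y0_pos : 1 ≤ y₀
  ne_zero : ∀ q ∈ S, q ≠ 0
  mass : ∀ q ∈ S, 0 ≤ m q
  sigma : ∀ q ∈ S, ∑ p ∈ q.primeFactors, (1 / p : ℝ) ≤ c₀
  radius_lo : ∀ q ∈ S, (1 / 2 : ℝ) ^ (cls q + 1) ≤ m q / q
  radius_hi : ∀ q ∈ S, m q / q ≤ (1 / 2 : ℝ) ^ (cls q)
  left : ∀ e ∈ E, e.1 ∈ S
  right : ∀ e ∈ E, e.2 ∈ S
  eq_left : ∀ e ∈ E, e.1 = Nat.gcd e.1 e.2 * (h' e * as e)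
  eq_right : ∀ e ∈ E, e.2 = Nat.gcd e.1 e.2 * (h e * bs e)
  chain : ∀ e ∈ E, ∀ f ∈ E, e.1 = f.1 →
    (h e).primeFactors.card = (h f).primeFactors.card → h e = h f
  chain' : ∀ e ∈ E, ∀ f ∈ E, e.2 = f.2 →
    (h' e).primeFactors.card = (h' f).primeFactors.card → h' e = h' f
  isolated : ∀ e ∈ E, ∀ f ∈ E, iso e → iso f → h e = h f → h' e = h' f →
    Nat.log 2 (as e) = Nat.log 2 (as f) → Nat.log 2 (bs e) = Nat.log 2 (bs f) →
    as e = as f ∧ bs e = bs f
  planar : ∀ e ∈ E, ∀ f ∈ E, ¬ iso e → ¬ iso f → h e = h f → h' e = h' f →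
    Nat.log 2 (as e) = Nat.log 2 (as f) → Nat.log 2 (bs e) = Nat.log 2 (bs f) →
    al e = al f → be e = be f → as e = as f ∧ bs e = bs f
  al_pos : ∀ e ∈ E, ¬ iso e → 1 ≤ al e
  be_pos : ∀ e ∈ E, ¬ iso e → 1 ≤ be e
  al_surv : ∀ e ∈ E, ¬ iso e → al e ≤ y₀ ∨ al e ^ 16 ≤ bs e ∨
    al e ^ 16 ≤ 2 ^ (((cls e.2 : ℤ) - cls e.1).natAbs + 1)
  be_surv : ∀ e ∈ E, ¬ iso e → be e ≤ y₀ ∨ be e ^ 16 ≤ as e ∨
    be e ^ 16 ≤ 2 ^ (((cls e.2 : ℤ) - cls e.1).natAbs + 1)

/-- **Section 9.**  The surviving edges have total overlap `≤ C(y₀, c₀) Σ m`. -/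
theorem N9_count (y₀ : ℕ) (c₀ : ℝ) (S : Finset ℕ) (m : ℕ → ℝ) (cls : ℕ → ℕ)
    (E : Finset (ℕ × ℕ)) (h h' as bs al be : ℕ × ℕ → ℕ) (iso : ℕ × ℕ → Prop)
    (H : N9Hyp y₀ c₀ S m cls E h h' as bs al be iso) :
    ∑ e ∈ E, 2 * (Nat.gcd e.1 e.2 : ℝ) * min (m e.1 / e.1) (m e.2 / e.2) ≤
      4 * (1 + 2 * y₀ ^ 4) * Real.exp (8 * c₀) * (∑' t, n6w t) * ∑ q ∈ S, m q := by
  classical
  have hu := n3u_pos
  -- positivity of the parts
  have hg : ∀ e ∈ E, 1 ≤ Nat.gcd e.1 e.2 := fun e he =>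
    Nat.gcd_pos_of_pos_left _ (Nat.pos_of_ne_zero (H.ne_zero _ (H.left e he)))
  have hprod1 : ∀ e ∈ E, h' e * as e ≠ 0 := by
    intro e he h0
    have := H.eq_left e he
    rw [h0, mul_zero] at this
    exact H.ne_zero _ (H.left e he) this
  have hprod2 : ∀ e ∈ E, h e * bs e ≠ 0 := by
    intro e he h0
    have := H.eq_right e he
    rw [h0, mul_zero] at this
    exact H.ne_zero _ (H.right e he) this
  -- an edge is determined by one end and the four numbers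
  have hdet1 : ∀ e ∈ E, ∀ f ∈ E, e.1 = f.1 → h e = h f → h' e = h' f → as e = as f →
      bs e = bs f → e = f := by
    intro e he f hf h1 h2 h3 h4 h5
    have e1 := H.eq_left e he
    have f1 := H.eq_left f hf
    have hgg : Nat.gcd e.1 e.2 = Nat.gcd f.1 f.2 := by
      have : Nat.gcd e.1 e.2 * (h' e * as e) = Nat.gcd f.1 f.2 * (h' e * as e) := by
        rw [← e1, h1, h3, h4, ← f1]
      exact Nat.eq_of_mul_eq_mul_right (Nat.pos_of_ne_zero (hprod1 e he)) this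
    have h6 : e.2 = f.2 := by
      rw [H.eq_right e he, H.eq_right f hf, hgg, h2, h5]
    exact Prod.ext h1 h6
  have hdet2 : ∀ e ∈ E, ∀ f ∈ E, e.2 = f.2 → h e = h f → h' e = h' f → as e = as f →
      bs e = bs f → e = f := by
    intro e he f hf h1 h2 h3 h4 h5
    have e1 := H.eq_right e he
    have f1 := H.eq_right f hf
    have hgg : Nat.gcd e.1 e.2 = Nat.gcd f.1 f.2 := by
      have : Nat.gcd e.1 e.2 * (h e * bs e) = Nat.gcd f.1 f.2 * (h e * bs e) := by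
        rw [← e1, h1, h2, h5, ← f1]
      exact Nat.eq_of_mul_eq_mul_right (Nat.pos_of_ne_zero (hprod2 e he)) this
    have h6 : e.1 = f.1 := by
      rw [H.eq_left e he, H.eq_left f hf, hgg, h3, h4]
    exact Prod.ext h6 h1
  set Ψ : ℝ := ∑ q ∈ S, m q with hΨ
  have hΨ0 : 0 ≤ Ψ := Finset.sum_nonneg H.mass
  set τ : ℕ × ℕ → ℕ × ℕ × ℕ × ℕ × ℤ := fun e =>
    ((h e).primeFactors.card, (h' e).primeFactors.card, Nat.log 2 (as e), Nat.log 2 (bs e),
      (cls e.2 : ℤ) - cls e.1) with hτ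
  have key : ∀ t, ∑ e ∈ E.filter (fun e => τ e = t),
      2 * (Nat.gcd e.1 e.2 : ℝ) * min (m e.1 / e.1) (m e.2 / e.2) ≤
        4 * (1 + 2 * y₀ ^ 4) * Real.exp (8 * c₀) * Ψ * n6w t := by
    rintro ⟨s, s', α, β, d⟩
    set F := E.filter (fun e => τ e = (s, s', α, β, d)) with hF
    have hFE : ∀ e ∈ F, e ∈ E := fun e he => (Finset.mem_filter.mp he).1
    have hFτ : ∀ e ∈ F, (h e).primeFactors.card = s ∧ (h' e).primeFactors.card = s' ∧
        Nat.log 2 (as e) = α ∧ Nat.log 2 (bs e) = β ∧ (cls e.2 : ℤ) - cls e.1 = d := by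
      intro e he
      have h1 := (Finset.mem_filter.mp he).2
      simp only [hτ, Prod.mk.injEq] at h1
      exact h1
    have hpar : ∀ e ∈ F, 1 ≤ h e ∧ 1 ≤ h' e ∧ 1 ≤ as e ∧ 1 ≤ bs e := by
      intro e he
      have h1 := hprod1 e (hFE e he)
      have h2 := hprod2 e (hFE e he)
      rw [Nat.mul_ne_zero_iff] at h1 h2
      omega
    have has : ∀ e ∈ F, 2 ^ α ≤ as e ∧ as e < 2 ^ (α + 1) := by
      intro e he
      obtain ⟨_, _, h3, _, _⟩ := hFτ e he
      constructor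
      · rw [← h3]; exact Nat.pow_log_le_self 2 (by have := (hpar e he).2.2.1; omega)
      · rw [← h3]; exact Nat.lt_pow_succ_log_self (by norm_num) _
    have hbs : ∀ e ∈ F, 2 ^ β ≤ bs e ∧ bs e < 2 ^ (β + 1) := by
      intro e he
      obtain ⟨_, _, _, h3, _⟩ := hFτ e he
      constructor
      · rw [← h3]; exact Nat.pow_log_le_self 2 (by have := (hpar e he).2.2.2; omega)
      · rw [← h3]; exact Nat.lt_pow_succ_log_self (by norm_num) _
    set R : ℝ := y₀ ^ 2 * n3u ^ (α + β + 2 * d.natAbs + 4) with hR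
    have hR0 : 0 ≤ R := by positivity
    have hRbound : ∀ e ∈ F, ¬ iso e → 1 ≤ al e ∧ 1 ≤ be e ∧ (al e * be e : ℝ) ≤ R := by
      intro e he hi
      have heE := hFE e he
      obtain ⟨_, _, _, _, h5⟩ := hFτ e he
      refine ⟨H.al_pos e heE hi, H.be_pos e heE hi, ?_⟩
      have h6 := H.al_surv e heE hi
      have h7 := H.be_surv e heE hi
      rw [h5] at h6 h7
      exact N4_surv (al e) (be e) (as e) (bs e) y₀ α β d.natAbs H.y0_pos (has e he).2 (hbs e he).2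
        (hpar e he).2.2.1 (hpar e he).2.2.2 h6 h7
    -- equality of the numbers for two edges of the same type with the same h, h'
    have hsame : ∀ e ∈ F, ∀ f ∈ F, h e = h f → h' e = h' f →
        ((iso e ∧ iso f) ∨ (¬ iso e ∧ ¬ iso f ∧ al e = al f ∧ be e = be f)) →
        as e = as f ∧ bs e = bs f := by
      intro e he f hf h1 h2 h3
      have l1 : Nat.log 2 (as e) = Nat.log 2 (as f) := by
        rw [(hFτ e he).2.2.1, (hFτ f hf).2.2.1]
      have l2 : Nat.log 2 (bs e) = Nat.log 2 (bs f) := by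
        rw [(hFτ e he).2.2.2.1, (hFτ f hf).2.2.2.1]
      rcases h3 with ⟨h4, h5⟩ | ⟨h4, h5, h6, h7⟩
      · exact H.isolated e (hFE e he) f (hFE f hf) h4 h5 h1 h2 l1 l2
      · exact H.planar e (hFE e he) f (hFE f hf) h4 h5 h1 h2 l1 l2 h6 h7
    have hcount1 : ∀ q ∈ S, ∀ x, ((F.filter (fun e => e.1 = q ∧ h' e = x)).card : ℝ) ≤ 1 + R ^ 2 := by
      intro q _ x
      have hh : ∀ e ∈ F.filter (fun e => e.1 = q ∧ h' e = x),
          ∀ f ∈ F.filter (fun e => e.1 = q ∧ h' e = x), e.1 = f.1 ∧ h' e = h' f ∧ h e = h f := by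
        intro e he f hf
        obtain ⟨he1, he2, he3⟩ := Finset.mem_filter.mp he
        obtain ⟨hf1, hf2, hf3⟩ := Finset.mem_filter.mp hf
        refine ⟨by rw [he2, hf2], by rw [he3, hf3], ?_⟩
        exact H.chain e (hFE e he1) f (hFE f hf1) (by rw [he2, hf2])
          (by rw [(hFτ e he1).1, (hFτ f hf1).1])
      refine N3_count _ iso al be R hR0 ?_ ?_ ?_
      · intro e he f hf hi hi'
        obtain ⟨h1, h2, h3⟩ := hh e he f hf
        obtain ⟨he1, _⟩ := Finset.mem_filter.mp he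
        obtain ⟨hf1, _⟩ := Finset.mem_filter.mp hf
        obtain ⟨h4, h5⟩ := hsame e he1 f hf1 h3 h2 (Or.inl ⟨hi, hi'⟩)
        exact hdet1 e (hFE e he1) f (hFE f hf1) h1 h3 h2 h4 h5
      · intro e he f hf hi hi' ha hb
        obtain ⟨h1, h2, h3⟩ := hh e he f hf
        obtain ⟨he1, _⟩ := Finset.mem_filter.mp he
        obtain ⟨hf1, _⟩ := Finset.mem_filter.mp hf
        obtain ⟨h4, h5⟩ := hsame e he1 f hf1 h3 h2 (Or.inr ⟨hi, hi', ha, hb⟩)
        exact hdet1 e (hFE e he1) f (hFE f hf1) h1 h3 h2 h4 h5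
      · intro e he hi
        exact hRbound e (Finset.mem_filter.mp he).1 hi
    have hcount2 : ∀ q ∈ S, ∀ x, ((F.filter (fun e => e.2 = q ∧ h e = x)).card : ℝ) ≤ 1 + R ^ 2 := by
      intro q _ x
      have hh : ∀ e ∈ F.filter (fun e => e.2 = q ∧ h e = x),
          ∀ f ∈ F.filter (fun e => e.2 = q ∧ h e = x), e.2 = f.2 ∧ h' e = h' f ∧ h e = h f := by
        intro e he f hf
        obtain ⟨he1, he2, he3⟩ := Finset.mem_filter.mp he
        obtain ⟨hf1, hf2, hf3⟩ := Finset.mem_filter.mp hf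
        refine ⟨by rw [he2, hf2], ?_, by rw [he3, hf3]⟩
        exact H.chain' e (hFE e he1) f (hFE f hf1) (by rw [he2, hf2])
          (by rw [(hFτ e he1).2.1, (hFτ f hf1).2.1])
      refine N3_count _ iso al be R hR0 ?_ ?_ ?_
      · intro e he f hf hi hi'
        obtain ⟨h1, h2, h3⟩ := hh e he f hf
        obtain ⟨he1, _⟩ := Finset.mem_filter.mp he
        obtain ⟨hf1, _⟩ := Finset.mem_filter.mp hf
        obtain ⟨h4, h5⟩ := hsame e he1 f hf1 h3 h2 (Or.inl ⟨hi, hi'⟩)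
        exact hdet2 e (hFE e he1) f (hFE f hf1) h1 h3 h2 h4 h5
      · intro e he f hf hi hi' ha hb
        obtain ⟨h1, h2, h3⟩ := hh e he f hf
        obtain ⟨he1, _⟩ := Finset.mem_filter.mp he
        obtain ⟨hf1, _⟩ := Finset.mem_filter.mp hf
        obtain ⟨h4, h5⟩ := hsame e he1 f hf1 h3 h2 (Or.inr ⟨hi, hi', ha, hb⟩)
        exact hdet2 e (hFE e he1) f (hFE f hf1) h1 h3 h2 h4 h5
      · intro e he hi
        exact hRbound e (Finset.mem_filter.mp he).1 hi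
    have hmin0 : ∀ z : ℤ, (0 : ℝ) ≤ min 1 ((2 : ℝ) ^ z) := fun z =>
      le_min (by norm_num) (by positivity)
    have hX0 : 0 ≤ ∑ e ∈ F, 2 * (Nat.gcd e.1 e.2 : ℝ) * min (m e.1 / e.1) (m e.2 / e.2) := by
      refine Finset.sum_nonneg fun e he => ?_
      have h1 : 0 ≤ m e.1 / (e.1 : ℝ) := div_nonneg (H.mass _ (H.left e (hFE e he))) (Nat.cast_nonneg _)
      have h2 : 0 ≤ m e.2 / (e.2 : ℝ) := div_nonneg (H.mass _ (H.right e (hFE e he))) (Nat.cast_nonneg _)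
      have h3 := le_min h1 h2
      positivity
    refine N6_mean _ (1 + R ^ 2) (Real.exp (8 * c₀)) Ψ s s' α β y₀ d hX0 (Real.exp_pos _).le hΨ0 rfl
      ?_ ?_
    · refine N2_side F S Prod.fst h' m _ (4 * (1 / 2) ^ α * min 1 ((2 : ℝ) ^ (-d))) (1 + R ^ 2) c₀ s'
        H.mass (by have := hmin0 (-d); positivity) (by positivity) H.ne_zero H.sigma
        (fun e he => H.left e (hFE e he)) ?_ (fun e he => (hFτ e he).2.1) ?_ hcount1
      · intro e he
        rw [H.eq_left e (hFE e he)]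
        exact Dvd.intro_left _ (by ring_nf : Nat.gcd e.1 e.2 * as e * h' e = _)
      · intro e he
        have heE := hFE e he
        have h1 := N5_side e.1 (Nat.gcd e.1 e.2) (h' e) (as e) α (cls e.1) (cls e.2) (m e.1)
          (m e.2 / e.2) (H.eq_left e heE) (hg e heE) (hpar e he).2.1 (has e he).1
          (H.mass _ (H.left e heE)) (H.radius_lo _ (H.left e heE)) (H.radius_hi _ (H.right e heE))
        have h2 : (cls e.1 : ℤ) - cls e.2 = -d := by
          rw [← (hFτ e he).2.2.2.2]; ring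
        rw [h2] at h1
        exact h1
    · refine N2_side F S Prod.snd h m _ (4 * (1 / 2) ^ β * min 1 ((2 : ℝ) ^ d)) (1 + R ^ 2) c₀ s
        H.mass (by have := hmin0 d; positivity) (by positivity) H.ne_zero H.sigma
        (fun e he => H.right e (hFE e he)) ?_ (fun e he => (hFτ e he).1) ?_ hcount2
      · intro e he
        rw [H.eq_right e (hFE e he)]
        exact Dvd.intro_left _ (by ring_nf : Nat.gcd e.1 e.2 * bs e * h e = _)
      · intro e he
        have heE := hFE e he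
        have h1 := N5_side e.2 (Nat.gcd e.1 e.2) (h e) (bs e) β (cls e.2) (cls e.1) (m e.2)
          (m e.1 / e.1) (H.eq_right e heE) (hg e heE) (hpar e he).1 (hbs e he).1
          (H.mass _ (H.right e heE)) (H.radius_lo _ (H.right e heE)) (H.radius_hi _ (H.left e heE))
        rw [(hFτ e he).2.2.2.2, min_comm] at h1
        exact h1
  have hfin := N7_types E τ (fun e => 2 * (Nat.gcd e.1 e.2 : ℝ) * min (m e.1 / e.1) (m e.2 / e.2))
    (4 * (1 + 2 * y₀ ^ 4) * Real.exp (8 * c₀) * Ψ)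
    (by have := Real.exp_pos (8 * c₀); positivity) key
  refine hfin.trans (le_of_eq ?_)
  ring

end Pool.Agent.Lib.H20G
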