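import Mathlib
import Pool.Agent.Lib.H20G.Core
import Pool.Agent.Lib.H20G.PMain

set_option autoImplicit false

/-!
# H20G chunk PPlane: existence of the plane (from PMain)
-/

namespace Pool.Agent.H20G

open Finset

/-- Section 7.1: a non-generic box with at least two elements has a plane. -/
theorem p_plane : ∃ kk : ℕ, 1 ≤ kk ∧ ∀ (γ : ℝ) (k h h' A B : ℕ), kk ≤ k → 0 < A → 0 < B →
    2 ≤ (Pset γ k h h' A B).card →
    (2 : ℝ) ^ (-((k : ℝ) / 4)) * A * B < ((Pset γ k h h' A B).card : ℝ) →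
    ∃ t : ℤ × ℤ × ℕ, Plane (Pset γ k h h' A B) (mm γ h h') t.1 t.2.1 t.2.2 := by
  obtain ⟨kk, hkk⟩ := p_main
  refine ⟨max 1 kk, le_max_left _ _, ?_⟩
  intro γ k h h' A B hk _ _ h2 hr
  obtain ⟨⟨u, u', n, hP⟩, _⟩ := hkk k (le_trans (le_max_right _ _) hk) γ h h' A B h2 hr
  exact ⟨(u, u', n), hP⟩

end Pool.Agent.H20G
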