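import Mathlib
import Pool.Agent.Lib.H20G.Core
import Pool.Agent.Lib.H20G.N9
import Pool.Agent.Lib.H20G.N10
import Pool.Agent.Lib.H20G.PPlane

set_option autoImplicit false

/-!
# H20G chunk NMain: two-sided counting (INTERFACE of section 9)
-/

namespace Pool.Agent.H20G

open Finset

theorem nmn_rc {f : ℕ → ℝ} {q : ℕ} (h0 : 0 < rho f q) (h1 : rho f q ≤ 1) :
    (1 / 2 : ℝ) ^ (rc f q + 1) ≤ rho f q ∧ rho f q ≤ (1 / 2 : ℝ) ^ (rc f q) := by
  have hinv : 1 ≤ 1 / rho f q := by rw [le_div_iff₀ h0]; linarith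
  have hlog : 0 ≤ Real.logb 2 (1 / rho f q) := Real.logb_nonneg (by norm_num) hinv
  have hfl : (rc f q : ℝ) ≤ Real.logb 2 (1 / rho f q) := Nat.floor_le hlog
  have hfl2 : Real.logb 2 (1 / rho f q) < (rc f q : ℝ) + 1 := Nat.lt_floor_add_one _
  have hpos : 0 < 1 / rho f q := by positivity
  constructor
  · have h2 : 1 / rho f q < 2 ^ (rc f q + 1) := by
      have := (Real.logb_lt_iff_lt_rpow (by norm_num : (1 : ℝ) < 2) hpos).mp hfl2
      rw [← Nat.cast_succ, Real.rpow_natCast] at this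
      exact this
    rw [one_div, inv_pow, inv_le_comm₀ (by positivity) h0, ← one_div]
    exact h2.le
  · have h2 : (2 : ℝ) ^ (rc f q) ≤ 1 / rho f q := by
      have := (Real.le_logb_iff_rpow_le (by norm_num : (1 : ℝ) < 2) hpos).mp hfl
      rwa [Real.rpow_natCast] at this
    rw [one_div, inv_pow, le_inv_comm₀ h0 (by positivity), ← one_div]
    exact h2

theorem nmn_rho {c0 : ℝ} {f : ℕ → ℝ} {S : Finset ℕ} (hBk : Blk c0 f S) {q : ℕ} (hq : q ∈ S) :
    0 < rho f q ∧ rho f q ≤ 1 := by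
  have h1 := hBk.pos q hq
  have h2 := hBk.fpos q hq
  have h3 := hBk.fle q hq
  have h4 : (1 : ℝ) ≤ q := by exact_mod_cast h1
  unfold rho
  constructor
  · positivity
  · rw [div_le_one (by positivity)]
    linarith

/-- the level of an edge is unique -/
theorem nmn_level {γ : ℝ} {f : ℕ → ℝ} {S : Finset ℕ} {k l q r : ℕ} (h1 : Edge γ f S k q r)
    (h2 : Edge γ f S l q r) : k = l := by
  have key : ∀ {k l : ℕ}, DD f q r ≤ 1 / 2 ^ k → 1 / 2 ^ (l + 1) < DD f q r → k ≤ l := by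
    intro k l h3 h4
    by_contra hlt
    push Not at hlt
    have h5 : (1 : ℝ) / 2 ^ k ≤ 1 / 2 ^ (l + 1) :=
      one_div_le_one_div_of_le (by positivity) (pow_le_pow_right₀ (by norm_num) hlt)
    linarith
  exact le_antisymm (key h1.2.2.2.1 h2.2.2.2.2.1) (key h2.2.2.2.1 h1.2.2.2.2.1)

theorem nmn_lcm_q {q r : ℕ} (hq : 0 < q) : Nat.lcm q r / q = bb q r := by
  unfold bb Nat.lcm
  rw [Nat.mul_div_assoc _ (Nat.gcd_dvd_right q r), Nat.mul_div_cancel_left _ hq]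

/-- a vertex of an edge of level `k` -/
theorem nmn_vertex {c0 γ : ℝ} {f : ℕ → ℝ} {S : Finset ℕ} (hBk : Blk c0 f S) {k q r : ℕ}
    (he : Edge γ f S k q r) : rho f q * (Nat.lcm q r : ℕ) ≤ 1 := by
  have h1 := he.2.2.2.1
  have h2 := (nmn_rho hBk he.1).1
  have h3 := (nmn_rho hBk he.2.1).1
  unfold DD at h1
  have h4 : (1 : ℝ) / 2 ^ k ≤ 1 := by
    rw [div_le_one (by positivity)]
    exact one_le_pow₀ (by norm_num)
  have h5 : (0 : ℝ) ≤ (Nat.lcm q r : ℕ) := Nat.cast_nonneg _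
  nlinarith

theorem nmn_Tk_mono {k0 k k' : ℕ} (h : win k0 k ≤ win k0 k') : Tk k0 k ≤ Tk k0 k' := by
  unfold Tk
  exact Nat.pow_le_pow_right (by norm_num) (Nat.mul_le_mul_left _ (Nat.pow_le_pow_right (by norm_num) h))

theorem nmn_rou_eq {T T' n : ℕ} (h : T ≤ T')
    (hc : (rou T n).primeFactors.card = (rou T' n).primeFactors.card) : rou T n = rou T' n := by
  have hp : ∀ T : ℕ, (rou T n).primeFactors = n.primeFactors.filter (fun p => T < p) := by
    intro T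
    ext p
    rw [← Nat.support_factorization, Finsupp.mem_support_iff, d5_fact_rou, mem_filter,
      ← Nat.support_factorization, Finsupp.mem_support_iff]
    constructor
    · intro h1
      by_cases h2 : T < p
      · rw [if_pos h2] at h1; exact ⟨h1, h2⟩
      · rw [if_neg h2] at h1; exact absurd rfl h1
    · rintro ⟨h1, h2⟩
      rw [if_pos h2]; exact h1
  rw [hp, hp] at hc
  have hsub : n.primeFactors.filter (fun p => T' < p) ⊆ n.primeFactors.filter (fun p => T < p) := by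
    intro p hp'
    rw [mem_filter] at hp' ⊢
    exact ⟨hp'.1, lt_of_le_of_lt h hp'.2⟩
  have heq := Finset.eq_of_subset_of_card_le hsub hc.le
  unfold rou
  rw [heq]

/-- the chain property at `q` -/
theorem nmn_chain {c0 γ : ℝ} {f : ℕ → ℝ} {S X : Finset ℕ} {k0 : ℕ} {Ls : ℕ → Finset ℕ}
    (hBk : Blk c0 f S) (hC : Canon k0 f S X Ls) {k l q r s : ℕ}
    (h1 : SEdge γ k0 f S X Ls k q r) (h2 : SEdge γ k0 f S X Ls l q s)
    (hc : (hB k0 k q r).primeFactors.card = (hB k0 l q s).primeFactors.card) :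
    hB k0 k q r = hB k0 l q s := by
  have key : ∀ {k l r s : ℕ}, SEdge γ k0 f S X Ls k q r → SEdge γ k0 f S X Ls l q s →
      (hB k0 k q r).primeFactors.card = (hB k0 l q s).primeFactors.card →
      win k0 k ≤ win k0 l → hB k0 k q r = hB k0 l q s := by
    intro k l r s h1 h2 hc hw
    have hq := hBk.pos q h1.2.1.1
    have e1 : Nat.lcm q r / q = bb q r := nmn_lcm_q hq
    have e2 : Nat.lcm q s / q = bb q s := nmn_lcm_q hq
    have h3 := (hC q h1.2.1.1 h1.2.2.1 k (Nat.lcm q r) h1.1 h1.2.2.2.2.1 (Nat.dvd_lcm_left q r)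
      (nmn_vertex hBk h1.2.1)).2 l (Nat.lcm q s) h2.1 hw h2.2.2.2.2.1 (Nat.dvd_lcm_left q s)
      (nmn_vertex hBk h2.2.1)
    rw [e1, e2] at h3
    unfold hB at hc ⊢
    rw [← h3] at hc ⊢
    exact nmn_rou_eq (nmn_Tk_mono hw) hc
  rcases le_total (win k0 k) (win k0 l) with h | h
  · exact key h1 h2 hc h
  · exact (key h2 h1 hc.symm h).symm

theorem nmn_sedge_symm {γ : ℝ} {f : ℕ → ℝ} {S X : Finset ℕ} {k0 : ℕ} {Ls : ℕ → Finset ℕ}
    {k q r : ℕ} (h : SEdge γ k0 f S X Ls k q r) : SEdge γ k0 f S X Ls k r q := by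
  obtain ⟨h1, ⟨h2, h3, h4, h5, h6, h7⟩, h8, h9, h10, h11, h12⟩ := h
  have hD : DD f r q = DD f q r := by
    unfold DD; rw [Nat.lcm_comm, add_comm]
  refine ⟨h1, ⟨h3, h2, h4.symm, by rw [hD]; exact h5, by rw [hD]; exact h6, ?_⟩, h9, h8,
    by rw [Nat.lcm_comm]; exact h10, h12, h11⟩
  rw [hD, nmn_bb q r, nmn_aa q r, ← nmn_nint_neg]
  rw [show -(γ * ((aa q r : ℝ) - bb q r)) = γ * ((bb q r : ℝ) - aa q r) by ring]
  exact h7

/-- two edges with the same `h`, `h'` and box, planes -/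
theorem nmn_two {γ : ℝ} {f : ℕ → ℝ} {S : Finset ℕ} {k0 k l q r q' r' : ℕ} (hq : 0 < q) (hr : 0 < r)
    (hq' : 0 < q') (hr' : 0 < r') (he : Edge γ f S k q r) (he' : Edge γ f S l q' r')
    (h1 : hB k0 k q r = hB k0 l q' r') (h2 : hA k0 k q r = hA k0 l q' r')
    (h3 : Nat.log 2 (tA k0 k q r) = Nat.log 2 (tA k0 l q' r'))
    (h4 : Nat.log 2 (tB k0 k q r) = Nat.log 2 (tB k0 l q' r')) :
    ((boxP γ k0 k q r).card = 1 → (boxP γ k0 l q' r').card = 1 →
      tA k0 k q r = tA k0 l q' r' ∧ tB k0 k q r = tB k0 l q' r') ∧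
    (2 ≤ (boxP γ k0 k q r).card → 2 ≤ (boxP γ k0 l q' r').card →
      (∃ t : ℤ × ℤ × ℕ, Plane (boxP γ k0 k q r) (mm γ (hB k0 k q r) (hA k0 k q r)) t.1 t.2.1 t.2.2) →
      (∃ t : ℤ × ℤ × ℕ, Plane (boxP γ k0 l q' r') (mm γ (hB k0 l q' r') (hA k0 l q' r'))
        t.1 t.2.1 t.2.2) →
      al γ k0 k q r = al γ k0 l q' r' → be γ k0 k q r = be γ k0 l q' r' →
      tA k0 k q r = tA k0 l q' r' ∧ tB k0 k q r = tB k0 l q' r') := by
  have hm := nmn_self_mem (k0 := k0) hq hr he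
  have hm' := nmn_self_mem (k0 := k0) hq' hr' he'
  have hbox : boxP γ k0 l q' r' = Pset γ l (hB k0 k q r) (hA k0 k q r)
      (2 ^ Nat.log 2 (tA k0 k q r)) (2 ^ Nat.log 2 (tB k0 k q r)) := by
    unfold boxP
    rw [← h1, ← h2, ← h3, ← h4]
  have hbox0 : boxP γ k0 k q r = Pset γ k (hB k0 k q r) (hA k0 k q r)
      (2 ^ Nat.log 2 (tA k0 k q r)) (2 ^ Nat.log 2 (tB k0 k q r)) := rfl
  have hnest : boxP γ k0 k q r ⊆ boxP γ k0 l q' r' ∨ boxP γ k0 l q' r' ⊆ boxP γ k0 k q r := by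
    rw [hbox, hbox0]
    rcases le_total k l with h | h
    · exact Or.inr (nmn_anti γ _ _ _ _ h)
    · exact Or.inl (nmn_anti γ _ _ _ _ h)
  constructor
  · intro c1 c2
    have hxy : (tA k0 k q r, tB k0 k q r) = (tA k0 l q' r', tB k0 l q' r') := by
      rcases hnest with h | h
      · exact Finset.card_le_one.mp c2.le _ (h hm) _ hm'
      · exact Finset.card_le_one.mp c1.le _ hm _ (h hm')
    exact Prod.mk.inj hxy
  · intro c1 c2 p1 p2 ha hb
    have e1 := nmn_pl p1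
    have e2 := nmn_pl p2
    rw [← h1, ← h2] at e2
    have huniq : (pl γ k0 k q r).1 = (pl γ k0 l q' r').1 ∧
        (pl γ k0 k q r).2.1 = (pl γ k0 l q' r').2.1 ∧
        (pl γ k0 k q r).2.2 = (pl γ k0 l q' r').2.2 := by
      rcases hnest with h | h
      · exact nmn_unique e1 e2 (R := boxP γ k0 k q r) subset_rfl h (fun x hx => nmn_box_ok hx) c1
      · exact nmn_unique e1 e2 (R := boxP γ k0 l q' r') h subset_rfl (fun x hx => nmn_box_ok hx) c2
    obtain ⟨u1, u2, u3⟩ := huniq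
    obtain ⟨t1, t2⟩ := nmn_al hq hr he p1
    obtain ⟨t3, t4⟩ := nmn_al hq' hr' he' p2
    rw [t1, t2, t3, t4, ha, hb, u1, u2, u3]
    exact ⟨rfl, rfl⟩

/-- Section 9: all isolated edges and all planar edges which are killed at neither end, of all levels together. -/
theorem n_main (c0 : ℝ) (y0 : ℕ) : ∃ C : ℝ, 0 < C ∧ ∃ kk : ℕ, 1 ≤ kk ∧ ∀ k0 : ℕ, kk ≤ k0 → ∀ (γ : ℝ) (f : ℕ → ℝ) (S : Finset ℕ), Blk c0 f S →
    ∀ (X : Finset ℕ) (Ls : ℕ → Finset ℕ), Canon k0 f S X Ls → ∀ E : Finset (ℕ × ℕ × ℕ),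
    (∀ x ∈ E, SEdge γ k0 f S X Ls x.1 x.2.1 x.2.2 ∧ ¬ Generic γ k0 x.1 x.2.1 x.2.2 ∧
      ((boxP γ k0 x.1 x.2.1 x.2.2).card = 1 ∨
        (2 ≤ (boxP γ k0 x.1 x.2.1 x.2.2).card ∧ ¬ KillAt γ f y0 k0 x.1 x.2.1 x.2.2 ∧ ¬ KillAt γ f y0 k0 x.1 x.2.2 x.2.1))) →
    ∑ x ∈ E, ov f x.2.1 x.2.2 ≤ C := by
  classical
  obtain ⟨kk1, _, hpl⟩ := p_plane
  have hW : 0 ≤ ∑' t, Pool.Agent.Lib.H20G.n6w t :=
    tsum_nonneg fun t => Pool.Agent.Lib.H20G.n6w_nonneg t
  refine ⟨4 * (1 + 2 * ((y0 + 1 : ℕ) : ℝ) ^ 4) * Real.exp (8 * c0) *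
    (∑' t, Pool.Agent.Lib.H20G.n6w t) * 2 + 1, by positivity, max 2 kk1, by omega, ?_⟩
  intro k0 hk0 γ f S hBk X Ls hC E hE
  have hk02 : 2 ≤ k0 := le_trans (le_max_left _ _) hk0
  have hk01 : kk1 ≤ k0 := le_trans (le_max_right _ _) hk0
  set E' : Finset (ℕ × ℕ) := E.image (fun x => (x.2.1, x.2.2)) with hE'
  have hlev : ∀ e : ℕ × ℕ, ∃ k : ℕ, e ∈ E' → (k, e.1, e.2) ∈ E := by
    intro e
    by_cases h : e ∈ E'
    · obtain ⟨x, hx, hxe⟩ := Finset.mem_image.mp h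
      refine ⟨x.1, fun _ => ?_⟩
      rw [← hxe]
      exact hx
    · exact ⟨0, fun h' => absurd h' h⟩
  choose lev hlev using hlev
  have hinj : Set.InjOn (fun x : ℕ × ℕ × ℕ => (x.2.1, x.2.2)) (E : Set (ℕ × ℕ × ℕ)) := by
    rintro ⟨k, q, r⟩ hx ⟨l, q', r'⟩ hy hxy
    obtain ⟨h1, h2⟩ := Prod.mk.inj hxy
    simp only at h1 h2
    subst h1
    subst h2
    have := nmn_level (hE _ hx).1.2.1 (hE _ hy).1.2.1
    simp only at this
    rw [this]
  have hsum : ∑ x ∈ E, ov f x.2.1 x.2.2 = ∑ e ∈ E', ov f e.1 e.2 := by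
    rw [hE', Finset.sum_image hinj]
  rw [hsum]
  -- facts about the edges
  have hS : ∀ e ∈ E', SEdge γ k0 f S X Ls (lev e) e.1 e.2 := fun e he => (hE _ (hlev e he)).1
  have hq : ∀ e ∈ E', 0 < e.1 := fun e he => hBk.pos _ (hS e he).2.1.1
  have hr : ∀ e ∈ E', 0 < e.2 := fun e he => hBk.pos _ (hS e he).2.1.2.1
  have hplane : ∀ e ∈ E', ¬ (boxP γ k0 (lev e) e.1 e.2).card = 1 →
      2 ≤ (boxP γ k0 (lev e) e.1 e.2).card ∧
      (∃ t : ℤ × ℤ × ℕ, Plane (boxP γ k0 (lev e) e.1 e.2)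
        (mm γ (hB k0 (lev e) e.1 e.2) (hA k0 (lev e) e.1 e.2)) t.1 t.2.1 t.2.2) ∧
      ¬ KillAt γ f y0 k0 (lev e) e.1 e.2 ∧ ¬ KillAt γ f y0 k0 (lev e) e.2 e.1 := by
    intro e he hni
    obtain ⟨h1, h2, h3⟩ := hE _ (hlev e he)
    rcases h3 with h3 | ⟨h3, h4, h5⟩
    · exact absurd h3 hni
    · refine ⟨h3, ?_, h4, h5⟩
      refine hpl γ (lev e) _ _ _ _ (hk01.trans h1.1) (by positivity) (by positivity) h3 ?_
      unfold Generic at h2
      push Not at h2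
      push_cast
      exact h2
  have hyp : Pool.Agent.Lib.H20G.N9Hyp (y0 + 1) c0 S f (rc f) E'
      (fun e => hB k0 (lev e) e.1 e.2) (fun e => hA k0 (lev e) e.1 e.2)
      (fun e => tA k0 (lev e) e.1 e.2) (fun e => tB k0 (lev e) e.1 e.2)
      (fun e => al γ k0 (lev e) e.1 e.2) (fun e => be γ k0 (lev e) e.1 e.2)
      (fun e => (boxP γ k0 (lev e) e.1 e.2).card = 1) := by
    constructor
    · omega
    · intro q hq'; exact (hBk.pos q hq').ne'
    · intro q hq'; exact (hBk.fpos q hq').le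
    · intro q hq'; exact hBk.rp_le q hq'
    · intro q hq'; exact (nmn_rc (nmn_rho hBk hq').1 (nmn_rho hBk hq').2).1
    · intro q hq'; exact (nmn_rc (nmn_rho hBk hq').1 (nmn_rho hBk hq').2).2
    · intro e he; exact (hS e he).2.1.1
    · intro e he; exact (hS e he).2.1.2.1
    · intro e he
      rw [nmn_aa_eq (hq e he)]
      unfold aa
      exact (Nat.mul_div_cancel' (Nat.gcd_dvd_left _ _)).symm
    · intro e he
      rw [nmn_bb_eq (hr e he)]
      unfold bb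
      exact (Nat.mul_div_cancel' (Nat.gcd_dvd_right _ _)).symm
    · -- chain
      intro e he g hg heg hc
      have h1 := hS e he
      have h2 := hS g hg
      rw [← heg] at h2
      have hc' : (hB k0 (lev e) e.1 e.2).primeFactors.card =
          (hB k0 (lev g) e.1 g.2).primeFactors.card := by
        rw [heg]; rw [heg] at hc; exact hc
      have := nmn_chain hBk hC h1 h2 hc'
      show hB k0 (lev e) e.1 e.2 = hB k0 (lev g) g.1 g.2
      rw [this, heg]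
    · -- chain'
      intro e he g hg heg hc
      have h1 := nmn_sedge_symm (hS e he)
      have h2 := nmn_sedge_symm (hS g hg)
      rw [← heg] at h2
      have hc' : (hB k0 (lev e) e.2 e.1).primeFactors.card =
          (hB k0 (lev g) e.2 g.1).primeFactors.card := by
        rw [nmn_hB k0 (lev e) e.1 e.2, heg, nmn_hB k0 (lev g) g.1 g.2, ← heg]
        rw [← heg] at hc
        exact hc
      have h3 := nmn_chain hBk hC h1 h2 hc'
      show hA k0 (lev e) e.1 e.2 = hA k0 (lev g) g.1 g.2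
      rw [← nmn_hB k0 (lev e) e.1 e.2, ← nmn_hB k0 (lev g) g.1 g.2, h3, heg]
    · -- isolated
      intro e he g hg hi hi' h1 h2 h3 h4
      exact (nmn_two (hq e he) (hr e he) (hq g hg) (hr g hg) (hS e he).2.1 (hS g hg).2.1
        h1 h2 h3 h4).1 hi hi'
    · -- planar
      intro e he g hg hi hi' h1 h2 h3 h4 h5 h6
      obtain ⟨c1, p1, _⟩ := hplane e he hi
      obtain ⟨c2, p2, _⟩ := hplane g hg hi'
      exact (nmn_two (hq e he) (hr e he) (hq g hg) (hr g hg) (hS e he).2.1 (hS g hg).2.1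
        h1 h2 h3 h4).2 c1 c2 p1 p2 h5 h6
    · -- al_pos
      intro e he hi
      obtain ⟨_, p1, _⟩ := hplane e he hi
      have h1 := (nmn_al (hq e he) (hr e he) (hS e he).2.1 p1).1
      have h2 := nmn_tA_pos k0 (lev e) e.1 e.2
      rw [h1] at h2
      exact Nat.pos_of_mul_pos_right h2
    · intro e he hi
      obtain ⟨_, p1, _⟩ := hplane e he hi
      have h1 := (nmn_al (hq e he) (hr e he) (hS e he).2.1 p1).2
      have h2 := nmn_tB_pos k0 (lev e) e.1 e.2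
      rw [h1] at h2
      exact Nat.pos_of_mul_pos_right h2
    · -- al_surv
      intro e he hi
      obtain ⟨c1, p1, hk1, hk2⟩ := hplane e he hi
      unfold KillAt at hk1
      push Not at hk1
      have h1 : max (rc f e.1) (rc f e.2) - min (rc f e.1) (rc f e.2) =
          ((rc f e.2 : ℤ) - rc f e.1).natAbs := by omega
      rw [h1] at hk1
      by_cases h2 : al γ k0 (lev e) e.1 e.2 ≤ y0
      · exact Or.inl (by omega)
      · push Not at h2
        by_cases h3 : tB k0 (lev e) e.1 e.2 ≤ al γ k0 (lev e) e.1 e.2 ^ 16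
        · exact Or.inr (Or.inr (hk1.2 h2 h3).le)
        · push Not at h3
          exact Or.inr (Or.inl h3.le)
    · -- be_surv
      intro e he hi
      obtain ⟨c1, p1, hk1, hk2⟩ := hplane e he hi
      unfold KillAt at hk2
      push Not at hk2
      have hsw : al γ k0 (lev e) e.2 e.1 = be γ k0 (lev e) e.1 e.2 :=
        nmn_swap (hk02.trans (hS e he).1) p1 c1
      have h1 : max (rc f e.2) (rc f e.1) - min (rc f e.2) (rc f e.1) =
          ((rc f e.2 : ℤ) - rc f e.1).natAbs := by omega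
      rw [h1, hsw, nmn_tB k0 (lev e) e.1 e.2] at hk2
      by_cases h2 : be γ k0 (lev e) e.1 e.2 ≤ y0
      · exact Or.inl (by omega)
      · push Not at h2
        by_cases h3 : tA k0 (lev e) e.1 e.2 ≤ be γ k0 (lev e) e.1 e.2 ^ 16
        · exact Or.inr (Or.inr (hk2.2 h2 h3).le)
        · push Not at h3
          exact Or.inr (Or.inl h3.le)
  have hfin := Pool.Agent.Lib.H20G.N9_count (y0 + 1) c0 S f (rc f) E' _ _ _ _ _ _ _ hyp
  have h1 : ∑ e ∈ E', ov f e.1 e.2 =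
      ∑ e ∈ E', 2 * (Nat.gcd e.1 e.2 : ℝ) * min (f e.1 / e.1) (f e.2 / e.2) := rfl
  rw [h1]
  refine hfin.trans ?_
  have h2 := hBk.sum_le
  have h3 : 0 ≤ 4 * (1 + 2 * ((y0 + 1 : ℕ) : ℝ) ^ 4) * Real.exp (8 * c0) *
    (∑' t, Pool.Agent.Lib.H20G.n6w t) := by positivity
  nlinarith [mul_le_mul_of_nonneg_left h2 h3]

end Pool.Agent.H20G
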