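import Mathlib
import Pool.Agent.Lib.H20G.Defs
import Pool.Agent.Lib.H20G.D1

set_option autoImplicit false

/-!
# H20G chunk D3: Lemma D
-/

namespace Pool.Agent.H20G

open Finset

theorem d3_rp_mul {m n : ℕ} (hmn : Nat.Coprime m n) : rp (m * n) = rp m + rp n := by
  unfold rp
  rw [hmn.primeFactors_mul, Finset.sum_union hmn.disjoint_primeFactors]

theorem d3_rp_pow {p : ℕ} (hp : p.Prime) (k : ℕ) : rp (p ^ k) = if k = 0 then 0 else 1 / (p : ℝ) := by
  unfold rp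
  by_cases hk : k = 0
  · simp [hk]
  · rw [if_neg hk, Nat.primeFactors_prime_pow hk hp, Finset.sum_singleton]

theorem d3_sq_aux (N : ℕ) : ∑ n ∈ Ico 2 (N + 2), 1 / (n : ℝ) ^ 2 ≤ 1 - 1 / ((N : ℝ) + 1) := by
  induction N with
  | zero => simp
  | succ N ih =>
    rw [Finset.sum_Ico_succ_top (by omega)]
    have h1 : 1 / (((N + 2 : ℕ) : ℝ)) ^ 2 ≤ 1 / ((N : ℝ) + 1) - 1 / ((N : ℝ) + 1 + 1) := by
      rw [div_sub_div _ _ (by positivity) (by positivity), div_le_div_iff₀ (by positivity) (by positivity)]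
      push_cast
      nlinarith [(Nat.cast_nonneg N : (0 : ℝ) ≤ N)]
    push_cast at h1 ⊢
    linarith

/-- `∑ 1/p² ≤ 1` over distinct numbers `p ≥ 2` -/
theorem d3_sq (s : Finset ℕ) (hs : ∀ p ∈ s, 2 ≤ p) : ∑ p ∈ s, 1 / (p : ℝ) ^ 2 ≤ 1 := by
  have hsub : s ⊆ Ico 2 (s.sup id + 2) := by
    intro p hp
    rw [mem_Ico]
    have := Finset.le_sup (f := id) hp
    simp only [id] at this
    exact ⟨hs p hp, by omega⟩
  have h1 : ∑ p ∈ s, 1 / (p : ℝ) ^ 2 ≤ ∑ n ∈ Ico 2 (s.sup id + 2), 1 / (n : ℝ) ^ 2 :=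
    Finset.sum_le_sum_of_subset_of_nonneg hsub fun n _ _ => by positivity
  have h2 := d3_sq_aux (s.sup id)
  have h3 : 0 ≤ 1 / (((s.sup id : ℕ) : ℝ) + 1) := by positivity
  linarith

theorem d3_geo (p : ℝ) (e : ℕ) : (p - 1) * ∑ k ∈ Ico 1 (e + 1), p ^ k = p * (p ^ e - 1) := by
  induction e with
  | zero => simp
  | succ e ih =>
    rw [Finset.sum_Ico_succ_top (by omega), mul_add, ih]
    ring

/-- `1/(1 - u) ≤ (1 + u²) exp u` for `0 ≤ u ≤ 1/2` -/
theorem d3_u (u : ℝ) (h0 : 0 ≤ u) (h1 : u ≤ 1 / 2) : 1 ≤ (1 - u) * ((1 + u ^ 2) * Real.exp u) := by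
  have h2 := Real.quadratic_le_exp_of_nonneg h0
  have h3 : 1 ≤ (1 - u) * ((1 + u ^ 2) * (1 + u + u ^ 2 / 2)) := by
    have h4 : (1 - u) * ((1 + u ^ 2) * (1 + u + u ^ 2 / 2)) = 1 + u ^ 2 / 2 * (1 - u - u ^ 2 - u ^ 3) := by ring
    rw [h4]
    have h5 : u ^ 2 ≤ 1 / 4 := by nlinarith
    have h6 : u ^ 3 ≤ 1 / 8 := by
      have : u ^ 3 = u ^ 2 * u := by ring
      rw [this]
      nlinarith
    have h7 : 0 ≤ u ^ 2 / 2 * (1 - u - u ^ 2 - u ^ 3) := mul_nonneg (by positivity) (by linarith)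
    linarith
  refine h3.trans ?_
  refine mul_le_mul_of_nonneg_left ?_ (by linarith)
  exact mul_le_mul_of_nonneg_left h2 (by positivity)

/-- the local factor -/
theorem d3_local (p : ℕ) (hp : p.Prime) (κ : ℝ) (hκ : 1 ≤ κ) (e : ℕ) :
    ∑ k ∈ range (e + 1), (p : ℝ) ^ k * (if k = 0 then 1 else Real.exp (-(κ / p))) ≤
      (p : ℝ) ^ e * (1 + 1 / (p : ℝ) ^ 2) := by
  have hp2 : (2 : ℝ) ≤ p := by exact_mod_cast hp.two_le
  have hp0 : (0 : ℝ) < p := by linarith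
  set u : ℝ := 1 / p with hu
  have hu0 : 0 ≤ u := by positivity
  have hu1 : u ≤ 1 / 2 := one_div_le_one_div_of_le (by norm_num) hp2
  have hup : u * p = 1 := by rw [hu]; field_simp
  have h1 : ∑ k ∈ range (e + 1), (p : ℝ) ^ k * (if k = 0 then 1 else Real.exp (-(κ / p))) =
      1 + Real.exp (-(κ / p)) * ∑ k ∈ Ico 1 (e + 1), (p : ℝ) ^ k := by
    rw [Finset.range_eq_Ico, Finset.sum_eq_sum_Ico_succ_bot (by omega), Finset.mul_sum]
    congr 1
    · simp
    · refine Finset.sum_congr (by simp) fun k hk => ?_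
      rw [mem_Ico] at hk
      rw [if_neg (by omega), mul_comm]
  rw [h1]
  set S := ∑ k ∈ Ico 1 (e + 1), (p : ℝ) ^ k with hS
  have hgeo : (p - 1) * S = p * ((p : ℝ) ^ e - 1) := d3_geo p e
  have hS0 : 0 ≤ S := Finset.sum_nonneg fun k _ => by positivity
  have hpe : 1 ≤ (p : ℝ) ^ e := one_le_pow₀ (by linarith)
  have hexp : Real.exp (-(κ / p)) ≤ Real.exp (-u) := by
    apply Real.exp_le_exp.2
    have : u ≤ κ / p := by
      rw [hu]
      exact div_le_div_of_nonneg_right hκ hp0.le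
    linarith
  have h2 : Real.exp (-(κ / p)) * S ≤ Real.exp (-u) * S := mul_le_mul_of_nonneg_right hexp hS0
  -- `exp (-u) * S ≤ (1 + u²)(p^e - 1)`
  have h3 : Real.exp (-u) * S ≤ (1 + u ^ 2) * ((p : ℝ) ^ e - 1) := by
    have h4 := d3_u u hu0 hu1
    have h5 : Real.exp (-u) * Real.exp u = 1 := by rw [← Real.exp_add]; simp
    have h6 : Real.exp (-u) ≤ (1 - u) * (1 + u ^ 2) := by
      have h7 := mul_le_mul_of_nonneg_left h4 (Real.exp_pos (-u)).le
      calc Real.exp (-u) = Real.exp (-u) * 1 := by ring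
        _ ≤ Real.exp (-u) * ((1 - u) * ((1 + u ^ 2) * Real.exp u)) := h7
        _ = (1 - u) * (1 + u ^ 2) * (Real.exp (-u) * Real.exp u) := by ring
        _ = (1 - u) * (1 + u ^ 2) := by rw [h5, mul_one]
    have h8 : (1 - u) * S = (p : ℝ) ^ e - 1 := by
      have h9 : p * ((1 - u) * S) = p * ((p : ℝ) ^ e - 1) := by
        rw [← hgeo]
        have : p * ((1 - u) * S) = (p - u * p) * S := by ring
        rw [this, hup]
      exact mul_left_cancel₀ hp0.ne' h9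
    calc Real.exp (-u) * S ≤ (1 - u) * (1 + u ^ 2) * S := mul_le_mul_of_nonneg_right h6 hS0
      _ = (1 + u ^ 2) * ((1 - u) * S) := by ring
      _ = (1 + u ^ 2) * ((p : ℝ) ^ e - 1) := by rw [h8]
  have h10 : 1 / (p : ℝ) ^ 2 = u ^ 2 := by rw [hu, one_div_pow]
  rw [h10]
  have h11 : 0 ≤ u ^ 2 := by positivity
  nlinarith

/-- Lemma D: the divisors `v` of `M` with `rp(v) ≤ c0` have sum at most `exp(c0 + 1) M`.
PROOF. For such `v`, `v ≤ v exp(c0 - rp v)`. Drop the condition: `∑_{v ∣ M} v exp(-rp v)` is multiplicative (`d1_sum` with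
`f v = v exp(-rp v)`; `rp` is additive on coprime arguments, `rp (p^k) = 1/p` for `k ≥ 1`). Local factor divided by `p^e`, `e = v_p(M) ≥ 1`:
`p^{-e} (1 + exp(-1/p) ∑_{k=1}^e p^k) = t + x (1 - t)` with `t = p^{-e} ∈ [0,1]`, `x = exp(-1/p) p/(p-1)`, which is at most `max(1, x)`, and
`exp(-1/p) ≤ 1 - 1/p + 1/(2p²)` (`Real` bounds; or `exp(1/p) ≥ 1 + 1/p + 1/(2 p²)`, enough: `x ≤ (p/(p-1)) / (1+1/p+1/(2p²))`) gives
`x ≤ 1 + 1/p²`. So the product is `≤ M ∏ (1 + 1/p²) ≤ M exp(∑_{p ∣ M} 1/p²) ≤ M exp(1)`, since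
`∑_{n=2}^{m} 1/n² ≤ 1` (telescoping `1/n² ≤ 1/(n-1) - 1/n`). -/
theorem d3_lemD (c0 : ℝ) (M : ℕ) (hM : 0 < M) :
    ∑ v ∈ M.divisors.filter (fun v => rp v ≤ c0), (v : ℝ) ≤ Real.exp (c0 + 1) * M := by
  have hmul : ∀ m n : ℕ, Nat.Coprime m n → ((m * n : ℕ) : ℝ) * Real.exp (-rp (m * n)) =
      ((m : ℝ) * Real.exp (-rp m)) * ((n : ℝ) * Real.exp (-rp n)) := by
    intro m n hmn
    rw [d3_rp_mul hmn, neg_add, Real.exp_add]
    push_cast
    ring
  have hsum := d1_sum (fun v : ℕ => (v : ℝ) * Real.exp (-rp v)) (by simp [rp]) hmul M hM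
  have h1 : ∑ v ∈ M.divisors.filter (fun v => rp v ≤ c0), (v : ℝ) ≤
      ∑ v ∈ M.divisors, Real.exp c0 * ((v : ℝ) * Real.exp (-rp v)) := by
    refine le_trans (Finset.sum_le_sum (g := fun v : ℕ => Real.exp c0 * ((v : ℝ) * Real.exp (-rp v))) fun v hv => ?_)
      (Finset.sum_le_sum_of_subset_of_nonneg (Finset.filter_subset _ _) fun v _ _ => by positivity)
    rw [mem_filter] at hv
    have h2 : 1 ≤ Real.exp c0 * Real.exp (-rp v) := by
      rw [← Real.exp_add]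
      exact Real.one_le_exp (by linarith [hv.2])
    have h3 : (0 : ℝ) ≤ v := Nat.cast_nonneg v
    nlinarith
  have h2 : ∀ p ∈ M.primeFactors, ∑ k ∈ range (M.factorization p + 1), (((p ^ k : ℕ) : ℝ) * Real.exp (-rp (p ^ k))) ≤
      ((p ^ M.factorization p : ℕ) : ℝ) * Real.exp (1 / (p : ℝ) ^ 2) := by
    intro p hp
    have hp1 := Nat.prime_of_mem_primeFactors hp
    have h3 := d3_local p hp1 1 le_rfl (M.factorization p)
    refine le_trans (le_of_eq ?_) (h3.trans ?_)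
    · refine Finset.sum_congr rfl fun k _ => ?_
      rw [d3_rp_pow hp1]
      by_cases hk : k = 0
      · simp [hk]
      · rw [if_neg hk, if_neg hk]
        push_cast
        ring_nf
    · push_cast
      refine mul_le_mul_of_nonneg_left ?_ (by positivity)
      have := Real.add_one_le_exp (1 / (p : ℝ) ^ 2)
      linarith
  have h3 : ∏ p ∈ M.primeFactors, ∑ k ∈ range (M.factorization p + 1), (((p ^ k : ℕ) : ℝ) * Real.exp (-rp (p ^ k))) ≤
      M * Real.exp 1 := by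
    calc ∏ p ∈ M.primeFactors, ∑ k ∈ range (M.factorization p + 1), (((p ^ k : ℕ) : ℝ) * Real.exp (-rp (p ^ k)))
        ≤ ∏ p ∈ M.primeFactors, (((p ^ M.factorization p : ℕ) : ℝ) * Real.exp (1 / (p : ℝ) ^ 2)) :=
          Finset.prod_le_prod (fun p _ => Finset.sum_nonneg fun k _ => by positivity) h2
      _ = (∏ p ∈ M.primeFactors, ((p ^ M.factorization p : ℕ) : ℝ)) * Real.exp (∑ p ∈ M.primeFactors, 1 / (p : ℝ) ^ 2) := by
          rw [Finset.prod_mul_distrib, Real.exp_sum]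
      _ = M * Real.exp (∑ p ∈ M.primeFactors, 1 / (p : ℝ) ^ 2) := by
          rw [← Nat.cast_prod]
          congr 2
          exact Nat.prod_factorization_pow_eq_self hM.ne'
      _ ≤ M * Real.exp 1 := by
          refine mul_le_mul_of_nonneg_left ?_ (by positivity)
          apply Real.exp_le_exp.2
          exact d3_sq _ fun p hp => (Nat.prime_of_mem_primeFactors hp).two_le
  rw [← Finset.mul_sum, hsum] at h1
  refine h1.trans ?_
  rw [Real.exp_add, mul_assoc]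
  refine mul_le_mul_of_nonneg_left ?_ (Real.exp_pos _).le
  rw [mul_comm (Real.exp 1)]
  exact h3

end Pool.Agent.H20G
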