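import Mathlib
import Pool.Agent.Lib.H20G.Defs
import Pool.Agent.Lib.H20G.D1
import Pool.Agent.Lib.H20G.D3
import Pool.Agent.Lib.H20G.D5

set_option autoImplicit false

/-!
# H20G chunk D4: Lemma D prime (Rankin)
-/

namespace Pool.Agent.H20G

open Finset

/-- the weights -/
noncomputable def d4_w (T M v : ℕ) : ℝ :=
  v * Real.exp (-(Real.exp 1 * rp v)) * (smo T (M / v) : ℝ) ^ (1 / Real.log T)

theorem d4_w_nonneg (T M v : ℕ) : 0 ≤ d4_w T M v := by
  unfold d4_w
  positivity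

theorem d4_log16 (T : ℕ) (hT : 16 ≤ T) : 2 ≤ Real.log T := by
  have hT1 : (16 : ℝ) ≤ T := by exact_mod_cast hT
  rw [Real.le_log_iff_exp_le (by linarith)]
  have h1 : Real.exp 2 = Real.exp 1 * Real.exp 1 := by
    rw [← Real.exp_add]
    norm_num
  have h2 := Real.exp_one_lt_d9
  have h3 := Real.exp_pos 1
  rw [h1]
  nlinarith

theorem d4_smo_mul (T m n : ℕ) (hm : 0 < m) (hn : 0 < n) : smo T (m * n) = smo T m * smo T n := by
  refine Nat.eq_of_factorization_eq (d5_pos T _).1.ne' (Nat.mul_ne_zero (d5_pos T m).1.ne' (d5_pos T n).1.ne') fun p => ?_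
  rw [Nat.factorization_mul (d5_pos T m).1.ne' (d5_pos T n).1.ne', Finsupp.add_apply, d5_fact_smo, d5_fact_smo,
    d5_fact_smo, Nat.factorization_mul hm.ne' hn.ne', Finsupp.add_apply]
  split_ifs <;> omega

theorem d4_smo_pow (T p k : ℕ) (hp : p.Prime) : smo T (p ^ k) = if p ≤ T then p ^ k else 1 := by
  unfold smo
  by_cases hk : k = 0
  · subst hk
    simp
  · rw [Nat.primeFactors_prime_pow hk hp]
    by_cases h : p ≤ T
    · rw [if_pos h, Finset.filter_true_of_mem (by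
        intro q hq
        rw [mem_singleton] at hq
        rw [hq]
        exact h), Finset.prod_singleton, hp.factorization_pow, Finsupp.single_eq_same]
    · rw [if_neg h, Finset.filter_false_of_mem (by
        intro q hq
        rw [mem_singleton] at hq
        rw [hq]
        exact h), Finset.prod_empty]

theorem d4_mul {a b : ℕ} (T : ℕ) (ha : 0 < a) (hb : 0 < b) (hab : Nat.Coprime a b) :
    ∑ v ∈ (a * b).divisors, d4_w T (a * b) v = (∑ v ∈ a.divisors, d4_w T a v) * ∑ v ∈ b.divisors, d4_w T b v := by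
  rw [d1_csum hab, Finset.sum_mul_sum]
  refine Finset.sum_congr rfl fun x hx => Finset.sum_congr rfl fun y hy => ?_
  have hx1 := Nat.dvd_of_mem_divisors hx
  have hy1 := Nat.dvd_of_mem_divisors hy
  have hxy : Nat.Coprime x y := Nat.Coprime.coprime_dvd_left hx1 (Nat.Coprime.coprime_dvd_right hy1 hab)
  have hdiv : a * b / (x * y) = (a / x) * (b / y) := (Nat.div_mul_div_comm hx1 hy1).symm
  have hax : 0 < a / x := Nat.div_pos (Nat.le_of_dvd ha hx1) (Nat.pos_of_dvd_of_pos hx1 ha)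
  have hby : 0 < b / y := Nat.div_pos (Nat.le_of_dvd hb hy1) (Nat.pos_of_dvd_of_pos hy1 hb)
  unfold d4_w
  rw [hdiv, d4_smo_mul T _ _ hax hby, d3_rp_mul hxy]
  push_cast
  rw [Real.mul_rpow (Nat.cast_nonneg _) (Nat.cast_nonneg _), mul_add, neg_add, Real.exp_add]
  ring

theorem d4_expneg (a : ℝ) (h0 : 0 ≤ a) : Real.exp (-a) ≤ 1 - a + a ^ 2 / 2 := by
  have h1 := Real.quadratic_le_exp_of_nonneg h0
  have h2 : Real.exp (-a) * Real.exp a = 1 := by rw [← Real.exp_add]; simp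
  have h3 : 0 < Real.exp (-a) := Real.exp_pos _
  have h4 : Real.exp (-a) * (1 + a + a ^ 2 / 2) ≤ 1 := by
    calc Real.exp (-a) * (1 + a + a ^ 2 / 2) ≤ Real.exp (-a) * Real.exp a := mul_le_mul_of_nonneg_left h1 h3.le
      _ = 1 := h2
  have h5 : 0 ≤ 1 - a + a ^ 2 / 2 := by nlinarith [sq_nonneg (a - 1)]
  have h6 : (1 + a + a ^ 2 / 2) * (1 - a + a ^ 2 / 2) = 1 + a ^ 4 / 4 := by ring
  have h7 : 0 < 1 + a + a ^ 2 / 2 := by positivity
  by_contra hlt
  rw [not_le] at hlt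
  have h8 := mul_lt_mul_of_pos_right hlt h7
  have h9 : 0 ≤ a ^ 4 := by positivity
  nlinarith

theorem d4_geo1 (y : ℝ) (h0 : 0 ≤ y) (h1 : y < 1) (e : ℕ) : ∑ i ∈ range e, y ^ i ≤ 1 / (1 - y) := by
  have h2 : (∑ i ∈ range e, y ^ i) * (1 - y) = 1 - y ^ e := by
    have := geom_sum_mul y e
    linarith
  rw [le_div_iff₀ (by linarith), h2]
  have : 0 ≤ y ^ e := by positivity
  linarith

/-- the local factor for small primes -/
theorem d4_small (p : ℕ) (hp : p.Prime) (y : ℝ) (hy0 : 0 ≤ y) (hy1 : y ≤ 3 / p) (hy2 : y ^ 2 ≤ 1 / 2)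
    (hy3 : y ≤ Real.exp 1 / p) (e : ℕ) :
    ∑ i ∈ range (e + 1), y ^ i * (if i = e then 1 else Real.exp (-(Real.exp 1 / p))) ≤ Real.exp (40 / (p : ℝ) ^ 2) := by
  have hp2 : (2 : ℝ) ≤ p := by exact_mod_cast hp.two_le
  have hp0 : (0 : ℝ) < p := by linarith
  have hy : y ≤ 71 / 100 := by
    by_contra hlt
    rw [not_le] at hlt
    nlinarith
  have hsum : ∑ i ∈ range (e + 1), y ^ i * (if i = e then 1 else Real.exp (-(Real.exp 1 / p))) =
      Real.exp (-(Real.exp 1 / p)) * (∑ i ∈ range e, y ^ i) + y ^ e := by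
    rw [Finset.sum_range_succ, if_pos rfl, mul_one, Finset.mul_sum]
    congr 1
    refine Finset.sum_congr rfl fun i hi => ?_
    rw [mem_range] at hi
    rw [if_neg (by omega), mul_comm]
  rw [hsum]
  by_cases h5 : p ≤ 5
  · have hp5 : (p : ℝ) ≤ 5 := by exact_mod_cast h5
    have h6 : Real.exp (-(Real.exp 1 / p)) ≤ 1 := by
      rw [Real.exp_le_one_iff]
      have : 0 ≤ Real.exp 1 / p := by positivity
      linarith
    have h7 : 0 ≤ ∑ i ∈ range e, y ^ i := Finset.sum_nonneg fun i _ => by positivity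
    have h8 : Real.exp (-(Real.exp 1 / p)) * (∑ i ∈ range e, y ^ i) + y ^ e ≤ ∑ i ∈ range (e + 1), y ^ i := by
      rw [Finset.sum_range_succ]
      nlinarith
    have h9 := d4_geo1 y hy0 (by linarith) (e + 1)
    have h10 : 1 / (1 - y) ≤ 100 / 29 := by
      rw [div_le_div_iff₀ (by linarith) (by norm_num)]
      linarith
    have h11 : (8 / 5 : ℝ) ≤ 40 / (p : ℝ) ^ 2 := by
      rw [le_div_iff₀ (by positivity)]
      nlinarith
    have h12 := Real.quadratic_le_exp_of_nonneg (x := 40 / (p : ℝ) ^ 2) (by positivity)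
    have h13 : (64 / 25 : ℝ) ≤ (40 / (p : ℝ) ^ 2) ^ 2 := by
      calc (64 / 25 : ℝ) = (8 / 5) ^ 2 := by norm_num
        _ ≤ (40 / (p : ℝ) ^ 2) ^ 2 := pow_le_pow_left₀ (by norm_num) h11 2
    linarith
  · have hp6 : (6 : ℝ) ≤ p := by
      have : 6 ≤ p := by omega
      exact_mod_cast this
    set a : ℝ := Real.exp 1 / p with ha
    have he1 := Real.exp_one_lt_d9
    have he0 := Real.exp_pos 1
    have ha0 : 0 ≤ a := by positivity
    have hap : a * p = Real.exp 1 := by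
      rw [ha]
      field_simp
    have ha1 : a ≤ 1 / 2 := by
      rw [ha, div_le_iff₀ hp0]
      linarith
    have hgeo := d4_geo1 y hy0 (by linarith) e
    have h2 : (∑ i ∈ range e, y ^ i) * (1 - y) = 1 - y ^ e := by
      have := geom_sum_mul y e
      linarith
    set R : ℝ := ∑ i ∈ range e, y ^ i with hR
    have hR0 : 0 ≤ R := Finset.sum_nonneg fun i _ => by positivity
    have hye0 : 0 ≤ y ^ e := by positivity
    have hye1 : y ^ e ≤ 1 := pow_le_one₀ hy0 (by linarith)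
    have hexp := d4_expneg a ha0
    have hE1 : 1 + 40 / (p : ℝ) ^ 2 ≤ Real.exp (40 / (p : ℝ) ^ 2) := by
      have := Real.add_one_le_exp (40 / (p : ℝ) ^ 2)
      linarith
    have hq : 4 * a ^ 2 ≤ 40 / (p : ℝ) ^ 2 := by
      rw [le_div_iff₀ (by positivity)]
      have : 4 * a ^ 2 * (p : ℝ) ^ 2 = 4 * (a * p) ^ 2 := by ring
      rw [this, hap]
      nlinarith
    set X : ℝ := Real.exp (40 / (p : ℝ) ^ 2) with hX
    have hX1 : 1 + 4 * a ^ 2 ≤ X := by linarith
    -- `exp (-a) ≤ (1 - a) X`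
    have hkey : Real.exp (-a) ≤ (1 - a) * X := by
      have h3 : (1 - a) * (1 + 4 * a ^ 2) ≤ (1 - a) * X := mul_le_mul_of_nonneg_left hX1 (by linarith)
      have h4 : 0 ≤ a ^ 2 * (7 / 2 - 4 * a) := mul_nonneg (by positivity) (by linarith)
      nlinarith
    have hkey2 : Real.exp (-a) ≤ (1 - y) * X := by
      refine hkey.trans (mul_le_mul_of_nonneg_right (by linarith) (Real.exp_pos _).le)
    have h5 : Real.exp (-a) * R ≤ X * (1 - y ^ e) := by
      calc Real.exp (-a) * R ≤ (1 - y) * X * R := mul_le_mul_of_nonneg_right hkey2 hR0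
        _ = X * (R * (1 - y)) := by ring
        _ = X * (1 - y ^ e) := by rw [h2]
    have hX2 : 1 ≤ X := by nlinarith [sq_nonneg a]
    nlinarith

theorem d4_pp (T : ℕ) (hT : 16 ≤ T) (p e : ℕ) (hp : p.Prime) :
    ∑ v ∈ (p ^ e).divisors, d4_w T (p ^ e) v ≤ ((p ^ e : ℕ) : ℝ) * Real.exp (40 * (1 / (p : ℝ) ^ 2)) := by
  have hp2 : (2 : ℝ) ≤ p := by exact_mod_cast hp.two_le
  have hp0 : (0 : ℝ) < p := by linarith
  have hκ1 : 1 ≤ Real.exp 1 := Real.one_le_exp (by norm_num)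
  rw [Nat.sum_divisors_prime_pow hp]
  have hdiv : ∀ k ∈ range (e + 1), p ^ e / p ^ k = p ^ (e - k) := by
    intro k hk
    rw [mem_range] at hk
    exact Nat.pow_div (by omega) hp.pos
  have hrp : ∀ k, Real.exp (-(Real.exp 1 * rp (p ^ k))) = if k = 0 then 1 else Real.exp (-(Real.exp 1 / p)) := by
    intro k
    rw [d3_rp_pow hp]
    by_cases hk : k = 0
    · simp [hk]
    · rw [if_neg hk, if_neg hk]
      congr 2
      ring
  by_cases hpT : p ≤ T
  · have hlogT := d4_log16 T hT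
    set δ : ℝ := 1 / Real.log T with hδ
    have hδ0 : 0 < δ := by positivity
    have hδ1 : δ ≤ 1 / 2 := by
      rw [hδ]
      exact one_div_le_one_div_of_le (by norm_num) hlogT
    set y : ℝ := (p : ℝ) ^ δ / p with hy
    have hpδ0 : 0 < (p : ℝ) ^ δ := Real.rpow_pos_of_pos hp0 δ
    have hy0 : 0 ≤ y := by positivity
    have hpδ : (p : ℝ) ^ δ ≤ Real.exp 1 := by
      rw [Real.rpow_def_of_pos hp0]
      apply Real.exp_le_exp.2
      rw [hδ, mul_one_div, div_le_one (by linarith)]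
      apply Real.log_le_log hp0
      exact_mod_cast hpT
    have hy3 : y ≤ Real.exp 1 / p := div_le_div_of_nonneg_right hpδ hp0.le
    have hy1 : y ≤ 3 / p := by
      refine hy3.trans (div_le_div_of_nonneg_right ?_ hp0.le)
      have := Real.exp_one_lt_d9
      linarith
    have hy2 : y ^ 2 ≤ 1 / 2 := by
      have h1 : ((p : ℝ) ^ δ) ^ 2 ≤ p := by
        rw [← Real.rpow_natCast, ← Real.rpow_mul hp0.le]
        calc (p : ℝ) ^ (δ * ((2 : ℕ) : ℝ)) ≤ (p : ℝ) ^ (1 : ℝ) := by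
              apply Real.rpow_le_rpow_of_exponent_le (by linarith)
              push_cast
              linarith
          _ = p := Real.rpow_one _
      rw [hy, div_pow, div_le_div_iff₀ (by positivity) (by norm_num)]
      nlinarith
    have hloc := d4_small p hp y hy0 hy1 hy2 hy3 e
    have hre : ∑ k ∈ range (e + 1), d4_w T (p ^ e) (p ^ k) =
        (p : ℝ) ^ e * ∑ i ∈ range (e + 1), y ^ i * (if i = e then 1 else Real.exp (-(Real.exp 1 / p))) := by
      rw [← Finset.sum_range_reflect, Finset.mul_sum]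
      refine Finset.sum_congr rfl fun i hi => ?_
      have hi' : i ≤ e := by
        rw [mem_range] at hi
        omega
      have e1 : e + 1 - 1 - i = e - i := by omega
      rw [e1]
      unfold d4_w
      rw [hdiv (e - i) (by rw [mem_range]; omega), hrp, d4_smo_pow T p _ hp, if_pos hpT]
      have e2 : e - (e - i) = i := by omega
      rw [e2, ← hδ]
      push_cast
      have e3 : ((p : ℝ) ^ i) ^ δ = ((p : ℝ) ^ δ) ^ i := by
        rw [← Real.rpow_natCast, ← Real.rpow_mul hp0.le, mul_comm, Real.rpow_mul hp0.le, Real.rpow_natCast]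
      rw [e3, hy, div_pow]
      have e4 : (p : ℝ) ^ e = (p : ℝ) ^ (e - i) * (p : ℝ) ^ i := by
        rw [← pow_add]
        congr 1
        omega
      have hcond : (e - i = 0) ↔ (i = e) := by omega
      rw [e4]
      by_cases hie : i = e
      · rw [if_pos (hcond.2 hie), if_pos hie]
        field_simp
      · rw [if_neg (fun h => hie (hcond.1 h)), if_neg hie]
        field_simp
    rw [hre]
    push_cast
    refine mul_le_mul_of_nonneg_left ?_ (by positivity)
    have e5 : 40 * (1 / (p : ℝ) ^ 2) = 40 / (p : ℝ) ^ 2 := by ring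
    rw [e5]
    exact hloc
  · have hloc := d3_local p hp (Real.exp 1) hκ1 e
    have hre : ∑ k ∈ range (e + 1), d4_w T (p ^ e) (p ^ k) =
        ∑ k ∈ range (e + 1), (p : ℝ) ^ k * (if k = 0 then 1 else Real.exp (-(Real.exp 1 / p))) := by
      refine Finset.sum_congr rfl fun k hk => ?_
      unfold d4_w
      rw [hdiv k hk, hrp, d4_smo_pow T p _ hp, if_neg hpT]
      push_cast
      rw [Real.one_rpow, mul_one]
    rw [hre]
    refine hloc.trans ?_
    push_cast
    refine mul_le_mul_of_nonneg_left ?_ (by positivity)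
    have h1 := Real.add_one_le_exp (40 * (1 / (p : ℝ) ^ 2))
    have h2 : 0 ≤ 1 / (p : ℝ) ^ 2 := by positivity
    linarith

theorem d4_Phi0 (T : ℕ) (hT : 16 ≤ T) (M : ℕ) : 0 < M →
    ∑ v ∈ M.divisors, d4_w T M v ≤ M * Real.exp (40 * ∑ p ∈ M.primeFactors, 1 / (p : ℝ) ^ 2) := by
  induction M using Nat.recOnPosPrimePosCoprime with
  | prime_pow p n hp hn =>
    intro _
    rw [Nat.primeFactors_prime_pow hn.ne' hp, Finset.sum_singleton]
    exact d4_pp T hT p n hp
  | zero =>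
    intro h
    exact absurd h (lt_irrefl 0)
  | one =>
    intro _
    have h1 : smo T 1 = 1 := by simp [smo]
    have h2 : rp 1 = 0 := by simp [rp]
    simp [d4_w, h1, h2]
  | coprime a b ha hb hab iha ihb =>
    intro _
    have ha0 : 0 < a := by omega
    have hb0 : 0 < b := by omega
    have iha' := iha ha0
    have ihb' := ihb hb0
    rw [d4_mul T ha0 hb0 hab, hab.primeFactors_mul, Finset.sum_union hab.disjoint_primeFactors, mul_add, Real.exp_add]
    push_cast
    calc (∑ v ∈ a.divisors, d4_w T a v) * ∑ v ∈ b.divisors, d4_w T b v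
        ≤ (a * Real.exp (40 * ∑ p ∈ a.primeFactors, 1 / (p : ℝ) ^ 2)) *
          (b * Real.exp (40 * ∑ p ∈ b.primeFactors, 1 / (p : ℝ) ^ 2)) :=
          mul_le_mul iha' ihb' (Finset.sum_nonneg fun v _ => d4_w_nonneg T b v) (by positivity)
      _ = _ := by ring

theorem d4_Phi (T : ℕ) (hT : 16 ≤ T) (M : ℕ) (hM : 0 < M) :
    ∑ v ∈ M.divisors, d4_w T M v ≤ M * Real.exp 40 := by
  refine (d4_Phi0 T hT M hM).trans ?_
  refine mul_le_mul_of_nonneg_left ?_ (Nat.cast_nonneg M)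
  apply Real.exp_le_exp.2
  have := d3_sq M.primeFactors fun p hp => (Nat.prime_of_mem_primeFactors hp).two_le
  linarith

/-- Lemma D': `T ≥ 16`, `Y > 0`: the divisors `v` of `M` with `rp(v) ≤ c0` such that the `T`-smooth part of `M/v` is `> Y` have sum at
most `exp(3 c0 + 40) exp(-log Y/log T) M` (if `c0 ≥ 0`).
PROOF. Let `δ = 1/log T ≤ 1/log 16 ≤ 0.361`, `κ = exp 1`, so `p^δ ≤ κ` for `p ≤ T`. For such `v`,
`v ≤ v exp(κ (c0 - rp v)) (smo T (M/v) / Y)^δ`, and `Y^{-δ} = exp(-log Y/log T)`, `κ c0 ≤ 3 c0`. Drop the conditions; the sum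
`∑_{v ∣ M} (v/M) exp(-κ rp v) (smo T (M/v))^δ` is a product over `p ∣ M` (`v = ∏ p^{k_p}`; use `d1_sum` for
`f m = (1/m) (smo T m)^δ exp(-κ rp (M/m))`? NOT multiplicative in this form for general `m`; instead use the substitution `m = M/v`
and prove the product formula by induction on `M` over coprime prime powers (`Nat.recOnPosPrimePosCoprime`): the divisors of `p^e N`
are `p^k n`, and all three functions `v`, `exp(-κ rp v)`, `smo T (M/v)` are products). Local factors, `e = v_p(M) ≥ 1`: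
* `p > T`: `∑_{k=0}^e p^{k-e} exp(-κ [k ≥ 1]/p) = t + x(1-t)`, `t = p^{-e}`, `x = exp(-κ/p) p/(p-1) ≤ 1` (as `p/(p-1) ≤ exp(1/(p-1)) ≤ exp(2/p)`):
  the factor is `≤ 1`.
* `p ≤ T`: with `y = p^{-(1-δ)}` the factor is `∑_{i=0}^{e} y^i exp(-κ [i < e]/p) = exp(-κ/p)(1-y^e)/(1-y) + y^e ≤ max(1, exp(-κ/p)/(1-y))`
  (convex combination). `y ≤ κ/p` and `y ≤ 2^{-0.639} ≤ 0.65`. It is `≤ exp(30/p²)`: for `p ≤ 5`: `1/(1-0.65) ≤ 2.9 ≤ exp(30/25)`;
  for `p ≥ 7`: `-log(1-κ/p) ≤ κ/p + (κ/p)²/(2(1-κ/p))`, so the factor is `≤ exp((κ/p)²/(2·0.6)) ≤ exp(30/p²)`.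
Product `≤ exp(30 ∑ 1/p²) ≤ exp(30)` (`∑_{n ≥ 2} 1/n² ≤ 1`). -/
theorem d4_lemD' (c0 : ℝ) (hc0 : 0 ≤ c0) (T : ℕ) (hT : 16 ≤ T) (Y : ℝ) (hY : 0 < Y) (M : ℕ) (hM : 0 < M) :
    ∑ v ∈ M.divisors.filter (fun v => rp v ≤ c0 ∧ Y < (smo T (M / v) : ℝ)), (v : ℝ) ≤
      Real.exp (3 * c0 + 40) * Real.exp (-(Real.log Y / Real.log T)) * M := by
  have hT1 : (16 : ℝ) ≤ T := by exact_mod_cast hT
  have hlogT : 2 ≤ Real.log T := d4_log16 T hT
  have hlogT0 : 0 < Real.log T := by linarith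
  set δ : ℝ := 1 / Real.log T with hδ
  have hδ0 : 0 < δ := by positivity
  set κ : ℝ := Real.exp 1 with hκ
  have hκ1 : 1 ≤ κ := Real.one_le_exp (by norm_num)
  have hκ3 : κ ≤ 3 := by
    have := Real.exp_one_lt_d9
    linarith
  have hΦ := d4_Phi T hT M hM
  have hYδ : Y ^ (-δ) = Real.exp (-(Real.log Y / Real.log T)) := by
    rw [Real.rpow_def_of_pos hY]
    congr 1
    rw [hδ]
    ring
  have h1 : ∑ v ∈ M.divisors.filter (fun v => rp v ≤ c0 ∧ Y < (smo T (M / v) : ℝ)), (v : ℝ) ≤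
      ∑ v ∈ M.divisors, Real.exp (κ * c0) * Y ^ (-δ) * d4_w T M v := by
    refine le_trans (Finset.sum_le_sum (g := fun v : ℕ => Real.exp (κ * c0) * Y ^ (-δ) * d4_w T M v) fun v hv => ?_)
      (Finset.sum_le_sum_of_subset_of_nonneg (Finset.filter_subset _ _) fun v _ _ => ?_)
    · rw [mem_filter] at hv
      obtain ⟨-, hv1, hv2⟩ := hv
      unfold d4_w
      rw [← hκ, ← hδ]
      have hs : 1 ≤ Y ^ (-δ) * (smo T (M / v) : ℝ) ^ δ := by
        have hsm : (0 : ℝ) < smo T (M / v) := hY.trans hv2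
        rw [Real.rpow_neg hY.le, inv_mul_eq_div, one_le_div (Real.rpow_pos_of_pos hY δ)]
        exact Real.rpow_le_rpow hY.le hv2.le hδ0.le
      have he : 1 ≤ Real.exp (κ * c0) * Real.exp (-(κ * rp v)) := by
        rw [← Real.exp_add]
        apply Real.one_le_exp
        nlinarith
      have h3 : (0 : ℝ) ≤ v := Nat.cast_nonneg v
      have h4 : 1 ≤ (Y ^ (-δ) * (smo T (M / v) : ℝ) ^ δ) * (Real.exp (κ * c0) * Real.exp (-(κ * rp v))) :=
        one_le_mul_of_one_le_of_one_le hs he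
      calc (v : ℝ) = v * 1 := by ring
        _ ≤ v * ((Y ^ (-δ) * (smo T (M / v) : ℝ) ^ δ) * (Real.exp (κ * c0) * Real.exp (-(κ * rp v)))) :=
            mul_le_mul_of_nonneg_left h4 h3
        _ = Real.exp (κ * c0) * Y ^ (-δ) * (v * Real.exp (-(κ * rp v)) * (smo T (M / v) : ℝ) ^ δ) := by ring
    · have := d4_w_nonneg T M v
      have h5 : 0 ≤ Y ^ (-δ) := Real.rpow_nonneg hY.le _
      positivity
  rw [← Finset.mul_sum] at h1
  refine h1.trans ?_
  rw [hYδ]
  have h6 : Real.exp (κ * c0) ≤ Real.exp (3 * c0) := Real.exp_le_exp.2 (by nlinarith)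
  have h7 : 0 ≤ ∑ v ∈ M.divisors, d4_w T M v := Finset.sum_nonneg fun v _ => d4_w_nonneg T M v
  have h8 := (Real.exp_pos (-(Real.log Y / Real.log T))).le
  calc Real.exp (κ * c0) * Real.exp (-(Real.log Y / Real.log T)) * ∑ v ∈ M.divisors, d4_w T M v
      ≤ Real.exp (3 * c0) * Real.exp (-(Real.log Y / Real.log T)) * (M * Real.exp 40) := by
        refine mul_le_mul (mul_le_mul_of_nonneg_right h6 h8) hΦ h7 (by positivity)
    _ = Real.exp (3 * c0 + 40) * Real.exp (-(Real.log Y / Real.log T)) * M := by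
        rw [Real.exp_add]
        ring

end Pool.Agent.H20G
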