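import Mathlib
import Pool.Agent.Lib.H20G.Core
import Pool.Agent.Lib.H20G.D3
import Pool.Agent.Lib.H20G.D4
import Pool.Agent.Lib.H20G.D5

set_option autoImplicit false

/-!
# H20G chunk SMain: exceptional vertices (INTERFACE of section 5)
-/

namespace Pool.Agent.H20G

open Finset

/-- `T_j` -/
def smTj (k0 j : ℕ) : ℕ := 2 ^ (300 * k0 * 2 ^ j)

/-- `𝓛_{<j}`: all `l` of levels `< k0 2^{j+1}` -/
def smL (k0 j : ℕ) (Ls : ℕ → Finset ℕ) : Finset ℕ := (range (k0 * 2 ^ (j + 1))).biUnion Ls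

theorem sm_Tk (k0 k : ℕ) : Tk k0 k = smTj k0 (win k0 k) := rfl

/-- windows -/
theorem sm_win {k0 k j : ℕ} (h0 : 0 < k0) (hj : win k0 k ≤ j) :
    k < k0 * 2 ^ (j + 1) := by
  unfold win at hj
  have h1 : k / k0 < 2 ^ (j + 1) := by
    have := Nat.lt_pow_succ_log_self (b := 2) (by norm_num) (k / k0)
    exact this.trans_le (Nat.pow_le_pow_right (by norm_num) (by omega))
  rw [Nat.div_lt_iff_lt_mul h0] at h1
  rw [mul_comm]
  exact h1

theorem sm_mem_L {k0 k j l : ℕ} {Ls : ℕ → Finset ℕ} (h0 : 0 < k0)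
    (hj : win k0 k ≤ j) (hl : l ∈ Ls k) : l ∈ smL k0 j Ls := by
  unfold smL
  rw [mem_biUnion]
  exact ⟨k, mem_range.mpr (sm_win h0 hj), hl⟩

theorem sm_card {k0 j : ℕ} {Ls : ℕ → Finset ℕ} (h : ∀ k, (Ls k).card ≤ 2 ^ (71 * k)) :
    (smL k0 j Ls).card ≤ 2 ^ (142 * k0 * 2 ^ j) := by
  have h1 : ∀ n : ℕ, ∑ k ∈ range n, 2 ^ (71 * k) ≤ 2 ^ (71 * n) := by
    intro n
    induction n with
    | zero => simp
    | succ n ih =>
      rw [Finset.sum_range_succ]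
      have : 2 ^ (71 * (n + 1)) = 2 ^ (71 * n) * 2 ^ 71 := by rw [← pow_add]; congr 1
      rw [this]
      have h2 : 2 ≤ 2 ^ 71 := by norm_num
      nlinarith [Nat.one_le_two_pow (n := 71 * n)]
  refine (card_biUnion_le).trans ((Finset.sum_le_sum fun k _ => h k).trans ((h1 _).trans (le_of_eq ?_)))
  congr 1
  rw [pow_succ]
  ring

theorem sm_union {ι : Type*} (s : Finset ι) (t : ι → Finset ℕ) (f : ℕ → ℝ)
    (hf : ∀ i ∈ s, ∀ x ∈ t i, 0 ≤ f x) : ∑ x ∈ s.biUnion t, f x ≤ ∑ i ∈ s, ∑ x ∈ t i, f x := by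
  classical
  induction s using Finset.induction_on with
  | empty => simp
  | insert a s ha ih =>
    rw [Finset.biUnion_insert, Finset.sum_insert ha]
    have h1 := Finset.sum_union_inter (s₁ := t a) (s₂ := s.biUnion t) (f := f)
    have h2 : 0 ≤ ∑ x ∈ t a ∩ s.biUnion t, f x := by
      refine Finset.sum_nonneg fun x hx => ?_
      exact hf a (mem_insert_self _ _) x (mem_inter.mp hx).1
    have h3 := ih (fun i hi x hx => hf i (mem_insert_of_mem hi) x hx)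
    linarith

theorem sm_f {c0 : ℝ} {f : ℕ → ℝ} {S : Finset ℕ} (hBk : Blk c0 f S) {q : ℕ} (hq : q ∈ S) {l : ℝ}
    (hl : 0 < l) (h : rho f q * l ≤ 1) : f q ≤ (q : ℝ) / l := by
  have h1 : (0 : ℝ) < q := by exact_mod_cast hBk.pos q hq
  rw [le_div_iff₀ hl]
  unfold rho at h
  rw [div_mul_eq_mul_div, div_le_one h1] at h
  exact h

/-- mass of the smooth tails -/
theorem sm_tail {c0 : ℝ} (hc0 : 0 ≤ c0) {f : ℕ → ℝ} {S : Finset ℕ} (hBk : Blk c0 f S) {T l : ℕ}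
    (hT : 16 ≤ T) (hl : 0 < l) :
    ∑ q ∈ S.filter (fun q => q ∣ l ∧ rho f q * l ≤ 1 ∧
      Real.exp ((Real.log T) ^ 2) < ((smo T (l / q) : ℕ) : ℝ)), f q ≤
      Real.exp (3 * c0 + 40) / T := by
  have hT0 : (0 : ℝ) < T := by exact_mod_cast (by omega : 0 < T)
  have hT1 : (1 : ℝ) < T := by exact_mod_cast (by omega : 1 < T)
  have hl0 : (0 : ℝ) < l := by exact_mod_cast hl
  have h1 : ∀ q ∈ S.filter (fun q => q ∣ l ∧ rho f q * l ≤ 1 ∧
      Real.exp ((Real.log T) ^ 2) < ((smo T (l / q) : ℕ) : ℝ)), f q ≤ (q : ℝ) / l := by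
    intro q hq
    obtain ⟨hqS, _, h2, _⟩ := mem_filter.mp hq
    exact sm_f hBk hqS hl0 h2
  refine (Finset.sum_le_sum h1).trans ?_
  rw [← Finset.sum_div, div_le_iff₀ hl0]
  have h2 : ∑ q ∈ S.filter (fun q => q ∣ l ∧ rho f q * l ≤ 1 ∧
      Real.exp ((Real.log T) ^ 2) < ((smo T (l / q) : ℕ) : ℝ)), (q : ℝ) ≤
      ∑ v ∈ l.divisors.filter (fun v => rp v ≤ c0 ∧ Real.exp ((Real.log T) ^ 2) <
        ((smo T (l / v) : ℕ) : ℝ)), (v : ℝ) := by
    refine Finset.sum_le_sum_of_subset_of_nonneg ?_ fun v _ _ => Nat.cast_nonneg v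
    intro q hq
    obtain ⟨hqS, h3, _, h4⟩ := mem_filter.mp hq
    rw [mem_filter, Nat.mem_divisors]
    exact ⟨⟨h3, hl.ne'⟩, hBk.rp_le q hqS, h4⟩
  refine h2.trans ((d4_lemD' c0 hc0 T hT _ (Real.exp_pos _) l hl).trans (le_of_eq ?_))
  have h5 : Real.log (Real.exp ((Real.log T) ^ 2)) / Real.log T = Real.log T := by
    rw [Real.log_exp, sq, mul_div_assoc, div_self (Real.log_pos hT1).ne', mul_one]
  rw [h5, Real.exp_neg, Real.exp_log hT0]
  ring

theorem sm_gcd_aux {T l l' p : ℕ} (hl : 0 < l) (hl' : 0 < l') (hp : p.Prime) (hpT : T < p)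
    (h : l'.factorization p < l.factorization p) : Nat.gcd l l' * T ≤ l := by
  -- `gcd * p ∣ l`
  have hg : 0 < Nat.gcd l l' := Nat.gcd_pos_of_pos_left _ hl
  have h1 : Nat.gcd l l' * p ∣ l := by
    rw [← Nat.factorization_le_iff_dvd (Nat.mul_ne_zero hg.ne' hp.ne_zero) hl.ne',
      Nat.factorization_mul hg.ne' hp.ne_zero, Nat.factorization_gcd hl.ne' hl'.ne',
      hp.factorization]
    intro x
    rw [Finsupp.add_apply, Finsupp.inf_apply]
    by_cases hx : x = p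
    · subst hx
      rw [Finsupp.single_eq_same]
      have : l.factorization x ⊓ l'.factorization x = l'.factorization x := inf_eq_right.mpr h.le
      omega
    · rw [Finsupp.single_eq_of_ne hx, add_zero]
      exact inf_le_left
  calc Nat.gcd l l' * T ≤ Nat.gcd l l' * p := Nat.mul_le_mul_left _ hpT.le
    _ ≤ l := Nat.le_of_dvd hl h1

/-- the gcd of two numbers with different rough parts -/
theorem sm_gcd {T l l' : ℕ} (hl : 0 < l) (hl' : 0 < l') (h : rou T l ≠ rou T l') :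
    Nat.gcd l l' * T ≤ max l l' := by
  -- a prime `> T` with different exponents
  obtain ⟨p, hp⟩ : ∃ p, (rou T l).factorization p ≠ (rou T l').factorization p := by
    by_contra hcon
    push Not at hcon
    exact h (Nat.eq_of_factorization_eq (d5_pos T l).2.ne' (d5_pos T l').2.ne' hcon)
  rw [d5_fact_rou, d5_fact_rou] at hp
  by_cases hT : T < p
  · rw [if_pos hT, if_pos hT] at hp
    have hpp : p.Prime := by
      by_contra hnp
      rw [Nat.factorization_eq_zero_of_not_prime _ hnp, Nat.factorization_eq_zero_of_not_prime _ hnp] at hp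
      exact hp rfl
    rcases lt_or_gt_of_ne hp with h1 | h1
    · rw [Nat.gcd_comm]
      exact (sm_gcd_aux hl' hl hpp hT h1).trans (le_max_right _ _)
    · exact (sm_gcd_aux hl hl' hpp hT h1).trans (le_max_left _ _)
  · rw [if_neg hT, if_neg hT] at hp
    exact absurd rfl hp

/-- mass of the exceptional vertices of a pair `l, l'` -/
theorem sm_pair {c0 : ℝ} {f : ℕ → ℝ} {S : Finset ℕ} (hBk : Blk c0 f S) {T l l' : ℕ}
    (hT : 0 < T) (hl : 0 < l) (hl' : 0 < l') (h : rou T l ≠ rou T l') :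
    ∑ q ∈ S.filter (fun q => q ∣ l ∧ q ∣ l' ∧ rho f q * l ≤ 1 ∧ rho f q * l' ≤ 1), f q ≤
      Real.exp (c0 + 1) / T := by
  have hT0 : (0 : ℝ) < T := by exact_mod_cast hT
  have hm0 : (0 : ℝ) < ((max l l' : ℕ) : ℝ) := by exact_mod_cast lt_of_lt_of_le hl (le_max_left _ _)
  have hg : 0 < Nat.gcd l l' := Nat.gcd_pos_of_pos_left _ hl
  have h1 : ∀ q ∈ S.filter (fun q => q ∣ l ∧ q ∣ l' ∧ rho f q * l ≤ 1 ∧ rho f q * l' ≤ 1),
      f q ≤ (q : ℝ) / ((max l l' : ℕ) : ℝ) := by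
    intro q hq
    obtain ⟨hqS, _, _, h2, h3⟩ := mem_filter.mp hq
    refine sm_f hBk hqS hm0 ?_
    rcases le_total l l' with h4 | h4
    · rw [max_eq_right h4]; exact h3
    · rw [max_eq_left h4]; exact h2
  refine (Finset.sum_le_sum h1).trans ?_
  rw [← Finset.sum_div, div_le_iff₀ hm0]
  have h2 : ∑ q ∈ S.filter (fun q => q ∣ l ∧ q ∣ l' ∧ rho f q * l ≤ 1 ∧ rho f q * l' ≤ 1), (q : ℝ) ≤
      ∑ v ∈ (Nat.gcd l l').divisors.filter (fun v => rp v ≤ c0), (v : ℝ) := by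
    refine Finset.sum_le_sum_of_subset_of_nonneg ?_ fun v _ _ => Nat.cast_nonneg v
    intro q hq
    obtain ⟨hqS, h3, h4, _⟩ := mem_filter.mp hq
    rw [mem_filter, Nat.mem_divisors]
    exact ⟨⟨Nat.dvd_gcd h3 h4, hg.ne'⟩, hBk.rp_le q hqS⟩
  refine h2.trans ((d3_lemD c0 _ hg).trans ?_)
  have h3 : ((Nat.gcd l l' : ℕ) : ℝ) * T ≤ ((max l l' : ℕ) : ℝ) := by exact_mod_cast sm_gcd hl hl' h
  rw [div_mul_eq_mul_div, le_div_iff₀ hT0, mul_assoc]
  exact mul_le_mul_of_nonneg_left h3 (Real.exp_pos _).le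

open Classical in
/-- the exceptional vertices of window `j` -/
noncomputable def smB (k0 j : ℕ) (f : ℕ → ℝ) (S : Finset ℕ) (Ls : ℕ → Finset ℕ) : Finset ℕ :=
  (smL k0 j Ls).biUnion (fun l => S.filter (fun q => q ∣ l ∧ rho f q * l ≤ 1 ∧
      Real.exp ((Real.log (smTj k0 j)) ^ 2) < ((smo (smTj k0 j) (l / q) : ℕ) : ℝ))) ∪
  (((smL k0 j Ls) ×ˢ (smL k0 j Ls)).filter
    (fun p => rou (smTj k0 j) p.1 ≠ rou (smTj k0 j) p.2)).biUnion
    (fun p => S.filter (fun q => q ∣ p.1 ∧ q ∣ p.2 ∧ rho f q * p.1 ≤ 1 ∧ rho f q * p.2 ≤ 1))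

theorem sm_B_sub {k0 j : ℕ} {f : ℕ → ℝ} {S : Finset ℕ} {Ls : ℕ → Finset ℕ} :
    smB k0 j f S Ls ⊆ S := by
  intro q hq
  unfold smB at hq
  rw [mem_union, mem_biUnion, mem_biUnion] at hq
  rcases hq with ⟨l, _, h⟩ | ⟨p, _, h⟩
  · exact (mem_filter.mp h).1
  · exact (mem_filter.mp h).1

/-- mass of the exceptional vertices of window `j` -/
theorem sm_B_mass {c0 : ℝ} (hc0 : 0 ≤ c0) {k0 j : ℕ} (hk0 : 1 ≤ k0) {f : ℕ → ℝ} {S : Finset ℕ}
    (hBk : Blk c0 f S) {Ls : ℕ → Finset ℕ} (h : ∀ k, (Ls k).card ≤ 2 ^ (71 * k))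
    (hl : ∀ k, ∀ l ∈ Ls k, 0 < l) :
    ∑ q ∈ smB k0 j f S Ls, f q ≤
      (Real.exp (3 * c0 + 40) + Real.exp (c0 + 1)) * (1 / 2 : ℝ) ^ (k0 + j) := by
  classical
  have hcard := sm_card (k0 := k0) (j := j) h
  have hLpos : ∀ l ∈ smL k0 j Ls, 0 < l := by
    intro l hll
    unfold smL at hll
    rw [mem_biUnion] at hll
    obtain ⟨k, _, hk⟩ := hll
    exact hl k l hk
  have hT16 : 16 ≤ smTj k0 j := by
    unfold smTj
    calc 16 = 2 ^ 4 := by norm_num
      _ ≤ 2 ^ (300 * k0 * 2 ^ j) := by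
        apply Nat.pow_le_pow_right (by norm_num)
        have := Nat.one_le_two_pow (n := j)
        nlinarith
  have hT0 : (0 : ℝ) < (smTj k0 j : ℕ) := by exact_mod_cast (by omega : 0 < smTj k0 j)
  have hE1 := Real.exp_pos (3 * c0 + 40)
  have hE2 := Real.exp_pos (c0 + 1)
  have hf0 : ∀ q ∈ S, 0 ≤ f q := fun q hq => (hBk.fpos q hq).le
  set T := smTj k0 j with hTdef
  set L := smL k0 j Ls with hLdef
  set Cd : ℝ := ((2 : ℝ) ^ (142 * k0 * 2 ^ j)) with hCd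
  have hCd1 : 1 ≤ Cd := one_le_pow₀ (by norm_num)
  have hcard' : (L.card : ℝ) ≤ Cd := by
    rw [hCd]; exact_mod_cast hcard
  have hA : ∑ q ∈ L.biUnion (fun l => S.filter (fun q => q ∣ l ∧ rho f q * l ≤ 1 ∧
      Real.exp ((Real.log T) ^ 2) < ((smo T (l / q) : ℕ) : ℝ))), f q ≤
      Cd * (Real.exp (3 * c0 + 40) / T) := by
    refine (sm_union _ _ _ (fun i _ x hx => hf0 x (mem_filter.mp hx).1)).trans ?_
    refine (Finset.sum_le_sum (g := fun _ => Real.exp (3 * c0 + 40) / T) (fun l hll => ?_)).trans ?_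
    · exact sm_tail hc0 hBk hT16 (hLpos l hll)
    · rw [Finset.sum_const, nsmul_eq_mul]
      gcongr
  have hB : ∑ q ∈ ((L ×ˢ L).filter (fun p => rou T p.1 ≠ rou T p.2)).biUnion
      (fun p => S.filter (fun q => q ∣ p.1 ∧ q ∣ p.2 ∧ rho f q * p.1 ≤ 1 ∧ rho f q * p.2 ≤ 1)), f q ≤
      Cd * Cd * (Real.exp (c0 + 1) / T) := by
    refine (sm_union _ _ _ (fun i _ x hx => hf0 x (mem_filter.mp hx).1)).trans ?_
    refine (Finset.sum_le_sum (g := fun _ => Real.exp (c0 + 1) / T) (fun p hp => ?_)).trans ?_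
    · obtain ⟨hp1, hp2⟩ := mem_filter.mp hp
      rw [mem_product] at hp1
      exact sm_pair hBk (by omega) (hLpos _ hp1.1) (hLpos _ hp1.2) hp2
    · rw [Finset.sum_const, nsmul_eq_mul]
      have h1 : ((((L ×ˢ L).filter (fun p => rou T p.1 ≠ rou T p.2)).card : ℕ) : ℝ) ≤ Cd * Cd := by
        have h2 : ((L ×ˢ L).filter (fun p => rou T p.1 ≠ rou T p.2)).card ≤ L.card * L.card := by
          refine (card_filter_le _ _).trans (le_of_eq ?_)
          rw [card_product]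
        calc ((((L ×ˢ L).filter (fun p => rou T p.1 ≠ rou T p.2)).card : ℕ) : ℝ)
            ≤ (L.card : ℝ) * L.card := by exact_mod_cast h2
          _ ≤ Cd * Cd := by gcongr
      gcongr
  have hU : ∑ q ∈ smB k0 j f S Ls, f q ≤ Cd * (Real.exp (3 * c0 + 40) / T) +
      Cd * Cd * (Real.exp (c0 + 1) / T) := by
    unfold smB
    rw [← hTdef, ← hLdef]
    refine le_trans ?_ (add_le_add hA hB)
    have h1 := Finset.sum_union_inter (s₁ := L.biUnion (fun l => S.filter (fun q => q ∣ l ∧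
      rho f q * l ≤ 1 ∧ Real.exp ((Real.log T) ^ 2) < ((smo T (l / q) : ℕ) : ℝ))))
      (s₂ := ((L ×ˢ L).filter (fun p => rou T p.1 ≠ rou T p.2)).biUnion
      (fun p => S.filter (fun q => q ∣ p.1 ∧ q ∣ p.2 ∧ rho f q * p.1 ≤ 1 ∧ rho f q * p.2 ≤ 1)))
      (f := f)
    have h2 : 0 ≤ ∑ q ∈ (L.biUnion (fun l => S.filter (fun q => q ∣ l ∧
      rho f q * l ≤ 1 ∧ Real.exp ((Real.log T) ^ 2) < ((smo T (l / q) : ℕ) : ℝ)))) ∩
      (((L ×ˢ L).filter (fun p => rou T p.1 ≠ rou T p.2)).biUnion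
      (fun p => S.filter (fun q => q ∣ p.1 ∧ q ∣ p.2 ∧ rho f q * p.1 ≤ 1 ∧ rho f q * p.2 ≤ 1))),
      f q := by
      refine Finset.sum_nonneg fun q hq => ?_
      obtain ⟨l, _, h3⟩ := mem_biUnion.mp (mem_inter.mp hq).1
      exact hf0 q (mem_filter.mp h3).1
    linarith
  refine hU.trans ?_
  -- numbers
  have hTval : ((T : ℕ) : ℝ) = 2 ^ (300 * k0 * 2 ^ j) := by
    rw [hTdef]; unfold smTj; push_cast; rfl
  have hkey : Cd * Cd / T ≤ (1 / 2 : ℝ) ^ (k0 + j) := by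
    rw [hTval, hCd, ← pow_add, one_div, inv_pow, ← one_div, div_le_div_iff₀ (by positivity) (by positivity),
      ← pow_add, one_mul]
    apply pow_le_pow_right₀ (by norm_num)
    have h1 : j + 1 ≤ 2 ^ j := Nat.lt_two_pow_self
    nlinarith
  calc Cd * (Real.exp (3 * c0 + 40) / T) + Cd * Cd * (Real.exp (c0 + 1) / T)
      ≤ Cd * Cd * (Real.exp (3 * c0 + 40) / T) + Cd * Cd * (Real.exp (c0 + 1) / T) := by
        have : Cd ≤ Cd * Cd := by nlinarith
        gcongr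
    _ = (Real.exp (3 * c0 + 40) + Real.exp (c0 + 1)) * (Cd * Cd / T) := by ring
    _ ≤ _ := by gcongr

/-- Section 5: removing a set `X` of small mass gives the canonical structure. -/
theorem s_main (c0 ε : ℝ) (hε : 0 < ε) : ∃ kk : ℕ, 1 ≤ kk ∧ ∀ k0 : ℕ, kk ≤ k0 → ∀ (f : ℕ → ℝ) (S : Finset ℕ), Blk c0 f S →
    ∀ Ls : ℕ → Finset ℕ, (∀ k, (Ls k).card ≤ 2 ^ (71 * k)) → (∀ k, ∀ l ∈ Ls k, 0 < l) →
    ∃ X : Finset ℕ, X ⊆ S ∧ ∑ q ∈ X, f q ≤ ε ∧ Canon k0 f S X Ls := by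
  classical
  set c1 := max c0 0 with hc1
  have hc10 : 0 ≤ c1 := le_max_right _ _
  set C : ℝ := Real.exp (3 * c1 + 40) + Real.exp (c1 + 1) with hC
  have hCpos : 0 < C := by positivity
  obtain ⟨n, hn⟩ := exists_pow_lt_of_lt_one (show 0 < ε / (2 * C) by positivity)
    (show (1 / 2 : ℝ) < 1 by norm_num)
  refine ⟨max 1 n, le_max_left _ _, ?_⟩
  intro k0 hk0 f S hBk Ls hcard hl
  have hk1 : 1 ≤ k0 := le_trans (le_max_left _ _) hk0
  have hkn : n ≤ k0 := le_trans (le_max_right _ _) hk0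
  have hBk1 : Blk c1 f S := ⟨hBk.pos, hBk.fpos, hBk.fle,
    fun q hq => (hBk.rp_le q hq).trans (le_max_left _ _), hBk.sum_le⟩
  refine ⟨S.filter (fun q => ∃ j, q ∈ smB k0 j f S Ls), filter_subset _ _, ?_, ?_⟩
  · -- mass
    have hch : ∀ q, ∃ j, (∃ j, q ∈ smB k0 j f S Ls) → q ∈ smB k0 j f S Ls := by
      intro q
      by_cases h : ∃ j, q ∈ smB k0 j f S Ls
      · obtain ⟨j, hj⟩ := h
        exact ⟨j, fun _ => hj⟩
      · exact ⟨0, fun h' => absurd h' h⟩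
    choose jj hjj using hch
    have hsub : S.filter (fun q => ∃ j, q ∈ smB k0 j f S Ls) ⊆
        (range (S.sup jj + 1)).biUnion (fun j => smB k0 j f S Ls) := by
      intro q hq
      obtain ⟨hqS, hqj⟩ := mem_filter.mp hq
      rw [mem_biUnion]
      exact ⟨jj q, mem_range.mpr (Nat.lt_succ_of_le (Finset.le_sup (f := jj) hqS)), hjj q hqj⟩
    have hf0 : ∀ j, ∀ q ∈ smB k0 j f S Ls, 0 ≤ f q := fun j q hq => (hBk.fpos q (sm_B_sub hq)).le
    have h1 : ∑ q ∈ S.filter (fun q => ∃ j, q ∈ smB k0 j f S Ls), f q ≤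
        ∑ q ∈ (range (S.sup jj + 1)).biUnion (fun j => smB k0 j f S Ls), f q := by
      refine Finset.sum_le_sum_of_subset_of_nonneg hsub fun q hq _ => ?_
      obtain ⟨j, _, hj⟩ := mem_biUnion.mp hq
      exact hf0 j q hj
    refine h1.trans ((sm_union _ _ _ (fun j _ q hq => hf0 j q hq)).trans ?_)
    refine (Finset.sum_le_sum fun j _ => sm_B_mass hc10 hk1 hBk1 hcard hl).trans ?_
    rw [← Finset.mul_sum]
    have h2 : ∑ j ∈ range (S.sup jj + 1), (1 / 2 : ℝ) ^ (k0 + j) ≤ (1 / 2) ^ n * 2 := by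
      have h3 : ∀ j, (1 / 2 : ℝ) ^ (k0 + j) = (1 / 2) ^ k0 * (1 / 2) ^ j := fun j => pow_add _ _ _
      simp only [h3]
      rw [← Finset.mul_sum]
      have h4 : ∑ j ∈ range (S.sup jj + 1), (1 / 2 : ℝ) ^ j ≤ 2 := by
        have := (summable_geometric_of_lt_one (by norm_num : (0 : ℝ) ≤ 1 / 2)
          (by norm_num : (1 / 2 : ℝ) < 1)).sum_le_tsum (range (S.sup jj + 1))
          (fun j _ => by positivity)
        rw [tsum_geometric_of_lt_one (by norm_num) (by norm_num)] at this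
        linarith
      have h5 : (1 / 2 : ℝ) ^ k0 ≤ (1 / 2) ^ n := pow_le_pow_of_le_one (by norm_num) (by norm_num) hkn
      have h6 : (0 : ℝ) ≤ ∑ j ∈ range (S.sup jj + 1), (1 / 2 : ℝ) ^ j :=
        Finset.sum_nonneg fun j _ => by positivity
      exact mul_le_mul h5 h4 h6 (by positivity)
    calc C * ∑ j ∈ range (S.sup jj + 1), (1 / 2 : ℝ) ^ (k0 + j) ≤ C * ((1 / 2) ^ n * 2) := by gcongr
      _ ≤ C * ((ε / (2 * C)) * 2) := by gcongr
      _ = ε := by field_simp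
  · -- canonical structure
    intro q hqS hqX k l hk hlk hql hρ
    have hno : ∀ j, q ∉ smB k0 j f S Ls := by
      intro j hj
      exact hqX (mem_filter.mpr ⟨hqS, j, hj⟩)
    constructor
    · by_contra hcon
      push Not at hcon
      apply hno (win k0 k)
      unfold smB
      rw [mem_union, mem_biUnion]
      exact Or.inl ⟨l, sm_mem_L (by omega) le_rfl hlk, mem_filter.mpr ⟨hqS, hql, hρ, hcon⟩⟩
    · intro k' l' hk' hw hlk' hql' hρ'
      by_contra hcon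
      apply hno (win k0 k')
      unfold smB
      rw [mem_union, mem_biUnion, mem_biUnion]
      refine Or.inr ⟨(l, l'), mem_filter.mpr ⟨mem_product.mpr ⟨sm_mem_L (by omega) hw hlk,
        sm_mem_L (by omega) le_rfl hlk'⟩, ?_⟩, mem_filter.mpr ⟨hqS, hql, hql', hρ, hρ'⟩⟩
      intro heq
      apply hcon
      have e1 := d5_rou_div (Tk k0 k') q l hql (hl k l hlk)
      have e2 := d5_rou_div (Tk k0 k') q l' hql' (hl k' l' hlk')
      have heq' : rou (Tk k0 k') l = rou (Tk k0 k') l' := heq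
      rw [← e1, ← e2] at heq'
      exact Nat.eq_of_mul_eq_mul_right (d5_pos _ _).2 heq'

end Pool.Agent.H20G
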