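import Mathlib
import Pool.Agent.Lib.H20G.Core
import Pool.Agent.Lib.H20G.HMain
import Pool.Agent.Lib.H20G.LMain
import Pool.Agent.Lib.H20G.SMain
import Pool.Agent.Lib.H20G.EMain
import Pool.Agent.Lib.H20G.KMain
import Pool.Agent.Lib.H20G.NMain
import Pool.Agent.Lib.H20G.D5

set_option autoImplicit false

/-!
# H20G chunk MC: the block theorem
-/

namespace Pool.Agent.H20G

open Finset

/-! ## symmetry -/

lemma mc_aa (q r : ℕ) : aa q r = bb r q := by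
  unfold aa bb
  rw [Nat.gcd_comm]

lemma mc_DD (f : ℕ → ℝ) (q r : ℕ) : DD f q r = DD f r q := by
  unfold DD
  rw [Nat.lcm_comm, add_comm]

lemma mc_ov (f : ℕ → ℝ) (q r : ℕ) : ov f q r = ov f r q := by
  unfold ov
  rw [Nat.gcd_comm, min_comm]

lemma mc_nint_le (x : ℝ) (m : ℤ) : nint x ≤ |x - m| := round_le x m

lemma mc_nint_neg (x : ℝ) : nint (-x) = nint x := by
  have h : ∀ y : ℝ, nint (-y) ≤ nint y := by
    intro y
    calc nint (-y) ≤ |(-y) - ((-(round y) : ℤ) : ℝ)| := mc_nint_le _ _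
      _ = nint y := by
        unfold nint
        push_cast
        rw [← abs_neg]
        congr 1
        ring
  apply le_antisymm (h x)
  have := h (-x)
  rwa [neg_neg] at this

lemma mc_coin (γ : ℝ) (f : ℕ → ℝ) (q r : ℕ) (P P' : ℤ) (h : Coin γ f q r P P') : Coin γ f r q P' P := by
  unfold Coin at *
  have e : (P' : ℝ) * bb r q - (P : ℝ) * aa r q + γ * ((bb r q : ℝ) - aa r q) =
      -((P : ℝ) * bb q r - (P' : ℝ) * aa q r + γ * ((bb q r : ℝ) - aa q r)) := by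
    rw [mc_aa r q, mc_aa q r]
    ring
  rw [e, abs_neg, mc_DD f r q]
  exact h

lemma mc_live (γ : ℝ) (f : ℕ → ℝ) (y0 : ℕ) (X : Finset ℕ) (cl : ℕ → ℕ → Finset ℤ) (Lg : ℕ → Finset (ℕ × ℤ))
    (q r : ℕ) (h : Live γ f y0 X cl Lg q r) : Live γ f y0 X cl Lg r q := by
  obtain ⟨P, P', h1, h2, h3⟩ := h
  exact ⟨P', P, h2, h1, mc_coin _ _ _ _ _ _ h3⟩

/-! ## levels -/

lemma mc_level (D : ℝ) (hD : 0 < D) (k0 : ℕ) (h : D ≤ 1 / 2 ^ k0) :
    ∃ k : ℕ, k0 ≤ k ∧ D ≤ 1 / 2 ^ k ∧ 1 / 2 ^ (k + 1) < D := by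
  have h2 : (2 : ℝ) ^ k0 ≤ 1 / D := by
    rw [le_div_iff₀ hD]
    rw [le_div_iff₀ (by positivity)] at h
    linarith
  have h1 : (1 : ℝ) ≤ 1 / D := le_trans (one_le_pow₀ (by norm_num)) h2
  obtain ⟨n, hn1, hn2⟩ := exists_nat_pow_near h1 (by norm_num : (1 : ℝ) < 2)
  refine ⟨n, ?_, ?_, ?_⟩
  · by_contra hc
    push Not at hc
    have : (2 : ℝ) ^ (n + 1) ≤ 2 ^ k0 := pow_le_pow_right₀ (by norm_num) (by omega)
    linarith
  · rw [le_div_iff₀ hD] at hn1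
    rw [le_div_iff₀ (by positivity)]
    linarith
  · rw [div_lt_iff₀ hD] at hn2
    rw [div_lt_iff₀ (by positivity)]
    linarith

lemma mc_edge (γ : ℝ) (f : ℕ → ℝ) (S : Finset ℕ) (k q r : ℕ) (hq : q ∈ S) (hr : r ∈ S) (hne : q ≠ r)
    (h1 : DD f q r ≤ 1 / 2 ^ k) (h2 : 1 / 2 ^ (k + 1) < DD f q r) (P P' : ℤ) (hc : Coin γ f q r P P') :
    Edge γ f S k q r := by
  refine ⟨hq, hr, hne, h1, h2, ?_⟩
  have := mc_nint_le (γ * ((bb q r : ℝ) - aa q r)) (P' * aa q r - P * bb q r)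
  refine le_trans this (le_of_lt ?_)
  unfold Coin at hc
  refine lt_of_eq_of_lt ?_ hc
  congr 1
  push_cast
  ring

lemma mc_edge_symm (γ : ℝ) (f : ℕ → ℝ) (S : Finset ℕ) (k q r : ℕ) (h : Edge γ f S k q r) : Edge γ f S k r q := by
  obtain ⟨h1, h2, h3, h4, h5, h6⟩ := h
  refine ⟨h2, h1, h3.symm, by rwa [mc_DD], by rwa [mc_DD], ?_⟩
  rw [mc_aa r q, ← mc_aa q r, mc_DD f r q]
  have : γ * ((aa q r : ℝ) - bb q r) = -(γ * ((bb q r : ℝ) - aa q r)) := by ring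
  rw [this, mc_nint_neg]
  exact h6

/-! ## swapping boxes -/

lemma mc_pset_swap (γ : ℝ) (k h h' A B : ℕ) :
    (Pset γ k h' h B A).card = (Pset γ k h h' A B).card := by
  classical
  apply Finset.card_bij (fun x _ => Prod.swap x)
  · intro x hx
    unfold Pset at *
    rw [mem_filter, mem_product] at *
    obtain ⟨⟨h1, h2⟩, h3, h4⟩ := hx
    refine ⟨⟨h2, h1⟩, h3.symm, ?_⟩
    have : γ * (((Prod.swap x).2 : ℝ) * h - ((Prod.swap x).1 : ℝ) * h') =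
        -(γ * ((x.2 : ℝ) * h' - (x.1 : ℝ) * h)) := by
      simp only [Prod.fst_swap, Prod.snd_swap]
      ring
    rw [this, mc_nint_neg]
    exact h4
  · intro x _ y _ h
    exact Prod.swap_injective h
  · intro y hy
    refine ⟨Prod.swap y, ?_, Prod.swap_swap y⟩
    unfold Pset at *
    rw [mem_filter, mem_product] at *
    obtain ⟨⟨h1, h2⟩, h3, h4⟩ := hy
    refine ⟨⟨h2, h1⟩, h3.symm, ?_⟩
    have : γ * (((Prod.swap y).2 : ℝ) * h' - ((Prod.swap y).1 : ℝ) * h) =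
        -(γ * ((y.2 : ℝ) * h - (y.1 : ℝ) * h')) := by
      simp only [Prod.fst_swap, Prod.snd_swap]
      ring
    rw [this, mc_nint_neg]
    exact h4

lemma mc_t (k0 k q r : ℕ) : tA k0 k q r = tB k0 k r q ∧ hA k0 k q r = hB k0 k r q := by
  unfold tA tB hA hB
  rw [mc_aa]
  exact ⟨rfl, rfl⟩

lemma mc_box_swap (γ : ℝ) (k0 k q r : ℕ) : (boxP γ k0 k r q).card = (boxP γ k0 k q r).card := by
  unfold boxP
  rw [(mc_t k0 k q r).1, (mc_t k0 k q r).2, (mc_t k0 k r q).1, (mc_t k0 k r q).2]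
  exact mc_pset_swap γ k _ _ _ _

lemma mc_generic_swap (γ : ℝ) (k0 k q r : ℕ) (h : Generic γ k0 k r q) : Generic γ k0 k q r := by
  unfold Generic at *
  rw [mc_box_swap, ← (mc_t k0 k q r).1, (mc_t k0 k r q).1] at h
  refine le_trans h (le_of_eq ?_)
  ring

lemma mc_planar_swap (γ : ℝ) (k0 k q r : ℕ) (h : Planar γ k0 k q r) : Planar γ k0 k r q := by
  refine ⟨fun h' => h.1 (mc_generic_swap _ _ _ _ _ h'), ?_⟩
  rw [mc_box_swap]
  exact h.2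

lemma mc_sedge_swap (γ : ℝ) (k0 : ℕ) (f : ℕ → ℝ) (S X : Finset ℕ) (Ls : ℕ → Finset ℕ) (k q r : ℕ)
    (h : SEdge γ k0 f S X Ls k q r) : SEdge γ k0 f S X Ls k r q := by
  obtain ⟨h1, h2, h3, h4, h5, h6, h7⟩ := h
  exact ⟨h1, mc_edge_symm _ _ _ _ _ _ h2, h4, h3, by rwa [Nat.lcm_comm], h7, h6⟩

lemma mc_in_box (γ : ℝ) (k0 : ℕ) (f : ℕ → ℝ) (S : Finset ℕ) (k q r : ℕ) (hq : 0 < q) (hr : 0 < r)
    (h : Edge γ f S k q r) : (tA k0 k q r, tB k0 k q r) ∈ boxP γ k0 k q r := by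
  have hg : 0 < Nat.gcd q r := Nat.gcd_pos_of_pos_left _ hq
  have ha : 0 < aa q r := Nat.div_pos (Nat.le_of_dvd hq (Nat.gcd_dvd_left q r)) hg
  have hb : 0 < bb q r := Nat.div_pos (Nat.le_of_dvd hr (Nat.gcd_dvd_right q r)) hg
  have hcop : Nat.Coprime (aa q r) (bb q r) := Nat.coprime_div_gcd_div_gcd hg
  have hA1 : 0 < tA k0 k q r := (d5_pos _ _).1
  have hB1 : 0 < tB k0 k q r := (d5_pos _ _).1
  have ea : tA k0 k q r * hA k0 k q r = aa q r := d5_split _ _ ha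
  have eb : tB k0 k q r * hB k0 k q r = bb q r := d5_split _ _ hb
  unfold boxP Pset
  rw [mem_filter, mem_product, mem_Ico, mem_Ico]
  refine ⟨⟨⟨Nat.pow_log_le_self 2 hA1.ne', ?_⟩, Nat.pow_log_le_self 2 hB1.ne', ?_⟩, ?_, ?_⟩
  · rw [← pow_succ']
    exact Nat.lt_pow_succ_log_self (by norm_num) _
  · rw [← pow_succ']
    exact Nat.lt_pow_succ_log_self (by norm_num) _
  · exact Nat.Coprime.coprime_dvd_left ⟨_, ea.symm⟩ (Nat.Coprime.coprime_dvd_right ⟨_, eb.symm⟩ hcop)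
  · obtain ⟨h1, h2, h3, h4, h5, h6⟩ := h
    have e : γ * ((tB k0 k q r : ℝ) * (hB k0 k q r : ℝ) - (tA k0 k q r : ℝ) * (hA k0 k q r : ℝ)) =
        γ * ((bb q r : ℝ) - aa q r) := by
      rw [← ea, ← eb]
      push_cast
      ring
    simp only
    rw [e]
    exact le_trans h6 h4

/-! ## sums over unions -/

lemma mc_sum_biUnion {ι κ : Type*} [DecidableEq κ] (s : Finset ι) (t : ι → Finset κ) (g : κ → ℝ)
    (hg : ∀ x, 0 ≤ g x) : ∑ x ∈ s.biUnion t, g x ≤ ∑ i ∈ s, ∑ x ∈ t i, g x := by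
  classical
  induction s using Finset.induction_on with
  | empty => simp
  | insert a s ha ih =>
    rw [Finset.biUnion_insert, Finset.sum_insert ha]
    calc ∑ x ∈ t a ∪ s.biUnion t, g x ≤ ∑ x ∈ t a, g x + ∑ x ∈ s.biUnion t, g x := by
          rw [← Finset.sum_union_inter]
          have : 0 ≤ ∑ x ∈ t a ∩ s.biUnion t, g x := Finset.sum_nonneg (fun x _ => hg x)
          linarith
      _ ≤ _ := by linarith

/-! ## the short hub lcms -/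

/-- the possible lcms of short hub edges -/
def LsOf (k : ℕ) (Hb : Finset (ℕ × ℕ × ℕ)) : Finset ℕ :=
  (Hb.filter (fun t => t.2.1 < 20 * k ∨ t.2.2 < 20 * k)).biUnion
    (fun t => ((Ico (2 ^ t.2.1) (2 ^ (t.2.1 + 1))) ×ˢ (Ico (2 ^ t.2.2) (2 ^ (t.2.2 + 1)))).image
      (fun x => t.1 * x.1 * x.2))

lemma mc_Ls_card (k : ℕ) (Hb : Finset (ℕ × ℕ × ℕ)) (h1 : Hb.card ≤ 2 ^ (10 * k))
    (h2 : ∀ t ∈ Hb, 0 < t.1 ∧ t.2.1 ≤ t.2.2 + 9 * k ∧ t.2.2 ≤ t.2.1 + 9 * k) :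
    (LsOf k Hb).card ≤ 2 ^ (71 * k) := by
  unfold LsOf
  calc _ ≤ ∑ t ∈ Hb.filter (fun t => t.2.1 < 20 * k ∨ t.2.2 < 20 * k), 2 ^ (58 * k) := by
        refine le_trans Finset.card_biUnion_le (Finset.sum_le_sum ?_)
        intro t ht
        rw [mem_filter] at ht
        obtain ⟨ht1, ht2⟩ := ht
        obtain ⟨h3, h4, h5⟩ := h2 t ht1
        refine le_trans Finset.card_image_le ?_
        rw [card_product, Nat.card_Ico, Nat.card_Ico]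
        have e1 : 2 ^ (t.2.1 + 1) - 2 ^ t.2.1 = 2 ^ t.2.1 := by rw [pow_succ]; omega
        have e2 : 2 ^ (t.2.2 + 1) - 2 ^ t.2.2 = 2 ^ t.2.2 := by rw [pow_succ]; omega
        rw [e1, e2, ← pow_add]
        exact Nat.pow_le_pow_right (by norm_num) (by omega)
    _ ≤ 2 ^ (10 * k) * 2 ^ (58 * k) := by
        rw [Finset.sum_const, smul_eq_mul]
        exact Nat.mul_le_mul_right _ (le_trans (Finset.card_filter_le _ _) h1)
    _ ≤ 2 ^ (71 * k) := by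
        rw [← pow_add]
        exact Nat.pow_le_pow_right (by norm_num) (by omega)

lemma mc_Ls_pos (k : ℕ) (Hb : Finset (ℕ × ℕ × ℕ))
    (h2 : ∀ t ∈ Hb, 0 < t.1 ∧ t.2.1 ≤ t.2.2 + 9 * k ∧ t.2.2 ≤ t.2.1 + 9 * k) (l : ℕ) (hl : l ∈ LsOf k Hb) : 0 < l := by
  unfold LsOf at hl
  rw [mem_biUnion] at hl
  obtain ⟨t, ht, hl⟩ := hl
  rw [mem_image] at hl
  obtain ⟨x, hx, rfl⟩ := hl
  rw [mem_product, mem_Ico, mem_Ico] at hx
  rw [mem_filter] at ht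
  have h3 := (h2 t ht.1).1
  have h4 : 0 < x.1 := lt_of_lt_of_le (by positivity) hx.1.1
  have h5 : 0 < x.2 := lt_of_lt_of_le (by positivity) hx.2.1
  positivity

lemma mc_Ls_mem (γ : ℝ) (k : ℕ) (Hb : Finset (ℕ × ℕ × ℕ)) (t : ℕ × ℕ × ℕ) (ht : t ∈ Hb) (ht0 : 0 < t.1)
    (hs : t.2.1 < 20 * k ∨ t.2.2 < 20 * k) (q r : ℕ) (hq : 0 < q) (hr : 0 < r) (h : HubEdge γ k t q r) :
    Nat.lcm q r ∈ LsOf k Hb := by
  obtain ⟨h1, h2, h3, h4⟩ := h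
  unfold LsOf
  rw [mem_biUnion]
  refine ⟨t, mem_filter.2 ⟨ht, hs⟩, ?_⟩
  rw [mem_image]
  exact ⟨(q / Nat.gcd q t.1, r / Nat.gcd r t.1), mem_product.2 ⟨h1, h2⟩, (l_lcm t q r ht0 hq hr h3).symm⟩

/-! ## the long hub classes -/

/-- the classes deleted at `q` because of long hubs -/
def LgOf (Cl : ℕ → (ℕ × ℕ × ℕ) → ℕ → Finset ℤ) (Hb : ℕ → Finset (ℕ × ℕ × ℕ)) (k0 q : ℕ) : Finset (ℕ × ℤ) :=
  (Ico k0 (q + 1)).biUnion fun k =>
    ((Hb k).filter (fun t => 20 * k ≤ t.2.1 ∧ 20 * k ≤ t.2.2 ∧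
      q / Nat.gcd q t.1 ∈ Ico (2 ^ t.2.1) (2 ^ (t.2.1 + 1)))).biUnion
      fun t => (Cl k t q).image (fun c => (q / Nat.gcd q t.1, c))

lemma mc_Lg_dvd (Cl : ℕ → (ℕ × ℕ × ℕ) → ℕ → Finset ℤ) (Hb : ℕ → Finset (ℕ × ℕ × ℕ)) (k0 q : ℕ) (hq : 0 < q)
    (x : ℕ × ℤ) (hx : x ∈ LgOf Cl Hb k0 q) : x.1 ∣ q ∧ 0 < x.1 := by
  unfold LgOf at hx
  rw [mem_biUnion] at hx
  obtain ⟨k, hk, hx⟩ := hx
  rw [mem_biUnion] at hx
  obtain ⟨t, ht, hx⟩ := hx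
  rw [mem_image] at hx
  obtain ⟨c, hc, rfl⟩ := hx
  exact ⟨Nat.div_dvd_of_dvd (Nat.gcd_dvd_left _ _),
    Nat.div_pos (Nat.le_of_dvd hq (Nat.gcd_dvd_left _ _)) (Nat.gcd_pos_of_pos_left _ hq)⟩

lemma mc_Lg_mem (Cl : ℕ → (ℕ × ℕ × ℕ) → ℕ → Finset ℤ) (Hb : ℕ → Finset (ℕ × ℕ × ℕ)) (k0 q : ℕ) (hq : 0 < q)
    (k : ℕ) (hk : k0 ≤ k) (t : ℕ × ℕ × ℕ) (ht : t ∈ Hb k) (h1 : 20 * k ≤ t.2.1) (h2 : 20 * k ≤ t.2.2)
    (h3 : q / Nat.gcd q t.1 ∈ Ico (2 ^ t.2.1) (2 ^ (t.2.1 + 1))) (c : ℤ) (hc : c ∈ Cl k t q) :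
    (q / Nat.gcd q t.1, c) ∈ LgOf Cl Hb k0 q := by
  unfold LgOf
  rw [mem_biUnion]
  have h4 : k ≤ q := by
    rw [mem_Ico] at h3
    calc k ≤ 2 ^ k := Nat.lt_two_pow_self.le
      _ ≤ 2 ^ t.2.1 := Nat.pow_le_pow_right (by norm_num) (by omega)
      _ ≤ q / Nat.gcd q t.1 := h3.1
      _ ≤ q := Nat.div_le_self _ _
  refine ⟨k, mem_Ico.2 ⟨hk, by omega⟩, ?_⟩
  rw [mem_biUnion]
  exact ⟨t, mem_filter.2 ⟨ht, h1, h2, h3⟩, mem_image.2 ⟨c, hc, rfl⟩⟩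

/-- geometric bound: `∑_{k = k0}^{M-1} 64 2^{-9k} ≤ 128 2^{-9 k0}` (in the form used) -/
lemma mc_geom (k0 M : ℕ) : ∑ k ∈ Ico k0 M, (64 : ℝ) * ((1 : ℝ) / 2) ^ k ≤ 128 * ((1 : ℝ) / 2) ^ k0 := by
  by_cases h : k0 ≤ M
  · have key : ∑ k ∈ Ico k0 M, (64 : ℝ) * ((1 : ℝ) / 2) ^ k = 128 * ((1 : ℝ) / 2) ^ k0 - 128 * ((1 : ℝ) / 2) ^ M := by
      induction M, h using Nat.le_induction with
      | base => simp
      | succ n hn ih =>
        rw [Finset.sum_Ico_succ_top hn, ih, pow_succ]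
        ring
    rw [key]
    have : (0 : ℝ) ≤ 128 * ((1 : ℝ) / 2) ^ M := by positivity
    linarith
  · rw [Finset.Ico_eq_empty (by omega)]
    simp

lemma mc_Lg_sum (Cl : ℕ → (ℕ × ℕ × ℕ) → ℕ → Finset ℤ) (Hb : ℕ → Finset (ℕ × ℕ × ℕ)) (k0 q : ℕ) (hq : 0 < q)
    (hH : ∀ k, (Hb k).card ≤ 2 ^ (10 * k))
    (hCl : ∀ k, k0 ≤ k → ∀ t ∈ Hb k, 20 * k ≤ t.2.1 → 20 * k ≤ t.2.2 →
      ((Cl k t q).card : ℝ) ≤ 64 * (2 : ℝ) ^ (3 * (k : ℝ) / 4)) :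
    ∑ x ∈ LgOf Cl Hb k0 q, 1 / (x.1 : ℝ) ≤ 128 * ((1 : ℝ) / 2) ^ k0 := by
  classical
  refine le_trans ?_ (mc_geom k0 (q + 1))
  unfold LgOf
  refine le_trans (mc_sum_biUnion _ _ _ (fun x => by positivity)) (Finset.sum_le_sum ?_)
  intro k hk
  rw [mem_Ico] at hk
  refine le_trans (mc_sum_biUnion _ _ _ (fun x => by positivity)) ?_
  have hstep : ∀ t ∈ (Hb k).filter (fun t => 20 * k ≤ t.2.1 ∧ 20 * k ≤ t.2.2 ∧
      q / Nat.gcd q t.1 ∈ Ico (2 ^ t.2.1) (2 ^ (t.2.1 + 1))),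
      ∑ x ∈ (Cl k t q).image (fun c => (q / Nat.gcd q t.1, c)), 1 / (x.1 : ℝ) ≤
        64 * (2 : ℝ) ^ k * (1 / 2 ^ (20 * k)) := by
    intro t ht
    rw [mem_filter, mem_Ico] at ht
    obtain ⟨ht0, ht1, ht2, ht3, ht4⟩ := ht
    have hx : (2 : ℝ) ^ (20 * k) ≤ ((q / Nat.gcd q t.1 : ℕ) : ℝ) := by
      have : 2 ^ (20 * k) ≤ q / Nat.gcd q t.1 :=
        le_trans (Nat.pow_le_pow_right (by norm_num) ht1) ht3
      exact_mod_cast this
    have hc := hCl k hk.1 t ht0 ht1 ht2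
    have h34 : (2 : ℝ) ^ (3 * (k : ℝ) / 4) ≤ 2 ^ k := by
      rw [← Real.rpow_natCast 2 k]
      apply Real.rpow_le_rpow_of_exponent_le (by norm_num)
      have : (0 : ℝ) ≤ k := by positivity
      linarith
    calc ∑ x ∈ (Cl k t q).image (fun c => (q / Nat.gcd q t.1, c)), 1 / (x.1 : ℝ)
        ≤ ∑ x ∈ (Cl k t q).image (fun c => (q / Nat.gcd q t.1, c)), 1 / (2 : ℝ) ^ (20 * k) := by
          apply Finset.sum_le_sum
          intro x hx'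
          rw [mem_image] at hx'
          obtain ⟨c, _, rfl⟩ := hx'
          exact one_div_le_one_div_of_le (by positivity) hx
      _ = (((Cl k t q).image (fun c => (q / Nat.gcd q t.1, c))).card : ℝ) * (1 / (2 : ℝ) ^ (20 * k)) := by
          rw [Finset.sum_const, nsmul_eq_mul]
      _ ≤ 64 * (2 : ℝ) ^ k * (1 / 2 ^ (20 * k)) := by
          apply mul_le_mul_of_nonneg_right _ (by positivity)
          have h5 : (((Cl k t q).image (fun c => (q / Nat.gcd q t.1, c))).card : ℝ) ≤ (Cl k t q).card := by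
            exact_mod_cast Finset.card_image_le
          nlinarith
  refine le_trans (Finset.sum_le_sum hstep) ?_
  rw [Finset.sum_const, nsmul_eq_mul]
  have hcard : (((Hb k).filter (fun t => 20 * k ≤ t.2.1 ∧ 20 * k ≤ t.2.2 ∧
      q / Nat.gcd q t.1 ∈ Ico (2 ^ t.2.1) (2 ^ (t.2.1 + 1)))).card : ℝ) ≤ 2 ^ (10 * k) := by
    exact_mod_cast le_trans (Finset.card_filter_le _ _) (hH k)
  calc _ ≤ (2 : ℝ) ^ (10 * k) * (64 * (2 : ℝ) ^ k * (1 / 2 ^ (20 * k))) :=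
        mul_le_mul_of_nonneg_right hcard (by positivity)
    _ ≤ 64 * ((1 : ℝ) / 2) ^ k := by
        rw [one_div_pow]
        have e : (2 : ℝ) ^ (20 * k) = 2 ^ (10 * k) * 2 ^ k * 2 ^ k * 2 ^ (8 * k) := by
          rw [← pow_add, ← pow_add, ← pow_add]
          congr 1
          ring
        rw [e]
        have h8 : (1 : ℝ) ≤ 2 ^ (8 * k) := one_le_pow₀ (by norm_num)
        rw [div_eq_mul_inv, div_eq_mul_inv, mul_inv, mul_inv, mul_inv]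
        have hinv : ((2 : ℝ) ^ (8 * k))⁻¹ ≤ 1 := inv_le_one_of_one_le₀ h8
        have hk0 : (0 : ℝ) < 2 ^ k := by positivity
        have h10 : (0 : ℝ) < 2 ^ (10 * k) := by positivity
        have : (2 : ℝ) ^ (10 * k) * (64 * 2 ^ k * (1 * ((2 ^ (10 * k))⁻¹ * (2 ^ k)⁻¹ * (2 ^ k)⁻¹ * ((2 : ℝ) ^ (8 * k))⁻¹))) =
            64 * (2 ^ k)⁻¹ * ((2 : ℝ) ^ (8 * k))⁻¹ := by
          field_simp
        rw [this]
        have hpos : (0 : ℝ) ≤ 64 * (2 ^ k)⁻¹ := by positivity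
        calc 64 * (2 ^ k)⁻¹ * ((2 : ℝ) ^ (8 * k))⁻¹ ≤ 64 * (2 ^ k)⁻¹ * 1 :=
              mul_le_mul_of_nonneg_left hinv hpos
          _ = 64 * (1 * ((2 : ℝ) ^ k)⁻¹) := by ring

/-- geometric bound: `∑_{k = k0}^{κ} 64 2^{11k} ≤ 128 2^{11κ}` -/
lemma mc_geom2 (k0 κ : ℕ) : ∑ k ∈ Ico k0 (κ + 1), (64 : ℝ) * 2 ^ (11 * k) ≤ 128 * 2 ^ (11 * κ) := by
  have h1 : ∑ k ∈ Ico k0 (κ + 1), (64 : ℝ) * 2 ^ (11 * k) ≤ ∑ k ∈ range (κ + 1), (64 : ℝ) * 2 ^ (11 * k) := by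
    apply Finset.sum_le_sum_of_subset_of_nonneg
    · intro x hx
      rw [mem_Ico] at hx
      exact mem_range.2 hx.2
    · intro i _ _
      positivity
  refine le_trans h1 ?_
  induction κ with
  | zero => norm_num
  | succ n ih =>
    rw [Finset.sum_range_succ]
    have := ih (by
      apply Finset.sum_le_sum_of_subset_of_nonneg
      · intro x hx
        rw [mem_Ico] at hx
        exact mem_range.2 hx.2
      · intro i _ _
        positivity)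
    have e : (2 : ℝ) ^ (11 * (n + 1)) = 2048 * 2 ^ (11 * n) := by
      rw [mul_add, pow_add]
      norm_num
      ring
    rw [e]
    have hp : (0 : ℝ) < 2 ^ (11 * n) := by positivity
    linarith

lemma mc_Lg_card (Cl : ℕ → (ℕ × ℕ × ℕ) → ℕ → Finset ℤ) (Hb : ℕ → Finset (ℕ × ℕ × ℕ)) (k0 q : ℕ) (hk0 : 7 ≤ k0) (hq : 0 < q)
    (hH : ∀ k, (Hb k).card ≤ 2 ^ (10 * k))
    (hCl : ∀ k, k0 ≤ k → ∀ t ∈ Hb k, 20 * k ≤ t.2.1 → 20 * k ≤ t.2.2 →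
      ((Cl k t q).card : ℝ) ≤ 64 * (2 : ℝ) ^ (3 * (k : ℝ) / 4)) :
    ((LgOf Cl Hb k0 q).card : ℝ) ≤ (q : ℝ) ^ (3 / 5 : ℝ) := by
  classical
  by_cases hemp : q < 2 ^ (20 * k0)
  · -- empty
    have : LgOf Cl Hb k0 q = ∅ := by
      unfold LgOf
      rw [Finset.eq_empty_iff_forall_notMem]
      intro x hx
      rw [mem_biUnion] at hx
      obtain ⟨k, hk, hx⟩ := hx
      rw [mem_biUnion] at hx
      obtain ⟨t, ht, hx⟩ := hx
      rw [mem_filter, mem_Ico] at ht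
      rw [mem_Ico] at hk
      have : 2 ^ (20 * k0) ≤ q := by
        calc 2 ^ (20 * k0) ≤ 2 ^ t.2.1 := Nat.pow_le_pow_right (by norm_num) (by omega)
          _ ≤ q / Nat.gcd q t.1 := ht.2.2.2.1
          _ ≤ q := Nat.div_le_self _ _
      omega
    rw [this]
    simp only [card_empty, Nat.cast_zero]
    positivity
  · push Not at hemp
    set κ := Nat.log 2 q / 20 with hκ
    have hlog : 20 * k0 ≤ Nat.log 2 q := (Nat.le_log_iff_pow_le (by norm_num) hq.ne').2 hemp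
    have hκ0 : k0 ≤ κ := by omega
    have hκq : 2 ^ (20 * κ) ≤ q := by
      rw [← Nat.le_log_iff_pow_le (by norm_num) hq.ne']
      omega
    have hsub : LgOf Cl Hb k0 q ⊆ (Ico k0 (κ + 1)).biUnion fun k =>
        ((Hb k).filter (fun t => 20 * k ≤ t.2.1 ∧ 20 * k ≤ t.2.2 ∧
          q / Nat.gcd q t.1 ∈ Ico (2 ^ t.2.1) (2 ^ (t.2.1 + 1)))).biUnion
          fun t => (Cl k t q).image (fun c => (q / Nat.gcd q t.1, c)) := by
      intro x hx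
      unfold LgOf at hx
      rw [mem_biUnion] at hx
      obtain ⟨k, hk, hx⟩ := hx
      have hx2 := hx
      rw [mem_biUnion] at hx
      obtain ⟨t, ht, hx⟩ := hx
      rw [mem_filter, mem_Ico] at ht
      rw [mem_Ico] at hk
      have : 2 ^ (20 * k) ≤ q := by
        calc 2 ^ (20 * k) ≤ 2 ^ t.2.1 := Nat.pow_le_pow_right (by norm_num) (by omega)
          _ ≤ q / Nat.gcd q t.1 := ht.2.2.2.1
          _ ≤ q := Nat.div_le_self _ _
      have h20 : 20 * k ≤ Nat.log 2 q := (Nat.le_log_iff_pow_le (by norm_num) hq.ne').2 this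
      rw [mem_biUnion]
      exact ⟨k, mem_Ico.2 ⟨hk.1, by omega⟩, hx2⟩
    have hcard : (LgOf Cl Hb k0 q).card ≤ ∑ k ∈ Ico k0 (κ + 1), 2 ^ (10 * k) * (64 * 2 ^ k) := by
      refine le_trans (Finset.card_le_card hsub) (le_trans Finset.card_biUnion_le (Finset.sum_le_sum ?_))
      intro k hk
      rw [mem_Ico] at hk
      refine le_trans Finset.card_biUnion_le ?_
      have : ∀ t ∈ (Hb k).filter (fun t => 20 * k ≤ t.2.1 ∧ 20 * k ≤ t.2.2 ∧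
          q / Nat.gcd q t.1 ∈ Ico (2 ^ t.2.1) (2 ^ (t.2.1 + 1))),
          ((Cl k t q).image (fun c => (q / Nat.gcd q t.1, c))).card ≤ 64 * 2 ^ k := by
        intro t ht
        rw [mem_filter] at ht
        refine le_trans Finset.card_image_le ?_
        have hc := hCl k hk.1 t ht.1 ht.2.1 ht.2.2.1
        have h34 : (2 : ℝ) ^ (3 * (k : ℝ) / 4) ≤ 2 ^ k := by
          rw [← Real.rpow_natCast 2 k]
          apply Real.rpow_le_rpow_of_exponent_le (by norm_num)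
          have : (0 : ℝ) ≤ k := by positivity
          linarith
        have : ((Cl k t q).card : ℝ) ≤ 64 * 2 ^ k := by nlinarith
        exact_mod_cast this
      refine le_trans (Finset.sum_le_sum this) ?_
      rw [Finset.sum_const, smul_eq_mul]
      exact Nat.mul_le_mul_right _ (le_trans (Finset.card_filter_le _ _) (hH k))
    have h1 : ((LgOf Cl Hb k0 q).card : ℝ) ≤ 128 * 2 ^ (11 * κ) := by
      refine le_trans ?_ (mc_geom2 k0 κ)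
      have h2 : ((LgOf Cl Hb k0 q).card : ℝ) ≤ ((∑ k ∈ Ico k0 (κ + 1), 2 ^ (10 * k) * (64 * 2 ^ k) : ℕ) : ℝ) := by
        exact_mod_cast hcard
      refine le_trans h2 (le_of_eq ?_)
      push_cast
      apply Finset.sum_congr rfl
      intro k _
      have : (11 * k) = 10 * k + k := by ring
      rw [this, pow_add]
      ring
    refine le_trans h1 ?_
    have hqr : ((2 : ℝ) ^ (20 * κ)) ≤ q := by exact_mod_cast hκq
    calc (128 : ℝ) * 2 ^ (11 * κ) ≤ 2 ^ κ * 2 ^ (11 * κ) := by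
          apply mul_le_mul_of_nonneg_right _ (by positivity)
          calc (128 : ℝ) = 2 ^ 7 := by norm_num
            _ ≤ 2 ^ κ := pow_le_pow_right₀ (by norm_num) (by omega)
      _ = ((2 : ℝ) ^ (20 * κ)) ^ (3 / 5 : ℝ) := by
          rw [← pow_add, ← Real.rpow_natCast, ← Real.rpow_natCast, ← Real.rpow_mul (by norm_num)]
          congr 1
          push_cast
          ring
      _ ≤ (q : ℝ) ^ (3 / 5 : ℝ) := Real.rpow_le_rpow (by positivity) hqr (by norm_num)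

/-! ## the series of constants -/

/-- the terms of the series of small contributions -/
noncomputable def mcu (Ch Ce : ℝ) (k : ℕ) : ℝ :=
  Ch * (2 : ℝ) ^ (-((k : ℝ) / 80)) + Ce * (k : ℝ) ^ 4 * (2 : ℝ) ^ (-((k : ℝ) / 80))

lemma mc_pow (k : ℕ) : (2 : ℝ) ^ (-((k : ℝ) / 80)) = ((2 : ℝ) ^ (-(1 / 80) : ℝ)) ^ k := by
  rw [← Real.rpow_natCast, ← Real.rpow_mul (by norm_num)]
  congr 1
  ring

lemma mcu_summable (Ch Ce : ℝ) : Summable (mcu Ch Ce) := by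
  have hr0 : (0 : ℝ) < (2 : ℝ) ^ (-(1 / 80) : ℝ) := by positivity
  have hr1 : (2 : ℝ) ^ (-(1 / 80) : ℝ) < 1 := Real.rpow_lt_one_of_one_lt_of_neg (by norm_num) (by norm_num)
  have hn : ‖(2 : ℝ) ^ (-(1 / 80) : ℝ)‖ < 1 := by
    rw [Real.norm_eq_abs, abs_of_pos hr0]
    exact hr1
  have h1 := (summable_geometric_of_lt_one hr0.le hr1).mul_left Ch
  have h2 := (summable_pow_mul_geometric_of_norm_lt_one 4 hn).mul_left Ce
  refine (h1.add h2).congr ?_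
  intro k
  unfold mcu
  rw [mc_pow]
  ring

lemma mcu_nonneg (Ch Ce : ℝ) (h1 : 0 ≤ Ch) (h2 : 0 ≤ Ce) (k : ℕ) : 0 ≤ mcu Ch Ce k := by
  unfold mcu
  positivity

lemma mc_ov_nonneg (f : ℕ → ℝ) (q r : ℕ) (hq : 0 ≤ f q) (hr : 0 ≤ f r) : 0 ≤ ov f q r := by
  unfold ov rho
  have : 0 ≤ min (f q / (q : ℝ)) (f r / (r : ℝ)) := le_min (by positivity) (by positivity)
  positivity

lemma mc_DD_pos (c0 : ℝ) (f : ℕ → ℝ) (S : Finset ℕ) (hB : Blk c0 f S) (q r : ℕ) (hq : q ∈ S) (hr : r ∈ S) : 0 < DD f q r := by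
  have h1 := hB.pos q hq
  have h2 := hB.pos r hr
  have h3 := hB.fpos q hq
  have h4 := hB.fpos r hr
  unfold DD rho
  have h5 : 0 < Nat.lcm q r := Nat.lcm_pos h1 h2
  have h6 : (0 : ℝ) < ((Nat.lcm q r : ℕ) : ℝ) := by exact_mod_cast h5
  have h7 : (0 : ℝ) < q := by exact_mod_cast h1
  have h8 : (0 : ℝ) < r := by exact_mod_cast h2
  positivity

/-- `ρ_q lcm(q,r) ≤ 1` for a near pair -/
lemma mc_rho_lcm (c0 : ℝ) (f : ℕ → ℝ) (S : Finset ℕ) (hB : Blk c0 f S) (q r : ℕ) (hq : q ∈ S) (hr : r ∈ S) (k : ℕ)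
    (h : DD f q r ≤ 1 / 2 ^ k) : rho f q * ((Nat.lcm q r : ℕ) : ℝ) ≤ 1 := by
  have h1 := hB.pos q hq
  have h2 := hB.pos r hr
  have h3 := hB.fpos q hq
  have h4 := hB.fpos r hr
  have h7 : (0 : ℝ) < q := by exact_mod_cast h1
  have h8 : (0 : ℝ) < r := by exact_mod_cast h2
  have h9 : 0 ≤ rho f r := by unfold rho; positivity
  have h10 : (1 : ℝ) / 2 ^ k ≤ 1 := by
    rw [div_le_one (by positivity)]
    exact one_le_pow₀ (by norm_num)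
  have h11 : rho f q * ((Nat.lcm q r : ℕ) : ℝ) ≤ DD f q r := by
    unfold DD
    nlinarith [Nat.cast_nonneg (α := ℝ) (Nat.lcm q r)]
  linarith

open Classical in
/-- THE BLOCK THEOREM (sections 3 to 9). -/
theorem block_theorem (c0 : ℝ) (y0 : ℕ) (ε : ℝ) (hε : 0 < ε) : ∃ C : ℝ, 0 < C ∧ ∃ k0 : ℕ, ∀ (γ : ℝ) (f : ℕ → ℝ) (S : Finset ℕ), Blk c0 f S →
    ∃ (X : Finset ℕ) (cl : ℕ → ℕ → Finset ℤ) (Lg : ℕ → Finset (ℕ × ℤ)),
      X ⊆ S ∧ ∑ q ∈ X, f q ≤ ε ∧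
      (∀ q ∈ S, ∀ μ : ℕ, 0 < μ → (cl q μ).card ≤ 17 * μ.divisors.card) ∧
      (∀ q ∈ S, ∀ x ∈ Lg q, x.1 ∣ q ∧ 0 < x.1) ∧
      (∀ q ∈ S, ∑ x ∈ Lg q, 1 / (x.1 : ℝ) ≤ ε) ∧
      (∀ q ∈ S, ((Lg q).card : ℝ) ≤ (q : ℝ) ^ (3 / 5 : ℝ)) ∧
      ∑ q ∈ S, ∑ r ∈ S, (if q ≠ r ∧ DD f q r ≤ 1 / 2 ^ k0 ∧ Live γ f y0 X cl Lg q r then ov f q r else 0) ≤ C := by
  obtain ⟨Ch, hCh, kh, Hh⟩ := h_main c0
  obtain ⟨kl, Hl⟩ := l_main
  obtain ⟨ks, hks1, Hs⟩ := s_main c0 ε hε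
  obtain ⟨Ce, hCe, ke, hke1, He⟩ := e_main c0
  obtain ⟨kk, hkk1, Hk⟩ := k_main y0
  obtain ⟨Cn, hCn, kn, hkn1, Hn⟩ := n_main c0 y0
  obtain ⟨kg, hkg⟩ : ∃ kg : ℕ, 128 * ((1 : ℝ) / 2) ^ kg ≤ ε := by
    obtain ⟨n, hn⟩ := exists_pow_lt_of_lt_one (show (0 : ℝ) < ε / 128 by positivity) (show (1 : ℝ) / 2 < 1 by norm_num)
    refine ⟨n, ?_⟩
    linarith [hn]
  set k0 : ℕ := kh + kl + ks + ke + kk + kn + kg + 7 with hk0
  refine ⟨2 * ((∑' k, mcu Ch Ce k) + Cn) + 1, ?_, k0, ?_⟩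
  · have : 0 ≤ ∑' k, mcu Ch Ce k := tsum_nonneg (fun k => mcu_nonneg Ch Ce hCh.le hCe.le k)
    positivity
  intro γ f S hB
  -- hubs
  have H : ∀ k : ℕ, ∃ (R : Finset (ℕ × ℕ)) (Hb : Finset (ℕ × ℕ × ℕ)), Hb.card ≤ 2 ^ (10 * k) ∧
      (∀ t ∈ Hb, 0 < t.1 ∧ t.2.1 ≤ t.2.2 + 9 * k ∧ t.2.2 ≤ t.2.1 + 9 * k) ∧
      (k0 ≤ k → (∀ x ∈ R, x.1 ∈ S ∧ x.2 ∈ S) ∧ ∑ x ∈ R, ov f x.1 x.2 ≤ Ch * (2 : ℝ) ^ (-((k : ℝ) / 80)) ∧
        ∀ q r : ℕ, Edge γ f S k q r → rc f q ≤ rc f r →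
        (q, r) ∈ R ∨ (5 * (rc f r - rc f q) ≤ k ∧ ∃ t ∈ Hb, HubEdge γ k t q r)) := by
    intro k
    by_cases hk : k0 ≤ k
    · obtain ⟨R, Hb, h1, h2, h3, h4, h5⟩ := Hh γ f S hB k (by omega)
      exact ⟨R, Hb, h3, h4, fun _ => ⟨h1, h2, h5⟩⟩
    · exact ⟨∅, ∅, by simp, by simp, fun h => absurd h hk⟩
  choose R Hb hHcard hHt hR using H
  -- lcms and exceptional set
  set Ls : ℕ → Finset ℕ := fun k => LsOf k (Hb k) with hLs
  obtain ⟨X, hXS, hXm, hcan⟩ := Hs k0 (by omega) f S hB Ls (fun k => mc_Ls_card k (Hb k) (hHcard k) (hHt k))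
    (fun k l hl => mc_Ls_pos k (Hb k) (hHt k) l hl)
  -- killing classes
  have HK : ∀ q : ℕ, ∃ cl : ℕ → Finset ℤ, (∀ μ : ℕ, 0 < μ → (cl μ).card ≤ 17 * μ.divisors.card) ∧
      (q ∈ S → q ∉ X → ∀ k r : ℕ, SEdge γ k0 f S X Ls k q r → Planar γ k0 k q r → KillAt γ f y0 k0 k q r →
        al γ k0 k q r ∣ q ∧ y0 < al γ k0 k q r ∧
        ∀ P P' : ℤ, Coin γ f q r P P' → ∃ c ∈ cl (al γ k0 k q r), P ≡ c [ZMOD (al γ k0 k q r)]) := by
    intro q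
    by_cases hq : q ∈ S ∧ q ∉ X
    · obtain ⟨cl, h1, h2⟩ := Hk k0 (by omega) c0 γ f S hB X Ls hcan q hq.1 hq.2
      exact ⟨cl, h1, fun _ _ => h2⟩
    · exact ⟨fun _ => ∅, by intro μ _; simp, fun h1 h2 => absurd ⟨h1, h2⟩ hq⟩
  choose cl hcl1 hcl2 using HK
  -- long hub classes
  have HL : ∀ (k : ℕ) (t : ℕ × ℕ × ℕ) (q : ℕ), ∃ Cl : Finset ℤ, (k0 ≤ k → 0 < t.1 → 0 < q → 20 * k ≤ t.2.1 → 20 * k ≤ t.2.2 →
      (Cl.card : ℝ) ≤ 64 * (2 : ℝ) ^ (3 * (k : ℝ) / 4) ∧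
      ∀ r : ℕ, 0 < r → DD f q r ≤ 1 / 2 ^ k → HubEdge γ k t q r → ∀ P P' : ℤ, Coin γ f q r P P' →
        ∃ c ∈ Cl, P ≡ c [ZMOD (q / Nat.gcd q t.1 : ℕ)]) := by
    intro k t q
    by_cases hk : k0 ≤ k ∧ 0 < t.1 ∧ 0 < q ∧ 20 * k ≤ t.2.1 ∧ 20 * k ≤ t.2.2
    · obtain ⟨Cl, h1, h2⟩ := Hl k (by omega) γ f t q hk.2.1 hk.2.2.1 hk.2.2.2.1 hk.2.2.2.2
      exact ⟨Cl, fun _ _ _ _ _ => ⟨h1, h2⟩⟩
    · exact ⟨∅, fun h1 h2 h3 h4 h5 => absurd ⟨h1, h2, h3, h4, h5⟩ hk⟩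
  choose Cl hCl using HL
  set Lg : ℕ → Finset (ℕ × ℤ) := fun q => LgOf Cl Hb k0 q with hLg
  have hClb : ∀ q, 0 < q → ∀ k, k0 ≤ k → ∀ t ∈ Hb k, 20 * k ≤ t.2.1 → 20 * k ≤ t.2.2 →
      ((Cl k t q).card : ℝ) ≤ 64 * (2 : ℝ) ^ (3 * (k : ℝ) / 4) := by
    intro q hq k hk t ht h1 h2
    exact (hCl k t q hk (hHt k t ht).1 hq h1 h2).1
  have hgeo : 128 * ((1 : ℝ) / 2) ^ k0 ≤ ε := by
    refine le_trans ?_ hkg
    apply mul_le_mul_of_nonneg_left _ (by norm_num)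
    exact pow_le_pow_of_le_one (by norm_num) (by norm_num) (by omega)
  refine ⟨X, cl, Lg, hXS, hXm, fun q _ => hcl1 q, fun q hq x hx => mc_Lg_dvd Cl Hb k0 q (hB.pos q hq) x hx,
    fun q hq => le_trans (mc_Lg_sum Cl Hb k0 q (hB.pos q hq) hHcard (hClb q (hB.pos q hq))) hgeo,
    fun q hq => mc_Lg_card Cl Hb k0 q (by omega) (hB.pos q hq) hHcard (hClb q (hB.pos q hq)), ?_⟩
  -- classification of live pairs
  have hclass : ∀ q ∈ S, ∀ r ∈ S, q ≠ r → DD f q r ≤ 1 / 2 ^ k0 → Live γ f y0 X cl Lg q r → rc f q ≤ rc f r →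
      ∃ k : ℕ, k0 ≤ k ∧ ((q, r) ∈ R k ∨ (SEdge γ k0 f S X Ls k q r ∧ Generic γ k0 k q r) ∨
        (SEdge γ k0 f S X Ls k q r ∧ ¬ Generic γ k0 k q r ∧ ((boxP γ k0 k q r).card = 1 ∨
          (2 ≤ (boxP γ k0 k q r).card ∧ ¬ KillAt γ f y0 k0 k q r ∧ ¬ KillAt γ f y0 k0 k r q)))) := by
    intro q hq r hr hne hD hlive hrc
    obtain ⟨k, hk, hk1, hk2⟩ := mc_level (DD f q r) (mc_DD_pos c0 f S hB q r hq hr) k0 hD
    obtain ⟨P, P', hP, hP', hcoin⟩ := hlive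
    have hedge := mc_edge γ f S k q r hq hr hne hk1 hk2 P P' hcoin
    have hq0 := hB.pos q hq
    have hr0 := hB.pos r hr
    refine ⟨k, hk, ?_⟩
    rcases (hR k hk).2.2 q r hedge hrc with h | ⟨h5, t, ht, hhub⟩
    · exact Or.inl h
    right
    have ht0 := (hHt k t ht).1
    by_cases hlong : 20 * k ≤ t.2.1 ∧ 20 * k ≤ t.2.2
    · -- long hub: dead
      exfalso
      obtain ⟨c, hc, hPc⟩ := (hCl k t q hk ht0 hq0 hlong.1 hlong.2).2 r hr0 hk1 hhub P P' hcoin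
      have hmem := mc_Lg_mem Cl Hb k0 q hq0 k hk t ht hlong.1 hlong.2 hhub.1 c hc
      exact hP.2.2.2 _ hmem hPc
    · have hs : t.2.1 < 20 * k ∨ t.2.2 < 20 * k := by omega
      have hlcm : Nat.lcm q r ∈ Ls k := mc_Ls_mem γ k (Hb k) t ht ht0 hs q r hq0 hr0 hhub
      have hse : SEdge γ k0 f S X Ls k q r := ⟨hk, hedge, hP.1, hP'.1, hlcm, h5, by omega⟩
      by_cases hgen : Generic γ k0 k q r
      · exact Or.inl ⟨hse, hgen⟩
      right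
      refine ⟨hse, hgen, ?_⟩
      have hbox := mc_in_box γ k0 f S k q r hq0 hr0 hedge
      have hcard : 0 < (boxP γ k0 k q r).card := Finset.card_pos.2 ⟨_, hbox⟩
      by_cases h1 : (boxP γ k0 k q r).card = 1
      · exact Or.inl h1
      right
      have h2 : 2 ≤ (boxP γ k0 k q r).card := by omega
      have hpl : Planar γ k0 k q r := ⟨hgen, h2⟩
      refine ⟨h2, ?_, ?_⟩
      · intro hkill
        obtain ⟨ha, hb, hc⟩ := hcl2 q hq hP.1 k r hse hpl hkill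
        obtain ⟨c, hc1, hc2⟩ := hc P P' hcoin
        exact hP.2.2.1 _ ha hb c hc1 hc2
      · intro hkill
        obtain ⟨ha, hb, hc⟩ := hcl2 r hr hP'.1 k q (mc_sedge_swap _ _ _ _ _ _ _ _ _ hse) (mc_planar_swap _ _ _ _ _ hpl) hkill
        obtain ⟨c, hc1, hc2⟩ := hc P' P (mc_coin _ _ _ _ _ _ hcoin)
        exact hP'.2.2.1 _ ha hb c hc1 hc2
  set A : Finset (ℕ × ℕ) := (S ×ˢ S).filter (fun x => (x.1 ≠ x.2 ∧ DD f x.1 x.2 ≤ 1 / 2 ^ k0 ∧ Live γ f y0 X cl Lg x.1 x.2) ∧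
    rc f x.1 ≤ rc f x.2) with hA
  have hAmem : ∀ x ∈ A, x.1 ∈ S ∧ x.2 ∈ S := by
    intro x hx
    rw [hA, mem_filter, mem_product] at hx
    exact hx.1
  have hov : ∀ x : ℕ × ℕ, x.1 ∈ S → x.2 ∈ S → 0 ≤ ov f x.1 x.2 := fun x h1 h2 =>
    mc_ov_nonneg f x.1 x.2 (hB.fpos _ h1).le (hB.fpos _ h2).le
  have hchoose : ∀ x : ℕ × ℕ, ∃ k : ℕ, x ∈ A → k0 ≤ k ∧ (x ∈ R k ∨ (SEdge γ k0 f S X Ls k x.1 x.2 ∧ Generic γ k0 k x.1 x.2) ∨
        (SEdge γ k0 f S X Ls k x.1 x.2 ∧ ¬ Generic γ k0 k x.1 x.2 ∧ ((boxP γ k0 k x.1 x.2).card = 1 ∨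
          (2 ≤ (boxP γ k0 k x.1 x.2).card ∧ ¬ KillAt γ f y0 k0 k x.1 x.2 ∧ ¬ KillAt γ f y0 k0 k x.2 x.1)))) := by
    intro x
    by_cases hx : x ∈ A
    · have hx' := hx
      rw [hA, mem_filter, mem_product] at hx'
      obtain ⟨⟨h1, h2⟩, ⟨h3, h4, h5⟩, h6⟩ := hx'
      obtain ⟨k, hk, hc⟩ := hclass x.1 h1 x.2 h2 h3 h4 h5 h6
      exact ⟨k, fun _ => ⟨hk, hc⟩⟩
    · exact ⟨0, fun h => absurd h hx⟩
  choose lev hlev using hchoose
  set M : ℕ := (A.sup lev) + 1 with hM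
  have hlevM : ∀ x ∈ A, lev x < M := by
    intro x hx
    have := Finset.le_sup (f := lev) hx
    omega
  -- the three parts
  set E1 : ℕ → Finset (ℕ × ℕ) := fun k => A.filter (fun x => SEdge γ k0 f S X Ls k x.1 x.2 ∧ Generic γ k0 k x.1 x.2) with hE1
  set A3 : Finset (ℕ × ℕ) := A.filter (fun x => SEdge γ k0 f S X Ls (lev x) x.1 x.2 ∧ ¬ Generic γ k0 (lev x) x.1 x.2 ∧
    ((boxP γ k0 (lev x) x.1 x.2).card = 1 ∨
          (2 ≤ (boxP γ k0 (lev x) x.1 x.2).card ∧ ¬ KillAt γ f y0 k0 (lev x) x.1 x.2 ∧ ¬ KillAt γ f y0 k0 (lev x) x.2 x.1))) with hA3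
  have hsub : A ⊆ (Ico k0 M).biUnion (fun k => (R k) ∪ E1 k) ∪ A3 := by
    intro x hx
    obtain ⟨hk, hc⟩ := hlev x hx
    rw [mem_union, mem_biUnion]
    rcases hc with h | h | h
    · left
      exact ⟨lev x, mem_Ico.2 ⟨hk, hlevM x hx⟩, mem_union_left _ h⟩
    · left
      exact ⟨lev x, mem_Ico.2 ⟨hk, hlevM x hx⟩, mem_union_right _ (mem_filter.2 ⟨hx, h⟩)⟩
    · right
      exact mem_filter.2 ⟨hx, h⟩
  have habs : ∀ (B : Finset (ℕ × ℕ)), (∀ x ∈ B, x.1 ∈ S ∧ x.2 ∈ S) →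
      ∑ x ∈ B, |ov f x.1 x.2| = ∑ x ∈ B, ov f x.1 x.2 := by
    intro B hBS
    apply Finset.sum_congr rfl
    intro x hx
    exact abs_of_nonneg (hov x (hBS x hx).1 (hBS x hx).2)
  have hsumA : ∑ x ∈ A, ov f x.1 x.2 ≤ (∑' k, mcu Ch Ce k) + Cn := by
    rw [← habs A hAmem]
    calc ∑ x ∈ A, |ov f x.1 x.2| ≤ ∑ x ∈ (Ico k0 M).biUnion (fun k => (R k) ∪ E1 k) ∪ A3, |ov f x.1 x.2| :=
          Finset.sum_le_sum_of_subset_of_nonneg hsub (fun x _ _ => abs_nonneg _)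
      _ ≤ ∑ x ∈ (Ico k0 M).biUnion (fun k => (R k) ∪ E1 k), |ov f x.1 x.2| + ∑ x ∈ A3, |ov f x.1 x.2| := by
          rw [← Finset.sum_union_inter]
          have : 0 ≤ ∑ x ∈ (Ico k0 M).biUnion (fun k => (R k) ∪ E1 k) ∩ A3, |ov f x.1 x.2| :=
            Finset.sum_nonneg (fun x _ => abs_nonneg _)
          linarith
      _ ≤ (∑' k, mcu Ch Ce k) + Cn := by
          apply add_le_add
          · refine le_trans (mc_sum_biUnion _ _ _ (fun x => abs_nonneg _)) ?_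
            refine le_trans (Finset.sum_le_sum (g := mcu Ch Ce) ?_)
              ((mcu_summable Ch Ce).sum_le_tsum _ (fun k _ => mcu_nonneg Ch Ce hCh.le hCe.le k))
            intro k hk
            rw [mem_Ico] at hk
            have h1 : ∑ x ∈ R k ∪ E1 k, |ov f x.1 x.2| ≤ ∑ x ∈ R k, |ov f x.1 x.2| + ∑ x ∈ E1 k, |ov f x.1 x.2| := by
              rw [← Finset.sum_union_inter]
              have : 0 ≤ ∑ x ∈ R k ∩ E1 k, |ov f x.1 x.2| := Finset.sum_nonneg (fun x _ => abs_nonneg _)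
              linarith
            have h2 := (hR k hk.1)
            have h3 : ∑ x ∈ R k, |ov f x.1 x.2| ≤ Ch * (2 : ℝ) ^ (-((k : ℝ) / 80)) := by
              rw [habs (R k) h2.1]
              exact h2.2.1
            have h4 : ∑ x ∈ E1 k, |ov f x.1 x.2| ≤ Ce * (k : ℝ) ^ 4 * (2 : ℝ) ^ (-((k : ℝ) / 80)) := by
              rw [habs (E1 k) (fun x hx => hAmem x (mem_filter.1 hx).1)]
              exact He k0 (by omega) γ f S hB X Ls hcan k hk.1 (E1 k) (fun x hx => (mem_filter.1 hx).2)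
            unfold mcu
            linarith
          · rw [habs A3 (fun x hx => hAmem x (mem_filter.1 hx).1)]
            have h1 := Hn k0 (by omega) γ f S hB X Ls hcan (A3.image (fun x => (lev x, x.1, x.2))) (by
              intro y hy
              rw [mem_image] at hy
              obtain ⟨x, hx, rfl⟩ := hy
              exact (mem_filter.1 hx).2)
            rw [Finset.sum_image (by
              intro x _ y _ hxy
              simp only [Prod.mk.injEq] at hxy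
              exact Prod.ext hxy.2.1 hxy.2.2)] at h1
            exact h1
  -- both orders
  have hsplit : ∑ q ∈ S, ∑ r ∈ S, (if q ≠ r ∧ DD f q r ≤ 1 / 2 ^ k0 ∧ Live γ f y0 X cl Lg q r then ov f q r else 0) ≤
      ∑ x ∈ A, ov f x.1 x.2 + ∑ x ∈ A, ov f x.1 x.2 := by
    rw [← Finset.sum_product' S S (fun q r => (if q ≠ r ∧ DD f q r ≤ 1 / 2 ^ k0 ∧ Live γ f y0 X cl Lg q r then ov f q r else 0)),
      ← Finset.sum_filter]
    have hsub2 : (S ×ˢ S).filter (fun x : ℕ × ℕ => x.1 ≠ x.2 ∧ DD f x.1 x.2 ≤ 1 / 2 ^ k0 ∧ Live γ f y0 X cl Lg x.1 x.2) ⊆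
        A ∪ A.image Prod.swap := by
      intro x hx
      rw [mem_filter, mem_product] at hx
      obtain ⟨⟨h1, h2⟩, h3, h4, h5⟩ := hx
      rcases le_total (rc f x.1) (rc f x.2) with h | h
      · apply mem_union_left
        rw [hA, mem_filter, mem_product]
        exact ⟨⟨h1, h2⟩, ⟨h3, h4, h5⟩, h⟩
      · apply mem_union_right
        rw [mem_image]
        refine ⟨Prod.swap x, ?_, Prod.swap_swap x⟩
        rw [hA, mem_filter, mem_product]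
        refine ⟨⟨h2, h1⟩, ⟨h3.symm, ?_, mc_live _ _ _ _ _ _ _ _ h5⟩, h⟩
        rw [Prod.fst_swap, Prod.snd_swap, mc_DD]
        exact h4
    have hAi : ∀ x ∈ A.image Prod.swap, x.1 ∈ S ∧ x.2 ∈ S := by
      intro x hx
      rw [mem_image] at hx
      obtain ⟨y, hy, rfl⟩ := hx
      exact ⟨(hAmem y hy).2, (hAmem y hy).1⟩
    calc _ ≤ ∑ x ∈ A ∪ A.image Prod.swap, ov f x.1 x.2 := by
          apply Finset.sum_le_sum_of_subset_of_nonneg hsub2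
          intro x hx _
          rw [mem_union] at hx
          rcases hx with hx | hx
          · exact hov x (hAmem x hx).1 (hAmem x hx).2
          · exact hov x (hAi x hx).1 (hAi x hx).2
      _ ≤ ∑ x ∈ A, ov f x.1 x.2 + ∑ x ∈ A.image Prod.swap, ov f x.1 x.2 := by
          rw [← Finset.sum_union_inter]
          have : 0 ≤ ∑ x ∈ A ∩ A.image Prod.swap, ov f x.1 x.2 := by
            apply Finset.sum_nonneg
            intro x hx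
            rw [mem_inter] at hx
            exact hov x (hAmem x hx.1).1 (hAmem x hx.1).2
          linarith
      _ = ∑ x ∈ A, ov f x.1 x.2 + ∑ x ∈ A, ov f x.1 x.2 := by
          congr 1
          rw [Finset.sum_image (by
            intro x _ y _ hxy
            exact Prod.swap_injective hxy)]
          apply Finset.sum_congr rfl
          intro x _
          rw [Prod.fst_swap, Prod.snd_swap, mc_ov]
  refine le_trans hsplit ?_
  linarith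

end Pool.Agent.H20G
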