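import Mathlib
import Pool.Agent.Lib.H20G.Core
import Pool.Agent.Lib.H20G.BMain
import Pool.Agent.Lib.H20G.MC
import Pool.Agent.Lib.H20G.A0

set_option autoImplicit false

/-!
# H20G chunk BT: `BlockThm C0` from the block theorem and the local distortion lemma
-/

namespace Pool.Agent.H20G

open Finset

lemma bt_rp (C0 : ℝ) (hC0 : 1 ≤ C0) (q : ℕ) (hq : 0 < q) (h : (q : ℝ) ≤ C0 * (Nat.totient q : ℝ)) :
    rp q ≤ Real.log C0 := by
  have hqR : (0 : ℝ) < q := by exact_mod_cast hq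
  have hphi : (0 : ℝ) < Nat.totient q := by exact_mod_cast Nat.totient_pos.2 hq
  have h1 : (Nat.totient q : ℝ) = q * ∏ p ∈ q.primeFactors, (1 - 1 / (p : ℝ)) := by
    have := Nat.totient_eq_mul_prod_factors q
    have h2 : ((Nat.totient q : ℚ) : ℝ) = ((q * ∏ p ∈ q.primeFactors, (1 - (p : ℚ)⁻¹) : ℚ) : ℝ) := by
      rw [this]
    push_cast at h2
    rw [h2]
    congr 1
    apply Finset.prod_congr rfl
    intro p _
    rw [one_div]
  have h3 : ∏ p ∈ q.primeFactors, (1 - 1 / (p : ℝ)) ≤ Real.exp (-(rp q)) := by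
    unfold rp
    rw [← Finset.sum_neg_distrib, Real.exp_sum]
    apply Finset.prod_le_prod
    · intro p hp
      have hp2 : (2 : ℝ) ≤ p := by exact_mod_cast (Nat.prime_of_mem_primeFactors hp).two_le
      have : 1 / (p : ℝ) ≤ 1 := by
        rw [div_le_one (by linarith)]
        linarith
      linarith
    · intro p _
      have := Real.add_one_le_exp (-(1 / (p : ℝ)))
      linarith
  have h4 : 1 ≤ C0 * Real.exp (-(rp q)) := by
    have h5 : (q : ℝ) ≤ C0 * (q * Real.exp (-(rp q))) := by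
      refine le_trans h ?_
      apply mul_le_mul_of_nonneg_left _ (by linarith)
      rw [h1]
      exact mul_le_mul_of_nonneg_left h3 hqR.le
    have h6 : (q : ℝ) * 1 ≤ q * (C0 * Real.exp (-(rp q))) := by
      rw [mul_one]
      refine le_trans h5 (le_of_eq ?_)
      ring
    exact le_of_mul_le_mul_left h6 hqR
  have h5 : Real.exp (rp q) ≤ C0 := by
    rw [Real.exp_neg] at h4
    have h6 : 0 < Real.exp (rp q) := Real.exp_pos _
    rw [← div_eq_mul_inv, le_div_iff₀ h6] at h4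
    linarith
  rw [Real.le_log_iff_exp_le (by linarith)]
  exact h5

lemma bt_DD (lev : ℕ → ℕ) (q r : ℕ) (hq : 0 < q) (hr : 0 < r) : DD (ms lev) q r = Dqr lev q r := by
  unfold DD Dqr rho
  have hqR : (q : ℝ) ≠ 0 := by exact_mod_cast hq.ne'
  have hrR : (r : ℝ) ≠ 0 := by exact_mod_cast hr.ne'
  have hg : (Nat.gcd q r : ℝ) ≠ 0 := by exact_mod_cast (Nat.gcd_pos_of_pos_left r hq).ne'
  have h1 : ((Nat.gcd q r : ℕ) : ℝ) * ((Nat.lcm q r : ℕ) : ℝ) = q * r := by
    exact_mod_cast Nat.gcd_mul_lcm q r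
  have h2 : ((Nat.lcm q r : ℕ) : ℝ) = q * r / (Nat.gcd q r : ℝ) := by
    rw [eq_div_iff hg, mul_comm, h1]
  rw [h2]
  field_simp

lemma bt_coin (γ : ℝ) (lev : ℕ → ℕ) (q r : ℕ) (hq : 0 < q) (hr : 0 < r) (p p' : ℤ)
    (h : |((((r / Nat.gcd q r : ℕ) : ℤ) * p - ((q / Nat.gcd q r : ℕ) : ℤ) * p' : ℤ) : ℝ) +
      (((r / Nat.gcd q r : ℕ) : ℝ) - ((q / Nat.gcd q r : ℕ) : ℝ)) * γ| < Dqr lev q r) : Coin γ (ms lev) q r p p' := by
  unfold Coin aa bb
  rw [bt_DD lev q r hq hr]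
  refine lt_of_eq_of_lt ?_ h
  congr 1
  rw [Int.cast_sub, Int.cast_mul, Int.cast_mul, Int.cast_natCast, Int.cast_natCast]
  ring

open Classical in
theorem block_thm (C0 : ℝ) (hC0 : 1 ≤ C0) : BlockThm C0 := by
  obtain ⟨y0, c, ε1, hc, hε1, hloc⟩ := b_local C0 hC0
  have hε : 0 < min ε1 (1 / 2) := lt_min hε1 (by norm_num)
  obtain ⟨C, hC, k0, hblock⟩ := block_theorem (Real.log C0) y0 (min ε1 (1 / 2)) hε
  refine ⟨2 ^ k0, C, c, one_le_pow₀ (by norm_num), hC, hc, ?_⟩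
  intro γ δ hδ
  obtain ⟨q0, hq0⟩ := hloc δ hδ
  refine ⟨q0, ?_⟩
  intro S lev hS h1 h2
  have hB : Blk (Real.log C0) (ms lev) S := by
    refine ⟨fun q hq => (hS q hq).2.1, fun q hq => ?_, fun q hq => ?_, fun q hq => ?_, h2⟩
    · unfold ms
      positivity
    · unfold ms
      calc ((1 : ℝ) / 2) ^ (lev q) ≤ (1 / 2) ^ 4 :=
            pow_le_pow_of_le_one (by norm_num) (by norm_num) (hS q hq).2.2.1
        _ = 1 / 16 := by norm_num
    · exact bt_rp C0 hC0 q (hS q hq).2.1 (hS q hq).2.2.2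
  obtain ⟨X, cl, Lg, hXS, hXm, hcl, hLg1, hLg2, hLg3, hsum⟩ := hblock γ (ms lev) S hB
  refine ⟨S \ X, fun q => {p : ℤ | Alive y0 X cl Lg q p}, Finset.sdiff_subset, ?_, ?_, ?_, ?_⟩
  · have h3 : ∑ q ∈ S \ X, ms lev q + ∑ q ∈ X, ms lev q = ∑ q ∈ S, ms lev q := Finset.sum_sdiff hXS
    have h4 : min ε1 (1 / 2) ≤ 1 / 2 := min_le_right _ _
    linarith
  · intro q _ p hp
    exact hp.2.1
  · intro q hq u n hn
    rw [mem_sdiff] at hq
    have hqS := hS q hq.1
    have := hq0 q hqS.1 hqS.2.2.2 (cl q) (fun μ hμ _ => hcl q hq.1 μ (Nat.pos_of_dvd_of_pos hμ hqS.2.1)) (Lg q)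
      (hLg1 q hq.1) (le_trans (hLg2 q hq.1) (min_le_left _ _)) (hLg3 q hq.1) u n hn
    refine ⟨_, ?_, this⟩
    intro p hp
    rw [mem_filter, mem_Ico] at hp
    refine ⟨?_, hp.1.1, hp.1.2⟩
    refine ⟨hq.2, hp.2.1, ?_, hp.2.2.2⟩
    intro μ hμ hy c hc
    exact hp.2.2.1 μ (Nat.mem_divisors.2 ⟨hμ, hqS.2.1.ne'⟩) hy c hc
  · refine le_trans ?_ hsum
    have hnn : ∀ q ∈ S, ∀ r ∈ S, 0 ≤ (if q ≠ r ∧ DD (ms lev) q r ≤ 1 / 2 ^ k0 ∧ Live γ (ms lev) y0 X cl Lg q r then ov (ms lev) q r else 0) := by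
      intro q hq r hr
      split_ifs with h
      · exact mc_ov_nonneg _ _ _ (hB.fpos q hq).le (hB.fpos r hr).le
      · exact le_refl _
    refine le_trans (Finset.sum_le_sum (g := fun q => ∑ r ∈ S,
      (if q ≠ r ∧ DD (ms lev) q r ≤ 1 / 2 ^ k0 ∧ Live γ (ms lev) y0 X cl Lg q r then ov (ms lev) q r else 0)) ?_) ?_
    · intro q hq
      rw [mem_sdiff] at hq
      refine le_trans (Finset.sum_le_sum (g := fun r =>
        (if q ≠ r ∧ DD (ms lev) q r ≤ 1 / 2 ^ k0 ∧ Live γ (ms lev) y0 X cl Lg q r then ov (ms lev) q r else 0)) ?_) ?_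
      · intro r hr
        rw [mem_sdiff] at hr
        have hq1 := (hS q hq.1).2.1
        have hr1 := (hS r hr.1).2.1
        split_ifs with h3 h4 h4
        · have h5 : 0 ≤ ov (ms lev) q r := mc_ov_nonneg _ _ _ (hB.fpos q hq.1).le (hB.fpos r hr.1).le
          unfold ov rho at h5 ⊢
          linarith
        · exfalso
          apply h4
          refine ⟨h3.1, ?_, ?_⟩
          · rw [bt_DD lev q r hq1 hr1, le_div_iff₀ (by positivity)]
            have := h3.2.1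
            linarith
          · obtain ⟨p, hp, p', hp', hm⟩ := h3.2.2
            exact ⟨p, p', hp, hp', bt_coin γ lev q r hq1 hr1 p p' hm⟩
        · exact mc_ov_nonneg _ _ _ (hB.fpos q hq.1).le (hB.fpos r hr.1).le
        · exact le_refl _
      · exact Finset.sum_le_sum_of_subset_of_nonneg Finset.sdiff_subset (fun r hr _ => hnn q hq.1 r hr)
    · exact Finset.sum_le_sum_of_subset_of_nonneg Finset.sdiff_subset
        (fun q hq _ => Finset.sum_nonneg (fun r hr => hnn q hq r hr))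

end Pool.Agent.H20G
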