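import Mathlib

/-!
# H20G, module N (section 9 of PROOF.md), file 1: divisor sums

The sum of `1 / h` over the divisors `h` of `q` with `s` prime factors is `≤ 4^{-s} e^{8 c₀}`.
-/

set_option autoImplicit false
open scoped BigOperators
open Finset

namespace Pool.Agent.Lib.H20G

/-- The weight `4 ^ ω(h) / h`. -/
noncomputable def n1f (h : ℕ) : ℝ := 4 ^ h.primeFactors.card / h

theorem n1f_nonneg (h : ℕ) : 0 ≤ n1f h := by unfold n1f; positivity

theorem n1f_one : n1f 1 = 1 := by simp [n1f]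

theorem n1f_mul {a b : ℕ} (hab : a.Coprime b) : n1f (a * b) = n1f a * n1f b := by
  unfold n1f
  rw [Nat.Coprime.primeFactors_mul hab, Finset.card_union_of_disjoint hab.disjoint_primeFactors,
    pow_add]
  push_cast
  rw [mul_div_mul_comm]

theorem n1_geom (x : ℝ) (hx0 : 0 ≤ x) (hx : x ≤ 1 / 2) (k : ℕ) :
    ∑ i ∈ range k, x ^ (i + 1) ≤ 2 * x := by
  have h : ∀ k : ℕ, ∑ i ∈ range k, x ^ (i + 1) ≤ 2 * x * (1 - (1 / 2) ^ k) := by
    intro k
    induction k with
    | zero => simp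
    | succ k ih =>
      rw [Finset.sum_range_succ]
      have h1 : x ^ (k + 1) ≤ x * (1 / 2) ^ k := by
        rw [pow_succ, mul_comm]
        exact mul_le_mul_of_nonneg_left (pow_le_pow_left₀ hx0 hx k) hx0
      have h2 : x * (1 / 2 : ℝ) ^ k = 2 * x * (1 / 2) ^ (k + 1) := by rw [pow_succ]; ring
      nlinarith
  refine (h k).trans ?_
  have : 0 ≤ 2 * x * (1 / 2 : ℝ) ^ k := by positivity
  nlinarith

theorem n1_prime_pow {p : ℕ} (hp : p.Prime) (k : ℕ) :
    ∑ h ∈ (p ^ k).divisors, n1f h ≤ Real.exp (8 / p) := by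
  rw [Nat.sum_divisors_prime_pow hp, Finset.sum_range_succ']
  have hp0 : (0 : ℝ) < p := by exact_mod_cast hp.pos
  have hp2 : (2 : ℝ) ≤ p := by exact_mod_cast hp.two_le
  have h1 : ∀ i ∈ range k, n1f (p ^ (i + 1)) = 4 * (1 / (p : ℝ)) ^ (i + 1) := by
    intro i _
    unfold n1f
    rw [Nat.primeFactors_prime_pow (Nat.succ_ne_zero i) hp]
    simp
    ring
  rw [Finset.sum_congr rfl h1, ← Finset.mul_sum, pow_zero, n1f_one]
  have h2 := n1_geom (1 / (p : ℝ)) (by positivity) (by
    rw [div_le_div_iff₀ hp0 (by norm_num)]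
    linarith) k
  have h3 := Real.add_one_le_exp (8 / (p : ℝ))
  have h4 : (8 : ℝ) / p = 4 * (2 * (1 / p)) := by ring
  linarith

theorem n1_coprime {a b : ℕ} (hab : a.Coprime b) :
    ∑ h ∈ (a * b).divisors, n1f h ≤
      (∑ h ∈ a.divisors, n1f h) * ∑ h ∈ b.divisors, n1f h := by
  classical
  rw [Finset.sum_mul_sum, ← Finset.sum_product', Nat.divisors_mul, Finset.mul_def]
  refine le_trans (Finset.sum_image_le_of_nonneg ?_) ?_
  · intro x _
    exact n1f_nonneg _
  · refine le_of_eq (Finset.sum_congr rfl fun x hx => ?_)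
    rw [Finset.mem_product, Nat.mem_divisors, Nat.mem_divisors] at hx
    exact n1f_mul (Nat.Coprime.of_dvd hx.1.1 hx.2.1 hab)

/-- **N1.** -/
theorem N1_sum (q : ℕ) (hq : q ≠ 0) :
    ∑ h ∈ q.divisors, n1f h ≤ Real.exp (8 * ∑ p ∈ q.primeFactors, (1 / p : ℝ)) := by
  revert hq
  refine Nat.recOnPosPrimePosCoprime ?_ ?_ ?_ ?_ q
  · intro p k hp hk _
    rw [Nat.primeFactors_prime_pow hk.ne' hp, Finset.sum_singleton]
    have := n1_prime_pow hp k
    rwa [show (8 : ℝ) * (1 / p) = 8 / p by ring]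
  · intro h; exact absurd rfl h
  · intro _
    simp [n1f_one]
  · intro a b ha hb hab iha ihb _
    refine (n1_coprime hab).trans ?_
    rw [Nat.Coprime.primeFactors_mul hab, Finset.sum_union hab.disjoint_primeFactors, mul_add,
      Real.exp_add]
    exact mul_le_mul (iha (by omega)) (ihb (by omega))
      (Finset.sum_nonneg fun h _ => n1f_nonneg h) (Real.exp_pos _).le

/-- **N1.** The sum of `1 / h` over the divisors with `s` prime factors. -/
theorem N1_omega (q : ℕ) (hq : q ≠ 0) (c₀ : ℝ) (hc : ∑ p ∈ q.primeFactors, (1 / p : ℝ) ≤ c₀)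
    (s : ℕ) :
    ∑ h ∈ q.divisors.filter (fun h => h.primeFactors.card = s), (1 / h : ℝ) ≤
      Real.exp (8 * c₀) / 4 ^ s := by
  rw [le_div_iff₀ (by positivity), Finset.sum_mul]
  have h1 : ∀ h ∈ q.divisors.filter (fun h => h.primeFactors.card = s),
      (1 / h : ℝ) * 4 ^ s = n1f h := by
    intro h hh
    unfold n1f
    rw [(Finset.mem_filter.mp hh).2]
    ring
  rw [Finset.sum_congr rfl h1]
  refine (Finset.sum_le_sum_of_subset_of_nonneg (Finset.filter_subset _ _)
    fun h _ _ => n1f_nonneg h).trans ((N1_sum q hq).trans ?_)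
  exact Real.exp_le_exp.mpr (by linarith)

end Pool.Agent.Lib.H20G
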