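import Pool.Agent.Lib.H20G.N1

/-!
# H20G, module N (section 9), file 2: the sum over the edges of one type, counted from one side
-/

set_option autoImplicit false
open scoped BigOperators
open Finset

namespace Pool.Agent.Lib.H20G

/-- **N2.** The edges of one type, counted from the side of the vertex `v e`: if `k e` divides `v e`
and has `s` prime factors, `o e ≤ m (v e) * c / k e`, and at most `N` edges have a given `v e` and
`k e`, then the sum of `o` is at most `c N e^{8 c₀} 4^{-s} Σ m`. -/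
theorem N2_side {ι : Type*} (E : Finset ι) (S : Finset ℕ) (v k : ι → ℕ) (m : ℕ → ℝ) (o : ι → ℝ)
    (c N c₀ : ℝ) (s : ℕ) (hm : ∀ q ∈ S, 0 ≤ m q) (hc : 0 ≤ c) (hN0 : 0 ≤ N)
    (hS0 : ∀ q ∈ S, q ≠ 0) (hS : ∀ q ∈ S, ∑ p ∈ q.primeFactors, (1 / p : ℝ) ≤ c₀)
    (hv : ∀ e ∈ E, v e ∈ S) (hk : ∀ e ∈ E, k e ∣ v e) (hω : ∀ e ∈ E, (k e).primeFactors.card = s)
    (ho : ∀ e ∈ E, o e ≤ m (v e) * (c * (1 / (k e : ℝ))))
    (hN : ∀ q ∈ S, ∀ x, ((E.filter (fun e => v e = q ∧ k e = x)).card : ℝ) ≤ N) :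
    ∑ e ∈ E, o e ≤ c * N * (Real.exp (8 * c₀) / 4 ^ s) * ∑ q ∈ S, m q := by
  classical
  have h1 : ∑ e ∈ E, o e ≤ ∑ e ∈ E, m (v e) * (c * (1 / (k e : ℝ))) := Finset.sum_le_sum ho
  refine h1.trans ?_
  rw [← Finset.sum_fiberwise_of_maps_to hv, Finset.mul_sum]
  refine Finset.sum_le_sum fun q hq => ?_
  have h2 : ∑ e ∈ E.filter (fun e => v e = q), m (v e) * (c * (1 / (k e : ℝ))) =
      m q * c * ∑ e ∈ E.filter (fun e => v e = q), (1 / (k e : ℝ)) := by
    rw [Finset.mul_sum]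
    refine Finset.sum_congr rfl fun e he => ?_
    rw [(Finset.mem_filter.mp he).2]
    ring
  rw [h2]
  have hmaps : ∀ e ∈ E.filter (fun e => v e = q),
      k e ∈ q.divisors.filter (fun h => h.primeFactors.card = s) := by
    intro e he
    obtain ⟨heE, heq⟩ := Finset.mem_filter.mp he
    rw [Finset.mem_filter, Nat.mem_divisors]
    exact ⟨⟨heq ▸ hk e heE, hS0 q hq⟩, hω e heE⟩
  have h3 : ∑ e ∈ E.filter (fun e => v e = q), (1 / (k e : ℝ)) ≤
      N * (Real.exp (8 * c₀) / 4 ^ s) := by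
    rw [← Finset.sum_fiberwise_of_maps_to hmaps]
    have h4 : ∀ x ∈ q.divisors.filter (fun h => h.primeFactors.card = s),
        ∑ e ∈ (E.filter (fun e => v e = q)).filter (fun e => k e = x), (1 / (k e : ℝ)) ≤
          N * (1 / (x : ℝ)) := by
      intro x _
      have h5 : ∑ e ∈ (E.filter (fun e => v e = q)).filter (fun e => k e = x), (1 / (k e : ℝ)) =
          ((E.filter (fun e => v e = q ∧ k e = x)).card : ℝ) * (1 / (x : ℝ)) := by
        rw [Finset.filter_filter, ← nsmul_eq_mul, ← Finset.sum_const]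
        refine Finset.sum_congr rfl fun e he => ?_
        rw [(Finset.mem_filter.mp he).2.2]
      rw [h5]
      exact mul_le_mul_of_nonneg_right (hN q hq x) (by positivity)
    refine (Finset.sum_le_sum h4).trans ?_
    rw [← Finset.mul_sum]
    exact mul_le_mul_of_nonneg_left (N1_omega q (hS0 q hq) c₀ (hS q hq) s) hN0
  calc m q * c * ∑ e ∈ E.filter (fun e => v e = q), (1 / (k e : ℝ))
      ≤ m q * c * (N * (Real.exp (8 * c₀) / 4 ^ s)) :=
        mul_le_mul_of_nonneg_left h3 (mul_nonneg (hm q hq) hc)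
    _ = c * N * (Real.exp (8 * c₀) / 4 ^ s) * m q := by ring

end Pool.Agent.Lib.H20G
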