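import Mathlib

/-!
# H20G, module N (section 9), file 3: the number of edges of one type at a vertex
-/

set_option autoImplicit false
open scoped BigOperators
open Finset

namespace Pool.Agent.Lib.H20G

/-- **N3.** At most one isolated edge, and at most `R ^ 2` planar ones. -/
theorem N3_count {ι : Type*} (F : Finset ι) (iso : ι → Prop) (al be : ι → ℕ) (R : ℝ)
    (hR : 0 ≤ R) (h1 : ∀ e ∈ F, ∀ f ∈ F, iso e → iso f → e = f)
    (h2 : ∀ e ∈ F, ∀ f ∈ F, ¬ iso e → ¬ iso f → al e = al f → be e = be f → e = f)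
    (h3 : ∀ e ∈ F, ¬ iso e → 1 ≤ al e ∧ 1 ≤ be e ∧ (al e * be e : ℝ) ≤ R) :
    (F.card : ℝ) ≤ 1 + R ^ 2 := by
  classical
  have hcard : F.card = (F.filter iso).card + (F.filter (fun e => ¬ iso e)).card :=
    (Finset.card_filter_add_card_filter_not iso).symm
  have hA : (F.filter iso).card ≤ 1 := by
    rw [Finset.card_le_one]
    intro e he f hf
    obtain ⟨he1, he2⟩ := Finset.mem_filter.mp he
    obtain ⟨hf1, hf2⟩ := Finset.mem_filter.mp hf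
    exact h1 e he1 f hf1 he2 hf2
  have hB : (F.filter (fun e => ¬ iso e)).card ≤ ⌊R⌋₊ * ⌊R⌋₊ := by
    have h4 : (F.filter (fun e => ¬ iso e)).card ≤
        ((Finset.Icc 1 ⌊R⌋₊) ×ˢ (Finset.Icc 1 ⌊R⌋₊)).card := by
      refine Finset.card_le_card_of_injOn (fun e => (al e, be e)) ?_ ?_
      · intro e he
        obtain ⟨he1, he2⟩ := Finset.mem_filter.mp he
        obtain ⟨ha, hb, hab⟩ := h3 e he1 he2
        have ha' : (1 : ℝ) ≤ al e := by exact_mod_cast ha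
        have hb' : (1 : ℝ) ≤ be e := by exact_mod_cast hb
        rw [Finset.mem_coe, Finset.mem_product, Finset.mem_Icc, Finset.mem_Icc]
        refine ⟨⟨ha, Nat.le_floor ?_⟩, ⟨hb, Nat.le_floor ?_⟩⟩
        · refine le_trans ?_ hab
          nlinarith
        · refine le_trans ?_ hab
          nlinarith
      · intro e he f hf hef
        obtain ⟨he1, he2⟩ := Finset.mem_filter.mp (Finset.mem_coe.mp he)
        obtain ⟨hf1, hf2⟩ := Finset.mem_filter.mp (Finset.mem_coe.mp hf)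
        obtain ⟨h5, h6⟩ := Prod.mk.inj hef
        exact h2 e he1 f hf1 he2 hf2 h5 h6
    rw [Finset.card_product, Nat.card_Icc] at h4
    simpa using h4
  have hfl : (⌊R⌋₊ : ℝ) ≤ R := Nat.floor_le hR
  have h5 : (F.card : ℝ) ≤ 1 + (⌊R⌋₊ : ℝ) * ⌊R⌋₊ := by
    have : F.card ≤ 1 + ⌊R⌋₊ * ⌊R⌋₊ := by omega
    exact_mod_cast this
  have h0 : (0 : ℝ) ≤ ⌊R⌋₊ := Nat.cast_nonneg _
  nlinarith

/-- The sixteenth root of two. -/
noncomputable def n3u : ℝ := (2 : ℝ) ^ (1 / 16 : ℝ)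

theorem n3u_pos : 0 < n3u := by unfold n3u; positivity

theorem n3u_pow : n3u ^ 16 = 2 := by
  unfold n3u
  rw [← Real.rpow_natCast, ← Real.rpow_mul (by norm_num)]
  norm_num

theorem n3u_one_lt : 1 < n3u := by
  unfold n3u
  exact Real.one_lt_rpow (by norm_num) (by norm_num)

/-- **N4.** The surviving inequality. -/
theorem N4_surv (al be as bs y₀ α β D : ℕ) (hy : 1 ≤ y₀) (has : as < 2 ^ (α + 1))
    (hbs : bs < 2 ^ (β + 1)) (has1 : 1 ≤ as) (hbs1 : 1 ≤ bs)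
    (h1 : al ≤ y₀ ∨ al ^ 16 ≤ bs ∨ al ^ 16 ≤ 2 ^ (D + 1))
    (h2 : be ≤ y₀ ∨ be ^ 16 ≤ as ∨ be ^ 16 ≤ 2 ^ (D + 1)) :
    (al * be : ℝ) ≤ y₀ ^ 2 * n3u ^ (α + β + 2 * D + 4) := by
  have hP : 1 ≤ 2 ^ (D + 1) := Nat.one_le_two_pow
  have hY : 1 ≤ y₀ ^ 16 := Nat.one_le_pow _ _ hy
  have e1 : al ^ 16 ≤ y₀ ^ 16 * (bs * 2 ^ (D + 1)) := by
    rcases h1 with h | h | h
    · calc al ^ 16 ≤ y₀ ^ 16 := Nat.pow_le_pow_left h 16
        _ = y₀ ^ 16 * (1 * 1) := by ring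
        _ ≤ y₀ ^ 16 * (bs * 2 ^ (D + 1)) := by gcongr
    · calc al ^ 16 ≤ bs := h
        _ = 1 * (bs * 1) := by ring
        _ ≤ y₀ ^ 16 * (bs * 2 ^ (D + 1)) := by gcongr
    · calc al ^ 16 ≤ 2 ^ (D + 1) := h
        _ = 1 * (1 * 2 ^ (D + 1)) := by ring
        _ ≤ y₀ ^ 16 * (bs * 2 ^ (D + 1)) := by gcongr
  have e2 : be ^ 16 ≤ y₀ ^ 16 * (as * 2 ^ (D + 1)) := by
    rcases h2 with h | h | h
    · calc be ^ 16 ≤ y₀ ^ 16 := Nat.pow_le_pow_left h 16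
        _ = y₀ ^ 16 * (1 * 1) := by ring
        _ ≤ y₀ ^ 16 * (as * 2 ^ (D + 1)) := by gcongr
    · calc be ^ 16 ≤ as := h
        _ = 1 * (as * 1) := by ring
        _ ≤ y₀ ^ 16 * (as * 2 ^ (D + 1)) := by gcongr
    · calc be ^ 16 ≤ 2 ^ (D + 1) := h
        _ = 1 * (1 * 2 ^ (D + 1)) := by ring
        _ ≤ y₀ ^ 16 * (as * 2 ^ (D + 1)) := by gcongr
  have e3 : (al * be) ^ 16 ≤ (y₀ ^ 2) ^ 16 * 2 ^ (α + β + 2 * D + 4) := by
    calc (al * be) ^ 16 = al ^ 16 * be ^ 16 := by ring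
      _ ≤ (y₀ ^ 16 * (bs * 2 ^ (D + 1))) * (y₀ ^ 16 * (as * 2 ^ (D + 1))) :=
        Nat.mul_le_mul e1 e2
      _ ≤ (y₀ ^ 16 * (2 ^ (β + 1) * 2 ^ (D + 1))) * (y₀ ^ 16 * (2 ^ (α + 1) * 2 ^ (D + 1))) := by
        gcongr
      _ = (y₀ ^ 2) ^ 16 * 2 ^ (α + β + 2 * D + 4) := by
        have h5 : (2 : ℕ) ^ (α + β + 2 * D + 4) =
            2 ^ (β + 1) * 2 ^ (D + 1) * (2 ^ (α + 1) * 2 ^ (D + 1)) := by
          rw [← pow_add, ← pow_add, ← pow_add]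
          congr 1
          ring
        rw [h5]
        ring
  have e4 : ((al * be : ℝ)) ^ 16 ≤ (y₀ ^ 2 * n3u ^ (α + β + 2 * D + 4)) ^ 16 := by
    have h5 : ((al * be : ℝ)) ^ 16 ≤ (y₀ ^ 2) ^ 16 * 2 ^ (α + β + 2 * D + 4) := by
      exact_mod_cast e3
    refine h5.trans (le_of_eq ?_)
    rw [mul_pow, ← pow_mul n3u, mul_comm (α + β + 2 * D + 4) 16, pow_mul, n3u_pow]
  have h0 : (0 : ℝ) ≤ y₀ ^ 2 * n3u ^ (α + β + 2 * D + 4) := by
    have := n3u_pos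
    positivity
  exact le_of_pow_le_pow_left₀ (by norm_num) h0 e4

end Pool.Agent.Lib.H20G
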